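import Mathlib

set_option autoImplicit false

/-! The standard involution of a group ring and adjoint matrices. -/

namespace Pool.Agent.R791

open Matrix

section bar

variable {R : Type*} [CommRing R] {G : Type*} [Group G]

/-- The standard involution of the group ring, which sends `g` to its inverse. -/
noncomputable def bar (x : MonoidAlgebra R G) : MonoidAlgebra R G :=
  MonoidAlgebra.mapDomain (fun g => g⁻¹) x

theorem coeff_bar (x : MonoidAlgebra R G) (g : G) : (bar x).coeff g = x.coeff g⁻¹ := by
  unfold bar
  have h2 : MonoidAlgebra.mapDomain (fun g => g⁻¹) x =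
      MonoidAlgebra.mapDomainAddEquiv (R := R) (Equiv.inv G) x := rfl
  rw [h2]
  simp

@[simp] theorem bar_single (g : G) (r : R) :
    bar (MonoidAlgebra.single g r) = MonoidAlgebra.single g⁻¹ r := by
  unfold bar
  rw [MonoidAlgebra.mapDomain_single]

@[simp] theorem bar_zero : bar (0 : MonoidAlgebra R G) = 0 := by
  unfold bar; exact MonoidAlgebra.mapDomain_zero _

theorem bar_add (x y : MonoidAlgebra R G) : bar (x + y) = bar x + bar y := by
  unfold bar; exact MonoidAlgebra.mapDomain_add _ _ _

@[simp] theorem bar_bar (x : MonoidAlgebra R G) : bar (bar x) = x := by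
  ext g; rw [coeff_bar, coeff_bar, inv_inv]

@[simp] theorem bar_one : bar (1 : MonoidAlgebra R G) = 1 := by
  rw [MonoidAlgebra.one_def, bar_single, inv_one]

theorem bar_sum {ι : Type*} (s : Finset ι) (f : ι → MonoidAlgebra R G) :
    bar (∑ i ∈ s, f i) = ∑ i ∈ s, bar (f i) := by
  classical
  induction s using Finset.induction_on with
  | empty => simp
  | insert i s hi ih => rw [Finset.sum_insert hi, Finset.sum_insert hi, bar_add, ih]

theorem bar_mul (x y : MonoidAlgebra R G) : bar (x * y) = bar y * bar x := by
  induction x using MonoidAlgebra.induction_linear with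
  | zero => simp
  | add x1 x2 h1 h2 => rw [add_mul, bar_add, h1, h2, bar_add, mul_add]
  | single g r =>
    induction y using MonoidAlgebra.induction_linear with
    | zero => simp
    | add y1 y2 h1 h2 => rw [mul_add, bar_add, h1, h2, bar_add, add_mul]
    | single h s =>
      rw [MonoidAlgebra.single_mul_single, bar_single, bar_single, bar_single,
        MonoidAlgebra.single_mul_single, _root_.mul_inv_rev, mul_comm r s]

end bar

section adj

variable {R : Type*} [CommRing R] {G : Type*} [Group G] {ι κ μ : Type*}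

/-- The adjoint (conjugate transpose) of a matrix over the group ring, for the involution `bar`. -/
noncomputable def adj (A : Matrix ι κ (MonoidAlgebra R G)) : Matrix κ ι (MonoidAlgebra R G) :=
  fun j i => bar (A i j)

theorem adj_apply (A : Matrix ι κ (MonoidAlgebra R G)) (i : ι) (j : κ) :
    adj A j i = bar (A i j) := rfl

theorem adj_mul [Fintype κ] (A : Matrix ι κ (MonoidAlgebra R G))
    (B : Matrix κ μ (MonoidAlgebra R G)) : adj (A * B) = adj B * adj A := by
  ext1 j i
  rw [adj_apply, Matrix.mul_apply, Matrix.mul_apply, bar_sum]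
  exact Finset.sum_congr rfl fun k _ => by rw [bar_mul]; rfl

theorem adj_one [DecidableEq ι] : adj (1 : Matrix ι ι (MonoidAlgebra R G)) = 1 := by
  ext1 j i
  rw [adj_apply, Matrix.one_apply, Matrix.one_apply]
  by_cases h : i = j
  · rw [if_pos h, if_pos h.symm, bar_one]
  · rw [if_neg h, if_neg (Ne.symm h), bar_zero]

end adj

section inv

variable {G : Type*} [Group G] {n : ℕ}

/-- The inverse of an `ε`-hermitian matrix is `ε`-hermitian. -/
theorem inv_herm (ε : ℤ) (hε : ε = 1 ∨ ε = -1)
    (A : (Matrix (Fin n) (Fin n) (MonoidAlgebra ℤ G))ˣ)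
    (hA : ∀ i j g, (A.val i j).coeff g = ε * (A.val j i).coeff g⁻¹) (i j : Fin n) (g : G) :
    ((A⁻¹).val i j).coeff g = ε * ((A⁻¹).val j i).coeff g⁻¹ := by
  have h1 : A.val = ε • adj A.val := by
    ext i j g
    rw [hA i j g, Matrix.smul_apply, adj_apply, MonoidAlgebra.coeff_smul, Finsupp.smul_apply,
      coeff_bar, smul_eq_mul]
  have hεε : ε * ε = 1 := by rcases hε with rfl | rfl <;> norm_num
  have h2 : (ε • adj (A⁻¹).val) * A.val = 1 := by
    rw [h1, smul_mul_smul_comm, hεε, one_smul, ← adj_mul, A.mul_inv, adj_one]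
  have h3 : (A⁻¹).val = ε • adj (A⁻¹).val := by
    calc (A⁻¹).val = ((ε • adj (A⁻¹).val) * A.val) * (A⁻¹).val := by rw [h2, one_mul]
      _ = ε • adj (A⁻¹).val := by rw [mul_assoc, A.mul_inv, mul_one]
  have h4 := congrArg (fun M : Matrix (Fin n) (Fin n) (MonoidAlgebra ℤ G) => (M i j).coeff g) h3
  simp only [Matrix.smul_apply, adj_apply, MonoidAlgebra.coeff_smul, Finsupp.smul_apply,
      coeff_bar, smul_eq_mul] at h4
  exact h4

end inv

end Pool.Agent.R791
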