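import Pool.Agent.R791.StarR

/-!
# Means of a function which is bounded near the vertex
-/

set_option autoImplicit false

open MeasureTheory Filter Topology Set Complex
open Pool.Agent.TH942.LS (Dat P P_le Cont Qf)
open Pool.Agent.TH942.SL

namespace Pool.Agent.R791.Bdd

variable {α : ℝ} {lam c : ℕ → ℝ} {δ σ : ℝ}

/-- **The order of magnitude of the means** if the function is bounded near the edge. -/
theorem bdd_gen (D : Dat lam c δ σ) (h0 : 0 < α) (h1 : α < 1) {f f' : ℂ → ℂ} {K C : ℝ}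
    (hf : ∀ v : ℂ, 0 < v.re → HasDerivAt f (f' v) v)
    (hf' : ∀ v : ℂ, 0 < v.re → DifferentiableAt ℂ f' v) {x₀ : ℝ} (hx1 : 1 ≤ x₀)
    (hx₀ : ∀ z : ℂ, 0 < z.re → x₀ ≤ ‖z‖ → σ + 1 ≤ kap α * ‖z‖ ^ α)
    (hff : ∀ v : ℂ, 0 < v.re → x₀ ≤ ‖v‖ → f v = f₀ lam c α v ∧ f' v = f₁ lam c α v)
    (hb : ∀ v : ℂ, 0 < v.re → ‖v‖ ≤ x₀ → ‖f v + K * log v‖ ≤ C ∧ ‖v * f' v + K‖ ≤ C) :
    ∃ C' : ℝ, ∀ y : ℝ, 1 ≤ y → |M lam c α y - K * Real.log y| ≤ C' := by
  set κ₀ : ℂ := 0 with hκ₀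
  have hx00 : 0 < x₀ := by linarith
  have hS := S₀_nonneg lam c σ
  have hδ := D.δ0
  set p : ℝ := 2 - α with hp
  have hp1 : 1 < p := by rw [hp]; linarith
  have hp0 : 0 ≤ p := by linarith
  have hp2 : p ≤ 2 := by rw [hp]; linarith
  have hpi := Real.pi_pos
  have hre : ∀ x t : ℝ, ((x : ℂ) + t * I).re = x := fun x t => by simp
  have him : ∀ x t : ℝ, ((x : ℂ) + t * I).im = t := fun x t => by simp
  have hC0 : 0 ≤ C := (norm_nonneg _).trans (hb 1 (by simp) (by simpa using hx1)).1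
  set h : ℂ → ℂ := hh f f' with hh'
  have hhd : ∀ z : ℂ, 0 < z.re → DifferentiableAt ℂ h z := fun z hz =>
    hh_diff hz (hf z hz).differentiableAt (hf' z hz)
  have hsqd : ∀ z : ℂ, 0 < z.re → DifferentiableAt ℂ (fun z : ℂ => 1 / z ^ 2) z := fun z hz => by
    have e2 : DifferentiableAt ℂ (fun z : ℂ => z ^ 2) z := by fun_prop
    exact (differentiableAt_const 1).div e2 (pow_ne_zero 2 (ne_zero' hz))
  -- the far part
  obtain ⟨Cg, hCg, hgl⟩ := gl_bound h0 hx00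
  set A : ℝ := S₀ lam c σ + α * (2 / δ * S₀ lam c σ) with hA
  have hA0 : 0 ≤ A := by positivity
  have hfar : ∀ z : ℂ, 0 < z.re → x₀ ≤ ‖z‖ → ‖h z‖ ≤ A * ‖z‖ ^ (-p) := by
    intro z hz hz2
    obtain ⟨e1, e2⟩ := hff z hz hz2
    have e3 : h z = hh (f₀ lam c α) (f₁ lam c α) z := by
      rw [hh']
      unfold hh
      rw [e1, e2]
    rw [e3]
    exact hh_bound D h0 h1 hz (by linarith) (hx₀ z hz hz2)
  -- the remainder
  set R : ℂ → ℂ := fun z => h z - K * gl z - κ₀ * (1 / z ^ 2) with hR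
  have hRd : ∀ z : ℂ, 0 < z.re → DifferentiableAt ℂ R z := fun z hz =>
    ((hhd z hz).sub ((gl_diff hz).const_mul _)).sub ((hsqd z hz).const_mul _)
  have hR0 : ∀ z : ℂ, 0 < z.re → R z * z ^ 2 =
      (f z + K * log z - κ₀) - (z * f' z + K) := by
    intro z hz
    have hz0 := ne_zero' hz
    rw [hR, hh']
    unfold hh gl
    field_simp
    ring
  have hsq : ∀ z : ℂ, x₀ ≤ ‖z‖ → 1 / ‖z‖ ^ 2 ≤ ‖z‖ ^ (-p) := by
    intro z hz
    have hn : 1 ≤ ‖z‖ := hx1.trans hz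
    have e1 : 1 / ‖z‖ ^ 2 = ‖z‖ ^ (-(2 : ℝ)) := by
      rw [rpow_neg_two (by linarith), one_div]
    rw [e1]
    exact Real.rpow_le_rpow_of_exponent_le hn (by linarith)
  set C₅ : ℝ := max (2 * C + ‖κ₀‖) ((A + ‖(K : ℂ)‖ * Cg + ‖κ₀‖) * (1 + 1 / x₀) ^ p) with hC5
  have hC50 : 0 ≤ C₅ := le_max_of_le_left (by positivity)
  have r2 : ∀ z : ℂ, 0 < z.re → ‖z‖ ≤ x₀ → ‖R z‖ ≤ C₅ / ‖z‖ ^ 2 := by
    intro z hz hzr
    have hn := norm_pos' hz
    obtain ⟨e1, e2⟩ := hb z hz hzr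
    rw [le_div_iff₀ (by positivity), ← norm_pow, ← norm_mul, hR0 z hz]
    calc _ ≤ ‖f z + K * log z - κ₀‖ + ‖z * f' z + K‖ := norm_sub_le _ _
      _ ≤ (‖f z + K * log z‖ + ‖κ₀‖) + C := add_le_add (norm_sub_le _ _) e2
      _ ≤ 2 * C + ‖κ₀‖ := by linarith
      _ ≤ _ := le_max_left _ _
  have r3' : ∀ z : ℂ, 0 < z.re → x₀ ≤ ‖z‖ → ‖R z‖ ≤ C₅ * (1 + |z.im|) ^ (-p) := by
    intro z hz hzr
    have hn := norm_pos' hz
    have e1 := hfar z hz hzr
    have e2 := hgl z hzr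
    have e3 := hsq z hzr
    have e4 := nb hx00 hp0 hzr
    have e5 : ‖κ₀ * (1 / z ^ 2)‖ ≤ ‖κ₀‖ * ‖z‖ ^ (-p) := by
      rw [norm_mul, norm_div, norm_one, norm_pow]
      gcongr
    have e6 : ‖(K : ℂ) * gl z‖ ≤ ‖(K : ℂ)‖ * (Cg * ‖z‖ ^ (-p)) := by
      rw [norm_mul]
      exact mul_le_mul_of_nonneg_left e2 (norm_nonneg _)
    have htp : 0 ≤ (1 + |z.im|) ^ (-p) := by positivity
    calc ‖R z‖ ≤ ‖h z - K * gl z‖ + ‖κ₀ * (1 / z ^ 2)‖ := norm_sub_le _ _
      _ ≤ ‖h z‖ + ‖(K : ℂ) * gl z‖ + ‖κ₀ * (1 / z ^ 2)‖ := by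
          gcongr
          exact norm_sub_le _ _
      _ ≤ A * ‖z‖ ^ (-p) + ‖(K : ℂ)‖ * (Cg * ‖z‖ ^ (-p)) + ‖κ₀‖ * ‖z‖ ^ (-p) :=
          add_le_add (add_le_add e1 e6) e5
      _ = (A + ‖(K : ℂ)‖ * Cg + ‖κ₀‖) * ‖z‖ ^ (-p) := by ring
      _ ≤ (A + ‖(K : ℂ)‖ * Cg + ‖κ₀‖) * ((1 + 1 / x₀) ^ p * (1 + |z.im|) ^ (-p)) := by gcongr
      _ = ((A + ‖(K : ℂ)‖ * Cg + ‖κ₀‖) * (1 + 1 / x₀) ^ p) * (1 + |z.im|) ^ (-p) := by ring
      _ ≤ _ := mul_le_mul_of_nonneg_right (le_max_right _ _) htp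
  -- the main formula
  have key : ∀ y : ℝ, 1 ≤ y → ‖((M lam c α y - K * Real.log y : ℝ) : ℂ) -
      (κ₀ + K * Real.eulerMascheroniConstant)‖ ≤ (2 * Real.pi)⁻¹ * Real.exp 1 *
        ((1 / y) * ∫ t : ℝ, ‖R (((1 / y : ℝ) : ℂ) + t * I)‖) := by
    intro y hy
    have hy0 : 0 < y := by linarith
    have hyc : (y : ℂ) ≠ 0 := by exact_mod_cast hy0.ne'
    set c₀ : ℝ := 1 / y with hc₀
    have hc00 : 0 < c₀ := by positivity
    have hc01 : c₀ ≤ 1 := by rw [hc₀, div_le_one hy0]; exact hy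
    have hc0x : c₀ ≤ x₀ := hc01.trans hx1
    have hcy : c₀ * y = 1 := by rw [hc₀]; field_simp
    -- the bounds on the strip
    obtain ⟨Cg', hCg', hgl'⟩ := gl_bound h0 hc00
    have hgb : ∀ z : ℂ, c₀ ≤ z.re → ‖gl z‖ ≤
        (Cg' * (1 + 1 / c₀) ^ p) * (1 + |z.im|) ^ (-p) := by
      intro z hz1
      have e0 := hz1.trans (re_le_norm z)
      have e2 := hgl' z e0
      have e3 := nb hc00 hp0 e0
      rw [mul_assoc]
      exact e2.trans (mul_le_mul_of_nonneg_left e3 hCg')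
    set Bh : ℝ := C₅ * (1 + 1 / c₀) ^ (2 : ℝ) + C₅ +
      ‖(K : ℂ)‖ * (Cg' * (1 + 1 / c₀) ^ p) + ‖κ₀‖ * (1 + 1 / c₀) ^ (2 : ℝ) with hBh
    have hBh0 : 0 ≤ Bh := by positivity
    have hhb : ∀ z : ℂ, c₀ ≤ z.re → ‖h z‖ ≤ Bh * (1 + |z.im|) ^ (-p) := by
      intro z hz1
      have hz0 : 0 < z.re := hc00.trans_le hz1
      have htp : 0 < (1 + |z.im|) ^ (-p) := Real.rpow_pos_of_pos (by positivity) _
      have e1 : h z = R z + K * gl z + κ₀ * (1 / z ^ 2) := by rw [hR]; ring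
      have e3 := sq_line hc00 hz1 hp2
      have e5 : ‖(K : ℂ) * gl z‖ ≤ ‖(K : ℂ)‖ * ((Cg' * (1 + 1 / c₀) ^ p) *
          (1 + |z.im|) ^ (-p)) := by
        rw [norm_mul]
        exact mul_le_mul_of_nonneg_left (hgb z hz1) (norm_nonneg _)
      have e6 : ‖κ₀ * (1 / z ^ 2)‖ ≤ ‖κ₀‖ * ((1 + 1 / c₀) ^ (2 : ℝ) * (1 + |z.im|) ^ (-p)) := by
        rw [norm_mul, norm_div, norm_one, norm_pow]
        exact mul_le_mul_of_nonneg_left e3 (norm_nonneg _)
      have e7 : ‖R z‖ ≤ (C₅ * (1 + 1 / c₀) ^ (2 : ℝ) + C₅) * (1 + |z.im|) ^ (-p) := by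
        rcases le_total ‖z‖ x₀ with h2 | h2
        · have e8 := r2 z hz0 h2
          have e9 : C₅ / ‖z‖ ^ 2 = C₅ * (1 / ‖z‖ ^ 2) := by ring
          rw [e9] at e8
          have e10 := mul_le_mul_of_nonneg_left e3 hC50
          have e11 : 0 ≤ C₅ * (1 + |z.im|) ^ (-p) := by positivity
          rw [add_mul]
          linarith
        · have e8 := r3' z hz0 h2
          have e11 : 0 ≤ C₅ * (1 + 1 / c₀) ^ (2 : ℝ) * (1 + |z.im|) ^ (-p) := by positivity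
          rw [add_mul]
          linarith
      rw [e1]
      calc _ ≤ ‖R z‖ + ‖(K : ℂ) * gl z‖ + ‖κ₀ * (1 / z ^ 2)‖ := norm_add₃_le
        _ ≤ (C₅ * (1 + 1 / c₀) ^ (2 : ℝ) + C₅) * (1 + |z.im|) ^ (-p) + ‖(K : ℂ)‖ * ((Cg' *
          (1 + 1 / c₀) ^ p) * (1 + |z.im|) ^ (-p)) + ‖κ₀‖ * ((1 + 1 / c₀) ^ (2 : ℝ) *
          (1 + |z.im|) ^ (-p)) := add_le_add (add_le_add e7 e5) e6
        _ = _ := by rw [hBh]; ring
    -- the formula on the line `x₀`
    have a1 : ((y * M lam c α y : ℝ) : ℂ) = V x₀ (fun z => exp (z * y) * h z) := by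
      rw [yM_eq D h0 h1 hx1 hy0 hx₀]
      unfold V
      congr 2
      funext t
      have e1 : 0 < ((x₀ : ℂ) + t * I).re := by rw [hre]; linarith
      have e2 : x₀ ≤ ‖(x₀ : ℂ) + t * I‖ := by
        have := re_le_norm ((x₀ : ℂ) + t * I)
        rwa [hre] at this
      obtain ⟨e3, e4⟩ := hff _ e1 e2
      rw [hh']
      unfold hh
      simp only
      rw [e3, e4]
    have a2 : V x₀ (fun z => exp (z * y) * h z) = V c₀ (fun z => exp (z * y) * h z) := by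
      refine (shift hp1 hc0x (B := Real.exp (x₀ * y) * Bh) (fun s hs _ => ?_)
        fun s hs hs2 => ?_).symm
      · exact DifferentiableAt.mul (by fun_prop) (hhd s (hc00.trans_le hs))
      · rw [norm_mul, Complex.norm_exp, Complex.re_mul_ofReal, mul_assoc]
        refine mul_le_mul (Real.exp_le_exp.2 ?_) (hhb s hs) (norm_nonneg _) (Real.exp_pos _).le
        exact mul_le_mul_of_nonneg_right hs2 hy0.le
    -- integrability
    have hline : ∀ (F : ℂ → ℂ) (B : ℝ), (∀ z : ℂ, 0 < z.re → DifferentiableAt ℂ F z) →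
        (∀ z : ℂ, z.re = c₀ → ‖F z‖ ≤ B * (1 + |z.im|) ^ (-p)) →
        Integrable fun t : ℝ => exp (((c₀ : ℂ) + t * I) * y) * F (c₀ + t * I) := by
      intro F B hF hFB
      refine line_int (H := fun z => exp (z * y) * F z) (p := p)
        (B := Real.exp 1 * B) hp1 (fun s hs => ?_) (fun s hs => ?_)
      · have hs0 : 0 < s.re := by rw [hs]; exact hc00
        have e2 : DifferentiableAt ℂ (fun z : ℂ => exp (z * y)) s := by fun_prop
        exact (e2.mul (hF s hs0)).continuousAt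
      · rw [norm_mul, Complex.norm_exp, Complex.re_mul_ofReal, hs, hcy, mul_assoc (Real.exp 1)]
        exact mul_le_mul_of_nonneg_left (hFB s hs) (Real.exp_pos _).le
    have ig := hline gl _ (fun z hz => gl_diff hz) (fun z hz => hgb z hz.ge)
    have iq := hline (fun z => 1 / z ^ 2) ((1 + 1 / c₀) ^ (2 : ℝ)) (fun z hz => hsqd z hz)
      (fun z hz => by
        rw [norm_div, norm_one, norm_pow]
        exact sq_line hc00 hz.ge hp2)
    have ih := hline h Bh hhd (fun z hz => hhb z hz.ge)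
    have iR : Integrable fun t : ℝ => exp (((c₀ : ℂ) + t * I) * y) * R (c₀ + t * I) := by
      have e1 := (ih.sub (ig.const_mul (K : ℂ))).sub (iq.const_mul κ₀)
      refine e1.congr (ae_of_all _ fun t => ?_)
      simp only [Pi.sub_apply]
      rw [hR]
      ring
    have a3 : V c₀ (fun z => exp (z * y) * h z) = V c₀ (fun z => exp (z * y) * R z) +
        K * V c₀ (fun z => exp (z * y) * gl z) + κ₀ * V c₀ (fun z => exp (z * y) / z ^ 2) := by
      have e1 : ∀ t : ℝ, exp (((c₀ : ℂ) + t * I) * y) * h (c₀ + t * I) =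
          exp (((c₀ : ℂ) + t * I) * y) * R (c₀ + t * I) +
          (K : ℂ) * (exp (((c₀ : ℂ) + t * I) * y) * gl (c₀ + t * I)) +
          κ₀ * (exp (((c₀ : ℂ) + t * I) * y) * (1 / ((c₀ : ℂ) + t * I) ^ 2)) := by
        intro t
        rw [hR]
        ring
      unfold V
      simp only [e1]
      have i1 : Integrable fun t : ℝ => exp (((c₀ : ℂ) + t * I) * y) * R (c₀ + t * I) +
          (K : ℂ) * (exp (((c₀ : ℂ) + t * I) * y) * gl (c₀ + t * I)) :=
        iR.add (ig.const_mul _)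
      rw [integral_add i1 (iq.const_mul _),
        integral_add iR (ig.const_mul _), integral_const_mul, integral_const_mul]
      simp only [mul_one_div]
      ring
    have a4 : V c₀ (fun z => exp (z * y) * gl z) =
        y * (Real.eulerMascheroniConstant + Real.log y) := by
      rw [← gg_line hc00 (Or.inl hc01), gg_pos hy0, L₀_eq]
    have a5 : V c₀ (fun z => exp (z * y) / z ^ 2) = y := V_sq hy0
    have a6 : ((M lam c α y - K * Real.log y : ℝ) : ℂ) -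
        (κ₀ + K * Real.eulerMascheroniConstant) =
        (1 / y : ℂ) * V c₀ (fun z => exp (z * y) * R z) := by
      rw [a2, a3, a4, a5] at a1
      push_cast at a1 ⊢
      rw [one_div, eq_inv_mul_iff_mul_eq₀ hyc]
      linear_combination a1
    rw [a6, norm_mul]
    have e0 : ‖(1 / y : ℂ)‖ = 1 / y := by
      rw [norm_div, norm_one, Complex.norm_real, Real.norm_eq_abs, abs_of_pos hy0]
    have e1 := norm_V_le (H := fun z => exp (z * y) * R z) (c := c₀)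
      (g := fun t => ‖exp (((c₀ : ℂ) + t * I) * y) * R (c₀ + t * I)‖) iR.norm (fun t => le_rfl)
    have e2 : ∀ t : ℝ, ‖exp (((c₀ : ℂ) + t * I) * y) * R (c₀ + t * I)‖ =
        Real.exp 1 * ‖R (c₀ + t * I)‖ := fun t => by
      rw [norm_mul, Complex.norm_exp, Complex.re_mul_ofReal, hre, hcy]
    simp only [e2] at e1
    rw [integral_const_mul] at e1
    rw [e0]
    calc 1 / y * ‖V c₀ (fun z => exp (z * y) * R z)‖ ≤ 1 / y * ((2 * Real.pi)⁻¹ *
          (Real.exp 1 * ∫ t : ℝ, ‖R (c₀ + t * I)‖)) := by gcongr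
      _ = _ := by rw [hc₀]; ring
  -- the integral
  have hI0 : Integrable (fun t : ℝ => (1 + |t|) ^ (-p)) := decay_int hp1
  have hint : ∀ y : ℝ, 1 ≤ y → ∫ t : ℝ, ‖R (((1 / y : ℝ) : ℂ) + t * I)‖ ≤
      C₅ * (Real.pi * y) + C₅ * ∫ t : ℝ, (1 + |t|) ^ (-p) := by
    intro y hy
    have hy0 : 0 < y := by linarith
    have e1 : ∀ t : ℝ, (1 + (t * y) ^ 2)⁻¹ * y ^ 2 = 1 / ((1 / y) ^ 2 + t ^ 2) := fun t => by
      field_simp
    have e2 : ∫ t : ℝ, (1 + (t * y) ^ 2)⁻¹ * y ^ 2 = Real.pi * y := by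
      rw [integral_mul_const]
      have e3 := Measure.integral_comp_mul_right (fun t : ℝ => (1 + t ^ 2)⁻¹) y
      rw [e3, integral_univ_inv_one_add_sq, abs_of_pos (by positivity), smul_eq_mul]
      field_simp
    have e4 : Integrable fun t : ℝ => (1 + (t * y) ^ 2)⁻¹ * y ^ 2 := by
      have := (integrable_inv_one_add_sq).comp_mul_right' hy0.ne'
      exact this.mul_const _
    have e5 : Integrable fun t : ℝ => C₅ * ((1 + (t * y) ^ 2)⁻¹ * y ^ 2) + C₅ * (1 + |t|) ^ (-p) :=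
      (e4.const_mul _).add (hI0.const_mul _)
    calc ∫ t : ℝ, ‖R (((1 / y : ℝ) : ℂ) + t * I)‖ ≤
          ∫ t : ℝ, (C₅ * ((1 + (t * y) ^ 2)⁻¹ * y ^ 2) + C₅ * (1 + |t|) ^ (-p)) := by
          refine integral_mono_of_nonneg (ae_of_all _ fun t => norm_nonneg _) e5
            (ae_of_all _ fun t => ?_)
          simp only
          set z : ℂ := ((1 / y : ℝ) : ℂ) + t * I with hz
          have hzr : 0 < z.re := by rw [hz, hre]; positivity
          have hzi : z.im = t := by rw [hz, him]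
          have hzn : ‖z‖ ^ 2 = (1 / y) ^ 2 + t ^ 2 := by
            rw [← Complex.normSq_eq_norm_sq, Complex.normSq_apply, hzi, hz, hre]
            ring
          have k1 : 0 ≤ C₅ * ((1 + (t * y) ^ 2)⁻¹ * y ^ 2) := by positivity
          have k2 : 0 ≤ C₅ * (1 + |t|) ^ (-p) := by positivity
          rcases le_total ‖z‖ x₀ with h2 | h2
          · have k3 := r2 z hzr h2
            rw [hzn, div_eq_mul_one_div, ← e1] at k3
            linarith
          · have k3 := r3' z hzr h2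
            rw [hzi] at k3
            linarith
      _ = _ := by
          rw [integral_add (e4.const_mul _) (hI0.const_mul _), integral_const_mul,
            integral_const_mul, e2]
  refine ⟨(2 * Real.pi)⁻¹ * Real.exp 1 * (C₅ * Real.pi + C₅ * ∫ t : ℝ, (1 + |t|) ^ (-p)) +
    |K * Real.eulerMascheroniConstant|, fun y hy => ?_⟩
  have hy0 : 0 < y := by linarith
  have e1 := key y hy
  rw [hκ₀, zero_add, ← Complex.ofReal_mul, ← Complex.ofReal_sub, Complex.norm_real,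
    Real.norm_eq_abs] at e1
  have hJ : 0 ≤ ∫ t : ℝ, (1 + |t|) ^ (-p) := integral_nonneg fun t => by positivity
  have e2 : (1 / y) * ∫ t : ℝ, ‖R (((1 / y : ℝ) : ℂ) + t * I)‖ ≤
      C₅ * Real.pi + C₅ * ∫ t : ℝ, (1 + |t|) ^ (-p) := by
    calc _ ≤ (1 / y) * (C₅ * (Real.pi * y) + C₅ * ∫ t : ℝ, (1 + |t|) ^ (-p)) :=
          mul_le_mul_of_nonneg_left (hint y hy) (by positivity)
      _ = C₅ * Real.pi + (1 / y) * (C₅ * ∫ t : ℝ, (1 + |t|) ^ (-p)) := by field_simp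
      _ ≤ _ := by
          have : (1 / y) * (C₅ * ∫ t : ℝ, (1 + |t|) ^ (-p)) ≤ C₅ * ∫ t : ℝ, (1 + |t|) ^ (-p) :=
            mul_le_of_le_one_left (by positivity) (by rw [div_le_one hy0]; exact hy)
          linarith
  have e3 : (2 * Real.pi)⁻¹ * Real.exp 1 * ((1 / y) * ∫ t : ℝ, ‖R (((1 / y : ℝ) : ℂ) + t * I)‖) ≤
      (2 * Real.pi)⁻¹ * Real.exp 1 * (C₅ * Real.pi + C₅ * ∫ t : ℝ, (1 + |t|) ^ (-p)) :=
    mul_le_mul_of_nonneg_left e2 (by positivity)
  have e4 := abs_add_le (M lam c α y - K * Real.log y - K * Real.eulerMascheroniConstant)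
    (K * Real.eulerMascheroniConstant)
  rw [sub_add_cancel] at e4
  linarith

/-- boundedness in smaller sectors -/
lemma sect_bdd' {ρ₁ ρ₂ : ℝ} (h₁ : 1 < ρ₁) (h : ρ₁ < ρ₂) {e : ℂ → ℂ}
    (hd : ∀ s ∈ Sect ρ₁, ContinuousAt e s) {B : ℝ}
    (hl : ∀ᶠ s in 𝓝[Sect ρ₁] 0, ‖e s‖ ≤ B) (X : ℝ) :
    ∃ C : ℝ, 0 ≤ C ∧ ∀ s ∈ Sect ρ₂, ‖s‖ ≤ X → ‖e s‖ ≤ C := by
  have h₂ : 1 < ρ₂ := h₁.trans h
  have hsub := sect_mono h₁ h.le
  rw [eventually_nhdsWithin_iff, Metric.eventually_nhds_iff] at hl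
  obtain ⟨r, hr, h4⟩ := hl
  set t₂ := Real.tan (Real.pi / (2 * ρ₂)) with ht2
  have ht : t₂ < Real.tan (Real.pi / (2 * ρ₁)) := tan_lt' h₁ h
  set Kc : Set ℂ := {s : ℂ | |s.im| ≤ t₂ * s.re ∧ r ≤ ‖s‖ ∧ ‖s‖ ≤ X} with hKc
  have hKcl : IsClosed Kc := by
    have c1 : IsClosed {s : ℂ | |s.im| ≤ t₂ * s.re} :=
      isClosed_le Complex.continuous_im.abs (Complex.continuous_re.const_mul t₂)
    have c2 : IsClosed {s : ℂ | r ≤ ‖s‖} := isClosed_le continuous_const continuous_norm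
    have c3 : IsClosed {s : ℂ | ‖s‖ ≤ X} := isClosed_le continuous_norm continuous_const
    exact c1.inter (c2.inter c3)
  have hKcc : IsCompact Kc := by
    refine (isCompact_closedBall (0 : ℂ) X).of_isClosed_subset hKcl ?_
    rintro v ⟨-, -, h⟩
    rwa [Metric.mem_closedBall, dist_zero_right]
  have hKsub : Kc ⊆ Sect ρ₁ := by
    rintro s ⟨e1, e2, e3⟩
    have ht20 : 0 < t₂ := tan_pos' h₂
    have e4 : 0 ≤ s.re := by
      by_contra hcon
      push Not at hcon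
      have := abs_nonneg s.im
      nlinarith
    have e5 : 0 < s.re := by
      rcases e4.eq_or_lt with h | h
      · exfalso
        rw [← h, mul_zero] at e1
        have e6 : s.im = 0 := abs_eq_zero.1 (le_antisymm e1 (abs_nonneg _))
        have e7 : s = 0 := Complex.ext h.symm e6
        rw [e7, norm_zero] at e2
        linarith
      · exact h
    exact (sect_iff h₁).2 ⟨e5, e1.trans_lt (mul_lt_mul_of_pos_right ht e5)⟩
  obtain ⟨C, hC⟩ := hKcc.exists_bound_of_continuousOn (f := e) fun s hs =>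
    (hd s (hKsub hs)).continuousWithinAt
  refine ⟨|C| + |B|, by positivity, fun s hs hX => ?_⟩
  rcases lt_or_ge ‖s‖ r with h5 | h5
  · have e1 := h4 (y := s) (by rwa [dist_zero_right]) (hsub hs)
    have := abs_nonneg C
    have := le_abs_self B
    linarith
  · have e1 := hC s ⟨((sect_iff h₂).1 hs).2.le, h5, hX⟩
    have := le_abs_self C
    have := abs_nonneg B
    linarith

/-- **The means of a function which is `-K log s + O(1)` at the vertex.** -/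
theorem bdd_sector (D : Dat lam c δ σ) {ρ₁ ρ : ℝ} (h₁ : 1 < ρ₁) (hρ₁ : ρ₁ < ρ) {Dh : ℂ → ℂ}
    (hd : ∀ s ∈ Sect ρ₁, DifferentiableAt ℂ Dh s)
    (he : ∀ s ∈ Sect ρ₁, σ < s.re → Dh s = DD lam c s) {K B : ℝ}
    (hl : ∀ᶠ s in 𝓝[Sect ρ₁] 0, ‖Dh s + K * log s‖ ≤ B) :
    ∃ C : ℝ, ∀ y : ℝ, 1 ≤ y → |M lam c ρ⁻¹ y - K * ρ⁻¹ * Real.log y| ≤ C := by
  have hρ : 1 < ρ := h₁.trans hρ₁
  have hρ0 : 0 < ρ := by linarith
  have h0 : 0 < ρ⁻¹ := by positivity
  have h1 : ρ⁻¹ < 1 := inv_lt_one_of_one_lt₀ hρ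
  set α : ℝ := ρ⁻¹ with hα
  set ρ₂ : ℝ := (ρ₁ + ρ) / 2 with hρ₂
  have h12 : ρ₁ < ρ₂ := by rw [hρ₂]; linarith
  have h2ρ : ρ₂ < ρ := by rw [hρ₂]; linarith
  have h₂ : 1 < ρ₂ := h₁.trans h12
  have hsub : Sect ρ ⊆ Sect ρ₁ := sect_mono h₁ hρ₁.le
  have hSm : ∀ v : ℂ, 0 < v.re → v ^ (α : ℂ) ∈ Sect ρ := by
    intro v hv
    refine ⟨ne_zero' (re_pow_pos h0 h1 hv), ?_⟩
    refine (arg_pow h0 h1 hv).trans_le (le_of_eq ?_)
    rw [hα]
    field_simp
  -- the function `e`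
  set e : ℂ → ℂ := fun s => Dh s + K * log s with hedef
  have hed : ∀ s ∈ Sect ρ₁, DifferentiableAt ℂ e s := fun s hs =>
    (hd s hs).add ((Complex.hasDerivAt_log (slit (sect_re h₁ hs))).differentiableAt.const_mul _)
  have hde : ∀ s ∈ Sect ρ₁, s * deriv e s = s * deriv Dh s + K := by
    intro s hs
    have e1 : HasDerivAt e (deriv Dh s + K * s⁻¹) s :=
      (hd s hs).hasDerivAt.add ((Complex.hasDerivAt_log (slit (sect_re h₁ hs))).const_mul _)
    rw [e1.deriv]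
    have := hs.1
    field_simp
  -- the function `f`
  set f : ℂ → ℂ := fun v => Dh (v ^ (α : ℂ)) with hf
  have hUo : IsOpen {v : ℂ | 0 < v.re} := isOpen_lt continuous_const Complex.continuous_re
  have hfd : ∀ v : ℂ, 0 < v.re → HasDerivAt f (deriv Dh (v ^ (α : ℂ)) *
      (α * v ^ ((α : ℂ) - 1))) v := fun v hv =>
    HasDerivAt.comp (h := fun v : ℂ => v ^ (α : ℂ)) v (hd _ (hsub (hSm v hv))).hasDerivAt
      (pow_deriv (slit hv))
  have hfd' : ∀ v : ℂ, 0 < v.re → DifferentiableAt ℂ (deriv f) v := fun v hv => by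
    have h2 : DifferentiableOn ℂ f {v : ℂ | 0 < v.re} := fun z hz =>
      (hfd z hz).differentiableAt.differentiableWithinAt
    exact (h2.analyticAt (hUo.mem_nhds hv)).deriv.differentiableAt
  have hlog : ∀ v : ℂ, 0 < v.re → f v + ((K * α : ℝ) : ℂ) * log v = e (v ^ (α : ℂ)) := by
    intro v hv
    rw [hedef, hf]
    simp only
    rw [log_pow h0 h1 hv]
    push_cast
    ring
  have hvd : ∀ v : ℂ, 0 < v.re → v * deriv f v + ((K * α : ℝ) : ℂ) =
      α * (v ^ (α : ℂ) * deriv e (v ^ (α : ℂ))) := by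
    intro v hv
    rw [hde _ (hsub (hSm v hv)), (hfd v hv).deriv]
    have e1 : v ^ ((α : ℂ) - 1) = v ^ (α : ℂ) / v := by
      rw [Complex.cpow_sub _ _ (ne_zero' hv), Complex.cpow_one]
    rw [e1]
    have := ne_zero' hv
    push_cast
    field_simp
  obtain ⟨x₀, hx11, hx₀⟩ := exists_abscissa h0 h1 σ
  -- bounds
  obtain ⟨C₁, hC₁, hb₁⟩ := sect_bdd' h₁ h12 (fun s hs => (hed s hs).continuousAt) hl (2 * x₀ ^ α)
  obtain ⟨η, hη0, hη1, hη⟩ := sect_margin h₂ h2ρ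
  have hb₂ : ∀ s ∈ Sect ρ, ‖s‖ ≤ x₀ ^ α → ‖s * deriv e s‖ ≤ C₁ / η := by
    intro s hs hsx
    have hn : 0 < ‖s‖ := norm_pos_iff.2 hs.1
    have hin : ∀ z ∈ Metric.closedBall s (η * ‖s‖), z ∈ Sect ρ₂ ∧ ‖z‖ ≤ 2 * x₀ ^ α := by
      intro z hz
      rw [Metric.mem_closedBall, dist_eq_norm] at hz
      refine ⟨hη s hs z hz, ?_⟩
      have e1 := norm_add_le (z - s) s
      rw [sub_add_cancel] at e1
      nlinarith
    have e1 : ‖deriv e s‖ ≤ C₁ / (η * ‖s‖) := by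
      refine Complex.norm_deriv_le_of_forall_mem_sphere_norm_le (by positivity) ?_ fun z hz => ?_
      · refine DifferentiableOn.diffContOnCl fun z hz => ?_
        rw [closure_ball _ (by positivity)] at hz
        exact (hed z (sect_mono h₁ h12.le (hin z hz).1)).differentiableWithinAt
      · obtain ⟨h4, h5⟩ := hin z (Metric.sphere_subset_closedBall hz)
        exact hb₁ z h4 h5
    rw [norm_mul]
    calc ‖s‖ * ‖deriv e s‖ ≤ ‖s‖ * (C₁ / (η * ‖s‖)) := by gcongr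
      _ = C₁ / η := by field_simp
  have hpn : ∀ v : ℂ, ‖v‖ ≤ x₀ → ‖v ^ (α : ℂ)‖ ≤ x₀ ^ α := by
    intro v hv
    rw [norm_pow']
    exact Real.rpow_le_rpow (norm_nonneg _) hv h0.le
  exact bdd_gen D h0 h1 (f := f) (f' := deriv f) (K := K * α)
    (C := C₁ + α * (C₁ / η)) (fun v hv => (hfd v hv).differentiableAt.hasDerivAt) hfd' hx11 hx₀
    (fun v hv hv2 => by
      have e1 := hx₀ v hv hv2
      have e2 := re_pow_ge h0 h1 hv
      have e3 : σ < (v ^ (α : ℂ)).re := by linarith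
      have e4 : ∀ᶠ w in 𝓝 v, f w = f₀ lam c α w := by
        have hc : ContinuousAt (fun w : ℂ => (w ^ (α : ℂ)).re) v :=
          Complex.continuous_re.continuousAt.comp
            (ContinuousAt.cpow continuousAt_id continuousAt_const (slit hv))
        filter_upwards [hUo.mem_nhds hv, hc.eventually (lt_mem_nhds e3)] with w h2 h3
        exact he _ (hsub (hSm w h2)) h3
      refine ⟨e4.self_of_nhds, ?_⟩
      have e5 : f =ᶠ[𝓝 v] f₀ lam c α := e4
      rw [e5.deriv_eq]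
      exact (f₀_deriv D hv e3).deriv)
    (fun v hv hvx => by
      have hs := hSm v hv
      have hx := hpn v hvx
      have hx0 : 0 ≤ x₀ ^ α := by positivity
      have hq : 0 ≤ α * (C₁ / η) := by positivity
      constructor
      · rw [hlog v hv]
        have := hb₁ _ (sect_mono h₂ h2ρ.le hs) (by linarith)
        linarith
      · rw [hvd v hv, norm_mul, Complex.norm_real, Real.norm_eq_abs, abs_of_pos h0]
        have := mul_le_mul_of_nonneg_left (hb₂ _ hs hx) h0.le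
        linarith)

end Pool.Agent.R791.Bdd
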