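import Pool.Agent.R791.Bdd

/-!
# Means which are `K log y + O(1)`: the converse
-/

set_option autoImplicit false

open MeasureTheory Filter Topology Set Complex
open Pool.Agent.TH942.LS (Dat P P_le Cont Qf)
open Pool.Agent.TH942.SL Pool.Agent.TH942.ES

namespace Pool.Agent.R791.Bdd

variable {α : ℝ} {lam c : ℕ → ℝ} {δ σ : ℝ}

/-- **The order of magnitude in cones.** -/
theorem ext_bdd {g : ℝ → ℂ} {fh : ℂ → ℂ} (hgc : Continuous g)
    (hd : ∀ v : ℂ, 0 < v.re →
        HasDerivAt (fun v => fh v / v) (-∫ y in Ioi (0 : ℝ), exp (-(v * y)) * g y) v)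
    {K Ck y₀ : ℝ}
    (hK : ∀ y : ℝ, y₀ ≤ y → 1 ≤ y → ‖g y - ((K * (y * Real.log y) : ℝ) : ℂ)‖ ≤ Ck * y)
    {κ : ℝ} (hκ : 0 < κ) :
    ∃ C' : ℝ, ∀ v : ℂ, 0 < v.re → κ * ‖v‖ ≤ v.re → ‖v‖ ≤ 1 → ‖fh v + K * log v‖ ≤ C' := by
  set c₀ : ℂ := 0 with hc₀
  set γ := Real.eulerMascheroniConstant with hγ
  -- the remainder
  set e : ℝ → ℂ := fun y => g y - ((K * (y * (γ + Real.log y)) : ℝ) : ℂ) - (c₀ - K * γ) * y with he
  have he1 : ∀ y : ℝ, e y = (g y - ((K * (y * Real.log y) : ℝ) : ℂ)) - c₀ * y := by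
    intro y
    rw [he]
    push_cast
    ring
  have hbd : ∃ A B : ℝ, 0 ≤ A ∧ 0 ≤ B ∧ ∀ y : ℝ, 0 < y → ‖e y‖ ≤ A * y + B := by
    set Y : ℝ := max y₀ 1 with hYdef
    obtain ⟨B₁, hB₁⟩ := (isCompact_Icc (a := (0 : ℝ)) (b := |Y|)).exists_bound_of_continuousOn
      (f := fun y => g y - c₀ * y) (by fun_prop)
    refine ⟨|Ck|, |B₁| + |K| * (1 + Y ^ 2), abs_nonneg _, by positivity, fun y hy => ?_⟩
    rcases le_total Y y with h | h
    · have h2 := hK y ((le_max_left _ _).trans h) ((le_max_right _ _).trans h)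
      have e0 : e y = g y - ((K * (y * Real.log y) : ℝ) : ℂ) := by
        rw [he1, hc₀]; ring
      rw [e0]
      have : 0 ≤ |B₁| + |K| * (1 + Y ^ 2) := by positivity
      have h3 : Ck * y ≤ |Ck| * y := mul_le_mul_of_nonneg_right (le_abs_self _) hy.le
      linarith
    · have hyY : y ≤ |Y| := h.trans (le_abs_self Y)
      have e1 := hB₁ y ⟨hy.le, hyY⟩
      have e2 := ylog_le hy
      have e3 : e y = (g y - c₀ * y) - ((K * (y * Real.log y) : ℝ) : ℂ) := by
        rw [he1]; ring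
      rw [e3]
      refine (norm_sub_le _ _).trans ?_
      rw [Complex.norm_real, Real.norm_eq_abs, abs_mul]
      have e4 : y ^ 2 ≤ Y ^ 2 := by
        rw [← sq_abs Y]
        exact pow_le_pow_left₀ hy.le hyY 2
      have e5 : |K| * |y * Real.log y| ≤ |K| * (1 + Y ^ 2) :=
        mul_le_mul_of_nonneg_left (by linarith) (abs_nonneg _)
      have e6 := le_abs_self B₁
      have e7 : 0 ≤ |Ck| * y := by positivity
      linarith
  -- continuity
  have hec : ContinuousOn e (Ioi 0) := by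
    rw [he]
    refine ((hgc.continuousOn).sub ?_).sub (by fun_prop)
    refine continuous_ofReal.comp_continuousOn ?_
    refine continuousOn_const.mul (continuousOn_id.mul (continuousOn_const.add ?_))
    exact Real.continuousOn_log.mono fun t ht => (ne_of_gt ht : t ≠ 0)
  -- the primitive
  set φ : ℂ → ℂ := fun v => fh v / v + K * (log v / v) - (c₀ - K * γ) / v with hφ
  have hint : ∀ v : ℂ, 0 < v.re → IntegrableOn (fun y : ℝ => exp (-(v * y)) * e y) (Ioi 0) ∧
      ∀ ε B : ℝ, 0 ≤ ε → 0 ≤ B → (∀ y : ℝ, 0 < y → ‖e y‖ ≤ ε * y + B) →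
        ‖∫ y in Ioi (0 : ℝ), exp (-(v * y)) * e y‖ ≤ ε * (v.re ^ 2)⁻¹ + B * v.re⁻¹ := by
    intro v hv
    obtain ⟨⟨i1, j1⟩, ⟨i2, j2⟩, -⟩ := exp_ints hv
    have hpt : ∀ ε B : ℝ, (∀ y : ℝ, 0 < y → ‖e y‖ ≤ ε * y + B) → ∀ y : ℝ, 0 < y →
        ‖exp (-(v * y)) * e y‖ ≤ ε * (y * Real.exp (-(v.re * y))) +
          B * Real.exp (-(v.re * y)) := by
      intro ε B h y hy
      rw [norm_mul, Complex.norm_exp]
      have e1 : (-(v * (y : ℂ))).re = -(v.re * y) := by
        rw [Complex.neg_re, Complex.re_mul_ofReal]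
      rw [e1]
      calc _ ≤ Real.exp (-(v.re * y)) * (ε * y + B) :=
            mul_le_mul_of_nonneg_left (h y hy) (Real.exp_pos _).le
        _ = _ := by ring
    constructor
    · obtain ⟨A₀, B, hA₀, hB, h⟩ := hbd
      have hdom : IntegrableOn (fun y : ℝ => A₀ * (y * Real.exp (-(v.re * y))) +
          B * Real.exp (-(v.re * y))) (Ioi 0) := (i2.const_mul _).add (i1.const_mul _)
      refine Integrable.mono' hdom ?_ ?_
      · exact ContinuousOn.aestronglyMeasurable (ContinuousOn.mul (by fun_prop) hec)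
          measurableSet_Ioi
      · filter_upwards [ae_restrict_mem measurableSet_Ioi] with y hy
        exact hpt A₀ B h y hy
    · intro ε B hε hB h
      have k1 : IntegrableOn (fun y : ℝ => ε * (y * Real.exp (-(v.re * y)))) (Ioi 0) :=
        i2.const_mul _
      have k2 : IntegrableOn (fun y : ℝ => B * Real.exp (-(v.re * y))) (Ioi 0) :=
        i1.const_mul _
      have k3 : IntegrableOn (fun y : ℝ => ε * (y * Real.exp (-(v.re * y))) +
        B * Real.exp (-(v.re * y))) (Ioi 0) := k1.add k2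
      refine (norm_integral_le_of_norm_le k3 ?_).trans (le_of_eq ?_)
      · filter_upwards [ae_restrict_mem measurableSet_Ioi] with y hy
        exact hpt ε B h y hy
      · rw [integral_add k1 k2, integral_const_mul, integral_const_mul, j1, j2]
  have hφd : ∀ v : ℂ, 0 < v.re → HasDerivAt φ
      (-∫ y in Ioi (0 : ℝ), exp (-(v * y)) * e y) v := by
    intro v hv
    have hv0 := ne_zero' hv
    have e1 : HasDerivAt (fun v : ℂ => log v / v) ((v⁻¹ * v - log v * 1) / v ^ 2) v :=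
      (Complex.hasDerivAt_log (slit hv)).div (hasDerivAt_id v) hv0
    have e2 : HasDerivAt (fun v : ℂ => (c₀ - K * γ) / v)
        ((0 * v - (c₀ - K * γ) * 1) / v ^ 2) v :=
      (hasDerivAt_const v (c₀ - K * γ)).div (hasDerivAt_id v) hv0
    refine (((hd v hv).add (e1.const_mul (K : ℂ))).sub e2).congr_deriv ?_
    obtain ⟨i1, j1⟩ := laplace_gg hv
    obtain ⟨i2, j2⟩ := laplace_id hv
    obtain ⟨i3, -⟩ := hint v hv
    have e3 : (fun y : ℝ => exp (-(v * y)) * g y) = fun y : ℝ => exp (-(v * y)) * e y +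
        (K : ℂ) * (exp (-(v * y)) * ((y * (γ + Real.log y) : ℝ) : ℂ)) +
        (c₀ - K * γ) * (exp (-(v * y)) * (y : ℂ)) := by
      funext y
      rw [he]
      push_cast
      ring
    have k1 : IntegrableOn (fun y : ℝ => (K : ℂ) * (exp (-(v * y)) *
      ((y * (γ + Real.log y) : ℝ) : ℂ))) (Ioi 0) := i1.const_mul _
    have k2 : IntegrableOn (fun y : ℝ => (c₀ - K * γ) * (exp (-(v * y)) * (y : ℂ))) (Ioi 0) :=
      i2.const_mul _
    have k3 : IntegrableOn (fun y : ℝ => exp (-(v * y)) * e y +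
        (K : ℂ) * (exp (-(v * y)) * ((y * (γ + Real.log y) : ℝ) : ℂ))) (Ioi 0) := i3.add k1
    rw [e3, integral_add k3 k2, integral_add i3 k1, integral_const_mul, integral_const_mul, j1, j2]
    unfold gl
    field_simp
    ring
  -- the estimate
  obtain ⟨C₁, hC₁⟩ : ∃ C₁ : ℝ, ∀ v : ℂ, 0 < v.re → ‖v‖ ≤ 1 → ‖φ (v + 1)‖ ≤ C₁ := by
    set S : Set ℂ := {z : ℂ | 1 ≤ z.re ∧ ‖z‖ ≤ 2} with hS
    have hSc : IsCompact S := by
      have hcl : IsClosed S := (isClosed_le continuous_const Complex.continuous_re).inter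
        (isClosed_le continuous_norm continuous_const)
      refine (isCompact_closedBall (0 : ℂ) 2).of_isClosed_subset hcl ?_
      rintro v ⟨-, h⟩
      rwa [Metric.mem_closedBall, dist_zero_right]
    obtain ⟨C₁, h⟩ := hSc.exists_bound_of_continuousOn (f := φ) fun z hz =>
      (hφd z (by have := hz.1; linarith)).continuousAt.continuousWithinAt
    refine ⟨C₁, fun v hv hv1 => h _ ⟨?_, ?_⟩⟩
    · rw [Complex.add_re, Complex.one_re]
      linarith
    · refine (norm_add_le _ _).trans ?_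
      rw [norm_one]
      linarith
  have hest : ∃ ε B : ℝ, 0 ≤ ε ∧ 0 ≤ B ∧ ∀ v : ℂ, 0 < v.re → ‖v‖ ≤ 1 →
      ‖φ v‖ ≤ C₁ + ε * v.re⁻¹ + B * Real.log (1 + v.re⁻¹) := by
    obtain ⟨ε, B, hε, hB, hBe⟩ := hbd
    refine ⟨ε, B, hε, hB, fun v hv hv1 => ?_⟩
    set x := v.re with hx
    have h2 := horiz (f := φ) (f' := fun v => -∫ y in Ioi (0 : ℝ), exp (-(v * y)) * e y)
      (v := v) (T := 1) zero_le_one (B := fun τ => -(ε * (x + τ)⁻¹) + B * Real.log (x + τ))
      (B' := fun τ => ε * ((x + τ) ^ 2)⁻¹ + B * (x + τ)⁻¹)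
      (fun τ hτ => hφd _ (by
        have := hτ.1
        rw [Complex.add_re, Complex.ofReal_re]
        linarith))
      (fun τ hτ => by
        have h5 : x + τ ≠ 0 := by have := hτ.1; positivity
        have e1 : HasDerivAt (fun τ : ℝ => (x + τ)⁻¹) (-1 / (x + τ) ^ 2) τ :=
          ((hasDerivAt_id τ).const_add x).inv h5
        have e2 : HasDerivAt (fun τ : ℝ => Real.log (x + τ)) (1 / (x + τ)) τ :=
          ((hasDerivAt_id τ).const_add x).log h5
        refine (((e1.const_mul ε).neg).add (e2.const_mul B)).congr_deriv ?_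
        rw [one_div]
        ring)
      (fun τ hτ => by
        have h5 : 0 < (v + (τ : ℂ)).re := by
          have := hτ.1
          rw [Complex.add_re, Complex.ofReal_re]
          linarith
        have e1 := (hint _ h5).2 ε B hε hB hBe
        rw [norm_neg]
        rwa [Complex.add_re, Complex.ofReal_re] at e1)
    have e3 : v + ((1 : ℝ) : ℂ) = v + 1 := by push_cast; ring
    rw [e3] at h2
    have e4 := hC₁ v hv hv1
    have e5 : Real.log (1 + x⁻¹) = Real.log (x + 1) - Real.log x := by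
      rw [← Real.log_div (by positivity) hv.ne']
      congr 1
      field_simp
    have e6 := norm_sub_norm_le (φ v) (φ (v + 1))
    rw [norm_sub_rev (φ v) (φ (v + 1))] at e6
    have e7 : 0 ≤ ε * (x + 1)⁻¹ := by positivity
    rw [e5]
    simp only [add_zero] at h2
    linarith
  -- the limit
  have key : ∀ v : ℂ, 0 < v.re → fh v + K * log v - (c₀ - K * γ) = v * φ v := by
    intro v hv
    have := ne_zero' hv
    rw [hφ]
    field_simp
  obtain ⟨ε, B, hε, hB, hBe⟩ := hest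
  refine ⟨κ⁻¹ * (|C₁| + ε + B) + ‖(K * γ : ℂ)‖, fun v hv0 hvκ hv1 => ?_⟩
  have e1 := hBe v hv0 hv1
  have e3 : ‖v‖ ≤ κ⁻¹ * v.re := by
    rw [inv_mul_eq_div, le_div_iff₀ hκ, mul_comm]
    exact hvκ
  have hx1 : v.re ≤ 1 := (re_le_norm v).trans hv1
  have e4 : 0 ≤ C₁ + ε * v.re⁻¹ + B * Real.log (1 + v.re⁻¹) := (norm_nonneg _).trans e1
  have e5 : Real.log (1 + v.re⁻¹) ≤ v.re⁻¹ := by
    have := Real.log_le_sub_one_of_pos (show 0 < 1 + v.re⁻¹ by positivity)
    linarith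
  have e6 : ‖v‖ * ‖φ v‖ ≤ κ⁻¹ * (|C₁| + ε + B) := by
    calc ‖v‖ * ‖φ v‖ ≤ (κ⁻¹ * v.re) * (C₁ + ε * v.re⁻¹ + B * Real.log (1 + v.re⁻¹)) :=
          mul_le_mul e3 e1 (norm_nonneg _) (by positivity)
      _ ≤ (κ⁻¹ * v.re) * (|C₁| * v.re⁻¹ + ε * v.re⁻¹ + B * v.re⁻¹) := by
          have k1 : C₁ ≤ |C₁| * v.re⁻¹ := by
            have k2 : 1 ≤ v.re⁻¹ := (one_le_inv₀ hv0).2 hx1
            have k3 := le_abs_self C₁
            have k4 := abs_nonneg C₁
            nlinarith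
          have k5 : B * Real.log (1 + v.re⁻¹) ≤ B * v.re⁻¹ := mul_le_mul_of_nonneg_left e5 hB
          refine mul_le_mul_of_nonneg_left ?_ (by positivity)
          linarith
      _ = _ := by field_simp
  have e7 := key v hv0
  have e8 : fh v + K * log v = v * φ v - K * γ := by
    rw [← e7, hc₀]; ring
  rw [e8]
  refine (norm_sub_le _ _).trans ?_
  rw [norm_mul]
  linarith

/-- **the continuation to a sector with the asymptotic at the vertex** -/
theorem ext_sector_bdd (D : Dat lam c δ σ) {ρ : ℝ} (hρ : 1 < ρ) {K c₀ : ℝ}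
    (hM : ∀ᶠ y : ℝ in atTop, |M lam c ρ⁻¹ y - K * Real.log y| ≤ c₀) :
    ∃ Dh : ℂ → ℂ, (∀ s ∈ Sect ρ, DifferentiableAt ℂ Dh s) ∧
      (∀ s ∈ Sect ρ, σ < s.re → Dh s = DD lam c s) ∧
      ∀ ρ₂ : ℝ, ρ < ρ₂ → ∃ B : ℝ, ∀ s ∈ Sect ρ₂, ‖s‖ ≤ 1 →
        ‖Dh s + ((K * ρ : ℝ) : ℂ) * log s‖ ≤ B := by
  have hρ0 : 0 < ρ := by linarith
  have h0 : 0 < ρ⁻¹ := by positivity
  have h1 : ρ⁻¹ < 1 := inv_lt_one_of_one_lt₀ hρ
  have hsmall : ∀ ε : ℝ, 0 < ε → ∃ C y₀ : ℝ, ∀ y, y₀ ≤ y →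
      |M lam c ρ⁻¹ y| ≤ C * Real.exp (ε * y) := by
    intro ε hε
    obtain ⟨y₀, hy₀⟩ := (hM.and (eventually_ge_atTop 1)).exists_forall_of_atTop
    refine ⟨|K| / ε + (|c₀| + 1), y₀, fun y hy => ?_⟩
    obtain ⟨e1, e2⟩ := hy₀ y hy
    have hy0 : 0 < y := by linarith
    have e3 : Real.log y ≤ y := by
      have := Real.log_le_sub_one_of_pos hy0
      linarith
    have e4 : 0 ≤ Real.log y := Real.log_nonneg e2
    have e5 : ε * y ≤ Real.exp (ε * y) := by
      have := Real.add_one_le_exp (ε * y)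
      linarith
    have e6 : 1 ≤ Real.exp (ε * y) := Real.one_le_exp (by positivity)
    have e7 : |M lam c ρ⁻¹ y| ≤ |K| * y + (|c₀| + 1) := by
      have e9 : |K * Real.log y| ≤ |K| * y := by
        rw [abs_mul, abs_of_nonneg e4]
        exact mul_le_mul_of_nonneg_left e3 (abs_nonneg _)
      have e10 := abs_add_le (M lam c ρ⁻¹ y - K * Real.log y) (K * Real.log y)
      rw [sub_add_cancel] at e10
      have e11 := le_abs_self c₀
      linarith
    have e8 : |K| * y = |K| / ε * (ε * y) := by field_simp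
    have e9 : |K| / ε * (ε * y) ≤ |K| / ε * Real.exp (ε * y) := by gcongr
    have e10 : (|c₀| + 1) * 1 ≤ (|c₀| + 1) * Real.exp (ε * y) := by gcongr
    rw [add_mul]
    linarith
  obtain ⟨g, fh, x₁, hgc, hg, hd, hfd, hfe⟩ := ext D h0 h1 hsmall
  have hdiff : ∀ s ∈ Sect ρ, DifferentiableAt ℂ (fun s : ℂ => fh (s ^ (ρ : ℂ))) s := by
    intro s hs
    obtain ⟨h2, -⟩ := exists_root hρ hs.1 hs.2
    exact DifferentiableAt.comp (f := fun s : ℂ => s ^ (ρ : ℂ)) s (hfd _ h2)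
      (differentiableAt_id.cpow_const (slit (sect_re hρ hs)))
  refine ⟨fun s => fh (s ^ (ρ : ℂ)), hdiff, ?_, ?_⟩
  · -- the identity theorem on the convex set
    set R : Set ℂ := Sect ρ ∩ {s : ℂ | σ < s.re} with hR
    have hRo : IsOpen R := (sect_open hρ).inter (isOpen_lt continuous_const Complex.continuous_re)
    have hRc : Convex ℝ R := (sect_convex hρ).inter (convex_halfSpace_re_gt σ)
    have a1 : AnalyticOnNhd ℂ (fun s : ℂ => fh (s ^ (ρ : ℂ))) R :=
      DifferentiableOn.analyticOnNhd (fun s hs => (hdiff s hs.1).differentiableWithinAt) hRo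
    have a2 : AnalyticOnNhd ℂ (DD lam c) R :=
      DifferentiableOn.analyticOnNhd
        (fun s hs => (dd_deriv D hs.2).differentiableAt.differentiableWithinAt) hRo
    -- the base point
    have hT : Tendsto (fun x : ℝ => x ^ ρ) atTop atTop := tendsto_rpow_atTop hρ0
    obtain ⟨x, hx⟩ := ((hT.eventually_gt_atTop x₁).and
      ((eventually_gt_atTop σ).and (eventually_gt_atTop 0))).exists
    obtain ⟨hx1, hx2, hx3⟩ := hx
    have hxR : (x : ℂ) ∈ R := ⟨sect_real hρ hx3, by rwa [Set.mem_ofPred_eq, Complex.ofReal_re]⟩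
    have hxp : (((x : ℂ)) ^ (ρ : ℂ)).re = x ^ ρ := by
      rw [← Complex.ofReal_cpow hx3.le, Complex.ofReal_re]
    have hnear : (fun s : ℂ => fh (s ^ (ρ : ℂ))) =ᶠ[𝓝 (x : ℂ)] DD lam c := by
      have hc : ContinuousAt (fun s : ℂ => (s ^ (ρ : ℂ)).re) (x : ℂ) :=
        Complex.continuous_re.continuousAt.comp
          (ContinuousAt.cpow continuousAt_id continuousAt_const
            (slit (show 0 < ((x : ℂ)).re by rwa [Complex.ofReal_re])))
      have h5 : ∀ᶠ s : ℂ in 𝓝 (x : ℂ), x₁ < (s ^ (ρ : ℂ)).re :=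
        hc.eventually (lt_mem_nhds (show x₁ < ((x : ℂ) ^ (ρ : ℂ)).re by rw [hxp]; exact hx1))
      filter_upwards [h5, hRo.mem_nhds hxR] with s h6 h7
      rw [hfe _ h6]
      obtain ⟨-, h8⟩ := exists_root hρ h7.1.1 h7.1.2
      unfold f₀
      rw [h8]
    have a3 := a1.eqOn_of_preconnected_of_eventuallyEq a2 hRc.isPreconnected hxR hnear
    exact fun s hs hσ => a3 ⟨hs, hσ⟩
  · intro ρ₂ hρ₂
    have hpi := Real.pi_pos
    have hρ20 : 0 < ρ₂ := by linarith
    -- the cone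
    set κ : ℝ := Real.cos (Real.pi * ρ / (2 * ρ₂)) with hκ
    have hang : Real.pi * ρ / (2 * ρ₂) < Real.pi / 2 := by
      rw [div_lt_div_iff₀ (by positivity) (by norm_num)]
      nlinarith
    have hκ0 : 0 < κ := Real.cos_pos_of_mem_Ioo ⟨by
      have : 0 < Real.pi * ρ / (2 * ρ₂) := by positivity
      linarith, hang⟩
    have hcone : ∀ s ∈ Sect ρ₂, 0 < (s ^ (ρ : ℂ)).re ∧ κ * ‖s ^ (ρ : ℂ)‖ ≤ (s ^ (ρ : ℂ)).re := by
      intro s hs
      have hs1 : s ∈ Sect ρ := sect_mono hρ hρ₂.le hs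
      obtain ⟨h2, -⟩ := exists_root hρ hs1.1 hs1.2
      refine ⟨h2, ?_⟩
      rw [norm_pow', re_pow, mul_comm]
      refine mul_le_mul_of_nonneg_left ?_ (by positivity)
      rw [hκ, ← Real.cos_abs (arg s * ρ)]
      refine Real.cos_le_cos_of_nonneg_of_le_pi (abs_nonneg _) (by linarith) ?_
      rw [abs_mul, abs_of_pos hρ0]
      have h3 := hs.2
      calc |arg s| * ρ ≤ Real.pi / (2 * ρ₂) * ρ := by gcongr
        _ = Real.pi * ρ / (2 * ρ₂) := by ring
    obtain ⟨y₀, hy₀⟩ := (hM.and (eventually_gt_atTop 0)).exists_forall_of_atTop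
    obtain ⟨B, hB⟩ := ext_bdd hgc hd (K := K) (Ck := c₀) (y₀ := y₀) (fun y hy hy1 => by
      obtain ⟨e1, hy0⟩ := hy₀ y hy
      have e2 : g y - ((K * (y * Real.log y) : ℝ) : ℂ) =
          ((y * (M lam c ρ⁻¹ y - K * Real.log y) : ℝ) : ℂ) := by
        rw [hg y hy0]
        push_cast
        ring
      rw [e2, Complex.norm_real, Real.norm_eq_abs, abs_mul, abs_of_pos hy0, mul_comm]
      exact mul_le_mul_of_nonneg_right e1 hy0.le) hκ0
    refine ⟨B, fun s hs hsn => ?_⟩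
    obtain ⟨h2, h3⟩ := hcone s hs
    have hs1 : s ∈ Sect ρ := sect_mono hρ hρ₂.le hs
    have e3 : log (s ^ (ρ : ℂ)) = ρ * log s := by
      have h5 : |arg s * ρ| < Real.pi := by
        rw [abs_mul, abs_of_pos hρ0]
        calc |arg s| * ρ < Real.pi / (2 * ρ) * ρ := mul_lt_mul_of_pos_right hs1.2 hρ0
          _ = Real.pi / 2 := by field_simp
          _ < Real.pi := by linarith
      have h6 : (log s * (ρ : ℂ)).im = arg s * ρ := by
        rw [mul_comm, Complex.im_ofReal_mul, Complex.log_im, mul_comm]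
      rw [Complex.cpow_def_of_ne_zero hs1.1, Complex.log_exp, mul_comm]
      · rw [h6]; exact (abs_lt.1 h5).1
      · rw [h6]; exact (abs_lt.1 h5).2.le
    have e4 := hB _ h2 h3 (by
      rw [norm_pow']
      exact Real.rpow_le_one (norm_nonneg _) hsn hρ0.le)
    rw [e3] at e4
    have e5 : fh (s ^ (ρ : ℂ)) + K * (ρ * log s) =
        fh (s ^ (ρ : ℂ)) + ((K * ρ : ℝ) : ℂ) * log s := by
      push_cast
      ring
    rwa [e5] at e4

end Pool.Agent.R791.Bdd
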