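import Pool.Agent.R791.Bdd2

/-!
# The equivalence for bounded remainders
-/

set_option autoImplicit false

open MeasureTheory Filter Topology Set Complex
open Pool.Agent.TH942.LS (Dat P P_le Cont Qf)
open Pool.Agent.TH942.SL Pool.Agent.TH942.ES

namespace Pool.Agent.R791.Bdd

variable {lam c : ℕ → ℝ} {δ σ : ℝ}

/-- **The equivalence for Dirichlet series, with bounded remainders.** -/
theorem sect_equiv_bdd (D : Dat lam c δ σ) {ρ₀ : ℝ} (h : 1 ≤ ρ₀) (K : ℝ) :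
    (∀ ρ : ℝ, ρ₀ < ρ → ∃ C : ℝ, ∀ᶠ y : ℝ in atTop,
      |M lam c ρ⁻¹ y - K * ρ⁻¹ * Real.log y| ≤ C) ↔
    ∃ Dh : ℂ → ℂ, (∀ s ∈ Sect ρ₀, DifferentiableAt ℂ Dh s) ∧
      (∀ s ∈ Sect ρ₀, σ < s.re → Dh s = DD lam c s) ∧
      ∀ ρ : ℝ, ρ₀ < ρ → ∃ B : ℝ, ∀ s ∈ Sect ρ, ‖s‖ ≤ 1 → ‖Dh s + K * log s‖ ≤ B := by
  constructor
  · intro hM
    choose! C hC using hM
    choose! G hG1 hG2 hG3 using fun (ρ : ℝ) (hρ : ρ₀ < ρ) =>
      ext_sector_bdd D (ρ := ρ) (by linarith) (hC ρ hρ)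
    obtain ⟨H, hH⟩ := glue2 h hG1 hG2
    refine ⟨H, fun s hs => ?_, fun s hs hσ => ?_, fun ρ hρ => ?_⟩
    · obtain ⟨ρ, h1, h2⟩ := exists_sect' h hs
      refine (hG1 ρ h1 s h2).congr_of_eventuallyEq ?_
      filter_upwards [(sect_open (by linarith)).mem_nhds h2] with z hz
      exact hH ρ h1 z hz
    · obtain ⟨ρ, h1, h2⟩ := exists_sect' h hs
      rw [hH ρ h1 s h2]
      exact hG2 ρ h1 s h2 hσ
    · obtain ⟨ρ₁, h1, h2⟩ := exists_between hρ
      have hρ1 : 1 < ρ₁ := by linarith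
      have hρ10 : (ρ₁ : ℝ) ≠ 0 := by linarith
      obtain ⟨B, hB⟩ := hG3 ρ₁ h1 ρ h2
      refine ⟨B, fun s hs hsn => ?_⟩
      have e1 := hB s hs hsn
      have e2 : K * ρ₁⁻¹ * ρ₁ = K := by field_simp
      rw [e2] at e1
      rwa [hH ρ₁ h1 s (sect_mono hρ1 h2.le hs)]
  · rintro ⟨Dh, h1, h2, h3⟩ ρ hρ
    obtain ⟨ρ₁, h4, h5⟩ := exists_between hρ
    have hsub := sect_mono' h h4.le
    obtain ⟨B, hB⟩ := h3 ρ₁ h4
    obtain ⟨C, hC⟩ := bdd_sector D (ρ₁ := ρ₁) (by linarith) h5 (fun s hs => h1 s (hsub hs))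
      (fun s hs => h2 s (hsub hs)) (K := K) (B := B) (by
        rw [eventually_nhdsWithin_iff, Metric.eventually_nhds_iff]
        refine ⟨1, one_pos, fun s hs hs2 => hB s hs2 ?_⟩
        rw [dist_zero_right] at hs
        exact hs.le)
    exact ⟨C, (eventually_ge_atTop 1).mono fun y hy => hC y hy⟩

/-! ### Symmetry -/

lemma sect_conj {ρ : ℝ} (h : 1 ≤ ρ) {s : ℂ} (hs : s ∈ Sect ρ) : (starRingEnd ℂ) s ∈ Sect ρ := by
  have hpi := Real.pi_pos
  have h2 : arg s ≠ Real.pi := by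
    intro h3
    have h4 := sect_re' h hs
    have := (Complex.arg_eq_pi_iff.1 h3).1
    linarith
  refine ⟨fun h3 => hs.1 ?_, ?_⟩
  · rwa [map_eq_zero] at h3
  · rw [Complex.arg_conj, if_neg h2, abs_neg]
    exact hs.2

lemma DD_conj (s : ℂ) : DD lam c ((starRingEnd ℂ) s) = (starRingEnd ℂ) (DD lam c s) := by
  unfold DD
  rw [Complex.conj_tsum]
  refine tsum_congr fun n => ?_
  rw [map_mul, Complex.conj_ofReal, ← Complex.exp_conj, map_neg, map_mul, Complex.conj_ofReal]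

/-- the continuation is real on the real axis -/
theorem dh_conj {ρ₀ : ℝ} (h : 1 ≤ ρ₀) {Dh : ℂ → ℂ} (hd : ∀ s ∈ Sect ρ₀, DifferentiableAt ℂ Dh s)
    (he : ∀ s ∈ Sect ρ₀, σ < s.re → Dh s = DD lam c s) {s : ℂ} (hs : s ∈ Sect ρ₀) :
    (starRingEnd ℂ) (Dh ((starRingEnd ℂ) s)) = Dh s := by
  obtain ⟨ρ, h1, h2⟩ := exists_sect' h hs
  have hρ1 : 1 < ρ := by linarith
  have hsub := sect_mono' h h1.le
  refine Sys.agree hρ1 (G₁ := fun s => (starRingEnd ℂ) (Dh ((starRingEnd ℂ) s))) (G₂ := Dh)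
    (fun s hs => ?_) (fun s hs => hd s (hsub hs)) (σ := σ) (fun s hs hσ => ?_) s h2
  · have e1 := (hd _ (hsub (sect_conj hρ1.le hs))).conj_conj
    rw [Complex.conj_conj] at e1
    exact e1
  · have e1 : σ < ((starRingEnd ℂ) s).re := by rwa [Complex.conj_re]
    rw [he _ (hsub (sect_conj hρ1.le hs)) e1, he s (hsub hs) hσ, DD_conj, Complex.conj_conj]

/-- a function with bounded real part in a sector, real on the axis, is bounded in smaller sectors -/
theorem bdd_of_re {ρ₁ ρ₂ : ℝ} (h₁ : 1 < ρ₁) (h : ρ₁ < ρ₂) {H : ℂ → ℂ}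
    (hd : ∀ s ∈ Sect ρ₁, DifferentiableAt ℂ H s) {B : ℝ}
    (hB : ∀ s ∈ Sect ρ₁, ‖s‖ ≤ 1 → |(H s).re| ≤ B) (him : ∀ x : ℝ, 0 < x → (H x).im = 0) :
    ∃ C : ℝ, ∀ s ∈ Sect ρ₂, ‖s‖ ≤ 1 / 2 → ‖H s‖ ≤ C := by
  have h₂ : 1 < ρ₂ := h₁.trans h
  obtain ⟨η, hη0, hη1, hη⟩ := sect_margin h₁ h
  set A : ℝ := |B| + 1 with hA
  have hA0 : 0 < A := by positivity
  -- the derivative
  have hder : ∀ s ∈ Sect ρ₂, ‖s‖ ≤ 1 / 2 → ‖deriv H s‖ ≤ A * Real.exp 1 ^ 2 / (η * ‖s‖) := by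
    intro s hs hsn
    have hn : 0 < ‖s‖ := norm_pos_iff.2 hs.1
    have hs1 : s ∈ Sect ρ₁ := sect_mono h₁ h.le hs
    have hin : ∀ z ∈ Metric.closedBall s (η * ‖s‖), z ∈ Sect ρ₁ ∧ ‖z‖ ≤ 1 := by
      intro z hz
      rw [Metric.mem_closedBall, dist_eq_norm] at hz
      refine ⟨hη s hs z hz, ?_⟩
      have e1 := norm_add_le (z - s) s
      rw [sub_add_cancel] at e1
      nlinarith
    set φ : ℂ → ℂ := fun z => exp (H z / A) with hφ
    have hφn : ∀ z ∈ Sect ρ₁, ‖z‖ ≤ 1 → ‖φ z‖ ≤ Real.exp 1 ∧ Real.exp (-1) ≤ ‖φ z‖ := by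
      intro z hz hzn
      have e1 := hB z hz hzn
      have e2 : |(H z / A).re| ≤ 1 := by
        rw [Complex.div_ofReal_re, abs_div, abs_of_pos hA0, div_le_one hA0]
        have := le_abs_self B
        linarith
      rw [hφ]
      simp only
      rw [Complex.norm_exp]
      exact ⟨Real.exp_le_exp.2 (abs_le.1 e2).2, Real.exp_le_exp.2 (abs_le.1 e2).1⟩
    have hφd : ∀ z ∈ Sect ρ₁, HasDerivAt φ (φ z * (deriv H z / A)) z := fun z hz =>
      ((hd z hz).hasDerivAt.div_const _).cexp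
    have e1 : ‖deriv φ s‖ ≤ Real.exp 1 / (η * ‖s‖) := by
      refine Complex.norm_deriv_le_of_forall_mem_sphere_norm_le (by positivity) ?_ fun z hz => ?_
      · refine DifferentiableOn.diffContOnCl fun z hz => ?_
        rw [closure_ball _ (by positivity)] at hz
        exact (hφd z (hin z hz).1).differentiableAt.differentiableWithinAt
      · obtain ⟨h4, h5⟩ := hin z (Metric.sphere_subset_closedBall hz)
        exact (hφn z h4 h5).1
    rw [(hφd s hs1).deriv, norm_mul, norm_div, Complex.norm_real, Real.norm_eq_abs,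
      abs_of_pos hA0] at e1
    have e2 := (hφn s hs1 (by linarith)).2
    have e3 : 0 < Real.exp (-1) := Real.exp_pos _
    have e4 : Real.exp (-1) * (‖deriv H s‖ / A) ≤ Real.exp 1 / (η * ‖s‖) :=
      (mul_le_mul_of_nonneg_right e2 (by positivity)).trans e1
    have e5 : ‖deriv H s‖ = A * Real.exp 1 * (Real.exp (-1) * (‖deriv H s‖ / A)) := by
      have e6 : Real.exp 1 * Real.exp (-1) = 1 := by
        rw [← Real.exp_add]
        norm_num
      calc ‖deriv H s‖ = (Real.exp 1 * Real.exp (-1)) * (A * (‖deriv H s‖ / A)) := by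
            rw [e6, one_mul, mul_div_cancel₀ _ hA0.ne']
        _ = _ := by ring
    rw [e5]
    calc A * Real.exp 1 * (Real.exp (-1) * (‖deriv H s‖ / A)) ≤
          A * Real.exp 1 * (Real.exp 1 / (η * ‖s‖)) :=
          mul_le_mul_of_nonneg_left e4 (by positivity)
      _ = _ := by ring
  -- comparison with the real axis
  set t₂ := Real.tan (Real.pi / (2 * ρ₂)) with ht2
  have ht20 : 0 < t₂ := tan_pos' h₂
  refine ⟨|B| + A * Real.exp 1 ^ 2 / η * t₂, fun s hs hsn => ?_⟩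
  obtain ⟨hre, him2⟩ := (sect_iff h₂).1 hs
  set x : ℝ := s.re with hx
  have hseg : ∀ z ∈ segment ℝ (x : ℂ) s, z ∈ Sect ρ₂ ∧ x ≤ ‖z‖ ∧ ‖z‖ ≤ 1 / 2 := by
    intro z hz
    obtain ⟨a, b, ha, hb, hab, rfl⟩ := hz
    have e1 : (a • (x : ℂ) + b • s).re = x := by
      simp only [Complex.add_re, Complex.real_smul, Complex.re_ofReal_mul, Complex.ofReal_re]
      rw [← hx, ← add_mul, hab, one_mul]
    have e2 : (a • (x : ℂ) + b • s).im = b * s.im := by
      simp only [Complex.add_im, Complex.real_smul, Complex.im_ofReal_mul, Complex.ofReal_im]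
      ring
    have hb1 : b ≤ 1 := by linarith
    have e3 : |b * s.im| ≤ |s.im| := by
      rw [abs_mul, abs_of_nonneg hb]
      exact mul_le_of_le_one_left (abs_nonneg _) hb1
    refine ⟨(sect_iff h₂).2 ?_, ?_, ?_⟩
    · rw [e1, e2]
      exact ⟨hre, e3.trans_lt him2⟩
    · have := re_le_norm (a • (x : ℂ) + b • s)
      rwa [e1] at this
    · have e4 : ‖a • (x : ℂ) + b • s‖ ≤ ‖s‖ := by
        calc ‖a • (x : ℂ) + b • s‖ ≤ ‖a • (x : ℂ)‖ + ‖b • s‖ := norm_add_le _ _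
          _ = a * x + b * ‖s‖ := by
            rw [norm_smul, norm_smul, Real.norm_eq_abs, Real.norm_eq_abs, abs_of_nonneg ha,
              abs_of_nonneg hb, Complex.norm_real, Real.norm_eq_abs, abs_of_pos hre]
          _ ≤ a * ‖s‖ + b * ‖s‖ := by
            have := re_le_norm s
            rw [← hx] at this
            have := mul_le_mul_of_nonneg_left this ha
            linarith
          _ = ‖s‖ := by rw [← add_mul, hab, one_mul]
      linarith
  have e1 := (convex_segment (𝕜 := ℝ) (x : ℂ) s).norm_image_sub_le_of_norm_deriv_le (𝕜 := ℂ)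
    (f := H) (C := A * Real.exp 1 ^ 2 / (η * x)) (fun z hz =>
      hd z (sect_mono h₁ h.le (hseg z hz).1)) (fun z hz => by
      obtain ⟨k1, k2, k3⟩ := hseg z hz
      refine (hder z k1 k3).trans ?_
      refine div_le_div_of_nonneg_left (by positivity) (by positivity) ?_
      exact mul_le_mul_of_nonneg_left k2 hη0.le) (left_mem_segment ℝ _ _)
    (right_mem_segment ℝ _ _)
  have e2 : ‖s - (x : ℂ)‖ ≤ t₂ * x := by
    have e3 : s - (x : ℂ) = (s.im : ℂ) * I := by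
      apply Complex.ext
      · simp [hx]
      · simp
    rw [e3, norm_mul, Complex.norm_I, mul_one, Complex.norm_real, Real.norm_eq_abs]
    exact him2.le
  have e4 : A * Real.exp 1 ^ 2 / (η * x) * ‖s - (x : ℂ)‖ ≤ A * Real.exp 1 ^ 2 / η * t₂ := by
    calc _ ≤ A * Real.exp 1 ^ 2 / (η * x) * (t₂ * x) :=
          mul_le_mul_of_nonneg_left e2 (by positivity)
      _ = _ := by field_simp
  have e5 : ‖H x‖ ≤ |B| := by
    have e6 : H x = ((H x).re : ℂ) := Complex.ext (by simp) (by simp [him x hre])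
    rw [e6, Complex.norm_real, Real.norm_eq_abs]
    refine (hB _ (sect_real h₁ hre) ?_).trans (le_abs_self B)
    rw [Complex.norm_real, Real.norm_eq_abs, abs_of_pos hre]
    have := re_le_norm s
    rw [← hx] at this
    linarith
  have e6 := norm_sub_norm_le (H s) (H x)
  linarith

end Pool.Agent.R791.Bdd
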