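import Pool.Agent.R791.Bdd3

/-!
# Sums over the primes which are `k log log Y + O(1)`
-/

set_option autoImplicit false

open MeasureTheory Filter Topology Set Complex
open Pool.Agent.TH942.LS (Dat P P_le Cont Qf)
open Pool.Agent.TH942.SL Pool.Agent.TH942.ES Pool.Agent.TH942.ES.Sys

namespace Pool.Agent.R791.Bdd

variable {X : Type} {d : ℕ} {N : X → ℕ} {α : X → Fin d → ℂ}

/-- **Sums which are `k log log Y + O(1)`.** -/
theorem S_equiv (E : Sys N α) {ρ₀ : ℝ} (h : 1 ≤ ρ₀) (k : ℝ) :
    (∀ ρ ρ' : ℝ, ρ₀ < ρ → ρ < ρ' → ∃ C : ℝ, ∀ᶠ Y : ℝ in atTop,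
      |SrE N α ρ ρ' Y - k * Real.log (Real.log Y)| ≤ C) ↔
    ∃ G : ℂ → ℂ, (∀ s : ℂ, s ∈ Sect ρ₀ ∨ 1 / 2 < s.re → DifferentiableAt ℂ G s ∧ G s ≠ 0) ∧
      (∀ s : ℂ, 1 / 2 < s.re → G s = LE N α s) ∧
      ∀ ρ : ℝ, ρ₀ < ρ → ∃ A B : ℝ, 0 < A ∧ 0 < B ∧ ∀ s ∈ Sect ρ, ‖s‖ ≤ 1 →
        A * ‖s‖ ^ k ≤ ‖G s‖ ∧ ‖G s‖ ≤ B * ‖s‖ ^ k := by
  have := E.cnt
  obtain ⟨e, he⟩ := Countable.exists_injective_nat X
  have D : Dat (lamN N e) (cN N α e) (Real.log 2) 1 := E.dat' he (σ := 1) (by norm_num)
  have hDE : DD (lamN N e) (cN N α e) = DE N α := funext fun s => DD_eq he s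
  have hGGs : ∀ ρ : ℝ, 1 < ρ → ∃ C : ℝ, 0 ≤ C ∧ ∀ s ∈ Sect ρ, ‖GG N α s‖ ≤ C := fun ρ hρ => by
    obtain ⟨C, hC⟩ := E.GG_sector (K := 1 + Real.tan (Real.pi / (2 * ρ)))
      (by have := tan_pos' hρ; linarith)
    refine ⟨|C|, abs_nonneg _, fun s hs => ?_⟩
    exact (hC s (sect_re hρ hs) (sect_norm hρ hs)).trans (le_abs_self C)
  constructor
  · intro hS
    obtain ⟨Dh, hD1, hD2, hD3⟩ := (sect_equiv_bdd D h k).1 (fun ρ hρ => by
      have hρ1 : 1 < ρ := by linarith
      have hρ0 : 0 < ρ := by linarith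
      obtain ⟨C, hC⟩ := hS ρ (ρ + 1) hρ (by linarith)
      obtain ⟨C₁, hC₁, h1⟩ := E.Sr_close he hρ1 (show ρ < ρ + 1 by linarith)
      refine ⟨C + C₁, ?_⟩
      have h2 := (tendsto_exp_rpow hρ1).eventually (hC.and h1)
      filter_upwards [h2, eventually_gt_atTop 0] with y hy hy0
      obtain ⟨e1, e2⟩ := hy
      rw [pow_log hρ1 hy0.le] at e2
      have e3 : Real.log (Real.log (Real.exp (y ^ ρ⁻¹))) = ρ⁻¹ * Real.log y := by
        rw [Real.log_exp, Real.log_rpow hy0]
      rw [e3] at e1
      have e4 := abs_sub_le (M (lamN N e) (cN N α e) ρ⁻¹ y)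
        (SrE N α ρ (ρ + 1) (Real.exp (y ^ ρ⁻¹))) (k * (ρ⁻¹ * Real.log y))
      rw [abs_sub_comm] at e2
      have e5 : k * ρ⁻¹ * Real.log y = k * (ρ⁻¹ * Real.log y) := by ring
      rw [e5]
      linarith)
    rw [hDE] at hD2
    -- the equality to the right of `1/2`
    have hDE2 : ∀ s ∈ Sect ρ₀, 1 / 2 < s.re → Dh s = DE N α s := by
      intro s hs hs2
      obtain ⟨ρ, hρ, hsρ⟩ := exists_sect' h hs
      have hρ1 : 1 < ρ := by linarith
      have hsub := sect_mono' h hρ.le
      obtain ⟨σ', h3, h4⟩ := exists_between hs2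
      set R : Set ℂ := Sect ρ ∩ {s : ℂ | σ' < s.re} with hR
      have hRo : IsOpen R :=
        (sect_open hρ1).inter (isOpen_lt continuous_const Complex.continuous_re)
      have hRc : Convex ℝ R := (sect_convex hρ1).inter (convex_halfSpace_re_gt _)
      have a1 : AnalyticOnNhd ℂ Dh R :=
        DifferentiableOn.analyticOnNhd
          (fun s hs => (hD1 s (hsub hs.1)).differentiableWithinAt) hRo
      have a2 : AnalyticOnNhd ℂ (DE N α) R :=
        DifferentiableOn.analyticOnNhd (fun s hs =>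
          (E.DE_diff (s := s) (by have := hs.2; rw [Set.mem_ofPred_eq] at this; linarith)).differentiableWithinAt) hRo
      have hx0 : (0 : ℝ) < |σ'| + 2 := by positivity
      have hx1 := le_abs_self σ'
      have h2 : ((|σ'| + 2 : ℝ) : ℂ) ∈ R := ⟨sect_real hρ1 hx0, by
        change σ' < ((|σ'| + 2 : ℝ) : ℂ).re
        rw [Complex.ofReal_re]
        linarith⟩
      have ho : IsOpen {z : ℂ | 1 < z.re} := isOpen_lt continuous_const Complex.continuous_re
      have a3 := a1.eqOn_of_preconnected_of_eventuallyEq a2 hRc.isPreconnected h2 (by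
        filter_upwards [hRo.mem_nhds h2, ho.mem_nhds (show 1 < ((|σ'| + 2 : ℝ) : ℂ).re by
          rw [Complex.ofReal_re]
          have := abs_nonneg σ'
          linarith)] with z hz hz2
        exact hD2 z (hsub hz.1) hz2)
      exact a3 ⟨hsρ, h4⟩
    set G : ℂ → ℂ := fun s => if 1 / 2 < s.re then LE N α s else exp (GG N α s - Dh s) with hG
    have hG1 : ∀ s : ℂ, 1 / 2 < s.re → G s = LE N α s := fun s hs => by
      rw [hG]
      simp only
      rw [if_pos hs]
    have hG2 : ∀ s ∈ Sect ρ₀, G s = exp (GG N α s - Dh s) := fun s hs => by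
      by_cases h2 : 1 / 2 < s.re
      · rw [hG1 s h2, hDE2 s hs h2, E.LE_eq h2]
      · rw [hG]
        simp only
        rw [if_neg h2]
    refine ⟨G, fun s hs => ?_, hG1, fun ρ hρ => ?_⟩
    · rcases hs with hs | hs
      · constructor
        · refine DifferentiableAt.congr_of_eventuallyEq (f := fun s => exp (GG N α s - Dh s)) ?_ ?_
          · exact ((E.GG_diff (sect_re' h hs)).sub (hD1 s hs)).cexp
          · filter_upwards [(sect_open' h).mem_nhds hs] with z hz
            exact hG2 z hz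
        · rw [hG2 s hs]
          exact Complex.exp_ne_zero _
      · have ho : IsOpen {z : ℂ | 1 / 2 < z.re} := isOpen_lt continuous_const Complex.continuous_re
        obtain ⟨e1, e2⟩ := E.LE_diff hs
        refine ⟨e1.congr_of_eventuallyEq ?_, by rw [hG1 s hs]; exact e2⟩
        filter_upwards [ho.mem_nhds hs] with z hz
        exact hG1 z hz
    · have hρ1 : 1 < ρ := by linarith
      obtain ⟨B, hB⟩ := hD3 ρ hρ
      obtain ⟨C, hC0, hC⟩ := hGGs ρ hρ1
      refine ⟨Real.exp (-(C + B)), Real.exp (C + B), Real.exp_pos _, Real.exp_pos _,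
        fun s hs hsn => ?_⟩
      have hn : 0 < ‖s‖ := norm_pos_iff.2 hs.1
      have e1 := hB s hs hsn
      have e2 := hC s hs
      have e3 : (GG N α s - Dh s).re = k * Real.log ‖s‖ +
          (GG N α s - (Dh s + k * log s)).re := by
        simp only [Complex.sub_re, Complex.add_re, Complex.re_ofReal_mul, Complex.log_re]
        ring
      have e4 : |(GG N α s - (Dh s + k * log s)).re| ≤ C + B := by
        refine (Complex.abs_re_le_norm _).trans ((norm_sub_le _ _).trans ?_)
        linarith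
      have e5 := abs_le.1 e4
      rw [hG2 s (sect_mono' h hρ.le hs), Complex.norm_exp, e3, Real.rpow_def_of_pos hn,
        ← Real.exp_add, ← Real.exp_add, Real.exp_le_exp, Real.exp_le_exp]
      constructor <;> linarith [e5.1, e5.2]
  · rintro ⟨G, hG1, hG2, hG3⟩ ρ ρ' hρ hρ'
    have hρ1 : 1 < ρ := by linarith
    have hρ0 : 0 < ρ := by linarith
    have ho : IsOpen {z : ℂ | 0 < z.re} := isOpen_lt continuous_const Complex.continuous_re
    -- the primitive
    have hGan : ∀ s ∈ Sect ρ₀, AnalyticAt ℂ G s := fun s hs => by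
      have h1 : DifferentiableOn ℂ G (Sect ρ₀) := fun z hz =>
        (hG1 z (Or.inl hz)).1.differentiableWithinAt
      exact h1.analyticAt ((sect_open' h).mem_nhds hs)
    have hGGan : ∀ s ∈ Sect ρ₀, AnalyticAt ℂ (GG N α) s := fun s hs => by
      have h1 : DifferentiableOn ℂ (GG N α) {z : ℂ | 0 < z.re} := fun z hz =>
        (E.GG_diff hz).differentiableWithinAt
      exact h1.analyticAt (ho.mem_nhds (sect_re' h hs))
    have hqd : DifferentiableOn ℂ (fun s => deriv (GG N α) s - deriv G s / G s) (Sect ρ₀) :=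
      fun s hs => (((hGGan s hs).deriv.differentiableAt).sub
        ((hGan s hs).deriv.differentiableAt.div (hG1 s (Or.inl hs)).1
          (hG1 s (Or.inl hs)).2)).differentiableWithinAt
    obtain ⟨F, hF⟩ := convex_primitive (sect_open' h) (sect_convex' h) hqd
    set R : Set ℂ := Sect ρ₀ ∩ {s : ℂ | 1 < s.re} with hR
    have hRo : IsOpen R :=
      (sect_open' h).inter (isOpen_lt continuous_const Complex.continuous_re)
    have hRc : Convex ℝ R := (sect_convex' h).inter (convex_halfSpace_re_gt _)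
    have hw : ((2 : ℝ) : ℂ) ∈ R := ⟨sect_real' h (by norm_num), by
      change 1 < ((2 : ℝ) : ℂ).re
      rw [Complex.ofReal_re]
      norm_num⟩
    have hR1 : ∀ s ∈ R, 1 < s.re := fun s hs => hs.2
    have hcon : ∀ s ∈ R, HasDerivAt (fun s => F s - DE N α s) 0 s := by
      intro s hs
      have h1 := hR1 s hs
      have e4 := (E.DE_diff (s := s) (by linarith)).hasDerivAt
      refine ((hF s hs.1).sub e4).congr_deriv ?_
      have e5 : G =ᶠ[𝓝 s] fun s => exp (GG N α s - DE N α s) := by
        filter_upwards [hRo.mem_nhds hs] with z hz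
        have h2 := hR1 z hz
        rw [hG2 z (by linarith), E.LE_eq (by linarith)]
      have e6 : HasDerivAt (fun s => exp (GG N α s - DE N α s))
          (exp (GG N α s - DE N α s) * (deriv (GG N α) s - deriv (DE N α) s)) s :=
        ((E.GG_diff (sect_re' h hs.1)).hasDerivAt.sub e4).cexp
      rw [e5.deriv_eq, e5.eq_of_nhds, e6.deriv]
      have := Complex.exp_ne_zero (GG N α s - DE N α s)
      field_simp
      ring
    set k₀ : ℂ := F ((2 : ℝ) : ℂ) - DE N α ((2 : ℝ) : ℂ) with hk
    set Dh : ℂ → ℂ := fun s => F s - k₀ with hDh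
    have hFD : ∀ s ∈ R, Dh s = DE N α s := by
      intro s hs
      have := const_of_deriv hRo hRc hcon hs hw
      rw [← hk] at this
      rw [hDh]
      linear_combination this
    have hDd : ∀ s ∈ Sect ρ₀, HasDerivAt Dh (deriv (GG N α) s - deriv G s / G s) s := fun s hs =>
      (hF s hs).sub_const k₀
    have hexp : ∀ s ∈ Sect ρ₀, exp (GG N α s - Dh s) = G s := by
      intro s hs
      have h1 : ∀ z ∈ Sect ρ₀, HasDerivAt (fun z => exp (GG N α z - Dh z) / G z) 0 z := by
        intro z hz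
        have h2 := (hG1 z (Or.inl hz)).2
        have e1 := (((E.GG_diff (sect_re' h hz)).hasDerivAt.sub (hDd z hz)).cexp).div
          (hG1 z (Or.inl hz)).1.hasDerivAt h2
        refine e1.congr_deriv ?_
        field_simp
        ring
      have h2 := const_of_deriv (sect_open' h) (sect_convex' h) h1 hs hw.1
      have h3 : exp (GG N α ((2 : ℝ) : ℂ) - Dh ((2 : ℝ) : ℂ)) / G ((2 : ℝ) : ℂ) = 1 := by
        have h4 := hR1 _ hw
        rw [hFD _ hw, hG2 _ (by linarith), E.LE_eq (by linarith),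
          div_self (Complex.exp_ne_zero _)]
      rw [h3, div_eq_one_iff_eq (hG1 s (Or.inl hs)).2] at h2
      exact h2
    have hDD : ∀ s ∈ Sect ρ₀, 1 < s.re → Dh s = DD (lamN N e) (cN N α e) s := fun s hs hs2 => by
      rw [hDE]
      exact hFD s ⟨hs, hs2⟩
    -- real on the axis
    have him : ∀ x : ℝ, 0 < x → (Dh x).im = 0 := by
      intro x hx
      have e1 := dh_conj h (fun s hs => (hDd s hs).differentiableAt) hDD (sect_real' h hx)
      rw [Complex.conj_ofReal] at e1
      exact Complex.conj_eq_iff_im.1 e1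
    -- bounds
    obtain ⟨ρ₂, h4, h5⟩ := exists_between hρ
    obtain ⟨ρ₁, h6, h7⟩ := exists_between h4
    have hρ11 : 1 < ρ₁ := by linarith
    have hρ21 : 1 < ρ₂ := by linarith
    have hsub := sect_mono' h h6.le
    obtain ⟨A, B, hA, hB, hAB⟩ := hG3 ρ₁ h6
    obtain ⟨C, hC0, hC⟩ := hGGs ρ₁ hρ11
    obtain ⟨C', hC'⟩ := bdd_of_re hρ11 h7 (H := fun s => Dh s + k * log s)
      (fun s hs => (hDd s (hsub hs)).differentiableAt.add
        ((Complex.hasDerivAt_log (slit (sect_re hρ11 hs))).differentiableAt.const_mul _))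
      (B := C + (|Real.log A| + |Real.log B|)) (fun s hs hsn => by
        have hn : 0 < ‖s‖ := norm_pos_iff.2 hs.1
        obtain ⟨g1, g2⟩ := hAB s hs hsn
        have hGn : 0 < ‖G s‖ := norm_pos_iff.2 (hG1 s (Or.inl (hsub hs))).2
        have e1 : (Dh s + k * log s).re = (GG N α s).re - (Real.log ‖G s‖ - k * Real.log ‖s‖) := by
          have e2 : Real.log ‖G s‖ = (GG N α s - Dh s).re := by
            rw [← hexp s (hsub hs), Complex.norm_exp, Real.log_exp]
          rw [e2]
          simp only [Complex.sub_re, Complex.add_re, Complex.re_ofReal_mul, Complex.log_re]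
          ring
        have hp : 0 < ‖s‖ ^ k := Real.rpow_pos_of_pos hn _
        have e3 : Real.log A + k * Real.log ‖s‖ ≤ Real.log ‖G s‖ := by
          rw [← Real.log_rpow hn, ← Real.log_mul hA.ne' hp.ne']
          exact Real.log_le_log (by positivity) g1
        have e4 : Real.log ‖G s‖ ≤ Real.log B + k * Real.log ‖s‖ := by
          rw [← Real.log_rpow hn, ← Real.log_mul hB.ne' hp.ne']
          exact Real.log_le_log hGn g2
        have e5 : |Real.log ‖G s‖ - k * Real.log ‖s‖| ≤ |Real.log A| + |Real.log B| := by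
          rw [abs_le]
          have k1 := neg_abs_le (Real.log A)
          have k2 := le_abs_self (Real.log B)
          have k3 := abs_nonneg (Real.log A)
          have k4 := abs_nonneg (Real.log B)
          constructor <;> linarith
        have e6 : |(GG N α s).re| ≤ C := (Complex.abs_re_le_norm _).trans (hC s hs)
        rw [e1]
        have e7 := abs_sub (GG N α s).re (Real.log ‖G s‖ - k * Real.log ‖s‖)
        linarith) (fun x hx => by
        rw [Complex.add_im, him x hx, zero_add, Complex.im_ofReal_mul, Complex.log_im,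
          Complex.arg_ofReal_of_nonneg hx.le, mul_zero])
    have hsub2 := sect_mono' h h4.le
    obtain ⟨C₂, hC₂⟩ := bdd_sector D hρ21 h5 (Dh := Dh)
      (fun s hs => (hDd s (hsub2 hs)).differentiableAt) (fun s hs hs2 => hDD s (hsub2 hs) hs2)
      (K := k) (B := C') (by
        rw [eventually_nhdsWithin_iff, Metric.eventually_nhds_iff]
        refine ⟨1 / 2, by norm_num, fun s hs hs2 => hC' s hs2 ?_⟩
        rw [dist_zero_right] at hs
        exact hs.le)
    obtain ⟨C₁, hC₁, h1⟩ := E.Sr_close he hρ1 hρ'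
    refine ⟨C₁ + C₂, ?_⟩
    filter_upwards [h1, Real.tendsto_log_atTop.eventually_ge_atTop 1] with Y h3 h4
    have hT : 0 < Real.log Y := by linarith
    have h5 := hC₂ (Real.log Y ^ ρ) (Real.one_le_rpow h4 hρ0.le)
    have e1 : k * ρ⁻¹ * Real.log (Real.log Y ^ ρ) = k * Real.log (Real.log Y) := by
      rw [Real.log_rpow hT]
      field_simp
    rw [e1] at h5
    have h6 := abs_sub_le (SrE N α ρ ρ' Y) (M (lamN N e) (cN N α e) ρ⁻¹ (Real.log Y ^ ρ))
      (k * Real.log (Real.log Y))
    linarith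

end Pool.Agent.R791.Bdd
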