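import Pool.Agent.R791.SectGen2
import Pool.Agent.TH942.ES.NF

/-!
# Elliptic curves over number fields: finite sums of point counts
-/

set_option autoImplicit false

namespace Pool.Agent.R791.CurveNF

open Filter Topology Complex NumberField IsDedekindDomain
open Pool.Agent.TH942.ES Pool.Agent.TH942.SL Pool.Agent.R791.SectGen
open Pool.Agent.H921R2.TatePole (nm)

variable {K : Type} [Field K] [NumberField K] (a b : 𝓞 K)

/-- `w_ρ(u) = (2π)⁻¹ ∫ Re (exp (z - u z^(1/ρ)) / z) dt`, `z = 1 + it`. -/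
noncomputable def weight (ρ u : ℝ) : ℝ :=
  (2 * Real.pi)⁻¹ * ∫ t : ℝ, (Complex.exp ((1 + t * Complex.I) -
    u * (1 + t * Complex.I) ^ ((ρ⁻¹ : ℝ) : ℂ)) / (1 + t * Complex.I)).re

/-- The sum of `w_ρ(log Nv / log Y) log ((N_v + 1)/Nv)` over the primes `v ∤ 6(4a³+27b²)` of `K` of norm
`Nv ≤ exp ((log Y)^ρ')`, where `N_v + 1 = #E(k_v)`. -/
noncomputable def sum (ρ ρ' Y : ℝ) : ℝ :=
  ∑ᶠ (v : {v // GoodV a b v}) (_ : (nm v.1 : ℝ) ≤ Real.exp (Real.log Y ^ ρ')),
    weight ρ (Real.log (nm v.1) / Real.log Y) * Real.log (((ptsV a b v.1 : ℝ) + 1) / nm v.1)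

/-- The Euler product of `E` over the primes `v ∤ 6(4a³+27b²)` of `K`. -/
noncomputable def LSeries (s : ℂ) : ℂ := ∏' v : {v // GoodV a b v}, efV a b v.1 s

theorem sum_eq (ρ ρ' Y : ℝ) : sum a b ρ ρ' Y =
    SrE (fun v : {v // GoodV a b v} => nm v.1) (alV a b) ρ ρ' Y := by
  unfold sum SrE
  refine finsum_congr fun v => finsum_congr fun _ => ?_
  rw [curve_cv]
  rfl

theorem LE_eq (s : ℂ) : LE (fun v : {v // GoodV a b v} => nm v.1) (alV a b) (s - 1) =
    LSeries a b s := by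
  unfold Pool.Agent.TH942.ES.LE LSeries
  refine tprod_congr fun v => ?_
  rw [curve_factor]
  congr 1
  ring

end Pool.Agent.R791.CurveNF
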