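import Pool.Agent.R791.SectGen2

/-!
# The limit formula and the leading coefficient of an entire continuation
-/

set_option autoImplicit false

namespace Pool.Agent.R791.SectGen

open Filter Topology Complex
open Pool.Agent.TH942.ES Pool.Agent.TH942.SL

variable {X : Type} {d : ℕ} {N : X → ℕ} {α : X → Fin d → ℂ}

lemma mem_sectorAt_one {c : ℝ} {s : ℂ} : s ∈ SectorAt c 1 ↔ c < s.re := by
  rw [mem_sectorAt]
  unfold Sect
  simp only [Set.mem_ofPred_eq, mul_one]
  constructor
  · rintro ⟨h1, h2⟩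
    rcases Complex.abs_arg_lt_pi_div_two_iff.1 h2 with h | h
    · rw [sub_re] at h; linarith
    · exact absurd h h1
  · intro h
    have h1 : 0 < (s - c).re := by rw [sub_re]; linarith
    refine ⟨fun h0 => ?_, Complex.abs_arg_lt_pi_div_two_iff.2 (Or.inl h1)⟩
    rw [h0] at h1
    simp at h1

/-- the factorisation of an entire function of order `r` at `c` -/
theorem entire_factor {F : ℂ → ℂ} (hF : Differentiable ℂ F) (c : ℂ) {r : ℕ}
    (hr : analyticOrderAt F c = r) :
    iteratedDeriv r F c ≠ 0 ∧ ∃ G : ℂ → ℂ, AnalyticAt ℂ G 0 ∧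
      ∀ w : ℂ, F (c + w) = w ^ r * (iteratedDeriv r F c / (r.factorial : ℂ) + w * G w) := by
  have hFa : AnalyticAt ℂ F c := hF.analyticAt c
  have h1 := (natCast_le_analyticOrderAt_iff_iteratedDeriv_eq_zero hFa (n := r)).mp hr.ge
  have hfa : AnalyticAt ℂ (fun w : ℂ => F (c + w)) 0 := by
    have : Differentiable ℂ (fun w : ℂ => F (c + w)) := hF.comp (by fun_prop)
    exact this.analyticAt 0
  obtain ⟨G, hG, hG'⟩ := hfa.exists_eq_sum_add_pow_mul (r + 1)
  have h4 : ∀ i, iteratedDeriv i (fun w : ℂ => F (c + w)) 0 = iteratedDeriv i F c := by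
    intro i
    rw [iteratedDeriv_comp_const_add]
    simp
  have h5 : ∀ w : ℂ, F (c + w) = w ^ r * (iteratedDeriv r F c / (r.factorial : ℂ) + w * G w) := by
    intro w
    rw [hG' w, Finset.sum_range_succ, Finset.sum_eq_zero, h4, zero_add, smul_eq_mul, smul_eq_mul]
    · ring
    · intro i hi
      rw [h4, h1 i (Finset.mem_range.mp hi), smul_zero]
  refine ⟨fun h0 => ?_, G, hG, h5⟩
  have h6 : ((r + 1 : ℕ) : ℕ∞) ≤ analyticOrderAt F c := by
    rw [natCast_le_analyticOrderAt_iff_iteratedDeriv_eq_zero hFa]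
    intro i hi
    rcases Nat.lt_succ_iff_lt_or_eq.1 hi with h | h
    · exact h1 i h
    · rw [h]; exact h0
  rw [hr] at h6
  have h7 : r + 1 ≤ r := by exact_mod_cast h6
  omega

/-- the leading coefficient of an entire function and limits along the real axis -/
theorem lead_of_tendsto {F : ℂ → ℂ} (hF : Differentiable ℂ F) (c : ℂ) {m r : ℕ}
    (hm : analyticOrderAt F c = m) {A : ℂ} (hA : A ≠ 0)
    (h : Tendsto (fun w : ℝ => F (c + w) / (w : ℂ) ^ r) (𝓝[>] 0) (𝓝 A)) :
    m = r ∧ iteratedDeriv m F c / (m.factorial : ℂ) = A := by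
  obtain ⟨hne, G, hG, h5⟩ := entire_factor hF c hm
  set L : ℂ := iteratedDeriv m F c / (m.factorial : ℂ) with hL
  have hL0 : L ≠ 0 := div_ne_zero hne (by exact_mod_cast m.factorial_ne_zero)
  have hw : Tendsto (fun w : ℝ => (w : ℂ)) (𝓝[>] 0) (𝓝 0) := by
    have : Continuous fun w : ℝ => (w : ℂ) := Complex.continuous_ofReal
    have h1 := this.tendsto 0
    rw [Complex.ofReal_zero] at h1
    exact h1.mono_left nhdsWithin_le_nhds
  have h1 : Tendsto (fun w : ℝ => L + (w : ℂ) * G w) (𝓝[>] 0) (𝓝 L) := by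
    have h2 : Tendsto (fun w : ℝ => G w) (𝓝[>] 0) (𝓝 (G 0)) :=
      (hG.continuousAt.tendsto).comp hw
    have h3 := (hw.mul h2).const_add L
    simpa using h3
  have hpos : ∀ᶠ w : ℝ in 𝓝[>] 0, 0 < w := self_mem_nhdsWithin
  rcases lt_trichotomy m r with hlt | heq | hgt
  · -- `F / w^r * w^(r-m) → 0` but `→ L`
    exfalso
    have h2 : Tendsto (fun w : ℝ => F (c + w) / (w : ℂ) ^ r * (w : ℂ) ^ (r - m)) (𝓝[>] 0)
        (𝓝 (A * 0)) := by
      refine h.mul ?_
      have h3 := hw.pow (r - m)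
      rwa [zero_pow (by omega)] at h3
    have h3 : Tendsto (fun w : ℝ => F (c + w) / (w : ℂ) ^ r * (w : ℂ) ^ (r - m)) (𝓝[>] 0)
        (𝓝 L) := by
      refine h1.congr' ?_
      filter_upwards [hpos] with w hw0
      have hwc : (w : ℂ) ≠ 0 := by exact_mod_cast hw0.ne'
      rw [h5]
      have e : (w : ℂ) ^ r = (w : ℂ) ^ m * (w : ℂ) ^ (r - m) := by
        rw [← pow_add]; congr 1; omega
      rw [e]
      field_simp
    have h4 := tendsto_nhds_unique h2 h3
    rw [mul_zero] at h4
    exact hL0 h4.symm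
  · subst heq
    refine ⟨rfl, ?_⟩
    refine tendsto_nhds_unique (f := fun w : ℝ => L + (w : ℂ) * G w) h1 (h.congr' ?_)
    filter_upwards [hpos] with w hw0
    have hwc : (w : ℂ) ≠ 0 := by exact_mod_cast hw0.ne'
    rw [h5]
    field_simp
  · exfalso
    have h3 : Tendsto (fun w : ℝ => F (c + w) / (w : ℂ) ^ r) (𝓝[>] 0) (𝓝 (0 * L)) := by
      have h4 : Tendsto (fun w : ℝ => (w : ℂ) ^ (m - r)) (𝓝[>] 0) (𝓝 0) := by
        have h3 := hw.pow (m - r)
        rwa [zero_pow (by omega)] at h3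
      refine (h4.mul h1).congr' ?_
      filter_upwards [hpos] with w hw0
      have hwc : (w : ℂ) ≠ 0 := by exact_mod_cast hw0.ne'
      rw [h5]
      have e : (w : ℂ) ^ m = (w : ℂ) ^ r * (w : ℂ) ^ (m - r) := by
        rw [← pow_add]; congr 1; omega
      rw [e]
      field_simp
    have h4 := tendsto_nhds_unique h h3
    rw [zero_mul] at h4
    exact hA h4

/-- the continuation without zeros with the given leading term is the entire continuation -/
theorem entire_star (E : Sys N α) (c : ℝ) {F : ℂ → ℂ} (hF : Differentiable ℂ F)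
    (he : ∀ s : ℂ, c + 1 / 2 < s.re → F s = LE N α (s - c)) (r : ℕ) {A : ℝ} (hA : 0 < A) :
    (∃ G : ℂ → ℂ,
      (∀ s : ℂ, s ∈ SectorAt c 1 ∨ c + 1 / 2 < s.re → DifferentiableAt ℂ G s ∧ G s ≠ 0) ∧
      (∀ s : ℂ, c + 1 / 2 < s.re → G s = LE N α (s - c)) ∧
      ∀ ρ : ℝ, 1 < ρ → Tendsto (fun s => G s / (s - c) ^ r) (𝓝[SectorAt c ρ] (c : ℂ))
        (𝓝 (A : ℂ))) ↔
    (∀ s : ℂ, c < s.re → F s ≠ 0) ∧ analyticOrderAt F c = r ∧
      iteratedDeriv r F c / (r.factorial : ℂ) = A := by
  have hA0 : (A : ℂ) ≠ 0 := by exact_mod_cast hA.ne'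
  have hsec : ∀ {ρ : ℝ}, 1 < ρ → ∀ s ∈ SectorAt c ρ, c < s.re := fun hρ s hs => by
    have := sect_re hρ (mem_sectorAt.1 hs)
    rw [sub_re] at this
    linarith
  constructor
  · rintro ⟨G, h1, h2, h3⟩
    have hU : IsOpen {s : ℂ | c < s.re} := isOpen_lt continuous_const Complex.continuous_re
    have hGF : ∀ s : ℂ, c < s.re → F s = G s := by
      have a1 : AnalyticOnNhd ℂ G {s : ℂ | c < s.re} :=
        DifferentiableOn.analyticOnNhd (fun s hs =>
          (h1 s (Or.inl (mem_sectorAt_one.2 hs))).1.differentiableWithinAt) hU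
      have a2 : AnalyticOnNhd ℂ F {s : ℂ | c < s.re} :=
        DifferentiableOn.analyticOnNhd hF.differentiableOn hU
      have hx : ((c + 1 : ℝ) : ℂ) ∈ {s : ℂ | c < s.re} := by simp
      have ho : IsOpen {z : ℂ | c + 1 / 2 < z.re} :=
        isOpen_lt continuous_const Complex.continuous_re
      exact a2.eqOn_of_preconnected_of_eventuallyEq a1
        (convex_halfSpace_re_gt c).isPreconnected hx (by
          filter_upwards [ho.mem_nhds (show ((c + 1 : ℝ) : ℂ) ∈ {z : ℂ | c + 1 / 2 < z.re} by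
            simp; norm_num)] with z hz
          rw [he z hz, h2 z hz])
    have hne : ∀ s : ℂ, c < s.re → F s ≠ 0 := fun s hs => by
      rw [hGF s hs]; exact (h1 s (Or.inl (mem_sectorAt_one.2 hs))).2
    refine ⟨hne, ?_⟩
    -- the order is finite
    have htop : analyticOrderAt F c ≠ ⊤ := by
      intro htop
      rw [analyticOrderAt_eq_top] at htop
      have a2 : AnalyticOnNhd ℂ F Set.univ := hF.differentiableOn.analyticOnNhd isOpen_univ
      have h4 := a2.eqOn_zero_of_preconnected_of_eventuallyEq_zero isPreconnected_univ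
        (Set.mem_univ (c : ℂ)) htop
      exact hne ((c + 1 : ℝ) : ℂ) (by simp) (h4 (Set.mem_univ _))
    obtain ⟨m, hm⟩ := ENat.ne_top_iff_exists.1 htop
    have h4 : Tendsto (fun w : ℝ => F ((c : ℂ) + w) / (w : ℂ) ^ r) (𝓝[>] 0) (𝓝 (A : ℂ)) := by
      have h5 := h3 2 (by norm_num)
      have h6 : Tendsto (fun w : ℝ => (c : ℂ) + w) (𝓝[>] 0) (𝓝[SectorAt c 2] (c : ℂ)) := by
        rw [tendsto_nhdsWithin_iff]
        constructor
        · have : Continuous fun w : ℝ => (c : ℂ) + w := by fun_prop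
          have h1 := this.tendsto 0
          simp only [Complex.ofReal_zero, add_zero] at h1
          exact h1.mono_left nhdsWithin_le_nhds
        · filter_upwards [self_mem_nhdsWithin] with w hw
          have hw0 : (0 : ℝ) < w := hw
          rw [mem_sectorAt]
          refine ⟨?_, ?_⟩
          · simp only [add_sub_cancel_left, ne_eq, Complex.ofReal_eq_zero]
            exact hw0.ne'
          · rw [add_sub_cancel_left, Complex.arg_ofReal_of_nonneg hw0.le, abs_zero]
            positivity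
      refine (h5.comp h6).congr' ?_
      filter_upwards [self_mem_nhdsWithin] with w hw
      have hw0 : (0 : ℝ) < w := hw
      simp only [Function.comp_apply, add_sub_cancel_left]
      rw [hGF]
      simpa using hw0
    obtain ⟨h5, h6⟩ := lead_of_tendsto hF c hm.symm hA0 h4
    subst h5
    exact ⟨hm.symm, h6⟩
  · rintro ⟨hne, hr, hlead⟩
    refine ⟨F, fun s hs => ⟨hF s, hne s ?_⟩, he, fun ρ hρ => ?_⟩
    · rcases hs with hs | hs
      · exact mem_sectorAt_one.1 hs
      · linarith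
    · obtain ⟨-, G, hG, h5⟩ := entire_factor hF (c : ℂ) hr
      rw [hlead] at h5
      have h6 : Tendsto (fun s : ℂ => (A : ℂ) + (s - c) * G (s - c)) (𝓝[SectorAt c ρ] (c : ℂ))
          (𝓝 (A : ℂ)) := by
        have e1 : Tendsto (fun s : ℂ => s - (c : ℂ)) (𝓝[SectorAt c ρ] (c : ℂ)) (𝓝 0) := by
          have : Continuous fun s : ℂ => s - (c : ℂ) := by fun_prop
          have h1 := this.tendsto (c : ℂ)
          rw [sub_self] at h1
          exact h1.mono_left nhdsWithin_le_nhds
        have e2 : Tendsto (fun s : ℂ => G (s - c)) (𝓝[SectorAt c ρ] (c : ℂ)) (𝓝 (G 0)) :=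
          (hG.continuousAt.tendsto).comp e1
        have e3 := (e1.mul e2).const_add (A : ℂ)
        simpa using e3
      refine h6.congr' ?_
      filter_upwards [self_mem_nhdsWithin] with s hs
      have h7 : s - (c : ℂ) ≠ 0 := (mem_sectorAt.1 hs).1
      have h8 := h5 (s - c)
      rw [add_sub_cancel] at h8
      rw [h8]
      field_simp

end Pool.Agent.R791.SectGen
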