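import Pool.Agent.R791.CurveNF
import Pool.Agent.R791.SectGen3

/-!
# Elliptic curves over number fields: finite sums over the prime powers
-/

set_option autoImplicit false

namespace Pool.Agent.R791.CurveNF

open Filter Topology Complex NumberField IsDedekindDomain
open Pool.Agent.TH942.ES Pool.Agent.TH942.SL Pool.Agent.R791.SectGen
open Pool.Agent.H921R2.TatePole (nm two_le_nm)

variable {K : Type} [Field K] [NumberField K] (a b : 𝓞 K)

/-- `t_v(k) = α^k + β^k`, where `T² - a_v T + Nv = (T - α)(T - β)`, `a_v = Nv + 1 - #E(k_v)`: it is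
`Nv^k + 1` minus the number of points of `E` over the extension of degree `k` of `k_v`. -/
noncomputable def tr (v : HeightOneSpectrum (𝓞 K)) : ℕ → ℝ
  | 0 => 2
  | 1 => (nm v : ℝ) - ptsV a b v
  | k + 2 => ((nm v : ℝ) - ptsV a b v) * tr v (k + 1) - (nm v : ℝ) * tr v k

/-- The sum of `w_ρ(k log Nv / log Y) t_v(k) / (k Nv^k)` over the powers `v^k`, `k ≥ 1`, of the primes
`v ∤ 6(4a³+27b²)` of `K` of norm `Nv^k ≤ exp ((log Y)^ρ')`. (`t_v(k)/(k Nv^k)` is the coefficient of `Nv^(-k w)`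
in `log L(E/K, 1 + w)`.) -/
noncomputable def sumPow (ρ ρ' Y : ℝ) : ℝ :=
  ∑ᶠ (p : {v // GoodV a b v} × ℕ) (_ : (nm p.1.1 : ℝ) ^ (p.2 + 1) ≤ Real.exp (Real.log Y ^ ρ')),
    weight ρ (((p.2 : ℝ) + 1) * Real.log (nm p.1.1) / Real.log Y) *
      (tr a b p.1.1 (p.2 + 1) / (((p.2 : ℝ) + 1) * (nm p.1.1 : ℝ) ^ (p.2 + 1)))

theorem zv_add (v : {v // GoodV a b v}) :
    zv (fun v : {v // GoodV a b v} => nm v.1) (alV a b) v 0 +
      zv (fun v : {v // GoodV a b v} => nm v.1) (alV a b) v 1 =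
      ((((nm v.1 : ℝ) - ptsV a b v.1) / nm v.1 : ℝ) : ℂ) ∧
    zv (fun v : {v // GoodV a b v} => nm v.1) (alV a b) v 0 *
      zv (fun v : {v // GoodV a b v} => nm v.1) (alV a b) v 1 = (((nm v.1 : ℝ)⁻¹ : ℝ) : ℂ) := by
  have hp2 : (2 : ℝ) ≤ nm v.1 := by exact_mod_cast two_le_nm v.1
  have hn0 : (0 : ℝ) < nm v.1 := by linarith
  have h1 : 0 < √(nm v.1 : ℝ) := Real.sqrt_pos.2 hn0
  have h1c : ((√(nm v.1 : ℝ) : ℝ) : ℂ) ≠ 0 := by exact_mod_cast h1.ne'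
  have h2 : ((√(nm v.1 : ℝ) : ℝ) : ℂ) ^ 2 = nm v.1 := by
    rw [← Complex.ofReal_pow, Real.sq_sqrt hn0.le]
    push_cast
    rfl
  have hnc : (nm v.1 : ℂ) ≠ 0 := by exact_mod_cast hn0.ne'
  have htr := trV_abs v.2
  have ht : 0 ≤ 1 - trV a b v.1 ^ 2 := by
    have := abs_le.1 htr
    nlinarith
  have h3 : ((√(1 - trV a b v.1 ^ 2) : ℝ) : ℂ) ^ 2 = 1 - ((trV a b v.1 : ℝ) : ℂ) ^ 2 := by
    rw [← Complex.ofReal_pow, Real.sq_sqrt ht]
    push_cast
    ring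
  constructor
  · unfold zv alV rt
    simp only [Matrix.cons_val_zero, Matrix.cons_val_one]
    unfold trV
    push_cast
    rw [← h2]
    field_simp
    ring
  · unfold zv alV rt
    simp only [Matrix.cons_val_zero, Matrix.cons_val_one]
    have h4 : ((trV a b v.1 : ℂ) + (√(1 - trV a b v.1 ^ 2) : ℝ) * I) *
        ((trV a b v.1 : ℂ) - (√(1 - trV a b v.1 ^ 2) : ℝ) * I) = 1 := by
      have : ((trV a b v.1 : ℂ) + (√(1 - trV a b v.1 ^ 2) : ℝ) * I) *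
        ((trV a b v.1 : ℂ) - (√(1 - trV a b v.1 ^ 2) : ℝ) * I) =
        (trV a b v.1 : ℂ) ^ 2 - ((√(1 - trV a b v.1 ^ 2) : ℝ) : ℂ) ^ 2 * I ^ 2 := by ring
      rw [this, h3, Complex.I_sq]
      ring
    rw [div_mul_div_comm, h4, ← sq, h2]
    push_cast
    rw [one_div]

theorem zv_pow (v : {v // GoodV a b v}) (k : ℕ) :
    ∑ i, zv (fun v : {v // GoodV a b v} => nm v.1) (alV a b) v i ^ k =
      ((tr a b v.1 k / (nm v.1 : ℝ) ^ k : ℝ) : ℂ) := by
  have hp2 : (2 : ℝ) ≤ nm v.1 := by exact_mod_cast two_le_nm v.1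
  have hn0 : (0 : ℝ) < nm v.1 := by linarith
  obtain ⟨h1, h2⟩ := zv_add a b v
  rw [Fin.sum_univ_two]
  generalize zv (fun v : {v // GoodV a b v} => nm v.1) (alV a b) v 0 = z₀ at *
  generalize zv (fun v : {v // GoodV a b v} => nm v.1) (alV a b) v 1 = z₁ at *
  induction k using Nat.strong_induction_on with
  | _ k ih =>
    match k with
    | 0 => simp [tr]; norm_num
    | 1 =>
      simp only [pow_one, tr]
      exact h1
    | k + 2 =>
      have e1 := ih (k + 1) (by omega)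
      have e2 := ih k (by omega)
      have e3 : z₀ ^ (k + 2) + z₁ ^ (k + 2) =
          (z₀ + z₁) * (z₀ ^ (k + 1) + z₁ ^ (k + 1)) - z₀ * z₁ * (z₀ ^ k + z₁ ^ k) := by ring
      rw [e3, h1, h2, e1, e2, ← Complex.ofReal_mul, ← Complex.ofReal_mul, ← Complex.ofReal_sub]
      congr 1
      rw [show tr a b v.1 (k + 2) = ((nm v.1 : ℝ) - ptsV a b v.1) * tr a b v.1 (k + 1) -
        (nm v.1 : ℝ) * tr a b v.1 k from rfl]
      have : (nm v.1 : ℝ) ≠ 0 := hn0.ne'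
      field_simp
      ring

theorem sumPow_eq (ρ ρ' Y : ℝ) : sumPow a b ρ ρ' Y =
    StE (fun v : {v // GoodV a b v} => nm v.1) (alV a b) ρ ρ' Y := by
  unfold sumPow StE
  refine finsum_congr fun p => finsum_congr fun _ => ?_
  unfold cP
  rw [zv_pow, Complex.ofReal_re]
  have h1 : tr a b p.1.1 (p.2 + 1) / (((p.2 : ℝ) + 1) * (nm p.1.1 : ℝ) ^ (p.2 + 1)) =
      tr a b p.1.1 (p.2 + 1) / (nm p.1.1 : ℝ) ^ (p.2 + 1) / ((p.2 : ℝ) + 1) := by
    rw [div_div]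
    congr 1
    ring
  rw [h1]
  rfl

end Pool.Agent.R791.CurveNF
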