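import Pool.Agent.R791.Heat4

/-!
# General Dirichlet series `log L`: the variable `v = (s - w) ^ ρ` and the expansion of the means
-/

set_option autoImplicit false

open MeasureTheory Filter Topology Set Complex
open Pool.Agent.TH942.LS (Dat P P_le)
open Pool.Agent.TH942.SL Pool.Agent.TH942.ES Pool.Agent.R791.SectGen Pool.Agent.R791.Level
open Pool.Agent.R791.Heat

namespace Pool.Agent.R791.Dir

/-- `L = exp (∑ c n exp (- lam n s))`, absolutely convergent for `Re s > σ₀` -/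
structure DS (lam c : ℕ → ℝ) (δ σ₀ : ℝ) (L : ℂ → ℂ) : Prop where
  δ0 : 0 < δ
  lam_ge : ∀ n, δ ≤ lam n
  sum : ∀ σ : ℝ, σ₀ < σ → Summable fun n => |c n| * Real.exp (-(σ * lam n))
  eq : ∀ s : ℂ, σ₀ < s.re → L s = exp (DD lam c s)

/-- the coefficients with respect to the vertex `w` -/
noncomputable def cv (lam c : ℕ → ℝ) (w : ℝ) (n : ℕ) : ℝ := c n * Real.exp (-(w * lam n))

/-- the mean with the vertex `w` -/
noncomputable def TW (lam c : ℕ → ℝ) (w ρ y : ℝ) : ℝ := T lam (cv lam c w) ρ⁻¹ y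

variable {lam c : ℕ → ℝ} {δ σ₀ : ℝ} {L : ℂ → ℂ}

theorem DS.dat (D : DS lam c δ σ₀ L) {w σ : ℝ} (hσ0 : 0 < σ) (hσ : σ₀ < σ + w) :
    Dat lam (cv lam c w) δ σ where
  δ0 := D.δ0
  σ0 := hσ0
  lam_ge := D.lam_ge
  sum := by
    refine (D.sum _ hσ).congr fun n => ?_
    unfold cv
    rw [abs_mul, Real.abs_exp, mul_assoc, ← Real.exp_add]
    congr 2
    ring

theorem DS.exp_w (D : DS lam c δ σ₀ L) {w : ℝ} {s : ℂ} (hs : σ₀ < w + s.re) :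
    exp (DD lam (cv lam c w) s) = L (w + s) := by
  rw [D.eq (w + s) (by simpa using hs)]
  congr 1
  unfold DD cv
  refine tsum_congr fun n => ?_
  push_cast
  rw [mul_assoc, ← Complex.exp_add]
  congr 2
  ring

theorem DS.diff (D : DS lam c δ σ₀ L) {s : ℂ} (hs : σ₀ < s.re) :
    DifferentiableAt ℂ L s ∧ L s ≠ 0 := by
  have hho : IsOpen {s : ℂ | σ₀ < s.re} := isOpen_lt continuous_const Complex.continuous_re
  refine ⟨?_, by rw [D.eq s hs]; exact Complex.exp_ne_zero _⟩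
  -- use the vertex `w = σ₀ - 1`
  set w : ℝ := min (σ₀ - 1) ((σ₀ + s.re) / 2 - 1) with hw
  have e1 := min_le_left (σ₀ - 1) ((σ₀ + s.re) / 2 - 1)
  have e2 := min_le_right (σ₀ - 1) ((σ₀ + s.re) / 2 - 1)
  have hσ : σ₀ < ((σ₀ + s.re) / 2 - w) + w := by linarith
  have Dt := D.dat (w := w) (σ := (σ₀ + s.re) / 2 - w) (by linarith) hσ
  have h1 : DifferentiableAt ℂ (DD lam (cv lam c w)) (s - w) :=
    (dd_deriv Dt (s := s - w) (by rw [Complex.sub_re, Complex.ofReal_re]; linarith)).differentiableAt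
  have h2 : DifferentiableAt ℂ (fun z : ℂ => exp (DD lam (cv lam c w) (z - w))) s :=
    (DifferentiableAt.comp (g := DD lam (cv lam c w)) (f := fun z : ℂ => z - w) s h1
      (by fun_prop)).cexp
  refine h2.congr_of_eventuallyEq ?_
  filter_upwards [hho.mem_nhds hs] with z hz
  have hz' : σ₀ < z.re := hz
  rw [D.exp_w (w := w) (s := z - w) (by rw [Complex.sub_re, Complex.ofReal_re]; linarith)]
  congr 1
  ring

theorem DS.an (D : DS lam c δ σ₀ L) {s : ℂ} (hs : σ₀ < s.re) : AnalyticAt ℂ L s := by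
  have hho : IsOpen {s : ℂ | σ₀ < s.re} := isOpen_lt continuous_const Complex.continuous_re
  have h2 : DifferentiableOn ℂ L {s : ℂ | σ₀ < s.re} := fun z hz =>
    (D.diff hz).1.differentiableWithinAt
  exact h2.analyticAt (hho.mem_nhds hs)

theorem DS.TW_summable (D : DS lam c δ σ₀ L) {w ρ y : ℝ} (hρ : 1 < ρ) (hy : 0 < y) :
    Summable fun n => cv lam c w n * gk ρ⁻¹ (lam n * y ^ (-ρ⁻¹)) := by
  have h0 : 0 < ρ⁻¹ := by positivity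
  have h1ρ : ρ⁻¹ < 1 := inv_lt_one_of_one_lt₀ hρ
  set σ : ℝ := max (σ₀ - w) 0 + 1 with hσ
  have e1 := le_max_left (σ₀ - w) 0
  have e2 := le_max_right (σ₀ - w) 0
  have Dt := D.dat (w := w) (σ := σ) (by linarith) (by linarith)
  obtain ⟨x₀, hx1, hx₀⟩ := exists_abscissa h0 h1ρ σ
  obtain ⟨-, h⟩ := T_eq Dt h0 h1ρ (x := x₀) (by linarith) hy fun z hz => by
    have e3 : 0 < z.re := by rw [hz]; linarith
    have e4 : x₀ ≤ ‖z‖ := by rw [← hz]; exact re_le_norm z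
    linarith [hx₀ z e3 e4]
  exact h

/-- the function in the variable `v` -/
theorem DS.vplane (D : DS lam c δ σ₀ L)
    {w ρ θ : ℝ} (hρ : 1 < ρ) (hθ : 0 ≤ θ) {G : ℂ → ℂ}
    (hG : ∀ s ∈ LvAt w ρ θ, MeromorphicAt G s)
    (hGL : ∀ s ∈ LvAt w ρ θ, σ₀ < s.re → G s = L s) :
    (∀ v : ℂ, θ < v.re → (w : ℂ) + v ^ ((ρ⁻¹ : ℝ) : ℂ) ∈ LvAt w ρ θ) ∧
    (∀ v : ℂ, θ < v.re → MeromorphicAt (fun v => G (w + v ^ ((ρ⁻¹ : ℝ) : ℂ))) v) ∧
    (∀ v : ℂ, θ < v.re → meromorphicOrderAt (fun v => G (w + v ^ ((ρ⁻¹ : ℝ) : ℂ))) v =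
      meromorphicOrderAt G (w + v ^ ((ρ⁻¹ : ℝ) : ℂ))) ∧
    ∃ (σ x₂ : ℝ), Dat lam (cv lam c w) δ σ ∧
      (∀ v : ℂ, θ < v.re → x₂ ≤ ‖v‖ → σ < (v ^ ((ρ⁻¹ : ℝ) : ℂ)).re) ∧
      ∀ v : ℂ, θ < v.re → x₂ ≤ ‖v‖ → G (w + v ^ ((ρ⁻¹ : ℝ) : ℂ)) =
        exp (f₀ lam (cv lam c w) ρ⁻¹ v) := by
  have h0 : 0 < ρ⁻¹ := by positivity
  have h1ρ : ρ⁻¹ < 1 := inv_lt_one_of_one_lt₀ hρ
  have hmem : ∀ v : ℂ, θ < v.re → (w : ℂ) + v ^ ((ρ⁻¹ : ℝ) : ℂ) ∈ LvAt w ρ θ := fun v hv => by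
    rw [mem_lvAt, add_sub_cancel_left]
    exact pow_mem_lv hρ hθ hv
  have hUo : IsOpen {v : ℂ | θ < v.re} := isOpen_lt continuous_const Complex.continuous_re
  have hd : ∀ v : ℂ, θ < v.re → HasDerivAt (fun v : ℂ => (w : ℂ) + v ^ ((ρ⁻¹ : ℝ) : ℂ))
      (((ρ⁻¹ : ℝ) : ℂ) * v ^ (((ρ⁻¹ : ℝ) : ℂ) - 1)) v := fun v hv =>
    (pow_deriv (slit (by linarith))).const_add _
  have ha : ∀ v : ℂ, θ < v.re → AnalyticAt ℂ (fun v : ℂ => (w : ℂ) + v ^ ((ρ⁻¹ : ℝ) : ℂ)) v :=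
    fun v hv => by
      have h2 : DifferentiableOn ℂ (fun v : ℂ => (w : ℂ) + v ^ ((ρ⁻¹ : ℝ) : ℂ))
          {v : ℂ | θ < v.re} := fun z hz => (hd z hz).differentiableAt.differentiableWithinAt
      exact h2.analyticAt (hUo.mem_nhds hv)
  refine ⟨hmem, fun v hv => ?_, fun v hv => ?_, ?_⟩
  · exact MeromorphicAt.comp_analyticAt (f := G) (hG _ (hmem v hv)) (ha v hv)
  · refine meromorphicOrderAt_comp_of_deriv_ne_zero (f := G) (ha v hv) ?_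
    rw [(hd v hv).deriv]
    have hv0 : 0 < v.re := by linarith
    refine mul_ne_zero (by exact_mod_cast h0.ne') ?_
    rw [Complex.cpow_def_of_ne_zero (ne_zero' hv0)]
    exact Complex.exp_ne_zero _
  · set σ : ℝ := max (σ₀ - w) 0 + 1 with hσ
    have e1 := le_max_left (σ₀ - w) 0
    have e2 := le_max_right (σ₀ - w) 0
    have Dt := D.dat (w := w) (σ := σ) (by linarith) (by linarith)
    obtain ⟨x₀, hx1, hx₀⟩ := exists_abscissa h0 h1ρ σ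
    have hx : ∀ v : ℂ, θ < v.re → x₀ ≤ ‖v‖ → σ < (v ^ ((ρ⁻¹ : ℝ) : ℂ)).re := fun v hv hv2 => by
      have hv0 : 0 < v.re := by linarith
      have e3 := hx₀ v hv0 hv2
      have e4 := re_pow_ge h0 h1ρ hv0
      linarith
    refine ⟨σ, x₀, Dt, hx, fun v hv hv2 => ?_⟩
    have e3 := hx v hv hv2
    rw [hGL _ (hmem v hv) (by rw [Complex.add_re, Complex.ofReal_re]; linarith)]
    unfold f₀
    rw [D.exp_w (by linarith)]

/-- **The expansion of the means for a meromorphic continuation**: all zeros and poles. -/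
theorem DS.expand (D : DS lam c δ σ₀ L)
    {w ρ θ θ' : ℝ} (hρ : 1 < ρ) (hθ : 0 ≤ θ) (hθ' : θ < θ') {G : ℂ → ℂ}
    (hG : ∀ s ∈ LvAt w ρ θ, MeromorphicAt G s)
    (hGL : ∀ s ∈ LvAt w ρ θ, σ₀ < s.re → G s = L s) :
    (∀ s ∈ LvAt w ρ θ, meromorphicOrderAt G s ≠ ⊤) ∧
    ∃ (hfin : {s : ℂ | s ∈ LvAt w ρ θ' ∧ meromorphicOrderAt G s ≠ 0}.Finite) (C : ℝ),
      ∀ y : ℝ, 0 < y → ‖(TW lam c w ρ y : ℂ) + ∑ s ∈ hfin.toFinset,
        ((meromorphicOrderAt G s).untop₀ : ℂ) * exp ((s - w) ^ (ρ : ℂ) * y)‖ ≤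
          C * Real.exp (θ' * y) := by
  have h0 : 0 < ρ⁻¹ := by positivity
  have h1ρ : ρ⁻¹ < 1 := inv_lt_one_of_one_lt₀ hρ
  obtain ⟨hmem, hgm, hgo, σ, x₂, Dt, hx₂, hgE⟩ := D.vplane hρ hθ hG hGL
  obtain ⟨hord, hfin', C, hC⟩ := mer_expand Dt h0 h1ρ hθ hθ' hgm hx₂ hgE
  have hLv : ∀ s ∈ LvAt w ρ θ', s ∈ LvAt w ρ θ := fun s hs => ⟨hs.1, hθ'.trans hs.2⟩
  refine ⟨fun s hs => ?_, ?_⟩
  · obtain ⟨e1, e2⟩ := root_eq hρ hs
    have e3 := hord _ e1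
    rw [hgo _ e1, e2] at e3
    exact e3
  have hmaps : ∀ s ∈ {s : ℂ | s ∈ LvAt w ρ θ' ∧ meromorphicOrderAt G s ≠ 0},
      (s - w) ^ (ρ : ℂ) ∈ {z : ℂ | θ' < z.re ∧
        meromorphicOrderAt (fun v => G (w + v ^ ((ρ⁻¹ : ℝ) : ℂ))) z ≠ 0} := by
    rintro s ⟨hs1, hs2⟩
    obtain ⟨e1, e2⟩ := root_eq hρ hs1
    refine ⟨e1, ?_⟩
    rw [hgo _ (hθ'.trans e1), e2]
    exact hs2
  have hfin : {s : ℂ | s ∈ LvAt w ρ θ' ∧ meromorphicOrderAt G s ≠ 0}.Finite := by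
    refine (hfin'.image fun v : ℂ => (w : ℂ) + v ^ ((ρ⁻¹ : ℝ) : ℂ)).subset fun s hs => ?_
    exact ⟨(s - w) ^ (ρ : ℂ), hmaps s hs, (root_eq hρ hs.1).2⟩
  refine ⟨hfin, C, fun y hy => ?_⟩
  have e1 := hC y hy
  have e2 : ∑ z ∈ hfin'.toFinset, ((-(meromorphicOrderAt (fun v => G (w + v ^ ((ρ⁻¹ : ℝ) : ℂ)))
      z).untop₀ : ℤ) : ℂ) * exp (z * y) = -∑ s ∈ hfin.toFinset,
        ((meromorphicOrderAt G s).untop₀ : ℂ) * exp ((s - w) ^ (ρ : ℂ) * y) := by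
    rw [← Finset.sum_neg_distrib]
    symm
    refine Finset.sum_bij' (fun s _ => (s - w) ^ (ρ : ℂ))
      (fun v _ => (w : ℂ) + v ^ ((ρ⁻¹ : ℝ) : ℂ)) ?_ ?_ ?_ ?_ ?_
    · intro s hs
      rw [Set.Finite.mem_toFinset] at hs ⊢
      exact hmaps s hs
    · intro v hv
      rw [Set.Finite.mem_toFinset] at hv ⊢
      obtain ⟨hv1, hv2⟩ := hv
      have hv3 : θ < v.re := hθ'.trans hv1
      refine ⟨?_, ?_⟩
      · rw [mem_lvAt, add_sub_cancel_left]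
        exact pow_mem_lv hρ (hθ.trans hθ'.le) hv1
      · rw [← hgo v hv3]
        exact hv2
    · intro s hs
      rw [Set.Finite.mem_toFinset] at hs
      exact (root_eq hρ hs.1).2
    · intro v hv
      rw [Set.Finite.mem_toFinset] at hv
      simp only [add_sub_cancel_left]
      exact pow_pow' hρ (by have := hv.1; linarith)
    · intro s hs
      rw [Set.Finite.mem_toFinset] at hs
      obtain ⟨e3, e4⟩ := root_eq hρ hs.1
      rw [hgo _ (hθ'.trans e3), e4]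
      push_cast
      ring
  rw [e2, sub_neg_eq_add] at e1
  exact e1

end Pool.Agent.R791.Dir
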