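import Pool.Agent.R791.Dir1

/-!
# General Dirichlet series: from exponential sums with integral coefficients to continuations, with the
orders of the zeros and poles
-/

set_option autoImplicit false

open MeasureTheory Filter Topology Set Complex
open Pool.Agent.TH942.LS (Dat P P_le)
open Pool.Agent.TH942.SL Pool.Agent.TH942.ES Pool.Agent.R791.SectGen Pool.Agent.R791.Level
open Pool.Agent.R791.Heat

namespace Pool.Agent.R791.Dir

/-- order of the product of powers -/
lemma ord_prod (S : Finset ℂ) (m : ℂ → ℤ) (v : ℂ) :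
    meromorphicOrderAt (fun w : ℂ => ∏ z ∈ S, (w - z) ^ (-m z)) v =
      if v ∈ S then ((-m v : ℤ) : WithTop ℤ) else 0 := by
  classical
  have hq : ∀ z ∈ S.erase v, ((v : ℂ) - z) ^ (-m z) ≠ 0 := fun z hz => by
    refine zpow_ne_zero _ (sub_ne_zero.2 fun h => ?_)
    exact (Finset.ne_of_mem_erase hz) h.symm
  have hpa : AnalyticAt ℂ (fun w : ℂ => ∏ z ∈ S.erase v, (w - z) ^ (-m z)) v := by
    have h1 : ∀ᶠ w in 𝓝 v, DifferentiableAt ℂ (fun w : ℂ => ∏ z ∈ S.erase v, (w - z) ^ (-m z)) w := by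
      have h2 : ∀ᶠ w in 𝓝 v, ∀ z ∈ S.erase v, w - z ≠ 0 := by
        rw [Filter.eventually_all_finset]
        intro z hz
        have : Tendsto (fun w : ℂ => w - z) (𝓝 v) (𝓝 (v - z)) :=
          (continuous_id.sub continuous_const).tendsto v
        exact this.eventually_ne (sub_ne_zero.2 fun h => (Finset.ne_of_mem_erase hz) h.symm)
      filter_upwards [h2] with w hw
      exact DifferentiableAt.fun_finsetProd fun z hz =>
        DifferentiableAt.zpow (by fun_prop) (Or.inl (hw z hz))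
    exact Complex.analyticAt_iff_eventually_differentiableAt.2 h1
  have h0 : meromorphicOrderAt (fun w : ℂ => ∏ z ∈ S.erase v, (w - z) ^ (-m z)) v = 0 := by
    rw [hpa.meromorphicOrderAt_eq, hpa.analyticOrderAt_eq_zero.2 (Finset.prod_ne_zero_iff.2 hq)]
    rfl
  by_cases hv : v ∈ S
  · rw [if_pos hv, meromorphicOrderAt_eq_int_iff]
    · refine ⟨fun w : ℂ => ∏ z ∈ S.erase v, (w - z) ^ (-m z), hpa, Finset.prod_ne_zero_iff.2 hq, ?_⟩
      refine Filter.Eventually.of_forall fun w => ?_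
      rw [← Finset.mul_prod_erase S (fun z => (w - z) ^ (-m z)) hv]
      simp
    · refine MeromorphicAt.fun_prod fun z _ => ?_
      exact MeromorphicAt.zpow (f := fun w : ℂ => w - z) (by fun_prop) _
  · rw [if_neg hv]
    rw [Finset.erase_eq_of_notMem hv] at h0
    exact h0

variable {α : ℝ} {lam c : ℕ → ℝ} {δ σ : ℝ}

/-- **the meromorphic function of an exponential sum with integral coefficients** -/
theorem mer_fn' (D : Dat lam c δ σ) (h0 : 0 < α) (h1 : α < 1) {b : ℝ} (hb : 0 ≤ b) (S : Finset ℂ)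
    (m : ℂ → ℤ) {C y₀ : ℝ} (hM : ∀ y : ℝ, y₀ ≤ y →
      ‖(T lam c α y : ℂ) - ∑ z ∈ S, (m z : ℂ) * exp (z * y)‖ ≤ C * Real.exp (b * y)) :
    ∃ (g : ℂ → ℂ) (x₁ : ℝ), (∀ v : ℂ, b < v.re → MeromorphicAt g v) ∧
      ((∀ z ∈ S, m z ≤ 0) → ∀ v : ℂ, b < v.re → DifferentiableAt ℂ g v) ∧
      (S = ∅ → ∀ v : ℂ, g v ≠ 0) ∧
      (∀ v : ℂ, x₁ < v.re → b < v.re ∧ g v = exp (f₀ lam c α v)) ∧
      ∀ v : ℂ, b < v.re → meromorphicOrderAt g v =
        if v ∈ S then ((-m v : ℤ) : WithTop ℤ) else 0 := by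
  obtain ⟨φ, x₁, hx1, hbx, hφd, hx₁, hSx, hφ⟩ := mer_down D h0 h1 hb S m hM
  set U : Set ℂ := {v | b < v.re} with hU
  have hUo : IsOpen U := isOpen_lt continuous_const Complex.continuous_re
  have hUc : Convex ℝ U := convex_halfSpace_re_gt b
  obtain ⟨Φ, hΦ⟩ := convex_primitive hUo hUc (f := φ) fun v hv =>
    (hφd v hv).differentiableWithinAt
  set Pf : ℂ → ℂ := fun v => ∏ z ∈ S, (v - z) ^ (-m z) with hPf
  set g₁ : ℂ → ℂ := fun v => exp (-Φ v) * Pf v with hg₁
  set W : Set ℂ := {v | x₁ < v.re} with hW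
  have hWo : IsOpen W := isOpen_lt continuous_const Complex.continuous_re
  have hWc : Convex ℝ W := convex_halfSpace_re_gt x₁
  have hWU : ∀ v ∈ W, v ∈ U := fun v hv => lt_of_le_of_lt hbx hv
  have hWn : ∀ v ∈ W, ∀ z ∈ S, v - z ≠ 0 := by
    intro v hv z hz h
    have e1 : v = z := sub_eq_zero.1 h
    have e2 := hSx z hz
    have e3 : x₁ < v.re := hv
    rw [e1] at e3
    linarith
  have hder : ∀ v ∈ W, HasDerivAt (fun v => exp (-f₀ lam c α v) * g₁ v) 0 v := by
    intro v hv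
    have hv' : x₁ < v.re := hv
    have hv0 : 0 < v.re := by linarith
    have hvn : x₁ ≤ ‖v‖ := hv'.le.trans (re_le_norm v)
    have e1 := f₀_deriv D hv0 (hx₁ v hvn hv0)
    have hPn : ∀ z ∈ S, (v - z) ^ (-m z) ≠ 0 := fun z hz => zpow_ne_zero _ (hWn v hv z hz)
    have hPd : ∀ z ∈ S, DifferentiableAt ℂ (fun w : ℂ => (w - z) ^ (-m z)) v := fun z hz =>
      DifferentiableAt.zpow (by fun_prop) (Or.inl (hWn v hv z hz))
    have hPfn : Pf v ≠ 0 := Finset.prod_ne_zero_iff.2 hPn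
    have hPfd : DifferentiableAt ℂ Pf v := by
      rw [hPf]
      exact DifferentiableAt.fun_finsetProd fun z hz => hPd z hz
    have e2 : logDeriv Pf v = ∑ z ∈ S, ((-m z : ℤ) : ℂ) / (v - z) := by
      rw [hPf, logDeriv_prod (f := fun (z w : ℂ) => (w - z) ^ (-m z)) hPn hPd]
      refine Finset.sum_congr rfl fun z hz => ?_
      rw [logDeriv_fun_zpow (by fun_prop), logDeriv_apply]
      simp
      rw [div_eq_mul_inv]
      ring
    have e3 : deriv Pf v = Pf v * ∑ z ∈ S, ((-m z : ℤ) : ℂ) / (v - z) := by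
      rw [← e2, logDeriv_apply]
      field_simp
    have e4 : HasDerivAt Pf (Pf v * ∑ z ∈ S, ((-m z : ℤ) : ℂ) / (v - z)) v := by
      rw [← e3]
      exact hPfd.hasDerivAt
    have e5 := ((e1.fun_neg).cexp).fun_mul (((hΦ v (hWU v hv)).fun_neg.cexp).fun_mul e4)
    refine e5.congr_deriv ?_
    have e6 : ∑ z ∈ S, ((-m z : ℤ) : ℂ) / (v - z) = -∑ z ∈ S, (m z : ℂ) / (v - z) := by
      rw [← Finset.sum_neg_distrib]
      refine Finset.sum_congr rfl fun z _ => ?_
      push_cast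
      ring
    have e7 := hφ v hv'
    rw [e6]
    have e8 : φ v = -f₁ lam c α v - ∑ z ∈ S, (m z : ℂ) / (v - z) := by rw [e7]; ring
    rw [e8]
    ring
  set w₀ : ℂ := ((x₁ + 1 : ℝ) : ℂ) with hw₀
  have hw₀W : w₀ ∈ W := by
    change x₁ < w₀.re
    rw [hw₀, Complex.ofReal_re]
    linarith
  set q : ℂ := exp (-f₀ lam c α w₀) * g₁ w₀ with hq
  have hconst : ∀ v ∈ W, exp (-f₀ lam c α v) * g₁ v = q := fun v hv =>
    hWc.is_const_of_fderivWithin_eq_zero (𝕜 := ℂ) (f := fun v => exp (-f₀ lam c α v) * g₁ v)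
      (fun z hz => (hder z hz).differentiableAt.differentiableWithinAt) (fun z hz => by
        rw [fderivWithin_of_isOpen hWo hz]
        ext
        simp [(hder z hz).deriv]) hv hw₀W
  have hq0 : q ≠ 0 := by
    rw [hq, hg₁]
    refine mul_ne_zero (Complex.exp_ne_zero _) (mul_ne_zero (Complex.exp_ne_zero _) ?_)
    exact Finset.prod_ne_zero_iff.2 fun z hz => zpow_ne_zero _ (hWn w₀ hw₀W z hz)
  have hΦa : ∀ v : ℂ, b < v.re → AnalyticAt ℂ (fun v => exp (-Φ v)) v := fun v hv => by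
    have h2 : DifferentiableOn ℂ (fun v => exp (-Φ v)) U := fun z hz =>
      ((hΦ z hz).fun_neg.cexp).differentiableAt.differentiableWithinAt
    exact h2.analyticAt (hUo.mem_nhds hv)
  have hPm : ∀ v : ℂ, MeromorphicAt Pf v := fun v => by
    rw [hPf]
    refine MeromorphicAt.fun_prod fun z _ => ?_
    exact MeromorphicAt.zpow (f := fun w : ℂ => w - z) (by fun_prop) _
  refine ⟨fun v => q⁻¹ * g₁ v, x₁, fun v hv => ?_, fun hm v hv => ?_, fun hS v => ?_,
    fun v hv => ⟨hWU v hv, ?_⟩, fun v hv => ?_⟩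
  · exact (MeromorphicAt.const _ _).mul ((hΦa v hv).meromorphicAt.mul (hPm v))
  · refine (differentiableAt_const _).mul ((hΦa v hv).differentiableAt.mul ?_)
    rw [hPf]
    refine DifferentiableAt.fun_finsetProd fun z hz => ?_
    exact DifferentiableAt.zpow (by fun_prop) (Or.inr (by have := hm z hz; omega))
  · refine mul_ne_zero (inv_ne_zero hq0) (mul_ne_zero (Complex.exp_ne_zero _) ?_)
    rw [hPf, hS]
    simp
  · have e1 := hconst v hv
    rw [Complex.exp_neg] at e1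
    have e2 := Complex.exp_ne_zero (f₀ lam c α v)
    have e3 : g₁ v = q * exp (f₀ lam c α v) := by
      rw [← e1]
      field_simp
    simp only
    rw [e3]
    field_simp
  · have e1 : AnalyticAt ℂ (fun v => q⁻¹ * exp (-Φ v)) v := analyticAt_const.mul (hΦa v hv)
    have e2 : q⁻¹ * exp (-Φ v) ≠ 0 := mul_ne_zero (inv_ne_zero hq0) (Complex.exp_ne_zero _)
    have e3 : (fun v => q⁻¹ * g₁ v) = (fun v => q⁻¹ * exp (-Φ v)) * Pf := by
      funext v
      rw [hg₁]
      simp only [Pi.mul_apply]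
      ring
    rw [e3, meromorphicOrderAt_mul e1.meromorphicAt (hPm v), e1.meromorphicOrderAt_eq,
      e1.analyticOrderAt_eq_zero.2 e2, hPf, ord_prod]
    simp

end Pool.Agent.R791.Dir
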