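import Pool.Agent.R791.Dir2

/-!
# General Dirichlet series: the continuation obtained from an exponential sum
-/

set_option autoImplicit false

open MeasureTheory Filter Topology Set Complex
open Pool.Agent.TH942.LS (Dat P P_le)
open Pool.Agent.TH942.SL Pool.Agent.TH942.ES Pool.Agent.R791.SectGen Pool.Agent.R791.Level
open Pool.Agent.R791.Heat

namespace Pool.Agent.R791.Dir

variable {lam c : ℕ → ℝ} {δ σ₀ : ℝ} {L : ℂ → ℂ}

lemma lvAt_open {w ρ b : ℝ} (hρ : 1 < ρ) : IsOpen (LvAt w ρ b) := by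
  have : LvAt w ρ b = (fun s : ℂ => s - w) ⁻¹' Lv ρ b := by
    ext s
    exact mem_lvAt
  rw [this]
  exact (lv_open hρ b).preimage (by fun_prop)

/-- **The continuation from an exponential sum with integral coefficients.** -/
theorem DS.ext (D : DS lam c δ σ₀ L)
    {w ρ b : ℝ} (hρ : 1 < ρ) (hb : 0 ≤ b) (S : Finset ℂ) (m : ℂ → ℤ) {C y₀ : ℝ}
    (hM : ∀ y : ℝ, y₀ ≤ y →
      ‖(TW lam c w ρ y : ℂ) - ∑ z ∈ S, (m z : ℂ) * exp (z * y)‖ ≤ C * Real.exp (b * y)) :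
    ∃ G : ℂ → ℂ, (∀ s : ℂ, σ₀ < s.re → G s = L s) ∧
      (∀ s ∈ LvAt w ρ b, MeromorphicAt G s) ∧
      ((∀ z ∈ S, m z ≤ 0) → ∀ s ∈ LvAt w ρ b, DifferentiableAt ℂ G s) ∧
      (S = ∅ → ∀ s ∈ LvAt w ρ b, G s ≠ 0) ∧
      ∀ s ∈ LvAt w ρ b, meromorphicOrderAt G s =
        if (s - w) ^ (ρ : ℂ) ∈ S then ((-m ((s - w) ^ (ρ : ℂ)) : ℤ) : WithTop ℤ) else 0 := by
  classical
  have h0 : 0 < ρ⁻¹ := by positivity
  have h1ρ : ρ⁻¹ < 1 := inv_lt_one_of_one_lt₀ hρ
  set σ : ℝ := max (σ₀ - w) 0 + 1 with hσ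
  have e1 := le_max_left (σ₀ - w) 0
  have e2 := le_max_right (σ₀ - w) 0
  have Dt := D.dat (w := w) (σ := σ) (by linarith) (by linarith)
  obtain ⟨x₀, hx1, hx₀⟩ := exists_abscissa h0 h1ρ σ
  obtain ⟨g, x₁, hgm, hgd, hgn, hgE, hgo⟩ := mer_fn' Dt h0 h1ρ hb S m (C := C) (y₀ := y₀)
    fun y hy => hM y hy
  have hopen : IsOpen (LvAt w ρ b) := lvAt_open hρ
  have hslit : ∀ s ∈ LvAt w ρ b, s - w ∈ slitPlane := fun s hs =>
    slit (sect_re hρ (mem_lvAt.1 hs).1)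
  have hpd : ∀ s ∈ LvAt w ρ b, DifferentiableAt ℂ (fun s : ℂ => (s - w) ^ (ρ : ℂ)) s :=
    fun s hs => DifferentiableAt.cpow_const (by fun_prop) (hslit s hs)
  have hpa : ∀ s ∈ LvAt w ρ b, AnalyticAt ℂ (fun s : ℂ => (s - w) ^ (ρ : ℂ)) s := fun s hs => by
    have h2 : DifferentiableOn ℂ (fun s : ℂ => (s - w) ^ (ρ : ℂ)) (LvAt w ρ b) := fun z hz =>
      (hpd z hz).differentiableWithinAt
    exact h2.analyticAt (hopen.mem_nhds hs)
  set g₂ : ℂ → ℂ := fun s => g ((s - w) ^ (ρ : ℂ)) with hg₂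
  have hg₂m : ∀ s ∈ LvAt w ρ b, MeromorphicAt g₂ s := fun s hs =>
    MeromorphicAt.comp_analyticAt (f := g) (hgm _ (root_eq hρ hs).1) (hpa s hs)
  have hg₂o : ∀ s ∈ LvAt w ρ b, meromorphicOrderAt g₂ s =
      if (s - w) ^ (ρ : ℂ) ∈ S then ((-m ((s - w) ^ (ρ : ℂ)) : ℤ) : WithTop ℤ) else 0 := by
    intro s hs
    rw [← hgo _ (root_eq hρ hs).1]
    refine meromorphicOrderAt_comp_of_deriv_ne_zero (f := g) (hpa s hs) ?_
    have h3 : HasDerivAt (fun s : ℂ => (s - w) ^ (ρ : ℂ)) ((ρ : ℂ) * (s - w) ^ ((ρ : ℂ) - 1) * 1) s :=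
      ((hasDerivAt_id s).sub_const _).cpow_const (hslit s hs)
    rw [h3.deriv, mul_one]
    refine mul_ne_zero (by exact_mod_cast (by linarith : ρ ≠ 0)) ?_
    have h4 : s - w ≠ 0 := slitPlane_ne_zero (hslit s hs)
    rw [Complex.cpow_def_of_ne_zero h4]
    exact Complex.exp_ne_zero _
  -- agreement to the right of `σ₀`
  have hA : ∀ s ∈ LvAt w ρ b, σ₀ < s.re → g₂ =ᶠ[𝓝[≠] s] L := by
    intro s hs hs2
    obtain ⟨e3, e4⟩ := root_eq hρ hs
    set v : ℂ := (s - w) ^ (ρ : ℂ) with hv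
    have hv0 : 0 < v.re := by linarith
    have hLEa : ∀ s : ℂ, σ₀ < s.re → AnalyticAt ℂ L s := fun s hs => D.an hs
    have key : g =ᶠ[𝓝[≠] v] fun v => L (w + v ^ ((ρ⁻¹ : ℝ) : ℂ)) := by
      refine mray_eq (fun x hx => hgm _ ?_) (fun x hx => ?_) (x₁ := max x₁ x₀) fun z hz => ?_
      · rw [Complex.add_re, Complex.ofReal_re]
        linarith
      · have hvx : 0 < (v + (x : ℂ)).re := by rw [Complex.add_re, Complex.ofReal_re]; linarith
        have f1 := re_pow_mono h0 h1ρ hv0 hx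
        have f2 : (v ^ ((ρ⁻¹ : ℝ) : ℂ)).re = s.re - w := by
          have := congrArg Complex.re e4
          rw [Complex.add_re, Complex.ofReal_re] at this
          linarith
        have f3 : σ₀ < ((w : ℂ) + (v + (x : ℂ)) ^ ((ρ⁻¹ : ℝ) : ℂ)).re := by
          rw [Complex.add_re, Complex.ofReal_re]
          linarith
        have f4 : AnalyticAt ℂ (fun v : ℂ => (w : ℂ) + v ^ ((ρ⁻¹ : ℝ) : ℂ)) (v + x) := by
          have ho2 : IsOpen {v : ℂ | 0 < v.re} := isOpen_lt continuous_const Complex.continuous_re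
          have h2 : DifferentiableOn ℂ (fun v : ℂ => (w : ℂ) + v ^ ((ρ⁻¹ : ℝ) : ℂ))
              {v : ℂ | 0 < v.re} := fun z hz =>
            ((pow_deriv (slit hz)).const_add _).differentiableAt.differentiableWithinAt
          exact h2.analyticAt (ho2.mem_nhds hvx)
        exact (AnalyticAt.comp (g := L) (f := fun v : ℂ => (w : ℂ) + v ^ ((ρ⁻¹ : ℝ) : ℂ))
          (hLEa _ f3) f4).meromorphicAt
      · have f1 := (le_max_left x₁ x₀).trans_lt hz
        have f2 := (le_max_right x₁ x₀).trans_lt hz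
        have f3 : 0 < z.re := by linarith
        have f4 := hx₀ z f3 (f2.le.trans (re_le_norm z))
        have f5 := re_pow_ge h0 h1ρ f3
        rw [(hgE z f1).2]
        unfold f₀
        rw [D.exp_w (by linarith)]
    have htend : Tendsto (fun t : ℂ => (t - w) ^ (ρ : ℂ)) (𝓝[≠] s) (𝓝[≠] v) := by
      refine tendsto_nhdsWithin_of_tendsto_nhds_of_eventually_within _ ?_ ?_
      · exact (hpd s hs).continuousAt.tendsto.mono_left nhdsWithin_le_nhds
      · filter_upwards [self_mem_nhdsWithin, nhdsWithin_le_nhds (hopen.mem_nhds hs)] with t ht ht2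
        intro hcon
        apply ht
        have f1 := (root_eq hρ ht2).2
        have hcon' : (t - w) ^ (ρ : ℂ) = v := hcon
        rw [hcon', e4] at f1
        exact f1.symm
    filter_upwards [htend.eventually key, nhdsWithin_le_nhds (hopen.mem_nhds hs)] with t ht ht2
    rw [hg₂]
    simp only
    rw [ht, (root_eq hρ ht2).2]
  have hLEc : ∀ s : ℂ, σ₀ < s.re → ContinuousAt L s := fun s hs =>
    (D.diff hs).1.continuousAt
  set G : ℂ → ℂ := fun s => if σ₀ < s.re then L s else g₂ s with hG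
  have hG1 : ∀ s : ℂ, σ₀ < s.re → G s = L s := fun s hs => by
    rw [hG]
    simp only
    rw [if_pos hs]
  have hG2 : ∀ s ∈ LvAt w ρ b, ContinuousAt g₂ s → G s = g₂ s := by
    intro s hs hc
    by_cases h : σ₀ < s.re
    · rw [hG1 s h]
      exact ((((hLEc s h).eventuallyEq_nhds_iff_eventuallyEq_nhdsNE hc).1
        (hA s hs h).symm).self_of_nhds)
    · rw [hG]
      simp only
      rw [if_neg h]
  have hGg : ∀ s ∈ LvAt w ρ b, G =ᶠ[𝓝[≠] s] g₂ := fun s hs => by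
    filter_upwards [(hg₂m s hs).eventually_analyticAt,
      nhdsWithin_le_nhds (hopen.mem_nhds hs)] with t ht1 ht2
    exact hG2 t ht2 ht1.continuousAt
  have hd₂ : (∀ z ∈ S, m z ≤ 0) → ∀ s ∈ LvAt w ρ b, DifferentiableAt ℂ g₂ s := fun hm s hs =>
    DifferentiableAt.comp (g := g) (f := fun s : ℂ => (s - w) ^ (ρ : ℂ)) s
      (hgd hm _ (root_eq hρ hs).1) (hpd s hs)
  refine ⟨G, hG1, fun s hs => (hg₂m s hs).congr (hGg s hs).symm, fun hm s hs => ?_,
    fun hS s hs => ?_, fun s hs => ?_⟩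
  · refine (hd₂ hm s hs).congr_of_eventuallyEq ?_
    filter_upwards [hopen.mem_nhds hs] with t ht
    exact hG2 t ht (hd₂ hm t ht).continuousAt
  · rw [hG2 s hs (hd₂ (by rw [hS]; simp) s hs).continuousAt]
    exact hgn hS _
  · rw [meromorphicOrderAt_congr (hGg s hs), hg₂o s hs]

end Pool.Agent.R791.Dir
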