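import Pool.Agent.R791.Dir3

/-!
# General Dirichlet series: continuation along the real axis, orders and exponential expansions
-/

set_option autoImplicit false

open MeasureTheory Filter Topology Set Complex
open Pool.Agent.TH942.LS (Dat P P_le)
open Pool.Agent.TH942.SL Pool.Agent.TH942.ES Pool.Agent.R791.SectGen Pool.Agent.R791.Level
open Pool.Agent.R791.Heat

namespace Pool.Agent.R791.Dir

/-- meromorphic continuation along the real axis to a neighbourhood of `a`, with order `r` at `a` -/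
def ContTo (L : ℂ → ℂ) (σ₀ a : ℝ) (r : ℤ) : Prop :=
  ∃ G : ℂ → ℂ, (∀ x : ℝ, a ≤ x → MeromorphicAt G x) ∧ (∀ s : ℂ, σ₀ < s.re → G s = L s) ∧
    meromorphicOrderAt G a = r

/-- expansion of `f` with the coefficient `-r` at the exponent `(a - w) ^ ρ` -/
def Expd (f : ℝ → ℝ) (w ρ a : ℝ) (r : ℤ) : Prop :=
  ∃ (θ : ℝ) (S : Finset ℂ) (m : ℂ → ℤ) (C : ℝ), 0 ≤ θ ∧ θ < (a - w) ^ ρ ∧
    (((a - w) ^ ρ : ℝ) : ℂ) ∉ S ∧ ∀ᶠ y : ℝ in atTop,
      ‖(f y : ℂ) + r * exp (((a - w) ^ ρ : ℝ) * y) - ∑ z ∈ S, (m z : ℂ) * exp (z * y)‖ ≤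
        C * Real.exp (θ * y)

variable {lam c : ℕ → ℝ} {δ σ₀ : ℝ} {L : ℂ → ℂ}

lemma real_pow {w x ρ : ℝ} (hx : w < x) :
    ((x : ℂ) - w) ^ (ρ : ℂ) = (((x - w) ^ ρ : ℝ) : ℂ) := by
  rw [Complex.ofReal_cpow (by linarith), Complex.ofReal_sub]

lemma real_mem {w ρ θ x : ℝ} (hρ : 1 < ρ) (hx : w < x) (h : θ < (x - w) ^ ρ) :
    (x : ℂ) ∈ LvAt w ρ θ := by
  rw [mem_lvAt]
  refine ⟨?_, ?_⟩
  · rw [← Complex.ofReal_sub]
    exact sect_real hρ (by linarith)
  · rw [real_pow hx, Complex.ofReal_re]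
    exact h

lemma real_mem_of_le {w ρ θ a x : ℝ} (hρ : 1 < ρ) (ha : w < a) (h : θ < (a - w) ^ ρ)
    (hx : a ≤ x) : (x : ℂ) ∈ LvAt w ρ θ :=
  real_mem hρ (ha.trans_le hx) (h.trans_le
    (Real.rpow_le_rpow (by linarith) (by linarith) (by linarith)))

/-- from the continuation to the expansion -/
theorem DS.expd_of (D : DS lam c δ σ₀ L) {w ρ θ a : ℝ} (hρ : 1 < ρ) (hθ : 0 ≤ θ) (ha : w < a)
    (hθa : θ < (a - w) ^ ρ) {G : ℂ → ℂ} (hG : ∀ s ∈ LvAt w ρ θ, MeromorphicAt G s)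
    (hGL : ∀ s ∈ LvAt w ρ θ, σ₀ < s.re → G s = L s) {r : ℤ} (hr : meromorphicOrderAt G a = r) :
    Expd (TW lam c w ρ) w ρ a r := by
  classical
  set v₀ : ℝ := (a - w) ^ ρ with hv₀
  set θ' : ℝ := (θ + v₀) / 2 with hθ'
  obtain ⟨-, hfin, C, hC⟩ := D.expand hρ hθ (θ' := θ') (by linarith) hG hGL
  have haθ : (a : ℂ) ∈ LvAt w ρ θ' := real_mem hρ ha (by linarith)
  set R : Finset ℂ := hfin.toFinset.erase (a : ℂ) with hR
  have hRm : ∀ s ∈ R, s ∈ LvAt w ρ θ' := fun s hs => by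
    have := Finset.mem_of_mem_erase hs
    rw [Set.Finite.mem_toFinset] at this
    exact this.1
  have hroot : ∀ s ∈ R, (w : ℂ) + ((s - w) ^ (ρ : ℂ)) ^ ((ρ⁻¹ : ℝ) : ℂ) = s := fun s hs =>
    (root_eq hρ (hRm s hs)).2
  have hinj : Set.InjOn (fun s : ℂ => (s - w) ^ (ρ : ℂ)) (R : Set ℂ) := by
    intro s hs t ht hst
    have hst' : (s - w) ^ (ρ : ℂ) = (t - w) ^ (ρ : ℂ) := hst
    rw [← hroot s hs, ← hroot t ht, hst']
  refine ⟨θ', R.image fun s : ℂ => (s - w) ^ (ρ : ℂ),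
    fun z : ℂ => -(meromorphicOrderAt G ((w : ℂ) + z ^ ((ρ⁻¹ : ℝ) : ℂ))).untop₀, C, by linarith,
    by linarith, ?_, ?_⟩
  · intro hcon
    obtain ⟨s, hs, hs2⟩ := Finset.mem_image.1 hcon
    have e1 := hroot s hs
    have e2 := (root_eq hρ haθ).2
    rw [real_pow ha] at e2
    rw [hs2, e2] at e1
    exact (Finset.ne_of_mem_erase hs) e1.symm
  · filter_upwards [eventually_gt_atTop 0] with y hy
    have e1 := hC y hy
    have e2 : ∑ z ∈ R.image (fun s : ℂ => (s - w) ^ (ρ : ℂ)),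
        ((-(meromorphicOrderAt G ((w : ℂ) + z ^ ((ρ⁻¹ : ℝ) : ℂ))).untop₀ : ℤ) : ℂ) *
          exp (z * y) = -∑ s ∈ R, ((meromorphicOrderAt G s).untop₀ : ℂ) *
            exp ((s - w) ^ (ρ : ℂ) * y) := by
      rw [Finset.sum_image hinj, ← Finset.sum_neg_distrib]
      refine Finset.sum_congr rfl fun s hs => ?_
      rw [hroot s hs]
      push_cast
      ring
    have e3 : ∑ s ∈ hfin.toFinset, ((meromorphicOrderAt G s).untop₀ : ℂ) *
        exp ((s - w) ^ (ρ : ℂ) * y) = r * exp ((v₀ : ℂ) * y) +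
          ∑ s ∈ R, ((meromorphicOrderAt G s).untop₀ : ℂ) * exp ((s - w) ^ (ρ : ℂ) * y) := by
      by_cases hmem : (a : ℂ) ∈ hfin.toFinset
      · rw [hR, ← Finset.add_sum_erase _ _ hmem, hr, real_pow ha, WithTop.untop₀_coe]
      · have e4 : meromorphicOrderAt G (a : ℂ) = 0 := by
          by_contra h
          exact hmem (by rw [Set.Finite.mem_toFinset]; exact ⟨haθ, h⟩)
        have e5 : r = 0 := by
          rw [hr] at e4
          exact_mod_cast e4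
        rw [hR, Finset.erase_eq_of_notMem hmem, e5]
        simp
    rw [e2, sub_neg_eq_add]
    rw [e3, ← add_assoc] at e1
    exact e1

/-- from the expansion to the continuation -/
theorem DS.of_expd (D : DS lam c δ σ₀ L) {w ρ a : ℝ} (hρ : 1 < ρ) (ha : w < a) {r : ℤ}
    (h : Expd (TW lam c w ρ) w ρ a r) : ContTo L σ₀ a r := by
  classical
  obtain ⟨θ, S, m, C, hθ, hθa, hS, hC⟩ := h
  obtain ⟨y₀, hy₀⟩ := hC.exists_forall_of_atTop
  set v₀ : ℂ := (((a - w) ^ ρ : ℝ) : ℂ) with hv₀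
  obtain ⟨G, h1, h2, -, -, h3⟩ := D.ext hρ hθ (insert v₀ S) (Function.update m v₀ (-r))
    (C := C) (y₀ := y₀) (fun y hy => by
      refine le_trans (le_of_eq ?_) (hy₀ y hy)
      congr 1
      rw [Finset.sum_insert hS, Function.update_self]
      have e1 : ∑ z ∈ S, ((Function.update m v₀ (-r) z : ℤ) : ℂ) * exp (z * y) =
          ∑ z ∈ S, (m z : ℂ) * exp (z * y) := by
        refine Finset.sum_congr rfl fun z hz => ?_
        rw [Function.update_of_ne (fun h : z = v₀ => hS (h ▸ hz))]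
      rw [e1]
      push_cast
      ring)
  refine ⟨G, fun x hx => h2 _ (real_mem_of_le hρ ha hθa hx), h1, ?_⟩
  rw [h3 _ (real_mem hρ ha hθa), real_pow ha, if_pos (Finset.mem_insert_self _ _),
    Function.update_self, neg_neg]

/-- the order does not depend on the continuation -/
theorem order_unique {a σ₀ : ℝ} {L F G : ℂ → ℂ} (hF : ∀ x : ℝ, a ≤ x → MeromorphicAt F x)
    (hG : ∀ x : ℝ, a ≤ x → MeromorphicAt G x) (hFL : ∀ s : ℂ, σ₀ < s.re → F s = L s)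
    (hGL : ∀ s : ℂ, σ₀ < s.re → G s = L s) :
    meromorphicOrderAt F a = meromorphicOrderAt G a := by
  have key : ∀ x : ℝ, 0 ≤ x → ((a : ℂ) + x) = ((a + x : ℝ) : ℂ) := fun x _ => by push_cast; rfl
  refine meromorphicOrderAt_congr (mray_eq (fun x hx => ?_) (fun x hx => ?_) (x₁ := σ₀)
    fun s hs => by rw [hFL s hs, hGL s hs])
  · rw [key x hx]
    exact hF _ (by linarith)
  · rw [key x hx]
    exact hG _ (by linarith)

/-- one pair `(w, ρ)` decides the order, for functions meromorphic in the region -/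
theorem DS.region_iff (D : DS lam c δ σ₀ L) {w ρ θ a : ℝ} (hρ : 1 < ρ) (hθ : 0 ≤ θ) (ha : w < a)
    (hθa : θ < (a - w) ^ ρ) {G : ℂ → ℂ} (hG : ∀ s ∈ LvAt w ρ θ, MeromorphicAt G s)
    (hGL : ∀ s : ℂ, σ₀ < s.re → G s = L s) (r : ℤ) :
    meromorphicOrderAt G a = r ↔ Expd (TW lam c w ρ) w ρ a r := by
  constructor
  · intro hr
    exact D.expd_of hρ hθ ha hθa hG (fun s _ hs => hGL s hs) hr
  · intro h
    obtain ⟨F, hF1, hF2, hF3⟩ := D.of_expd hρ ha h
    rw [← hF3]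
    exact order_unique (fun x hx => hG _ (real_mem_of_le hρ ha hθa hx)) hF1 hGL hF2

/-- the real segment gives thin regions -/
theorem DS.thin (D : DS lam c δ σ₀ L) {a : ℝ} {G : ℂ → ℂ}
    (hG : ∀ x : ℝ, a ≤ x → MeromorphicAt G x) (hGL : ∀ s : ℂ, σ₀ < s.re → G s = L s) :
    ∃ ε : ℝ, 0 < ε ∧ ∀ w : ℝ, a - ε < w → w < a → ∃ ρ₀ : ℝ, ∀ ρ : ℝ, 1 < ρ → ρ₀ < ρ →
      ∃ θ : ℝ, 0 ≤ θ ∧ θ < (a - w) ^ ρ ∧ ∀ s ∈ LvAt w ρ θ, MeromorphicAt G s := by
  set O : Set ℂ := {s | MeromorphicAt G s} with hO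
  have hOo : IsOpen O := by
    rw [isOpen_iff_mem_nhds]
    intro s hs
    have h1 : ∀ᶠ z in 𝓝[≠] s, z ∈ O := by
      filter_upwards [hs.eventually_analyticAt] with z hz
      exact hz.meromorphicAt
    rw [← nhdsNE_sup_pure s, Filter.mem_sup]
    exact ⟨h1, hs⟩
  have hho : IsOpen {s : ℂ | σ₀ < s.re} := isOpen_lt continuous_const Complex.continuous_re
  have hGr : ∀ s : ℂ, σ₀ < s.re → MeromorphicAt G s := fun s hs => by
    refine (D.an hs).meromorphicAt.congr (Filter.Eventually.filter_mono nhdsWithin_le_nhds ?_)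
    filter_upwards [hho.mem_nhds hs] with z hz
    exact (hGL z hz).symm
  have hK : IsCompact ((fun x : ℝ => (x : ℂ)) '' Icc a (max a σ₀)) :=
    isCompact_Icc.image Complex.continuous_ofReal
  have hKO : (fun x : ℝ => (x : ℂ)) '' Icc a (max a σ₀) ⊆ O := by
    rintro _ ⟨x, hx, rfl⟩
    exact hG x hx.1
  obtain ⟨δ', hδ, hδO⟩ := hK.exists_thickening_subset_open hOo hKO
  refine ⟨δ', hδ, fun w hw hwa => ?_⟩
  have hlim : Tendsto (fun ρ : ℝ => Real.tan (Real.pi / (2 * ρ)) * (max a σ₀ - w)) atTop (𝓝 0) := by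
    have e1 : Tendsto (fun ρ : ℝ => Real.pi / (2 * ρ)) atTop (𝓝 0) :=
      Tendsto.div_atTop tendsto_const_nhds (Tendsto.const_mul_atTop two_pos tendsto_id)
    have e2 : ContinuousAt Real.tan 0 := Real.continuousAt_tan.2 (by simp)
    have e3 := e2.tendsto.comp e1
    rw [Real.tan_zero] at e3
    simpa using e3.mul_const (max a σ₀ - w)
  obtain ⟨ρ₀, hρ₀⟩ := (hlim.eventually (gt_mem_nhds (half_pos hδ))).exists_forall_of_atTop
  refine ⟨ρ₀, fun ρ hρ hρρ₀ => ⟨((a - w) / 2) ^ ρ, Real.rpow_nonneg (by linarith) _,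
    Real.rpow_lt_rpow (by linarith) (by linarith) (by linarith), fun s hs => ?_⟩⟩
  by_cases h2 : σ₀ < s.re
  · exact hGr s h2
  rw [mem_lvAt] at hs
  have e1 : (a - w) / 2 < (s - w).re := re_gt_of_lv hρ (by linarith) hs
  have e2 := ((sect_iff hρ).1 hs.1).2
  have e3 := hρ₀ ρ hρρ₀.le
  rw [Complex.sub_re, Complex.ofReal_re] at e1 e2
  rw [Complex.sub_im, Complex.ofReal_im, sub_zero] at e2
  have htan : 0 ≤ Real.tan (Real.pi / (2 * ρ)) := by
    have hpos : 0 < s.re - w := by linarith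
    by_contra hcon
    push Not at hcon
    have : Real.tan (Real.pi / (2 * ρ)) * (s.re - w) < 0 := mul_neg_of_neg_of_pos hcon hpos
    linarith [abs_nonneg s.im]
  have hle : s.re ≤ max a σ₀ := (not_lt.1 h2).trans (le_max_right _ _)
  have e4 : |s.im| < δ' / 2 := by
    have : Real.tan (Real.pi / (2 * ρ)) * (s.re - w) ≤
        Real.tan (Real.pi / (2 * ρ)) * (max a σ₀ - w) :=
      mul_le_mul_of_nonneg_left (by linarith) htan
    linarith
  apply hδO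
  rw [Metric.mem_thickening_iff]
  refine ⟨((max a s.re : ℝ) : ℂ), ⟨max a s.re, ⟨le_max_left _ _, max_le (le_max_left _ _) hle⟩, rfl⟩, ?_⟩
  rw [Complex.dist_eq]
  have e5 : s - ((max a s.re : ℝ) : ℂ) = ((s.re - max a s.re : ℝ) : ℂ) + s.im * I := by
    nth_rewrite 1 [← Complex.re_add_im s]
    push_cast
    ring
  rw [e5]
  refine (norm_add_le _ _).trans_lt ?_
  rw [norm_mul, Complex.norm_I, mul_one, Complex.norm_real, Complex.norm_real, Real.norm_eq_abs,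
    Real.norm_eq_abs]
  have e6 : |s.re - max a s.re| < δ' / 2 := by
    rw [abs_of_nonpos (by linarith [le_max_right a s.re])]
    rcases le_total a s.re with h | h
    · rw [max_eq_right h]
      linarith
    · rw [max_eq_left h]
      linarith
  linarith

/-- **Continuation along the real axis with a given order, and exponential expansions.** -/
theorem DS.axis_tfae (D : DS lam c δ σ₀ L) (a : ℝ) (r : ℤ) : List.TFAE [
    ContTo L σ₀ a r,
    ∃ w ρ : ℝ, w < a ∧ 1 < ρ ∧ Expd (TW lam c w ρ) w ρ a r,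
    ∃ ε : ℝ, 0 < ε ∧ ∀ w : ℝ, a - ε < w → w < a → ∃ ρ₀ : ℝ, ∀ ρ : ℝ, 1 < ρ → ρ₀ < ρ →
      Expd (TW lam c w ρ) w ρ a r] := by
  tfae_have 1 → 3 := by
    rintro ⟨G, h1, h2, h3⟩
    obtain ⟨ε, hε, h4⟩ := D.thin h1 h2
    refine ⟨ε, hε, fun w hw hwa => ?_⟩
    obtain ⟨ρ₀, h5⟩ := h4 w hw hwa
    refine ⟨ρ₀, fun ρ hρ hρ₀ => ?_⟩
    obtain ⟨θ, hθ, hθa, h6⟩ := h5 ρ hρ hρ₀
    exact D.expd_of hρ hθ hwa hθa h6 (fun s _ hs => h2 s hs) h3
  tfae_have 3 → 2 := by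
    rintro ⟨ε, hε, h⟩
    obtain ⟨ρ₀, h1⟩ := h (a - ε / 2) (by linarith) (by linarith)
    refine ⟨a - ε / 2, max ρ₀ 1 + 1, by linarith, ?_, h1 _ ?_ ?_⟩
    · have := le_max_right ρ₀ 1
      linarith
    · have := le_max_right ρ₀ 1
      linarith
    · have := le_max_left ρ₀ 1
      linarith
  tfae_have 2 → 1 := by
    rintro ⟨w, ρ, hw, hρ, h⟩
    exact D.of_expd hρ hw h
  tfae_finish

end Pool.Agent.R791.Dir
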