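import Pool.Agent.R791.Dir4

/-!
# Zeta functions of families of closed points
-/

set_option autoImplicit false

open MeasureTheory Filter Topology Set Complex
open Pool.Agent.TH942.LS (Dat P P_le)
open Pool.Agent.TH942.SL Pool.Agent.TH942.ES Pool.Agent.R791.SectGen Pool.Agent.R791.Level
open Pool.Agent.R791.Heat

namespace Pool.Agent.R791.Dir

universe u

variable {ι : Type u} {N : ι → ℕ} {d : ℝ}

/-- norms of closed points -/
structure Fam (N : ι → ℕ) (d : ℝ) : Prop where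
  d0 : 0 ≤ d
  two_le : ∀ x, 2 ≤ N x
  conv : ∀ σ : ℝ, d < σ → Summable fun x => (N x : ℝ) ^ (-σ)

/-- the zeta function -/
noncomputable def zetaF (N : ι → ℕ) (s : ℂ) : ℂ := ∏' x : ι, (1 - (N x : ℂ) ^ (-s))⁻¹

/-- the logarithm of the norm -/
noncomputable def lamF (N : ι → ℕ) (p : ι × ℕ) : ℝ := ((p.2 : ℝ) + 1) * Real.log (N p.1)

/-- the coefficient -/
noncomputable def cF (p : ι × ℕ) : ℝ := ((p.2 : ℝ) + 1)⁻¹

variable (F : Fam N d)
include F

theorem Fam.npos (x : ι) : (0 : ℝ) < N x := by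
  have := F.two_le x
  exact_mod_cast (by omega : 0 < N x)

theorem Fam.log_ge (x : ι) : Real.log 2 ≤ Real.log (N x) :=
  Real.log_le_log (by norm_num) (by exact_mod_cast F.two_le x)

theorem Fam.lam_ge (p : ι × ℕ) : Real.log 2 ≤ lamF N p := by
  unfold lamF
  have h1 := F.log_ge p.1
  have h2 : (0 : ℝ) < Real.log 2 := Real.log_pos (by norm_num)
  have h3 : (0 : ℝ) ≤ p.2 := Nat.cast_nonneg _
  nlinarith

theorem Fam.countable : Countable ι := by
  have h1 := F.conv (d + 1) (by linarith)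
  have h2 : (Function.support fun x : ι => (N x : ℝ) ^ (-(d + 1))).Countable :=
    h1.countable_support
  have h3 : Function.support (fun x : ι => (N x : ℝ) ^ (-(d + 1))) = Set.univ := by
    ext x
    simp only [Function.mem_support, Set.mem_univ, iff_true]
    exact (Real.rpow_pos_of_pos (F.npos x) _).ne'
  rw [h3] at h2
  exact Set.countable_univ_iff.1 h2

theorem Fam.exp_lam (σ : ℝ) (p : ι × ℕ) : Real.exp (-(σ * lamF N p)) =
    ((N p.1 : ℝ) ^ (-σ)) ^ (p.2 + 1) := by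
  unfold lamF
  rw [Real.rpow_def_of_pos (F.npos p.1), ← Real.exp_nat_mul]
  congr 1
  push_cast
  ring

theorem Fam.small {σ : ℝ} (hσ : 0 < σ) (x : ι) : (N x : ℝ) ^ (-σ) ≤ (2 : ℝ) ^ (-σ) ∧
    (2 : ℝ) ^ (-σ) < 1 := by
  refine ⟨?_, Real.rpow_lt_one_of_one_lt_of_neg (by norm_num) (by linarith)⟩
  exact Real.rpow_le_rpow_of_nonpos (by norm_num) (by exact_mod_cast F.two_le x) (by linarith)

theorem Fam.sum_abs {σ : ℝ} (hσ : d < σ) :
    Summable fun p : ι × ℕ => |cF p| * Real.exp (-(σ * lamF N p)) := by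
  have hσ0 : 0 < σ := F.d0.trans_lt hσ
  have h2 : (2 : ℝ) ^ (-σ) < 1 := Real.rpow_lt_one_of_one_lt_of_neg (by norm_num) (by linarith)
  have h0 : (0 : ℝ) ≤ (2 : ℝ) ^ (-σ) := by positivity
  have h3 : Summable fun p : ι × ℕ => (N p.1 : ℝ) ^ (-σ) * ((2 : ℝ) ^ (-σ)) ^ p.2 :=
    (F.conv σ hσ).mul_of_nonneg (summable_geometric_of_lt_one h0 h2)
      (fun x => Real.rpow_nonneg (F.npos x).le _) (fun k => pow_nonneg h0 _)
  refine Summable.of_nonneg_of_le (fun p => by positivity) (fun p => ?_) h3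
  have e1 : |cF p| ≤ 1 := by
    unfold cF
    rw [abs_of_nonneg (by positivity)]
    exact inv_le_one_of_one_le₀ (by have : (0 : ℝ) ≤ p.2 := Nat.cast_nonneg _; linarith)
  have e2 : Real.exp (-(σ * lamF N p)) ≤ (N p.1 : ℝ) ^ (-σ) * ((2 : ℝ) ^ (-σ)) ^ p.2 := by
    rw [F.exp_lam, pow_succ, mul_comm]
    refine mul_le_mul_of_nonneg_left ?_ (Real.rpow_nonneg (F.npos p.1).le _)
    exact pow_le_pow_left₀ (Real.rpow_nonneg (F.npos p.1).le _) (F.small hσ0 p.1).1 _
  calc |cF p| * Real.exp (-(σ * lamF N p)) ≤ 1 * Real.exp (-(σ * lamF N p)) :=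
        mul_le_mul_of_nonneg_right e1 (Real.exp_nonneg _)
    _ ≤ _ := by rw [one_mul]; exact e2

theorem Fam.cexp_lam (s : ℂ) (p : ι × ℕ) : Complex.exp (-(s * lamF N p)) =
    ((N p.1 : ℂ) ^ (-s)) ^ (p.2 + 1) := by
  unfold lamF
  have h1 : (N p.1 : ℂ) ≠ 0 := by
    have := F.npos p.1
    exact_mod_cast this.ne'
  rw [Complex.cpow_def_of_ne_zero h1, ← Complex.exp_nat_mul]
  congr 1
  push_cast [Complex.natCast_log]
  ring

/-- the logarithm of the zeta function -/
theorem Fam.zeta_eq {s : ℂ} (hs : d < s.re) :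
    zetaF N s = Complex.exp (∑' p : ι × ℕ, (cF p : ℂ) * Complex.exp (-(s * lamF N p))) := by
  have hs0 : 0 < s.re := F.d0.trans_lt hs
  have hnorm : ∀ x : ι, ‖(N x : ℂ) ^ (-s)‖ < 1 := fun x => by
    rw [Complex.norm_natCast_cpow_of_pos (by have := F.two_le x; omega), Complex.neg_re]
    exact lt_of_le_of_lt (F.small hs0 x).1 (F.small hs0 x).2
  have hsum : Summable fun p : ι × ℕ => (cF p : ℂ) * Complex.exp (-(s * lamF N p)) := by
    refine Summable.of_norm ((F.sum_abs hs).congr fun p => ?_)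
    rw [norm_mul, Complex.norm_real, Real.norm_eq_abs, Complex.norm_exp, Complex.neg_re,
      Complex.re_mul_ofReal]
  have h1 : ∀ x : ι, HasSum (fun k : ℕ => (cF (x, k) : ℂ) * Complex.exp (-(s * lamF N (x, k))))
      (-Complex.log (1 - (N x : ℂ) ^ (-s))) := by
    intro x
    have h2 := Complex.hasSum_taylorSeries_neg_log (hnorm x)
    have h3 := (hasSum_nat_add_iff' 1).2 h2
    simp only [Finset.range_one, Finset.sum_singleton, Nat.cast_zero, div_zero, sub_zero] at h3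
    refine h3.congr_fun fun k => ?_
    rw [F.cexp_lam]
    unfold cF
    push_cast
    rw [div_eq_mul_inv, mul_comm]
  have h2 : HasSum (fun x : ι => -Complex.log (1 - (N x : ℂ) ^ (-s)))
      (∑' p : ι × ℕ, (cF p : ℂ) * Complex.exp (-(s * lamF N p))) :=
    hsum.hasSum.prod_fiberwise h1
  have h3 := h2.cexp
  unfold zetaF
  rw [← h3.tprod_eq]
  refine tprod_congr fun x => ?_
  rw [Function.comp_apply, Complex.exp_neg, Complex.exp_log]
  intro hcon
  have h4 : (N x : ℂ) ^ (-s) = 1 := (sub_eq_zero.1 hcon).symm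
  have h5 := hnorm x
  rw [h4, norm_one] at h5
  exact lt_irrefl _ h5

end Pool.Agent.R791.Dir
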