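import Pool.Agent.R791.Heat1

/-!
# The weight of index `1/2` is Gaussian
-/

set_option autoImplicit false

open MeasureTheory Filter Topology Set Complex
open Pool.Agent.TH942.SL

namespace Pool.Agent.R791.Heat

/-- the second moment of an exponential -/
lemma mom2 {r : ℂ} (hr : 0 < r.re) :
    IntegrableOn (fun u : ℝ => (u : ℂ) ^ 2 * exp (-(r * u))) (Ioi 0) ∧
      ∫ u in Ioi (0 : ℝ), (u : ℂ) ^ 2 * exp (-(r * u)) = 2 / r ^ 3 := by
  have hrn : r ≠ 0 := fun h => by rw [h] at hr; simp at hr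
  have hn : ∀ u : ℝ, ‖exp (-(r * u))‖ = Real.exp (-(r.re * u)) := fun u => by
    rw [Complex.norm_exp, Complex.neg_re, Complex.re_mul_ofReal]
  have hfi0 : IntegrableOn (fun u : ℝ => u ^ (2 : ℝ) * Real.exp (-r.re * u)) (Ioi 0) := by
    have := integrableOn_rpow_mul_exp_neg_mul_rpow (s := 2) (p := 1) (b := r.re) (by norm_num)
      (by norm_num) hr
    simpa using this
  have hi : IntegrableOn (fun u : ℝ => (u : ℂ) ^ 2 * exp (-(r * u))) (Ioi 0) := by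
    refine Integrable.mono' hfi0 (Continuous.aestronglyMeasurable (by fun_prop)) ?_
    filter_upwards [ae_restrict_mem measurableSet_Ioi] with u hu
    have hu0 : (0 : ℝ) < u := hu
    rw [norm_mul, norm_pow, Complex.norm_real, Real.norm_eq_abs, abs_of_pos hu0, hn]
    have e1 : u ^ (2 : ℝ) = u ^ 2 := by norm_cast
    rw [e1, neg_mul]
  refine ⟨hi, ?_⟩
  have hd : ∀ x ∈ Ici (0 : ℝ), HasDerivAt (fun x : ℝ => -(((x : ℂ) ^ 2 / r + 2 * x / r ^ 2 +
      2 / r ^ 3) * exp (-(r * x)))) ((x : ℂ) ^ 2 * exp (-(r * x))) x := by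
    intro x _
    have e0 : HasDerivAt (fun x : ℝ => (x : ℂ)) 1 x := (hasDerivAt_id x).ofReal_comp
    have e1 : HasDerivAt (fun x : ℝ => (x : ℂ) ^ 2 / r + 2 * x / r ^ 2 + 2 / r ^ 3)
        (2 * (x : ℂ) / r + 2 / r ^ 2) x := by
      have f1 := ((e0.fun_pow 2).div_const r).fun_add ((e0.const_mul 2).div_const (r ^ 2))
      refine (f1.add_const (2 / r ^ 3)).congr_deriv ?_
      simp
    have e2 : HasDerivAt (fun x : ℝ => exp (-(r * x))) (exp (-(r * x)) * (-(r * 1))) x :=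
      ((e0.const_mul r).fun_neg).cexp
    refine (e1.fun_mul e2).fun_neg.congr_deriv ?_
    field_simp
    ring
  have hl : Tendsto (fun x : ℝ => -(((x : ℂ) ^ 2 / r + 2 * x / r ^ 2 + 2 / r ^ 3) *
      exp (-(r * x)))) atTop (𝓝 0) := by
    have key : ∀ n : ℕ, Tendsto (fun x : ℝ => x ^ n * Real.exp (-(r.re * x))) atTop (𝓝 0) := by
      intro n
      have h1 := (Real.tendsto_pow_mul_exp_neg_atTop_nhds_zero n).comp
        (tendsto_id.const_mul_atTop hr)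
      have h2 := h1.const_mul ((r.re ^ n)⁻¹)
      rw [mul_zero] at h2
      refine h2.congr fun x => ?_
      simp only [Function.comp_apply, id]
      rw [mul_pow]
      field_simp
    have e1 := (((key 2).const_mul ‖r‖⁻¹).add ((key 1).const_mul (2 * (‖r‖ ^ 2)⁻¹))).add
      ((key 0).const_mul (2 * (‖r‖ ^ 3)⁻¹))
    rw [mul_zero, mul_zero, mul_zero, add_zero, add_zero] at e1
    refine squeeze_zero_norm' ?_ e1
    filter_upwards [eventually_ge_atTop 0] with x hx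
    rw [norm_neg, norm_mul, hn]
    have e3 : ‖(x : ℂ) ^ 2 / r + 2 * x / r ^ 2 + 2 / r ^ 3‖ ≤
        ‖r‖⁻¹ * x ^ 2 + 2 * (‖r‖ ^ 2)⁻¹ * x + 2 * (‖r‖ ^ 3)⁻¹ := by
      refine (norm_add_le _ _).trans (add_le_add ((norm_add_le _ _).trans (le_of_eq ?_))
        (le_of_eq ?_))
      · simp only [norm_div, norm_mul, norm_pow, Complex.norm_real, Real.norm_eq_abs,
          abs_of_nonneg hx, Complex.norm_ofNat]
        ring
      · simp only [norm_div, norm_pow, Complex.norm_ofNat]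
        ring
    calc _ ≤ (‖r‖⁻¹ * x ^ 2 + 2 * (‖r‖ ^ 2)⁻¹ * x + 2 * (‖r‖ ^ 3)⁻¹) *
          Real.exp (-(r.re * x)) := by gcongr
      _ = _ := by ring
  have := integral_Ioi_of_hasDerivAt_of_tendsto' hd hi hl
  rw [this]
  simp

/-- the auxiliary integral -/
noncomputable def kk (u : ℝ) : ℂ := V 1 (fun z => z ^ ((2⁻¹ : ℂ) - 1) * hg 2⁻¹ u z)

lemma half_cast : (((2⁻¹ : ℝ)) : ℂ) = (2⁻¹ : ℂ) := by push_cast; rfl

lemma line_re (t : ℝ) : (((1 : ℝ) : ℂ) + t * I).re = 1 := by simp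
lemma line_im (t : ℝ) : (((1 : ℝ) : ℂ) + t * I).im = t := by simp
lemma line_norm (t : ℝ) : 1 ≤ ‖((1 : ℝ) : ℂ) + t * I‖ := by
  have := re_le_norm (((1 : ℝ) : ℂ) + t * I)
  rwa [line_re] at this

lemma h0h : (0 : ℝ) < 2⁻¹ := by norm_num
lemma h1h : (2⁻¹ : ℝ) < 1 := by norm_num

/-- the dominating function -/
lemma dom (u₀ : ℝ) (hu₀ : 0 < u₀) : ∃ C : ℝ, 0 ≤ C ∧ ∀ u : ℝ, u₀ ≤ u → ∀ z : ℂ, z.re = 1 →
    ‖hg 2⁻¹ u z‖ ≤ C * (1 + |z.im|) ^ (-(2 : ℝ)) := by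
  have hk := kap_pos h0h h1h
  obtain ⟨C, hC, hC'⟩ := stretched h0h (a := u₀ * kap 2⁻¹) (by positivity)
  refine ⟨Real.exp 1 * C, by positivity, fun u hu z hz => ?_⟩
  have hz0 : 0 < z.re := by rw [hz]; norm_num
  have hu0 : 0 < u := hu₀.trans_le hu
  have hku : 0 ≤ u * kap 2⁻¹ := by positivity
  have h2 : |z.im| ^ (2⁻¹ : ℝ) ≤ ‖z‖ ^ (2⁻¹ : ℝ) :=
    Real.rpow_le_rpow (abs_nonneg _) (abs_im_le_norm z) (by norm_num)
  have h3 : Real.exp (-(u * kap 2⁻¹ * ‖z‖ ^ (2⁻¹ : ℝ))) ≤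
      Real.exp (-(u₀ * kap 2⁻¹ * |z.im| ^ (2⁻¹ : ℝ))) := by
    apply Real.exp_le_exp.2
    have e1 : u₀ * kap 2⁻¹ * |z.im| ^ (2⁻¹ : ℝ) ≤ u * kap 2⁻¹ * ‖z‖ ^ (2⁻¹ : ℝ) := by
      gcongr
    linarith
  have h4 := hC' |z.im| (abs_nonneg _)
  calc ‖hg 2⁻¹ u z‖ ≤ Real.exp z.re * Real.exp (-(u * kap 2⁻¹ * ‖z‖ ^ (2⁻¹ : ℝ))) :=
        norm_hg_le h0h h1h (by linarith) hz0
    _ ≤ Real.exp 1 * (C * (1 + |z.im|) ^ (-(2 : ℝ))) := by
      rw [hz]
      exact mul_le_mul_of_nonneg_left (h3.trans h4) (Real.exp_pos _).le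
    _ = _ := by ring

lemma norm_neg_half {z : ℂ} (hz : 1 ≤ ‖z‖) : ‖z ^ ((2⁻¹ : ℂ) - 1)‖ ≤ 1 := by
  have h := norm_pow_sub z 2⁻¹
  rw [half_cast] at h
  rw [h]
  exact Real.rpow_le_one_of_one_le_of_nonpos hz (by norm_num)

lemma cont_hg (u : ℝ) : Continuous fun t : ℝ => hg 2⁻¹ u (((1 : ℝ) : ℂ) + t * I) :=
  line_cont fun s hs => (hg_diff u (by rw [hs]; norm_num)).continuousAt

lemma cont_pw : Continuous fun t : ℝ => (((1 : ℝ) : ℂ) + t * I) ^ ((2⁻¹ : ℂ) - 1) :=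
  line_cont (H := fun z => z ^ ((2⁻¹ : ℂ) - 1)) fun s hs =>
    ContinuousAt.cpow continuousAt_id continuousAt_const (slit (by rw [hs]; norm_num))

lemma int_hg {u : ℝ} (hu : 0 < u) : Integrable fun t : ℝ => hg 2⁻¹ u (((1 : ℝ) : ℂ) + t * I) := by
  obtain ⟨C, hC, hC'⟩ := dom u hu
  refine Integrable.mono' ((decay_int (p := 2) (by norm_num)).const_mul C)
    (cont_hg u).aestronglyMeasurable (ae_of_all _ fun t => ?_)
  have := hC' u le_rfl _ (line_re t)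
  rwa [line_im] at this

lemma int_kk {u : ℝ} (hu : 0 < u) : Integrable fun t : ℝ =>
    (((1 : ℝ) : ℂ) + t * I) ^ ((2⁻¹ : ℂ) - 1) * hg 2⁻¹ u (((1 : ℝ) : ℂ) + t * I) := by
  refine (int_hg hu).norm.mono' (cont_pw.mul (cont_hg u)).aestronglyMeasurable
    (ae_of_all _ fun t => ?_)
  rw [norm_mul]
  exact mul_le_of_le_one_left (norm_nonneg _) (norm_neg_half (line_norm t))

/-- integration by parts -/
lemma gc_kk {u : ℝ} (hu : 0 < u) : gc 2⁻¹ u = u / 2 * kk u := by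
  obtain ⟨C, hC, hC'⟩ := dom u hu
  have hd : ∀ s : ℂ, s.re = 1 → HasDerivAt (hg 2⁻¹ u)
      (hg 2⁻¹ u s - u / 2 * (s ^ ((2⁻¹ : ℂ) - 1) * hg 2⁻¹ u s)) s := by
    intro s hs
    have hs0 : 0 < s.re := by rw [hs]; norm_num
    have e1 := pow_deriv (α := 2⁻¹) (slit hs0)
    have e2 := ((hasDerivAt_id s).fun_sub (e1.const_mul (u : ℂ))).cexp
    refine e2.congr_deriv ?_
    unfold hg
    rw [half_cast]
    simp only [id]
    ring
  have hlimb : ∀ t : ℝ, ‖hg 2⁻¹ u (((1 : ℝ) : ℂ) + t * I)‖ ≤ C * (1 + |t|) ^ (-(2 : ℝ)) :=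
    fun t => by
      have := hC' u le_rfl _ (line_re t)
      rwa [line_im] at this
  have hlim : Tendsto (fun t : ℝ => C * (1 + |t|) ^ (-(2 : ℝ))) atTop (𝓝 0) := by
    have e1 : Tendsto (fun T : ℝ => (1 + |T|)) atTop atTop :=
      tendsto_atTop_add_const_left _ _ tendsto_abs_atTop_atTop
    have e2 := (tendsto_rpow_neg_atTop (y := 2) (by norm_num)).comp e1
    simpa using e2.const_mul C
  have hlim' : Tendsto (fun t : ℝ => C * (1 + |t|) ^ (-(2 : ℝ))) atBot (𝓝 0) := by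
    have e1 : Tendsto (fun T : ℝ => (1 + |T|)) atBot atTop :=
      tendsto_atTop_add_const_left _ _ tendsto_abs_atBot_atTop
    have e2 := (tendsto_rpow_neg_atTop (y := 2) (by norm_num)).comp e1
    simpa using e2.const_mul C
  have hV := V_deriv (F := hg 2⁻¹ u) (F' := fun s => hg 2⁻¹ u s -
    u / 2 * (s ^ ((2⁻¹ : ℂ) - 1) * hg 2⁻¹ u s)) hd
    ((int_hg hu).sub ((int_kk hu).const_mul (u / 2 : ℂ)))
    (squeeze_zero_norm hlimb hlim) (squeeze_zero_norm hlimb hlim')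
  have e3 : V 1 (fun s => hg 2⁻¹ u s - u / 2 * (s ^ ((2⁻¹ : ℂ) - 1) * hg 2⁻¹ u s)) =
      gc 2⁻¹ u - u / 2 * kk u := by
    unfold V gc kk V
    simp only
    rw [integral_sub (int_hg hu) ((int_kk hu).const_mul (u / 2 : ℂ)), integral_const_mul]
    ring
  rw [e3, sub_eq_zero] at hV
  exact hV

/-- the derivative -/
lemma kk_deriv {u : ℝ} (hu : 0 < u) : HasDerivAt kk (-gc 2⁻¹ u) u := by
  obtain ⟨C, hC, hC'⟩ := dom (u / 2) (by linarith)
  have h := hasDerivAt_integral_of_dominated_loc_of_deriv_le (μ := volume) (𝕜 := ℝ)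
    (F := fun (u t : ℝ) => (((1 : ℝ) : ℂ) + t * I) ^ ((2⁻¹ : ℂ) - 1) *
      hg 2⁻¹ u (((1 : ℝ) : ℂ) + t * I))
    (F' := fun (u t : ℝ) => -hg 2⁻¹ u (((1 : ℝ) : ℂ) + t * I)) (x₀ := u) (s := Ioi (u / 2))
    (bound := fun t => C * (1 + |t|) ^ (-(2 : ℝ))) (Ioi_mem_nhds (by linarith))
    (Eventually.of_forall fun x => (cont_pw.mul (cont_hg x)).aestronglyMeasurable) (int_kk hu)
    (cont_hg u).neg.aestronglyMeasurable (ae_of_all _ fun t x hx => by
      rw [norm_neg]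
      have := hC' x (le_of_lt hx) _ (line_re t)
      rwa [line_im] at this) ((decay_int (p := 2) (by norm_num)).const_mul C)
    (ae_of_all _ fun t x hx => by
      set z : ℂ := ((1 : ℝ) : ℂ) + t * I with hz
      have hz0 : 0 < z.re := by rw [hz, line_re]; norm_num
      have hzn := ne_zero' hz0
      have e0 : HasDerivAt (fun x : ℝ => (x : ℂ)) 1 x := (hasDerivAt_id x).ofReal_comp
      have e1 : HasDerivAt (fun x : ℝ => hg 2⁻¹ x z) (hg 2⁻¹ x z * (-(1 * z ^ (2⁻¹ : ℂ)))) x := by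
        unfold hg
        rw [half_cast]
        exact ((e0.mul_const (z ^ (2⁻¹ : ℂ))).const_sub z).cexp
      refine (e1.const_mul (z ^ ((2⁻¹ : ℂ) - 1))).congr_deriv ?_
      have e2 : z ^ ((2⁻¹ : ℂ) - 1) * z ^ (2⁻¹ : ℂ) = 1 := by
        rw [← Complex.cpow_add _ _ hzn]
        norm_num
      calc z ^ ((2⁻¹ : ℂ) - 1) * (hg 2⁻¹ x z * (-(1 * z ^ (2⁻¹ : ℂ)))) =
            -(hg 2⁻¹ x z) * (z ^ ((2⁻¹ : ℂ) - 1) * z ^ (2⁻¹ : ℂ)) := by ring
        _ = _ := by rw [e2, mul_one])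
  have h2 := h.2.const_mul (((2 * Real.pi)⁻¹ : ℝ) : ℂ)
  have h3 : kk = fun u : ℝ => (((2 * Real.pi)⁻¹ : ℝ) : ℂ) * ∫ t : ℝ,
      (((1 : ℝ) : ℂ) + t * I) ^ ((2⁻¹ : ℂ) - 1) * hg 2⁻¹ u (((1 : ℝ) : ℂ) + t * I) := rfl
  rw [h3]
  refine h2.congr_deriv ?_
  rw [integral_neg]
  unfold gc V
  ring

/-- the shape -/
lemma kk_shape : ∃ κ : ℂ, ∀ u : ℝ, 0 < u → kk u = κ * exp (-(u : ℂ) ^ 2 / 4) := by
  set F : ℝ → ℂ := fun u => kk u * exp ((u : ℂ) ^ 2 / 4) with hF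
  have hd : ∀ u ∈ Ioi (0 : ℝ), HasDerivAt F 0 u := by
    intro u hu
    have hu0 : (0 : ℝ) < u := hu
    have e0 : HasDerivAt (fun x : ℝ => (x : ℂ)) 1 u := (hasDerivAt_id u).ofReal_comp
    have e1 : HasDerivAt (fun x : ℝ => exp ((x : ℂ) ^ 2 / 4))
        (exp ((u : ℂ) ^ 2 / 4) * (2 * (u : ℂ) / 4)) u := by
      refine (((e0.fun_pow 2).div_const 4).cexp).congr_deriv ?_
      simp
    refine ((kk_deriv hu0).fun_mul e1).congr_deriv ?_
    rw [gc_kk hu0]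
    ring
  refine ⟨F 1, fun u hu => ?_⟩
  have h2 : F u = F 1 := by
    refine (convex_Ioi (0 : ℝ)).is_const_of_fderivWithin_eq_zero (𝕜 := ℝ) (f := F)
      (fun z hz => (hd z hz).differentiableAt.differentiableWithinAt) (fun z hz => ?_) hu
      (Set.mem_Ioi.2 one_pos)
    rw [fderivWithin_of_isOpen isOpen_Ioi hz]
    ext
    simp [(hd z hz).deriv]
  rw [← h2, hF]
  simp only
  rw [mul_assoc, ← Complex.exp_add]
  have : (u : ℂ) ^ 2 / 4 + -(u : ℂ) ^ 2 / 4 = 0 := by ring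
  rw [this, Complex.exp_zero, mul_one]

/-- the constant -/
lemma kk_const : ∫ u in Ioi (0 : ℝ), (u : ℂ) ^ 2 * kk u = 2 := by
  have hk := kap_pos h0h h1h
  set f : ℝ → ℝ → ℂ := fun u t => (u : ℂ) ^ 2 * ((((1 : ℝ) : ℂ) + t * I) ^ ((2⁻¹ : ℂ) - 1) *
    hg 2⁻¹ u (((1 : ℝ) : ℂ) + t * I)) with hf
  set bf : ℝ → ℝ → ℝ := fun u t => u ^ 2 * (‖((1 : ℝ) : ℂ) + t * I‖ ^ (2⁻¹ - 1 : ℝ) *
    (Real.exp 1 * Real.exp (-(u * kap 2⁻¹ * ‖((1 : ℝ) : ℂ) + t * I‖ ^ (2⁻¹ : ℝ))))) with hbf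
  have hzc : Continuous fun t : ℝ => ‖((1 : ℝ) : ℂ) + t * I‖ := by fun_prop
  have hzn : ∀ t : ℝ, ‖((1 : ℝ) : ℂ) + t * I‖ ≠ 0 := fun t => by
    have := line_norm t
    intro h
    rw [h] at this
    linarith
  have hbc : Continuous (Function.uncurry bf) := by
    rw [hbf]
    refine Continuous.mul (by fun_prop) (Continuous.mul ?_ (Continuous.mul continuous_const ?_))
    · exact Continuous.rpow_const (by fun_prop) fun p => Or.inl (hzn p.2)
    · refine Real.continuous_exp.comp (Continuous.neg (Continuous.mul (by fun_prop) ?_))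
      exact Continuous.rpow_const (by fun_prop) fun p => Or.inl (hzn p.2)
  -- the inner integral of the bound
  have hin : ∀ t : ℝ, IntegrableOn (fun u => bf u t) (Ioi 0) ∧
      ∫ u in Ioi (0 : ℝ), bf u t = 2 * Real.exp 1 / kap 2⁻¹ ^ 3 *
        (‖((1 : ℝ) : ℂ) + t * I‖ ^ 2)⁻¹ := by
    intro t
    set n : ℝ := ‖((1 : ℝ) : ℂ) + t * I‖ with hn
    have hn1 : 1 ≤ n := line_norm t
    have hn0 : 0 < n := by linarith
    set q : ℝ := kap 2⁻¹ * n ^ (2⁻¹ : ℝ) with hq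
    have hq0 : 0 < q := by positivity
    obtain ⟨i1, i2⟩ := mom2 (r := (q : ℂ)) (by rw [Complex.ofReal_re]; exact hq0)
    have e1 : ∀ u : ℝ, (u : ℂ) ^ 2 * exp (-((q : ℂ) * u)) =
        ((u ^ 2 * Real.exp (-(q * u)) : ℝ) : ℂ) := fun u => by push_cast; rfl
    simp only [e1] at i1 i2
    have i1' : IntegrableOn (fun u : ℝ => u ^ 2 * Real.exp (-(q * u))) (Ioi 0) := by
      exact Complex.reCLM.integrable_comp i1
    have i2' : ∫ u in Ioi (0 : ℝ), u ^ 2 * Real.exp (-(q * u)) = 2 / q ^ 3 := by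
      rw [integral_complex_ofReal] at i2
      have h3 : (((2 / q ^ 3 : ℝ)) : ℂ) = 2 / (q : ℂ) ^ 3 := by push_cast; rfl
      rw [← h3] at i2
      exact_mod_cast i2
    have e2 : ∀ u : ℝ, bf u t = n ^ (2⁻¹ - 1 : ℝ) * Real.exp 1 * (u ^ 2 * Real.exp (-(q * u))) := by
      intro u
      rw [hbf]
      simp only
      rw [← hn]
      have : u * kap 2⁻¹ * n ^ (2⁻¹ : ℝ) = q * u := by rw [hq]; ring
      rw [this]
      ring
    simp only [e2]
    refine ⟨i1'.const_mul _, ?_⟩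
    rw [integral_const_mul, i2', hq, mul_pow]
    have e3 : (n ^ (2⁻¹ : ℝ)) ^ 3 = n ^ (3 / 2 : ℝ) := by
      rw [← Real.rpow_natCast, ← Real.rpow_mul hn0.le]
      norm_num
    have e4 : n ^ (2⁻¹ - 1 : ℝ) = n ^ (3 / 2 : ℝ) * (n ^ 2)⁻¹ := by
      rw [← Real.rpow_natCast n 2, ← Real.rpow_neg hn0.le, ← Real.rpow_add hn0]
      norm_num
    rw [e3, e4]
    have e5 : 0 < n ^ (3 / 2 : ℝ) := by positivity
    field_simp
  have hline : ∀ t : ℝ, 1 + t ^ 2 = ‖((1 : ℝ) : ℂ) + (t : ℂ) * I‖ ^ 2 := by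
    intro t
    rw [← Complex.normSq_eq_norm_sq, Complex.normSq_apply]
    simp
    ring
  have hbnn : ∀ u t : ℝ, 0 ≤ bf u t := fun u t => by
    rw [hbf]
    positivity
  have hbi : Integrable (Function.uncurry bf) ((volume.restrict (Ioi (0 : ℝ))).prod volume) := by
    rw [integrable_prod_iff' hbc.aestronglyMeasurable]
    refine ⟨ae_of_all _ fun t => (hin t).1, ?_⟩
    have e1 : ∀ t : ℝ, ∫ u in Ioi (0 : ℝ), ‖Function.uncurry bf (u, t)‖ =
        2 * Real.exp 1 / kap 2⁻¹ ^ 3 * (1 + t ^ 2)⁻¹ := by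
      intro t
      rw [hline, ← (hin t).2]
      refine setIntegral_congr_fun measurableSet_Ioi fun u _ => ?_
      simp only [Function.uncurry_apply_pair]
      rw [Real.norm_eq_abs, abs_of_nonneg (hbnn u t)]
    simp only [e1]
    exact integrable_inv_one_add_sq.const_mul _
  have hfc : Continuous (Function.uncurry f) := by
    rw [hf]
    refine Continuous.mul (by fun_prop) (Continuous.mul (cont_pw.comp continuous_snd) ?_)
    unfold hg
    refine Complex.continuous_exp.comp (Continuous.sub (by fun_prop)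
      (Continuous.mul (by fun_prop) ?_))
    have h2 : Continuous fun t : ℝ => (((1 : ℝ) : ℂ) + t * I) ^ (((2⁻¹ : ℝ)) : ℂ) :=
      line_cont (H := fun z => z ^ (((2⁻¹ : ℝ)) : ℂ)) fun s hs =>
        ContinuousAt.cpow continuousAt_id continuousAt_const (slit (by rw [hs]; norm_num))
    exact h2.comp continuous_snd
  have hfi : Integrable (Function.uncurry f) ((volume.restrict (Ioi (0 : ℝ))).prod volume) := by
    refine hbi.mono' hfc.aestronglyMeasurable ?_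
    have h3 : ∀ᵐ p : ℝ × ℝ ∂((volume.restrict (Ioi (0 : ℝ))).prod volume), p.1 ∈ Ioi (0 : ℝ) := by
      have h4 : ∀ᵐ u : ℝ ∂(volume.restrict (Ioi (0 : ℝ))), u ∈ Ioi (0 : ℝ) :=
        ae_restrict_mem measurableSet_Ioi
      exact Measure.quasiMeasurePreserving_fst.ae h4
    filter_upwards [h3] with p hp
    obtain ⟨u, t⟩ := p
    have hu0 : (0 : ℝ) < u := hp
    rw [hf, hbf]
    simp only [Function.uncurry_apply_pair]
    rw [norm_mul, norm_mul, norm_pow, Complex.norm_real, Real.norm_eq_abs, sq_abs]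
    have e1 := norm_hg_le h0h h1h hu0.le (z := ((1 : ℝ) : ℂ) + t * I)
      (by rw [line_re]; norm_num)
    rw [line_re] at e1
    have e2 := norm_pow_sub (((1 : ℝ) : ℂ) + t * I) 2⁻¹
    rw [half_cast] at e2
    rw [e2]
    gcongr
  have hswap := integral_integral_swap hfi
  have e1 : ∀ u : ℝ, ∫ t : ℝ, f u t = (u : ℂ) ^ 2 * ∫ t : ℝ,
      (((1 : ℝ) : ℂ) + t * I) ^ ((2⁻¹ : ℂ) - 1) * hg 2⁻¹ u (((1 : ℝ) : ℂ) + t * I) := by
    intro u
    rw [hf]
    simp only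
    rw [integral_const_mul]
  have e2 : ∀ t : ℝ, ∫ u in Ioi (0 : ℝ), f u t = 2 * (exp (((1 : ℝ) : ℂ) + t * I) /
      (((1 : ℝ) : ℂ) + t * I) ^ 2) := by
    intro t
    set z : ℂ := ((1 : ℝ) : ℂ) + t * I with hz
    have hz0 : 0 < z.re := by rw [hz, line_re]; norm_num
    have hzne := ne_zero' hz0
    have hr : 0 < (z ^ (2⁻¹ : ℂ)).re := by
      have := re_pow_pos h0h h1h hz0
      rwa [half_cast] at this
    obtain ⟨-, i2⟩ := mom2 hr
    have e3 : ∀ u : ℝ, f u t = z ^ ((2⁻¹ : ℂ) - 1) * exp z *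
        ((u : ℂ) ^ 2 * exp (-(z ^ (2⁻¹ : ℂ) * u))) := by
      intro u
      rw [hf]
      simp only
      unfold hg
      rw [half_cast, ← hz]
      have e5 : exp (z - u * z ^ (2⁻¹ : ℂ)) = exp z * exp (-(z ^ (2⁻¹ : ℂ) * u)) := by
        rw [← Complex.exp_add]
        congr 1
        ring
      rw [e5]
      ring
    simp only [e3]
    rw [integral_const_mul, i2]
    have e4 : (z ^ (2⁻¹ : ℂ)) ^ 3 = z ^ ((2⁻¹ : ℂ) - 1) * z ^ 2 := by
      rw [← Complex.cpow_natCast (z ^ (2⁻¹ : ℂ)) 3, ← Complex.cpow_natCast z 2,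
        ← Complex.cpow_add _ _ hzne]
      have h5 : (log z * (2⁻¹ : ℂ)).im = arg z / 2 := by
        rw [← half_cast, Complex.im_mul_ofReal, Complex.log_im]
        ring
      have h6 := Complex.neg_pi_lt_arg z
      have h7 := Complex.arg_le_pi z
      have hpi := Real.pi_pos
      rw [← Complex.cpow_mul _ (by rw [h5]; linarith) (by rw [h5]; linarith)]
      congr 1
      push_cast
      norm_num
    rw [e4]
    have h8 : z ^ ((2⁻¹ : ℂ) - 1) ≠ 0 := by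
      rw [Complex.cpow_def_of_ne_zero hzne]
      exact Complex.exp_ne_zero _
    generalize z ^ ((2⁻¹ : ℂ) - 1) = A at h8 ⊢
    field_simp
  rw [integral_congr_ae (ae_of_all _ e1)] at hswap
  rw [integral_congr_ae (ae_of_all _ e2), integral_const_mul] at hswap
  have hone := V_one
  unfold V at hone
  have h9 : ∫ u in Ioi (0 : ℝ), (u : ℂ) ^ 2 * kk u = (((2 * Real.pi)⁻¹ : ℝ) : ℂ) *
      ∫ u in Ioi (0 : ℝ), (u : ℂ) ^ 2 * ∫ t : ℝ,
      (((1 : ℝ) : ℂ) + t * I) ^ ((2⁻¹ : ℂ) - 1) * hg 2⁻¹ u (((1 : ℝ) : ℂ) + t * I) := by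
    rw [← integral_const_mul]
    refine setIntegral_congr_fun measurableSet_Ioi fun u _ => ?_
    unfold kk V
    simp only
    ring
  rw [h9, hswap]
  calc _ = 2 * ((((2 * Real.pi)⁻¹ : ℝ) : ℂ) * ∫ t : ℝ, exp (((1 : ℝ) : ℂ) + t * I) /
        (((1 : ℝ) : ℂ) + t * I) ^ 2) := by ring
    _ = 2 := by rw [hone, mul_one]

/-- **the weight of index `1/2`** -/
theorem gk_half {u : ℝ} (hu : 0 < u) :
    gk 2⁻¹ u = u / (2 * √Real.pi) * Real.exp (-u ^ 2 / 4) := by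
  obtain ⟨κ, hκ⟩ := kk_shape
  have hpi := Real.pi_pos
  have h1 : ∫ u in Ioi (0 : ℝ), (u : ℂ) ^ 2 * kk u = κ * ((2 * √Real.pi : ℝ) : ℂ) := by
    have e1 : ∀ u ∈ Ioi (0 : ℝ), (u : ℂ) ^ 2 * kk u =
        κ * ((u ^ (2 : ℝ) * Real.exp (-(1 / 4) * u ^ (2 : ℝ)) : ℝ) : ℂ) := by
      intro u hu
      rw [hκ u hu]
      have e2 : u ^ (2 : ℝ) = u ^ 2 := by norm_cast
      rw [e2]
      push_cast
      have e3 : -(u : ℂ) ^ 2 / 4 = -(1 / 4) * (u : ℂ) ^ 2 := by ring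
      rw [e3]
      ring
    rw [setIntegral_congr_fun measurableSet_Ioi e1, integral_const_mul, integral_complex_ofReal,
      _root_.integral_rpow_mul_exp_neg_mul_rpow (p := 2) (q := 2) (b := 1 / 4) (by norm_num)
        (by norm_num) (by norm_num)]
    congr 2
    have e4 : Real.Gamma ((2 + 1) / 2) = √Real.pi / 2 := by
      have : ((2 : ℝ) + 1) / 2 = 1 / 2 + 1 := by norm_num
      rw [this, Real.Gamma_add_one (by norm_num), Real.Gamma_one_half_eq]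
      ring
    have e5 : (1 / 4 : ℝ) ^ (-(2 + 1) / 2 : ℝ) = 8 := by
      have : (1 / 4 : ℝ) = (2 : ℝ) ^ (-2 : ℝ) := by
        rw [Real.rpow_neg (by norm_num)]
        norm_num
      rw [this, ← Real.rpow_mul (by norm_num)]
      norm_num
    rw [e4, e5]
    ring
  rw [kk_const] at h1
  have hs : (0 : ℝ) < √Real.pi := Real.sqrt_pos.2 hpi
  have hsc : ((√Real.pi : ℝ) : ℂ) ≠ 0 := by exact_mod_cast hs.ne'
  have h2 : κ = (((√Real.pi)⁻¹ : ℝ) : ℂ) := by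
    push_cast at h1 ⊢
    field_simp
    linear_combination (-1 / 2 : ℂ) * h1
  have h3 := gc_kk hu
  rw [gc_eq h0h h1h hu, hκ u hu, h2] at h3
  have h4 : ((gk 2⁻¹ u : ℝ) : ℂ) = ((u / (2 * √Real.pi) * Real.exp (-u ^ 2 / 4) : ℝ) : ℂ) := by
    rw [h3]
    push_cast
    field_simp
  exact_mod_cast h4

end Pool.Agent.R791.Heat
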