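import Pool.Agent.R791.Dir5
import Pool.Agent.R791.Heat5

/-!
# Zeta functions of families of closed points: the theorem
-/

set_option autoImplicit false

open MeasureTheory Filter Topology Set Complex
open Pool.Agent.TH942.LS (Dat P P_le)
open Pool.Agent.TH942.SL Pool.Agent.TH942.ES Pool.Agent.R791.SectGen Pool.Agent.R791.Level
open Pool.Agent.R791.Heat

namespace Pool.Agent.R791.Dir

universe u

variable {ι : Type u} {N : ι → ℕ} {d : ℝ}

/-- the mean over the closed points -/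
noncomputable def termF (N : ι → ℕ) (w ρ y : ℝ) (p : ι × ℕ) : ℝ :=
  cF p * Real.exp (-(w * lamF N p)) * gk ρ⁻¹ (lamF N p * y ^ (-ρ⁻¹))

section
variable {J : Type*} {e : J → ℕ}

/-- reindexing of sums -/
theorem ext_tsum (he : Function.Injective e) (c lam : J → ℝ) (l₀ : ℝ) {β : Type*}
    [AddCommMonoid β] [TopologicalSpace β] (H : ℝ → ℝ → β) (h0 : ∀ l, H 0 l = 0) :
    ∑' n, H (Function.extend e c 0 n) (Function.extend e lam (fun _ => l₀) n) =
      ∑' p, H (c p) (lam p) := by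
  rw [← he.tsum_eq (f := fun n => H (Function.extend e c 0 n)
    (Function.extend e lam (fun _ => l₀) n))]
  · refine tsum_congr fun p => ?_
    rw [he.extend_apply, he.extend_apply]
  · intro n hn
    by_contra hcon
    apply hn
    have : ¬∃ a, e a = n := fun ⟨a, ha⟩ => hcon ⟨a, ha⟩
    simp only
    rw [Function.extend_apply' _ _ _ this]
    exact h0 _

theorem ext_summable (he : Function.Injective e) (c lam : J → ℝ) (l₀ : ℝ) {β : Type*}
    [AddCommMonoid β] [TopologicalSpace β] (H : ℝ → ℝ → β) (h0 : ∀ l, H 0 l = 0) :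
    Summable (fun n => H (Function.extend e c 0 n) (Function.extend e lam (fun _ => l₀) n)) ↔
      Summable fun p => H (c p) (lam p) := by
  rw [← he.summable_iff]
  · refine summable_congr fun p => ?_
    rw [Function.comp_apply, he.extend_apply, he.extend_apply]
  · intro n hn
    have : ¬∃ a, e a = n := fun ⟨a, ha⟩ => hn ⟨a, ha⟩
    rw [Function.extend_apply' _ _ _ this]
    exact h0 _

end

variable (F : Fam N d)
include F

/-- the Dirichlet series -/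
theorem Fam.exists_ds : ∃ lam c : ℕ → ℝ, DS lam c (Real.log 2) d (zetaF N) ∧
    (∀ w ρ y : ℝ, TW lam c w ρ y = ∑' p, termF N w ρ y p) ∧
    ∀ w ρ y : ℝ, 1 < ρ → 0 < y → Summable (termF N w ρ y) := by
  have := F.countable
  obtain ⟨e, he⟩ := Countable.exists_injective_nat (ι × ℕ)
  set lam : ℕ → ℝ := Function.extend e (lamF N) (fun _ => Real.log 2) with hlam
  set c : ℕ → ℝ := Function.extend e cF 0 with hc
  have D : DS lam c (Real.log 2) d (zetaF N) := by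
    refine ⟨Real.log_pos (by norm_num), fun n => ?_, fun σ hσ => ?_, fun s hs => ?_⟩
    · by_cases h : ∃ p, e p = n
      · obtain ⟨p, rfl⟩ := h
        rw [hlam, he.extend_apply]
        exact F.lam_ge p
      · rw [hlam, Function.extend_apply' _ _ _ h]
    · exact (ext_summable he cF (lamF N) (Real.log 2) (fun c l => |c| * Real.exp (-(σ * l)))
        (fun l => by simp)).2 (F.sum_abs hσ)
    · rw [F.zeta_eq hs]
      congr 1
      unfold DD
      exact (ext_tsum he cF (lamF N) (Real.log 2) (fun c l => (c : ℂ) * exp (-(s * l)))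
        (fun l => by simp)).symm
  refine ⟨lam, c, D, fun w ρ y => ?_, fun w ρ y hρ hy => ?_⟩
  · unfold TW T cv termF
    exact ext_tsum he cF (lamF N) (Real.log 2)
      (fun c l => c * Real.exp (-(w * l)) * gk ρ⁻¹ (l * y ^ (-ρ⁻¹))) (fun l => by simp)
  · have h := D.TW_summable (w := w) hρ hy
    unfold cv at h
    exact (ext_summable he cF (lamF N) (Real.log 2)
      (fun c l => c * Real.exp (-(w * l)) * gk ρ⁻¹ (l * y ^ (-ρ⁻¹))) (fun l => by simp)).1 h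

/-- **Zeta functions of families of closed points: continuation and orders.** -/
theorem Fam.main :
    (∀ w ρ y : ℝ, 1 < ρ → 0 < y → Summable (termF N w ρ y)) ∧
    (∀ (a : ℝ) (r : ℤ), List.TFAE [
      ContTo (zetaF N) d a r,
      ∃ w ρ : ℝ, w < a ∧ 1 < ρ ∧ Expd (fun y => ∑' p, termF N w ρ y p) w ρ a r,
      ∃ ε : ℝ, 0 < ε ∧ ∀ w : ℝ, a - ε < w → w < a → ∃ ρ₀ : ℝ, ∀ ρ : ℝ, 1 < ρ → ρ₀ < ρ →
        Expd (fun y => ∑' p, termF N w ρ y p) w ρ a r]) ∧
    (∀ (w ρ θ a : ℝ) (G : ℂ → ℂ) (r : ℤ), 1 < ρ → 0 ≤ θ → w < a → θ < (a - w) ^ ρ →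
      (∀ s ∈ LvAt w ρ θ, MeromorphicAt G s) → (∀ s : ℂ, d < s.re → G s = zetaF N s) →
      (meromorphicOrderAt G a = r ↔ Expd (fun y => ∑' p, termF N w ρ y p) w ρ a r)) ∧
    (∀ (w ρ θ θ' : ℝ) (G : ℂ → ℂ), 1 < ρ → 0 ≤ θ → θ < θ' →
      (∀ s ∈ LvAt w ρ θ, MeromorphicAt G s) → (∀ s : ℂ, d < s.re → G s = zetaF N s) →
      ∃ (hfin : {s : ℂ | s ∈ LvAt w ρ θ' ∧ meromorphicOrderAt G s ≠ 0}.Finite) (C : ℝ),
        ∀ y : ℝ, 0 < y → ‖((∑' p, termF N w ρ y p : ℝ) : ℂ) + ∑ s ∈ hfin.toFinset,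
          ((meromorphicOrderAt G s).untop₀ : ℂ) * exp ((s - w) ^ (ρ : ℂ) * y)‖ ≤
            C * Real.exp (θ' * y)) ∧
    ∀ (w ρ θ : ℝ), 1 < ρ → 0 ≤ θ →
      ((∃ G : ℂ → ℂ, (∀ s : ℂ, s ∈ LvAt w ρ θ ∨ d < s.re → MeromorphicAt G s) ∧
        ∀ s : ℂ, d < s.re → G s = zetaF N s) ↔
      ∀ ε : ℝ, 0 < ε → ∃ (S : Finset ℂ) (m : ℂ → ℤ) (C : ℝ), ∀ᶠ y : ℝ in atTop,
        ‖((∑' p, termF N w ρ y p : ℝ) : ℂ) - ∑ z ∈ S, (m z : ℂ) * exp (z * y)‖ ≤
          C * Real.exp ((θ + ε) * y)) := by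
  obtain ⟨lam, c, D, hT, hS⟩ := F.exists_ds
  have hfun : ∀ w ρ : ℝ, TW lam c w ρ = fun y => ∑' p, termF N w ρ y p := fun w ρ =>
    funext fun y => hT w ρ y
  refine ⟨hS, fun a r => ?_, fun w ρ θ a G r hρ hθ ha hθa hG hGL => ?_,
    fun w ρ θ θ' G hρ hθ hθ' hG hGL => ?_, fun w ρ θ hρ hθ => ⟨?_, ?_⟩⟩
  · have h := D.axis_tfae a r
    simp only [hfun] at h
    exact h
  · rw [← hfun]
    exact D.region_iff hρ hθ ha hθa hG hGL r
  · obtain ⟨-, hfin, C, hC⟩ := D.expand hρ hθ hθ' hG (fun s _ hs => hGL s hs)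
    refine ⟨hfin, C, fun y hy => ?_⟩
    rw [← hT]
    exact hC y hy
  · rintro ⟨G, hG, hGL⟩ ε hε
    obtain ⟨-, hfin, C, hC⟩ := D.expand hρ hθ (show θ < θ + ε by linarith)
      (fun s hs => hG s (Or.inl hs)) (fun s _ hs => hGL s hs)
    classical
    have hroot : ∀ s ∈ hfin.toFinset, (w : ℂ) + ((s - w) ^ (ρ : ℂ)) ^ ((ρ⁻¹ : ℝ) : ℂ) = s :=
      fun s hs => by
        rw [Set.Finite.mem_toFinset] at hs
        exact (root_eq hρ hs.1).2
    have hinj : Set.InjOn (fun s : ℂ => (s - w) ^ (ρ : ℂ)) (hfin.toFinset : Set ℂ) := by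
      intro s hs t ht hst
      have hst' : (s - w) ^ (ρ : ℂ) = (t - w) ^ (ρ : ℂ) := hst
      rw [← hroot s hs, ← hroot t ht, hst']
    refine ⟨hfin.toFinset.image fun s : ℂ => (s - w) ^ (ρ : ℂ),
      fun z : ℂ => -(meromorphicOrderAt G ((w : ℂ) + z ^ ((ρ⁻¹ : ℝ) : ℂ))).untop₀, C, ?_⟩
    filter_upwards [eventually_gt_atTop 0] with y hy
    have e1 := hC y hy
    have e2 : ∑ z ∈ hfin.toFinset.image (fun s : ℂ => (s - w) ^ (ρ : ℂ)),
        ((-(meromorphicOrderAt G ((w : ℂ) + z ^ ((ρ⁻¹ : ℝ) : ℂ))).untop₀ : ℤ) : ℂ) *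
          exp (z * y) = -∑ s ∈ hfin.toFinset, ((meromorphicOrderAt G s).untop₀ : ℂ) *
            exp ((s - w) ^ (ρ : ℂ) * y) := by
      rw [Finset.sum_image hinj, ← Finset.sum_neg_distrib]
      refine Finset.sum_congr rfl fun s hs => ?_
      rw [hroot s hs]
      push_cast
      ring
    rw [e2, sub_neg_eq_add, ← hT]
    exact e1
  · intro h
    have key : ∀ n : ℕ, ∃ G : ℂ → ℂ, (∀ s : ℂ, d < s.re → G s = zetaF N s) ∧
        ∀ s ∈ LvAt w ρ (θ + 1 / ((n : ℝ) + 1)), MeromorphicAt G s := by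
      intro n
      have hp : (0 : ℝ) < 1 / ((n : ℝ) + 1) := by positivity
      obtain ⟨S, m, C, hC⟩ := h _ hp
      obtain ⟨y₀, hy₀⟩ := hC.exists_forall_of_atTop
      obtain ⟨G, h1, h2, -⟩ := D.ext hρ (by linarith : 0 ≤ θ + 1 / ((n : ℝ) + 1)) S m
        (C := C) (y₀ := y₀) fun y hy => by
          rw [hT]
          exact hy₀ y hy
      exact ⟨G, h1, h2⟩
    choose G hG1 hG2 using key
    obtain ⟨Fn, hF1, -, hF2, -⟩ := glue_mer (L := zetaF N) (σ := d)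
      (fun s hs => (D.diff hs).1) (U := fun n : ℕ => LvAt w ρ (θ + 1 / ((n : ℝ) + 1)))
      (fun n => lvAt_open hρ) (fun n s hs x hx => by
        rw [mem_lvAt] at hs ⊢
        have e1 : s + x - (w : ℂ) = s - w + x := by ring
        rw [e1]
        exact lv_shift hρ hs hx) hG2 hG1
    refine ⟨Fn, fun s hs => hF2 s ?_, hF1⟩
    rcases hs with hs | hs
    · left
      obtain ⟨n, hn⟩ := exists_nat_one_div_lt (sub_pos.2 hs.2)
      exact ⟨n, hs.1, by linarith⟩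
    · exact Or.inr hs

end Pool.Agent.R791.Dir
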