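import Pool.Agent.R791.Bar
import Pool.Agent.Y72.Un.CnLin
import Pool.Agent.Y72.Un.All

set_option autoImplicit false
set_option linter.unusedSectionVars false

/-! Determinants of nonsingular hermitian forms over group rings in representations. -/

namespace Pool.Agent.R791

open Finset Pool.Agent.Y72.Log Pool.Agent.Y72.Dt Pool.Agent.Y72.Un H219.Wh
open Pool.Agent.H23R2 (InvPair IsCoc DsumZ cf supp invPair_units)
open scoped Classical

section gam

variable {Γ : Type*} [Group Γ] {n : ℕ}

/-- The element attached to a nonsingular hermitian or skew-hermitian form over the integral group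
ring of a group without elements of order two has trivial image in every abelian group. -/
theorem gamA_herm (h2 : ∀ g : Γ, g * g = 1 → g = 1) (ε : ℤ) (hε : ε = 1 ∨ ε = -1)
    (A : (Matrix (Fin n) (Fin n) (MonoidAlgebra ℤ Γ))ˣ)
    (hA : ∀ i j g, (A.val i j).coeff g = ε * (A.val j i).coeff g⁻¹)
    {M : Type*} [AddCommGroup M] (φ : Γ →* Multiplicative M) : φ (gamA A) = 1 := by
  let F : Γ → Γ → M := fun w x => if w = 1 then (φ x).toAdd else 0
  have hF : IsCoc F := by
    intro w x y
    have h1 : x⁻¹ * w * x = 1 ↔ w = 1 := by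
      constructor
      · intro h
        have : w = x * (x⁻¹ * w * x) * x⁻¹ := by group
        rw [this, h]; group
      · rintro rfl; group
    show (if w = 1 then (φ (x * y)).toAdd else 0) = (if w = 1 then (φ x).toAdd else 0) +
      (if x⁻¹ * w * x = 1 then (φ y).toAdd else 0)
    by_cases hw : w = 1
    · rw [if_pos hw, if_pos hw, if_pos (h1.2 hw), map_mul, toAdd_mul]
    · rw [if_neg hw, if_neg hw, if_neg (fun h => hw (h1.1 h)), add_zero]
  have ha : ∀ i j g, (cf A.val i j g).natAbs ≤ Kb A :=
    fun i j g => ((exists_bound A.val).choose_spec i j g).trans (le_max_left _ _)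
  have hb : ∀ i j g, (cf (A⁻¹).val i j g).natAbs ≤ Kb A :=
    fun i j g => ((exists_bound (A⁻¹).val).choose_spec i j g).trans (le_max_right _ _)
  have key : F 1 (gamA A) =
      DsumZ (cf A.val) (cf (A⁻¹).val) (supp A.val ∪ supp (A⁻¹).val) F := by
    rw [← Dsum_lett _ _ _ _ ha hb F]
    unfold gamA
    rw [coc_gam hF]
    unfold Dsum
    rw [Finset.sum_filter]
    apply Finset.sum_congr rfl
    intro y _
    by_cases hy : grl (supp A.val ∪ supp (A⁻¹).val) (Kb A) y.2.2.1 *
        grl (supp A.val ∪ supp (A⁻¹).val) (Kb A) y.2.2.2 = 1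
    · rw [if_pos hy, hy]
    · rw [if_neg hy]
      show (0 : M) = _ • (if _ = 1 then _ else 0)
      rw [if_neg hy, smul_zero]
  have hBinv := inv_herm ε hε A hA
  have hεε : ε * ε = 1 := by rcases hε with rfl | rfl <;> norm_num
  have hzero : DsumZ (cf A.val) (cf (A⁻¹).val) (supp A.val ∪ supp (A⁻¹).val) F = 0 := by
    unfold DsumZ
    refine Finset.sum_involution (fun y _ => (y.2.1, y.1, y.2.2.2, y.2.2.1)) ?_ ?_ ?_ ?_
    · rintro ⟨i, j, ⟨x, hx⟩, ⟨y, hy⟩⟩ _
      show (cf A.val i j x * cf (A⁻¹).val j i y) • (if x * y = 1 then (φ x).toAdd else 0) +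
        (cf A.val j i y * cf (A⁻¹).val i j x) • (if y * x = 1 then (φ y).toAdd else 0) = 0
      by_cases hxy : x * y = 1
      · have hyx : y * x = 1 := by
          rw [mul_eq_one_iff_eq_inv] at hxy
          rw [hxy]; group
        have hy' : y = x⁻¹ := eq_inv_of_mul_eq_one_right hxy
        rw [if_pos hxy, if_pos hyx]
        have e1 : cf A.val j i y = ε * cf A.val i j x := by
          show (A.val j i).coeff y = ε * (A.val i j).coeff x
          rw [hA j i y, hy', inv_inv]
        have e2 : cf (A⁻¹).val i j x = ε * cf (A⁻¹).val j i y := by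
          show ((A⁻¹).val i j).coeff x = ε * ((A⁻¹).val j i).coeff y
          rw [hBinv i j x, hy']
        have e3 : (φ y).toAdd = - (φ x).toAdd := by
          rw [hy', map_inv, toAdd_inv]
        rw [e1, e2, e3]
        have e4 : (ε * cf A.val i j x) * (ε * cf (A⁻¹).val j i y) =
            cf A.val i j x * cf (A⁻¹).val j i y := by
          calc _ = (ε * ε) * (cf A.val i j x * cf (A⁻¹).val j i y) := by ring
            _ = _ := by rw [hεε, one_mul]
        rw [e4, smul_neg, add_neg_cancel]
      · have hyx : ¬ y * x = 1 := by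
          intro h
          apply hxy
          rw [mul_eq_one_iff_eq_inv] at h
          rw [h]; group
        rw [if_neg hxy, if_neg hyx, smul_zero, smul_zero, add_zero]
    · rintro ⟨i, j, ⟨x, hx⟩, ⟨y, hy⟩⟩ _ hne heq
      apply hne
      have h3 : y = x := by
        have := congrArg (fun z => z.2.2.1.1) heq
        exact this
      show (cf A.val i j x * cf (A⁻¹).val j i y) • (if x * y = 1 then (φ x).toAdd else 0) = 0
      by_cases hxy : x * y = 1
      · rw [h3] at hxy
        rw [h2 x hxy]
        simp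
      · rw [if_neg hxy, smul_zero]
    · intro y _
      exact Finset.mem_univ _
    · intro y _
      rfl
  rw [hzero] at key
  have h3 : (φ (gamA A)).toAdd = 0 := by
    have : F 1 (gamA A) = (φ (gamA A)).toAdd := if_pos rfl
    rw [← this, key]
  exact toAdd_eq_zero.1 h3

/-- The determinant of the element attached to a form in every representation is one. -/
theorem det_gamA_herm (h2 : ∀ g : Γ, g * g = 1 → g = 1) (ε : ℤ) (hε : ε = 1 ∨ ε = -1)
    (A : (Matrix (Fin n) (Fin n) (MonoidAlgebra ℤ Γ))ˣ)
    (hA : ∀ i j g, (A.val i j).coeff g = ε * (A.val j i).coeff g⁻¹)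
    {L : Type*} [CommRing L] {d : ℕ} (ρ : Γ →* Matrix (Fin d) (Fin d) L) :
    (ρ (gamA A)).det = 1 := by
  let ρu : Γ →* (Matrix (Fin d) (Fin d) L)ˣ := ρ.toHomUnits
  let δ : Γ →* Lˣ := (Units.map (Matrix.detMonoidHom (R := L) (n := Fin d))).comp ρu
  let φ : Γ →* Multiplicative (Additive Lˣ) :=
    { toFun := fun g => Multiplicative.ofAdd (Additive.ofMul (δ g))
      map_one' := by rw [map_one]; rfl
      map_mul' := fun a b => by rw [map_mul]; rfl }
  have h1 := gamA_herm h2 ε hε A hA φ
  have h3 : δ (gamA A) = 1 := h1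
  have h4 := congrArg Units.val h3
  exact h4

end gam

section main

variable {Γ : Type*} [Group Γ] {n d : ℕ}

/-- The determinant of a nonsingular hermitian or skew-hermitian form in a representation is a
power of its determinant in the trivial representation. -/
theorem det_form (hn : ∀ H : Subgroup Γ, H.FG → Cn H) (ε : ℤ) (hε : ε = 1 ∨ ε = -1)
    (A : (Matrix (Fin n) (Fin n) (MonoidAlgebra ℤ Γ))ˣ)
    (hA : ∀ i j g, (A.val i j).coeff g = ε * (A.val j i).coeff g⁻¹)
    {L : Type*} [Field L] (ρ : Γ →* Matrix (Fin d) (Fin d) L) :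
    (Matrix.of fun x y : Fin n × Fin d =>
        (A.val x.1 y.1).coeff.sum fun g a => (a : L) * ρ g x.2 y.2).det =
      (((Matrix.of fun i j : Fin n => (A.val i j).coeff.sum fun _ a => a).det : ℤ) : L) ^ d := by
  obtain ⟨H, hH, hS⟩ := exists_fg A
  obtain ⟨A', hA'⟩ := exists_sub A H hS
  haveI : Group.FG H := (Group.fg_iff_subgroup_fg H).2 hH
  have hnH : Cn H := hn H hH
  have h2H : ∀ g : H, g * g = 1 → g = 1 := fun g hg => hnH.tf g 2 (by norm_num) (by rw [pow_two, hg])
  have hcoeff : ∀ i j (g : H), (A'.val i j).coeff g = (A.val i j).coeff (g : Γ) := by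
    intro i j g
    have h6 : A.val i j = mp H.subtype (A'.val i j) := by rw [hA']; rfl
    rw [h6]
    have h5 : (MonoidAlgebra.mapDomain H.subtype (A'.val i j)).coeff =
        (A'.val i j).coeff.mapDomain H.subtype := by
      ext g; simp [MonoidAlgebra.mapDomain]
    show _ = (MonoidAlgebra.mapDomain H.subtype (A'.val i j)).coeff (H.subtype g)
    rw [h5, Finsupp.mapDomain_apply H.subtype_injective]
  have hA2 : ∀ i j (g : H), (A'.val i j).coeff g = ε * (A'.val j i).coeff g⁻¹ := by
    intro i j g
    rw [hcoeff, hcoeff, hA i j g]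
    rfl
  let ρ' : H →* Matrix (Fin d) (Fin d) L := ρ.comp H.subtype
  have h1 := Pool.Agent.Y72.Un.all_reps_sign hnH A' ρ'
  rw [det_gamA_herm h2H ε hε A' hA2 ρ', mul_one] at h1
  have e2 : DD ρ' A'.val = (Matrix.of fun x y : Fin n × Fin d =>
      (A.val x.1 y.1).coeff.sum fun g a => (a : L) * ρ g x.2 y.2).det := by
    unfold DD
    rw [← blkR_mpU, ← hA']
    congr 1
    ext1 x y
    exact lrG_apply ρ (A.val x.1 y.1) x.2 y.2
  have e3 : DD (trv H ℤ) A'.val =
      (Matrix.of fun i j : Fin n => (A.val i j).coeff.sum fun _ a => a).det := by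
    unfold DD
    have : (trv H ℤ) = (trv Γ ℤ).comp H.subtype := rfl
    rw [this, ← blkR_mpU, ← hA', ← Matrix.det_submatrix_equiv_self (Equiv.prodUnique (Fin n) Unit).symm]
    congr 1
    ext1 x y
    refine (lrG_apply (trv Γ ℤ) (A.val x y) () ()).trans ?_
    simp only [Matrix.of_apply]
    apply Finsupp.sum_congr
    intro g _
    show ((A.val x y).coeff g : ℤ) * (1 : Matrix Unit Unit ℤ) () () = _
    rw [Matrix.one_apply_eq, mul_one]
  rw [← e2, h1, e3, Int.cast_pow]

end main

end Pool.Agent.R791
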