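import Pool.Agent.R791.Heat4

/-!
# Complex coefficients: exponential sums in the means and singularities of the transform
-/

set_option autoImplicit false

open MeasureTheory Filter Topology Set Complex
open Pool.Agent.TH942.LS (Dat P P_le)
open Pool.Agent.TH942.SL

namespace Pool.Agent.R791.Heat

variable {α : ℝ} {lam c : ℕ → ℝ} {δ σ : ℝ}

/-- **from the exponential sum to the poles** -/
theorem mer_down_c (D : Dat lam c δ σ) (h0 : 0 < α) (h1 : α < 1) {b : ℝ} (hb : 0 ≤ b) (S : Finset ℂ)
    (m : ℂ → ℂ) {C y₀ : ℝ} (hM : ∀ y : ℝ, y₀ ≤ y →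
      ‖(T lam c α y : ℂ) - ∑ z ∈ S, m z * exp (z * y)‖ ≤ C * Real.exp (b * y)) :
    ∃ (φ : ℂ → ℂ) (x₁ : ℝ), 1 ≤ x₁ ∧ b ≤ x₁ ∧ (∀ v : ℂ, b < v.re → DifferentiableAt ℂ φ v) ∧
      (∀ v : ℂ, x₁ ≤ ‖v‖ → 0 < v.re → σ < (v ^ (α : ℂ)).re) ∧ (∀ z ∈ S, z.re < x₁) ∧
      ∀ v : ℂ, x₁ < v.re → -f₁ lam c α v = φ v + ∑ z ∈ S, m z / (v - z) := by
  obtain ⟨x₀, hx1, hx₀⟩ := exists_abscissa h0 h1 σ
  obtain ⟨g, K, hK, hgc, hneg, hgpos, hgb, hinv⟩ := T_lines D h0 h1 hx1 hx₀
  set E : ℝ → ℂ := fun y => ∑ z ∈ S, m z * exp (z * y) with hE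
  have hEc : Continuous E := by rw [hE]; fun_prop
  set k : ℝ := ∑ z ∈ S, ‖m z‖ with hk
  set r : ℝ := ∑ z ∈ S, ‖z‖ with hr
  have hk0 : 0 ≤ k := Finset.sum_nonneg fun _ _ => norm_nonneg _
  have hr0 : 0 ≤ r := Finset.sum_nonneg fun _ _ => norm_nonneg _
  have hzr : ∀ z ∈ S, ‖z‖ ≤ r := fun z hz =>
    Finset.single_le_sum (f := fun z : ℂ => ‖z‖) (fun _ _ => norm_nonneg _) hz
  have hEb : ∀ y : ℝ, 0 ≤ y → ‖E y‖ ≤ k * Real.exp (r * y) := by
    intro y hy
    rw [hE, hk, Finset.sum_mul]
    refine (norm_sum_le _ _).trans (Finset.sum_le_sum fun z hz => ?_)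
    rw [norm_mul, Complex.norm_exp, Complex.re_mul_ofReal]
    refine mul_le_mul_of_nonneg_left (Real.exp_le_exp.2 ?_) (norm_nonneg _)
    exact mul_le_mul_of_nonneg_right ((re_le_norm z).trans (hzr z hz)) hy
  set C' : ℝ := K * Real.exp (x₀ * |y₀|) + k * Real.exp (r * |y₀|) + |C| with hC'
  have hC'0 : 0 ≤ C' := by positivity
  have hbd : ∀ y : ℝ, 0 < y → ‖g y - E y‖ ≤ C' * Real.exp (b * y) := by
    intro y hy
    have e0 : 1 ≤ Real.exp (b * y) := Real.one_le_exp (by positivity)
    rcases le_total y₀ y with h | h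
    · rw [hgpos y hy]
      refine (hM y h).trans ?_
      refine mul_le_mul_of_nonneg_right ?_ (Real.exp_pos _).le
      have := le_abs_self C
      have : 0 ≤ K * Real.exp (x₀ * |y₀|) + k * Real.exp (r * |y₀|) := by positivity
      rw [hC']
      linarith
    · have hyy : y ≤ |y₀| := h.trans (le_abs_self _)
      have e1 : ‖g y‖ ≤ K * Real.exp (x₀ * |y₀|) := (hgb y).trans
        (mul_le_mul_of_nonneg_left (Real.exp_le_exp.2 (mul_le_mul_of_nonneg_left hyy
          (by linarith))) hK)
      have e2 : ‖E y‖ ≤ k * Real.exp (r * |y₀|) := (hEb y hy.le).trans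
        (mul_le_mul_of_nonneg_left (Real.exp_le_exp.2 (mul_le_mul_of_nonneg_left hyy hr0)) hk0)
      calc ‖g y - E y‖ ≤ ‖g y‖ + ‖E y‖ := norm_sub_le _ _
        _ ≤ C' := by
          rw [hC']
          have := abs_nonneg C
          linarith
        _ ≤ _ := le_mul_of_one_le_right hC'0 e0
  set φ : ℂ → ℂ := fun v => ∫ y in Ioi (0 : ℝ), exp (-(v * y)) * (g y - E y) with hφ
  refine ⟨φ, x₀ + r + b + 1, by linarith, by linarith, ?_, ?_, ?_, ?_⟩
  · intro t ht
    set ε : ℝ := (t.re - b) / 2 with hε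
    have hε0 : 0 < ε := by rw [hε]; linarith
    set O : Set ℂ := {v | b + ε < v.re} with hO
    have hOo : IsOpen O := isOpen_lt continuous_const Complex.continuous_re
    have hexp : Integrable (fun T : ℝ => C' * Real.exp (-(ε * T))) (volume.restrict (Ioi 0)) := by
      have := integrableOn_exp_mul_Ioi (a := -ε) (by linarith) 0
      refine Integrable.const_mul ?_ _
      refine this.congr_fun (fun T _ => ?_) measurableSet_Ioi
      simp only
      congr 1
      ring
    have h2 := Pool.Agent.HP.differentiableOn_integral (volume.restrict (Ioi (0 : ℝ)))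
      (fun (y : ℝ) (v : ℂ) => if 0 < y then exp (-(v * y)) * (g y - E y) else 0) O hOo
      (fun v _ => ?_) (fun y => ?_) (fun y => if 0 < y then C' * Real.exp (-(ε * y)) else 0) ?_
      (fun y v hv => ?_)
    · have h3 : (fun v : ℂ => ∫ y in Ioi (0 : ℝ),
          (if 0 < y then exp (-(v * y)) * (g y - E y) else 0)) = φ := by
        funext v
        rw [hφ]
        refine setIntegral_congr_fun measurableSet_Ioi fun y hy => ?_
        rw [if_pos (show 0 < y from hy)]
      rw [h3] at h2
      exact h2.differentiableAt (hOo.mem_nhds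
        (show b + ε < t.re by rw [hε]; linarith))
    · have h3 : AEStronglyMeasurable (fun y : ℝ => exp (-(v * y)) * (g y - E y))
          (volume.restrict (Ioi 0)) := Continuous.aestronglyMeasurable (by fun_prop)
      refine h3.congr ?_
      filter_upwards [ae_restrict_mem measurableSet_Ioi] with y hy
      rw [if_pos (show 0 < y from hy)]
    · by_cases hy : 0 < y
      · simp only [hy, if_true]
        exact Differentiable.differentiableOn (by fun_prop)
      · simp only [hy, if_false]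
        exact differentiableOn_const _
    · refine hexp.congr ?_
      filter_upwards [ae_restrict_mem measurableSet_Ioi] with y hy
      rw [if_pos (show 0 < y from hy)]
    · split_ifs with hy
      · have hv' : b + ε < v.re := hv
        rw [norm_mul, Complex.norm_exp]
        have e1 : (-(v * (y : ℂ))).re = -(v.re * y) := by
          rw [Complex.neg_re, Complex.re_mul_ofReal]
        rw [e1]
        calc Real.exp (-(v.re * y)) * ‖g y - E y‖ ≤
              Real.exp (-((b + ε) * y)) * (C' * Real.exp (b * y)) := by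
              refine mul_le_mul (Real.exp_le_exp.2 ?_) (hbd y hy) (norm_nonneg _) (Real.exp_pos _).le
              nlinarith
          _ = C' * (Real.exp (-((b + ε) * y)) * Real.exp (b * y)) := by ring
          _ = _ := by
            rw [← Real.exp_add]
            congr 2
            ring
      · simp
  · intro v hv hv0
    have e1 := hx₀ v hv0 (by linarith)
    have e2 := re_pow_ge h0 h1 hv0
    linarith
  · intro z hz
    have e1 := (re_le_norm z).trans (hzr z hz)
    linarith
  · intro v hv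
    have hv0 : x₀ < v.re := by linarith
    have e1 := hinv v.re hv0 v.im
    rw [Complex.re_add_im] at e1
    have e2 : ∫ y in Ioi (0 : ℝ), exp (-(v * y)) * g y = -f₁ lam c α v := by
      rw [← e1, ← integral_indicator measurableSet_Ioi]
      refine integral_congr_ae ?_
      have e2 : ∀ᵐ y : ℝ, y ≠ 0 := by
        rw [ae_iff]
        simp
      filter_upwards [e2] with y hy
      by_cases hy2 : y ∈ Ioi (0 : ℝ)
      · rw [indicator_of_mem hy2]
      · rw [indicator_of_notMem hy2]
        have : y < 0 := lt_of_le_of_ne (not_lt.1 hy2) hy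
        rw [hneg y this, mul_zero]
    have hvz : ∀ z ∈ S, (z - v).re < 0 := fun z hz => by
      rw [Complex.sub_re]
      have e3 := (re_le_norm z).trans (hzr z hz)
      linarith
    have i1 : IntegrableOn (fun y : ℝ => exp (-(v * y)) * g y) (Ioi 0) := by
      have e3 : IntegrableOn (fun y : ℝ => K * Real.exp (-(v.re - x₀) * y)) (Ioi 0) :=
        (integrableOn_exp_mul_Ioi (a := -(v.re - x₀)) (by linarith) 0).const_mul K
      refine Integrable.mono' e3 (Continuous.aestronglyMeasurable (by fun_prop)) ?_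
      filter_upwards with y
      rw [norm_mul, Complex.norm_exp, Complex.neg_re, Complex.re_mul_ofReal]
      calc Real.exp (-(v.re * y)) * ‖g y‖ ≤ Real.exp (-(v.re * y)) * (K * Real.exp (x₀ * y)) :=
            mul_le_mul_of_nonneg_left (hgb y) (Real.exp_pos _).le
        _ = K * (Real.exp (-(v.re * y)) * Real.exp (x₀ * y)) := by ring
        _ = _ := by
          rw [← Real.exp_add]
          congr 2
          ring
    have i2 : ∀ z ∈ S, IntegrableOn (fun y : ℝ => m z * exp ((z - v) * y)) (Ioi 0) :=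
      fun z hz => (integrableOn_exp_mul_complex_Ioi (hvz z hz) 0).const_mul _
    have e3 : ∀ y : ℝ, exp (-(v * y)) * (g y - E y) = exp (-(v * y)) * g y -
        ∑ z ∈ S, m z * exp ((z - v) * y) := by
      intro y
      rw [hE]
      simp only
      rw [mul_sub, Finset.mul_sum]
      congr 1
      refine Finset.sum_congr rfl fun z _ => ?_
      rw [mul_left_comm, ← Complex.exp_add]
      congr 2
      ring
    have e4 : φ v = -f₁ lam c α v - ∑ z ∈ S, m z / (v - z) := by
      rw [hφ]
      simp only [e3]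
      rw [integral_sub i1 (integrable_finsetSum _ i2), e2, integral_finsetSum _ i2]
      congr 1
      refine Finset.sum_congr rfl fun z hz => ?_
      rw [integral_const_mul, integral_exp_mul_complex_Ioi (hvz z hz)]
      have n1 : z - v ≠ 0 := fun h => by
        have := hvz z hz
        rw [h] at this
        simp at this
      have n2 : v - z ≠ 0 := fun h => n1 (by rw [← neg_sub, h, neg_zero])
      simp only [Complex.ofReal_zero, mul_zero, Complex.exp_zero]
      field_simp
      ring
    rw [e4]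
    ring

/-- **from the poles to the exponential sum** -/
theorem mer_up_c (D : Dat lam c δ σ) (h0 : 0 < α) (h1 : α < 1) {a b : ℝ} (ha : 0 ≤ a) (hab : a < b)
    (S : Finset ℂ) (m : ℂ → ℂ) {φ : ℂ → ℂ} (hφ : ∀ v : ℂ, a < v.re → DifferentiableAt ℂ φ v)
    {x₂ : ℝ} (hfar : ∀ v : ℂ, a < v.re → x₂ ≤ ‖v‖ →
      -f₁ lam c α v = φ v + ∑ z ∈ S, m z / (v - z)) :
    ∃ C : ℝ, ∀ y : ℝ, 0 < y →
      ‖(T lam c α y : ℂ) - ∑ z ∈ S, m z * exp (z * y)‖ ≤ C * Real.exp (b * y) := by
  obtain ⟨x₀, hx1, hx₀⟩ := exists_abscissa h0 h1 σ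
  have hb0 : 0 < b := by linarith
  set r : ℝ := ∑ z ∈ S, ‖z‖ with hr
  have hr0 : 0 ≤ r := Finset.sum_nonneg fun _ _ => norm_nonneg _
  have hzr : ∀ z ∈ S, ‖z‖ ≤ r := fun z hz =>
    Finset.single_le_sum (f := fun z : ℂ => ‖z‖) (fun _ _ => norm_nonneg _) hz
  set R : ℝ := max x₀ x₂ + r + 1 with hR
  have hR0 : x₀ ≤ R := by have := le_max_left x₀ x₂; linarith
  have hR2 : x₂ ≤ R := by have := le_max_right x₀ x₂; linarith
  have hR1 : 1 ≤ R := by linarith
  set X : ℝ := R + b with hX
  obtain ⟨B₁, hB₁, hB₁'⟩ := f₁_decay D h0 h1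
  choose! Bz hBz0 hBz using fun p : ℂ => frac_bound p (one_pos)
  set ψ : ℂ → ℂ := fun v => φ v + ∑ z ∈ S, m z / (v + 1) with hψ
  have hne1 : ∀ v : ℂ, 0 ≤ v.re → v + 1 ≠ 0 := fun v hv h => by
    have : (v + 1).re = 0 := by rw [h]; simp
    rw [Complex.add_re, Complex.one_re] at this
    linarith
  have hψd : ∀ v : ℂ, a < v.re → DifferentiableAt ℂ ψ v := by
    intro v hv
    refine (hφ v hv).add ?_
    refine DifferentiableAt.fun_sum fun z _ => ?_
    exact DifferentiableAt.div (differentiableAt_const _) (by fun_prop) (hne1 v (by linarith))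
  have hfar' : ∀ v : ℂ, a < v.re → R ≤ ‖v‖ → ψ v = -f₁ lam c α v -
      ∑ z ∈ S, m z * (1 / (v - z) - 1 / (v + 1)) := by
    intro v hv hv2
    have e1 := hfar v hv (by linarith)
    rw [e1, hψ]
    simp only
    have e2 : ∑ z ∈ S, m z * (1 / (v - z) - 1 / (v + 1)) =
        ∑ z ∈ S, m z / (v - z) - ∑ z ∈ S, m z / (v + 1) := by
      rw [← Finset.sum_sub_distrib]
      refine Finset.sum_congr rfl fun z _ => ?_
      ring
    rw [e2]
    ring
  have hsep : ∀ v : ℂ, R ≤ ‖v‖ → ∀ z ∈ S, 1 ≤ ‖v - z‖ := by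
    intro v hv z hz
    have e1 := norm_sub_norm_le v z
    have e2 := hzr z hz
    have e3 := le_max_left x₀ x₂
    have e4 : R = max x₀ x₂ + r + 1 := hR
    linarith
  -- the bound
  set Kc : Set ℂ := {v : ℂ | b ≤ v.re} ∩ Metric.closedBall 0 R with hKc
  have hKcomp : IsCompact Kc := (isCompact_closedBall 0 R).inter_left
    (isClosed_le continuous_const Complex.continuous_re)
  obtain ⟨C₀, hC₀⟩ := hKcomp.exists_bound_of_continuousOn (f := ψ) fun v hv =>
    (hψd v (lt_of_lt_of_le hab hv.1)).continuousAt.continuousWithinAt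
  set B : ℝ := |C₀| * (1 + R) ^ (2 : ℝ) + (B₁ + ∑ z ∈ S, ‖m z‖ * Bz z) with hB
  have hs0 : 0 ≤ ∑ z ∈ S, ‖m z‖ * Bz z :=
    Finset.sum_nonneg fun z _ => mul_nonneg (norm_nonneg _) (hBz0 z)
  have hB0 : 0 ≤ B := by positivity
  have hψb : ∀ v : ℂ, b ≤ v.re → ‖ψ v‖ ≤ B * (1 + |v.im|) ^ (-(2 : ℝ)) := by
    intro v hv
    have h5 : 0 < 1 + |v.im| := by positivity
    rcases le_total R ‖v‖ with h | h
    · rw [hfar' v (by linarith) h]
      have hv0 : 0 < v.re := by linarith
      have e1 := hB₁' v hv0 (by linarith) (hx₀ v hv0 (by linarith))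
      have e2 : ‖∑ z ∈ S, m z * (1 / (v - z) - 1 / (v + 1))‖ ≤
          (∑ z ∈ S, ‖m z‖ * Bz z) * (1 + |v.im|) ^ (-(2 : ℝ)) := by
        rw [Finset.sum_mul]
        refine (norm_sum_le _ _).trans (Finset.sum_le_sum fun z hz => ?_)
        rw [norm_mul, mul_assoc]
        exact mul_le_mul_of_nonneg_left (hBz z v hv0.le (hsep v h z hz)) (norm_nonneg _)
      refine (norm_sub_le _ _).trans ?_
      rw [norm_neg]
      have e3 : 0 ≤ |C₀| * (1 + R) ^ (2 : ℝ) * (1 + |v.im|) ^ (-(2 : ℝ)) := by positivity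
      rw [hB, add_mul, add_mul]
      linarith
    · have e1 := hC₀ v ⟨hv, by rw [mem_closedBall_zero_iff]; exact h⟩
      have e2 : |v.im| ≤ R := (abs_im_le_norm v).trans h
      have e3 : 1 ≤ (1 + R) ^ (2 : ℝ) * (1 + |v.im|) ^ (-(2 : ℝ)) := by
        rw [Real.rpow_neg h5.le, ← div_eq_mul_inv, le_div_iff₀ (by positivity), one_mul]
        exact Real.rpow_le_rpow h5.le (by linarith) (by norm_num)
      calc ‖ψ v‖ ≤ |C₀| * 1 := by rw [mul_one]; exact e1.trans (le_abs_self _)
        _ ≤ |C₀| * ((1 + R) ^ (2 : ℝ) * (1 + |v.im|) ^ (-(2 : ℝ))) :=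
          mul_le_mul_of_nonneg_left e3 (abs_nonneg _)
        _ ≤ _ := by
          rw [hB, add_mul, mul_assoc]
          have : 0 ≤ (B₁ + ∑ z ∈ S, ‖m z‖ * Bz z) * (1 + |v.im|) ^ (-(2 : ℝ)) := by
            positivity
          linarith
  have hp1 : (1 : ℝ) < 2 := by norm_num
  have hbX : b ≤ X := by rw [hX]; linarith
  set K : ℝ := (2 * Real.pi)⁻¹ * ∫ t : ℝ, B * (1 + |t|) ^ (-(2 : ℝ)) with hK
  have hI0 : 0 ≤ ∫ t : ℝ, B * (1 + |t|) ^ (-(2 : ℝ)) := integral_nonneg fun t => by positivity
  have hK0 : 0 ≤ K := by positivity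
  refine ⟨K + ∑ z ∈ S, ‖m z‖, fun y hy => ?_⟩
  have hshift : V b (fun z => exp (z * y) * ψ z) = V X (fun z => exp (z * y) * ψ z) := by
    refine shift hp1 hbX (B := Real.exp (X * y) * B) (fun s hs _ => ?_) fun s hs hs2 => ?_
    · exact DifferentiableAt.mul (by fun_prop) (hψd s (by linarith))
    · rw [norm_mul, Complex.norm_exp, Complex.re_mul_ofReal, mul_assoc]
      refine mul_le_mul (Real.exp_le_exp.2 ?_) (hψb s hs) (norm_nonneg _) (Real.exp_pos _).le
      exact mul_le_mul_of_nonneg_right hs2 hy.le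
  have hnorm : ‖V b (fun z => exp (z * y) * ψ z)‖ ≤ K * Real.exp (b * y) := by
    have e1 := norm_V_le (H := fun z => exp (z * y) * ψ z) (c := b)
      (g := fun t => Real.exp (b * y) * (B * (1 + |t|) ^ (-(2 : ℝ))))
      (((decay_int hp1).const_mul B).const_mul _) fun t => by
        have e2 := hψb (b + t * I) (by simp)
        have e3 : ((b : ℂ) + t * I).im = t := by simp
        have e4 : ((b : ℂ) + t * I).re = b := by simp
        rw [e3] at e2
        rw [norm_mul, Complex.norm_exp, Complex.re_mul_ofReal, e4]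
        exact mul_le_mul_of_nonneg_left e2 (Real.exp_pos _).le
    rw [integral_const_mul] at e1
    refine e1.trans (le_of_eq ?_)
    rw [hK]
    ring
  -- the line `Re z = X`
  have hXz : ∀ z ∈ S, z.re < X := fun z hz => by
    have e1 := (re_le_norm z).trans (hzr z hz)
    have e4 : R = max x₀ x₂ + r + 1 := hR
    have e3 := le_max_left x₀ x₂
    rw [hX]
    linarith
  have hRX : R ≤ X := by rw [hX]; linarith
  have hVX : V X (fun z => exp (z * y) * ψ z) = (T lam c α y : ℂ) -
      ∑ z ∈ S, m z * (exp (z * y) - exp (-y)) := by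
    have hnX : ∀ s : ℂ, s.re = X → X ≤ ‖s‖ := fun s hs => by
      rw [← hs]; exact re_le_norm s
    have i1 : Integrable fun t : ℝ => exp (((X : ℂ) + t * I) * y) * -f₁ lam c α (X + t * I) := by
      refine line_int (H := fun z => exp (z * y) * -f₁ lam c α z) (p := 2)
        (B := Real.exp (X * y) * B₁) hp1 (fun s hs => ?_) (fun s hs => ?_)
      · have e1 := f₁_diff D h0 h1 (z := s) (by rw [hs]; linarith)
          (hx₀ s (by rw [hs]; linarith) (by have := hnX s hs; linarith))
        have e2 : DifferentiableAt ℂ (fun z : ℂ => exp (z * y)) s := by fun_prop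
        exact (e2.mul e1.neg).continuousAt
      · have hs0 : 0 < s.re := by rw [hs]; linarith
        have e1 := hB₁' s hs0 (by have := hnX s hs; linarith)
          (hx₀ s hs0 (by have := hnX s hs; linarith))
        rw [norm_mul, norm_neg, Complex.norm_exp, Complex.re_mul_ofReal, hs, mul_assoc]
        exact mul_le_mul_of_nonneg_left e1 (Real.exp_pos _).le
    have i2 : ∀ z ∈ S, Integrable fun t : ℝ => m z * (exp (((X : ℂ) + t * I) * y) *
        (1 / (((X : ℂ) + t * I) - z) - 1 / (((X : ℂ) + t * I) + 1))) := by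
      intro z hz
      refine Integrable.const_mul ?_ _
      refine line_int (H := fun w => exp (w * y) * (1 / (w - z) - 1 / (w + 1))) (p := 2)
        (B := Real.exp (X * y) * Bz z) hp1 (fun s hs => ?_) (fun s hs => ?_)
      · have n1 : s - z ≠ 0 := fun h => by
          have : (s - z).re = 0 := by rw [h]; simp
          rw [Complex.sub_re, hs] at this
          have := hXz z hz
          linarith
        refine ContinuousAt.mul (by fun_prop) (ContinuousAt.sub ?_ ?_)
        · exact ContinuousAt.div continuousAt_const (by fun_prop) n1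
        · exact ContinuousAt.div continuousAt_const (by fun_prop)
            (hne1 s (by rw [hs]; linarith))
      · have e1 := hBz z s (by rw [hs]; linarith) (hsep s (by have := hnX s hs; linarith) z hz)
        rw [norm_mul, Complex.norm_exp, Complex.re_mul_ofReal, hs, mul_assoc]
        exact mul_le_mul_of_nonneg_left e1 (Real.exp_pos _).le
    have e1 : ∀ t : ℝ, exp (((X : ℂ) + t * I) * y) * ψ (X + t * I) =
        exp (((X : ℂ) + t * I) * y) * -f₁ lam c α (X + t * I) -
        ∑ z ∈ S, m z * (exp (((X : ℂ) + t * I) * y) *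
        (1 / (((X : ℂ) + t * I) - z) - 1 / (((X : ℂ) + t * I) + 1))) := by
      intro t
      have e2 : ((X : ℂ) + t * I).re = X := by simp
      rw [hfar' _ (by rw [e2]; linarith) (by have := hnX _ e2; linarith), mul_sub, Finset.mul_sum]
      congr 1
      refine Finset.sum_congr rfl fun z _ => ?_
      ring
    rw [T_eq' D h0 h1 (x := X) (by linarith) hy (fun z hz hz2 => hx₀ z hz (by linarith))]
    have e3 : ∀ z ∈ S, m z * (exp (z * y) - exp (-y)) = ((2 * Real.pi)⁻¹ : ℝ) *
        ∫ t : ℝ, m z * (exp (((X : ℂ) + t * I) * y) *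
        (1 / (((X : ℂ) + t * I) - z) - 1 / (((X : ℂ) + t * I) + 1))) := by
      intro z hz
      rw [← rat_V (by linarith : 0 < X) (hXz z hz) hy.le]
      unfold V
      rw [integral_const_mul]
      ring
    rw [Finset.sum_congr rfl e3]
    unfold V
    simp only [e1]
    rw [integral_sub i1 (integrable_finsetSum _ i2), integral_finsetSum _ i2, mul_sub,
      Finset.mul_sum]
  have efin : (T lam c α y : ℂ) - ∑ z ∈ S, m z * exp (z * y) =
      V b (fun z => exp (z * y) * ψ z) - ∑ z ∈ S, m z * exp (-y) := by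
    rw [hshift, hVX]
    simp only [mul_sub, Finset.sum_sub_distrib]
    ring
  rw [efin, add_mul]
  refine (norm_sub_le _ _).trans (add_le_add hnorm ?_)
  rw [Finset.sum_mul]
  refine (norm_sum_le _ _).trans (Finset.sum_le_sum fun z _ => ?_)
  rw [norm_mul]
  refine mul_le_mul_of_nonneg_left ?_ (norm_nonneg _)
  rw [Complex.norm_exp]
  apply Real.exp_le_exp.2
  have e5 : (-(y : ℂ)).re = -y := by simp
  rw [e5]
  have : 0 < b * y := by positivity
  linarith

end Pool.Agent.R791.Heat
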