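import Pool.Agent.R791.SectGen

/-!
# Euler products: sectorial sums and zeros of a given continuation, general packaging
-/

set_option autoImplicit false

namespace Pool.Agent.R791.SectGen

open Filter Topology Complex
open Pool.Agent.TH942.ES Pool.Agent.TH942.SL
open Pool.Agent.W263.BSD (OrdZero)

variable {X : Type} {d : ℕ} {N : X → ℕ} {α : X → Fin d → ℂ}

theorem con_of (E : Sys N α) (c : ℝ) {F : ℂ → ℂ} (hd : ∀ s : ℂ, c < s.re → DifferentiableAt ℂ F s)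
    (he : ∀ s : ℂ, c + 1 / 2 < s.re → F s = LE N α (s - c)) : Con N α (fun s => F (s + c)) where
  Ψd := fun s hs => by
    exact DifferentiableAt.comp (g := F) (f := fun s : ℂ => s + c) s (hd _ (by simpa using hs))
      (differentiableAt_id.add_const _)
  prod := fun s hs => by
    have h1 := E.hasProd hs
    rw [← E.LE_eq hs] at h1
    have h2 := he (s + c) (by simp; linarith)
    rw [add_sub_cancel_right] at h2
    rw [h2]
    exact h1

theorem ordZero_of {F : ℂ → ℂ} {c : ℝ} (ha : AnalyticAt ℂ F c) {m : ℕ}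
    (hm : analyticOrderAt F c = m) : OrdZero (fun s => F (s + c)) m := by
  obtain ⟨g, hg, hg0, he⟩ := (ha.analyticOrderAt_eq_natCast).mp hm
  refine ⟨fun w => g (w + c), ?_, ?_, ?_⟩
  · refine AnalyticAt.fun_comp (g := g) (f := fun w : ℂ => w + c) ?_ ?_
    · simpa using hg
    · fun_prop
  · simpa using hg0
  · have h1 : Tendsto (fun w : ℂ => w + c) (𝓝 0) (𝓝 c) := by
      have : Continuous fun w : ℂ => w + c := by fun_prop
      simpa using this.tendsto 0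
    filter_upwards [h1.eventually he] with w hw
    rw [hw, add_sub_cancel_right, smul_eq_mul]

theorem level_iff (E : Sys N α) (c : ℝ) {F : ℂ → ℂ}
    (hd : ∀ s : ℂ, c < s.re → DifferentiableAt ℂ F s)
    (he : ∀ s : ℂ, c + 1 / 2 < s.re → F s = LE N α (s - c)) {ρ ρ' : ℝ} (hρ : 1 < ρ) (hρ' : ρ < ρ')
    {θ : ℝ} (hθ : 0 ≤ θ) :
    (∀ s ∈ SectorAt c ρ, θ < ((s - c) ^ (ρ : ℂ)).re → F s ≠ 0) ↔
    ∀ ε : ℝ, 0 < ε → ∃ C : ℝ, ∀ᶠ Y : ℝ in atTop,
      |SrE N α ρ ρ' Y| ≤ C * Real.exp ((θ + ε) * Real.log Y ^ ρ) := by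
  rw [← E.Sr_level (con_of E c hd he) hρ hρ' hθ]
  constructor
  · intro h s hs1 hs2 hs3
    refine h (s + c) ?_ ?_
    · rw [mem_sectorAt, add_sub_cancel_right]; exact ⟨hs1, hs2⟩
    · rw [add_sub_cancel_right]; exact hs3
  · intro h s hs hs3
    have h1 := h (s - c) (mem_sectorAt.1 hs).1 (mem_sectorAt.1 hs).2 hs3
    simpa using h1

theorem sector_tfae (E : Sys N α) (c : ℝ) {F : ℂ → ℂ}
    (hd : ∀ s : ℂ, c < s.re → DifferentiableAt ℂ F s)
    (he : ∀ s : ℂ, c + 1 / 2 < s.re → F s = LE N α (s - c)) (ha : AnalyticAt ℂ F c) {m : ℕ}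
    (hm : analyticOrderAt F c = m) {ρ ρ' : ℝ} (hρ : 1 < ρ) (hρ' : ρ < ρ') : List.TFAE [
      ∀ s ∈ SectorAt c ρ, F s ≠ 0,
      ∃ C : ℝ, ∀ᶠ Y : ℝ in atTop, |SrE N α ρ ρ' Y - m * Real.log (Real.log Y)| ≤ C,
      ∃ K : ℝ, ∀ᶠ Y : ℝ in atTop, |SrE N α ρ ρ' Y| ≤ K * Real.log (Real.log Y),
      Slow N α ρ ρ'] := by
  have hC := con_of E c hd he
  tfae_have 1 → 2 := by
    intro h
    obtain ⟨C, -, h1⟩ := E.Sr_up hC hρ hρ' (ordZero_of ha hm) fun s hs1 hs2 =>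
      h (s + c) (by rw [mem_sectorAt, add_sub_cancel_right]; exact ⟨hs1, hs2⟩)
    exact ⟨C, h1⟩
  tfae_have 2 → 3 := by
    rintro ⟨C, hC⟩
    refine ⟨|C| + m, ?_⟩
    have h1 : Tendsto (fun X : ℝ => Real.log (Real.log X)) atTop atTop :=
      Real.tendsto_log_atTop.comp Real.tendsto_log_atTop
    filter_upwards [hC, h1.eventually_ge_atTop 1] with Y h2 h3
    have h4 : |SrE N α ρ ρ' Y| ≤ |C| + m * Real.log (Real.log Y) := by
      have h5 := abs_sub_abs_le_abs_sub (SrE N α ρ ρ' Y) (m * Real.log (Real.log Y))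
      have h6 : |(m : ℝ) * Real.log (Real.log Y)| = m * Real.log (Real.log Y) :=
        abs_of_nonneg (by positivity)
      rw [h6] at h5
      have := le_abs_self C
      linarith
    have h7 : |C| ≤ |C| * Real.log (Real.log Y) := le_mul_of_one_le_right (abs_nonneg C) h3
    rw [add_mul]
    linarith
  tfae_have 3 → 1 := by
    rintro ⟨K, hK⟩ s hs
    have h1 := E.sector_of_small hC hρ hρ' hK (s - c) (mem_sectorAt.1 hs).1 (mem_sectorAt.1 hs).2
    simpa using h1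
  tfae_have 1 → 4 := by
    intro h ε hε
    have h1 := (level_iff E c hd he hρ hρ' le_rfl (θ := 0)).1 (fun s hs _ => h s hs) ε hε
    simpa using h1
  tfae_have 4 → 1 := by
    intro h s hs
    refine (level_iff E c hd he hρ hρ' le_rfl (θ := 0)).2 (fun ε hε => ?_) s hs ?_
    · have h1 := h ε hε
      simpa using h1
    · exact (exists_root hρ (mem_sectorAt.1 hs).1 (mem_sectorAt.1 hs).2).1
  tfae_finish

theorem rh_tfae (E : Sys N α) (c : ℝ) {F : ℂ → ℂ}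
    (hd : ∀ s : ℂ, c < s.re → DifferentiableAt ℂ F s)
    (he : ∀ s : ℂ, c + 1 / 2 < s.re → F s = LE N α (s - c)) (ha : AnalyticAt ℂ F c) {m : ℕ}
    (hm : analyticOrderAt F c = m) : List.TFAE [
      ∀ s : ℂ, c < s.re → F s ≠ 0,
      ∀ ρ ρ' : ℝ, 1 < ρ → ρ < ρ' → ∃ C : ℝ, ∀ᶠ Y : ℝ in atTop,
        |SrE N α ρ ρ' Y - m * Real.log (Real.log Y)| ≤ C,
      ∀ ρ₁ : ℝ, 1 < ρ₁ → ∃ ρ ρ' : ℝ, 1 < ρ ∧ ρ < ρ₁ ∧ ρ < ρ' ∧ Slow N α ρ ρ'] := by
  tfae_have 1 → 2 := by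
    intro h ρ ρ' hρ hρ'
    refine ((sector_tfae E c hd he ha hm hρ hρ').out 0 1).1 fun s hs => h s ?_
    have := sect_re hρ (mem_sectorAt.1 hs)
    rw [sub_re] at this
    linarith
  tfae_have 2 → 3 := by
    intro h ρ₁ hρ₁
    have h1 : (1 : ℝ) < (1 + ρ₁) / 2 := by linarith
    have h2 : (1 + ρ₁) / 2 < ρ₁ := by linarith
    exact ⟨(1 + ρ₁) / 2, ρ₁, h1, h2, h2,
      ((sector_tfae E c hd he ha hm h1 h2).out 1 3).1 (h _ _ h1 h2)⟩
  tfae_have 3 → 1 := by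
    intro h s hs
    have hs0 : 0 < (s - c).re := by rw [sub_re]; linarith
    obtain ⟨n, hn⟩ := Sys.exists_sect hs0
    have hr1 : (1 : ℝ) < 1 + 1 / ((n : ℝ) + 1) := by
      have : (0 : ℝ) < 1 / ((n : ℝ) + 1) := by positivity
      linarith
    obtain ⟨ρ, ρ', hρ, hρρ₁, hρ', hS⟩ := h _ hr1
    have h3 : ∀ s ∈ SectorAt c ρ, F s ≠ 0 :=
      ((sector_tfae E c hd he ha hm hρ hρ').out 0 3).2 hS
    exact h3 s (mem_sectorAt.2 (sect_mono hρ hρρ₁.le hn))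
  tfae_finish

end Pool.Agent.R791.SectGen
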