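import Pool.Agent.R791.Level2
import Pool.Agent.R791.SectGen2

/-!
# Levels and half planes, with an arbitrary real centre
-/

set_option autoImplicit false

open MeasureTheory Filter Topology Set Complex
open Pool.Agent.TH942.SL Pool.Agent.TH942.ES Pool.Agent.R791.SectGen

namespace Pool.Agent.R791.Level

variable {X : Type} {d : ℕ} {N : X → ℕ} {α : X → Fin d → ℂ}

/-- the growth bound with exponent `a` for the sectorial sums -/
def Grow (N : X → ℕ) (α : X → Fin d → ℂ) (ρ ρ' a : ℝ) : Prop :=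
  ∀ ε : ℝ, 0 < ε → ∃ C : ℝ, ∀ᶠ Y : ℝ in atTop,
    |SrE N α ρ ρ' Y| ≤ C * Real.exp ((a + ε) * Real.log Y ^ ρ)

/-- the part of the sector at `c` where `Re (s - c) ^ ρ > a` -/
def LvAt (c ρ a : ℝ) : Set ℂ := {s | s ∈ SectorAt c ρ ∧ a < ((s - c) ^ (ρ : ℂ)).re}

theorem mem_lvAt {c ρ a : ℝ} {s : ℂ} : s ∈ LvAt c ρ a ↔ s - c ∈ Lv ρ a := by
  unfold LvAt Lv
  simp only [Set.mem_ofPred_eq]
  rw [mem_sectorAt]

theorem cos_mul_le {ρ θ : ℝ} (hρ : 1 < ρ) (hθ : |θ * ρ| < Real.pi / 2) :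
    Real.cos (θ * ρ) ≤ Real.cos θ ^ ρ := by
  have hρ0 : 0 < ρ := by linarith
  have h0 : 0 < ρ⁻¹ := by positivity
  have h1 : ρ⁻¹ ≤ 1 := (inv_lt_one_of_one_lt₀ hρ).le
  have hc0 : 0 ≤ Real.cos (θ * ρ) := by
    have := abs_lt.1 hθ
    exact Real.cos_nonneg_of_neg_pi_div_two_le_of_le (by linarith [this.1]) (by linarith [this.2])
  -- concavity of the cosine
  have hm1 : θ * ρ ∈ Set.Icc (-(Real.pi / 2)) (Real.pi / 2) :=
    ⟨by linarith [(abs_lt.1 hθ).1], by linarith [(abs_lt.1 hθ).2]⟩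
  have hm2 : (0 : ℝ) ∈ Set.Icc (-(Real.pi / 2)) (Real.pi / 2) :=
    ⟨by linarith [Real.pi_pos], by linarith [Real.pi_pos]⟩
  have hcc := strictConcaveOn_cos_Icc.concaveOn.2 hm1 hm2 h0.le
    (show (0 : ℝ) ≤ 1 - ρ⁻¹ by linarith) (by ring)
  have e1 : ρ⁻¹ • (θ * ρ) + (1 - ρ⁻¹) • (0 : ℝ) = θ := by
    simp only [smul_eq_mul, mul_zero, add_zero]
    field_simp
  rw [e1, Real.cos_zero] at hcc
  simp only [smul_eq_mul, mul_one] at hcc
  have e2 := rpow_one_add_le_one_add_mul_self (s := Real.cos (θ * ρ) - 1) (p := ρ⁻¹)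
    (by linarith) h0.le h1
  rw [add_sub_cancel] at e2
  have e3 : Real.cos (θ * ρ) ^ ρ⁻¹ ≤ Real.cos θ := by
    refine e2.trans ?_
    linarith
  calc Real.cos (θ * ρ) = (Real.cos (θ * ρ) ^ ρ⁻¹) ^ ρ := by
        rw [← Real.rpow_mul hc0, inv_mul_cancel₀ hρ0.ne', Real.rpow_one]
    _ ≤ Real.cos θ ^ ρ := Real.rpow_le_rpow (Real.rpow_nonneg hc0 _) e3 hρ0.le

/-- `Re s ^ ρ ≤ (Re s) ^ ρ` in the sector -/
theorem re_pow_le {ρ : ℝ} (hρ : 1 < ρ) {s : ℂ} (hs : s ∈ Sect ρ) :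
    (s ^ (ρ : ℂ)).re ≤ s.re ^ ρ := by
  have hρ0 : 0 < ρ := by linarith
  have h1 : |arg s * ρ| < Real.pi / 2 := by
    rw [abs_mul, abs_of_pos hρ0]
    calc |arg s| * ρ < Real.pi / (2 * ρ) * ρ := mul_lt_mul_of_pos_right hs.2 hρ0
      _ = _ := by field_simp
  have h2 : (s ^ (ρ : ℂ)).re = ‖s‖ ^ ρ * Real.cos (arg s * ρ) := re_pow s ρ
  have h3 : s.re = ‖s‖ * Real.cos (arg s) := (Complex.norm_mul_cos_arg s).symm
  have hre := sect_re hρ hs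
  have h4 : 0 ≤ Real.cos (arg s) := by
    rw [Complex.cos_arg hs.1]
    exact div_nonneg hre.le (norm_nonneg _)
  rw [h2, h3, Real.mul_rpow (norm_nonneg _) h4]
  exact mul_le_mul_of_nonneg_left (cos_mul_le hρ h1) (Real.rpow_nonneg (norm_nonneg _) _)

theorem re_gt_of_lv {ρ t : ℝ} (hρ : 1 < ρ) (ht : 0 ≤ t) {s : ℂ} (hs : s ∈ Lv ρ (t ^ ρ)) :
    t < s.re := by
  have h1 : t ^ ρ < s.re ^ ρ := lt_of_lt_of_le hs.2 (re_pow_le hρ hs.1)
  exact (Real.rpow_lt_rpow_iff ht (sect_re hρ hs.1).le (by linarith)).1 h1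

/-- the sectors are invariant under shifts to the right -/
theorem sect_shift {ρ : ℝ} (hρ : 1 < ρ) {s : ℂ} (hs : s ∈ Sect ρ) {x : ℝ} (hx : 0 ≤ x) :
    s + x ∈ Sect ρ := by
  rw [sect_iff hρ] at hs ⊢
  have e3 : (s + (x : ℂ)).re = s.re + x := by rw [Complex.add_re, Complex.ofReal_re]
  have e4 : (s + (x : ℂ)).im = s.im := by rw [Complex.add_im, Complex.ofReal_im, add_zero]
  rw [e3, e4]
  have h1 : 0 < Real.pi / (2 * ρ) := by have := Real.pi_pos; positivity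
  have h2 : 0 < Real.tan (Real.pi / (2 * ρ)) := Real.tan_pos_of_pos_of_lt_pi_div_two h1 (half_lt hρ)
  refine ⟨by linarith [hs.1], hs.2.trans_le ?_⟩
  nlinarith

/-- the regions `Lv ρ a` are invariant under shifts to the right -/
theorem lv_shift {ρ a : ℝ} (hρ : 1 < ρ) {s : ℂ} (hs : s ∈ Lv ρ a) {x : ℝ} (hx : 0 ≤ x) :
    s + x ∈ Lv ρ a := by
  have hρ0 : 0 < ρ := by linarith
  refine ⟨sect_shift hρ hs.1 hx, hs.2.trans_le ?_⟩
  have hd : ∀ t : ℝ, 0 ≤ t → HasDerivAt (fun t : ℝ => ((s + t) ^ (ρ : ℂ)).re)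
      ((ρ * (s + t) ^ ((ρ : ℂ) - 1)).re) t := by
    intro t ht
    have hvt : 0 < (s + t).re := sect_re hρ (sect_shift hρ hs.1 ht)
    have e1 : HasDerivAt (fun z : ℂ => (s + z) ^ (ρ : ℂ)) (ρ * (s + t) ^ ((ρ : ℂ) - 1)) (t : ℂ) := by
      have e2 := pow_deriv (α := ρ) (slit hvt)
      have e3 : HasDerivAt (fun z : ℂ => s + z) 1 (t : ℂ) := (hasDerivAt_id _).const_add s
      have e4 : HasDerivAt ((fun w : ℂ => w ^ (ρ : ℂ)) ∘ fun z : ℂ => s + z)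
          (ρ * (s + t) ^ ((ρ : ℂ) - 1) * 1) (t : ℂ) := HasDerivAt.comp (t : ℂ) e2 e3
      rw [mul_one] at e4
      exact e4
    exact e1.real_of_complex
  have hpos : ∀ t : ℝ, 0 ≤ t → 0 ≤ (ρ * (s + t) ^ ((ρ : ℂ) - 1)).re := by
    intro t ht
    have hst := sect_shift hρ hs.1 ht
    rw [Complex.re_ofReal_mul]
    refine mul_nonneg hρ0.le ?_
    have e1 : ((ρ : ℂ) - 1) = ((ρ - 1 : ℝ) : ℂ) := by push_cast; rfl
    rw [e1, re_pow]
    refine mul_nonneg (Real.rpow_nonneg (norm_nonneg _) _) ?_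
    have e2 : |arg (s + t) * (ρ - 1)| ≤ Real.pi / 2 := by
      rw [abs_mul, abs_of_pos (show 0 < ρ - 1 by linarith)]
      have e3 : |arg (s + t)| * (ρ - 1) ≤ Real.pi / (2 * ρ) * (ρ - 1) :=
        mul_le_mul_of_nonneg_right hst.2.le (by linarith)
      have e4 : Real.pi / (2 * ρ) * (ρ - 1) ≤ Real.pi / (2 * ρ) * ρ := by
        have := Real.pi_pos
        refine mul_le_mul_of_nonneg_left (by linarith) (by positivity)
      have e5 : Real.pi / (2 * ρ) * ρ = Real.pi / 2 := by field_simp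
      linarith
    have e6 := abs_le.1 e2
    exact Real.cos_nonneg_of_neg_pi_div_two_le_of_le e6.1 e6.2
  have hm : MonotoneOn (fun t : ℝ => ((s + t) ^ (ρ : ℂ)).re) (Ici 0) := by
    refine monotoneOn_of_deriv_nonneg (convex_Ici 0) ?_ ?_ ?_
    · exact fun t ht => (hd t ht).continuousAt.continuousWithinAt
    · intro t ht
      rw [interior_Ici] at ht
      exact (hd t ht.le).differentiableAt.differentiableWithinAt
    · intro t ht
      rw [interior_Ici] at ht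
      rw [(hd t ht.le).deriv]
      exact hpos t ht.le
  have := hm (Set.mem_Ici.2 le_rfl) (Set.mem_Ici.2 hx) hx
  simpa using this

/-- a point to the right of `t` belongs to `Lv ρ (t ^ ρ)` for all `ρ` near `1` -/
theorem lv_near {t : ℝ} (ht : 0 ≤ t) {s : ℂ} (hs : t < s.re) :
    ∀ᶠ ρ : ℝ in 𝓝 1, s ∈ Lv ρ (t ^ ρ) := by
  have hs0 : 0 < s.re := lt_of_le_of_lt ht hs
  have hsn : s ≠ 0 := ne_zero' hs0
  have h1 : |arg s| < Real.pi / 2 := Complex.abs_arg_lt_pi_div_two_iff.2 (Or.inl hs0)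
  have h2 : Tendsto (fun ρ : ℝ => Real.pi / (2 * ρ)) (𝓝 1) (𝓝 (Real.pi / (2 * 1))) :=
    Tendsto.div tendsto_const_nhds (tendsto_id.const_mul 2) (by norm_num)
  rw [mul_one] at h2
  have h3 : Tendsto (fun ρ : ℝ => (s ^ (ρ : ℂ)).re - t ^ ρ) (𝓝 1) (𝓝 (s.re - t)) := by
    have e1 : Tendsto (fun ρ : ℝ => s ^ (ρ : ℂ)) (𝓝 1) (𝓝 (s ^ ((1 : ℝ) : ℂ))) := by
      have : Continuous fun ρ : ℝ => s ^ (ρ : ℂ) :=
        Continuous.const_cpow Complex.continuous_ofReal (Or.inl hsn)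
      exact this.tendsto 1
    have e2 : Tendsto (fun ρ : ℝ => t ^ ρ) (𝓝 1) (𝓝 (t ^ (1 : ℝ))) :=
      (Real.continuousAt_const_rpow' one_ne_zero).tendsto
    have e3 := ((Complex.continuous_re.tendsto _).comp e1).sub e2
    simpa using e3
  filter_upwards [h2.eventually (lt_mem_nhds h1), h3.eventually (lt_mem_nhds (sub_pos.2 hs))]
    with ρ e1 e2
  exact ⟨⟨hsn, e1⟩, by linarith⟩

variable (E : Sys N α)
include E

/-- **Gluing**: continuations to `Lv ρ (t ^ ρ)` for `ρ` arbitrarily near `1` give a continuation to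
the half plane `Re s > t`. -/
theorem glue_lv {t : ℝ} (ht : 0 ≤ t)
    (h : ∀ ρ₁ : ℝ, 1 < ρ₁ → ∃ ρ : ℝ, 1 < ρ ∧ ρ < ρ₁ ∧ ∃ G : ℂ → ℂ,
      (∀ s : ℂ, s ∈ Lv ρ (t ^ ρ) ∨ 1 / 2 < s.re → DifferentiableAt ℂ G s ∧ G s ≠ 0) ∧
      ∀ s : ℂ, 1 / 2 < s.re → G s = LE N α s) :
    ∃ G : ℂ → ℂ, (∀ s : ℂ, t < s.re ∨ 1 / 2 < s.re → DifferentiableAt ℂ G s ∧ G s ≠ 0) ∧
      ∀ s : ℂ, 1 / 2 < s.re → G s = LE N α s := by
  classical
  have h' : ∀ n : ℕ, ∃ ρ : ℝ, 1 < ρ ∧ ρ < 1 + 1 / ((n : ℝ) + 1) ∧ ∃ G : ℂ → ℂ,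
      (∀ s : ℂ, s ∈ Lv ρ (t ^ ρ) ∨ 1 / 2 < s.re → DifferentiableAt ℂ G s ∧ G s ≠ 0) ∧
      ∀ s : ℂ, 1 / 2 < s.re → G s = LE N α s := fun n =>
    h _ (by have : 0 < 1 / ((n : ℝ) + 1) := by positivity
            linarith)
  choose ρ hρ1 hρ2 Gn hG1 hG2 using h'
  have hlim : Tendsto ρ atTop (𝓝 1) := by
    refine tendsto_of_tendsto_of_tendsto_of_le_of_le tendsto_const_nhds
      (h := fun n : ℕ => 1 + 1 / ((n : ℝ) + 1)) ?_ (fun n => (hρ1 n).le) fun n => (hρ2 n).le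
    have := tendsto_one_div_add_atTop_nhds_zero_nat (𝕜 := ℝ)
    simpa using this.const_add 1
  have hex : ∀ s : ℂ, t < s.re → ∃ n, s ∈ Lv (ρ n) (t ^ ρ n) := fun s hs =>
    (hlim.eventually (lv_near ht hs)).exists
  have ho : IsOpen {z : ℂ | 1 / 2 < z.re} := isOpen_lt continuous_const Complex.continuous_re
  have hGan : ∀ n, ∀ s ∈ Lv (ρ n) (t ^ ρ n), AnalyticAt ℂ (Gn n) s := fun n s hs => by
    have h2 : DifferentiableOn ℂ (Gn n) (Lv (ρ n) (t ^ ρ n)) := fun z hz =>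
      (hG1 n z (Or.inl hz)).1.differentiableWithinAt
    exact h2.analyticAt ((lv_open (hρ1 n) _).mem_nhds hs)
  have huniq : ∀ m n, ∀ s : ℂ, s ∈ Lv (ρ m) (t ^ ρ m) → s ∈ Lv (ρ n) (t ^ ρ n) →
      Gn m s = Gn n s := fun m n s h1 h2 =>
    ray_eq (fun x hx => hGan m _ (lv_shift (hρ1 m) h1 hx))
      (fun x hx => hGan n _ (lv_shift (hρ1 n) h2 hx)) (x₁ := 1 / 2) fun w hw => by
        rw [hG2 m w hw, hG2 n w hw]
  set G : ℂ → ℂ := fun s => if h : ∃ n, s ∈ Lv (ρ n) (t ^ ρ n) then Gn (Nat.find h) s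
    else LE N α s with hG
  have hGn : ∀ n, ∀ s ∈ Lv (ρ n) (t ^ ρ n), G s = Gn n s := fun n s hs => by
    have hx : ∃ n, s ∈ Lv (ρ n) (t ^ ρ n) := ⟨n, hs⟩
    rw [hG]
    simp only
    rw [dif_pos hx]
    exact huniq _ _ _ (Nat.find_spec hx) hs
  have hGL : ∀ s : ℂ, 1 / 2 < s.re → G s = LE N α s := fun s hs => by
    rw [hG]
    simp only
    split_ifs with hx
    · exact hG2 _ s hs
    · rfl
  refine ⟨G, fun s hs => ?_, hGL⟩
  rcases hs with hs | hs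
  · obtain ⟨n, hn⟩ := hex s hs
    obtain ⟨e1, e2⟩ := hG1 n s (Or.inl hn)
    refine ⟨e1.congr_of_eventuallyEq ?_, by rw [hGn n s hn]; exact e2⟩
    filter_upwards [(lv_open (hρ1 n) _).mem_nhds hn] with z hz
    exact hGn n z hz
  · obtain ⟨e1, e2⟩ := E.LE_diff hs
    refine ⟨e1.congr_of_eventuallyEq ?_, by rw [hGL s hs]; exact e2⟩
    filter_upwards [ho.mem_nhds hs] with z hz
    exact hGL z hz

omit E in
theorem shift_iff (c : ℝ) (P : ℂ → Prop) :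
    (∃ G : ℂ → ℂ, (∀ s : ℂ, P s ∨ 1 / 2 < s.re → DifferentiableAt ℂ G s ∧ G s ≠ 0) ∧
      ∀ s : ℂ, 1 / 2 < s.re → G s = LE N α s) ↔
    ∃ G : ℂ → ℂ, (∀ s : ℂ, P (s - c) ∨ c + 1 / 2 < s.re → DifferentiableAt ℂ G s ∧ G s ≠ 0) ∧
      ∀ s : ℂ, c + 1 / 2 < s.re → G s = LE N α (s - c) := by
  constructor
  · rintro ⟨G, h1, h2⟩
    refine ⟨fun s => G (s - c), fun s hs => ?_, fun s hs => h2 _ (by
      rw [Complex.sub_re, Complex.ofReal_re]; linarith)⟩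
    have h3 : P (s - c) ∨ 1 / 2 < (s - c).re := by
      rcases hs with hs | hs
      · exact Or.inl hs
      · right
        rw [Complex.sub_re, Complex.ofReal_re]
        linarith
    refine ⟨?_, (h1 _ h3).2⟩
    exact DifferentiableAt.comp (g := G) (f := fun s : ℂ => s - c) s (h1 _ h3).1
      (differentiableAt_id.sub_const _)
  · rintro ⟨G, h1, h2⟩
    refine ⟨fun s => G (s + c), fun s hs => ?_, fun s hs => ?_⟩
    · have h3 : P (s + c - c) ∨ c + 1 / 2 < (s + c).re := by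
        rcases hs with hs | hs
        · left
          rwa [add_sub_cancel_right]
        · right
          rw [add_re, Complex.ofReal_re]
          linarith
      refine ⟨?_, (h1 _ h3).2⟩
      exact DifferentiableAt.comp (g := G) (f := fun s : ℂ => s + c) s (h1 _ h3).1
        (differentiableAt_id.add_const _)
    · have h4 := h2 (s + c) (by rw [Complex.add_re, Complex.ofReal_re]; linarith)
      rw [add_sub_cancel_right] at h4
      exact h4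

/-- **Levels.** -/
theorem lvl_iff (c : ℝ) {ρ ρ' : ℝ} (hρ : 1 < ρ) (hρ' : ρ < ρ') {a : ℝ} (ha : 0 ≤ a) :
    Grow N α ρ ρ' a ↔ ∃ G : ℂ → ℂ,
      (∀ s : ℂ, s ∈ LvAt c ρ a ∨ c + 1 / 2 < s.re → DifferentiableAt ℂ G s ∧ G s ≠ 0) ∧
      ∀ s : ℂ, c + 1 / 2 < s.re → G s = LE N α (s - c) := by
  simp only [mem_lvAt]
  rw [← shift_iff c (fun s => s ∈ Lv ρ a)]
  constructor
  · intro h
    exact cont_of_lvl E hρ hρ' ha h
  · rintro ⟨G, h1, h2⟩ ε hε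
    exact small_of_lvl E hρ hρ' ha (fun s hs => (h1 s (Or.inl hs)).1)
      (fun s hs => (h1 s (Or.inl hs)).2) (σ := 1 / 2) (fun s _ hs => h2 s hs) hε

/-- the trivial exponent -/
theorem grow_trivial {ρ ρ' : ℝ} (hρ : 1 < ρ) (hρ' : ρ < ρ') : Grow N α ρ ρ' ((1 / 2) ^ ρ) := by
  rw [lvl_iff E 0 hρ hρ' (by positivity)]
  refine ⟨LE N α, fun s hs => E.LE_diff ?_, fun s _ => by rw [Complex.ofReal_zero, sub_zero]⟩
  rcases hs with hs | hs
  · rw [mem_lvAt, Complex.ofReal_zero, sub_zero] at hs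
    exact re_gt_of_lv hρ (by norm_num) hs
  · linarith

/-- **Half planes.** -/
theorem half_tfae (c : ℝ) {t : ℝ} (ht : 0 ≤ t) : List.TFAE [
    ∃ G : ℂ → ℂ,
      (∀ s : ℂ, c + t < s.re ∨ c + 1 / 2 < s.re → DifferentiableAt ℂ G s ∧ G s ≠ 0) ∧
      ∀ s : ℂ, c + 1 / 2 < s.re → G s = LE N α (s - c),
    ∀ ρ ρ' : ℝ, 1 < ρ → ρ < ρ' → Grow N α ρ ρ' (t ^ ρ),
    ∀ ρ₁ : ℝ, 1 < ρ₁ → ∃ ρ ρ' : ℝ, 1 < ρ ∧ ρ < ρ₁ ∧ ρ < ρ' ∧ Grow N α ρ ρ' (t ^ ρ)] := by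
  have hsh : (∃ G : ℂ → ℂ,
      (∀ s : ℂ, c + t < s.re ∨ c + 1 / 2 < s.re → DifferentiableAt ℂ G s ∧ G s ≠ 0) ∧
      ∀ s : ℂ, c + 1 / 2 < s.re → G s = LE N α (s - c)) ↔ ∃ G : ℂ → ℂ,
      (∀ s : ℂ, t < s.re ∨ 1 / 2 < s.re → DifferentiableAt ℂ G s ∧ G s ≠ 0) ∧
      ∀ s : ℂ, 1 / 2 < s.re → G s = LE N α s := by
    rw [shift_iff c (fun s => t < s.re)]
    have e : ∀ s : ℂ, t < (s - c).re ↔ c + t < s.re := fun s => by
      rw [Complex.sub_re, Complex.ofReal_re]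
      constructor <;> intro h <;> linarith
    simp only [e]
  rw [hsh]
  tfae_have 1 → 2 := by
    rintro ⟨G, h1, h2⟩ ρ ρ' hρ hρ'
    rw [lvl_iff E 0 hρ hρ' (Real.rpow_nonneg ht _)]
    refine ⟨G, fun s hs => h1 s ?_, fun s hs => ?_⟩
    · rcases hs with hs | hs
      · rw [mem_lvAt, Complex.ofReal_zero, sub_zero] at hs
        exact Or.inl (re_gt_of_lv hρ ht hs)
      · exact Or.inr (by linarith)
    · rw [Complex.ofReal_zero, sub_zero]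
      exact h2 s (by linarith)
  tfae_have 2 → 3 := by
    intro h ρ₁ hρ₁
    exact ⟨(1 + ρ₁) / 2, ρ₁, by linarith, by linarith, by linarith,
      h _ _ (by linarith) (by linarith)⟩
  tfae_have 3 → 1 := by
    intro h
    refine glue_lv E ht fun ρ₁ hρ₁ => ?_
    obtain ⟨ρ, ρ', h1, h2, h3, h4⟩ := h ρ₁ hρ₁
    refine ⟨ρ, h1, h2, ?_⟩
    rw [lvl_iff E 0 h1 h3 (Real.rpow_nonneg ht _)] at h4
    obtain ⟨G, h5, h6⟩ := h4
    refine ⟨G, fun s hs => h5 s ?_, fun s hs => ?_⟩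
    · rcases hs with hs | hs
      · left
        rw [mem_lvAt, Complex.ofReal_zero, sub_zero]
        exact hs
      · exact Or.inr (by linarith)
    · have := h6 s (by linarith)
      rwa [Complex.ofReal_zero, sub_zero] at this
  tfae_finish

end Pool.Agent.R791.Level
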