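import Pool.Agent.R791.CurveNF
import Pool.Agent.R791.SectGen3
import Pool.Agent.R791.Level3

/-!
# Euler products with Frobenius eigenvalues over a number field

The general Euler product with real local polynomials and eigenvalues of absolute value at most
`Nv^(c - 1/2)`; the centre is the real number `c`. For the eigenvalues of Frobenius on `H^w(X)`, `X` smooth
and projective over `K`, the centre is `c = (w + 1)/2`.
-/

set_option autoImplicit false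

namespace Pool.Agent.R791.Frob

open Filter Topology Complex NumberField IsDedekindDomain
open Pool.Agent.TH942.ES Pool.Agent.TH942.SL Pool.Agent.R791.SectGen
open Pool.Agent.H921R2.TatePole (nm two_le_nm)

/-- Numbers `α_{v,i} = eig v i`, `i < d`, for the primes `v ∉ bad` of the number field `K`, with
`|α_{v,i}| ≤ Nv^(c - 1/2)` and real power sums, i.e. `∏ᵢ (1 - α_{v,i} T)` is a real polynomial. (The set
`bad` may be any set of primes.) For `X` smooth and projective over `K` and `c = (w + 1)/2` one can take the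
eigenvalues of Frobenius on `H^w(X)` for the primes of good reduction, by Deligne's theorem. -/
structure Frobenius (K : Type) [Field K] [NumberField K] (d : ℕ) (c : ℝ) where
  /-- the primes left out -/
  bad : Set (HeightOneSpectrum (𝓞 K))
  /-- the eigenvalues of Frobenius -/
  eig : HeightOneSpectrum (𝓞 K) → Fin d → ℂ
  size : ∀ v ∉ bad, ∀ i, ‖eig v i‖ ≤ (nm v : ℝ) ^ (c - 1 / 2)
  real : ∀ v ∉ bad, ∀ k : ℕ, (∑ i, eig v i ^ k).im = 0

variable {K : Type} [Field K] [NumberField K] {d : ℕ} {c : ℝ}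

/-- `w_ρ(u) = (2π)⁻¹ ∫ Re (exp (z - u z^(1/ρ)) / z) dt`, `z = 1 + it`. -/
noncomputable def weight (ρ u : ℝ) : ℝ :=
  (2 * Real.pi)⁻¹ * ∫ t : ℝ, (Complex.exp ((1 + t * Complex.I) -
    u * (1 + t * Complex.I) ^ ((ρ⁻¹ : ℝ) : ℂ)) / (1 + t * Complex.I)).re

namespace Frobenius

variable (V : Frobenius K d c)

/-- The Euler product `∏_{v ∉ bad} ∏ᵢ (1 - α_{v,i} Nv^(-s))⁻¹`. -/
noncomputable def LSeries (s : ℂ) : ℂ :=
  ∏' v : {v // v ∉ V.bad}, ∏ i, (1 - V.eig v.1 i * (nm v.1 : ℂ) ^ (-s))⁻¹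

/-- The sum of `w_ρ(log Nv / log Y) log |∏ᵢ (1 - α_{v,i} Nv^(-c))|` over the primes `v ∉ bad` of `K` of norm
`Nv ≤ exp ((log Y)^ρ')`. -/
noncomputable def sum (ρ ρ' Y : ℝ) : ℝ :=
  ∑ᶠ (v : {v // v ∉ V.bad}) (_ : (nm v.1 : ℝ) ≤ Real.exp (Real.log Y ^ ρ')),
    weight ρ (Real.log (nm v.1) / Real.log Y) *
      Real.log ‖∏ i, (1 - V.eig v.1 i / ((nm v.1 : ℝ) ^ c : ℝ))‖

/-- The sum of `w_ρ(k log Nv / log Y) ∑ᵢ α_{v,i}^k / (k Nv^(kc))` over the powers `v^k`, `k ≥ 1`, of the primes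
`v ∉ bad` of `K` of norm `Nv^k ≤ exp ((log Y)^ρ')`. -/
noncomputable def sumPow (ρ ρ' Y : ℝ) : ℝ :=
  ∑ᶠ (p : {v // v ∉ V.bad} × ℕ) (_ : (nm p.1.1 : ℝ) ^ (p.2 + 1) ≤ Real.exp (Real.log Y ^ ρ')),
    weight ρ (((p.2 : ℝ) + 1) * Real.log (nm p.1.1) / Real.log Y) *
      ((∑ i, V.eig p.1.1 i ^ (p.2 + 1)).re / (((p.2 : ℝ) + 1) * ((nm p.1.1 : ℝ) ^ c) ^ (p.2 + 1)))

/-- the normalised eigenvalues -/
noncomputable def al (v : {v // v ∉ V.bad}) (i : Fin d) : ℂ :=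
  V.eig v.1 i / (((nm v.1 : ℝ) ^ (c - 1 / 2) : ℝ) : ℂ)

lemma nm_pos (v : HeightOneSpectrum (𝓞 K)) : (0 : ℝ) < nm v := by
  have hp2 : (2 : ℝ) ≤ nm v := by exact_mod_cast two_le_nm v
  linarith

lemma zv_eq (v : {v // v ∉ V.bad}) (i : Fin d) :
    zv (fun v : {v // v ∉ V.bad} => nm v.1) V.al v i =
      V.eig v.1 i / (((nm v.1 : ℝ) ^ c : ℝ) : ℂ) := by
  have h0 := nm_pos v.1
  unfold zv al
  rw [div_div, ← Complex.ofReal_mul, Real.sqrt_eq_rpow, ← Real.rpow_add h0]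
  congr 3
  ring

lemma pow_sum (v : {v // v ∉ V.bad}) (k : ℕ) :
    ∑ i, zv (fun v : {v // v ∉ V.bad} => nm v.1) V.al v i ^ k =
      (((∑ i, V.eig v.1 i ^ k).re / ((nm v.1 : ℝ) ^ c) ^ k : ℝ) : ℂ) := by
  have h1 : ∑ i, V.eig v.1 i ^ k = (((∑ i, V.eig v.1 i ^ k).re : ℝ) : ℂ) :=
    Complex.ext (by rw [Complex.ofReal_re]) (by rw [Complex.ofReal_im]; exact V.real v.1 v.2 k)
  simp only [zv_eq, div_pow]
  rw [← Finset.sum_div, h1]
  push_cast
  rw [Complex.ofReal_re]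

lemma hreal (v : {v // v ∉ V.bad}) (k : ℕ) :
    (∑ i, zv (fun v : {v // v ∉ V.bad} => nm v.1) V.al v i ^ k).im = 0 := by
  rw [pow_sum, Complex.ofReal_im]

lemma al_norm (v : {v // v ∉ V.bad}) (i : Fin d) : ‖V.al v i‖ ≤ 1 := by
  have h0 := nm_pos v.1
  have h1 : 0 < (nm v.1 : ℝ) ^ (c - 1 / 2) := Real.rpow_pos_of_pos h0 _
  unfold al
  rw [norm_div, Complex.norm_real, Real.norm_eq_abs, abs_of_pos h1, div_le_one h1]
  exact V.size v.1 v.2 i

lemma log_real (v : {v // v ∉ V.bad}) :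
    (∑ i, log (1 - V.al v i / ((√((nm v.1 : ℕ) : ℝ) : ℝ) : ℂ))).im = 0 := by
  have hp2 : (2 : ℝ) ≤ nm v.1 := by exact_mod_cast two_le_nm v.1
  have h0 := nm_pos v.1
  have hs : 1 < √(nm v.1 : ℝ) := by
    rw [Real.lt_sqrt (by norm_num)]
    linarith
  have hz : ∀ i, ‖V.al v i / ((√((nm v.1 : ℕ) : ℝ) : ℝ) : ℂ)‖ < 1 := fun i => by
    rw [norm_div, Complex.norm_real, Real.norm_eq_abs, abs_of_pos (by linarith),
      div_lt_one (by linarith)]
    exact (V.al_norm v i).trans_lt hs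
  have h1 : HasSum (fun n : ℕ => ∑ i, (V.al v i / ((√((nm v.1 : ℕ) : ℝ) : ℝ) : ℂ)) ^ n / n)
      (∑ i, -log (1 - V.al v i / ((√((nm v.1 : ℕ) : ℝ) : ℝ) : ℂ))) :=
    hasSum_sum fun i _ => hasSum_taylorSeries_neg_log (hz i)
  have h2 := Complex.hasSum_im h1
  have h3 : ∀ n : ℕ, (∑ i, (V.al v i / ((√((nm v.1 : ℕ) : ℝ) : ℝ) : ℂ)) ^ n / n).im = 0 := by
    intro n
    rw [← Finset.sum_div, ← Complex.ofReal_natCast n, Complex.div_ofReal_im]
    have := V.hreal v n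
    unfold zv at this
    rw [this, zero_div]
  simp only [h3] at h2
  have h4 := h2.unique hasSum_zero
  rw [Finset.sum_neg_distrib, Complex.neg_im, neg_eq_zero] at h4
  exact h4

/-- the system of the Euler product -/
theorem sys : Sys (fun v : {v // v ∉ V.bad} => nm v.1) V.al :=
  nf_sys _ _ V.al_norm V.log_real

lemma cv_eq (v : {v // v ∉ V.bad}) : cv (fun v : {v // v ∉ V.bad} => nm v.1) V.al v =
    Real.log ‖∏ i, (1 - V.eig v.1 i / ((nm v.1 : ℝ) ^ c : ℝ))‖ := by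
  have E := V.sys
  have h1 : ∀ i, 1 - zv (fun v : {v // v ∉ V.bad} => nm v.1) V.al v i ≠ 0 := fun i =>
    slitPlane_ne_zero (one_sub_mem ((E.norm_zv_le v i).trans_lt (by norm_num)))
  unfold cv
  rw [Complex.re_sum]
  simp only [Complex.log_re]
  simp only [zv_eq] at h1 ⊢
  rw [norm_prod, Real.log_prod]
  intro i _
  exact norm_ne_zero_iff.2 (h1 i)

theorem sum_eq (ρ ρ' Y : ℝ) : V.sum ρ ρ' Y =
    SrE (fun v : {v // v ∉ V.bad} => nm v.1) V.al ρ ρ' Y := by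
  unfold sum SrE
  refine finsum_congr fun v => finsum_congr fun _ => ?_
  rw [cv_eq]
  rfl

theorem sumPow_eq (ρ ρ' Y : ℝ) : V.sumPow ρ ρ' Y =
    StE (fun v : {v // v ∉ V.bad} => nm v.1) V.al ρ ρ' Y := by
  unfold sumPow StE
  refine finsum_congr fun p => finsum_congr fun _ => ?_
  unfold cP
  rw [pow_sum, Complex.ofReal_re]
  have h1 : (∑ i, V.eig p.1.1 i ^ (p.2 + 1)).re / (((p.2 : ℝ) + 1) * ((nm p.1.1 : ℝ) ^ c) ^ (p.2 + 1)) =
      (∑ i, V.eig p.1.1 i ^ (p.2 + 1)).re / ((nm p.1.1 : ℝ) ^ c) ^ (p.2 + 1) / ((p.2 : ℝ) + 1) := by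
    rw [div_div]
    congr 1
    ring
  rw [h1]
  rfl

theorem LE_eq (s : ℂ) : LE (fun v : {v // v ∉ V.bad} => nm v.1) V.al (s - c) = V.LSeries s := by
  unfold Pool.Agent.TH942.ES.LE LSeries
  refine tprod_congr fun v => Finset.prod_congr rfl fun i _ => ?_
  have h0 := nm_pos v.1
  have hnc : (nm v.1 : ℂ) ≠ 0 := by exact_mod_cast h0.ne'
  rw [zv_eq]
  congr 2
  have e1 : xv (fun v : {v // v ∉ V.bad} => nm v.1) v (s - c) =
      (nm v.1 : ℂ) ^ (c : ℂ) * (nm v.1 : ℂ) ^ (-s) := by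
    unfold xv
    rw [← Complex.cpow_add _ _ hnc, Complex.cpow_def_of_ne_zero hnc, ← Complex.ofReal_natCast,
      ← Complex.ofReal_log h0.le]
    congr 1
    ring
  have e2 : (((nm v.1 : ℝ) ^ c : ℝ) : ℂ) = (nm v.1 : ℂ) ^ (c : ℂ) := by
    rw [Complex.ofReal_cpow h0.le, Complex.ofReal_natCast]
  have e3 : (nm v.1 : ℂ) ^ (c : ℂ) ≠ 0 := by
    rw [← e2]
    exact_mod_cast (Real.rpow_pos_of_pos h0 _).ne'
  rw [e1, e2]
  field_simp

end Frobenius

end Pool.Agent.R791.Frob
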