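import Pool.Agent.R791.Heat4
import Pool.Agent.R791.Heat5
import Pool.Agent.R791.Frob

/-!
# Gaussian sums of traces of Frobenius and the continuation of Euler products
-/

set_option autoImplicit false

namespace Pool.Agent.R791.Frob

open Filter Topology Complex NumberField IsDedekindDomain
open Pool.Agent.TH942.ES Pool.Agent.TH942.SL Pool.Agent.R791.SectGen Pool.Agent.R791.Level
open Pool.Agent.R791.Heat
open Pool.Agent.H921R2.TatePole (nm two_le_nm)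

/-- The region `Re s > b`, `Re (s-b)² > θ`. -/
def Region (b θ : ℝ) : Set ℂ := {s | b < s.re ∧ θ < (s.re - b) ^ 2 - s.im ^ 2}

lemma sq_eq (z : ℂ) : z ^ ((2 : ℝ) : ℂ) = z ^ 2 := by
  have : ((2 : ℝ) : ℂ) = 2 := by push_cast; rfl
  rw [this, Complex.cpow_ofNat]

lemma sq_re (z : ℂ) : (z ^ 2).re = z.re ^ 2 - z.im ^ 2 := by
  rw [sq, Complex.mul_re]
  ring

lemma lv_two {θ : ℝ} (hθ : 0 ≤ θ) {z : ℂ} :
    z ∈ Lv 2 θ ↔ 0 < z.re ∧ θ < z.re ^ 2 - z.im ^ 2 := by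
  unfold Lv
  simp only [Set.mem_ofPred_eq]
  rw [sect_iff (by norm_num), sq_eq, sq_re]
  have e1 : Real.tan (Real.pi / (2 * 2)) = 1 := by
    rw [show Real.pi / (2 * 2) = Real.pi / 4 by ring, Real.tan_pi_div_four]
  rw [e1, one_mul]
  constructor
  · rintro ⟨⟨h1, -⟩, h2⟩
    exact ⟨h1, h2⟩
  · rintro ⟨h1, h2⟩
    refine ⟨⟨h1, ?_⟩, h2⟩
    rw [← abs_of_pos h1]
    exact sq_lt_sq.1 (by linarith)

lemma region_iff {θ : ℝ} (hθ : 0 ≤ θ) (b c : ℝ) (s : ℂ) :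
    s ∈ Region b θ ↔ s - c ∈ LvAt (b - c) 2 θ := by
  rw [mem_lvAt, lv_two hθ]
  have e1 : s - c - ((b - c : ℝ) : ℂ) = s - b := by push_cast; ring
  rw [e1]
  unfold Region
  simp only [Set.mem_ofPred_eq, Complex.sub_re, Complex.ofReal_re, Complex.sub_im,
    Complex.ofReal_im, sub_zero, sub_pos]

lemma region_open (b : ℝ) (θ : ℝ) : IsOpen (Region b θ) := by
  have h : Continuous fun s : ℂ => (s.re - b) ^ 2 - s.im ^ 2 := by fun_prop
  exact (isOpen_lt continuous_const Complex.continuous_re).inter (isOpen_lt continuous_const h)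

variable {K : Type} [Field K] [NumberField K] {d : ℕ} {c : ℝ}

/-- `f(y) = ∑_z m(z) e^(zy) + O(e^((θ+ε)y))` for every `ε > 0`, with finitely many complex `z` and
`m(z) ∈ A`. -/
def ExpSumIn (A : Set ℤ) (f : ℝ → ℝ) (θ : ℝ) : Prop :=
  ∀ ε : ℝ, 0 < ε → ∃ (S : Finset ℂ) (m : ℂ → ℤ) (C : ℝ), (∀ z ∈ S, m z ∈ A) ∧
    ∀ᶠ y : ℝ in atTop, ‖(f y : ℂ) - ∑ z ∈ S, (m z : ℂ) * Complex.exp (z * y)‖ ≤
      C * Real.exp ((θ + ε) * y)

/-- `f(y) = O(e^((θ+ε)y))` for every `ε > 0`. -/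
def BoundLE (f : ℝ → ℝ) (θ : ℝ) : Prop :=
  ∀ ε : ℝ, 0 < ε → ∃ C : ℝ, ∀ᶠ y : ℝ in atTop, |f y| ≤ C * Real.exp ((θ + ε) * y)

lemma bound_iff_empty {f : ℝ → ℝ} {θ : ℝ} : BoundLE f θ ↔ ExpSumIn ∅ f θ := by
  constructor
  · intro h ε hε
    obtain ⟨C, hC⟩ := h ε hε
    refine ⟨∅, fun _ => 0, C, by simp, ?_⟩
    filter_upwards [hC] with y hy
    simpa using hy
  · intro h ε hε
    obtain ⟨S, m, C, hS, hC⟩ := h ε hε
    have hS0 : S = ∅ := Finset.eq_empty_of_forall_notMem fun z hz => hS z hz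
    refine ⟨C, ?_⟩
    filter_upwards [hC] with y hy
    rw [hS0] at hy
    simpa using hy

lemma bound_of_zero {f : ℝ → ℝ} {θ : ℝ} (h : ExpSumIn {0} f θ) : BoundLE f θ := by
  intro ε hε
  obtain ⟨S, m, C, hS, hC⟩ := h ε hε
  refine ⟨C, ?_⟩
  filter_upwards [hC] with y hy
  have e1 : ∑ z ∈ S, (m z : ℂ) * Complex.exp (z * y) = 0 :=
    Finset.sum_eq_zero fun z hz => by
      have : m z = 0 := hS z hz
      rw [this]
      simp
  rw [e1, sub_zero, Complex.norm_real, Real.norm_eq_abs] at hy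
  exact hy

lemma expsum_congr {A : Set ℤ} {f g : ℝ → ℝ} {θ : ℝ} (h : ∀ y, 0 < y → f y = g y) :
    ExpSumIn A f θ ↔ ExpSum A g θ := by
  unfold ExpSumIn ExpSum
  refine forall_congr' fun ε => forall_congr' fun _ => exists_congr fun S => exists_congr fun m =>
    exists_congr fun C => and_congr_right fun _ => ?_
  refine eventually_congr ?_
  filter_upwards [eventually_gt_atTop 0] with y hy
  rw [h y hy]

namespace Frobenius

variable (V : Frobenius K d c)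

/-- The term `∑ᵢ α_{v,i}^k log(Nv) Nv^(-kb) exp (-(k log Nv)²/(4y))`, `k = j + 1`. -/
noncomputable def heatTerm (b y : ℝ) (p : {v // v ∉ V.bad} × ℕ) : ℝ :=
  (∑ i, V.eig p.1.1 i ^ (p.2 + 1)).re * Real.log (nm p.1.1) *
    ((nm p.1.1 : ℝ) ^ (-b)) ^ (p.2 + 1) *
    Real.exp (-(((p.2 : ℝ) + 1) * Real.log (nm p.1.1)) ^ 2 / (4 * y))

/-- `Θ_b(y) = (4πy)^(-1/2) ∑_{v ∉ bad, k ≥ 1} ∑ᵢ α_{v,i}^k log(Nv) Nv^(-kb) exp (-(k log Nv)²/(4y))`. -/
noncomputable def heat (b y : ℝ) : ℝ :=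
  (√(4 * Real.pi * y))⁻¹ * ∑' p : {v // v ∉ V.bad} × ℕ, V.heatTerm b y p

lemma heatTerm_eq (b : ℝ) {y : ℝ} (hy : 0 < y) (p : {v // v ∉ V.bad} × ℕ) :
    (√(4 * Real.pi * y))⁻¹ * V.heatTerm b y p =
      cP (fun v : {v // v ∉ V.bad} => nm v.1) V.al p *
      Real.exp (-((b - c) * lamP (fun v : {v // v ∉ V.bad} => nm v.1) p)) *
      gk 2⁻¹ (lamP (fun v : {v // v ∉ V.bad} => nm v.1) p * y ^ (-2⁻¹ : ℝ)) := by
  have E := V.sys
  have hN := nm_pos (K := K) p.1.1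
  have hl : 0 < Real.log (nm p.1.1 : ℝ) := E.logN p.1
  have hk : (0 : ℝ) < (p.2 : ℝ) + 1 := by positivity
  have hlam : lamP (fun v : {v // v ∉ V.bad} => nm v.1) p =
      ((p.2 : ℝ) + 1) * Real.log (nm p.1.1) := rfl
  have hys : (y : ℝ) ^ (-2⁻¹ : ℝ) = (√y)⁻¹ := by
    rw [Real.rpow_neg hy.le, Real.sqrt_eq_rpow, one_div]
  have hsy : 0 < √y := Real.sqrt_pos.2 hy
  have hu : 0 < lamP (fun v : {v // v ∉ V.bad} => nm v.1) p * y ^ (-2⁻¹ : ℝ) := by
    rw [hlam]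
    positivity
  rw [gk_half hu, E.exp_lamP]
  unfold cP heatTerm
  rw [V.pow_sum, Complex.ofReal_re, hys, hlam]
  have e1 : √(4 * Real.pi * y) = 2 * √Real.pi * √y := by
    rw [Real.sqrt_mul (by positivity), Real.sqrt_mul (by norm_num)]
    have : √(4 : ℝ) = 2 := by
      rw [show (4 : ℝ) = 2 ^ 2 by norm_num, Real.sqrt_sq (by norm_num)]
    rw [this]
  have e2 : -(((p.2 : ℝ) + 1) * Real.log (nm p.1.1) * (√y)⁻¹) ^ 2 / 4 =
      -(((p.2 : ℝ) + 1) * Real.log (nm p.1.1)) ^ 2 / (4 * y) := by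
    rw [mul_pow _ (√y)⁻¹, inv_pow, Real.sq_sqrt hy.le]
    field_simp
  have e3 : ((nm p.1.1 : ℝ) ^ (-b)) ^ (p.2 + 1) = (((nm p.1.1 : ℝ) ^ c) ^ (p.2 + 1))⁻¹ *
      ((nm p.1.1 : ℝ) ^ (-(b - c))) ^ (p.2 + 1) := by
    rw [← inv_pow, ← mul_pow, ← Real.rpow_neg hN.le, ← Real.rpow_add hN]
    congr 2
    ring
  rw [e1, e2, e3]
  have hpi : 0 < √Real.pi := Real.sqrt_pos.2 Real.pi_pos
  field_simp

lemma heat_eq (b : ℝ) {y : ℝ} (hy : 0 < y) : V.heat b y =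
    TE (fun v : {v // v ∉ V.bad} => nm v.1) V.al (b - c) 2 y := by
  unfold heat TE
  rw [← tsum_mul_left]
  exact tsum_congr fun p => V.heatTerm_eq b hy p

theorem heat_summable (b : ℝ) {y : ℝ} (hy : 0 < y) : Summable (V.heatTerm b y) := by
  have h1 := TE_summable V.sys (w := b - c) (ρ := 2) (by norm_num) hy
  have h2 : (0 : ℝ) < (√(4 * Real.pi * y))⁻¹ := by have := Real.pi_pos; positivity
  rw [← summable_mul_left_iff h2.ne']
  refine h1.congr fun p => ?_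
  exact (V.heatTerm_eq b hy p).symm

/-- all zeros and poles are seen -/
theorem heat_expand {b θ θ' : ℝ} (hθ : 0 ≤ θ) (hθ' : θ < θ') {G : ℂ → ℂ}
    (hG : ∀ s ∈ Region b θ, MeromorphicAt G s)
    (hGL : ∀ s ∈ Region b θ, c + 1 / 2 < s.re → G s = V.LSeries s) :
    ∃ (hfin : {s : ℂ | s ∈ Region b θ' ∧ meromorphicOrderAt G s ≠ 0}.Finite) (C : ℝ),
      ∀ y : ℝ, 0 < y → ‖(V.heat b y : ℂ) + ∑ s ∈ hfin.toFinset,
        ((meromorphicOrderAt G s).untop₀ : ℂ) * Complex.exp ((s - b) ^ 2 * y)‖ ≤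
          C * Real.exp (θ' * y) := by
  have E := V.sys
  have hθ0 : 0 ≤ θ' := hθ.trans hθ'.le
  have htr : ∀ s : ℂ, AnalyticAt ℂ (fun s : ℂ => s + c) s := fun s => by fun_prop
  have hord : ∀ s : ℂ, meromorphicOrderAt (fun s => G (s + c)) s =
      meromorphicOrderAt G (s + c) := fun s => by
    refine meromorphicOrderAt_comp_of_deriv_ne_zero (f := G) (htr s) ?_
    have : deriv (fun s : ℂ => s + c) s = 1 := ((hasDerivAt_id s).add_const (c : ℂ)).deriv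
    rw [this]
    exact one_ne_zero
  have hR : ∀ (η : ℝ), 0 ≤ η → ∀ s : ℂ, s ∈ LvAt (b - c) 2 η ↔ s + c ∈ Region b η :=
    fun η hη s => by rw [region_iff hη b c, add_sub_cancel_right]
  obtain ⟨-, hfin, C, hC⟩ := mero_expand E V.hreal (w := b - c) (ρ := 2) (θ := θ) (θ' := θ')
    (by norm_num) hθ hθ' (G := fun s => G (s + c)) (fun s hs =>
      MeromorphicAt.comp_analyticAt (f := G) (hG _ ((hR θ hθ s).1 hs)) (htr s))
    (fun s hs hs2 => by
      have e1 := V.LE_eq (s + c)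
      rw [add_sub_cancel_right] at e1
      rw [e1]
      exact hGL _ ((hR θ hθ s).1 hs) (by simp; linarith))
  have hfin' : {s : ℂ | s ∈ Region b θ' ∧ meromorphicOrderAt G s ≠ 0}.Finite := by
    refine (hfin.image fun s : ℂ => s + c).subset fun s hs => ?_
    refine ⟨s - c, ⟨(hR θ' hθ0 _).2 (by rw [sub_add_cancel]; exact hs.1), ?_⟩, by simp⟩
    rw [hord, sub_add_cancel]
    exact hs.2
  refine ⟨hfin', C, fun y hy => ?_⟩
  have h1 := hC y hy
  rw [← V.heat_eq b hy] at h1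
  have h2 : ∑ s ∈ hfin.toFinset, ((meromorphicOrderAt (fun s => G (s + c)) s).untop₀ : ℂ) *
      Complex.exp ((s - ((b - c : ℝ) : ℂ)) ^ (((2 : ℝ)) : ℂ) * y) =
      ∑ s ∈ hfin'.toFinset, ((meromorphicOrderAt G s).untop₀ : ℂ) *
        Complex.exp ((s - b) ^ 2 * y) := by
    refine Finset.sum_bij' (fun s _ => s + c) (fun s _ => s - c) ?_ ?_ ?_ ?_ ?_
    · intro s hs
      rw [Set.Finite.mem_toFinset] at hs ⊢
      refine ⟨(hR θ' hθ0 s).1 hs.1, ?_⟩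
      rw [← hord]
      exact hs.2
    · intro s hs
      rw [Set.Finite.mem_toFinset] at hs ⊢
      refine ⟨(hR θ' hθ0 _).2 (by rw [sub_add_cancel]; exact hs.1), ?_⟩
      rw [hord, sub_add_cancel]
      exact hs.2
    · intro s _
      simp
    · intro s _
      simp
    · intro s _
      rw [hord, sq_eq]
      congr 3
      push_cast
      ring
  rw [h2] at h1
  exact h1

/-- the exponential sum of a continuation -/
theorem expsum_of {b θ : ℝ} (hθ : 0 ≤ θ) {G : ℂ → ℂ} {A : Set ℤ}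
    (hG : ∀ s ∈ Region b θ, MeromorphicAt G s)
    (hGL : ∀ s ∈ Region b θ, c + 1 / 2 < s.re → G s = V.LSeries s)
    (hA : ∀ s ∈ Region b θ, -(meromorphicOrderAt G s).untop₀ ∈ A) :
    ExpSumIn A (V.heat b) θ := by
  have htr : ∀ s : ℂ, AnalyticAt ℂ (fun s : ℂ => s + c) s := fun s => by fun_prop
  have hord : ∀ s : ℂ, meromorphicOrderAt (fun s => G (s + c)) s =
      meromorphicOrderAt G (s + c) := fun s => by
    refine meromorphicOrderAt_comp_of_deriv_ne_zero (f := G) (htr s) ?_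
    have : deriv (fun s : ℂ => s + c) s = 1 := ((hasDerivAt_id s).add_const (c : ℂ)).deriv
    rw [this]
    exact one_ne_zero
  have hR : ∀ s : ℂ, s ∈ LvAt (b - c) 2 θ → s + c ∈ Region b θ :=
    fun s hs => by rw [region_iff hθ b c, add_sub_cancel_right]; exact hs
  rw [expsum_congr fun y hy => V.heat_eq b hy]
  refine expsum_of_mero V.sys V.hreal (by norm_num) hθ (G := fun s => G (s + c)) (fun s hs =>
      MeromorphicAt.comp_analyticAt (f := G) (hG _ (hR s hs)) (htr s)) (fun s hs hs2 => ?_)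
      fun s hs => ?_
  · have e1 := V.LE_eq (s + c)
    rw [add_sub_cancel_right] at e1
    rw [e1]
    exact hGL _ (hR s hs) (by simp; linarith)
  · rw [hord]
    exact hA _ (hR s hs)

/-- the continuation of a family of exponential sums -/
theorem ext_of {ι : Type} (b θ : ι → ℝ) (hθ : ∀ i, 0 ≤ θ i) {A : Set ℤ}
    (h : ∀ i, ExpSumIn A (V.heat (b i)) (θ i)) :
    ∃ F : ℂ → ℂ, (∀ s : ℂ, c + 1 / 2 < s.re → F s = V.LSeries s) ∧
      (∀ s : ℂ, (∃ i, s ∈ Region (b i) (θ i)) ∨ c + 1 / 2 < s.re → MeromorphicAt F s) ∧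
      ((∀ a ∈ A, a ≤ 0) → ∀ s : ℂ, (∃ i, s ∈ Region (b i) (θ i)) ∨ c + 1 / 2 < s.re →
        DifferentiableAt ℂ F s) ∧
      (A = ∅ → ∀ s : ℂ, (∃ i, s ∈ Region (b i) (θ i)) ∨ c + 1 / 2 < s.re → F s ≠ 0) := by
  obtain ⟨F, h1, h2, h3, h4⟩ := ext_family V.sys V.hreal (fun i => b i - c) (fun _ => 2) θ
    (fun _ => by norm_num) hθ (A := A) (fun i => (expsum_congr fun y hy => V.heat_eq _ hy).1 (h i))
  have hcov : ∀ s : ℂ, (∃ i, s ∈ Region (b i) (θ i)) ∨ c + 1 / 2 < s.re →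
      (∃ i, s - c ∈ LvAt (b i - c) 2 (θ i)) ∨ 1 / 2 < (s - c).re := by
    rintro s (⟨i, hi⟩ | hs)
    · exact Or.inl ⟨i, (region_iff (hθ i) _ c s).1 hi⟩
    · right
      simp
      linarith
  refine ⟨fun s => F (s - c), fun s hs => ?_, fun s hs => ?_, fun hA s hs => ?_,
    fun hA s hs => h4 hA _ (hcov s hs)⟩
  · simp only
    rw [h1 _ (by simp; linarith), V.LE_eq]
  · exact MeromorphicAt.comp_analyticAt (f := F) (g := fun s : ℂ => s - c) (h2 _ (hcov s hs))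
      (by fun_prop)
  · exact DifferentiableAt.comp (g := F) (f := fun s : ℂ => s - c) s (h3 hA _ (hcov s hs))
      (by fun_prop)

/-- the regions exhaust the plane -/
lemma cover_plane (s : ℂ) : ∃ B : ℝ, ∀ b : ℝ, b ≤ B → s ∈ Region b 0 := by
  refine ⟨s.re - |s.im| - 1, fun b hb => ?_⟩
  have h0 := abs_nonneg s.im
  refine ⟨by linarith, ?_⟩
  have h1 : s.im ^ 2 = |s.im| ^ 2 := (sq_abs _).symm
  rw [h1]
  nlinarith

/-- the regions exhaust the half plane -/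
lemma cover_half {t : ℝ} {s : ℂ} (hs : t < s.re) :
    ∃ B : ℝ, ∀ b : ℝ, b ≤ B → s ∈ Region b ((t - b) ^ 2) := by
  have h0 : 0 < s.re - t := by linarith
  refine ⟨min (s.re - 1) ((s.re + t - s.im ^ 2 / (s.re - t)) / 2 - 1), fun b hb => ?_⟩
  have h1 := hb.trans (min_le_left _ _)
  have h2 := hb.trans (min_le_right _ _)
  refine ⟨by linarith, ?_⟩
  have h3 : s.im ^ 2 / (s.re - t) + 2 ≤ s.re + t - 2 * b := by linarith
  have h4 : s.im ^ 2 < (s.re - t) * (s.re + t - 2 * b) := by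
    have h5 : s.im ^ 2 = (s.re - t) * (s.im ^ 2 / (s.re - t)) := by field_simp
    nlinarith
  nlinarith

lemma region_sub_half {t b : ℝ} {s : ℂ} (hs : s ∈ Region b ((t - b) ^ 2)) :
    t < s.re := by
  obtain ⟨h1, h2⟩ := hs
  have h3 : (t - b) ^ 2 < (s.re - b) ^ 2 := by nlinarith [sq_nonneg s.im]
  have h4 := lt_of_pow_lt_pow_left₀ 2 (by linarith) h3
  linarith

end Frobenius

end Pool.Agent.R791.Frob
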