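import Pool.Agent.R791.Edge1
import Pool.Agent.R791.HeatFrob

/-!
# Singularities of the form `(s - 1/2)^(-k) h(s)` and exponential sums
-/

set_option autoImplicit false

open MeasureTheory Filter Topology Set Complex
open Pool.Agent.TH942.LS (Dat P P_le)
open Pool.Agent.TH942.SL Pool.Agent.TH942.ES Pool.Agent.R791.SectGen Pool.Agent.R791.Level

namespace Pool.Agent.R791.Heat

/-- the square root -/
noncomputable def rt (v : ℂ) : ℂ := v ^ (((2 : ℝ)⁻¹ : ℝ) : ℂ)

lemma half_pos' : (0 : ℝ) < (2 : ℝ)⁻¹ := by norm_num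
lemma half_lt' : ((2 : ℝ)⁻¹ : ℝ) < 1 := by norm_num

lemma rt_sq {v : ℂ} : rt v ^ 2 = v := by
  unfold rt
  rw [← Complex.cpow_nat_mul]
  push_cast
  rw [mul_inv_cancel₀ (by norm_num), Complex.cpow_one]

lemma rt_re {v : ℂ} (hv : 0 < v.re) : 0 < (rt v).re := by
  have e1 := re_pow_ge half_pos' half_lt' hv
  have e2 := kap_pos half_pos' half_lt'
  have e3 : 0 < ‖v‖ ^ (2⁻¹ : ℝ) := Real.rpow_pos_of_pos (norm_pos' hv) _
  exact (mul_pos e2 e3).trans_le e1

lemma rt_ne {v : ℂ} (hv : 0 < v.re) : rt v ≠ 0 := ne_zero' (rt_re hv)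

lemma rt_parts {v : ℂ} : v.re = (rt v).re ^ 2 - (rt v).im ^ 2 := by
  conv_lhs => rw [← rt_sq (v := v)]
  rw [sq, Complex.mul_re]
  ring

lemma rt_norm {v : ℂ} : ‖rt v‖ ^ 2 = ‖v‖ := by
  rw [← norm_pow, rt_sq]

lemma rt_deriv {v : ℂ} (hv : 0 < v.re) : HasDerivAt rt (1 / (2 * rt v)) v := by
  have e1 := pow_deriv (α := (2 : ℝ)⁻¹) (slit hv)
  refine e1.congr_deriv ?_
  have hv0 := ne_zero' hv
  have e2 : ((((2 : ℝ)⁻¹ : ℝ) : ℂ) - 1) = -(((2 : ℝ)⁻¹ : ℝ) : ℂ) := by
    push_cast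
    norm_num
  rw [e2, Complex.cpow_neg]
  unfold rt
  push_cast
  rw [one_div, mul_inv]

lemma rt_of_sq {z : ℂ} (hz : |z.im| < z.re) : rt (z ^ 2) = z := by
  have h0 : 0 < z.re := (abs_nonneg _).trans_lt hz
  have h1 : z ∈ Sect 2 := by
    rw [sect_iff (by norm_num)]
    have e1 : Real.tan (Real.pi / (2 * 2)) = 1 := by
      rw [show Real.pi / (2 * 2) = Real.pi / 4 by ring, Real.tan_pi_div_four]
    rw [e1, one_mul]
    exact ⟨h0, hz⟩
  have h2 : z ∈ LvAt 0 2 (-1) := by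
    rw [mem_lvAt]
    simp only [Complex.ofReal_zero, sub_zero]
    refine ⟨h1, ?_⟩
    rw [Frob.sq_eq, Frob.sq_re]
    have : z.im ^ 2 < z.re ^ 2 := sq_lt_sq.2 (by rw [abs_of_pos h0]; exact hz)
    linarith
  have h3 := (root_eq (by norm_num : (1 : ℝ) < 2) h2).2
  rw [Frob.sq_eq] at h3
  simpa [rt] using h3

/-- the points of the region which are not to the right of `1/2` are near `1/2` -/
lemma geom {w θ : ℝ} (hθ : 0 ≤ θ) {v : ℂ} (hv : θ < v.re)
    (h : ((w : ℂ) + rt v).re ≤ 1 / 2) :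
    ‖(w : ℂ) + rt v - 1 / 2‖ ^ 2 < 2 * ((1 / 2 - w) ^ 2 - θ) := by
  have hv0 : 0 < v.re := by linarith
  have h0 := rt_re hv0
  have h1 := rt_parts (v := v)
  rw [Complex.add_re, Complex.ofReal_re] at h
  have e1 : ‖(w : ℂ) + rt v - 1 / 2‖ ^ 2 = ((rt v).re - (1 / 2 - w)) ^ 2 + (rt v).im ^ 2 := by
    rw [← Complex.normSq_eq_norm_sq, Complex.normSq_apply]
    simp
    ring
  rw [e1]
  have h2 := sq_nonneg (rt v).im
  nlinarith [mul_nonneg h0.le (by linarith : 0 ≤ 1 / 2 - w - (rt v).re)]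

/-- the shifted points of the region of convergence stay in the slit plane -/
lemma slit_of {w : ℝ} (hw : w < 1 / 2) {v : ℂ} (hv : 0 < v.re) (h : 1 / 2 < w + (rt v).re) :
    v - (((1 / 2 - w) ^ 2 : ℝ) : ℂ) ∈ slitPlane := by
  by_contra hcon
  rw [Complex.mem_slitPlane_iff] at hcon
  push Not at hcon
  obtain ⟨h1, h2⟩ := hcon
  have h3 : v.im = 0 := by
    rw [Complex.sub_im, Complex.ofReal_im, sub_zero] at h2
    exact h2
  rw [Complex.sub_re, Complex.ofReal_re] at h1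
  have h4 := rt_parts (v := v)
  have h5 : (rt v).re * (rt v).im = 0 := by
    have e1 : (rt v ^ 2).im = v.im := by rw [rt_sq]
    rw [sq, Complex.mul_im, h3] at e1
    nlinarith
  have h6 : (rt v).im = 0 := by
    rcases mul_eq_zero.1 h5 with h | h
    · exact absurd h (rt_re hv).ne'
    · exact h
  rw [h6] at h4
  nlinarith

lemma frac_key {A B r : ℂ} (hA : A ≠ 0) (hB : B ≠ 0) (hr : r ≠ 0) (h : 2 * r = A + B) (k D : ℂ) :
    -(k / (2 * r * B)) - D * (1 / (2 * r)) = -((-k / A + D) * (1 / (2 * r))) - k / (A * B) := by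
  have e1 : k / (A * B) = k / (2 * r * B) + k / (2 * r * A) := by
    field_simp
    linear_combination k * h
  rw [e1]
  field_simp
  ring

variable {X : Type} {d : ℕ} {N : X → ℕ} {α : X → Fin d → ℂ} {e : X × ℕ → ℕ}

section

variable (E : Sys N α)
include E

/-- `f₀` in the region of convergence -/
lemma f₀_E (hreal : ∀ v k, (∑ i, zv N α v i ^ k).im = 0) (he : Function.Injective e)
    {w : ℝ} (hw : w < 1 / 2) {v : ℂ} (hv : 0 < v.re) (h : 1 / 2 < w + (rt v).re) :
    HasDerivAt (f₀ (lamS N e) (cW N α e w) 2⁻¹) (f₁ (lamS N e) (cW N α e w) 2⁻¹ v) v ∧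
      exp (f₀ (lamS N e) (cW N α e w) 2⁻¹ v) = LE N α (w + rt v) := by
  set σ : ℝ := ((1 / 2 - w) + (rt v).re) / 2 with hσ
  have h1 : 0 < σ := by rw [hσ]; linarith [rt_re hv]
  have h2 : 1 / 2 < σ + w := by rw [hσ]; linarith
  have D := datW E he (w := w) h1 h2
  refine ⟨f₀_deriv D hv ?_, ?_⟩
  · change σ < (rt v).re
    rw [hσ]
    linarith
  · unfold f₀
    exact exp_DDW E hreal he h

/-- **from the exponential sum to the singularity** -/
theorem edge_down (hreal : ∀ v k, (∑ i, zv N α v i ^ k).im = 0) {w θ k : ℝ} (hw : w < 1 / 2)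
    (hθ : 0 ≤ θ) (hθ' : θ < (1 / 2 - w) ^ 2) {C y₀ : ℝ}
    (hM : ∀ y : ℝ, y₀ ≤ y → |TE N α w 2 y - k * Real.exp ((1 / 2 - w) ^ 2 * y)| ≤
      C * Real.exp (θ * y)) :
    ∃ h : ℂ → ℂ, AnalyticAt ℂ h (1 / 2) ∧ h (1 / 2) ≠ 0 ∧ ∀ᶠ s in 𝓝 (1 / 2 : ℂ),
      1 / 2 < s.re → LE N α s = (s - 1 / 2) ^ (-(k : ℂ)) * h s := by
  have := E.cnt
  obtain ⟨e, he⟩ := Countable.exists_injective_nat (X × ℕ)
  set z₀ : ℝ := (1 / 2 - w) ^ 2 with hz₀
  have hd0 : 0 < 1 / 2 - w := by linarith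
  have hz0 : 0 < z₀ := by positivity
  set lam := lamS N e with hlam
  set c' := cW N α e w with hc'
  have D := datW E he (w := w) (σ := 1 / 2 - w + 1) (by linarith) (by linarith)
  obtain ⟨φ, x₁, hx1, hbx, hφd, hx₁, hSx, hφ⟩ := mer_down_c D half_pos' half_lt' hθ
    ({(z₀ : ℂ)} : Finset ℂ) (fun _ => (k : ℂ)) (C := C) (y₀ := y₀) fun y hy => by
      rw [Finset.sum_singleton, ← TE_eq he]
      have e1 := hM y hy
      have e2 : (TE N α w 2 y : ℂ) - (k : ℂ) * exp ((z₀ : ℂ) * y) =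
          ((TE N α w 2 y - k * Real.exp (z₀ * y) : ℝ) : ℂ) := by
        push_cast
        rfl
      rw [e2, Complex.norm_real, Real.norm_eq_abs]
      exact e1
  simp only [Finset.sum_singleton] at hφ
  set U : Set ℂ := {v | θ < v.re} with hU
  have hUo : IsOpen U := isOpen_lt continuous_const Complex.continuous_re
  have hUc : Convex ℝ U := convex_halfSpace_re_gt θ
  obtain ⟨Φ, hΦ⟩ := convex_primitive hUo hUc (f := φ) fun v hv =>
    (hφd v hv).differentiableWithinAt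
  set W : Set ℂ := {v | x₁ < v.re} with hW
  have hWo : IsOpen W := isOpen_lt continuous_const Complex.continuous_re
  have hWc : Convex ℝ W := convex_halfSpace_re_gt x₁
  have hz₀x : z₀ < x₁ := by
    have := hSx (z₀ : ℂ) (Finset.mem_singleton_self _)
    rwa [Complex.ofReal_re] at this
  set g₁ : ℂ → ℂ := fun v => exp (-Φ v) * (v - z₀) ^ (-(k : ℂ)) with hg₁
  have hg₁d : ∀ v : ℂ, θ < v.re → v - z₀ ∈ slitPlane → HasDerivAt g₁
      (g₁ v * (-φ v - k / (v - z₀))) v := by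
    intro v hv hs
    have e1 := (hΦ v hv).fun_neg.cexp
    have e2 : HasDerivAt (fun v : ℂ => (v - z₀) ^ (-(k : ℂ)))
        (-(k : ℂ) * (v - z₀) ^ (-(k : ℂ) - 1) * 1) v :=
      ((hasDerivAt_id v).sub_const (z₀ : ℂ)).cpow_const hs
    refine (e1.mul e2).congr_deriv ?_
    have hne : v - z₀ ≠ 0 := Complex.slitPlane_ne_zero hs
    rw [hg₁]
    simp only
    rw [Complex.cpow_sub _ _ hne, Complex.cpow_one]
    field_simp
    ring
  have hWs : ∀ v ∈ W, v - z₀ ∈ slitPlane := fun v hv => by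
    refine Or.inl ?_
    rw [Complex.sub_re, Complex.ofReal_re]
    have : x₁ < v.re := hv
    linarith
  have hPv : ∀ v ∈ W, 0 < v.re ∧ 1 / 2 < w + (rt v).re := fun v hv => by
    have e1 : x₁ < v.re := hv
    have e0 : 0 < v.re := by linarith
    have e2 := hx₁ v (e1.le.trans (re_le_norm v)) e0
    change 1 / 2 - w + 1 < (rt v).re at e2
    exact ⟨e0, by linarith⟩
  have hder : ∀ v ∈ W, HasDerivAt (fun v => exp (-f₀ lam c' 2⁻¹ v) * g₁ v) 0 v := by
    intro v hv
    obtain ⟨e0, e1⟩ := hPv v hv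
    have e2 := (f₀_E E hreal he hw e0 e1).1
    have e3 := hg₁d v (lt_of_le_of_lt hbx hv) (hWs v hv)
    refine (e2.fun_neg.cexp.mul e3).congr_deriv ?_
    have e4 := hφ v hv
    have e5 : φ v = -f₁ lam c' 2⁻¹ v - k / (v - z₀) := by rw [e4]; ring
    rw [e5]
    ring
  set w₀ : ℂ := ((x₁ + 1 : ℝ) : ℂ) with hw₀
  have hw₀W : w₀ ∈ W := by
    change x₁ < w₀.re
    rw [hw₀, Complex.ofReal_re]
    linarith
  set q : ℂ := exp (-f₀ lam c' 2⁻¹ w₀) * g₁ w₀ with hq
  have hconst : ∀ v ∈ W, exp (-f₀ lam c' 2⁻¹ v) * g₁ v = q := fun v hv =>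
    hWc.is_const_of_fderivWithin_eq_zero (𝕜 := ℂ) (f := fun v => exp (-f₀ lam c' 2⁻¹ v) * g₁ v)
      (fun z hz => (hder z hz).differentiableAt.differentiableWithinAt) (fun z hz => by
        rw [fderivWithin_of_isOpen hWo hz]
        ext
        simp [(hder z hz).deriv]) hv hw₀W
  have hq0 : q ≠ 0 := by
    rw [hq, hg₁]
    refine mul_ne_zero (Complex.exp_ne_zero _) (mul_ne_zero (Complex.exp_ne_zero _) ?_)
    rw [Ne, Complex.cpow_eq_zero_iff]
    exact fun h => Complex.slitPlane_ne_zero (hWs w₀ hw₀W) h.1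
  -- the identity in the region of convergence
  set Q : Set ℂ := {v | θ < v.re ∧ 1 / 2 < w + (rt v).re} with hQ
  have hQo : IsOpen Q := by
    rw [isOpen_iff_mem_nhds]
    rintro v ⟨h1, h2⟩
    have h0 : 0 < v.re := by linarith
    have hc : ContinuousAt (fun v => w + (rt v).re) v :=
      continuousAt_const.add (Complex.continuous_re.continuousAt.comp (rt_deriv h0).continuousAt)
    filter_upwards [hUo.mem_nhds h1, hc.eventually (lt_mem_nhds h2)] with z hz1 hz2
    exact ⟨hz1, hz2⟩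
  have hQs : ∀ v ∈ Q, ∀ x : ℝ, 0 ≤ x → v + x ∈ Q := by
    rintro v ⟨h1, h2⟩ x hx
    have h0 : 0 < v.re := by linarith
    refine ⟨by rw [Complex.add_re, Complex.ofReal_re]; linarith, ?_⟩
    have := re_pow_mono half_pos' half_lt' h0 hx
    change (rt v).re ≤ (rt (v + x)).re at this
    linarith
  have hQ1 : ∀ v ∈ Q, AnalyticAt ℂ (fun v => exp (f₀ lam c' 2⁻¹ v)) v ∧ AnalyticAt ℂ g₁ v := by
    intro v hv
    have a1 : DifferentiableOn ℂ (fun v => exp (f₀ lam c' 2⁻¹ v)) Q := fun z hz =>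
      (f₀_E E hreal he hw (lt_of_le_of_lt hθ hz.1) hz.2).1.cexp.differentiableAt.differentiableWithinAt
    have a2 : DifferentiableOn ℂ g₁ Q := fun z hz =>
      (hg₁d z hz.1 (slit_of hw (lt_of_le_of_lt hθ hz.1) hz.2)).differentiableAt.differentiableWithinAt
    exact ⟨a1.analyticAt (hQo.mem_nhds hv), a2.analyticAt (hQo.mem_nhds hv)⟩
  have hid : ∀ v ∈ Q, exp (f₀ lam c' 2⁻¹ v) = q⁻¹ * g₁ v := by
    intro v hv
    have e1 := mray_eq (f := fun v => exp (f₀ lam c' 2⁻¹ v)) (g := fun v => q⁻¹ * g₁ v) (v := v)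
      (x₁ := x₁) (fun x hx => (hQ1 _ (hQs v hv x hx)).1.meromorphicAt)
      (fun x hx => (analyticAt_const.mul (hQ1 _ (hQs v hv x hx)).2).meromorphicAt) fun z hz => by
        have e2 := hconst z hz
        rw [← e2, Complex.exp_neg]
        have e3 := Complex.exp_ne_zero (f₀ lam c' 2⁻¹ z)
        have e4 : g₁ z ≠ 0 := by
          intro h
          apply hq0
          rw [← e2, h, mul_zero]
        field_simp
    exact (((hQ1 v hv).1.continuousAt.eventuallyEq_nhds_iff_eventuallyEq_nhdsNE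
      (continuousAt_const.mul (hQ1 v hv).2.continuousAt)).1 e1).self_of_nhds
  -- the function `h`
  have hΦa : ∀ v : ℂ, θ < v.re → AnalyticAt ℂ (fun v => exp (-Φ v)) v := fun v hv => by
    have h2 : DifferentiableOn ℂ (fun v => exp (-Φ v)) U := fun z hz =>
      ((hΦ z hz).fun_neg.cexp).differentiableAt.differentiableWithinAt
    exact h2.analyticAt (hUo.mem_nhds hv)
  set H : ℂ → ℂ := fun s => q⁻¹ * (exp (-Φ ((s - w) ^ 2)) * (s + 1 / 2 - 2 * w) ^ (-(k : ℂ)))
    with hH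
  have hc0 : ((1 / 2 : ℂ) - w) ^ 2 = (z₀ : ℂ) := by rw [hz₀]; push_cast; ring
  have hsl : ((1 / 2 : ℂ) + 1 / 2 - 2 * w) ∈ slitPlane := by
    refine Or.inl ?_
    have : ((1 / 2 : ℂ) + 1 / 2 - 2 * w) = ((1 - 2 * w : ℝ) : ℂ) := by push_cast; ring
    rw [this, Complex.ofReal_re]
    linarith
  refine ⟨H, ?_, ?_, ?_⟩
  · rw [hH]
    refine analyticAt_const.mul (AnalyticAt.mul ?_ ?_)
    · refine AnalyticAt.fun_comp (g := fun v => exp (-Φ v)) (f := fun s : ℂ => (s - w) ^ 2) ?_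
        (by fun_prop)
      rw [hc0]
      refine hΦa _ ?_
      rw [Complex.ofReal_re]
      exact hθ'
    · exact AnalyticAt.cpow (by fun_prop) analyticAt_const hsl
  · rw [hH]
    refine mul_ne_zero (inv_ne_zero hq0) (mul_ne_zero (Complex.exp_ne_zero _) ?_)
    rw [Ne, Complex.cpow_eq_zero_iff]
    exact fun h => Complex.slitPlane_ne_zero hsl h.1
  · have c1 : ContinuousAt (fun s : ℂ => ((s - w) ^ 2).re) (1 / 2) := by fun_prop
    have c2 : ContinuousAt (fun s : ℂ => |(s - w).im| - (s - w).re) (1 / 2) := by fun_prop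
    have d1 : θ < (((1 / 2 : ℂ) - w) ^ 2).re := by rw [hc0, Complex.ofReal_re]; exact hθ'
    have d2 : |((1 / 2 : ℂ) - w).im| - ((1 / 2 : ℂ) - w).re < 0 := by
      have e1 : ((1 / 2 : ℂ) - w) = ((1 / 2 - w : ℝ) : ℂ) := by push_cast; ring
      rw [e1, Complex.ofReal_re, Complex.ofReal_im, abs_zero]
      linarith
    filter_upwards [c1.eventually (lt_mem_nhds d1), c2.eventually (gt_mem_nhds d2)] with s hs1 hs2
      hs3
    have hs4 : rt ((s - w) ^ 2) = s - w := rt_of_sq (by linarith)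
    have hs5 : (w : ℂ) + rt ((s - w) ^ 2) = s := by rw [hs4]; ring
    have hs6 : 1 / 2 < w + (rt ((s - w) ^ 2)).re := by
      rw [hs4, Complex.sub_re, Complex.ofReal_re]
      linarith
    have e1 := (f₀_E E hreal he hw (lt_of_le_of_lt hθ hs1) hs6).2
    rw [hs5] at e1
    rw [← e1, hid _ ⟨hs1, hs6⟩, hg₁, hH]
    simp only
    have e2 : (s - w) ^ 2 - z₀ = (s - 1 / 2) * (s + 1 / 2 - 2 * w) := by
      rw [← hc0]
      ring
    have p1 : 0 < (s - 1 / 2).re := by
      simp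
      linarith
    have p2 : 0 < (s + 1 / 2 - 2 * w).re := by
      simp
      linarith
    have a1 := abs_lt.1 (arg_abs p1)
    have a2 := abs_lt.1 (arg_abs p2)
    have n1 : s - 1 / 2 ≠ 0 := ne_zero' p1
    have n2 : s + 1 / 2 - 2 * w ≠ 0 := ne_zero' p2
    have e3 : ((s - w) ^ 2 - z₀) ^ (-(k : ℂ)) = (s - 1 / 2) ^ (-(k : ℂ)) *
        (s + 1 / 2 - 2 * w) ^ (-(k : ℂ)) := by
      rw [e2, Complex.cpow_def_of_ne_zero (mul_ne_zero n1 n2), Complex.cpow_def_of_ne_zero n1,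
        Complex.cpow_def_of_ne_zero n2, ← Complex.exp_add,
        (Complex.log_mul_eq_add_log_iff n1 n2).2 ⟨by linarith, by linarith⟩]
      congr 1
      ring
    rw [e3]
    ring

/-- **from the singularity to the exponential sum** -/
theorem edge_up (hreal : ∀ v k, (∑ i, zv N α v i ^ k).im = 0) {k : ℝ} {h : ℂ → ℂ} {δ : ℝ}
    (hδ : 0 < δ) (hh : ∀ s : ℂ, ‖s - 1 / 2‖ < δ → AnalyticAt ℂ h s ∧ h s ≠ 0)
    (hL : ∀ s : ℂ, ‖s - 1 / 2‖ < δ → 1 / 2 < s.re → LE N α s = (s - 1 / 2) ^ (-(k : ℂ)) * h s)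
    {w θ θ' : ℝ} (hw : w < 1 / 2) (hθ : 0 ≤ θ) (hθ' : θ < θ')
    (hθδ : 2 * ((1 / 2 - w) ^ 2 - θ) ≤ δ ^ 2) :
    ∃ C : ℝ, ∀ y : ℝ, 0 < y → |TE N α w 2 y - k * Real.exp ((1 / 2 - w) ^ 2 * y)| ≤
      C * Real.exp (θ' * y) := by
  classical
  have := E.cnt
  obtain ⟨e, he⟩ := Countable.exists_injective_nat (X × ℕ)
  set z₀ : ℝ := (1 / 2 - w) ^ 2 with hz₀
  have hd0 : 0 < 1 / 2 - w := by linarith
  set lam := lamS N e with hlam
  set c' := cW N α e w with hc'
  have D := datW E he (w := w) (σ := 1 / 2 - w + 1) (by linarith) (by linarith)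
  set B : Set ℂ := {s | ‖s - 1 / 2‖ < δ} with hB
  have hBo : IsOpen B := isOpen_lt (by fun_prop) continuous_const
  set S : ℂ → ℂ := fun v => (w : ℂ) + rt v with hS
  have hSd : ∀ v : ℂ, 0 < v.re → HasDerivAt S (1 / (2 * rt v)) v := fun v hv =>
    (rt_deriv hv).const_add _
  set ψ : ℂ → ℂ := fun v => -(k / (2 * rt v * (S v + 1 / 2 - 2 * w))) -
    deriv h (S v) / h (S v) * (1 / (2 * rt v)) with hψ
  have hgeo : ∀ v : ℂ, θ < v.re → S v ∉ B → 1 / 2 < w + (rt v).re := by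
    intro v hv hnB
    by_contra hcon
    have e1 : ((w : ℂ) + rt v).re ≤ 1 / 2 := by
      rw [Complex.add_re, Complex.ofReal_re]
      linarith
    have e2 := geom hθ hv e1
    apply hnB
    change ‖(w : ℂ) + rt v - 1 / 2‖ < δ
    exact lt_of_pow_lt_pow_left₀ 2 hδ.le (e2.trans_le hθδ)
  -- the two formulas agree
  have hagree : ∀ v : ℂ, 0 < v.re → S v ∈ B → 1 / 2 < w + (rt v).re →
      ψ v = -f₁ lam c' 2⁻¹ v - k / (v - z₀) := by
    intro v hv hvB hvE
    have hdS := hSd v hv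
    have hr := rt_ne hv
    have p1 : 0 < (S v - 1 / 2).re := by
      rw [hS]
      simp
      linarith
    have n1 : S v - 1 / 2 ≠ 0 := ne_zero' p1
    have hsl : S v - 1 / 2 ∈ slitPlane := Or.inl p1
    obtain ⟨hha, hhn⟩ := hh _ hvB
    have e1 : (fun v => exp (f₀ lam c' 2⁻¹ v)) =ᶠ[𝓝 v]
        fun v => (S v - 1 / 2) ^ (-(k : ℂ)) * h (S v) := by
      have c1 : ContinuousAt S v := hdS.continuousAt
      have c2 : ContinuousAt (fun v => w + (rt v).re) v :=
        continuousAt_const.add (Complex.continuous_re.continuousAt.comp (rt_deriv hv).continuousAt)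
      have ho : IsOpen {v : ℂ | 0 < v.re} := isOpen_lt continuous_const Complex.continuous_re
      filter_upwards [c1.eventually (hBo.mem_nhds hvB), c2.eventually (lt_mem_nhds hvE),
        ho.mem_nhds hv] with z hz1 hz2 hz3
      rw [(f₀_E E hreal he hw hz3 hz2).2]
      refine hL _ hz1 ?_
      rw [Complex.add_re, Complex.ofReal_re]
      exact hz2
    have e2 : HasDerivAt (fun v => exp (f₀ lam c' 2⁻¹ v))
        (exp (f₀ lam c' 2⁻¹ v) * f₁ lam c' 2⁻¹ v) v := (f₀_E E hreal he hw hv hvE).1.cexp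
    have e3 : HasDerivAt (fun v => (S v - 1 / 2) ^ (-(k : ℂ)) * h (S v))
        ((-(k : ℂ) * (S v - 1 / 2) ^ (-(k : ℂ) - 1) * (1 / (2 * rt v))) * h (S v) +
          (S v - 1 / 2) ^ (-(k : ℂ)) * (deriv h (S v) * (1 / (2 * rt v)))) v := by
      refine HasDerivAt.mul ?_ ?_
      · exact (hdS.sub_const (1 / 2 : ℂ)).cpow_const hsl
      · exact HasDerivAt.comp v hha.differentiableAt.hasDerivAt hdS
    have e4 := (e2.congr_of_eventuallyEq e1.symm).unique e3
    rw [e1.eq_of_nhds] at e4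
    have hP0 : (S v - 1 / 2) ^ (-(k : ℂ)) ≠ 0 := by
      rw [Ne, Complex.cpow_eq_zero_iff]
      exact fun h => n1 h.1
    rw [Complex.cpow_sub _ _ n1, Complex.cpow_one] at e4
    have e5 : f₁ lam c' 2⁻¹ v = (-(k : ℂ) / (S v - 1 / 2) + deriv h (S v) / h (S v)) *
        (1 / (2 * rt v)) := by
      have e6 : (S v - 1 / 2) ^ (-(k : ℂ)) * h (S v) ≠ 0 := mul_ne_zero hP0 hhn
      apply mul_left_cancel₀ e6
      rw [e4]
      field_simp
    have hrt : rt v = S v - w := by rw [hS]; ring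
    have hv2 : v - z₀ = (S v - 1 / 2) * (S v + 1 / 2 - 2 * w) := by
      have : v = (S v - w) ^ 2 := by rw [← hrt, rt_sq]
      conv_lhs => rw [this, hz₀]
      push_cast
      ring
    have p2 : 0 < (S v + 1 / 2 - 2 * w).re := by
      rw [hS]
      simp
      linarith
    have n2 := ne_zero' p2
    have e7 : 2 * rt v = (S v - 1 / 2) + (S v + 1 / 2 - 2 * w) := by rw [hrt]; ring
    rw [e5, hψ, hv2]
    simp only
    exact frac_key n1 n2 hr e7 _ _
  -- the function `φ`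
  set φ : ℂ → ℂ := fun v => if S v ∈ B then ψ v else -f₁ lam c' 2⁻¹ v - k / (v - z₀) with hφ
  have hψd : ∀ v : ℂ, 0 < v.re → S v ∈ B → DifferentiableAt ℂ ψ v := by
    intro v hv hvB
    have hdS := (hSd v hv).differentiableAt
    have hrd := (rt_deriv hv).differentiableAt
    obtain ⟨hha, hhn⟩ := hh _ hvB
    have hr := rt_ne hv
    have p2 : 0 < (S v + 1 / 2 - 2 * w).re := by
      have := rt_re hv
      rw [hS]
      simp
      linarith
    have n2 := ne_zero' p2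
    have d1 : DifferentiableAt ℂ (fun v => deriv h (S v)) v :=
      DifferentiableAt.comp (g := deriv h) (f := S) v hha.deriv.differentiableAt hdS
    have d2 : DifferentiableAt ℂ (fun v => h (S v)) v :=
      DifferentiableAt.comp (g := h) (f := S) v hha.differentiableAt hdS
    refine DifferentiableAt.sub (DifferentiableAt.neg ?_) (DifferentiableAt.mul ?_ ?_)
    · exact (differentiableAt_const _).div (((differentiableAt_const _).mul hrd).mul
        ((hdS.add_const _).sub_const _)) (mul_ne_zero (mul_ne_zero two_ne_zero hr) n2)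
    · exact d1.div d2 hhn
    · exact (differentiableAt_const _).div ((differentiableAt_const _).mul hrd)
        (mul_ne_zero two_ne_zero hr)
  have hφd : ∀ v : ℂ, θ < v.re → DifferentiableAt ℂ φ v := by
    intro v hv
    have hv0 : 0 < v.re := by linarith
    by_cases hvB : S v ∈ B
    · refine (hψd v hv0 hvB).congr_of_eventuallyEq ?_
      filter_upwards [(hSd v hv0).continuousAt.eventually (hBo.mem_nhds hvB)] with z hz
      rw [hφ]
      simp only
      rw [if_pos (show S z ∈ B from hz)]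
    · have hvE := hgeo v hv hvB
      -- near `v` the second formula holds
      have c2 : ContinuousAt (fun v => w + (rt v).re) v :=
        continuousAt_const.add (Complex.continuous_re.continuousAt.comp (rt_deriv hv0).continuousAt)
      have ho : IsOpen {v : ℂ | 0 < v.re} := isOpen_lt continuous_const Complex.continuous_re
      have hQ : {v : ℂ | 0 < v.re ∧ 1 / 2 < w + (rt v).re} ∈ 𝓝 v := by
        filter_upwards [c2.eventually (lt_mem_nhds hvE), ho.mem_nhds hv0] with z hz1 hz2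
        exact ⟨hz2, hz1⟩
      have hf₁ : DifferentiableAt ℂ (f₁ lam c' 2⁻¹) v := by
        obtain ⟨O, hO1, hO2, hO3⟩ := mem_nhds_iff.1 hQ
        have a1 : DifferentiableOn ℂ (f₀ lam c' 2⁻¹) O := fun z hz =>
          (f₀_E E hreal he hw (hO1 hz).1 (hO1 hz).2).1.differentiableAt.differentiableWithinAt
        have a2 := (a1.analyticAt (hO2.mem_nhds hO3)).deriv.differentiableAt
        refine a2.congr_of_eventuallyEq ?_
        filter_upwards [hO2.mem_nhds hO3] with z hz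
        exact (f₀_E E hreal he hw (hO1 hz).1 (hO1 hz).2).1.deriv.symm
      have hne : v - z₀ ≠ 0 := Complex.slitPlane_ne_zero (slit_of hw hv0 hvE)
      have hd : DifferentiableAt ℂ (fun v => -f₁ lam c' 2⁻¹ v - k / (v - z₀)) v :=
        hf₁.neg.sub ((differentiableAt_const _).div (by fun_prop) hne)
      refine hd.congr_of_eventuallyEq ?_
      filter_upwards [hQ] with z hz
      rw [hφ]
      simp only
      split_ifs with h1
      · exact hagree z hz.1 h1 hz.2
      · rfl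
  have hfar : ∀ v : ℂ, θ < v.re → (|w| + δ + 1 / 2) ^ 2 ≤ ‖v‖ → -f₁ lam c' 2⁻¹ v = φ v +
      ∑ z ∈ ({(z₀ : ℂ)} : Finset ℂ), (fun _ => (k : ℂ)) z / (v - z) := by
    intro v hv hv2
    have hnB : S v ∉ B := by
      intro hcon
      have e1 : ‖(w : ℂ) + rt v - 1 / 2‖ < δ := hcon
      have e2 : ‖rt v‖ ≤ ‖(w : ℂ) + rt v - 1 / 2‖ + (|w| + 1 / 2) := by
        have e3 : rt v = ((w : ℂ) + rt v - 1 / 2) + (1 / 2 - w) := by ring
        have e4 : ‖(1 / 2 : ℂ) - w‖ ≤ |w| + 1 / 2 := by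
          refine (norm_sub_le _ _).trans ?_
          rw [Complex.norm_real, Real.norm_eq_abs]
          norm_num
          linarith
        calc ‖rt v‖ = ‖((w : ℂ) + rt v - 1 / 2) + (1 / 2 - w)‖ := by rw [← e3]
          _ ≤ _ := (norm_add_le _ _).trans (by linarith)
      have e5 : ‖rt v‖ < |w| + δ + 1 / 2 := by linarith
      have e6 : ‖rt v‖ ^ 2 < (|w| + δ + 1 / 2) ^ 2 :=
        pow_lt_pow_left₀ e5 (norm_nonneg _) two_ne_zero
      rw [rt_norm] at e6
      linarith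
    rw [Finset.sum_singleton, hφ]
    simp only
    rw [if_neg hnB]
    ring
  obtain ⟨C, hC⟩ := mer_up_c D half_pos' half_lt' hθ hθ' ({(z₀ : ℂ)} : Finset ℂ)
    (fun _ => (k : ℂ)) hφd hfar
  refine ⟨C, fun y hy => ?_⟩
  have e1 := hC y hy
  rw [Finset.sum_singleton, ← TE_eq he] at e1
  have e2 : (TE N α w 2 y : ℂ) - (k : ℂ) * exp ((z₀ : ℂ) * y) =
      ((TE N α w 2 y - k * Real.exp (z₀ * y) : ℝ) : ℂ) := by
    push_cast
    rfl
  rw [e2, Complex.norm_real, Real.norm_eq_abs] at e1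
  exact e1

end

end Pool.Agent.R791.Heat
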