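import Pool.Agent.R791.Heat2

/-!
# Gaussian line integrals and the Poisson formula for a half plane
-/

set_option autoImplicit false

open MeasureTheory Filter Topology Set Complex
open Pool.Agent.TH942.LS (Dat P P_le)
open Pool.Agent.TH942.SL

namespace Pool.Agent.R791.Heat

/-- the Gaussian integral of an exponential -/
lemma V_gauss (σ l : ℝ) {y : ℝ} (hy : 0 < y) :
    V σ (fun z => exp (z ^ 2 * y) * exp (-(z * l))) =
      (((√(4 * Real.pi * y))⁻¹ * Real.exp (-(l ^ 2) / (4 * y)) : ℝ) : ℂ) := by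
  have hpi := Real.pi_pos
  have hyc : (y : ℂ) ≠ 0 := by exact_mod_cast hy.ne'
  unfold V
  have e1 : ∀ t : ℝ, exp (((σ : ℂ) + t * I) ^ 2 * y) * exp (-(((σ : ℂ) + t * I) * l)) =
      exp (-(y : ℂ) * t ^ 2 + (I * (2 * σ * y - l)) * t + (σ ^ 2 * y - σ * l)) := by
    intro t
    rw [← Complex.exp_add]
    congr 1
    have : I ^ 2 = -1 := Complex.I_sq
    linear_combination (t : ℂ) ^ 2 * y * this
  simp only [e1]
  rw [integral_cexp_quadratic (by simpa using hy)]
  have e2 : (σ : ℂ) ^ 2 * y - σ * l - (I * (2 * σ * y - l)) ^ 2 / (4 * -(y : ℂ)) =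
      ((-(l ^ 2) / (4 * y) : ℝ) : ℂ) := by
    push_cast
    have : I ^ 2 = -1 := Complex.I_sq
    rw [mul_pow, this]
    field_simp
    ring
  rw [e2, ← Complex.ofReal_exp]
  have e3 : ((Real.pi : ℂ) / - -(y : ℂ)) ^ (1 / 2 : ℂ) = ((√(Real.pi / y) : ℝ) : ℂ) := by
    rw [neg_neg, Real.sqrt_eq_rpow, Complex.ofReal_cpow (by positivity)]
    push_cast
    rfl
  rw [e3, ← Complex.ofReal_mul, ← Complex.ofReal_mul]
  congr 1
  rw [← mul_assoc]
  congr 1
  have e4 : √(4 * Real.pi * y) = 2 * √Real.pi * √y := by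
    rw [Real.sqrt_mul (by positivity), Real.sqrt_mul (by norm_num)]
    have : √(4 : ℝ) = 2 := by
      rw [show (4 : ℝ) = 2 ^ 2 by norm_num, Real.sqrt_sq (by norm_num)]
    rw [this]
  rw [e4, Real.sqrt_div hpi.le]
  have h1 : 0 < √Real.pi := Real.sqrt_pos.2 hpi
  have h2 : 0 < √y := Real.sqrt_pos.2 hy
  have h3 : √Real.pi * √Real.pi = Real.pi := Real.mul_self_sqrt hpi.le
  field_simp
  nlinarith

/-- the two-sided transform of a simple fraction, at `0` -/
lemma frac_V {p : ℂ} {X : ℝ} (hX : -1 < X) (hp : X < p.re) :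
    V X (fun z => 1 / (z - p) - 1 / (z + 1)) = -1 := by
  set F : ℝ → ℂ := fun y => -(exp (p * (min y 0 : ℝ)) * exp (-((max y 0 : ℝ) : ℂ))) with hF
  have hFc : Continuous F := by rw [hF]; fun_prop
  have hF0 : ∀ y, y ≤ 0 → F y = -exp (p * y) := fun y hy => by
    rw [hF]
    simp only
    rw [max_eq_right hy, min_eq_left hy]
    simp
  have hF1 : ∀ y, 0 ≤ y → F y = -exp (-(y : ℂ)) := fun y hy => by
    rw [hF]
    simp only
    rw [max_eq_left hy, min_eq_right hy]
    simp
  have hwhole : ∀ v : ℂ, v.re = X → Integrable (fun y : ℝ => exp (-(v * y)) * F y) ∧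
      ∫ y : ℝ, exp (-(v * y)) * F y = 1 / (v - p) - 1 / (v + 1) := by
    intro v hv
    have a1 : 0 < (p - v).re := by rw [Complex.sub_re, hv]; linarith
    have a2 : (-1 - v).re < 0 := by rw [Complex.sub_re, hv]; simp; linarith
    have n1 : v - p ≠ 0 := fun h => by
      have : (v - p).re = 0 := by rw [h]; simp
      rw [Complex.sub_re, hv] at this
      linarith
    have n2 : v + 1 ≠ 0 := fun h => by
      have : (v + 1).re = 0 := by rw [h]; simp
      rw [Complex.add_re, hv] at this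
      simp at this
      linarith
    have i1 := integrableOn_exp_mul_complex_Iic a1 0
    have i2 := integrableOn_exp_mul_complex_Ioi a2 0
    have e1 : ∀ y ∈ Iic (0 : ℝ), -exp ((p - v) * y) = exp (-(v * y)) * F y := by
      intro y hy
      rw [hF0 y hy, mul_neg, ← Complex.exp_add]
      congr 2
      ring
    have e2 : ∀ y ∈ Ioi (0 : ℝ), -exp ((-1 - v) * y) = exp (-(v * y)) * F y := by
      intro y hy
      rw [hF1 y (le_of_lt hy), mul_neg, ← Complex.exp_add]
      congr 2
      ring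
    have j1 : IntegrableOn (fun y : ℝ => exp (-(v * y)) * F y) (Iic 0) :=
      i1.neg.congr_fun e1 measurableSet_Iic
    have j2 : IntegrableOn (fun y : ℝ => exp (-(v * y)) * F y) (Ioi 0) :=
      i2.neg.congr_fun e2 measurableSet_Ioi
    refine ⟨by rw [← integrableOn_univ, ← Iic_union_Ioi (a := (0 : ℝ))]; exact j1.union j2, ?_⟩
    rw [← setIntegral_univ, ← Iic_union_Ioi (a := (0 : ℝ)),
      setIntegral_union (Set.Iic_disjoint_Ioi le_rfl) measurableSet_Ioi j1 j2,
      ← setIntegral_congr_fun measurableSet_Iic e1, ← setIntegral_congr_fun measurableSet_Ioi e2,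
      integral_neg, integral_neg, integral_exp_mul_complex_Iic a1, integral_exp_mul_complex_Ioi a2]
    have n3 : p - v ≠ 0 := fun h => n1 (by rw [← neg_sub, h, neg_zero])
    have n4 : -1 - v ≠ 0 := fun h => n2 (by
      have : v + 1 = -(-1 - v) := by ring
      rw [this, h, neg_zero])
    simp only [Complex.ofReal_zero, mul_zero, Complex.exp_zero]
    field_simp
    ring
  have hre : ∀ t : ℝ, ((X : ℂ) + t * I).re = X := fun t => by simp
  set H : ℂ → ℂ := fun z => 1 / (z - p) - 1 / (z + 1) with hH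
  -- integrability on the line
  have hHi : Integrable fun t : ℝ => H (X + t * I) := by
    set η : ℝ := p.re - X with hη
    have hη0 : 0 < η := by rw [hη]; linarith
    set η' : ℝ := X + 1 with hη'
    have hη'0 : 0 < η' := by rw [hη']; linarith
    refine line_int (H := H) (p := 2) (B := ‖p + 1‖ * (((1 + |p.im|) / η + 1) * (1 / η' + 1)))
      (by norm_num) (fun s hs => ?_) fun s hs => ?_
    · have n1 : s - p ≠ 0 := fun h => by
        have : (s - p).re = 0 := by rw [h]; simp
        rw [Complex.sub_re, hs] at this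
        linarith
      have n2 : s + 1 ≠ 0 := fun h => by
        have : (s + 1).re = 0 := by rw [h]; simp
        rw [Complex.add_re, hs] at this
        simp at this
        linarith
      rw [hH]
      exact ContinuousAt.sub (ContinuousAt.div continuousAt_const (by fun_prop) n1)
        (ContinuousAt.div continuousAt_const (by fun_prop) n2)
    · have h1 : η ≤ ‖s - p‖ := by
        have := abs_re_le_norm (s - p)
        rw [Complex.sub_re, hs, abs_sub_comm] at this
        exact (le_abs_self _).trans this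
      have h2 : η' ≤ ‖s - (-1)‖ := by
        have := re_le_norm (s + 1)
        rw [Complex.add_re, hs] at this
        rw [sub_neg_eq_add]
        exact this
      have e1 := frac_ge hη0 h1
      have e2 := frac_ge hη'0 h2
      simp only [neg_im, one_im, neg_zero, abs_zero, add_zero, sub_neg_eq_add] at e2
      have p1 : 0 < ‖s - p‖ := hη0.trans_le h1
      have p2 : 0 < ‖s + 1‖ := by rw [sub_neg_eq_add] at h2; exact hη'0.trans_le h2
      have n1 : s - p ≠ 0 := norm_pos_iff.1 p1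
      have n2 : s + 1 ≠ 0 := norm_pos_iff.1 p2
      have e3 : H s = (p + 1) / ((s - p) * (s + 1)) := by
        rw [hH]
        simp only
        field_simp
        ring
      have h5 : 0 < 1 + |s.im| := by positivity
      rw [e3, norm_div, norm_mul, Real.rpow_neg h5.le, ← div_eq_mul_inv,
        div_le_div_iff₀ (by positivity) (by positivity)]
      have e4 : (1 + |s.im|) ^ (2 : ℝ) = (1 + |s.im|) * (1 + |s.im|) := by
        rw [show (2 : ℝ) = ((2 : ℕ) : ℝ) by norm_num, Real.rpow_natCast]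
        ring
      rw [e4, mul_assoc]
      refine mul_le_mul_of_nonneg_left ?_ (norm_nonneg _)
      calc (1 + |s.im|) * (1 + |s.im|) ≤ (((1 + |p.im|) / η + 1) * ‖s - p‖) *
            ((1 / η' + 1) * ‖s + 1‖) := mul_le_mul e1 e2 h5.le (by positivity)
        _ = _ := by ring
  have key := bromwich (F := F) (x := X) (H := H) hFc (hwhole (X : ℂ) (Complex.ofReal_re X)).1
    (fun t => (hwhole _ (hre t)).2) hHi 0
  rw [hF0 0 le_rfl] at key
  simpa using key

/-- **the Poisson formula** -/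
theorem poisson {G : ℂ → ℂ} {C x : ℝ} (hx : 0 ≤ x) (hG : ∀ z : ℂ, x ≤ z.re → DifferentiableAt ℂ G z)
    (hb : ∀ z : ℂ, x ≤ z.re → ‖G z‖ ≤ C * (1 + ‖z‖) ^ (1 / 2 : ℝ)) {p : ℂ} (hp : x < p.re) :
    V x (fun z => G z / (p ^ 2 - z ^ 2)) = G p / (2 * p) := by
  have hC0 : 0 ≤ C := by
    have h1 := (norm_nonneg _).trans (hb x (by simp))
    have h2 : 0 < (1 + ‖(x : ℂ)‖) ^ (1 / 2 : ℝ) := by positivity
    exact (mul_nonneg_iff_of_pos_right h2).1 h1
  have hp0 : p ≠ 0 := fun h => by rw [h] at hp; simp at hp; linarith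
  have hn0 : 0 < ‖p‖ := norm_pos_iff.2 hp0
  set k : ℂ → ℂ := fun z => -(G z / (z + p)) with hk
  have hzp : ∀ z : ℂ, x ≤ z.re → z + p ≠ 0 := fun z hz h => by
    have : (z + p).re = 0 := by rw [h]; simp
    rw [Complex.add_re] at this
    linarith
  have hz1 : ∀ z : ℂ, x ≤ z.re → z + 1 ≠ 0 := fun z hz h => by
    have : (z + 1).re = 0 := by rw [h]; simp
    rw [Complex.add_re, Complex.one_re] at this
    linarith
  have hkd : ∀ z : ℂ, x ≤ z.re → DifferentiableAt ℂ k z := fun z hz =>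
    ((hG z hz).div (by fun_prop) (hzp z hz)).neg
  set h₁ : ℂ → ℂ := fun z => dslope k p z + k p / (z + 1) with hh₁
  have hkp : k p = -(G p / (2 * p)) := by
    rw [hk]
    simp only
    ring_nf
  -- differentiability
  have hopen : IsOpen {z : ℂ | x < z.re} := isOpen_lt continuous_const Complex.continuous_re
  have hd₁ : ∀ z : ℂ, x ≤ z.re → DifferentiableAt ℂ h₁ z := by
    intro z hz
    refine DifferentiableAt.add ?_ ((differentiableAt_const _).div (by fun_prop) (hz1 z hz))
    by_cases hzp : z = p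
    · rw [hzp]
      have h2 : DifferentiableOn ℂ k {z : ℂ | x < z.re} := fun w hw =>
        (hkd w (le_of_lt hw)).differentiableWithinAt
      have h3 := (Complex.differentiableOn_dslope (hopen.mem_nhds hp)).2 h2
      exact h3.differentiableAt (hopen.mem_nhds hp)
    · exact (differentiableAt_dslope_of_ne hzp).2 (hkd z hz)
  -- the formula away from `p`
  have hform : ∀ z : ℂ, x ≤ z.re → z ≠ p → h₁ z = G z / (p ^ 2 - z ^ 2) -
      k p * (1 / (z - p) - 1 / (z + 1)) := by
    intro z hz hne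
    rw [hh₁]
    simp only
    rw [dslope_of_ne _ hne, slope_def_field, hk]
    simp only
    have n1 : z - p ≠ 0 := sub_ne_zero.2 hne
    have n2 := hzp z hz
    have n3 := hz1 z hz
    have n4 : p ^ 2 - z ^ 2 ≠ 0 := by
      have : p ^ 2 - z ^ 2 = -((z - p) * (z + p)) := by ring
      rw [this]
      exact neg_ne_zero.2 (mul_ne_zero n1 n2)
    have e1 : G z / (p ^ 2 - z ^ 2) = -(G z / (z + p)) / (z - p) := by
      have : p ^ 2 - z ^ 2 = -((z - p) * (z + p)) := by ring
      rw [this]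
      field_simp
    rw [e1]
    ring
  -- the bound
  set R : ℝ := 2 * ‖p‖ + 3 with hR
  have hbd : ∃ B : ℝ, 0 ≤ B ∧ ∀ z : ℂ, x ≤ z.re →
      ‖h₁ z‖ ≤ B * (1 + ‖z‖) ^ (-(3 / 2) : ℝ) := by
    set Kc : Set ℂ := {z : ℂ | x ≤ z.re} ∩ Metric.closedBall 0 R with hKc
    have hKcomp : IsCompact Kc := (isCompact_closedBall 0 R).inter_left
      (isClosed_le continuous_const Complex.continuous_re)
    obtain ⟨C₀, hC₀⟩ := hKcomp.exists_bound_of_continuousOn (f := h₁) fun v hv =>
      (hd₁ v hv.1).continuousAt.continuousWithinAt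
    refine ⟨|C₀| * (1 + R) ^ (3 / 2 : ℝ) + (4 * C + ‖k p‖ * (2 * ‖p + 1‖ * 2)), by positivity,
      fun z hz => ?_⟩
    have h0 : 0 < 1 + ‖z‖ := by positivity
    rcases le_total ‖z‖ R with h | h
    · have e1 := hC₀ z ⟨hz, by rw [mem_closedBall_zero_iff]; exact h⟩
      have e2 : 1 ≤ (1 + R) ^ (3 / 2 : ℝ) * (1 + ‖z‖) ^ (-(3 / 2) : ℝ) := by
        rw [Real.rpow_neg h0.le, ← div_eq_mul_inv, le_div_iff₀ (by positivity), one_mul]
        exact Real.rpow_le_rpow h0.le (by linarith) (by norm_num)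
      have e3 : 0 ≤ (4 * C + ‖k p‖ * (2 * ‖p + 1‖ * 2)) * (1 + ‖z‖) ^ (-(3 / 2) : ℝ) := by
        positivity
      calc ‖h₁ z‖ ≤ |C₀| * 1 := by rw [mul_one]; exact e1.trans (le_abs_self _)
        _ ≤ |C₀| * ((1 + R) ^ (3 / 2 : ℝ) * (1 + ‖z‖) ^ (-(3 / 2) : ℝ)) :=
          mul_le_mul_of_nonneg_left e2 (abs_nonneg _)
        _ ≤ _ := by rw [add_mul, mul_assoc]; linarith
    · have hne : z ≠ p := by
        intro hcon
        rw [hcon] at h
        linarith
      rw [hform z hz hne]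
      have e1 : (1 + ‖z‖) / 2 ≤ ‖z - p‖ := by
        have := norm_sub_norm_le z p
        linarith
      have e2 : (1 + ‖z‖) / 2 ≤ ‖z + p‖ := by
        have := norm_sub_norm_le z (-p)
        rw [norm_neg, sub_neg_eq_add] at this
        linarith
      have e3 : (1 + ‖z‖) / 2 ≤ ‖z + 1‖ := by
        have := norm_sub_norm_le z (-1)
        rw [norm_neg, norm_one, sub_neg_eq_add] at this
        linarith
      have p1 : 0 < ‖z - p‖ := by linarith
      have p2 : 0 < ‖z + p‖ := by linarith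
      have p3 : 0 < ‖z + 1‖ := by linarith
      have n1 : z - p ≠ 0 := norm_pos_iff.1 p1
      have n3 : z + 1 ≠ 0 := norm_pos_iff.1 p3
      have hh2 : (1 + ‖z‖) ^ (-(3 / 2) : ℝ) = (1 + ‖z‖) ^ (1 / 2 : ℝ) / (1 + ‖z‖) ^ 2 := by
        rw [show (-(3 / 2) : ℝ) = 1 / 2 - 2 by norm_num, Real.rpow_sub h0]
        congr 1
        rw [show (2 : ℝ) = ((2 : ℕ) : ℝ) by norm_num, Real.rpow_natCast]
      have t1 : ‖G z / (p ^ 2 - z ^ 2)‖ ≤ 4 * C * (1 + ‖z‖) ^ (-(3 / 2) : ℝ) := by
        have e4 : p ^ 2 - z ^ 2 = -((z - p) * (z + p)) := by ring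
        rw [e4, norm_div, norm_neg, norm_mul, hh2]
        have e5 : ((1 + ‖z‖) / 2) * ((1 + ‖z‖) / 2) ≤ ‖z - p‖ * ‖z + p‖ :=
          mul_le_mul e1 e2 (by positivity) (norm_nonneg _)
        rw [div_le_iff₀ (by positivity)]
        have e6 := hb z hz
        have e7 : 0 ≤ 4 * C * ((1 + ‖z‖) ^ (1 / 2 : ℝ) / (1 + ‖z‖) ^ 2) := by positivity
        calc ‖G z‖ ≤ C * (1 + ‖z‖) ^ (1 / 2 : ℝ) := e6
          _ = 4 * C * ((1 + ‖z‖) ^ (1 / 2 : ℝ) / (1 + ‖z‖) ^ 2) *
              (((1 + ‖z‖) / 2) * ((1 + ‖z‖) / 2)) := by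
            field_simp
            ring
          _ ≤ _ := mul_le_mul_of_nonneg_left e5 e7
      have t2 : ‖k p * (1 / (z - p) - 1 / (z + 1))‖ ≤
          ‖k p‖ * (2 * ‖p + 1‖ * 2) * (1 + ‖z‖) ^ (-(3 / 2) : ℝ) := by
        have e4 : 1 / (z - p) - 1 / (z + 1) = (p + 1) / ((z - p) * (z + 1)) := by
          field_simp
          ring
        rw [e4, norm_mul, norm_div, norm_mul, mul_assoc ‖k p‖]
        refine mul_le_mul_of_nonneg_left ?_ (norm_nonneg _)
        have e5 : ((1 + ‖z‖) / 2) * ((1 + ‖z‖) / 2) ≤ ‖z - p‖ * ‖z + 1‖ :=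
          mul_le_mul e1 e3 (by positivity) (norm_nonneg _)
        rw [div_le_iff₀ (by positivity), hh2]
        have e6 : (1 : ℝ) ≤ (1 + ‖z‖) ^ (1 / 2 : ℝ) :=
          Real.one_le_rpow (by have := norm_nonneg z; linarith) (by norm_num)
        have e7 : 0 ≤ 2 * ‖p + 1‖ * 2 * ((1 + ‖z‖) ^ (1 / 2 : ℝ) / (1 + ‖z‖) ^ 2) := by positivity
        calc ‖p + 1‖ ≤ ‖p + 1‖ * (1 + ‖z‖) ^ (1 / 2 : ℝ) :=
              le_mul_of_one_le_right (norm_nonneg _) e6
          _ = 2 * ‖p + 1‖ * 2 * ((1 + ‖z‖) ^ (1 / 2 : ℝ) / (1 + ‖z‖) ^ 2) *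
              (((1 + ‖z‖) / 2) * ((1 + ‖z‖) / 2)) := by
            field_simp
          _ ≤ _ := mul_le_mul_of_nonneg_left e5 e7
      refine (norm_sub_le _ _).trans ?_
      have t3 : 0 ≤ |C₀| * (1 + R) ^ (3 / 2 : ℝ) * (1 + ‖z‖) ^ (-(3 / 2) : ℝ) := by positivity
      rw [add_mul, add_mul]
      linarith
  obtain ⟨B, hB0, hB⟩ := hbd
  -- shift to the right
  have hsplit : ∀ z : ℂ, x ≤ z.re → (1 + ‖z‖) ^ (-(3 / 2) : ℝ) ≤
      (1 + z.re) ^ (-(1 / 4) : ℝ) * (1 + |z.im|) ^ (-(5 / 4) : ℝ) := by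
    intro z hz
    have h0 : 0 < 1 + ‖z‖ := by positivity
    rw [show (-(3 / 2) : ℝ) = -(1 / 4) + -(5 / 4) by norm_num, Real.rpow_add h0]
    refine mul_le_mul ?_ ?_ (by positivity) (Real.rpow_nonneg (by linarith) _)
    · refine Real.rpow_le_rpow_of_nonpos (by linarith) ?_ (by norm_num)
      have := re_le_norm z
      linarith
    · refine Real.rpow_le_rpow_of_nonpos (by positivity) ?_ (by norm_num)
      have := abs_im_le_norm z
      linarith
  have hzero : V x h₁ = 0 := by
    have hlim : Tendsto (fun R : ℝ => (2 * Real.pi)⁻¹ * ((B * (1 + R) ^ (-(1 / 4) : ℝ)) *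
        ∫ t : ℝ, (1 + |t|) ^ (-(5 / 4) : ℝ))) atTop (𝓝 0) := by
      have h1 : Tendsto (fun R : ℝ => 1 + R) atTop atTop :=
        tendsto_atTop_add_const_left _ _ tendsto_id
      have h2 := (tendsto_rpow_neg_atTop (y := 1 / 4) (by norm_num)).comp h1
      have h3 := ((h2.const_mul B).mul_const (∫ t : ℝ, (1 + |t|) ^ (-(5 / 4) : ℝ))).const_mul
        ((2 * Real.pi)⁻¹)
      simpa using h3
    have hle : ∀ R : ℝ, x ≤ R → ‖V x h₁‖ ≤ (2 * Real.pi)⁻¹ * ((B * (1 + R) ^ (-(1 / 4) : ℝ)) *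
        ∫ t : ℝ, (1 + |t|) ^ (-(5 / 4) : ℝ)) := by
      intro R hR
      have e1 : V x h₁ = V R h₁ := by
        refine shift (p := 5 / 4) (B := B) (by norm_num) hR (fun s hs _ => hd₁ s hs)
          fun s hs _ => (hB s hs).trans ?_
        refine mul_le_mul_of_nonneg_left ((hsplit s hs).trans ?_) hB0
        refine mul_le_of_le_one_left (by positivity) ?_
        exact Real.rpow_le_one_of_one_le_of_nonpos (by linarith) (by norm_num)
      rw [e1, ← integral_const_mul]
      refine norm_V_le ((decay_int (p := 5 / 4) (by norm_num)).const_mul _) fun t => ?_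
      have e2 : ((R : ℂ) + t * I).re = R := by simp
      have e3 : ((R : ℂ) + t * I).im = t := by simp
      refine (hB _ (by rw [e2]; exact hR)).trans ?_
      have e4 := hsplit ((R : ℂ) + t * I) (by rw [e2]; exact hR)
      rw [e2, e3] at e4
      rw [mul_assoc]
      exact mul_le_mul_of_nonneg_left e4 hB0
    have h0 : ‖V x h₁‖ ≤ 0 := ge_of_tendsto hlim (by
      filter_upwards [eventually_ge_atTop x] with R hR
      exact hle R hR)
    exact norm_le_zero_iff.1 h0
  -- conclusion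
  have hline : ∀ t : ℝ, (x : ℂ) + t * I ≠ p := fun t h => by
    have : ((x : ℂ) + t * I).re = p.re := by rw [h]
    simp at this
    linarith
  have hre0 : ∀ t : ℝ, x ≤ ((x : ℂ) + t * I).re := fun t => by simp
  have e1 : ∀ t : ℝ, G ((x : ℂ) + t * I) / (p ^ 2 - ((x : ℂ) + t * I) ^ 2) =
      h₁ ((x : ℂ) + t * I) + k p * (1 / (((x : ℂ) + t * I) - p) -
        1 / (((x : ℂ) + t * I) + 1)) := fun t => by
    rw [hform _ (hre0 t) (hline t)]
    ring
  have i1 : Integrable fun t : ℝ => h₁ ((x : ℂ) + t * I) :=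
    line_int (p := 5 / 4) (B := B) (by norm_num) (fun s hs => (hd₁ s hs.ge).continuousAt)
      fun s hs => (hB s hs.ge).trans (mul_le_mul_of_nonneg_left ((hsplit s hs.ge).trans
        (mul_le_of_le_one_left (by positivity)
          (Real.rpow_le_one_of_one_le_of_nonpos (by linarith [hs.ge]) (by norm_num)))) hB0)
  have i2 : Integrable fun t : ℝ => k p * (1 / (((x : ℂ) + t * I) - p) -
      1 / (((x : ℂ) + t * I) + 1)) := by
    refine Integrable.const_mul ?_ _
    obtain ⟨B₂, hB₂0, hB₂⟩ := frac_bound p (sub_pos.2 hp)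
    refine line_int (H := fun z => 1 / (z - p) - 1 / (z + 1)) (p := 2) (B := B₂) (by norm_num)
      (fun s hs => ?_) fun s hs => hB₂ s (hx.trans hs.ge) ?_
    · have n1 : s - p ≠ 0 := fun h => by
        have : (s - p).re = 0 := by rw [h]; simp
        rw [Complex.sub_re, hs] at this
        linarith
      exact ContinuousAt.sub (ContinuousAt.div continuousAt_const (by fun_prop) n1)
        (ContinuousAt.div continuousAt_const (by fun_prop) (hz1 s hs.ge))
    · have := abs_re_le_norm (s - p)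
      rw [Complex.sub_re, hs, abs_sub_comm] at this
      exact (le_abs_self _).trans this
  have e2 := frac_V (p := p) (X := x) (by linarith) hp
  unfold V at hzero e2 ⊢
  simp only [e1]
  rw [integral_add i1 i2, mul_add, hzero, integral_const_mul, mul_left_comm, e2, hkp]
  ring

end Pool.Agent.R791.Heat
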