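import Pool.Agent.R791.Fe9

/-!
# The equivalence
-/

set_option autoImplicit false

open MeasureTheory Filter Topology Set Complex

namespace Pool.Agent.R791.Fe

open Pool.Agent.R791.Heat H370

variable {F₀ : ℂ → ℂ} {a x C : ℝ}

/-- the expansion of a function with a functional equation -/
theorem exp_of (H : FD F₀ a x C) {G : ℂ → ℂ} (hm : ∀ z, MeromorphicAt G z)
    (hG : ∀ z : ℂ, a < z.re → G z = F₀ z) {ε : ℂ} (hε : ε ≠ 0) (hfe : ∀ z, G (-z) = ε * G z)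
    {Q : ℂ → ℤ → Prop} (hQ : ∀ ρ : ℂ, meromorphicOrderAt G ρ ≠ 0 →
      (ρ ^ 2 ≠ 0 → Q (ρ ^ 2) (2 * (meromorphicOrderAt G ρ).untop₀)) ∧
      (ρ ^ 2 = 0 → Q (ρ ^ 2) (meromorphicOrderAt G ρ).untop₀)) :
    Exp Q fun y => 2 * hw F₀ x y := by
  intro B
  obtain ⟨F, hnf, hFF, hFe, hFeq, -⟩ := nf_fe hm H.diff hG hε fun z =>
    Eventually.of_forall fun w => hfe w
  have ho : ∀ z, meromorphicOrderAt F z = meromorphicOrderAt G z := fun z =>
    meromorphicOrderAt_congr (hFeq z)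
  obtain ⟨T, C₁, hT1, -, hT3, hT4⟩ := box_expand H hnf hFF hε hFe B
  obtain ⟨S, k, hS, hsum⟩ := collect T hT3 (fun z => (meromorphicOrderAt F z).untop₀)
    fun z => by rw [ord_neg hε hFe]
  refine ⟨S, k, C₁, fun ζ hζ => ?_, ?_⟩
  · obtain ⟨ρ, hρ, hρζ, h1, h2⟩ := hS ζ hζ
    have h3 := hT1 ρ hρ
    rw [ho] at h3
    rw [← hρζ]
    by_cases h0 : ρ ^ 2 = 0
    · rw [hρζ, h2 (by rw [← hρζ]; exact h0), ← hρζ, ho]
      exact (hQ ρ h3).2 h0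
    · rw [hρζ, h1 (by rw [← hρζ]; exact h0), ← hρζ, ho]
      exact (hQ ρ h3).1 h0
  · filter_upwards [eventually_ge_atTop 1] with y hy
    have h1 := hT4 y hy
    rw [hsum fun ζ => exp (ζ * y)] at h1
    exact h1

/-- **the equivalence** -/
theorem fe_iff (H : FD F₀ a x C) (Ap An : Set ℂ) :
    (∃ G : ℂ → ℂ, (∀ z, MeromorphicAt G z) ∧ (∀ z : ℂ, a < z.re → G z = F₀ z) ∧
      (∃ ε : ℂ, (ε = 1 ∨ ε = -1) ∧ ∀ z, G (-z) = ε * G z) ∧
      ∀ z, (0 < meromorphicOrderAt G z → z ^ 2 ∈ Ap) ∧ (meromorphicOrderAt G z < 0 → z ^ 2 ∈ An)) ↔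
    Exp (fun ζ m => (ζ ≠ 0 → Even m) ∧ (0 < m → ζ ∈ Ap) ∧ (m < 0 → ζ ∈ An))
      fun y => 2 * hw F₀ x y := by
  constructor
  · rintro ⟨G, hm, hG, ⟨ε, hε, hfe⟩, hA⟩
    have hε0 : ε ≠ 0 := by rcases hε with h | h <;> rw [h] <;> simp
    refine exp_of H hm hG hε0 hfe fun ρ _ => ⟨fun _ => ⟨fun _ => even_two_mul _, fun h => ?_,
      fun h => ?_⟩, fun h0 => ⟨fun h1 => absurd h0 h1, fun h => ?_, fun h => ?_⟩⟩
    · refine (hA ρ).1 ?_
      have h1 : 0 < (meromorphicOrderAt G ρ).untop₀ := by omega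
      have h2 : meromorphicOrderAt G ρ ≠ ⊤ := fun h3 => by
        rw [h3] at h1
        exact lt_irrefl _ h1
      lift meromorphicOrderAt G ρ to ℤ using h2 with o ho
      exact_mod_cast h1
    · refine (hA ρ).2 ?_
      have h1 : (meromorphicOrderAt G ρ).untop₀ < 0 := by omega
      have h2 : meromorphicOrderAt G ρ ≠ ⊤ := fun h3 => by
        rw [h3] at h1
        exact lt_irrefl _ h1
      lift meromorphicOrderAt G ρ to ℤ using h2 with o ho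
      exact_mod_cast h1
    · refine (hA ρ).1 ?_
      have h2 : meromorphicOrderAt G ρ ≠ ⊤ := fun h3 => by
        rw [h3] at h
        exact lt_irrefl _ h
      lift meromorphicOrderAt G ρ to ℤ using h2 with o ho
      exact_mod_cast h
    · refine (hA ρ).2 ?_
      have h2 : meromorphicOrderAt G ρ ≠ ⊤ := fun h3 => by
        rw [h3] at h
        exact lt_irrefl _ h
      lift meromorphicOrderAt G ρ to ℤ using h2 with o ho
      exact_mod_cast h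
  · intro h
    obtain ⟨F, hnf, hFF, hFe, hF⟩ := glue_fe H (fun ζ m hQ => hQ.1) h
    refine ⟨F, fun z => (hnf z).meromorphicAt, hFF, hFe, fun z => ⟨fun hz => ?_, fun hz => ?_⟩⟩
    · obtain ⟨m, hm, hQ⟩ := (hF z).1 hz
      exact hQ.2.1 hm
    · obtain ⟨m, hm, hQ⟩ := (hF z).2 hz
      exact hQ.2.2 hm

/-- **the equivalence for entire functions** -/
theorem fe_iff_entire (H : FD F₀ a x C) (Ap : Set ℂ) :
    (∃ G : ℂ → ℂ, Differentiable ℂ G ∧ (∀ z : ℂ, a < z.re → G z = F₀ z) ∧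
      (∃ ε : ℂ, (ε = 1 ∨ ε = -1) ∧ ∀ z, G (-z) = ε * G z) ∧ ∀ z, G z = 0 → z ^ 2 ∈ Ap) ↔
    Exp (fun ζ m => (ζ ≠ 0 → Even m) ∧ 0 ≤ m ∧ (0 < m → ζ ∈ Ap)) fun y => 2 * hw F₀ x y := by
  have h1 : (Exp (fun ζ m => (ζ ≠ 0 → Even m) ∧ 0 ≤ m ∧ (0 < m → ζ ∈ Ap))
      fun y => 2 * hw F₀ x y) ↔ Exp (fun ζ m => (ζ ≠ 0 → Even m) ∧ (0 < m → ζ ∈ Ap) ∧
        (m < 0 → ζ ∈ (∅ : Set ℂ))) fun y => 2 * hw F₀ x y := by
    have : (fun (ζ : ℂ) (m : ℤ) => (ζ ≠ 0 → Even m) ∧ 0 ≤ m ∧ (0 < m → ζ ∈ Ap)) =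
        fun (ζ : ℂ) (m : ℤ) => (ζ ≠ 0 → Even m) ∧ (0 < m → ζ ∈ Ap) ∧ (m < 0 → ζ ∈ (∅ : Set ℂ)) := by
      funext ζ m
      refine propext ⟨fun h => ⟨h.1, h.2.2, fun hm => absurd h.2.1 (not_le.2 hm)⟩,
        fun h => ⟨h.1, ?_, h.2.1⟩⟩
      by_contra hm
      exact h.2.2 (not_le.1 hm)
    rw [this]
  rw [h1]
  constructor
  · rintro ⟨G, hd, hG, hfe, hA⟩
    refine (fe_iff H Ap ∅).1 ⟨G, fun z => (hd.analyticAt z).meromorphicAt, hG, hfe, fun z =>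
      ⟨fun hz => hA z ?_, fun hz => ?_⟩⟩
    · by_contra hcon
      rw [(hd.analyticAt z).meromorphicOrderAt_eq,
        (hd.analyticAt z).analyticOrderAt_eq_zero.2 hcon] at hz
      exact lt_irrefl _ hz
    · exact absurd hz (not_lt.2 (AnalyticAt.meromorphicOrderAt_nonneg (hd.analyticAt z)))
  · intro h
    obtain ⟨F, hnf, hFF, hFe, hF⟩ := glue_fe H (fun ζ m hQ => hQ.1) h
    have hnn : ∀ z, 0 ≤ meromorphicOrderAt F z := by
      intro z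
      by_contra hcon
      obtain ⟨m, hm, hQ⟩ := (hF z).2 (not_le.1 hcon)
      exact hQ.2.2 hm
    refine ⟨F, fun z => ((hnf z).meromorphicOrderAt_nonneg_iff_analyticAt.1 (hnn z)).differentiableAt,
      hFF, hFe, fun z hz => ?_⟩
    have h2 : meromorphicOrderAt F z ≠ 0 := fun h3 =>
      ((hnf z).meromorphicOrderAt_eq_zero_iff.1 h3) hz
    obtain ⟨m, hm, hQ⟩ := (hF z).1 (lt_of_le_of_ne (hnn z) (Ne.symm h2))
    exact hQ.2.1 hm

/-- **the expansion with all zeros and poles** -/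
theorem exact_exp (H : FD F₀ a x C) {G : ℂ → ℂ} (hm : ∀ z, MeromorphicAt G z)
    (hG : ∀ z : ℂ, a < z.re → G z = F₀ z) {ε : ℂ} (hε : ε ≠ 0) (hfe : ∀ z, G (-z) = ε * G z)
    (B : ℝ) :
    ∃ (hfin : {z : ℂ | -B < (z ^ 2).re ∧ meromorphicOrderAt G z ≠ 0}.Finite) (C₁ : ℝ),
      ∀ y : ℝ, 1 ≤ y → ‖2 * hw F₀ x y - ∑ z ∈ hfin.toFinset,
        ((meromorphicOrderAt G z).untop₀ : ℂ) * exp (z ^ 2 * y)‖ ≤ C₁ * Real.exp (-(B * y)) := by
  classical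
  obtain ⟨F, hnf, hFF, hFe, hFeq, -⟩ := nf_fe hm H.diff hG hε fun z =>
    Eventually.of_forall fun w => hfe w
  have ho : ∀ z, meromorphicOrderAt F z = meromorphicOrderAt G z := fun z =>
    meromorphicOrderAt_congr (hFeq z)
  obtain ⟨T, C₁, hT1, hT2, hT3, hT4⟩ := box_expand H hnf hFF hε hFe B
  simp only [ho] at hT1 hT2 hT4
  have hfin : {z : ℂ | -B < (z ^ 2).re ∧ meromorphicOrderAt G z ≠ 0}.Finite :=
    T.finite_toSet.subset fun z hz => hT2 z hz.1 hz.2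
  refine ⟨hfin, C₁ + ∑ z ∈ T, ‖((meromorphicOrderAt G z).untop₀ : ℂ)‖, fun y hy => ?_⟩
  have hy0 : 0 ≤ y := by linarith
  have hsub : hfin.toFinset ⊆ T := fun z hz => by
    rw [Set.Finite.mem_toFinset] at hz
    exact hT2 z hz.1 hz.2
  have h1 := hT4 y hy
  have h2 : ‖∑ z ∈ T \ hfin.toFinset, ((meromorphicOrderAt G z).untop₀ : ℂ) * exp (z ^ 2 * y)‖ ≤
      (∑ z ∈ T, ‖((meromorphicOrderAt G z).untop₀ : ℂ)‖) * Real.exp (-(B * y)) := by
    refine (norm_sum_le _ _).trans ?_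
    rw [Finset.sum_mul]
    refine (Finset.sum_le_sum fun z hz => ?_).trans
      (Finset.sum_le_sum_of_subset_of_nonneg (Finset.sdiff_subset (t := hfin.toFinset))
        fun z _ _ => by positivity)
    rw [Finset.mem_sdiff, Set.Finite.mem_toFinset] at hz
    rw [norm_mul, Complex.norm_exp, Complex.re_mul_ofReal]
    refine mul_le_mul_of_nonneg_left (Real.exp_le_exp.2 ?_) (norm_nonneg _)
    have h3 : (z ^ 2).re ≤ -B := by
      by_contra hcon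
      exact hz.2 ⟨not_le.1 hcon, hT1 z hz.1⟩
    nlinarith
  rw [← Finset.sum_sdiff hsub] at h1
  have h3 : 2 * hw F₀ x y - ∑ z ∈ hfin.toFinset,
      ((meromorphicOrderAt G z).untop₀ : ℂ) * exp (z ^ 2 * y) =
      (2 * hw F₀ x y - (∑ z ∈ T \ hfin.toFinset, ((meromorphicOrderAt G z).untop₀ : ℂ) *
        exp (z ^ 2 * y) + ∑ z ∈ hfin.toFinset,
          ((meromorphicOrderAt G z).untop₀ : ℂ) * exp (z ^ 2 * y))) +
      ∑ z ∈ T \ hfin.toFinset, ((meromorphicOrderAt G z).untop₀ : ℂ) * exp (z ^ 2 * y) := by ring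
  rw [h3, add_mul]
  exact (norm_add_le _ _).trans (add_le_add h1 h2)

end Pool.Agent.R791.Fe
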