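import Pool.Agent.R791.Fe9
import Pool.Agent.R791.Fe10

/-!
# Completed L-functions: the functional equation
-/

set_option autoImplicit false

open MeasureTheory Filter Topology Set Complex

namespace Pool.Agent.R791.Fe

open Pool.Agent.R791.Heat Pool.Agent.R791.Frob NumberField IsDedekindDomain H370

variable {K : Type} [Field K] [NumberField K] {d : ℕ} {c : ℝ} {V : Frobenius K d c}
  (L : Completion V)

/-- convergence -/
theorem conv {y : ℝ} (hy : 0 < y) : Summable (V.heatTerm c y) ∧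
    (∀ j, Summable fun k : ℕ => L.root j ^ (k + 1) *
      ((Real.log (L.q j) * (L.q j ^ (-c)) ^ (k + 1) *
        Real.exp (-(((k : ℝ) + 1) * Real.log (L.q j)) ^ 2 / (4 * y)) : ℝ) : ℂ)) ∧
    Integrable fun t : ℝ => logDeriv L.gam (c + t * I) * ((Real.exp (-(t ^ 2 * y)) : ℝ) : ℂ) := by
  refine ⟨V.heat_summable c hy, fun j => ?_, ?_⟩
  · have h1 := ((piece_factor (L.one_lt j) (L.root j) (c := c) (L.size j)).vint
      (x := L.b - c + 1) (by linarith) hy).2.summable
    have h2 : ((((√(4 * Real.pi * y))⁻¹ : ℝ)) : ℂ) ≠ 0 := by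
      have := Real.pi_pos
      exact_mod_cast (show (0 : ℝ) < (√(4 * Real.pi * y))⁻¹ by positivity).ne'
    rw [← summable_mul_left_iff h2]
    refine h1.congr fun k => ?_
    push_cast
    ring
  · obtain ⟨-, -, hgc, -, C₂, hC₂, hgb⟩ := arch_piece L (A := 1) one_pos
    have i2 : Integrable fun t : ℝ => logDeriv L.gam (c + (((0 : ℝ) : ℂ) + t * I)) *
        exp ((((0 : ℝ) : ℂ) + t * I) ^ 2 * y) := by
      refine gauss_int (ψ := fun t : ℝ => logDeriv L.gam (c + (((0 : ℝ) : ℂ) + t * I))) ?_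
        (K := C₂) 0 (fun t => ?_) hy
      · exact Pool.Agent.TH942.SL.line_cont (H := fun z => logDeriv L.gam (c + z))
          fun s hs => hgc s hs.ge
      · have h3 := hgb (((0 : ℝ) : ℂ) + t * I) (by simp)
        have h4 : ‖((0 : ℝ) : ℂ) + t * I‖ = |t| := by
          rw [Complex.ofReal_zero, zero_add, norm_mul, Complex.norm_I, mul_one,
            Complex.norm_real, Real.norm_eq_abs]
        rw [h4] at h3
        exact h3
    refine i2.congr (Eventually.of_forall fun t => ?_)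
    have e2 : exp ((((0 : ℝ) : ℂ) + t * I) ^ 2 * y) = ((Real.exp (-(t ^ 2 * y)) : ℝ) : ℂ) := by
      rw [Complex.ofReal_exp]
      congr 1
      push_cast
      have : I ^ 2 = -1 := Complex.I_sq
      rw [zero_add, mul_pow, this]
      ring
    simp only
    rw [e2]
    simp

lemma exp_congr {Q : ℂ → ℤ → Prop} {f g : ℝ → ℂ} (h : ∀ y, 0 < y → f y = g y) :
    Exp Q f ↔ Exp Q g := by
  unfold Exp
  refine forall_congr' fun B => exists_congr fun S => exists_congr fun m =>
    exists_congr fun C => and_congr_right fun _ => ?_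
  refine eventually_congr ?_
  filter_upwards [eventually_gt_atTop 0] with y hy
  rw [h y hy]

lemma mero_shift {F : ℂ → ℂ} (u : ℂ) {z : ℂ} (h : MeromorphicAt F (z + u)) :
    MeromorphicAt (fun w => F (w + u)) z :=
  MeromorphicAt.comp_analyticAt (f := F) (g := fun w : ℂ => w + u) h (by fun_prop)

lemma ord_shift (F : ℂ → ℂ) (u z : ℂ) :
    meromorphicOrderAt (fun w => F (w + u)) z = meromorphicOrderAt F (z + u) := by
  refine meromorphicOrderAt_comp_of_deriv_ne_zero (f := F) (g := fun w : ℂ => w + u) (by fun_prop) ?_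
  have : deriv (fun w : ℂ => w + u) z = 1 := ((hasDerivAt_id z).add_const u).deriv
  rw [this]
  exact one_ne_zero

/-- **the equivalence** -/
theorem main_iff {A : ℝ} (hA : 0 < A) (Ap An : Set ℂ) :
    (∃ F : ℂ → ℂ, (∀ s, MeromorphicAt F s) ∧ (∀ s : ℂ, L.b < s.re → F s = L.Lam A s) ∧
      (∃ ε : ℂ, (ε = 1 ∨ ε = -1) ∧ ∀ s, F (2 * c - s) = ε * F s) ∧
      ∀ s : ℂ, (0 < meromorphicOrderAt F s → (s - c) ^ 2 ∈ Ap) ∧
        (meromorphicOrderAt F s < 0 → (s - c) ^ 2 ∈ An)) ↔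
    Exp (fun ζ m => (ζ ≠ 0 → Even m) ∧ (0 < m → ζ ∈ Ap) ∧ (m < 0 → ζ ∈ An)) (L.Z A) := by
  obtain ⟨C, H, hZ⟩ := fd_Z L hA
  rw [← exp_congr hZ, ← fe_iff H Ap An]
  constructor
  · rintro ⟨F, h1, h2, ⟨ε, hε, h3⟩, h4⟩
    refine ⟨fun z => F (z + c), fun z => mero_shift _ (h1 _), fun z hz => ?_, ⟨ε, hε, fun z => ?_⟩,
      fun z => ?_⟩
    · change F (z + c) = _
      rw [h2 _ (by rw [Complex.add_re, Complex.ofReal_re]; linarith)]
      unfold F₀
      rw [add_comm]
    · simp only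
      rw [← h3]
      congr 1
      ring
    · rw [ord_shift]
      have := h4 (z + c)
      rw [add_sub_cancel_right] at this
      exact this
  · rintro ⟨G, h1, h2, ⟨ε, hε, h3⟩, h4⟩
    refine ⟨fun s => G (s + (-(c : ℂ))), fun s => mero_shift _ (h1 _), fun s hs => ?_,
      ⟨ε, hε, fun s => ?_⟩, fun s => ?_⟩
    · simp only
      rw [h2 _ (by rw [Complex.add_re, Complex.neg_re, Complex.ofReal_re]; linarith)]
      unfold F₀
      congr 1
      ring
    · simp only
      rw [← h3]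
      congr 1
      ring
    · rw [ord_shift]
      have := h4 (s + (-(c : ℂ)))
      rw [← sub_eq_add_neg] at this ⊢
      exact this

/-- **the equivalence for entire functions** -/
theorem main_iff_entire {A : ℝ} (hA : 0 < A) (Ap : Set ℂ) :
    (∃ F : ℂ → ℂ, Differentiable ℂ F ∧ (∀ s : ℂ, L.b < s.re → F s = L.Lam A s) ∧
      (∃ ε : ℂ, (ε = 1 ∨ ε = -1) ∧ ∀ s, F (2 * c - s) = ε * F s) ∧
      ∀ s : ℂ, F s = 0 → (s - c) ^ 2 ∈ Ap) ↔
    Exp (fun ζ m => (ζ ≠ 0 → Even m) ∧ 0 ≤ m ∧ (0 < m → ζ ∈ Ap)) (L.Z A) := by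
  obtain ⟨C, H, hZ⟩ := fd_Z L hA
  rw [← exp_congr hZ, ← fe_iff_entire H Ap]
  constructor
  · rintro ⟨F, h1, h2, ⟨ε, hε, h3⟩, h4⟩
    refine ⟨fun z => F (z + c), fun z => ?_, fun z hz => ?_, ⟨ε, hε, fun z => ?_⟩,
      fun z hz => ?_⟩
    · exact DifferentiableAt.comp (g := F) (f := fun z : ℂ => z + c) z (h1 _) (by fun_prop)
    · change F (z + c) = _
      rw [h2 _ (by rw [Complex.add_re, Complex.ofReal_re]; linarith)]
      unfold F₀
      rw [add_comm]
    · simp only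
      rw [← h3]
      congr 1
      ring
    · have := h4 (z + c) hz
      rw [add_sub_cancel_right] at this
      exact this
  · rintro ⟨G, h1, h2, ⟨ε, hε, h3⟩, h4⟩
    refine ⟨fun s => G (s - c), fun z => ?_, fun s hs => ?_, ⟨ε, hε, fun s => ?_⟩,
      fun s hs => h4 _ hs⟩
    · exact DifferentiableAt.comp (g := G) (f := fun z : ℂ => z - c) z (h1 _) (by fun_prop)
    · simp only
      rw [h2 _ (by rw [Complex.sub_re, Complex.ofReal_re]; linarith)]
      unfold F₀
      congr 1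
      ring
    · simp only
      rw [← h3]
      congr 1
      ring

/-- **the expansion with all zeros and poles** -/
theorem main_exact {A : ℝ} (hA : 0 < A) {F : ℂ → ℂ} (h1 : ∀ s, MeromorphicAt F s)
    (h2 : ∀ s : ℂ, L.b < s.re → F s = L.Lam A s)
    (h3 : ∃ ε : ℂ, (ε = 1 ∨ ε = -1) ∧ ∀ s, F (2 * c - s) = ε * F s) (B : ℝ) :
    ∃ (hfin : {s : ℂ | -B < ((s - c) ^ 2).re ∧ meromorphicOrderAt F s ≠ 0}.Finite) (C : ℝ),
      ∀ y : ℝ, 1 ≤ y → ‖L.Z A y - ∑ s ∈ hfin.toFinset,
        ((meromorphicOrderAt F s).untop₀ : ℂ) * exp ((s - c) ^ 2 * y)‖ ≤ C * Real.exp (-(B * y)) := by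
  obtain ⟨C, H, hZ⟩ := fd_Z L hA
  obtain ⟨ε, hε, h3⟩ := h3
  have hε0 : ε ≠ 0 := by rcases hε with h | h <;> rw [h] <;> simp
  obtain ⟨hf, C₁, hC₁⟩ := exact_exp H (G := fun z => F (z + c)) (fun z => mero_shift _ (h1 _))
    (fun z hz => by
      rw [h2 _ (by rw [Complex.add_re, Complex.ofReal_re]; linarith)]
      unfold F₀
      rw [add_comm]) hε0 (fun z => by
      rw [← h3]
      congr 1
      ring) B
  have hfin : {s : ℂ | -B < ((s - c) ^ 2).re ∧ meromorphicOrderAt F s ≠ 0}.Finite := by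
    refine (hf.image fun z : ℂ => z + c).subset fun s hs => ?_
    refine ⟨s - c, ⟨hs.1, ?_⟩, by simp⟩
    rw [ord_shift, sub_add_cancel]
    exact hs.2
  refine ⟨hfin, C₁, fun y hy => ?_⟩
  have e1 := hC₁ y hy
  rw [hZ y (by linarith)] at e1
  have e2 : ∑ z ∈ hf.toFinset, ((meromorphicOrderAt (fun z => F (z + c)) z).untop₀ : ℂ) *
      exp (z ^ 2 * y) = ∑ s ∈ hfin.toFinset, ((meromorphicOrderAt F s).untop₀ : ℂ) *
        exp ((s - c) ^ 2 * y) := by
    refine Finset.sum_bij' (fun z _ => z + c) (fun s _ => s - c) ?_ ?_ ?_ ?_ ?_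
    · intro z hz
      rw [Set.Finite.mem_toFinset] at hz ⊢
      refine ⟨by rw [add_sub_cancel_right]; exact hz.1, ?_⟩
      rw [← ord_shift]
      exact hz.2
    · intro s hs
      rw [Set.Finite.mem_toFinset] at hs ⊢
      refine ⟨hs.1, ?_⟩
      rw [ord_shift, sub_add_cancel]
      exact hs.2
    · intro z _
      simp
    · intro s _
      simp
    · intro z _
      rw [ord_shift, add_sub_cancel_right]
  rw [e2] at e1
  exact e1

lemma sq_neg_iff (w : ℂ) : ((w ^ 2).im = 0 ∧ (w ^ 2).re ≤ 0) ↔ w.re = 0 := by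
  rw [sq, Complex.mul_im, Complex.mul_re]
  constructor
  · rintro ⟨h1, h2⟩
    by_contra h
    have h3 : w.im = 0 := by
      have h4 : w.re * w.im = 0 := by linarith
      rcases mul_eq_zero.1 h4 with h5 | h5
      · exact absurd h5 h
      · exact h5
    rw [h3] at h2
    have : 0 < w.re * w.re := mul_self_pos.2 h
    linarith
  · intro h
    rw [h]
    constructor
    · ring
    · nlinarith [sq_nonneg w.im]

end Pool.Agent.R791.Fe
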