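import Pool.Agent.R791.Heat3
import Pool.Agent.R791.Level3
import Pool.Agent.TH942.ES.Star

/-!
# Meromorphic continuation of Euler products and exponential sums
-/

set_option autoImplicit false

open MeasureTheory Filter Topology Set Complex
open Pool.Agent.TH942.LS (Dat P P_le)
open Pool.Agent.TH942.SL Pool.Agent.TH942.ES Pool.Agent.R791.SectGen Pool.Agent.R791.Level

namespace Pool.Agent.R791.Heat

/-! ### Gluing of meromorphic functions -/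

/-- gluing of meromorphic continuations of the same function -/
theorem glue_mer {ι : Type*} {L : ℂ → ℂ} {σ : ℝ} (hL : ∀ s : ℂ, σ < s.re → DifferentiableAt ℂ L s)
    {U : ι → Set ℂ} (hUo : ∀ i, IsOpen (U i)) (hray : ∀ i, ∀ s ∈ U i, ∀ x : ℝ, 0 ≤ x → s + x ∈ U i)
    {G : ι → ℂ → ℂ} (hG : ∀ i, ∀ s ∈ U i, MeromorphicAt (G i) s)
    (hGL : ∀ i, ∀ s : ℂ, σ < s.re → G i s = L s) :
    ∃ F : ℂ → ℂ, (∀ s : ℂ, σ < s.re → F s = L s) ∧ (∀ i, ∀ s ∈ U i, F =ᶠ[𝓝[≠] s] G i) ∧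
      (∀ s : ℂ, (∃ i, s ∈ U i) ∨ σ < s.re → MeromorphicAt F s) ∧
      ((∀ i, ∀ s ∈ U i, DifferentiableAt ℂ (G i) s) →
        (∀ s : ℂ, (∃ i, s ∈ U i) ∨ σ < s.re → DifferentiableAt ℂ F s) ∧
        ∀ i, ∀ s ∈ U i, F s = G i s) := by
  classical
  set F : ℂ → ℂ := fun s => if σ < s.re then L s else
    if h : ∃ i, s ∈ U i then limUnder (𝓝[≠] s) (G h.choose) else 0 with hF
  have hFL : ∀ s : ℂ, σ < s.re → F s = L s := fun s hs => by
    rw [hF]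
    simp only
    rw [if_pos hs]
  have hagree : ∀ i j, ∀ s ∈ U i, s ∈ U j → G i =ᶠ[𝓝[≠] s] G j := by
    intro i j s hi hj
    exact mray_eq (fun x hx => hG i _ (hray i s hi x hx)) (fun x hx => hG j _ (hray j s hj x hx))
      (x₁ := σ) fun w hw => by rw [hGL i w hw, hGL j w hw]
  have hval : ∀ i, ∀ s ∈ U i, ContinuousAt (G i) s → F s = G i s := by
    intro i s hs hc
    by_cases h : σ < s.re
    · rw [hFL s h, hGL i s h]
    · have hex : ∃ i, s ∈ U i := ⟨i, hs⟩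
      have e1 : F s = limUnder (𝓝[≠] s) (G hex.choose) := by
        rw [hF]
        simp only
        rw [if_neg h, dif_pos hex]
      rw [e1]
      have e2 := hagree i hex.choose s hs hex.choose_spec
      have e3 : Tendsto (G hex.choose) (𝓝[≠] s) (𝓝 (G i s)) :=
        (hc.tendsto.mono_left nhdsWithin_le_nhds).congr' e2
      exact e3.limUnder_eq
  have hFG : ∀ i, ∀ s ∈ U i, F =ᶠ[𝓝[≠] s] G i := by
    intro i s hs
    filter_upwards [(hG i s hs).eventually_analyticAt,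
      nhdsWithin_le_nhds ((hUo i).mem_nhds hs)] with t ht1 ht2
    exact hval i t ht2 ht1.continuousAt
  have ho : IsOpen {s : ℂ | σ < s.re} := isOpen_lt continuous_const Complex.continuous_re
  have hFd : ∀ s : ℂ, σ < s.re → DifferentiableAt ℂ F s := fun s hs =>
    (hL s hs).congr_of_eventuallyEq (by
      filter_upwards [ho.mem_nhds hs] with t ht
      exact hFL t ht)
  refine ⟨F, hFL, hFG, ?_, ?_⟩
  · rintro s (⟨i, hi⟩ | hs)
    · exact (hG i s hi).congr (hFG i s hi).symm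
    · have h2 : DifferentiableOn ℂ F {s : ℂ | σ < s.re} := fun t ht =>
        (hFd t ht).differentiableWithinAt
      exact (h2.analyticAt (ho.mem_nhds hs)).meromorphicAt
  · intro hd
    refine ⟨?_, fun i s hs => hval i s hs (hd i s hs).continuousAt⟩
    rintro s (⟨i, hi⟩ | hs)
    · refine (hd i s hi).congr_of_eventuallyEq ?_
      filter_upwards [(hUo i).mem_nhds hi] with t ht
      exact hval i t ht (hd i t ht).continuousAt
    · exact hFd s hs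

variable {X : Type} {d : ℕ} {N : X → ℕ} {α : X → Fin d → ℂ} {e : X × ℕ → ℕ}

/-- the coefficients with respect to the vertex `w` -/
noncomputable def cW (N : X → ℕ) (α : X → Fin d → ℂ) (e : X × ℕ → ℕ) (w : ℝ) (n : ℕ) : ℝ :=
  cS N α e n * Real.exp (-(w * lamS N e n))

/-- the mean with the vertex `w` -/
noncomputable def TE (N : X → ℕ) (α : X → Fin d → ℂ) (w ρ y : ℝ) : ℝ :=
  ∑' p : X × ℕ, cP N α p * Real.exp (-(w * lamP N p)) * gk ρ⁻¹ (lamP N p * y ^ (-ρ⁻¹))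

theorem TE_eq (he : Function.Injective e) (w ρ y : ℝ) :
    TE N α w ρ y = T (lamS N e) (cW N α e w) ρ⁻¹ y := by
  unfold TE T cW
  exact (tsum_cS he (fun c l => c * Real.exp (-(w * l)) * gk ρ⁻¹ (l * y ^ (-ρ⁻¹)))
    (fun l => by simp)).symm

section

variable (E : Sys N α)
include E

theorem datW (he : Function.Injective e) {w σ : ℝ} (hσ0 : 0 < σ) (hσ : 1 / 2 < σ + w) :
    Dat (lamS N e) (cW N α e w) (Real.log 2) σ where
  δ0 := Real.log_pos (by norm_num)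
  σ0 := hσ0
  lam_ge := (E.datS he (σ := 1) (by norm_num)).lam_ge
  sum := by
    refine (E.datS he hσ).sum.congr fun n => ?_
    unfold cW
    rw [abs_mul, Real.abs_exp, mul_assoc, ← Real.exp_add]
    congr 2
    ring

theorem TE_summable {w ρ y : ℝ} (hρ : 1 < ρ) (hy : 0 < y) :
    Summable fun p : X × ℕ => cP N α p * Real.exp (-(w * lamP N p)) *
      gk ρ⁻¹ (lamP N p * y ^ (-ρ⁻¹)) := by
  have := E.cnt
  obtain ⟨e, he⟩ := Countable.exists_injective_nat (X × ℕ)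
  have h0 : 0 < ρ⁻¹ := by positivity
  have h1ρ : ρ⁻¹ < 1 := inv_lt_one_of_one_lt₀ hρ
  set σ : ℝ := max (1 / 2 - w) 0 + 1 with hσ
  have e1 := le_max_left (1 / 2 - w) 0
  have e2 := le_max_right (1 / 2 - w) 0
  have D := datW E he (w := w) (σ := σ) (by linarith) (by linarith)
  obtain ⟨x₀, hx1, hx₀⟩ := exists_abscissa h0 h1ρ σ
  obtain ⟨-, h⟩ := T_eq D h0 h1ρ (x := x₀) (by linarith) hy fun z hz => by
    have e3 : 0 < z.re := by rw [hz]; linarith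
    have e4 : x₀ ≤ ‖z‖ := by rw [← hz]; exact re_le_norm z
    linarith [hx₀ z e3 e4]
  unfold cW at h
  exact (summable_cS he (fun c l => c * Real.exp (-(w * l)) * gk ρ⁻¹ (l * y ^ (-ρ⁻¹)))
    (fun l => by simp)).1 h

theorem exp_DDW (hreal : ∀ v k, (∑ i, zv N α v i ^ k).im = 0) (he : Function.Injective e)
    {w : ℝ} {s : ℂ} (hs : 1 / 2 < w + s.re) :
    exp (DD (lamS N e) (cW N α e w) s) = LE N α (w + s) := by
  rw [← E.exp_DD hreal he (s := w + s) (by simpa using hs)]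
  congr 1
  unfold DD cW
  refine tsum_congr fun n => ?_
  push_cast
  rw [mul_assoc, ← Complex.exp_add]
  congr 2
  ring

/-- the function in the variable `v` -/
theorem vplane (hreal : ∀ v k, (∑ i, zv N α v i ^ k).im = 0) (he : Function.Injective e)
    {w ρ θ : ℝ} (hρ : 1 < ρ) (hθ : 0 ≤ θ) {G : ℂ → ℂ}
    (hG : ∀ s ∈ LvAt w ρ θ, MeromorphicAt G s)
    (hGL : ∀ s ∈ LvAt w ρ θ, 1 / 2 < s.re → G s = LE N α s) :
    (∀ v : ℂ, θ < v.re → (w : ℂ) + v ^ ((ρ⁻¹ : ℝ) : ℂ) ∈ LvAt w ρ θ) ∧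
    (∀ v : ℂ, θ < v.re → MeromorphicAt (fun v => G (w + v ^ ((ρ⁻¹ : ℝ) : ℂ))) v) ∧
    (∀ v : ℂ, θ < v.re → meromorphicOrderAt (fun v => G (w + v ^ ((ρ⁻¹ : ℝ) : ℂ))) v =
      meromorphicOrderAt G (w + v ^ ((ρ⁻¹ : ℝ) : ℂ))) ∧
    ∃ (σ x₂ : ℝ), Dat (lamS N e) (cW N α e w) (Real.log 2) σ ∧
      (∀ v : ℂ, θ < v.re → x₂ ≤ ‖v‖ → σ < (v ^ ((ρ⁻¹ : ℝ) : ℂ)).re) ∧
      ∀ v : ℂ, θ < v.re → x₂ ≤ ‖v‖ → G (w + v ^ ((ρ⁻¹ : ℝ) : ℂ)) =
        exp (f₀ (lamS N e) (cW N α e w) ρ⁻¹ v) := by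
  have h0 : 0 < ρ⁻¹ := by positivity
  have h1ρ : ρ⁻¹ < 1 := inv_lt_one_of_one_lt₀ hρ
  have hmem : ∀ v : ℂ, θ < v.re → (w : ℂ) + v ^ ((ρ⁻¹ : ℝ) : ℂ) ∈ LvAt w ρ θ := fun v hv => by
    rw [mem_lvAt, add_sub_cancel_left]
    exact pow_mem_lv hρ hθ hv
  have hUo : IsOpen {v : ℂ | θ < v.re} := isOpen_lt continuous_const Complex.continuous_re
  have hd : ∀ v : ℂ, θ < v.re → HasDerivAt (fun v : ℂ => (w : ℂ) + v ^ ((ρ⁻¹ : ℝ) : ℂ))
      (((ρ⁻¹ : ℝ) : ℂ) * v ^ (((ρ⁻¹ : ℝ) : ℂ) - 1)) v := fun v hv =>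
    (pow_deriv (slit (by linarith))).const_add _
  have ha : ∀ v : ℂ, θ < v.re → AnalyticAt ℂ (fun v : ℂ => (w : ℂ) + v ^ ((ρ⁻¹ : ℝ) : ℂ)) v :=
    fun v hv => by
      have h2 : DifferentiableOn ℂ (fun v : ℂ => (w : ℂ) + v ^ ((ρ⁻¹ : ℝ) : ℂ))
          {v : ℂ | θ < v.re} := fun z hz => (hd z hz).differentiableAt.differentiableWithinAt
      exact h2.analyticAt (hUo.mem_nhds hv)
  refine ⟨hmem, fun v hv => ?_, fun v hv => ?_, ?_⟩
  · exact MeromorphicAt.comp_analyticAt (f := G) (hG _ (hmem v hv)) (ha v hv)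
  · refine meromorphicOrderAt_comp_of_deriv_ne_zero (f := G) (ha v hv) ?_
    rw [(hd v hv).deriv]
    have hv0 : 0 < v.re := by linarith
    refine mul_ne_zero (by exact_mod_cast h0.ne') ?_
    rw [Complex.cpow_def_of_ne_zero (ne_zero' hv0)]
    exact Complex.exp_ne_zero _
  · set σ : ℝ := max (1 / 2 - w) 0 + 1 with hσ
    have e1 := le_max_left (1 / 2 - w) 0
    have e2 := le_max_right (1 / 2 - w) 0
    have D := datW E he (w := w) (σ := σ) (by linarith) (by linarith)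
    obtain ⟨x₀, hx1, hx₀⟩ := exists_abscissa h0 h1ρ σ
    have hx : ∀ v : ℂ, θ < v.re → x₀ ≤ ‖v‖ → σ < (v ^ ((ρ⁻¹ : ℝ) : ℂ)).re := fun v hv hv2 => by
      have hv0 : 0 < v.re := by linarith
      have e3 := hx₀ v hv0 hv2
      have e4 := re_pow_ge h0 h1ρ hv0
      linarith
    refine ⟨σ, x₀, D, hx, fun v hv hv2 => ?_⟩
    have e3 := hx v hv hv2
    rw [hGL _ (hmem v hv) (by rw [Complex.add_re, Complex.ofReal_re]; linarith)]
    unfold f₀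
    rw [exp_DDW E hreal he (by linarith)]

omit E in
/-- the inverse of the change of variables -/
theorem root_eq {w ρ θ : ℝ} (hρ : 1 < ρ) {s : ℂ} (hs : s ∈ LvAt w ρ θ) :
    θ < ((s - w) ^ (ρ : ℂ)).re ∧ (w : ℂ) + ((s - w) ^ (ρ : ℂ)) ^ ((ρ⁻¹ : ℝ) : ℂ) = s := by
  have h1 := mem_lvAt.1 hs
  refine ⟨h1.2, ?_⟩
  rw [(exists_root hρ h1.1.1 h1.1.2).2]
  ring

/-- **The expansion of the means for a meromorphic continuation**: all zeros and poles. -/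
theorem mero_expand (hreal : ∀ v k, (∑ i, zv N α v i ^ k).im = 0)
    {w ρ θ θ' : ℝ} (hρ : 1 < ρ) (hθ : 0 ≤ θ) (hθ' : θ < θ') {G : ℂ → ℂ}
    (hG : ∀ s ∈ LvAt w ρ θ, MeromorphicAt G s)
    (hGL : ∀ s ∈ LvAt w ρ θ, 1 / 2 < s.re → G s = LE N α s) :
    (∀ s ∈ LvAt w ρ θ, meromorphicOrderAt G s ≠ ⊤) ∧
    ∃ (hfin : {s : ℂ | s ∈ LvAt w ρ θ' ∧ meromorphicOrderAt G s ≠ 0}.Finite) (C : ℝ),
      ∀ y : ℝ, 0 < y → ‖(TE N α w ρ y : ℂ) + ∑ s ∈ hfin.toFinset,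
        ((meromorphicOrderAt G s).untop₀ : ℂ) * exp ((s - w) ^ (ρ : ℂ) * y)‖ ≤
          C * Real.exp (θ' * y) := by
  have := E.cnt
  obtain ⟨e, he⟩ := Countable.exists_injective_nat (X × ℕ)
  have h0 : 0 < ρ⁻¹ := by positivity
  have h1ρ : ρ⁻¹ < 1 := inv_lt_one_of_one_lt₀ hρ
  obtain ⟨hmem, hgm, hgo, σ, x₂, D, hx₂, hgE⟩ := vplane E hreal he hρ hθ hG hGL
  obtain ⟨hord, hfin', C, hC⟩ := mer_expand D h0 h1ρ hθ hθ' hgm hx₂ hgE
  have hLv : ∀ s ∈ LvAt w ρ θ', s ∈ LvAt w ρ θ := fun s hs => ⟨hs.1, hθ'.trans hs.2⟩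
  refine ⟨fun s hs => ?_, ?_⟩
  · obtain ⟨e1, e2⟩ := root_eq hρ hs
    have e3 := hord _ e1
    rw [hgo _ e1, e2] at e3
    exact e3
  have hmaps : ∀ s ∈ {s : ℂ | s ∈ LvAt w ρ θ' ∧ meromorphicOrderAt G s ≠ 0},
      (s - w) ^ (ρ : ℂ) ∈ {z : ℂ | θ' < z.re ∧
        meromorphicOrderAt (fun v => G (w + v ^ ((ρ⁻¹ : ℝ) : ℂ))) z ≠ 0} := by
    rintro s ⟨hs1, hs2⟩
    obtain ⟨e1, e2⟩ := root_eq hρ hs1
    refine ⟨e1, ?_⟩
    rw [hgo _ (hθ'.trans e1), e2]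
    exact hs2
  have hfin : {s : ℂ | s ∈ LvAt w ρ θ' ∧ meromorphicOrderAt G s ≠ 0}.Finite := by
    refine (hfin'.image fun v : ℂ => (w : ℂ) + v ^ ((ρ⁻¹ : ℝ) : ℂ)).subset fun s hs => ?_
    exact ⟨(s - w) ^ (ρ : ℂ), hmaps s hs, (root_eq hρ hs.1).2⟩
  refine ⟨hfin, C, fun y hy => ?_⟩
  have e1 := hC y hy
  have e2 : ∑ z ∈ hfin'.toFinset, ((-(meromorphicOrderAt (fun v => G (w + v ^ ((ρ⁻¹ : ℝ) : ℂ)))
      z).untop₀ : ℤ) : ℂ) * exp (z * y) = -∑ s ∈ hfin.toFinset,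
        ((meromorphicOrderAt G s).untop₀ : ℂ) * exp ((s - w) ^ (ρ : ℂ) * y) := by
    rw [← Finset.sum_neg_distrib]
    symm
    refine Finset.sum_bij' (fun s _ => (s - w) ^ (ρ : ℂ))
      (fun v _ => (w : ℂ) + v ^ ((ρ⁻¹ : ℝ) : ℂ)) ?_ ?_ ?_ ?_ ?_
    · intro s hs
      rw [Set.Finite.mem_toFinset] at hs ⊢
      exact hmaps s hs
    · intro v hv
      rw [Set.Finite.mem_toFinset] at hv ⊢
      obtain ⟨hv1, hv2⟩ := hv
      have hv3 : θ < v.re := hθ'.trans hv1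
      refine ⟨?_, ?_⟩
      · rw [mem_lvAt, add_sub_cancel_left]
        exact pow_mem_lv hρ (hθ.trans hθ'.le) hv1
      · rw [← hgo v hv3]
        exact hv2
    · intro s hs
      rw [Set.Finite.mem_toFinset] at hs
      exact (root_eq hρ hs.1).2
    · intro v hv
      rw [Set.Finite.mem_toFinset] at hv
      simp only [add_sub_cancel_left]
      exact pow_pow' hρ (by have := hv.1; linarith)
    · intro s hs
      rw [Set.Finite.mem_toFinset] at hs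
      obtain ⟨e3, e4⟩ := root_eq hρ hs.1
      rw [hgo _ (hθ'.trans e3), e4]
      push_cast
      ring
  rw [e2, ← TE_eq he, sub_neg_eq_add] at e1
  exact e1

/-- **The continuation from an exponential sum with integral coefficients.** -/
theorem mero_ext (hreal : ∀ v k, (∑ i, zv N α v i ^ k).im = 0)
    {w ρ b : ℝ} (hρ : 1 < ρ) (hb : 0 ≤ b) (S : Finset ℂ) (m : ℂ → ℤ) {C y₀ : ℝ}
    (hM : ∀ y : ℝ, y₀ ≤ y →
      ‖(TE N α w ρ y : ℂ) - ∑ z ∈ S, (m z : ℂ) * exp (z * y)‖ ≤ C * Real.exp (b * y)) :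
    ∃ G : ℂ → ℂ, (∀ s : ℂ, 1 / 2 < s.re → G s = LE N α s) ∧
      (∀ s ∈ LvAt w ρ b, MeromorphicAt G s) ∧
      ((∀ z ∈ S, m z ≤ 0) → ∀ s ∈ LvAt w ρ b, DifferentiableAt ℂ G s) ∧
      (S = ∅ → ∀ s ∈ LvAt w ρ b, G s ≠ 0) := by
  classical
  have := E.cnt
  obtain ⟨e, he⟩ := Countable.exists_injective_nat (X × ℕ)
  have h0 : 0 < ρ⁻¹ := by positivity
  have h1ρ : ρ⁻¹ < 1 := inv_lt_one_of_one_lt₀ hρ
  set σ : ℝ := max (1 / 2 - w) 0 + 1 with hσ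
  have e1 := le_max_left (1 / 2 - w) 0
  have e2 := le_max_right (1 / 2 - w) 0
  have D := datW E he (w := w) (σ := σ) (by linarith) (by linarith)
  obtain ⟨x₀, hx1, hx₀⟩ := exists_abscissa h0 h1ρ σ
  obtain ⟨g, x₁, hgm, hgd, hgn, hgE⟩ := mer_fn D h0 h1ρ hb S m (C := C) (y₀ := y₀) fun y hy => by
    rw [← TE_eq he]
    exact hM y hy
  have hopen : IsOpen (LvAt w ρ b) := by
    have : LvAt w ρ b = (fun s : ℂ => s - w) ⁻¹' Lv ρ b := by
      ext s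
      exact mem_lvAt
    rw [this]
    exact (lv_open hρ b).preimage (by fun_prop)
  have hslit : ∀ s ∈ LvAt w ρ b, s - w ∈ slitPlane := fun s hs =>
    slit (sect_re hρ (mem_lvAt.1 hs).1)
  have hpd : ∀ s ∈ LvAt w ρ b, DifferentiableAt ℂ (fun s : ℂ => (s - w) ^ (ρ : ℂ)) s :=
    fun s hs => DifferentiableAt.cpow_const (by fun_prop) (hslit s hs)
  have hpa : ∀ s ∈ LvAt w ρ b, AnalyticAt ℂ (fun s : ℂ => (s - w) ^ (ρ : ℂ)) s := fun s hs => by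
    have h2 : DifferentiableOn ℂ (fun s : ℂ => (s - w) ^ (ρ : ℂ)) (LvAt w ρ b) := fun z hz =>
      (hpd z hz).differentiableWithinAt
    exact h2.analyticAt (hopen.mem_nhds hs)
  set g₂ : ℂ → ℂ := fun s => g ((s - w) ^ (ρ : ℂ)) with hg₂
  have hg₂m : ∀ s ∈ LvAt w ρ b, MeromorphicAt g₂ s := fun s hs =>
    MeromorphicAt.comp_analyticAt (f := g) (hgm _ (root_eq hρ hs).1) (hpa s hs)
  -- agreement to the right of `1/2`
  have hA : ∀ s ∈ LvAt w ρ b, 1 / 2 < s.re → g₂ =ᶠ[𝓝[≠] s] LE N α := by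
    intro s hs hs2
    obtain ⟨e3, e4⟩ := root_eq hρ hs
    set v : ℂ := (s - w) ^ (ρ : ℂ) with hv
    have hv0 : 0 < v.re := by linarith
    have hLEd : ∀ s : ℂ, 1 / 2 < s.re → DifferentiableAt ℂ (LE N α) s := fun s hs =>
      (E.LE_diff hs).1
    have hho : IsOpen {s : ℂ | 1 / 2 < s.re} := isOpen_lt continuous_const Complex.continuous_re
    have hLEa : ∀ s : ℂ, 1 / 2 < s.re → AnalyticAt ℂ (LE N α) s := fun s hs => by
      have h2 : DifferentiableOn ℂ (LE N α) {s : ℂ | 1 / 2 < s.re} := fun z hz =>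
        (hLEd z hz).differentiableWithinAt
      exact h2.analyticAt (hho.mem_nhds hs)
    have key : g =ᶠ[𝓝[≠] v] fun v => LE N α (w + v ^ ((ρ⁻¹ : ℝ) : ℂ)) := by
      refine mray_eq (fun x hx => hgm _ ?_) (fun x hx => ?_) (x₁ := max x₁ x₀) fun z hz => ?_
      · rw [Complex.add_re, Complex.ofReal_re]
        linarith
      · have hvx : 0 < (v + (x : ℂ)).re := by rw [Complex.add_re, Complex.ofReal_re]; linarith
        have f1 := re_pow_mono h0 h1ρ hv0 hx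
        have f2 : (v ^ ((ρ⁻¹ : ℝ) : ℂ)).re = s.re - w := by
          have := congrArg Complex.re e4
          rw [Complex.add_re, Complex.ofReal_re] at this
          linarith
        have f3 : 1 / 2 < ((w : ℂ) + (v + (x : ℂ)) ^ ((ρ⁻¹ : ℝ) : ℂ)).re := by
          rw [Complex.add_re, Complex.ofReal_re]
          linarith
        have f4 : AnalyticAt ℂ (fun v : ℂ => (w : ℂ) + v ^ ((ρ⁻¹ : ℝ) : ℂ)) (v + x) := by
          have ho2 : IsOpen {v : ℂ | 0 < v.re} := isOpen_lt continuous_const Complex.continuous_re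
          have h2 : DifferentiableOn ℂ (fun v : ℂ => (w : ℂ) + v ^ ((ρ⁻¹ : ℝ) : ℂ))
              {v : ℂ | 0 < v.re} := fun z hz =>
            ((pow_deriv (slit hz)).const_add _).differentiableAt.differentiableWithinAt
          exact h2.analyticAt (ho2.mem_nhds hvx)
        exact (AnalyticAt.comp (g := LE N α) (f := fun v : ℂ => (w : ℂ) + v ^ ((ρ⁻¹ : ℝ) : ℂ))
          (hLEa _ f3) f4).meromorphicAt
      · have f1 := (le_max_left x₁ x₀).trans_lt hz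
        have f2 := (le_max_right x₁ x₀).trans_lt hz
        have f3 : 0 < z.re := by linarith
        have f4 := hx₀ z f3 (f2.le.trans (re_le_norm z))
        have f5 := re_pow_ge h0 h1ρ f3
        rw [(hgE z f1).2]
        unfold f₀
        rw [exp_DDW E hreal he (by linarith)]
    have htend : Tendsto (fun t : ℂ => (t - w) ^ (ρ : ℂ)) (𝓝[≠] s) (𝓝[≠] v) := by
      refine tendsto_nhdsWithin_of_tendsto_nhds_of_eventually_within _ ?_ ?_
      · exact (hpd s hs).continuousAt.tendsto.mono_left nhdsWithin_le_nhds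
      · filter_upwards [self_mem_nhdsWithin, nhdsWithin_le_nhds (hopen.mem_nhds hs)] with t ht ht2
        intro hcon
        apply ht
        have f1 := (root_eq hρ ht2).2
        have hcon' : (t - w) ^ (ρ : ℂ) = v := hcon
        rw [hcon', e4] at f1
        exact f1.symm
    filter_upwards [htend.eventually key, nhdsWithin_le_nhds (hopen.mem_nhds hs)] with t ht ht2
    rw [hg₂]
    simp only
    rw [ht, (root_eq hρ ht2).2]
  have hLEc : ∀ s : ℂ, 1 / 2 < s.re → ContinuousAt (LE N α) s := fun s hs =>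
    (E.LE_diff hs).1.continuousAt
  set G : ℂ → ℂ := fun s => if 1 / 2 < s.re then LE N α s else g₂ s with hG
  have hG1 : ∀ s : ℂ, 1 / 2 < s.re → G s = LE N α s := fun s hs => by
    rw [hG]
    simp only
    rw [if_pos hs]
  have hG2 : ∀ s ∈ LvAt w ρ b, ContinuousAt g₂ s → G s = g₂ s := by
    intro s hs hc
    by_cases h : 1 / 2 < s.re
    · rw [hG1 s h]
      exact ((((hLEc s h).eventuallyEq_nhds_iff_eventuallyEq_nhdsNE hc).1
        (hA s hs h).symm).self_of_nhds)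
    · rw [hG]
      simp only
      rw [if_neg h]
  have hd₂ : (∀ z ∈ S, m z ≤ 0) → ∀ s ∈ LvAt w ρ b, DifferentiableAt ℂ g₂ s := fun hm s hs =>
    DifferentiableAt.comp (g := g) (f := fun s : ℂ => (s - w) ^ (ρ : ℂ)) s
      (hgd hm _ (root_eq hρ hs).1) (hpd s hs)
  refine ⟨G, hG1, fun s hs => ?_, fun hm s hs => ?_, fun hS s hs => ?_⟩
  · refine (hg₂m s hs).congr ?_
    filter_upwards [(hg₂m s hs).eventually_analyticAt,
      nhdsWithin_le_nhds (hopen.mem_nhds hs)] with t ht1 ht2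
    exact (hG2 t ht2 ht1.continuousAt).symm
  · refine (hd₂ hm s hs).congr_of_eventuallyEq ?_
    filter_upwards [hopen.mem_nhds hs] with t ht
    exact hG2 t ht (hd₂ hm t ht).continuousAt
  · rw [hG2 s hs (hd₂ (by rw [hS]; simp) s hs).continuousAt]
    exact hgn hS _

end

/-- exponential sum with coefficients in `A` up to the exponent `θ` -/
def ExpSum (A : Set ℤ) (f : ℝ → ℝ) (θ : ℝ) : Prop :=
  ∀ ε : ℝ, 0 < ε → ∃ (S : Finset ℂ) (m : ℂ → ℤ) (C : ℝ), (∀ z ∈ S, m z ∈ A) ∧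
    ∀ᶠ y : ℝ in atTop, ‖(f y : ℂ) - ∑ z ∈ S, (m z : ℂ) * exp (z * y)‖ ≤
      C * Real.exp ((θ + ε) * y)

variable (E : Sys N α)
include E

theorem ext_family (hreal : ∀ v k, (∑ i, zv N α v i ^ k).im = 0) {ι : Type} (w ρ θ : ι → ℝ)
    (hρ : ∀ i, 1 < ρ i) (hθ : ∀ i, 0 ≤ θ i) {A : Set ℤ}
    (h : ∀ i, ExpSum A (TE N α (w i) (ρ i)) (θ i)) :
    ∃ F : ℂ → ℂ, (∀ s : ℂ, 1 / 2 < s.re → F s = LE N α s) ∧
      (∀ s : ℂ, (∃ i, s ∈ LvAt (w i) (ρ i) (θ i)) ∨ 1 / 2 < s.re → MeromorphicAt F s) ∧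
      ((∀ a ∈ A, a ≤ 0) → ∀ s : ℂ, (∃ i, s ∈ LvAt (w i) (ρ i) (θ i)) ∨ 1 / 2 < s.re →
        DifferentiableAt ℂ F s) ∧
      (A = ∅ → ∀ s : ℂ, (∃ i, s ∈ LvAt (w i) (ρ i) (θ i)) ∨ 1 / 2 < s.re → F s ≠ 0) := by
  have key : ∀ p : ι × ℕ, ∃ G : ℂ → ℂ, (∀ s : ℂ, 1 / 2 < s.re → G s = LE N α s) ∧
      (∀ s ∈ LvAt (w p.1) (ρ p.1) (θ p.1 + 1 / ((p.2 : ℝ) + 1)), MeromorphicAt G s) ∧
      ((∀ a ∈ A, a ≤ 0) → ∀ s ∈ LvAt (w p.1) (ρ p.1) (θ p.1 + 1 / ((p.2 : ℝ) + 1)),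
        DifferentiableAt ℂ G s) ∧
      (A = ∅ → ∀ s ∈ LvAt (w p.1) (ρ p.1) (θ p.1 + 1 / ((p.2 : ℝ) + 1)), G s ≠ 0) := by
    intro p
    have hp : (0 : ℝ) < 1 / ((p.2 : ℝ) + 1) := by positivity
    obtain ⟨S, m, C, hS, hC⟩ := h p.1 _ hp
    obtain ⟨y₀, hy₀⟩ := hC.exists_forall_of_atTop
    obtain ⟨G, h1, h2, h3, h4⟩ := mero_ext E hreal (hρ p.1)
      (by have := hθ p.1; linarith : 0 ≤ θ p.1 + 1 / ((p.2 : ℝ) + 1)) S m hy₀
    refine ⟨G, h1, h2, fun hA => h3 fun z hz => hA _ (hS z hz), fun hA => h4 ?_⟩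
    refine Finset.eq_empty_of_forall_notMem fun z hz => ?_
    have := hS z hz
    rw [hA] at this
    exact this
  choose G hG1 hG2 hG3 hG4 using key
  have hopen : ∀ p : ι × ℕ, IsOpen (LvAt (w p.1) (ρ p.1) (θ p.1 + 1 / ((p.2 : ℝ) + 1))) := by
    intro p
    have : LvAt (w p.1) (ρ p.1) (θ p.1 + 1 / ((p.2 : ℝ) + 1)) =
        (fun s : ℂ => s - w p.1) ⁻¹' Lv (ρ p.1) (θ p.1 + 1 / ((p.2 : ℝ) + 1)) := by
      ext s
      exact mem_lvAt
    rw [this]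
    exact (lv_open (hρ p.1) _).preimage (by fun_prop)
  obtain ⟨F, hF1, -, hF2, hF3⟩ := glue_mer (L := LE N α) (σ := 1 / 2)
    (fun s hs => (E.LE_diff hs).1) hopen (fun p s hs x hx => by
      rw [mem_lvAt] at hs ⊢
      have e1 : s + x - (w p.1 : ℂ) = s - w p.1 + x := by ring
      rw [e1]
      exact lv_shift (hρ p.1) hs hx) hG2 hG1
  have hcov : ∀ s : ℂ, (∃ i, s ∈ LvAt (w i) (ρ i) (θ i)) ∨ 1 / 2 < s.re →
      (∃ p : ι × ℕ, s ∈ LvAt (w p.1) (ρ p.1) (θ p.1 + 1 / ((p.2 : ℝ) + 1))) ∨ 1 / 2 < s.re := by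
    rintro s (⟨i, hi⟩ | hs)
    · left
      obtain ⟨n, hn⟩ := exists_nat_one_div_lt (sub_pos.2 hi.2)
      exact ⟨(i, n), hi.1, by simp only; linarith⟩
    · exact Or.inr hs
  refine ⟨F, hF1, fun s hs => hF2 s (hcov s hs),
    fun hA s hs => (hF3 (fun p s hs => hG3 p hA s hs)).1 s (hcov s hs), fun hA s hs => ?_⟩
  rcases hcov s hs with ⟨p, hp⟩ | hs
  · rw [(hF3 (fun p s hs => hG3 p (by rw [hA]; simp) s hs)).2 p s hp]
    exact hG4 p hA s hp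
  · rw [hF1 s hs]
    exact (E.LE_diff hs).2

theorem expsum_of_mero (hreal : ∀ v k, (∑ i, zv N α v i ^ k).im = 0)
    {w ρ θ : ℝ} (hρ : 1 < ρ) (hθ : 0 ≤ θ) {G : ℂ → ℂ} {A : Set ℤ}
    (hG : ∀ s ∈ LvAt w ρ θ, MeromorphicAt G s)
    (hGL : ∀ s ∈ LvAt w ρ θ, 1 / 2 < s.re → G s = LE N α s)
    (hA : ∀ s ∈ LvAt w ρ θ, -(meromorphicOrderAt G s).untop₀ ∈ A) :
    ExpSum A (TE N α w ρ) θ := by
  intro ε hε
  have := E.cnt
  obtain ⟨e, he⟩ := Countable.exists_injective_nat (X × ℕ)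
  have h0 : 0 < ρ⁻¹ := by positivity
  have h1ρ : ρ⁻¹ < 1 := inv_lt_one_of_one_lt₀ hρ
  obtain ⟨hmem, hgm, hgo, σ, x₂, D, hx₂, hgE⟩ := vplane E hreal he hρ hθ hG hGL
  obtain ⟨hord, hfin', C, hC⟩ := mer_expand D h0 h1ρ hθ (show θ < θ + ε by linarith) hgm hx₂ hgE
  refine ⟨hfin'.toFinset,
    fun z => -(meromorphicOrderAt (fun v => G (w + v ^ ((ρ⁻¹ : ℝ) : ℂ))) z).untop₀, C,
    fun z hz => ?_, ?_⟩
  · rw [Set.Finite.mem_toFinset] at hz
    have hz1 : θ < z.re := by have := hz.1; linarith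
    simp only
    rw [hgo z hz1]
    exact hA _ (hmem z hz1)
  · filter_upwards [eventually_gt_atTop 0] with y hy
    rw [TE_eq he]
    exact hC y hy

end Pool.Agent.R791.Heat
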