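import Pool.Agent.R791.Fe1
import Pool.Agent.R791.Heat4
import Pool.Agent.H370R2.Rect

/-!
# Laplace transforms of Gaussian line integrals
-/

set_option autoImplicit false

open MeasureTheory Filter Topology Set Complex
open Pool.Agent.TH942.SL

namespace Pool.Agent.R791.Fe

open Pool.Agent.R791.Heat

/-- a function on a half plane with a small logarithmic derivative -/
structure FD (F₀ : ℂ → ℂ) (a x C : ℝ) : Prop where
  pos : 0 ≤ a
  lt : a < x
  diff : ∀ z : ℂ, a < z.re → DifferentiableAt ℂ F₀ z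
  ne : ∀ z : ℂ, a < z.re → F₀ z ≠ 0
  bd : ∀ z : ℂ, x ≤ z.re → ‖logDeriv F₀ z‖ ≤ C * (1 + ‖z‖) ^ (1 / 2 : ℝ)

/-- the Gaussian line integral -/
noncomputable def hw (F₀ : ℂ → ℂ) (x y : ℝ) : ℂ := V x (fun z => logDeriv F₀ z * exp (z ^ 2 * y))

variable {F₀ : ℂ → ℂ} {a x C : ℝ}

lemma FD.an (H : FD F₀ a x C) {z : ℂ} (hz : a < z.re) : AnalyticAt ℂ F₀ z := by
  have ho : IsOpen {s : ℂ | a < s.re} := isOpen_lt continuous_const Complex.continuous_re
  have h2 : DifferentiableOn ℂ F₀ {s : ℂ | a < s.re} := fun t ht =>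
    (H.diff t ht).differentiableWithinAt
  exact h2.analyticAt (ho.mem_nhds hz)

lemma FD.ld (H : FD F₀ a x C) {z : ℂ} (hz : a < z.re) : DifferentiableAt ℂ (logDeriv F₀) z := by
  have h1 := H.an hz
  exact h1.deriv.differentiableAt.div h1.differentiableAt (H.ne z hz)

lemma FD.C0 (H : FD F₀ a x C) : 0 ≤ C := by
  have h1 := (norm_nonneg _).trans (H.bd x (by simp))
  have h2 : 0 < (1 + ‖(x : ℂ)‖) ^ (1 / 2 : ℝ) := by positivity
  exact (mul_nonneg_iff_of_pos_right h2).1 h1

lemma FD.x0 (H : FD F₀ a x C) : 0 < x := lt_of_le_of_lt H.pos H.lt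

lemma FD.cont (H : FD F₀ a x C) : Continuous fun t : ℝ => logDeriv F₀ (x + t * I) :=
  line_cont fun s hs => (H.ld (by rw [hs]; exact H.lt)).continuousAt

lemma FD.line_bd (H : FD F₀ a x C) (t : ℝ) :
    ‖logDeriv F₀ (x + t * I)‖ ≤ C * (1 + x) * (1 + |t|) ^ (1 / 2 : ℝ) := by
  have hx := H.x0
  have hC := H.C0
  have h1 := H.bd (x + t * I) (by simp)
  refine h1.trans ?_
  rw [mul_assoc]
  refine mul_le_mul_of_nonneg_left ?_ hC
  have h2 : ‖(x : ℂ) + t * I‖ ≤ x + |t| := by
    refine (norm_add_le _ _).trans (le_of_eq ?_)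
    rw [norm_mul, Complex.norm_I, mul_one, Complex.norm_real, Complex.norm_real,
      Real.norm_eq_abs, Real.norm_eq_abs, abs_of_pos hx]
  have h3 : 1 + ‖(x : ℂ) + t * I‖ ≤ (1 + x) * (1 + |t|) := by
    have := abs_nonneg t
    nlinarith
  calc (1 + ‖(x : ℂ) + t * I‖) ^ (1 / 2 : ℝ) ≤ ((1 + x) * (1 + |t|)) ^ (1 / 2 : ℝ) :=
        Real.rpow_le_rpow (by positivity) h3 (by norm_num)
    _ = (1 + x) ^ (1 / 2 : ℝ) * (1 + |t|) ^ (1 / 2 : ℝ) :=
        Real.mul_rpow (by positivity) (by positivity)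
    _ ≤ (1 + x) ^ (1 : ℝ) * (1 + |t|) ^ (1 / 2 : ℝ) := by
        refine mul_le_mul_of_nonneg_right ?_ (by positivity)
        exact Real.rpow_le_rpow_of_exponent_le (by linarith) (by norm_num)
    _ = _ := by rw [Real.rpow_one]

lemma sq_line (x t : ℝ) : (((x : ℂ) + t * I) ^ 2).re = x ^ 2 - t ^ 2 := by
  rw [sq, Complex.mul_re]
  simp
  ring

/-- **the Laplace transform** -/
theorem lap (H : FD F₀ a x C) {p : ℂ} (hp : x < p.re) (hp2 : x ^ 2 < (p ^ 2).re) :
    IntegrableOn (fun y : ℝ => exp (-(p ^ 2 * y)) * hw F₀ x y) (Ioi 0) ∧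
    ∫ y in Ioi (0 : ℝ), exp (-(p ^ 2 * y)) * hw F₀ x y = logDeriv F₀ p / (2 * p) := by
  have hx := H.x0
  have hC := H.C0
  set ψ : ℝ → ℂ := fun t => logDeriv F₀ (x + t * I) with hψ
  have hψc : Continuous ψ := H.cont
  set δ : ℝ := (p ^ 2).re - x ^ 2 with hδ
  have hδ0 : 0 < δ := by rw [hδ]; linarith
  set f : ℝ → ℝ → ℂ := fun y t => exp (-(p ^ 2 * y)) * (ψ t * exp (((x : ℂ) + t * I) ^ 2 * y))
    with hf
  have hfc : Continuous (Function.uncurry f) := by
    have : Function.uncurry f = fun q : ℝ × ℝ => exp (-(p ^ 2 * (q.1 : ℂ))) * (ψ q.2 *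
      exp (((x : ℂ) + (q.2 : ℂ) * I) ^ 2 * (q.1 : ℂ))) := by
      funext q
      rfl
    rw [this]
    exact Continuous.mul (by fun_prop) ((hψc.comp continuous_snd).mul (by fun_prop))
  have hform : ∀ y t : ℝ, f y t = ψ t * exp ((((x : ℂ) + t * I) ^ 2 - p ^ 2) * y) := by
    intro y t
    rw [hf]
    simp only
    rw [mul_left_comm, ← Complex.exp_add]
    congr 2
    ring
  have hre : ∀ t : ℝ, (((x : ℂ) + t * I) ^ 2 - p ^ 2).re = -(δ + t ^ 2) := fun t => by
    rw [Complex.sub_re, sq_line, hδ]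
    ring
  have hneg : ∀ t : ℝ, (((x : ℂ) + t * I) ^ 2 - p ^ 2).re < 0 := fun t => by
    rw [hre]
    have := sq_nonneg t
    linarith
  have hnorm : ∀ y t : ℝ, ‖f y t‖ = ‖ψ t‖ * Real.exp (-(δ + t ^ 2) * y) := fun y t => by
    rw [hform, norm_mul, Complex.norm_exp, Complex.re_mul_ofReal, hre]
  have hint : ∀ t : ℝ, ∫ y in Ioi (0 : ℝ), ‖f y t‖ = ‖ψ t‖ * (δ + t ^ 2)⁻¹ := by
    intro t
    have h1 : -(δ + t ^ 2) < 0 := by have := sq_nonneg t; linarith
    simp only [hnorm]
    rw [integral_const_mul, integral_exp_mul_Ioi h1]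
    congr 1
    simp only [mul_zero, Real.exp_zero]
    field_simp
  have hI : Integrable (Function.uncurry f) ((volume.restrict (Ioi (0 : ℝ))).prod volume) := by
    rw [integrable_prod_iff' hfc.aestronglyMeasurable]
    refine ⟨Eventually.of_forall fun t => ?_, ?_⟩
    · have h1 := (integrableOn_exp_mul_complex_Ioi (hneg t) 0).const_mul (ψ t)
      refine Integrable.congr h1 (Eventually.of_forall fun y => ?_)
      exact (hform y t).symm
    · have e1 : (fun t : ℝ => ∫ y in Ioi (0 : ℝ), ‖Function.uncurry f (y, t)‖) =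
          fun t => ‖ψ t‖ * (δ + t ^ 2)⁻¹ := by
        funext t
        exact hint t
      rw [e1]
      have h3 : Continuous fun t : ℝ => ‖ψ t‖ * (δ + t ^ 2)⁻¹ := by
        refine hψc.norm.mul (Continuous.inv₀ (by fun_prop) fun t => ?_)
        have := sq_nonneg t
        linarith
      refine Integrable.mono' ((decay_int (p := 3 / 2) (by norm_num)).const_mul
        (C * (1 + x) * (2 * (1 + 1 / δ)))) h3.aestronglyMeasurable (Eventually.of_forall fun t => ?_)
      have h4 : 0 < δ + t ^ 2 := by positivity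
      rw [Real.norm_eq_abs, abs_of_nonneg (by positivity)]
      have h5 : (1 + |t|) ^ (-(3 / 2) : ℝ) = (1 + |t|) ^ (1 / 2 : ℝ) / (1 + |t|) ^ 2 := by
        rw [show (-(3 / 2) : ℝ) = 1 / 2 - 2 by norm_num, Real.rpow_sub (by positivity)]
        congr 1
        rw [show (2 : ℝ) = ((2 : ℕ) : ℝ) by norm_num, Real.rpow_natCast]
      rw [h5]
      have h6 : (1 + |t|) ^ 2 ≤ 2 * (1 + 1 / δ) * (δ + t ^ 2) := by
        have h7 : t ^ 2 = |t| ^ 2 := (sq_abs t).symm
        have h8 : 2 * (1 + 1 / δ) * (δ + t ^ 2) = 2 * (δ + t ^ 2 + 1 + t ^ 2 / δ) := by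
          field_simp
          ring
        rw [h8]
        have h9 : 0 ≤ t ^ 2 / δ := by positivity
        nlinarith [sq_nonneg (1 - |t|)]
      calc ‖ψ t‖ * (δ + t ^ 2)⁻¹ ≤ (C * (1 + x) * (1 + |t|) ^ (1 / 2 : ℝ)) *
            (2 * (1 + 1 / δ) / (1 + |t|) ^ 2) := by
            refine mul_le_mul (H.line_bd t) ?_ (by positivity) (by positivity)
            rw [inv_eq_one_div, div_le_div_iff₀ h4 (by positivity), one_mul]
            exact h6
        _ = _ := by ring
  have hin : ∀ y : ℝ, exp (-(p ^ 2 * y)) * hw F₀ x y = ((2 * Real.pi)⁻¹ : ℝ) * ∫ t : ℝ, f y t := by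
    intro y
    unfold hw V
    rw [mul_left_comm, ← integral_const_mul]
  constructor
  · have h1 := (hI.integral_prod_left).const_mul ((((2 * Real.pi)⁻¹ : ℝ)) : ℂ)
    refine Integrable.congr h1 (Eventually.of_forall fun y => ?_)
    exact (hin y).symm
  · simp only [hin]
    rw [integral_const_mul, integral_integral_swap hI]
    have h1 : ∀ t : ℝ, ∫ y in Ioi (0 : ℝ), f y t =
        (fun z => logDeriv F₀ z / (p ^ 2 - z ^ 2)) (x + t * I) := by
      intro t
      simp only [hform]
      rw [integral_const_mul, integral_exp_mul_complex_Ioi (hneg t)]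
      simp only [Complex.ofReal_zero, mul_zero, Complex.exp_zero]
      have n1 : ((x : ℂ) + t * I) ^ 2 - p ^ 2 ≠ 0 := fun h => by
        have := hneg t
        rw [h] at this
        simp at this
      have n2 : p ^ 2 - ((x : ℂ) + t * I) ^ 2 ≠ 0 := fun h => n1 (by
        rw [← neg_sub, h, neg_zero])
      rw [hψ]
      simp only
      rw [← neg_sub (p ^ 2) (((x : ℂ) + t * I) ^ 2), neg_div_neg_eq]
      ring
    simp only [h1]
    have h2 := poisson (G := logDeriv F₀) (C := C) hx.le (fun z hz => H.ld (H.lt.trans_le hz))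
      (fun z hz => H.bd z hz) hp
    unfold V at h2
    exact h2

/-- holomorphy of a Laplace transform -/
theorem lap_holo {f : ℝ → ℂ} {B C₁ Y : ℝ} (hB : 0 ≤ B) (hC : 0 ≤ C₁)
    (hm : AEStronglyMeasurable f (volume.restrict (Ioi 0))) (hi : IntegrableOn f (Ioc 0 Y))
    (hb : ∀ y : ℝ, Y < y → ‖f y‖ ≤ C₁ * Real.exp (-(B * y))) {v : ℂ} (hv : -B < v.re) :
    DifferentiableAt ℂ (fun v : ℂ => ∫ y in Ioi (0 : ℝ), exp (-(v * y)) * f y) v := by
  set ε : ℝ := (v.re + B) / 2 with hε
  have hε0 : 0 < ε := by rw [hε]; linarith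
  set O : Set ℂ := {v | -B + ε < v.re} with hO
  have hOo : IsOpen O := isOpen_lt continuous_const Complex.continuous_re
  have hexp : IntegrableOn (fun T : ℝ => C₁ * Real.exp (-(ε * T))) (Ioi 0) := by
    have := integrableOn_exp_mul_Ioi (a := -ε) (by linarith) 0
    refine Integrable.const_mul ?_ _
    refine this.congr_fun (fun T _ => ?_) measurableSet_Ioi
    simp only
    congr 1
    ring
  have hnear : IntegrableOn (fun y : ℝ => Real.exp (B * Y) * ‖(Ioc 0 Y).indicator f y‖) (Ioi 0) := by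
    refine Integrable.const_mul ?_ _
    refine Integrable.norm ?_
    have h1 : Integrable ((Ioc 0 Y).indicator f) := (integrable_indicator_iff measurableSet_Ioc).2 hi
    exact h1.integrableOn
  have h2 := Pool.Agent.HP.differentiableOn_integral (volume.restrict (Ioi (0 : ℝ)))
    (fun (y : ℝ) (v : ℂ) => if 0 < y then exp (-(v * y)) * f y else 0) O hOo
    (fun v _ => ?_) (fun y => ?_)
    (fun y => Real.exp (B * Y) * ‖(Ioc 0 Y).indicator f y‖ + C₁ * Real.exp (-(ε * y)))
    (hnear.add hexp) (fun y v hv => ?_)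
  · have h3 : (fun v : ℂ => ∫ y in Ioi (0 : ℝ),
        (if 0 < y then exp (-(v * y)) * f y else 0)) =
        fun v : ℂ => ∫ y in Ioi (0 : ℝ), exp (-(v * y)) * f y := by
      funext v
      refine setIntegral_congr_fun measurableSet_Ioi fun y hy => ?_
      rw [if_pos (show 0 < y from hy)]
    rw [h3] at h2
    exact h2.differentiableAt (hOo.mem_nhds (show -B + ε < v.re by rw [hε]; linarith))
  · have h3 : AEStronglyMeasurable (fun y : ℝ => exp (-(v * y)) * f y)
        (volume.restrict (Ioi 0)) :=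
      (Continuous.aestronglyMeasurable (by fun_prop)).mul hm
    refine h3.congr ?_
    filter_upwards [ae_restrict_mem measurableSet_Ioi] with y hy
    rw [if_pos (show 0 < y from hy)]
  · by_cases hy : 0 < y
    · simp only [hy, if_true]
      exact Differentiable.differentiableOn (by fun_prop)
    · simp only [hy, if_false]
      exact differentiableOn_const _
  · have hv' : -B + ε < v.re := hv
    have e1 : (-(v * (y : ℂ))).re = -(v.re * y) := by
      rw [Complex.neg_re, Complex.re_mul_ofReal]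
    split_ifs with hy
    · rw [norm_mul, Complex.norm_exp, e1]
      rcases le_or_gt y Y with h | h
      · have e2 : (Ioc 0 Y).indicator f y = f y := indicator_of_mem (show y ∈ Ioc 0 Y from ⟨hy, h⟩) f
        rw [e2]
        have e3 : Real.exp (-(v.re * y)) ≤ Real.exp (B * Y) := by
          refine Real.exp_le_exp.2 ?_
          nlinarith
        have e4 : 0 ≤ C₁ * Real.exp (-(ε * y)) := by positivity
        have e5 := mul_le_mul_of_nonneg_right e3 (norm_nonneg (f y))
        linarith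
      · have e4 : 0 ≤ Real.exp (B * Y) * ‖(Ioc 0 Y).indicator f y‖ := by positivity
        have e5 : Real.exp (-(v.re * y)) * ‖f y‖ ≤ C₁ * Real.exp (-(ε * y)) := by
          calc Real.exp (-(v.re * y)) * ‖f y‖ ≤
              Real.exp (-((-B + ε) * y)) * (C₁ * Real.exp (-(B * y))) := by
                refine mul_le_mul (Real.exp_le_exp.2 ?_) (hb y h) (norm_nonneg _)
                  (Real.exp_pos _).le
                nlinarith
            _ = C₁ * (Real.exp (-((-B + ε) * y)) * Real.exp (-(B * y))) := by ring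
            _ = _ := by
              rw [← Real.exp_add]
              congr 2
              ring
        linarith
    · simp only [norm_zero]
      positivity

end Pool.Agent.R791.Fe
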