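import Pool.Agent.R791.Fe2

/-!
# From an exponential sum to a meromorphic function with a functional equation in a strip
-/

set_option autoImplicit false

open MeasureTheory Filter Topology Set Complex
open Pool.Agent.TH942.SL

namespace Pool.Agent.R791.Fe

open Pool.Agent.R791.Heat

/-- two functions which are meromorphic along a horizontal ray and agree near one of its points agree near
its end point -/
theorem mray_eq2 {f g : ℂ → ℂ} {v : ℂ} (hf : ∀ x : ℝ, 0 ≤ x → MeromorphicAt f (v + x))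
    (hg : ∀ x : ℝ, 0 ≤ x → MeromorphicAt g (v + x)) {x₁ : ℝ} (hx : 0 ≤ x₁)
    (h : f =ᶠ[𝓝[≠] (v + (x₁ : ℂ))] g) : f =ᶠ[𝓝[≠] v] g := by
  set U : Set ℂ := (fun x : ℝ => v + (x : ℂ)) '' Ici 0 with hU
  have hUc : IsConnected U := isConnected_Ici.image _ (by fun_prop)
  have hm : MeromorphicOn (fun z => f z - g z) U := by
    rintro _ ⟨x, hx, rfl⟩
    exact (hf x hx).sub (hg x hx)
  have htop : ∀ u ∈ U, meromorphicOrderAt (fun z => f z - g z) u = ⊤ := by
    by_contra hcon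
    push Not at hcon
    have h1 := (hm.exists_meromorphicOrderAt_ne_top_iff_forall_mem hUc).1 hcon
    have h2 : v + (x₁ : ℂ) ∈ U := ⟨x₁, hx, rfl⟩
    refine h1 _ h2 ?_
    rw [meromorphicOrderAt_eq_top_iff]
    filter_upwards [h] with z hz
    rw [hz, sub_self]
  have h3 := htop v ⟨0, Set.mem_Ici.2 le_rfl, by simp⟩
  rw [meromorphicOrderAt_eq_top_iff] at h3
  filter_upwards [h3] with z hz
  exact sub_eq_zero.1 hz

/-- the factor of the exponent `ζ` -/
noncomputable def fac (k : ℤ) (ζ z : ℂ) : ℂ := if ζ = 0 then z ^ k else (z ^ 2 - ζ) ^ (k / 2)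

lemma fac_mero (k : ℤ) (ζ z : ℂ) : MeromorphicAt (fac k ζ) z := by
  unfold fac
  by_cases h : ζ = 0
  · simp only [h, if_true]
    exact MeromorphicAt.zpow (f := fun z : ℂ => z) (by fun_prop) _
  · simp only [h, if_false]
    exact MeromorphicAt.zpow (f := fun z : ℂ => z ^ 2 - ζ) (by fun_prop) _

lemma fac_neg (k : ℤ) (ζ z : ℂ) : fac k ζ (-z) = (if ζ = 0 then (-1 : ℂ) ^ k else 1) * fac k ζ z := by
  unfold fac
  by_cases h : ζ = 0
  · simp only [h, if_true]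
    rw [← mul_zpow, neg_one_mul]
  · simp only [h, if_false]
    rw [neg_sq, one_mul]

lemma fac_diff {k : ℤ} (hk : 0 ≤ k) (ζ z : ℂ) : DifferentiableAt ℂ (fac k ζ) z := by
  unfold fac
  by_cases h : ζ = 0
  · simp only [h, if_true]
    exact DifferentiableAt.zpow (by fun_prop) (Or.inr hk)
  · simp only [h, if_false]
    exact DifferentiableAt.zpow (by fun_prop) (Or.inr (by omega))

lemma fac_zero {k : ℤ} {ζ z : ℂ} (h : fac k ζ z = 0) : z ^ 2 = ζ := by
  unfold fac at h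
  by_cases h0 : ζ = 0
  · rw [if_pos h0] at h
    rw [h0, eq_zero_of_zpow_eq_zero h]
    simp
  · rw [if_neg h0] at h
    exact sub_eq_zero.1 (eq_zero_of_zpow_eq_zero h)

lemma fac_an {k : ℤ} {ζ z : ℂ} (h : z ^ 2 = ζ → 0 ≤ k) : AnalyticAt ℂ (fac k ζ) z := by
  by_cases h0 : ζ = 0
  · have e1 : fac k ζ = fun z : ℂ => z ^ k := by
      funext z
      unfold fac
      rw [if_pos h0]
    rw [e1]
    by_cases hz : z = 0
    · exact AnalyticAt.fun_zpow_nonneg (f := fun z : ℂ => z) (by fun_prop)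
        (h (by rw [hz, h0]; simp))
    · exact AnalyticAt.fun_zpow (f := fun z : ℂ => z) (by fun_prop) hz
  · have e1 : fac k ζ = fun z : ℂ => (z ^ 2 - ζ) ^ (k / 2) := by
      funext z
      unfold fac
      rw [if_neg h0]
    rw [e1]
    by_cases hz : z ^ 2 = ζ
    · exact AnalyticAt.fun_zpow_nonneg (f := fun z : ℂ => z ^ 2 - ζ) (by fun_prop)
        (by have := h hz; omega)
    · exact AnalyticAt.fun_zpow (f := fun z : ℂ => z ^ 2 - ζ) (by fun_prop) (sub_ne_zero.2 hz)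

lemma fac_inv_an {k : ℤ} {ζ z : ℂ} (h : z ^ 2 = ζ → k ≤ 0) :
    AnalyticAt ℂ (fun z => (fac k ζ z)⁻¹) z := by
  by_cases h0 : ζ = 0
  · have e1 : (fun z => (fac k ζ z)⁻¹) = fun z : ℂ => z ^ (-k) := by
      funext z
      unfold fac
      rw [if_pos h0, zpow_neg]
    rw [e1]
    by_cases hz : z = 0
    · exact AnalyticAt.fun_zpow_nonneg (f := fun z : ℂ => z) (by fun_prop)
        (by have := h (by rw [hz, h0]; simp); omega)
    · exact AnalyticAt.fun_zpow (f := fun z : ℂ => z) (by fun_prop) hz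
  · have e1 : (fun z => (fac k ζ z)⁻¹) = fun z : ℂ => (z ^ 2 - ζ) ^ (-(k / 2)) := by
      funext z
      unfold fac
      rw [if_neg h0, zpow_neg]
    rw [e1]
    by_cases hz : z ^ 2 = ζ
    · exact AnalyticAt.fun_zpow_nonneg (f := fun z : ℂ => z ^ 2 - ζ) (by fun_prop)
        (by have := h hz; omega)
    · exact AnalyticAt.fun_zpow (f := fun z : ℂ => z ^ 2 - ζ) (by fun_prop) (sub_ne_zero.2 hz)

lemma fac_dv {k : ℤ} {ζ z : ℂ} (hk : ζ ≠ 0 → Even k) (hz : z ≠ 0) (hζ : z ^ 2 - ζ ≠ 0) :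
    DifferentiableAt ℂ (fac k ζ) z ∧ logDeriv (fac k ζ) z = k * z / (z ^ 2 - ζ) := by
  by_cases h : ζ = 0
  · have e1 : fac k ζ = fun z : ℂ => z ^ k := by
      funext z
      unfold fac
      rw [if_pos h]
    rw [e1]
    refine ⟨DifferentiableAt.zpow (by fun_prop) (Or.inl hz), ?_⟩
    rw [logDeriv_fun_zpow (by fun_prop), logDeriv_apply, h]
    simp
    field_simp
  · have e1 : fac k ζ = fun z : ℂ => (z ^ 2 - ζ) ^ (k / 2) := by
      funext z
      unfold fac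
      rw [if_neg h]
    rw [e1]
    refine ⟨DifferentiableAt.zpow (by fun_prop) (Or.inl hζ), ?_⟩
    rw [logDeriv_fun_zpow (by fun_prop), logDeriv_apply]
    have e2 : deriv (fun z : ℂ => z ^ 2 - ζ) z = 2 * z := by
      simp
    rw [e2]
    obtain ⟨j, hj⟩ := hk h
    have e3 : k / 2 = j := by omega
    rw [e3, hj]
    push_cast
    field_simp
    ring

variable {F₀ : ℂ → ℂ} {a x C : ℝ}

lemma sq_re' (z : ℂ) : (z ^ 2).re = z.re ^ 2 - z.im ^ 2 := by
  rw [sq, Complex.mul_re]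
  ring

/-- **the function in a strip** -/
theorem strip_fn (H : FD F₀ a x C) {n : ℝ} (hn : 0 < n) (S : Finset ℂ) (k : ℂ → ℤ)
    (heven : ∀ ζ ∈ S, ζ ≠ 0 → Even (k ζ)) {C₁ y₀ : ℝ} (hM : ∀ y : ℝ, y₀ ≤ y →
      ‖2 * hw F₀ x y - ∑ ζ ∈ S, (k ζ : ℂ) * exp (ζ * y)‖ ≤ C₁ * Real.exp (-(n ^ 2 * y))) :
    ∃ (Λ : ℂ → ℂ) (ε : ℂ), (ε = 1 ∨ ε = -1) ∧ (∀ z : ℂ, |z.im| < n → MeromorphicAt Λ z) ∧
      (∀ z : ℂ, |z.im| < n → (∀ ζ ∈ S, z ^ 2 = ζ → 0 ≤ k ζ) → AnalyticAt ℂ Λ z) ∧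
      (∀ z : ℂ, |z.im| < n → (∀ ζ ∈ S, z ^ 2 = ζ → k ζ ≤ 0) →
        AnalyticAt ℂ (fun w => (Λ w)⁻¹) z) ∧
      (∀ z : ℂ, Λ (-z) = ε * Λ z) ∧
      ∀ z : ℂ, |z.im| < n → a < z.re → Λ =ᶠ[𝓝[≠] z] F₀ := by
  have hx := H.x0
  set E : ℝ → ℂ := fun y => ∑ ζ ∈ S, (k ζ : ℂ) * exp (ζ * y) with hE
  have hEc : Continuous E := by rw [hE]; fun_prop
  set r : ℝ := ∑ ζ ∈ S, ‖ζ‖ with hr
  have hr0 : 0 ≤ r := Finset.sum_nonneg fun _ _ => norm_nonneg _
  have hzr : ∀ ζ ∈ S, ‖ζ‖ ≤ r := fun ζ hζ =>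
    Finset.single_le_sum (f := fun ζ : ℂ => ‖ζ‖) (fun _ _ => norm_nonneg _) hζ
  set P : ℝ := x + n + r + 1 with hP
  have hsq : ∀ z : ℂ, P < z.re → |z.im| < n → x ^ 2 + r < (z ^ 2).re := by
    intro z hz hz2
    rw [sq_re']
    have h1 : z.im ^ 2 < n ^ 2 := sq_lt_sq' (by linarith [(abs_lt.1 hz2).1]) (abs_lt.1 hz2).2
    have h2 : P ^ 2 ≤ z.re ^ 2 := pow_le_pow_left₀ (by positivity) hz.le 2
    have h3 : x ^ 2 + n ^ 2 + 2 * r ≤ P ^ 2 := by
      rw [hP]
      nlinarith [mul_nonneg hx.le hn.le, mul_nonneg hx.le hr0, mul_nonneg hn.le hr0, sq_nonneg r]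
    linarith
  -- the remainder
  set f : ℝ → ℂ := fun y => hw F₀ x y - E y / 2 with hf
  set p₀ : ℂ := ((x + 1 : ℝ) : ℂ) with hp₀
  obtain ⟨hi₀, -⟩ := lap H (p := p₀) (by rw [hp₀, Complex.ofReal_re]; linarith) (by
    rw [hp₀, ← Complex.ofReal_pow, Complex.ofReal_re]
    nlinarith)
  have hwm : AEStronglyMeasurable (fun y : ℝ => hw F₀ x y) (volume.restrict (Ioi 0)) := by
    have h1 : AEStronglyMeasurable (fun y : ℝ => exp (p₀ ^ 2 * y) *
        (exp (-(p₀ ^ 2 * y)) * hw F₀ x y)) (volume.restrict (Ioi 0)) :=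
      (Continuous.aestronglyMeasurable (by fun_prop)).mul hi₀.aestronglyMeasurable
    refine h1.congr (Eventually.of_forall fun y => ?_)
    simp only
    rw [← mul_assoc, ← Complex.exp_add, add_neg_cancel, Complex.exp_zero, one_mul]
  have hfm : AEStronglyMeasurable f (volume.restrict (Ioi 0)) :=
    hwm.sub (Continuous.aestronglyMeasurable (by fun_prop))
  set Y : ℝ := |y₀| with hY
  have hwi : IntegrableOn (fun y : ℝ => hw F₀ x y) (Ioc 0 Y) := by
    have h1 : IntegrableOn (fun y : ℝ => exp (-(p₀ ^ 2 * y)) * hw F₀ x y) (Ioc 0 Y) :=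
      hi₀.mono_set fun y hy => hy.1
    refine Integrable.mono' (h1.norm.const_mul (Real.exp ((x + 1) ^ 2 * Y)))
      (hwm.mono_measure (Measure.restrict_mono (fun y hy => hy.1) le_rfl)) ?_
    filter_upwards [ae_restrict_mem measurableSet_Ioc] with y hy
    rw [norm_mul, Complex.norm_exp, ← mul_assoc, ← Real.exp_add]
    refine le_mul_of_one_le_left (norm_nonneg _) (Real.one_le_exp ?_)
    have h2 : (-(p₀ ^ 2 * (y : ℂ))).re = -((x + 1) ^ 2 * y) := by
      rw [hp₀, ← Complex.ofReal_pow, ← Complex.ofReal_mul, Complex.neg_re, Complex.ofReal_re]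
    rw [h2]
    have h3 : (x + 1) ^ 2 * y ≤ (x + 1) ^ 2 * Y := mul_le_mul_of_nonneg_left hy.2 (by positivity)
    linarith
  have hfi : IntegrableOn f (Ioc 0 Y) := by
    refine Integrable.sub hwi ?_
    have h1 : IntegrableOn (fun y => E y / 2) (Icc 0 Y) :=
      (hEc.div_const 2).continuousOn.integrableOn_compact isCompact_Icc
    exact h1.mono_set Ioc_subset_Icc_self
  have hfb : ∀ y : ℝ, Y < y → ‖f y‖ ≤ |C₁| * Real.exp (-(n ^ 2 * y)) := by
    intro y hy
    have h1 := hM y ((le_abs_self y₀).trans hy.le)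
    have h2 : f y = (2 * hw F₀ x y - E y) / 2 := by
      rw [hf]
      simp only
      ring
    rw [h2, norm_div]
    have h3 : ‖(2 : ℂ)‖ = 2 := by simp
    rw [h3]
    have h4 : C₁ * Real.exp (-(n ^ 2 * y)) ≤ |C₁| * Real.exp (-(n ^ 2 * y)) :=
      mul_le_mul_of_nonneg_right (le_abs_self _) (Real.exp_pos _).le
    have h5 : 0 ≤ |C₁| * Real.exp (-(n ^ 2 * y)) := by positivity
    linarith
  set φ : ℂ → ℂ := fun v => ∫ y in Ioi (0 : ℝ), exp (-(v * y)) * f y with hφ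
  set U : Set ℂ := {v | -(n ^ 2) < v.re} with hU
  have hUo : IsOpen U := isOpen_lt continuous_const Complex.continuous_re
  have hUc : Convex ℝ U := convex_halfSpace_re_gt _
  have hφd : ∀ v ∈ U, DifferentiableAt ℂ φ v := fun v hv =>
    lap_holo (sq_nonneg n) (abs_nonneg C₁) hfm hfi hfb hv
  -- the value of the transform
  have hφv : ∀ p : ℂ, P < p.re → |p.im| < n → φ (p ^ 2) =
      logDeriv F₀ p / (2 * p) - ∑ ζ ∈ S, (k ζ : ℂ) / 2 / (p ^ 2 - ζ) := by
    intro p hp hp2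
    have h1 := hsq p hp hp2
    obtain ⟨i1, e1⟩ := lap H (p := p) (by linarith) (by linarith)
    have hvz : ∀ ζ ∈ S, (ζ - p ^ 2).re < 0 := fun ζ hζ => by
      rw [Complex.sub_re]
      have e3 := (re_le_norm ζ).trans (hzr ζ hζ)
      have := sq_nonneg x
      linarith
    have i2 : ∀ ζ ∈ S, IntegrableOn (fun y : ℝ => (k ζ : ℂ) / 2 * exp ((ζ - p ^ 2) * y)) (Ioi 0) :=
      fun ζ hζ => (integrableOn_exp_mul_complex_Ioi (hvz ζ hζ) 0).const_mul _
    have e3 : ∀ y : ℝ, exp (-(p ^ 2 * y)) * f y = exp (-(p ^ 2 * y)) * hw F₀ x y -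
        ∑ ζ ∈ S, (k ζ : ℂ) / 2 * exp ((ζ - p ^ 2) * y) := by
      intro y
      rw [hf, hE]
      simp only
      rw [mul_sub, Finset.sum_div, Finset.mul_sum]
      congr 1
      refine Finset.sum_congr rfl fun ζ _ => ?_
      have e4 : exp ((ζ - p ^ 2) * y) = exp (-(p ^ 2 * y)) * exp (ζ * y) := by
        rw [← Complex.exp_add]
        congr 1
        ring
      rw [e4]
      ring
    rw [hφ]
    simp only [e3]
    rw [integral_sub i1 (integrable_finsetSum _ i2), e1, integral_finsetSum _ i2]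
    congr 1
    refine Finset.sum_congr rfl fun ζ hζ => ?_
    rw [integral_const_mul, integral_exp_mul_complex_Ioi (hvz ζ hζ)]
    have n1 : ζ - p ^ 2 ≠ 0 := fun h => by
      have := hvz ζ hζ
      rw [h] at this
      simp at this
    have n2 : p ^ 2 - ζ ≠ 0 := fun h => n1 (by rw [← neg_sub, h, neg_zero])
    simp only [Complex.ofReal_zero, mul_zero, Complex.exp_zero]
    rw [← neg_sub (p ^ 2) ζ, neg_div_neg_eq]
    ring
  obtain ⟨Φ, hΦ⟩ := convex_primitive hUo hUc (f := φ) fun v hv =>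
    (hφd v hv).differentiableWithinAt
  have hstrip : ∀ z : ℂ, |z.im| < n → z ^ 2 ∈ U := by
    intro z hz
    change -(n ^ 2) < (z ^ 2).re
    rw [sq_re']
    have h1 : z.im ^ 2 < n ^ 2 := sq_lt_sq' (by linarith [(abs_lt.1 hz).1]) (abs_lt.1 hz).2
    have := sq_nonneg z.re
    linarith
  have hΦz : ∀ z : ℂ, |z.im| < n → HasDerivAt (fun z => Φ (z ^ 2)) (φ (z ^ 2) * (2 * z)) z := by
    intro z hz
    have h1 : HasDerivAt (fun z : ℂ => z ^ 2) (2 * z) z := by
      simpa using hasDerivAt_pow 2 z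
    exact HasDerivAt.comp z (hΦ _ (hstrip z hz)) h1
  set Pf : ℂ → ℂ := fun z => ∏ ζ ∈ S, fac (k ζ) ζ z with hPf
  set g₁ : ℂ → ℂ := fun z => exp (Φ (z ^ 2)) * Pf z with hg₁
  set W : Set ℂ := {z : ℂ | P < z.re} ∩ ({z : ℂ | -n < z.im} ∩ {z : ℂ | z.im < n}) with hW
  have hWo : IsOpen W := (isOpen_lt continuous_const Complex.continuous_re).inter
    ((isOpen_lt continuous_const Complex.continuous_im).inter
      (isOpen_lt Complex.continuous_im continuous_const))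
  have hWc : Convex ℝ W := (convex_halfSpace_re_gt P).inter
    ((convex_halfSpace_im_gt _).inter (convex_halfSpace_im_lt _))
  have hW1 : ∀ z ∈ W, P < z.re ∧ |z.im| < n := fun z hz => ⟨hz.1, abs_lt.2 ⟨hz.2.1, hz.2.2⟩⟩
  have hWn : ∀ z ∈ W, ∀ ζ ∈ S, z ^ 2 - ζ ≠ 0 := by
    intro z hz ζ hζ h
    have h1 := hsq z (hW1 z hz).1 (hW1 z hz).2
    rw [sub_eq_zero.1 h] at h1
    have e3 := (re_le_norm ζ).trans (hzr ζ hζ)
    have := sq_nonneg x
    linarith
  have hW0 : ∀ z ∈ W, z ≠ 0 := by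
    intro z hz h
    have h1 := (hW1 z hz).1
    rw [h] at h1
    simp only [Complex.zero_re] at h1
    linarith
  have hPn : ∀ z ∈ W, ∀ ζ ∈ S, fac (k ζ) ζ z ≠ 0 := fun z hz ζ hζ h =>
    hWn z hz ζ hζ (sub_eq_zero.2 (fac_zero h))
  have hder : ∀ z ∈ W, HasDerivAt (fun z => g₁ z * (F₀ z)⁻¹) 0 z := by
    intro z hz
    have hz1 := hW1 z hz
    have hza : a < z.re := by have := H.lt; linarith [hz1.1]
    have hF := (H.diff z hza).hasDerivAt
    have hFn := H.ne z hza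
    have hd : ∀ ζ ∈ S, DifferentiableAt ℂ (fac (k ζ) ζ) z ∧
        logDeriv (fac (k ζ) ζ) z = k ζ * z / (z ^ 2 - ζ) := fun ζ hζ =>
      fac_dv (heven ζ hζ) (hW0 z hz) (hWn z hz ζ hζ)
    have hPfn : Pf z ≠ 0 := Finset.prod_ne_zero_iff.2 (hPn z hz)
    have hPfd : DifferentiableAt ℂ Pf z := by
      rw [hPf]
      exact DifferentiableAt.fun_finsetProd fun ζ hζ => (hd ζ hζ).1
    have e2 : logDeriv Pf z = ∑ ζ ∈ S, (k ζ : ℂ) * z / (z ^ 2 - ζ) := by
      rw [hPf, logDeriv_prod (f := fun (ζ w : ℂ) => fac (k ζ) ζ w) (hPn z hz)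
        fun ζ hζ => (hd ζ hζ).1]
      exact Finset.sum_congr rfl fun ζ hζ => (hd ζ hζ).2
    have e4 : HasDerivAt Pf (Pf z * ∑ ζ ∈ S, (k ζ : ℂ) * z / (z ^ 2 - ζ)) z := by
      rw [← e2, logDeriv_apply]
      have := hPfd.hasDerivAt
      refine this.congr_deriv ?_
      field_simp
    have e5 := (((hΦz z hz1.2).cexp).fun_mul e4).fun_mul (hF.fun_inv hFn)
    refine e5.congr_deriv ?_
    have e6 := hφv z hz1.1 hz1.2
    have hz0 := hW0 z hz
    have e7 : φ (z ^ 2) * (2 * z) = deriv F₀ z / F₀ z - ∑ ζ ∈ S, (k ζ : ℂ) * z / (z ^ 2 - ζ) := by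
      rw [e6, sub_mul, Finset.sum_mul, logDeriv_apply]
      congr 1
      · field_simp
      · refine Finset.sum_congr rfl fun ζ hζ => ?_
        ring
    rw [e7]
    field_simp
    ring
  set w₀ : ℂ := ((P + 1 : ℝ) : ℂ) with hw₀
  have hw₀W : w₀ ∈ W := by
    refine ⟨?_, ?_, ?_⟩
    · change P < w₀.re
      rw [hw₀, Complex.ofReal_re]
      linarith
    · change -n < w₀.im
      rw [hw₀, Complex.ofReal_im]
      linarith
    · change w₀.im < n
      rw [hw₀, Complex.ofReal_im]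
      linarith
  set q : ℂ := g₁ w₀ * (F₀ w₀)⁻¹ with hq
  have hconst : ∀ z ∈ W, g₁ z * (F₀ z)⁻¹ = q := fun z hz =>
    hWc.is_const_of_fderivWithin_eq_zero (𝕜 := ℂ) (f := fun z => g₁ z * (F₀ z)⁻¹)
      (fun z hz => (hder z hz).differentiableAt.differentiableWithinAt) (fun z hz => by
        rw [fderivWithin_of_isOpen hWo hz]
        ext
        simp [(hder z hz).deriv]) hz hw₀W
  have haW : ∀ z ∈ W, a < z.re := fun z hz => by have := H.lt; linarith [(hW1 z hz).1]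
  have hq0 : q ≠ 0 := by
    rw [hq, hg₁]
    refine mul_ne_zero (mul_ne_zero (Complex.exp_ne_zero _) ?_) (inv_ne_zero (H.ne _ (haW _ hw₀W)))
    exact Finset.prod_ne_zero_iff.2 (hPn w₀ hw₀W)
  set ε : ℂ := ∏ ζ ∈ S, (if ζ = 0 then (-1 : ℂ) ^ (k ζ) else 1) with hε
  have hε1 : ε = 1 ∨ ε = -1 := by
    have h1 : ∀ ζ : ℂ, (if ζ = 0 then (-1 : ℂ) ^ (k ζ) else 1) = 1 ∨
        (if ζ = 0 then (-1 : ℂ) ^ (k ζ) else 1) = -1 := by
      intro ζ
      split_ifs
      · rcases Int.even_or_odd (k ζ) with h | h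
        · exact Or.inl h.neg_one_zpow
        · exact Or.inr h.neg_one_zpow
      · exact Or.inl rfl
    rw [hε]
    refine Finset.prod_induction _ (fun w : ℂ => w = 1 ∨ w = -1) ?_ (Or.inl rfl) fun ζ _ => h1 ζ
    rintro u w (rfl | rfl) (rfl | rfl) <;> simp
  have hEa : ∀ z : ℂ, |z.im| < n → AnalyticAt ℂ (fun z => exp (Φ (z ^ 2))) z := by
    intro z hz
    have ho : IsOpen {z : ℂ | |z.im| < n} :=
      isOpen_lt (Complex.continuous_im.abs) continuous_const
    have h2 : DifferentiableOn ℂ (fun z => exp (Φ (z ^ 2))) {z : ℂ | |z.im| < n} := fun w hw =>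
      ((hΦz w hw).cexp).differentiableAt.differentiableWithinAt
    exact h2.analyticAt (ho.mem_nhds hz)
  have hΛm : ∀ z : ℂ, |z.im| < n → MeromorphicAt (fun z => q⁻¹ * g₁ z) z := by
    intro z hz
    refine (MeromorphicAt.const _ _).mul ((hEa z hz).meromorphicAt.mul ?_)
    rw [hPf]
    exact MeromorphicAt.fun_prod fun ζ _ => fac_mero _ _ _
  refine ⟨fun z => q⁻¹ * g₁ z, ε, hε1, hΛm, fun z hz hk => ?_, fun z hz hk => ?_,
    fun z => ?_, fun z hz hz2 => ?_⟩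
  · refine analyticAt_const.mul ((hEa z hz).mul ?_)
    rw [hPf]
    exact Finset.analyticAt_fun_prod _ fun ζ hζ => fac_an (hk ζ hζ)
  · have e1 : (fun w => (q⁻¹ * g₁ w)⁻¹) = fun w => q * ((exp (Φ (w ^ 2)))⁻¹ *
        ∏ ζ ∈ S, (fac (k ζ) ζ w)⁻¹) := by
      funext w
      change (q⁻¹ * (exp (Φ (w ^ 2)) * ∏ ζ ∈ S, fac (k ζ) ζ w))⁻¹ = _
      rw [Finset.prod_inv_distrib, ← mul_inv, mul_inv q⁻¹, inv_inv]
    rw [e1]
    refine analyticAt_const.mul (((hEa z hz).fun_inv (Complex.exp_ne_zero _)).mul ?_)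
    exact Finset.analyticAt_fun_prod _ fun ζ hζ => fac_inv_an (hk ζ hζ)
  · have h1 : Pf (-z) = ε * Pf z := by
      rw [hPf, hε]
      simp only
      rw [← Finset.prod_mul_distrib]
      exact Finset.prod_congr rfl fun ζ _ => fac_neg _ _ _
    rw [hg₁]
    simp only
    rw [h1, neg_sq]
    ring
  · set x₁ : ℝ := |P - z.re| + 1 with hx₁
    have hx10 : 0 ≤ x₁ := by positivity
    have hpt : z + (x₁ : ℂ) ∈ W := by
      have h1 := le_abs_self (P - z.re)
      refine ⟨?_, ?_, ?_⟩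
      · change P < (z + (x₁ : ℂ)).re
        rw [Complex.add_re, Complex.ofReal_re]
        linarith
      · change -n < (z + (x₁ : ℂ)).im
        rw [Complex.add_im, Complex.ofReal_im, add_zero]
        exact (abs_lt.1 hz).1
      · change (z + (x₁ : ℂ)).im < n
        rw [Complex.add_im, Complex.ofReal_im, add_zero]
        exact (abs_lt.1 hz).2
    refine mray_eq2 (x₁ := x₁) (fun t ht => hΛm _ (by simpa using hz)) (fun t ht => ?_) hx10 ?_
    · refine (H.an ?_).meromorphicAt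
      rw [Complex.add_re, Complex.ofReal_re]
      linarith
    · refine eventually_nhdsWithin_of_eventually_nhds ?_
      filter_upwards [hWo.mem_nhds hpt] with w hw
      have h1 := hconst w hw
      have h2 := H.ne w (haW w hw)
      have h3 : g₁ w = q * F₀ w := by
        rw [← h1]
        field_simp
      rw [h3]
      field_simp

end Pool.Agent.R791.Fe
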