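import Pool.Agent.R791.HeatFrob

/-!
# The completed L-function and the heat function of its zeros: definitions
-/

set_option autoImplicit false

open MeasureTheory Filter Topology Set Complex

namespace Pool.Agent.R791.Frob

open NumberField IsDedekindDomain

/-- Data completing the L-function of `V`: Gamma factors `Γ_ℝ(s + shift j)` with `c + shift j > 0`,
finitely many further Euler factors `(1 - root j * q_j^(-s))⁻¹`, `q_j > 1`, with arbitrary complex numbers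
`root j`, and a real number `b ≥ c + 1/2` with `|root j| ≤ q_j^b`. -/
structure Completion {K : Type} [Field K] [NumberField K] {d : ℕ} {c : ℝ} (V : Frobenius K d c) where
  /-- the number of Gamma factors -/
  m : ℕ
  /-- the shifts of the Gamma factors -/
  shift : Fin m → ℝ
  shift_pos : ∀ j, 0 < c + shift j
  /-- the number of further Euler factors -/
  r : ℕ
  /-- the norms of the further Euler factors -/
  q : Fin r → ℝ
  one_lt : ∀ j, 1 < q j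
  /-- the inverse roots of the further Euler factors -/
  root : Fin r → ℂ
  /-- the half plane `Re s > b` -/
  b : ℝ
  b_ge : c + 1 / 2 ≤ b
  size : ∀ j, ‖root j‖ ≤ q j ^ b

namespace Completion

variable {K : Type} [Field K] [NumberField K] {d : ℕ} {c : ℝ} {V : Frobenius K d c}
  (L : Completion V)

/-- `∏_j Γ_ℝ(s + shift j)` -/
noncomputable def gam (s : ℂ) : ℂ := ∏ j, Gammaℝ (s + L.shift j)

/-- `∏_j (1 - root j * q_j^(-s))⁻¹` -/
noncomputable def fin (s : ℂ) : ℂ := ∏ j, (1 - L.root j * (L.q j : ℂ) ^ (-s))⁻¹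

/-- `Λ_A(s) = A^(s/2) ∏_j Γ_ℝ(s + shift j) ∏_j (1 - root j * q_j^(-s))⁻¹ L(s)` -/
noncomputable def Lam (A : ℝ) (s : ℂ) : ℂ := (A : ℂ) ^ (s / 2) * L.gam s * L.fin s * V.LSeries s

/-- `(2π)⁻¹ ∫ (gam'/gam)(c + it) e^(-t²y) dt` -/
noncomputable def archHeat (y : ℝ) : ℂ :=
  ((2 * Real.pi)⁻¹ : ℝ) * ∫ t : ℝ, logDeriv L.gam (c + t * I) * (Real.exp (-(t ^ 2 * y)) : ℝ)

/-- `(4πy)^(-1/2) ∑_j ∑_{k ≥ 1} root_j^k log(q_j) q_j^(-kc) exp (-(k log q_j)²/(4y))` -/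
noncomputable def finHeat (y : ℝ) : ℂ :=
  ((√(4 * Real.pi * y))⁻¹ : ℝ) * ∑ j, ∑' k : ℕ, L.root j ^ (k + 1) *
    ((Real.log (L.q j) * (L.q j ^ (-c)) ^ (k + 1) *
      Real.exp (-(((k : ℝ) + 1) * Real.log (L.q j)) ^ 2 / (4 * y)) : ℝ) : ℂ)

/-- `Z_A(y) = (4πy)^(-1/2) log A + 2 (archHeat(y) - finHeat(y) - Θ_c(y))` -/
noncomputable def Z (A y : ℝ) : ℂ :=
  ((Real.log A / √(4 * Real.pi * y) : ℝ) : ℂ) + 2 * (L.archHeat y - L.finHeat y - V.heat c y)

end Completion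

end Pool.Agent.R791.Frob

namespace Pool.Agent.R791.Fe

/-- `f(y) = ∑_ζ m(ζ) e^(ζy) + O(e^(-By))` for every `B`, with finitely many `ζ` such that `Q ζ (m ζ)` -/
def Exp (Q : ℂ → ℤ → Prop) (f : ℝ → ℂ) : Prop :=
  ∀ B : ℝ, ∃ (S : Finset ℂ) (m : ℂ → ℤ) (C : ℝ), (∀ ζ ∈ S, Q ζ (m ζ)) ∧
    ∀ᶠ y : ℝ in atTop, ‖f y - ∑ ζ ∈ S, (m ζ : ℂ) * exp (ζ * y)‖ ≤ C * Real.exp (-(B * y))

end Pool.Agent.R791.Fe
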