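import Pool.Agent.R791.Fe3
import Pool.Agent.R791.FeDef

/-!
# From exponential sums to a meromorphic function with a functional equation
-/

set_option autoImplicit false

open MeasureTheory Filter Topology Set Complex
open Pool.Agent.TH942.SL

namespace Pool.Agent.R791.Fe

open Pool.Agent.R791.Heat

/-- passing to the normal form -/
theorem nf_fe {F₁ F₀ : ℂ → ℂ} {a : ℝ} (hm : ∀ z : ℂ, MeromorphicAt F₁ z)
    (hd : ∀ z : ℂ, a < z.re → DifferentiableAt ℂ F₀ z) (hF : ∀ z : ℂ, a < z.re → F₁ z = F₀ z)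
    {ε : ℂ} (hε : ε ≠ 0) (hfe : ∀ z : ℂ, ∀ᶠ w in 𝓝[≠] z, F₁ (-w) = ε * F₁ w) :
    ∃ F : ℂ → ℂ, (∀ z, MeromorphicNFAt F z) ∧ (∀ z : ℂ, a < z.re → F z = F₀ z) ∧
      (∀ z, F (-z) = ε * F z) ∧ (∀ z, F =ᶠ[𝓝[≠] z] F₁) ∧
      ∀ z, AnalyticAt ℂ F₁ z → F =ᶠ[𝓝 z] F₁ := by
  have hmo : MeromorphicOn F₁ univ := fun z _ => hm z
  set F : ℂ → ℂ := toMeromorphicNFOn F₁ univ with hFd
  have hnf : ∀ z, MeromorphicNFAt F z := fun z =>
    meromorphicNFOn_toMeromorphicNFOn F₁ univ (mem_univ z)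
  have heq : ∀ z, F =ᶠ[𝓝[≠] z] F₁ := fun z =>
    hmo.toMeromorphicNFOn_eq_self_on_nhdsNE (mem_univ z)
  have han : ∀ z, AnalyticAt ℂ F₁ z → F =ᶠ[𝓝 z] F₁ := fun z hz =>
    ((hnf z).eventuallyEq_nhdsNE_iff_eventuallyEq_nhds hz.meromorphicNFAt).1 (heq z)
  have ho : IsOpen {s : ℂ | a < s.re} := isOpen_lt continuous_const Complex.continuous_re
  have hneg : ∀ z : ℂ, Tendsto (fun w : ℂ => -w) (𝓝[≠] z) (𝓝[≠] (-z)) := by
    intro z
    refine tendsto_nhdsWithin_of_tendsto_nhds_of_eventually_within _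
      (continuous_neg.continuousAt.tendsto.mono_left nhdsWithin_le_nhds) ?_
    filter_upwards [self_mem_nhdsWithin] with w hw h
    exact hw (neg_injective h)
  refine ⟨F, hnf, fun z hz => ?_, fun z => ?_, heq, han⟩
  · have h1 : AnalyticAt ℂ F₁ z := by
      have h2 : DifferentiableOn ℂ F₁ {s : ℂ | a < s.re} := fun t ht => by
        refine ((hd t ht).congr_of_eventuallyEq ?_).differentiableWithinAt
        filter_upwards [ho.mem_nhds ht] with w hw
        exact hF w hw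
      exact h2.analyticAt (ho.mem_nhds hz)
    rw [(han z h1).self_of_nhds, hF z hz]
  · have n1 : MeromorphicNFAt (F ∘ fun w => -w) z :=
      MeromorphicNFAt.comp_analyticAt (hnf (-z)) (by fun_prop)
    have n2 : MeromorphicNFAt ((fun _ => ε) * F) z :=
      (meromorphicNFAt_mul_iff_right analyticAt_const hε).2 (hnf z)
    have h1 : (F ∘ fun w => -w) =ᶠ[𝓝[≠] z] ((fun _ => ε) * F) := by
      filter_upwards [(hneg z).eventually (heq (-z)), heq z, hfe z] with w h2 h3 h4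
      simp only [Function.comp_apply, Pi.mul_apply]
      rw [h2, h3, h4]
    exact ((n1.eventuallyEq_nhdsNE_iff_eventuallyEq_nhds n2).1 h1).self_of_nhds

variable {F₀ : ℂ → ℂ} {a x C : ℝ}

/-- **the meromorphic function with a functional equation** -/
theorem glue_fe (H : FD F₀ a x C) {Q : ℂ → ℤ → Prop} (hQ : ∀ ζ m, Q ζ m → ζ ≠ 0 → Even m)
    (hexp : Exp Q fun y => 2 * hw F₀ x y) :
    ∃ F : ℂ → ℂ, (∀ z, MeromorphicNFAt F z) ∧ (∀ z : ℂ, a < z.re → F z = F₀ z) ∧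
      (∃ ε : ℂ, (ε = 1 ∨ ε = -1) ∧ ∀ z, F (-z) = ε * F z) ∧
      ∀ z, (0 < meromorphicOrderAt F z → ∃ m, 0 < m ∧ Q (z ^ 2) m) ∧
        (meromorphicOrderAt F z < 0 → ∃ m, m < 0 ∧ Q (z ^ 2) m) := by
  have key : ∀ n : ℕ, ∃ (S : Finset ℂ) (m : ℂ → ℤ) (Λ : ℂ → ℂ) (ε : ℂ), (∀ ζ ∈ S, Q ζ (m ζ)) ∧
      (ε = 1 ∨ ε = -1) ∧ (∀ z : ℂ, |z.im| < n + 1 → MeromorphicAt Λ z) ∧
      (∀ z : ℂ, |z.im| < n + 1 → (∀ ζ ∈ S, z ^ 2 = ζ → 0 ≤ m ζ) → AnalyticAt ℂ Λ z) ∧
      (∀ z : ℂ, |z.im| < n + 1 → (∀ ζ ∈ S, z ^ 2 = ζ → m ζ ≤ 0) →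
        AnalyticAt ℂ (fun w => (Λ w)⁻¹) z) ∧
      (∀ z : ℂ, Λ (-z) = ε * Λ z) ∧
      ∀ z : ℂ, |z.im| < n + 1 → a < z.re → Λ =ᶠ[𝓝[≠] z] F₀ := by
    intro n
    obtain ⟨S, m, C₁, hS, hC⟩ := hexp (((n : ℝ) + 1) ^ 2)
    obtain ⟨y₀, hy₀⟩ := eventually_atTop.1 hC
    obtain ⟨Λ, ε, h1, h2, h3, h4, h5, h6⟩ := strip_fn H (n := (n : ℝ) + 1) (by positivity) S m
      (fun ζ hζ => hQ ζ _ (hS ζ hζ)) hy₀
    exact ⟨S, m, Λ, ε, hS, h1, h2, h3, h4, h5, h6⟩
  choose S m Λ ε hS hε hΛm hΛa hΛi hΛe hΛF using key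
  set U : ℕ → Set ℂ := fun n => {z : ℂ | |z.im| < n + 1} with hU
  have hUo : ∀ n, IsOpen (U n) := fun n =>
    isOpen_lt (Complex.continuous_im.abs) continuous_const
  classical
  set G : ℕ → ℂ → ℂ := fun n z => if a < z.re then F₀ z else Λ n z with hG
  have hGΛ : ∀ n, ∀ z ∈ U n, G n =ᶠ[𝓝[≠] z] Λ n := by
    intro n z hz
    filter_upwards [(hΛm n z hz).eventually_analyticAt,
      nhdsWithin_le_nhds ((hUo n).mem_nhds hz)] with t ht1 ht2
    rw [hG]
    simp only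
    split_ifs with h
    · have h1 := hΛF n t ht2 h
      exact ((ht1.continuousAt.eventuallyEq_nhds_iff_eventuallyEq_nhdsNE
        (H.diff t h).continuousAt).1 h1).self_of_nhds.symm
    · rfl
  obtain ⟨F₁, hF₁, hFG, hF₁m, hF₁d⟩ := glue_mer (L := F₀) (σ := a) H.diff (U := U) hUo
    (fun n s hs t ht => by
      change |(s + (t : ℂ)).im| < n + 1
      rw [Complex.add_im, Complex.ofReal_im, add_zero]
      exact hs) (G := G)
    (fun n s hs => (hΛm n s hs).congr (hGΛ n s hs).symm)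
    (fun n s hs => by
      rw [hG]
      simp only
      rw [if_pos hs])
  have hcov : ∀ z : ℂ, ∃ n, z ∈ U n := fun z => by
    obtain ⟨n, hn⟩ := exists_nat_gt |z.im|
    exact ⟨n, by change |z.im| < n + 1; linarith⟩
  have hFΛ : ∀ n, ∀ z ∈ U n, F₁ =ᶠ[𝓝[≠] z] Λ n := fun n z hz => (hFG n z hz).trans (hGΛ n z hz)
  have hneg : ∀ z : ℂ, Tendsto (fun w : ℂ => -w) (𝓝[≠] z) (𝓝[≠] (-z)) := by
    intro z
    refine tendsto_nhdsWithin_of_tendsto_nhds_of_eventually_within _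
      (continuous_neg.continuousAt.tendsto.mono_left nhdsWithin_le_nhds) ?_
    filter_upwards [self_mem_nhdsWithin] with w hw h
    exact hw (neg_injective h)
  have hfe : ∀ n, ∀ z ∈ U n, ∀ᶠ w in 𝓝[≠] z, F₁ (-w) = ε n * F₁ w := by
    intro n z hz
    have hz' : -z ∈ U n := by
      change |(-z).im| < n + 1
      rw [Complex.neg_im, abs_neg]
      exact hz
    filter_upwards [(hneg z).eventually (hFΛ n (-z) hz'), hFΛ n z hz] with w h1 h2
    rw [h1, h2, hΛe]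
  have hεc : ∀ n, ε n = ε 0 := by
    intro n
    set z₀ : ℂ := ((a + 1 : ℝ) : ℂ) with hz₀
    have hz0 : a < z₀.re := by rw [hz₀, Complex.ofReal_re]; linarith
    have him : ∀ n, z₀ ∈ U n := fun n => by
      change |z₀.im| < n + 1
      rw [hz₀, Complex.ofReal_im, abs_zero]
      positivity
    have ho : IsOpen {s : ℂ | a < s.re} := isOpen_lt continuous_const Complex.continuous_re
    obtain ⟨w, ⟨h1, h2⟩, h3⟩ := (((hfe n z₀ (him n)).and (hfe 0 z₀ (him 0))).and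
      (nhdsWithin_le_nhds (ho.mem_nhds hz0))).exists
    have h4 : F₁ w ≠ 0 := by
      rw [hF₁ w h3]
      exact H.ne w h3
    rw [h1] at h2
    exact mul_right_cancel₀ h4 h2
  have hε0 : ε 0 ≠ 0 := by
    rcases hε 0 with h | h <;> rw [h] <;> simp
  obtain ⟨F, hnf, hFF, hFe, hFeq, hFan⟩ := nf_fe (F₁ := F₁) (F₀ := F₀) (a := a)
    (fun z => hF₁m z (Or.inl (hcov z))) H.diff hF₁ hε0 (fun z => by
      obtain ⟨n, hn⟩ := hcov z
      rw [← hεc n]
      exact hfe n z hn)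
  have hord : ∀ z, meromorphicOrderAt F z ≠ ⊤ := by
    have h1 : MeromorphicOn F univ := fun z _ => (hnf z).meromorphicAt
    have ho : IsOpen {s : ℂ | a < s.re} := isOpen_lt continuous_const Complex.continuous_re
    intro z
    set z₀ : ℂ := ((a + 1 : ℝ) : ℂ) with hz₀
    have hz0 : a < z₀.re := by rw [hz₀, Complex.ofReal_re]; linarith
    have h2 : meromorphicOrderAt F z₀ ≠ ⊤ := by
      rw [meromorphicOrderAt_ne_top_iff_eventually_ne_zero (hnf z₀).meromorphicAt]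
      refine eventually_nhdsWithin_of_eventually_nhds ?_
      filter_upwards [ho.mem_nhds hz0] with w hw
      rw [hFF w hw]
      exact H.ne w hw
    exact h1.meromorphicOrderAt_ne_top_of_isPreconnected isPreconnected_univ (mem_univ _)
      (mem_univ z) h2
  refine ⟨F, hnf, hFF, ⟨ε 0, hε 0, hFe⟩, fun z => ⟨fun hz => ?_, fun hz => ?_⟩⟩
  · obtain ⟨n, hn⟩ := hcov z
    have heq := (hFeq z).trans (hFΛ n z hn)
    by_contra hcon
    push Not at hcon
    have h1 := hΛi n z hn fun ζ hζ h => by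
      by_contra h2
      rw [not_le] at h2
      exact hcon (m n ζ) h2 (by rw [h]; exact hS n ζ hζ)
    have h3 : meromorphicOrderAt (Λ n)⁻¹ z = -meromorphicOrderAt (Λ n) z := meromorphicOrderAt_inv
    have h4 : 0 ≤ meromorphicOrderAt (Λ n)⁻¹ z := AnalyticAt.meromorphicOrderAt_nonneg h1
    rw [h3, ← meromorphicOrderAt_congr heq] at h4
    have h5 := hord z
    lift meromorphicOrderAt F z to ℤ using h5 with o ho
    have h6 : (0 : ℤ) < o := by exact_mod_cast hz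
    have h7 : (0 : ℤ) ≤ -o := by exact_mod_cast h4
    omega
  · obtain ⟨n, hn⟩ := hcov z
    have heq := (hFeq z).trans (hFΛ n z hn)
    by_contra hcon
    push Not at hcon
    have h1 := hΛa n z hn fun ζ hζ h => by
      by_contra h2
      rw [not_le] at h2
      exact hcon (m n ζ) h2 (by rw [h]; exact hS n ζ hζ)
    have h4 : 0 ≤ meromorphicOrderAt (Λ n) z := AnalyticAt.meromorphicOrderAt_nonneg h1
    rw [← meromorphicOrderAt_congr heq] at h4
    exact absurd hz (not_lt.2 h4)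

end Pool.Agent.R791.Fe
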