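import Pool.Agent.R791.Fe4

/-!
# The residue theorem for a rectangle and a meromorphic function
-/

set_option autoImplicit false

open MeasureTheory Filter Topology Set Complex
open Pool.Agent.TH942.SL

namespace Pool.Agent.R791.Fe

open Pool.Agent.R791.Heat H370

lemma RI_sum {a b c d : ℝ} (hab : a ≤ b) (hcd : c ≤ d) {ι : Type*} (S : Finset ι) (f : ι → ℂ → ℂ)
    (hf : ∀ i ∈ S, ContinuousOn (f i) (Bd a b c d)) :
    RI a b c d (fun s => ∑ i ∈ S, f i s) = ∑ i ∈ S, RI a b c d (f i) := by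
  classical
  induction S using Finset.induction with
  | empty =>
    simp only [Finset.sum_empty]
    exact RI_zero hab hcd (differentiableOn_const _)
  | insert i S hi ih =>
    simp only [Finset.sum_insert hi]
    rw [RI_add hab hcd (hf i (Finset.mem_insert_self i S))
      (continuousOn_finsetSum _ fun j hj => hf j (Finset.mem_insert_of_mem hj)),
      ih fun j hj => hf j (Finset.mem_insert_of_mem hj)]

lemma bd_of {a b c d : ℝ} {z : ℂ} (h1 : z ∈ Icc a b ×ℂ Icc c d) (h2 : z ∉ Ioo a b ×ℂ Ioo c d) :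
    z ∈ Bd a b c d := by
  obtain ⟨h3, h4⟩ := h1
  rw [mem_preimage] at h3 h4
  by_cases e1 : z.re = a
  · exact Or.inr ⟨h4, Or.inl e1⟩
  by_cases e2 : z.re = b
  · exact Or.inr ⟨h4, Or.inr e2⟩
  by_cases e3 : z.im = c
  · exact Or.inl ⟨h3, Or.inl e3⟩
  by_cases e4 : z.im = d
  · exact Or.inl ⟨h3, Or.inr e4⟩
  exact absurd (show z ∈ Ioo a b ×ℂ Ioo c d from
    ⟨⟨lt_of_le_of_ne h3.1 (Ne.symm e1), lt_of_le_of_ne h3.2 e2⟩,
      ⟨lt_of_le_of_ne h4.1 (Ne.symm e3), lt_of_le_of_ne h4.2 e4⟩⟩) h2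

lemma fin_zeros {F : ℂ → ℂ} (hm : ∀ z, MeromorphicAt F z) (hord : ∀ z, meromorphicOrderAt F z ≠ ⊤)
    {K : Set ℂ} (hK : IsCompact K) : {z : ℂ | z ∈ K ∧ meromorphicOrderAt F z ≠ 0}.Finite := by
  have hmK : MeromorphicOn F K := fun v _ => hm v
  have hfinK : (MeromorphicOn.divisor F K).support.Finite :=
    (MeromorphicOn.divisor F K).finiteSupport hK
  refine hfinK.subset fun z hz => ?_
  rw [Function.mem_support, MeromorphicOn.divisor_apply hmK hz.1]
  intro h
  rw [WithTop.untop₀_eq_zero] at h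
  rcases h with h | h
  · exact hz.2 h
  · exact hord z h

/-- **the residue theorem for the logarithmic derivative of a meromorphic function** -/
theorem rect_mero {F : ℂ → ℂ} (hnf : ∀ z, MeromorphicNFAt F z)
    (hord : ∀ z, meromorphicOrderAt F z ≠ ⊤) {h : ℂ → ℂ} (hh : Differentiable ℂ h)
    {a b c d : ℝ} (hab : a < b) (hcd : c < d)
    (hB : ∀ z ∈ Bd a b c d, meromorphicOrderAt F z = 0) (T : Finset ℂ)
    (hT : ∀ z, z ∈ T ↔ z ∈ Ioo a b ×ℂ Ioo c d ∧ meromorphicOrderAt F z ≠ 0) :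
    RI a b c d (fun z => logDeriv F z * h z) =
      2 * Real.pi * I * ∑ z ∈ T, ((meromorphicOrderAt F z).untop₀ : ℂ) * h z := by
  classical
  set U : Set ℂ := Ioo (a - 1) (b + 1) ×ℂ Ioo (c - 1) (d + 1) with hU
  set K : Set ℂ := Icc (a - 1) (b + 1) ×ℂ Icc (c - 1) (d + 1) with hK
  have hUo : IsOpen U := isOpen_Ioo.reProdIm isOpen_Ioo
  have hKc : IsCompact K := isCompact_Icc.reProdIm isCompact_Icc
  have hUK : ∀ z ∈ U, z ∈ K := fun z hz => ⟨Ioo_subset_Icc_self hz.1, Ioo_subset_Icc_self hz.2⟩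
  have hcU : ∀ z ∈ Icc a b ×ℂ Icc c d, z ∈ U := fun z hz => by
    obtain ⟨h1, h2⟩ := hz
    rw [mem_preimage] at h1 h2
    exact ⟨⟨by linarith [h1.1], by linarith [h1.2]⟩, ⟨by linarith [h2.1], by linarith [h2.2]⟩⟩
  have hBc : ∀ z ∈ Bd a b c d, z ∈ Icc a b ×ℂ Icc c d := fun z hz => Bd_sub hab.le hcd.le hz
  have hfinU : {z : ℂ | z ∈ U ∧ meromorphicOrderAt F z ≠ 0}.Finite :=
    (fin_zeros (fun z => (hnf z).meromorphicAt) hord hKc).subset fun z hz => ⟨hUK z hz.1, hz.2⟩
  have hmU : MeromorphicOn F U := fun v _ => (hnf v).meromorphicAt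
  set S : Finset ℂ := hfinU.toFinset with hS
  set dv := MeromorphicOn.divisor F U with hdv
  have hsupp : dv.support ⊆ (S : Set ℂ) := by
    intro z hz
    have hzU : z ∈ U := dv.supportWithinDomain hz
    rw [Function.mem_support, hdv, MeromorphicOn.divisor_apply hmU hzU] at hz
    rw [Finset.mem_coe, hS, Set.Finite.mem_toFinset]
    exact ⟨hzU, fun h => hz (by rw [h]; rfl)⟩
  have hsf : dv.support.Finite := S.finite_toSet.subset hsupp
  obtain ⟨g, hga, hgn, hgh⟩ := hmU.extract_zeros_poles (fun u => hord u) hsf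
  have hdS : ∀ z ∈ S, dv z = (meromorphicOrderAt F z).untop₀ := fun z hz => by
    rw [hS, Set.Finite.mem_toFinset] at hz
    exact MeromorphicOn.divisor_apply hmU hz.1
  set Pf : ℂ → ℂ := fun v => ∏ z ∈ S, (v - z) ^ dv z with hPf
  have hprod : (∏ᶠ u, (· - u) ^ dv u) = Pf := by
    rw [Function.FactorizedRational.finprod_eq_fun hsf]
    funext v
    rw [hPf]
    simp only
    refine finprod_eq_prod_of_mulSupport_subset _ fun z hz => ?_
    by_contra hcon
    have h2 : dv z = 0 := by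
      by_contra h3
      exact hcon (hsupp h3)
    rw [Function.mem_mulSupport, h2, zpow_zero] at hz
    exact hz rfl
  rw [← hdv, hprod] at hgh
  have hBS : ∀ v ∈ Bd a b c d, ∀ z ∈ S, v - z ≠ 0 := by
    intro v hv z hz h3
    have : v = z := sub_eq_zero.1 h3
    rw [hS, Set.Finite.mem_toFinset] at hz
    rw [← this] at hz
    exact hz.2 (hB v hv)
  have hlog : ∀ v ∈ Bd a b c d, logDeriv F v * h v =
      (∑ z ∈ S, (dv z : ℂ) * (h v * (v - z)⁻¹)) + h v * (deriv g v / g v) := by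
    intro v hv
    have hvU := hcU v (hBc v hv)
    have hvS := hBS v hv
    have e1 : ∀ᶠ w in 𝓝[≠] v, F w = Pf w * g w := by
      have e2 := mem_codiscreteWithin_iff_forall_mem_nhdsNE.1 hgh v hvU
      filter_upwards [e2, nhdsWithin_le_nhds (hUo.mem_nhds hvU)] with w hw hwU
      rcases hw with hw | hw
      · have : F w = (Pf • g) w := hw
        rw [this]
        rfl
      · exact absurd hwU hw
    have c1 : ContinuousAt F v :=
      ((hnf v).meromorphicOrderAt_nonneg_iff_analyticAt.1 (hB v hv).ge).continuousAt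
    have hgd : DifferentiableAt ℂ g v := (hga v hvU).differentiableAt
    have hgv : g v ≠ 0 := hgn ⟨v, hvU⟩
    have c2 : ContinuousAt (fun w => Pf w * g w) v := by
      refine ContinuousAt.mul ?_ hgd.continuousAt
      rw [hPf]
      refine tendsto_finsetProd _ fun z hz => ?_
      exact ContinuousAt.zpow₀ (by fun_prop) _ (Or.inl (hvS z hz))
    have e2 : F =ᶠ[𝓝 v] fun w => Pf w * g w :=
      (c1.eventuallyEq_nhds_iff_eventuallyEq_nhdsNE c2).1 e1
    have hPn : ∀ z ∈ S, (v - z) ^ (dv z) ≠ 0 := fun z hz => zpow_ne_zero _ (hvS z hz)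
    have hPd : ∀ z ∈ S, DifferentiableAt ℂ (fun w : ℂ => (w - z) ^ (dv z)) v := fun z hz =>
      DifferentiableAt.zpow (by fun_prop) (Or.inl (hvS z hz))
    have hPfn : Pf v ≠ 0 := Finset.prod_ne_zero_iff.2 hPn
    have hPfd : DifferentiableAt ℂ Pf v := by
      rw [hPf]
      exact DifferentiableAt.fun_finsetProd fun z hz => hPd z hz
    have e3 : logDeriv Pf v = ∑ z ∈ S, (dv z : ℂ) * (v - z)⁻¹ := by
      rw [hPf, logDeriv_prod (f := fun (z w : ℂ) => (w - z) ^ (dv z)) hPn hPd]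
      refine Finset.sum_congr rfl fun z hz => ?_
      rw [logDeriv_fun_zpow (by fun_prop), logDeriv_apply]
      simp
    have e4 : logDeriv F v = logDeriv (fun w => Pf w * g w) v := by
      rw [logDeriv_apply, logDeriv_apply, e2.deriv_eq, e2.self_of_nhds]
    rw [e4, logDeriv_mul v hPfn hgv hPfd hgd, e3, logDeriv_apply, add_mul, Finset.sum_mul]
    congr 1
    · refine Finset.sum_congr rfl fun z _ => ?_
      ring
    · ring
  have hcont1 : ∀ z ∈ S, ContinuousOn (fun v => (dv z : ℂ) * (h v * (v - z)⁻¹)) (Bd a b c d) := by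
    intro z hz
    refine continuousOn_const.mul (hh.continuous.continuousOn.mul ?_)
    exact ContinuousOn.inv₀ (by fun_prop) fun v hv => hBS v hv z hz
  have hdg : DifferentiableOn ℂ (fun v => h v * (deriv g v / g v)) (Icc a b ×ℂ Icc c d) := by
    intro v hv
    have hvU := hcU v hv
    refine DifferentiableAt.differentiableWithinAt ?_
    exact (hh v).mul ((hga v hvU).deriv.differentiableAt.div (hga v hvU).differentiableAt
      (hgn ⟨v, hvU⟩))
  rw [RI_congr hab.le hcd.le hlog, RI_add hab.le hcd.le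
    (continuousOn_finsetSum _ fun z hz => hcont1 z hz)
    (hdg.continuousOn.mono fun z hz => hBc z hz), RI_zero hab.le hcd.le hdg, add_zero,
    RI_sum hab.le hcd.le S _ hcont1]
  have hterm : ∀ z ∈ S, RI a b c d (fun v => (dv z : ℂ) * (h v * (v - z)⁻¹)) =
      if z ∈ T then 2 * Real.pi * I * (((meromorphicOrderAt F z).untop₀ : ℂ) * h z) else 0 := by
    intro z hz
    have hz2 := hz
    rw [hS, Set.Finite.mem_toFinset] at hz2
    rw [RI_const_mul]
    by_cases hzT : z ∈ T
    · rw [if_pos hzT, RI_cauchy hab hcd hh ((hT z).1 hzT).1, hdS z hz]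
      ring
    · rw [if_neg hzT]
      have hz3 : z ∉ Icc a b ×ℂ Icc c d := fun h3 => by
        by_cases h4 : z ∈ Ioo a b ×ℂ Ioo c d
        · exact hzT ((hT z).2 ⟨h4, hz2.2⟩)
        · exact hz2.2 (hB z (bd_of h3 h4))
      rw [RI_zero hab.le hcd.le (f := fun v => h v * (v - z)⁻¹) fun v hv => ?_, mul_zero]
      refine DifferentiableAt.differentiableWithinAt ?_
      refine (hh v).mul (DifferentiableAt.inv (by fun_prop) fun h5 => ?_)
      rw [sub_eq_zero.1 h5] at hv
      exact hz3 hv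
  rw [Finset.sum_congr rfl hterm, ← Finset.sum_filter, Finset.mul_sum]
  refine Finset.sum_congr ?_ fun _ _ => rfl
  ext z
  rw [Finset.mem_filter]
  constructor
  · exact fun h => h.2
  · intro hz
    refine ⟨?_, hz⟩
    have h1 := (hT z).1 hz
    rw [hS, Set.Finite.mem_toFinset]
    exact ⟨hcU z ⟨Ioo_subset_Icc_self h1.1.1, Ioo_subset_Icc_self h1.1.2⟩, h1.2⟩

end Pool.Agent.R791.Fe
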