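import Pool.Agent.R791.Fe5

/-!
# From the functional equation to the exponential sum
-/

set_option autoImplicit false

open MeasureTheory Filter Topology Set Complex
open Pool.Agent.TH942.SL

namespace Pool.Agent.R791.Fe

open Pool.Agent.R791.Heat H370

lemma ld_odd {F : ℂ → ℂ} {ε : ℂ} (hε : ε ≠ 0) (hfe : ∀ z, F (-z) = ε * F z) (z : ℂ) :
    logDeriv F (-z) = -logDeriv F z := by
  have h1 : deriv (fun w => F (-w)) z = -deriv F (-z) := deriv_comp_neg _ _
  have h2 : (fun w => F (-w)) = fun w => ε * F w := funext hfe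
  rw [h2, deriv_const_mul_field] at h1
  have h3 : deriv F (-z) = ε * (-deriv F z) := by
    rw [mul_neg, h1, neg_neg]
  rw [logDeriv_apply, logDeriv_apply, hfe z, h3, mul_div_mul_left _ _ hε, neg_div]

lemma ord_neg {F : ℂ → ℂ} {ε : ℂ} (hε : ε ≠ 0) (hfe : ∀ z, F (-z) = ε * F z) (z : ℂ) :
    meromorphicOrderAt F (-z) = meromorphicOrderAt F z := by
  have h1 : deriv (fun w : ℂ => -w) z ≠ 0 := by
    have : deriv (fun w : ℂ => -w) z = -1 := (hasDerivAt_neg z).deriv
    rw [this]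
    exact neg_ne_zero.2 one_ne_zero
  have h2 := meromorphicOrderAt_comp_of_deriv_ne_zero (f := F) (g := fun w : ℂ => -w) (x := z)
    (by fun_prop) h1
  have h3 : F ∘ (fun w : ℂ => -w) = (fun _ => ε) * F := by
    funext w
    exact hfe w
  rw [h3, meromorphicOrderAt_mul_of_ne_zero analyticAt_const hε] at h2
  exact h2.symm

variable {F₀ : ℂ → ℂ} {a x C : ℝ}

lemma FD.gint (H : FD F₀ a x C) {y : ℝ} (hy : 0 < y) :
    Integrable fun t : ℝ => logDeriv F₀ (x + t * I) * exp (((x : ℂ) + t * I) ^ 2 * y) := by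
  have hx := H.x0
  have hC := H.C0
  have h1 : Continuous fun t : ℝ => logDeriv F₀ (x + t * I) * exp (((x : ℂ) + t * I) ^ 2 * y) :=
    H.cont.mul (by fun_prop)
  have h2 := (integrable_exp_neg_mul_sq hy).add (integrable_mul_exp_neg_mul_sq hy).norm
  refine (h2.const_mul (C * (1 + x) * Real.exp (x ^ 2 * y))).mono' h1.aestronglyMeasurable
    (Eventually.of_forall fun t => ?_)
  rw [norm_mul, Complex.norm_exp, Complex.re_mul_ofReal, sq_line]
  have h3 := H.line_bd t
  have h4 : (1 + |t|) ^ (1 / 2 : ℝ) ≤ 1 + |t| := by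
    have h5 : (1 : ℝ) ≤ 1 + |t| := by have := abs_nonneg t; linarith
    calc (1 + |t|) ^ (1 / 2 : ℝ) ≤ (1 + |t|) ^ (1 : ℝ) :=
          Real.rpow_le_rpow_of_exponent_le h5 (by norm_num)
      _ = _ := Real.rpow_one _
  have h6 : Real.exp ((x ^ 2 - t ^ 2) * y) = Real.exp (x ^ 2 * y) * Real.exp (-y * t ^ 2) := by
    rw [← Real.exp_add]
    congr 1
    ring
  rw [h6]
  simp only [Pi.add_apply]
  rw [norm_mul, Real.norm_eq_abs, Real.norm_eq_abs, abs_of_pos (Real.exp_pos _)]
  calc ‖logDeriv F₀ (x + t * I)‖ * (Real.exp (x ^ 2 * y) * Real.exp (-y * t ^ 2)) ≤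
        (C * (1 + x) * (1 + |t|)) * (Real.exp (x ^ 2 * y) * Real.exp (-y * t ^ 2)) := by
        refine mul_le_mul_of_nonneg_right (h3.trans ?_) (by positivity)
        exact mul_le_mul_of_nonneg_left h4 (by positivity)
    _ = _ := by ring

/-- **the expansion** -/
theorem box_expand (H : FD F₀ a x C) {F : ℂ → ℂ} (hnf : ∀ z, MeromorphicNFAt F z)
    (hF : ∀ z : ℂ, a < z.re → F z = F₀ z) {ε : ℂ} (hε : ε ≠ 0) (hfe : ∀ z, F (-z) = ε * F z)
    (B : ℝ) :
    ∃ (T : Finset ℂ) (C₁ : ℝ), (∀ z ∈ T, meromorphicOrderAt F z ≠ 0) ∧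
      (∀ z : ℂ, -B < (z ^ 2).re → meromorphicOrderAt F z ≠ 0 → z ∈ T) ∧ (∀ z ∈ T, -z ∈ T) ∧
      ∀ y : ℝ, 1 ≤ y → ‖2 * hw F₀ x y -
        ∑ z ∈ T, ((meromorphicOrderAt F z).untop₀ : ℂ) * exp (z ^ 2 * y)‖ ≤
          C₁ * Real.exp (-(B * y)) := by
  have hx := H.x0
  have hax := H.lt
  have ha0 := H.pos
  have ho : IsOpen {s : ℂ | a < s.re} := isOpen_lt continuous_const Complex.continuous_re
  -- orders
  have hev : ∀ z : ℂ, a < z.re → F =ᶠ[𝓝 z] F₀ := fun z hz => by
    filter_upwards [ho.mem_nhds hz] with w hw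
    exact hF w hw
  have hzero : ∀ z : ℂ, a < z.re → meromorphicOrderAt F z = 0 := by
    intro z hz
    have h1 : AnalyticAt ℂ F z := (H.an hz).congr (hev z hz).symm
    rw [h1.meromorphicOrderAt_eq, h1.analyticOrderAt_eq_zero.2 (by rw [hF z hz]; exact H.ne z hz)]
    rfl
  have hsymm := ord_neg hε hfe
  have hzero' : ∀ z : ℂ, meromorphicOrderAt F z ≠ 0 → |z.re| ≤ a := by
    intro z hz
    by_contra hcon
    rw [not_le] at hcon
    rcases lt_abs.1 hcon with h | h
    · exact hz (hzero z h)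
    · refine hz ?_
      rw [← hsymm]
      exact hzero _ (by simpa using h)
  have hord : ∀ z, meromorphicOrderAt F z ≠ ⊤ := by
    have h1 : MeromorphicOn F univ := fun z _ => (hnf z).meromorphicAt
    intro z
    have h2 : meromorphicOrderAt F ((x : ℝ) : ℂ) ≠ ⊤ := by
      rw [hzero _ (by simpa using hax)]
      exact WithTop.zero_ne_top
    exact h1.meromorphicOrderAt_ne_top_of_isPreconnected isPreconnected_univ (mem_univ _)
      (mem_univ z) h2
  -- the height
  set H₀ : ℝ := x + |B| + 1 with hH₀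
  have hfin := fin_zeros (fun z => (hnf z).meromorphicAt) hord
    (K := Icc (-x) x ×ℂ Icc (-(H₀ + 1)) (H₀ + 1)) (isCompact_Icc.reProdIm isCompact_Icc)
  obtain ⟨h, hh, hhn⟩ := (Set.Ioo_infinite (show H₀ < H₀ + 1 by linarith)).exists_notMem_finite
    (hfin.image fun z : ℂ => |z.im|)
  have hh0 : 0 < h := by have := hh.1; have := abs_nonneg B; linarith
  have hhB : x ^ 2 + |B| ≤ h ^ 2 := by
    have h1 : H₀ ^ 2 ≤ h ^ 2 := pow_le_pow_left₀ (by positivity) hh.1.le 2
    have h2 : x ^ 2 + |B| ≤ H₀ ^ 2 := by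
      rw [hH₀]
      nlinarith [mul_nonneg hx.le (abs_nonneg B), sq_nonneg |B|, abs_nonneg B]
    linarith
  have hbox : ∀ z : ℂ, |z.im| ≤ h → meromorphicOrderAt F z ≠ 0 →
      z ∈ Ioo (-x) x ×ℂ Ioo (-h) h := by
    intro z hz1 hz2
    have h1 := hzero' z hz2
    have h2 := abs_le.1 h1
    have h3 : |z.im| ≠ h := fun h4 => by
      refine hhn ⟨z, ⟨?_, hz2⟩, h4⟩
      have h5 := abs_le.1 hz1
      exact ⟨⟨by linarith [h2.1], by linarith [h2.2]⟩,
        ⟨by linarith [h5.1, hh.2], by linarith [h5.2, hh.2]⟩⟩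
    have h4 := abs_lt.1 (lt_of_le_of_ne hz1 h3)
    exact ⟨⟨by linarith [h2.1], by linarith [h2.2]⟩, h4⟩
  have hTf : {z : ℂ | z ∈ Ioo (-x) x ×ℂ Ioo (-h) h ∧ meromorphicOrderAt F z ≠ 0}.Finite := by
    refine hfin.subset fun z hz => ⟨⟨Ioo_subset_Icc_self hz.1.1, ?_⟩, hz.2⟩
    have h1 := hz.1.2
    rw [mem_preimage] at h1 ⊢
    exact ⟨by linarith [h1.1, hh.2], by linarith [h1.2, hh.2]⟩
  set T : Finset ℂ := hTf.toFinset with hT
  have hTm : ∀ z, z ∈ T ↔ z ∈ Ioo (-x) x ×ℂ Ioo (-h) h ∧ meromorphicOrderAt F z ≠ 0 := fun z => by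
    rw [hT, Set.Finite.mem_toFinset]
    rfl
  -- the boundary
  have hBd : ∀ z ∈ Bd (-x) x (-h) h, meromorphicOrderAt F z = 0 := by
    intro z hz
    by_contra hcon
    have h1 := Bd_sub (by linarith) (by linarith) hz
    have h2 := h1.2
    rw [mem_preimage] at h2
    exact Bd_not_Ioo hz (hbox z (abs_le.2 h2) hcon)
  have hld : ∀ z : ℂ, meromorphicOrderAt F z = 0 → ContinuousAt (logDeriv F) z := by
    intro z hz
    have h1 : AnalyticAt ℂ F z := (hnf z).meromorphicOrderAt_nonneg_iff_analyticAt.1 hz.ge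
    exact (h1.deriv.differentiableAt.div h1.differentiableAt
      ((hnf z).meromorphicOrderAt_eq_zero_iff.1 hz)).continuousAt
  have htop : ∀ t ∈ Icc (-x) x, ContinuousAt (fun t : ℝ => logDeriv F (t + h * I)) t := by
    intro t ht
    have h1 : ContinuousAt (logDeriv F) ((t : ℂ) + h * I) := by
      refine hld _ ?_
      by_contra hcon
      refine Bd_not_Ioo (a := -x) (b := x) (c := -h) (d := h) (s := (t : ℂ) + h * I)
        (Or.inl ⟨by simpa using ht, Or.inr (by simp)⟩) (hbox _ ?_ hcon)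
      simp [abs_of_pos hh0]
    exact ContinuousAt.comp (g := logDeriv F) (f := fun t : ℝ => (t : ℂ) + h * I) h1 (by fun_prop)
  obtain ⟨M, hM⟩ := (isCompact_Icc (a := -x) (b := x)).exists_bound_of_continuousOn
    (f := fun t : ℝ => logDeriv F (t + h * I)) fun t ht => (htop t ht).continuousWithinAt
  -- the tail
  set ψ : ℝ → ℂ := fun t => logDeriv F₀ (x + t * I) with hψ
  set Kt : ℝ := ∫ t : ℝ, ‖ψ t * exp (((x : ℂ) + t * I) ^ 2 * (1 : ℝ))‖ * Real.exp |B| with hKt
  have hKi : Integrable fun t : ℝ => ‖ψ t * exp (((x : ℂ) + t * I) ^ 2 * (1 : ℝ))‖ *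
      Real.exp |B| := (H.gint (y := 1) one_pos).norm.mul_const _
  refine ⟨T, Real.pi⁻¹ * (2 * x * |M| + Kt), fun z hz => ((hTm z).1 hz).2, fun z hz hz2 => ?_,
    fun z hz => ?_, fun y hy => ?_⟩
  · refine (hTm z).2 ⟨hbox z ?_ hz2, hz2⟩
    rw [sq_re'] at hz
    have h1 := hzero' z hz2
    have h2 : z.re ^ 2 ≤ a ^ 2 := by
      rw [← sq_abs z.re]
      exact pow_le_pow_left₀ (abs_nonneg _) h1 2
    have h3 : a ^ 2 ≤ x ^ 2 := pow_le_pow_left₀ ha0 hax.le 2
    have h4 : B ≤ |B| := le_abs_self B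
    have h5 : z.im ^ 2 < h ^ 2 := by linarith
    exact abs_le_of_sq_le_sq h5.le hh0.le
  · have h1 := (hTm z).1 hz
    refine (hTm (-z)).2 ⟨⟨?_, ?_⟩, by rw [hsymm]; exact h1.2⟩
    · have h2 := h1.1.1
      rw [mem_preimage] at h2 ⊢
      rw [Complex.neg_re]
      exact ⟨by linarith [h2.2], by linarith [h2.1]⟩
    · have h2 := h1.1.2
      rw [mem_preimage] at h2 ⊢
      rw [Complex.neg_im]
      exact ⟨by linarith [h2.2], by linarith [h2.1]⟩
  · have hy0 : 0 < y := by linarith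
    have hpi := Real.pi_pos
    set f : ℂ → ℂ := fun z => logDeriv F z * exp (z ^ 2 * y) with hf
    have hodd : ∀ z, f (-z) = -f z := fun z => by
      rw [hf]
      simp only
      rw [ld_odd hε hfe, neg_sq, neg_mul]
    have hfline : ∀ t : ℝ, f ((x : ℂ) + t * I) = ψ t * exp (((x : ℂ) + t * I) ^ 2 * y) := by
      intro t
      rw [hf, hψ]
      simp only
      rw [logDeriv_apply, logDeriv_apply, (hev _ (by simpa using hax)).deriv_eq,
        hF _ (by simpa using hax)]
    have hres := rect_mero hnf hord (h := fun z => exp (z ^ 2 * y)) (by fun_prop)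
      (a := -x) (b := x) (c := -h) (d := h) (by linarith) (by linarith) hBd T hTm
    -- the boundary integral
    have hRI : RI (-x) x (-h) h f = -2 * (∫ t in (-x)..x, f ((t : ℂ) + h * I)) +
        2 * I * ∫ t in (-h)..h, f ((x : ℂ) + t * I) := by
      unfold RI
      simp only [mk_eq]
      have e1 : ∫ t in (-x)..x, f ((t : ℂ) + ((-h : ℝ) : ℂ) * I) =
          -∫ t in (-x)..x, f ((t : ℂ) + h * I) := by
        rw [← intervalIntegral.integral_neg]
        have := intervalIntegral.integral_comp_neg (a := -x) (b := x)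
          (fun t : ℝ => f ((t : ℂ) + ((-h : ℝ) : ℂ) * I))
        rw [neg_neg] at this
        rw [← this]
        refine intervalIntegral.integral_congr fun t _ => ?_
        rw [← hodd]
        congr 1
        push_cast
        ring
      have e2 : ∫ t in (-h)..h, f (((-x : ℝ) : ℂ) + t * I) =
          -∫ t in (-h)..h, f ((x : ℂ) + t * I) := by
        rw [← intervalIntegral.integral_neg]
        have := intervalIntegral.integral_comp_neg (a := -h) (b := h)
          (fun t : ℝ => f (((-x : ℝ) : ℂ) + t * I))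
        rw [neg_neg] at this
        rw [← this]
        refine intervalIntegral.integral_congr fun t _ => ?_
        rw [← hodd]
        congr 1
        push_cast
        ring
      rw [e1, e2]
      ring
    have hgi : Integrable fun t : ℝ => ψ t * exp (((x : ℂ) + t * I) ^ 2 * y) := H.gint hy0
    have hsplit : ∫ t : ℝ, ψ t * exp (((x : ℂ) + t * I) ^ 2 * y) =
        (∫ t in (-h)..h, f ((x : ℂ) + t * I)) +
        ∫ t in (Ioc (-h) h)ᶜ, ψ t * exp (((x : ℂ) + t * I) ^ 2 * y) := by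
      rw [intervalIntegral.integral_of_le (by linarith),
        ← integral_add_compl (s := Ioc (-h) h) measurableSet_Ioc hgi]
      simp only [hfline]
    -- the bounds
    have hexpB : Real.exp (-(|B| * y)) ≤ Real.exp (-(B * y)) := by
      refine Real.exp_le_exp.2 ?_
      have := mul_le_mul_of_nonneg_right (le_abs_self B) hy0.le
      linarith
    have hhor : ‖∫ t in (-x)..x, f ((t : ℂ) + h * I)‖ ≤ 2 * x * |M| * Real.exp (-(|B| * y)) := by
      have e1 : ∀ t ∈ Set.uIoc (-x) x, ‖f ((t : ℂ) + h * I)‖ ≤ |M| * Real.exp (-(|B| * y)) := by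
        intro t ht
        rw [uIoc_of_le (by linarith)] at ht
        have ht2 : t ∈ Icc (-x) x := ⟨ht.1.le, ht.2⟩
        rw [hf]
        simp only
        rw [norm_mul, Complex.norm_exp, Complex.re_mul_ofReal, sq_line]
        refine mul_le_mul ((hM t ht2).trans (le_abs_self M)) (Real.exp_le_exp.2 ?_)
          (Real.exp_pos _).le (abs_nonneg M)
        have h1 : t ^ 2 ≤ x ^ 2 := sq_le_sq' ht2.1 ht2.2
        have h2 : t ^ 2 - h ^ 2 ≤ -|B| := by linarith
        nlinarith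
      have e2 := intervalIntegral.norm_integral_le_of_norm_le_const e1
      refine e2.trans (le_of_eq ?_)
      have e3 : |x - -x| = 2 * x := by
        rw [sub_neg_eq_add, ← two_mul]
        exact abs_of_pos (by linarith)
      rw [e3]
      ring
    have htail : ‖∫ t in (Ioc (-h) h)ᶜ, ψ t * exp (((x : ℂ) + t * I) ^ 2 * y)‖ ≤
        Kt * Real.exp (-(|B| * y)) := by
      have e1 : ∀ t ∈ (Ioc (-h) h)ᶜ, ‖ψ t * exp (((x : ℂ) + t * I) ^ 2 * y)‖ ≤
          (‖ψ t * exp (((x : ℂ) + t * I) ^ 2 * (1 : ℝ))‖ * Real.exp |B|) *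
            Real.exp (-(|B| * y)) := by
        intro t ht
        have ht2 : h ^ 2 ≤ t ^ 2 := by
          by_contra hcon
          rw [not_le] at hcon
          have := abs_lt_of_sq_lt_sq' hcon hh0.le
          exact ht ⟨this.1, this.2.le⟩
        rw [norm_mul, norm_mul, Complex.norm_exp, Complex.norm_exp, Complex.re_mul_ofReal,
          Complex.re_mul_ofReal, sq_line, mul_assoc, mul_assoc]
        refine mul_le_mul_of_nonneg_left ?_ (norm_nonneg _)
        rw [← Real.exp_add, ← Real.exp_add]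
        refine Real.exp_le_exp.2 ?_
        have h1 : x ^ 2 - t ^ 2 + |B| ≤ 0 := by linarith
        nlinarith
      calc ‖∫ t in (Ioc (-h) h)ᶜ, ψ t * exp (((x : ℂ) + t * I) ^ 2 * y)‖ ≤
            ∫ t in (Ioc (-h) h)ᶜ, (‖ψ t * exp (((x : ℂ) + t * I) ^ 2 * (1 : ℝ))‖ *
              Real.exp |B|) * Real.exp (-(|B| * y)) := by
              refine norm_integral_le_of_norm_le ((hKi.mul_const _).integrableOn) ?_
              filter_upwards [ae_restrict_mem measurableSet_Ioc.compl] with t ht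
              exact e1 t ht
        _ ≤ ∫ t : ℝ, (‖ψ t * exp (((x : ℂ) + t * I) ^ 2 * (1 : ℝ))‖ *
              Real.exp |B|) * Real.exp (-(|B| * y)) :=
              setIntegral_le_integral (hKi.mul_const _) (Eventually.of_forall fun t => by positivity)
        _ = _ := by rw [integral_mul_const]
    have hfinal : 2 * hw F₀ x y -
        ∑ z ∈ T, ((meromorphicOrderAt F z).untop₀ : ℂ) * exp (z ^ 2 * y) =
        ((Real.pi⁻¹ : ℝ) : ℂ) * (-I * (∫ t in (-x)..x, f ((t : ℂ) + h * I)) +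
          ∫ t in (Ioc (-h) h)ᶜ, ψ t * exp (((x : ℂ) + t * I) ^ 2 * y)) := by
      have e1 : hw F₀ x y = ((2 * Real.pi)⁻¹ : ℝ) *
          ∫ t : ℝ, ψ t * exp (((x : ℂ) + t * I) ^ 2 * y) := rfl
      have hpc : (Real.pi : ℂ) ≠ 0 := by exact_mod_cast hpi.ne'
      rw [hRI] at hres
      have hI : I ^ 2 = -1 := Complex.I_sq
      have e2 : ∫ t in (-h)..h, f ((x : ℂ) + t * I) =
          Real.pi * (∑ z ∈ T, ((meromorphicOrderAt F z).untop₀ : ℂ) * exp (z ^ 2 * y)) -
            I * ∫ t in (-x)..x, f ((t : ℂ) + h * I) := by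
        linear_combination (-I / 2) * hres + ((∫ t in (-h)..h, f ((x : ℂ) + t * I)) -
          Real.pi * (∑ z ∈ T, ((meromorphicOrderAt F z).untop₀ : ℂ) * exp (z ^ 2 * y))) * hI
      rw [e1, hsplit, e2]
      generalize (∑ z ∈ T, ((meromorphicOrderAt F z).untop₀ : ℂ) * exp (z ^ 2 * y)) = s₁
      generalize (∫ t in (-x)..x, f ((t : ℂ) + h * I)) = s₂
      generalize (∫ t in (Ioc (-h) h)ᶜ, ψ t * exp (((x : ℂ) + t * I) ^ 2 * y)) = s₃
      push_cast
      field_simp
      ring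
    rw [hfinal, norm_mul, Complex.norm_real, Real.norm_eq_abs, abs_of_pos (by positivity), mul_assoc]
    refine mul_le_mul_of_nonneg_left ?_ (by positivity)
    have e3 : ‖-I * ∫ t in (-x)..x, f ((t : ℂ) + h * I)‖ ≤
        2 * x * |M| * Real.exp (-(|B| * y)) := by
      rw [norm_mul, norm_neg, Complex.norm_I, one_mul]
      exact hhor
    have hKt0 : 0 ≤ Kt := integral_nonneg fun t => by positivity
    calc ‖-I * (∫ t in (-x)..x, f ((t : ℂ) + h * I)) +
          ∫ t in (Ioc (-h) h)ᶜ, ψ t * exp (((x : ℂ) + t * I) ^ 2 * y)‖ ≤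
          2 * x * |M| * Real.exp (-(|B| * y)) + Kt * Real.exp (-(|B| * y)) :=
          (norm_add_le _ _).trans (add_le_add e3 htail)
      _ = (2 * x * |M| + Kt) * Real.exp (-(|B| * y)) := by ring
      _ ≤ _ := mul_le_mul_of_nonneg_left hexpB (by positivity)

/-- collecting the squares -/
lemma collect (T : Finset ℂ) (hneg : ∀ z ∈ T, -z ∈ T) (o : ℂ → ℤ) (ho : ∀ z, o (-z) = o z) :
    ∃ (S : Finset ℂ) (k : ℂ → ℤ), (∀ ζ ∈ S, ∃ ρ ∈ T, ρ ^ 2 = ζ ∧ (ζ ≠ 0 → k ζ = 2 * o ρ) ∧
      (ζ = 0 → k ζ = o ρ)) ∧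
      ∀ g : ℂ → ℂ, ∑ z ∈ T, (o z : ℂ) * g (z ^ 2) = ∑ ζ ∈ S, (k ζ : ℂ) * g ζ := by
  classical
  refine ⟨T.image fun z => z ^ 2, fun ζ => ∑ z ∈ T with z ^ 2 = ζ, o z, fun ζ hζ => ?_,
    fun g => ?_⟩
  · obtain ⟨ρ, hρ, hρζ⟩ := Finset.mem_image.1 hζ
    refine ⟨ρ, hρ, hρζ, fun h => ?_, fun h => ?_⟩
    · have hρ0 : ρ ≠ 0 := fun h1 => h (by rw [← hρζ, h1]; simp)
      have hne : ρ ≠ -ρ := fun h1 => hρ0 (self_eq_neg.1 h1)
      have e1 : T.filter (fun z => z ^ 2 = ζ) = {ρ, -ρ} := by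
        ext z
        rw [Finset.mem_filter, Finset.mem_insert, Finset.mem_singleton]
        constructor
        · rintro ⟨-, h2⟩
          rw [← hρζ] at h2
          exact sq_eq_sq_iff_eq_or_eq_neg.1 h2
        · rintro (h2 | h2)
          · rw [h2]
            exact ⟨hρ, hρζ⟩
          · rw [h2]
            exact ⟨hneg ρ hρ, by rw [neg_sq]; exact hρζ⟩
      simp only
      rw [e1, Finset.sum_pair hne, ho]
      ring
    · have hρ0 : ρ = 0 := by
        rw [h] at hρζ
        exact pow_eq_zero_iff (two_ne_zero) |>.1 hρζ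
      have e1 : T.filter (fun z => z ^ 2 = ζ) = {ρ} := by
        ext z
        rw [Finset.mem_filter, Finset.mem_singleton]
        constructor
        · rintro ⟨-, h2⟩
          rw [h] at h2
          rw [hρ0]
          exact pow_eq_zero_iff (two_ne_zero) |>.1 h2
        · intro h2
          rw [h2]
          exact ⟨hρ, hρζ⟩
      simp only
      rw [e1, Finset.sum_singleton]
  · have h1 := Finset.sum_fiberwise_of_maps_to (s := T) (t := T.image fun z => z ^ 2)
      (g := fun z => z ^ 2) (fun z hz => Finset.mem_image_of_mem _ hz)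
      (fun z => (o z : ℂ) * g (z ^ 2))
    rw [← h1]
    refine Finset.sum_congr rfl fun ζ _ => ?_
    push_cast
    rw [Finset.sum_mul]
    refine Finset.sum_congr rfl fun z hz => ?_
    rw [(Finset.mem_filter.1 hz).2]

end Pool.Agent.R791.Fe
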