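import Pool.Agent.R791.Fe6
import Pool.Agent.H370R2.Digamma

/-!
# Gaussian line integrals of Dirichlet series and of the logarithmic derivative of the Gamma function
-/

set_option autoImplicit false

open MeasureTheory Filter Topology Set Complex
open Pool.Agent.TH942.SL

namespace Pool.Agent.R791.Fe

open Pool.Agent.R791.Heat H370

/-- integrability with the Gaussian factor -/
lemma gauss_int {ψ : ℝ → ℂ} (hψ : Continuous ψ) {K : ℝ} (x : ℝ)
    (hb : ∀ t : ℝ, ‖ψ t‖ ≤ K * (1 + |t|) ^ (1 / 2 : ℝ)) {y : ℝ} (hy : 0 < y) :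
    Integrable fun t : ℝ => ψ t * exp (((x : ℂ) + t * I) ^ 2 * y) := by
  have hK : 0 ≤ K := by
    have := (norm_nonneg _).trans (hb 0)
    simpa using this
  have h1 : Continuous fun t : ℝ => ψ t * exp (((x : ℂ) + t * I) ^ 2 * y) :=
    hψ.mul (by fun_prop)
  have h2 := (integrable_exp_neg_mul_sq hy).add (integrable_mul_exp_neg_mul_sq hy).norm
  refine (h2.const_mul (K * Real.exp (x ^ 2 * y))).mono' h1.aestronglyMeasurable
    (Eventually.of_forall fun t => ?_)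
  rw [norm_mul, Complex.norm_exp, Complex.re_mul_ofReal, sq_line]
  have h3 := hb t
  have h4 : (1 + |t|) ^ (1 / 2 : ℝ) ≤ 1 + |t| := by
    have h5 : (1 : ℝ) ≤ 1 + |t| := by have := abs_nonneg t; linarith
    calc (1 + |t|) ^ (1 / 2 : ℝ) ≤ (1 + |t|) ^ (1 : ℝ) :=
          Real.rpow_le_rpow_of_exponent_le h5 (by norm_num)
      _ = _ := Real.rpow_one _
  have h6 : Real.exp ((x ^ 2 - t ^ 2) * y) = Real.exp (x ^ 2 * y) * Real.exp (-y * t ^ 2) := by
    rw [← Real.exp_add]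
    congr 1
    ring
  rw [h6]
  simp only [Pi.add_apply]
  rw [norm_mul, Real.norm_eq_abs, Real.norm_eq_abs, abs_of_pos (Real.exp_pos _)]
  calc ‖ψ t‖ * (Real.exp (x ^ 2 * y) * Real.exp (-y * t ^ 2)) ≤
        (K * (1 + |t|)) * (Real.exp (x ^ 2 * y) * Real.exp (-y * t ^ 2)) := by
        refine mul_le_mul_of_nonneg_right (h3.trans ?_) (by positivity)
        exact mul_le_mul_of_nonneg_left h4 hK
    _ = _ := by ring

/-- the Gaussian line integral of a Dirichlet series -/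
theorem V_series {ι : Type*} [Countable ι] (b : ι → ℂ) (l : ι → ℝ) {x : ℝ}
    (hs : Summable fun i => ‖b i‖ * Real.exp (-(x * l i))) {y : ℝ} (hy : 0 < y) :
    Integrable (fun t : ℝ => (∑' i, b i * exp (-(((x : ℂ) + t * I) * l i))) *
      exp (((x : ℂ) + t * I) ^ 2 * y)) ∧
    HasSum (fun i => b i * (((√(4 * Real.pi * y))⁻¹ * Real.exp (-(l i ^ 2) / (4 * y)) : ℝ) : ℂ))
      (V x (fun z => (∑' i, b i * exp (-(z * l i))) * exp (z ^ 2 * y))) := by
  have hnorm : ∀ (i : ι) (t : ℝ), ‖b i * exp (-(((x : ℂ) + t * I) * l i))‖ =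
      ‖b i‖ * Real.exp (-(x * l i)) := by
    intro i t
    rw [norm_mul, Complex.norm_exp, Complex.neg_re, Complex.re_mul_ofReal]
    simp
  have hcont : Continuous fun t : ℝ => ∑' i, b i * exp (-(((x : ℂ) + t * I) * l i)) :=
    continuous_tsum (fun i => by fun_prop) hs fun i t => (hnorm i t).le
  have hbd : ∀ t : ℝ, ‖∑' i, b i * exp (-(((x : ℂ) + t * I) * l i))‖ ≤
      (∑' i, ‖b i‖ * Real.exp (-(x * l i))) * (1 + |t|) ^ (1 / 2 : ℝ) := by
    intro t
    refine (tsum_of_norm_bounded hs.hasSum fun i => (hnorm i t).le).trans ?_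
    refine le_mul_of_one_le_right (tsum_nonneg fun i => by positivity) ?_
    exact Real.one_le_rpow (by have := abs_nonneg t; linarith) (by norm_num)
  refine ⟨gauss_int hcont x hbd hy, ?_⟩
  have hgi : Integrable fun t : ℝ => Real.exp ((x ^ 2 - t ^ 2) * y) := by
    refine ((integrable_exp_neg_mul_sq hy).const_mul (Real.exp (x ^ 2 * y))).congr
      (Eventually.of_forall fun t => ?_)
    simp only
    rw [← Real.exp_add]
    congr 1
    ring
  set F : ι → ℝ → ℂ := fun i t => b i * (exp (((x : ℂ) + t * I) ^ 2 * y) *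
    exp (-(((x : ℂ) + t * I) * l i))) with hF
  have hFn : ∀ i t, ‖F i t‖ = ‖b i‖ * Real.exp (-(x * l i)) * Real.exp ((x ^ 2 - t ^ 2) * y) := by
    intro i t
    rw [hF]
    simp only
    rw [mul_left_comm, norm_mul, hnorm, Complex.norm_exp, Complex.re_mul_ofReal, sq_line]
    ring
  have hFi : ∀ i, Integrable (F i) := by
    intro i
    refine (hgi.const_mul (‖b i‖ * Real.exp (-(x * l i)))).mono'
      (Continuous.aestronglyMeasurable (by rw [hF]; fun_prop)) (Eventually.of_forall fun t => ?_)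
    rw [hFn]
  have hFs : Summable fun i => ∫ t : ℝ, ‖F i t‖ := by
    simp only [hFn]
    have : ∀ i, ∫ t : ℝ, ‖b i‖ * Real.exp (-(x * l i)) * Real.exp ((x ^ 2 - t ^ 2) * y) =
        ‖b i‖ * Real.exp (-(x * l i)) * ∫ t : ℝ, Real.exp ((x ^ 2 - t ^ 2) * y) := fun i => by
      rw [integral_const_mul]
    simp only [this]
    exact hs.mul_right _
  have key := (hasSum_integral_of_summable_integral_norm hFi hFs).mul_left
    ((((2 * Real.pi)⁻¹ : ℝ)) : ℂ)
  have e1 : ∀ i, ((((2 * Real.pi)⁻¹ : ℝ)) : ℂ) * ∫ t : ℝ, F i t =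
      b i * (((√(4 * Real.pi * y))⁻¹ * Real.exp (-(l i ^ 2) / (4 * y)) : ℝ) : ℂ) := by
    intro i
    have h1 := V_gauss x (l i) hy
    unfold V at h1
    rw [← h1, hF]
    simp only
    rw [integral_const_mul]
    ring
  have e2 : ((((2 * Real.pi)⁻¹ : ℝ)) : ℂ) * ∫ t : ℝ, ∑' i, F i t =
      V x (fun z => (∑' i, b i * exp (-(z * l i))) * exp (z ^ 2 * y)) := by
    unfold V
    congr 1
    refine integral_congr_ae (Eventually.of_forall fun t => ?_)
    simp only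
    rw [← tsum_mul_right]
    refine tsum_congr fun i => ?_
    rw [hF]
    simp only
    ring
  rw [e2] at key
  exact key.congr_fun fun i => (e1 i).symm

lemma gauss_decay {y : ℝ} (hy : 0 < y) (t : ℝ) :
    Real.exp (-(t ^ 2 * y)) ≤ Real.exp y * (8 / y ^ 2) * (1 + |t|) ^ (-(4 : ℝ)) := by
  have h0 : 0 < 1 + |t| := by positivity
  have h1 : (1 + |t|) ^ (-(4 : ℝ)) = ((1 + |t|) ^ 4)⁻¹ := by
    rw [Real.rpow_neg h0.le]
    congr 1
    rw [show (4 : ℝ) = ((4 : ℕ) : ℝ) by norm_num, Real.rpow_natCast]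
  set w : ℝ := (1 + |t|) ^ 2 * y / 2 with hw
  have hw0 : 0 ≤ w := by positivity
  have h2 : w ^ 2 / 2 ≤ Real.exp w := by
    have := Real.quadratic_le_exp_of_nonneg hw0
    linarith
  have h3 : Real.exp (-(t ^ 2 * y)) ≤ Real.exp y * Real.exp (-w) := by
    rw [← Real.exp_add]
    refine Real.exp_le_exp.2 ?_
    have h4 : t ^ 2 = |t| ^ 2 := (sq_abs t).symm
    rw [hw, h4]
    have h5 : (1 + |t|) ^ 2 ≤ 2 * (1 + |t| ^ 2) := by nlinarith [sq_nonneg (1 - |t|)]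
    nlinarith
  have h6 : Real.exp (-w) ≤ 8 / y ^ 2 * ((1 + |t|) ^ 4)⁻¹ := by
    rw [Real.exp_neg]
    have h7 : 8 / y ^ 2 * ((1 + |t|) ^ 4)⁻¹ = (w ^ 2 / 2)⁻¹ := by
      rw [hw]
      field_simp
      norm_num
    rw [h7]
    exact inv_anti₀ (by positivity) h2
  rw [h1, mul_assoc]
  exact h3.trans (mul_le_mul_of_nonneg_left h6 (Real.exp_pos _).le)

/-- shift to the line `0` -/
theorem V_shift {g : ℂ → ℂ} {K x : ℝ} (hx : 0 ≤ x) (hg : ∀ z : ℂ, 0 ≤ z.re → DifferentiableAt ℂ g z)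
    (hb : ∀ z : ℂ, 0 ≤ z.re → ‖g z‖ ≤ K * (1 + ‖z‖) ^ (1 / 2 : ℝ)) {y : ℝ} (hy : 0 < y) :
    V 0 (fun z => g z * exp (z ^ 2 * y)) = V x (fun z => g z * exp (z ^ 2 * y)) := by
  have hK : 0 ≤ K := by
    have := (norm_nonneg _).trans (hb 0 (by simp))
    simpa using this
  refine shift (p := 3) (B := K * (1 + x) * (Real.exp (x ^ 2 * y) * (Real.exp y * (8 / y ^ 2))))
    (by norm_num) hx (fun s hs _ => (hg s hs).mul (by fun_prop)) fun s hs hs2 => ?_
  have h0 : 0 < 1 + |s.im| := by positivity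
  have h1 : (1 : ℝ) ≤ 1 + |s.im| := by have := abs_nonneg s.im; linarith
  rw [norm_mul, Complex.norm_exp, Complex.re_mul_ofReal, sq_re']
  have h2 : (1 + ‖s‖) ^ (1 / 2 : ℝ) ≤ (1 + x) * (1 + |s.im|) := by
    have h3 : 1 + ‖s‖ ≤ (1 + x) * (1 + |s.im|) := by
      have := Complex.norm_le_abs_re_add_abs_im s
      rw [abs_of_nonneg hs] at this
      have := abs_nonneg s.im
      nlinarith
    calc (1 + ‖s‖) ^ (1 / 2 : ℝ) ≤ (1 + ‖s‖) ^ (1 : ℝ) :=
          Real.rpow_le_rpow_of_exponent_le (by have := norm_nonneg s; linarith) (by norm_num)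
      _ = 1 + ‖s‖ := Real.rpow_one _
      _ ≤ _ := h3
  have h4 : Real.exp ((s.re ^ 2 - s.im ^ 2) * y) ≤ Real.exp (x ^ 2 * y) *
      (Real.exp y * (8 / y ^ 2) * (1 + |s.im|) ^ (-(4 : ℝ))) := by
    have h5 : Real.exp ((s.re ^ 2 - s.im ^ 2) * y) ≤ Real.exp (x ^ 2 * y) *
        Real.exp (-(s.im ^ 2 * y)) := by
      rw [← Real.exp_add]
      refine Real.exp_le_exp.2 ?_
      have : s.re ^ 2 ≤ x ^ 2 := pow_le_pow_left₀ hs hs2 2
      nlinarith
    exact h5.trans (mul_le_mul_of_nonneg_left (gauss_decay hy _) (Real.exp_pos _).le)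
  have h6 : (1 + |s.im|) * (1 + |s.im|) ^ (-(4 : ℝ)) = (1 + |s.im|) ^ (-(3 : ℝ)) := by
    nth_rewrite 1 [← Real.rpow_one (1 + |s.im|)]
    rw [← Real.rpow_add h0]
    norm_num
  calc ‖g s‖ * Real.exp ((s.re ^ 2 - s.im ^ 2) * y) ≤ (K * ((1 + x) * (1 + |s.im|))) *
        (Real.exp (x ^ 2 * y) * (Real.exp y * (8 / y ^ 2) * (1 + |s.im|) ^ (-(4 : ℝ)))) := by
        refine mul_le_mul ((hb s hs).trans (mul_le_mul_of_nonneg_left h2 hK)) h4
          (Real.exp_pos _).le (by positivity)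
    _ = K * (1 + x) * (Real.exp (x ^ 2 * y) * (Real.exp y * (8 / y ^ 2))) *
        ((1 + |s.im|) * (1 + |s.im|) ^ (-(4 : ℝ))) := by ring
    _ = _ := by rw [h6]

/-! ### The Gamma function -/

lemma gammaR_an {s : ℂ} (hs : 0 < s.re) : DifferentiableAt ℂ Gammaℝ s := by
  have h1 : DifferentiableAt ℂ (fun s : ℂ => Gamma (s / 2)) s := by
    refine DifferentiableAt.comp (g := Gamma) s (Complex.differentiableAt_Gamma _ fun m h => ?_)
      (by fun_prop)
    have h2 : (s / 2).re = (-(m : ℂ)).re := by rw [h]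
    rw [Complex.neg_re, Complex.natCast_re] at h2
    have h3 : (s / 2).re = s.re / 2 := by simp
    rw [h3] at h2
    have : (0 : ℝ) ≤ m := Nat.cast_nonneg m
    linarith
  have h2 : DifferentiableAt ℂ (fun s : ℂ => (Real.pi : ℂ) ^ (-s / 2)) s := by
    refine DifferentiableAt.const_cpow (by fun_prop) (Or.inl ?_)
    exact_mod_cast Real.pi_pos.ne'
  have h3 : Gammaℝ = fun s : ℂ => (Real.pi : ℂ) ^ (-s / 2) * Gamma (s / 2) := by
    funext s
    rw [Gammaℝ_def]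
  rw [h3]
  exact h2.mul h1

lemma gammaR_log {s : ℂ} (hs : 0 < s.re) :
    logDeriv Gammaℝ s = -(Real.log Real.pi : ℂ) / 2 + logDeriv Gamma (s / 2) / 2 := by
  have hpi : (Real.pi : ℂ) ≠ 0 := by exact_mod_cast Real.pi_pos.ne'
  have hs2 : 0 < (s / 2).re := by
    have h3 : (s / 2).re = s.re / 2 := by simp
    rw [h3]
    linarith
  have hG : DifferentiableAt ℂ Gamma (s / 2) := Complex.differentiableAt_Gamma _ fun m h => by
    rw [h, Complex.neg_re, Complex.natCast_re] at hs2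
    have : (0 : ℝ) ≤ m := Nat.cast_nonneg m
    linarith
  have hGn : Gamma (s / 2) ≠ 0 := Complex.Gamma_ne_zero_of_re_pos hs2
  have h1 : HasDerivAt (fun s : ℂ => Gamma (s / 2)) (deriv Gamma (s / 2) * (1 / 2)) s := by
    have h2 : HasDerivAt (fun s : ℂ => s / 2) (1 / 2) s := (hasDerivAt_id s).div_const 2
    exact HasDerivAt.comp s hG.hasDerivAt h2
  have h2 : HasDerivAt (fun s : ℂ => (Real.pi : ℂ) ^ (-s / 2))
      ((Real.pi : ℂ) ^ (-s / 2) * log Real.pi * (-1 / 2)) s := by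
    have h3 : HasDerivAt (fun s : ℂ => -s / 2) (-1 / 2) s := (hasDerivAt_neg s).div_const 2
    exact h3.const_cpow (Or.inl hpi)
  have h3 : Gammaℝ = fun s : ℂ => (Real.pi : ℂ) ^ (-s / 2) * Gamma (s / 2) := by
    funext s
    rw [Gammaℝ_def]
  have h4 := (h2.fun_mul h1).deriv
  have h5 : (Real.pi : ℂ) ^ (-s / 2) ≠ 0 := by
    rw [Complex.cpow_def_of_ne_zero hpi]
    exact Complex.exp_ne_zero _
  rw [h3, logDeriv_apply, h4, logDeriv_apply, ← Complex.ofReal_log Real.pi_pos.le]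
  field_simp

/-- growth of the logarithmic derivative of the Gamma factor -/
theorem gammaR_bd {κ : ℝ} (hκ : 0 < κ) : ∃ K : ℝ, 0 ≤ K ∧ ∀ z : ℂ, 0 ≤ z.re →
    ‖logDeriv Gammaℝ (z + κ)‖ ≤ K * (1 + ‖z‖) ^ (1 / 2 : ℝ) := by
  set K₀ : ℝ := ∑' n : ℕ, 1 / ((n : ℝ) + 1) ^ 2 with hK₀
  have hK₀0 : 0 ≤ K₀ := tsum_nonneg fun n => by positivity
  have hpi := Real.pi_pos
  refine ⟨|Real.log Real.pi| / 2 + (2 * (2 + κ) + Real.pi + 2 / κ + 1 + K₀) / 2, by positivity,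
    fun z hz => ?_⟩
  have h0 : 0 < 1 + ‖z‖ := by positivity
  have h1 : (1 : ℝ) ≤ (1 + ‖z‖) ^ (1 / 2 : ℝ) :=
    Real.one_le_rpow (by have := norm_nonneg z; linarith) (by norm_num)
  have hs : 0 < (z + κ).re := by
    rw [Complex.add_re, Complex.ofReal_re]
    linarith
  set w : ℂ := (z + κ) / 2 with hw
  have hwre : w.re = (z.re + κ) / 2 := by rw [hw]; simp
  have hw0 : 0 < w.re := by rw [hwre]; linarith
  have hwk : κ / 2 ≤ ‖w‖ := by
    have := re_le_norm w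
    rw [hwre] at this
    linarith
  have hw1 : 1 ≤ ‖w + 1‖ := by
    have := re_le_norm (w + 1)
    rw [Complex.add_re, Complex.one_re] at this
    linarith
  have hw2 : 1 ≤ ‖w + 2‖ := by
    have := re_le_norm (w + 2)
    rw [Complex.add_re] at this
    have h2 : (2 : ℂ).re = 2 := by simp
    rw [h2] at this
    linarith
  rw [gammaR_log hs, ← hw]
  rw [DG.logDeriv_Gamma' hw0]
  have e1 : ‖log (w + 2)‖ ≤ 2 * (2 + κ) * (1 + ‖z‖) ^ (1 / 2 : ℝ) + Real.pi := by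
    have h2 : ‖log (w + 2)‖ ≤ |(log (w + 2)).re| + |(log (w + 2)).im| :=
      Complex.norm_le_abs_re_add_abs_im _
    rw [Complex.log_re, Complex.log_im] at h2
    have h3 : |arg (w + 2)| ≤ Real.pi := Complex.abs_arg_le_pi _
    have h4 : 0 ≤ Real.log ‖w + 2‖ := Real.log_nonneg hw2
    rw [abs_of_nonneg h4] at h2
    have h5 : Real.log ‖w + 2‖ ≤ 2 * ‖w + 2‖ ^ (1 / 2 : ℝ) := by
      have h6 : Real.log (‖w + 2‖ ^ (1 / 2 : ℝ)) ≤ ‖w + 2‖ ^ (1 / 2 : ℝ) - 1 :=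
        Real.log_le_sub_one_of_pos (by positivity)
      rw [Real.log_rpow (by positivity)] at h6
      linarith
    have h7 : ‖w + 2‖ ≤ (2 + κ) * (1 + ‖z‖) := by
      have h8 : ‖w‖ ≤ (‖z‖ + κ) / 2 := by
        rw [hw, norm_div]
        have : ‖(2 : ℂ)‖ = 2 := by simp
        rw [this]
        have h9 : ‖z + κ‖ ≤ ‖z‖ + κ := by
          refine (norm_add_le _ _).trans (le_of_eq ?_)
          rw [Complex.norm_real, Real.norm_eq_abs, abs_of_pos hκ]
        linarith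
      have h10 : ‖w + 2‖ ≤ ‖w‖ + 2 := by
        refine (norm_add_le _ _).trans (le_of_eq ?_)
        simp
      have := norm_nonneg z
      nlinarith
    have h11 : ‖w + 2‖ ^ (1 / 2 : ℝ) ≤ (2 + κ) * (1 + ‖z‖) ^ (1 / 2 : ℝ) := by
      calc ‖w + 2‖ ^ (1 / 2 : ℝ) ≤ ((2 + κ) * (1 + ‖z‖)) ^ (1 / 2 : ℝ) :=
            Real.rpow_le_rpow (norm_nonneg _) h7 (by norm_num)
        _ = (2 + κ) ^ (1 / 2 : ℝ) * (1 + ‖z‖) ^ (1 / 2 : ℝ) :=
            Real.mul_rpow (by positivity) (by positivity)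
        _ ≤ (2 + κ) ^ (1 : ℝ) * (1 + ‖z‖) ^ (1 / 2 : ℝ) := by
            refine mul_le_mul_of_nonneg_right ?_ (by positivity)
            exact Real.rpow_le_rpow_of_exponent_le (by linarith) (by norm_num)
        _ = _ := by rw [Real.rpow_one]
    linarith
  have e2 : ‖1 / w‖ ≤ 2 / κ := by
    rw [norm_div, norm_one, div_le_div_iff₀ (by linarith) hκ]
    linarith
  have e3 : ‖1 / (w + 1)‖ ≤ 1 := by
    rw [norm_div, norm_one]
    exact (div_le_one (by linarith)).2 hw1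
  have e4 := DG.norm_tsum_er hw0
  have e5 : ‖-(Real.log Real.pi : ℂ) / 2‖ = |Real.log Real.pi| / 2 := by
    rw [norm_div, norm_neg, Complex.norm_real, Real.norm_eq_abs]
    simp
  have e6 : ‖(log (w + 2) - 1 / w - 1 / (w + 1) + ∑' n, DG.er n w) / 2‖ ≤
      ((2 * (2 + κ) * (1 + ‖z‖) ^ (1 / 2 : ℝ) + Real.pi) + 2 / κ + 1 + K₀) / 2 := by
    rw [norm_div]
    have : ‖(2 : ℂ)‖ = 2 := by simp
    rw [this]
    refine div_le_div_of_nonneg_right ?_ (by norm_num)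
    refine (norm_add_le _ _).trans (add_le_add ((norm_sub_le _ _).trans (add_le_add
      ((norm_sub_le _ _).trans (add_le_add e1 e2)) e3)) e4)
  refine (norm_add_le _ _).trans ?_
  rw [e5]
  have e7 : |Real.log Real.pi| / 2 ≤ |Real.log Real.pi| / 2 * (1 + ‖z‖) ^ (1 / 2 : ℝ) :=
    le_mul_of_one_le_right (by positivity) h1
  have e8 : Real.pi + 2 / κ + 1 + K₀ ≤ (Real.pi + 2 / κ + 1 + K₀) * (1 + ‖z‖) ^ (1 / 2 : ℝ) :=
    le_mul_of_one_le_right (by positivity) h1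
  calc |Real.log Real.pi| / 2 + ‖(log (w + 2) - 1 / w - 1 / (w + 1) + ∑' n, DG.er n w) / 2‖ ≤
        |Real.log Real.pi| / 2 +
          ((2 * (2 + κ) * (1 + ‖z‖) ^ (1 / 2 : ℝ) + Real.pi) + 2 / κ + 1 + K₀) / 2 := by
        linarith
    _ ≤ _ := by
        have : (|Real.log Real.pi| / 2 + (2 * (2 + κ) + Real.pi + 2 / κ + 1 + K₀) / 2) *
            (1 + ‖z‖) ^ (1 / 2 : ℝ) = |Real.log Real.pi| / 2 * (1 + ‖z‖) ^ (1 / 2 : ℝ) +
            (2 * (2 + κ) * (1 + ‖z‖) ^ (1 / 2 : ℝ) +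
              (Real.pi + 2 / κ + 1 + K₀) * (1 + ‖z‖) ^ (1 / 2 : ℝ)) / 2 := by ring
        rw [this]
        linarith

end Pool.Agent.R791.Fe
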