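import Pool.Agent.R791.Fe7
import Pool.Agent.R791.Frob
import Pool.Agent.R791.HeatFrob

/-!
# The completed L-function
-/

set_option autoImplicit false

open MeasureTheory Filter Topology Set Complex
open Pool.Agent.TH942.SL

namespace Pool.Agent.R791.Fe

open Pool.Agent.R791.Heat H370

/-- a function whose logarithmic derivative is minus a Dirichlet series -/
structure Piece {ι : Type*} (G : ℂ → ℂ) (a : ℝ) (b : ι → ℂ) (l : ι → ℝ) : Prop where
  diff : ∀ z : ℂ, a < z.re → DifferentiableAt ℂ G z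
  ne : ∀ z : ℂ, a < z.re → G z ≠ 0
  ld : ∀ z : ℂ, a < z.re → logDeriv G z = -∑' i, b i * exp (-(z * l i))
  sum : ∀ x : ℝ, a < x → Summable fun i => ‖b i‖ * Real.exp (-(x * l i))
  lpos : ∀ i, 0 ≤ l i

lemma Piece.bd {ι : Type*} {G : ℂ → ℂ} {a : ℝ} {b : ι → ℂ} {l : ι → ℝ} (P : Piece G a b l) {x : ℝ}
    (hx : a < x) {z : ℂ} (hz : x ≤ z.re) :
    ‖logDeriv G z‖ ≤ ∑' i, ‖b i‖ * Real.exp (-(x * l i)) := by
  rw [P.ld z (by linarith), norm_neg]
  refine tsum_of_norm_bounded (P.sum x hx).hasSum fun i => ?_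
  rw [norm_mul, Complex.norm_exp, Complex.neg_re, Complex.re_mul_ofReal]
  refine mul_le_mul_of_nonneg_left (Real.exp_le_exp.2 ?_) (norm_nonneg _)
  have := mul_le_mul_of_nonneg_right hz (P.lpos i)
  linarith

lemma Piece.vint {ι : Type*} [Countable ι] {G : ℂ → ℂ} {a : ℝ} {b : ι → ℂ} {l : ι → ℝ}
    (P : Piece G a b l) {x : ℝ} (hx : a < x) {y : ℝ} (hy : 0 < y) :
    Integrable (fun t : ℝ => logDeriv G ((x : ℂ) + t * I) * exp (((x : ℂ) + t * I) ^ 2 * y)) ∧
    HasSum (fun i => b i * (((√(4 * Real.pi * y))⁻¹ * Real.exp (-(l i ^ 2) / (4 * y)) : ℝ) : ℂ))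
      (-V x (fun z => logDeriv G z * exp (z ^ 2 * y))) := by
  obtain ⟨h1, h2⟩ := V_series b l (P.sum x hx) hy
  have e1 : ∀ t : ℝ, logDeriv G ((x : ℂ) + t * I) = -∑' i, b i * exp (-(((x : ℂ) + t * I) * l i)) :=
    fun t => P.ld _ (by simpa using hx)
  refine ⟨?_, ?_⟩
  · refine h1.neg.congr (Eventually.of_forall fun t => ?_)
    simp only [Pi.neg_apply]
    rw [e1, neg_mul]
  · have e2 : -V x (fun z => logDeriv G z * exp (z ^ 2 * y)) =
        V x (fun z => (∑' i, b i * exp (-(z * l i))) * exp (z ^ 2 * y)) := by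
      unfold V
      rw [← mul_neg, ← integral_neg]
      congr 1
      refine integral_congr_ae (Eventually.of_forall fun t => ?_)
      simp only
      rw [e1, neg_mul, neg_neg]
    rw [e2]
    exact h2

/-- an Euler factor -/
theorem piece_factor {q : ℝ} (hq : 1 < q) (ρ : ℂ) {c b : ℝ} (hρ : ‖ρ‖ ≤ q ^ b) :
    Piece (fun z : ℂ => (1 - ρ * (q : ℂ) ^ (-((c : ℂ) + z)))⁻¹) (b - c)
      (fun k : ℕ => ρ ^ (k + 1) * (Real.log q * (q ^ (-c)) ^ (k + 1) : ℝ))
      (fun k : ℕ => ((k : ℝ) + 1) * Real.log q) := by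
  have hq0 : 0 < q := by linarith
  have hl : 0 < Real.log q := Real.log_pos hq
  have hqc : (q : ℂ) ≠ 0 := by exact_mod_cast hq0.ne'
  set u : ℂ → ℂ := fun z => ρ * (q : ℂ) ^ (-((c : ℂ) + z)) with hu
  have hpow : ∀ z : ℂ, (q : ℂ) ^ (-((c : ℂ) + z)) = ((q ^ (-c) : ℝ) : ℂ) * exp (-(z * Real.log q)) := by
    intro z
    rw [Complex.cpow_def_of_ne_zero hqc, Real.rpow_def_of_pos hq0, Complex.ofReal_exp,
      ← Complex.exp_add, Complex.ofReal_log hq0.le]
    congr 1
    push_cast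
    rw [Complex.ofReal_log hq0.le]
    ring
  have hun : ∀ z : ℂ, ‖u z‖ = ‖ρ‖ * (q ^ (-c) * Real.exp (-(z.re * Real.log q))) := by
    intro z
    rw [hu]
    simp only
    rw [hpow, norm_mul, norm_mul, Complex.norm_real, Complex.norm_exp, Complex.neg_re,
      Complex.re_mul_ofReal, Real.norm_eq_abs, abs_of_pos (Real.rpow_pos_of_pos hq0 _)]
  have hlt : ∀ x : ℝ, b - c < x → ‖ρ‖ * (q ^ (-c) * Real.exp (-(x * Real.log q))) < 1 := by
    intro x hx
    have e1 : q ^ (-c) * Real.exp (-(x * Real.log q)) = q ^ (-(c + x)) := by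
      rw [Real.rpow_def_of_pos hq0, Real.rpow_def_of_pos hq0, ← Real.exp_add]
      congr 1
      ring
    rw [e1]
    calc ‖ρ‖ * q ^ (-(c + x)) ≤ q ^ b * q ^ (-(c + x)) :=
          mul_le_mul_of_nonneg_right hρ (by positivity)
      _ = q ^ (b + -(c + x)) := (Real.rpow_add hq0 _ _).symm
      _ < q ^ (0 : ℝ) := Real.rpow_lt_rpow_of_exponent_lt hq (by linarith)
      _ = 1 := Real.rpow_zero _
  have hu1 : ∀ z : ℂ, b - c < z.re → ‖u z‖ < 1 := fun z hz => by
    rw [hun]
    exact hlt _ hz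
  have hne : ∀ z : ℂ, b - c < z.re → 1 - u z ≠ 0 := fun z hz h => by
    have h1 := hu1 z hz
    rw [← sub_eq_zero.1 h] at h1
    simp at h1
  have hud : ∀ z : ℂ, HasDerivAt u (-(Real.log q) * u z) z := by
    intro z
    have h1 : u = fun z => ρ * (((q ^ (-c) : ℝ) : ℂ) * exp (-(z * Real.log q))) := by
      funext w
      rw [hu]
      simp only
      rw [hpow]
    have h2 : HasDerivAt (fun z : ℂ => -(z * (Real.log q : ℂ))) (-(1 * (Real.log q : ℂ))) z :=
      ((hasDerivAt_id z).mul_const _).fun_neg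
    have h3 := (h2.cexp.const_mul ((q ^ (-c) : ℝ) : ℂ)).const_mul ρ
    rw [h1]
    refine h3.congr_deriv ?_
    simp only
    ring
  have hGd : ∀ z : ℂ, b - c < z.re → HasDerivAt (fun z => (1 - u z)⁻¹)
      (-(-(-(Real.log q) * u z)) / (1 - u z) ^ 2) z := fun z hz =>
    ((hud z).const_sub 1).fun_inv (hne z hz)
  have hsum : ∀ x : ℝ, b - c < x → Summable fun k : ℕ =>
      ‖ρ ^ (k + 1) * (Real.log q * (q ^ (-c)) ^ (k + 1) : ℝ)‖ *
        Real.exp (-(x * (((k : ℝ) + 1) * Real.log q))) := by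
    intro x hx
    have h1 : ∀ k : ℕ, ‖ρ ^ (k + 1) * ((Real.log q * (q ^ (-c)) ^ (k + 1) : ℝ) : ℂ)‖ *
        Real.exp (-(x * (((k : ℝ) + 1) * Real.log q))) =
        Real.log q * (‖ρ‖ * (q ^ (-c) * Real.exp (-(x * Real.log q)))) ^ (k + 1) := by
      intro k
      rw [norm_mul, norm_pow, Complex.norm_real, Real.norm_eq_abs, abs_of_pos (by positivity),
        mul_pow, mul_pow, ← Real.exp_nat_mul]
      have : (((k + 1 : ℕ) : ℝ)) * -(x * Real.log q) = -(x * (((k : ℝ) + 1) * Real.log q)) := by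
        push_cast
        ring
      rw [this]
      ring
    simp only [h1]
    refine Summable.mul_left _ ?_
    exact (summable_nat_add_iff 1).2 (summable_geometric_of_lt_one (by positivity) (hlt x hx))
  refine ⟨fun z hz => (hGd z hz).differentiableAt, fun z hz => inv_ne_zero (hne z hz),
    fun z hz => ?_, hsum, fun k => by positivity⟩
  have h1 : logDeriv (fun z => (1 - u z)⁻¹) z = -(Real.log q * (u z * (1 - u z)⁻¹)) := by
    rw [logDeriv_apply, (hGd z hz).deriv]
    have := hne z hz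
    field_simp
  rw [h1]
  congr 1
  have h2 : HasSum (fun k : ℕ => u z ^ k) (1 - u z)⁻¹ := hasSum_geometric_of_norm_lt_one (hu1 z hz)
  have h3 : HasSum (fun k : ℕ => (Real.log q : ℂ) * (u z * u z ^ k))
      (Real.log q * (u z * (1 - u z)⁻¹)) := (h2.mul_left _).mul_left _
  rw [← h3.tsum_eq]
  refine tsum_congr fun k => ?_
  have h4 : exp (-(z * ((((k : ℝ) + 1) * Real.log q : ℝ) : ℂ))) = exp (-(z * Real.log q)) ^ (k + 1) := by
    rw [← Complex.exp_nat_mul]
    congr 1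
    push_cast
    ring
  rw [h4, ← pow_succ']
  have h5 : u z = ρ * (((q ^ (-c) : ℝ) : ℂ) * exp (-(z * Real.log q))) := by
    rw [hu]
    simp only
    rw [hpow]
  rw [h5, mul_pow, mul_pow]
  push_cast
  ring

open NumberField IsDedekindDomain Pool.Agent.R791.Frob Pool.Agent.TH942.ES
open Pool.Agent.H921R2.TatePole (nm two_le_nm)

variable {K : Type} [Field K] [NumberField K] {d : ℕ} {c : ℝ}

lemma lam_nonneg (V : Frobenius K d c) (p : {v // v ∉ V.bad} × ℕ) :
    0 < lamP (fun v : {v // v ∉ V.bad} => nm v.1) p := by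
  have h1 := V.sys.logN p.1
  unfold lamP
  have : (0 : ℝ) ≤ p.2 := Nat.cast_nonneg _
  positivity

/-- the Euler product -/
theorem piece_L (V : Frobenius K d c) :
    Piece (fun z : ℂ => V.LSeries ((c : ℂ) + z)) (1 / 2)
      (fun p : {v // v ∉ V.bad} × ℕ => ((cP (fun v : {v // v ∉ V.bad} => nm v.1) V.al p *
        lamP (fun v : {v // v ∉ V.bad} => nm v.1) p : ℝ) : ℂ))
      (fun p => lamP (fun v : {v // v ∉ V.bad} => nm v.1) p) := by
  have E := V.sys
  have hcnt := E.cnt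
  obtain ⟨e, he⟩ := Countable.exists_injective_nat ({v // v ∉ V.bad} × ℕ)
  set N : {v // v ∉ V.bad} → ℕ := fun v => nm v.1 with hN
  have hL : (fun z : ℂ => V.LSeries ((c : ℂ) + z)) = LE N V.al := by
    funext z
    rw [← V.LE_eq, add_sub_cancel_left]
  rw [hL]
  have ho : IsOpen {s : ℂ | 1 / 2 < s.re} := isOpen_lt continuous_const Complex.continuous_re
  have hder : ∀ z : ℂ, 1 / 2 < z.re → HasDerivAt (LE N V.al)
      (LE N V.al z * -Pool.Agent.TH942.LS.P (lamS N e) (cS N V.al e) z) z := by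
    intro z hz
    obtain ⟨σ, h1, h2⟩ := exists_between hz
    have h3 := (dd_deriv (E.datS he h1) h2).cexp
    rw [E.exp_DD V.hreal he hz] at h3
    refine h3.congr_of_eventuallyEq ?_
    filter_upwards [ho.mem_nhds hz] with w hw
    exact (E.exp_DD V.hreal he hw).symm
  have hne : ∀ z : ℂ, 1 / 2 < z.re → LE N V.al z ≠ 0 := fun z hz => by
    rw [← E.exp_DD V.hreal he hz]
    exact Complex.exp_ne_zero _
  refine ⟨fun z hz => (hder z hz).differentiableAt, hne, fun z hz => ?_, fun x hx => ?_,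
    fun p => (lam_nonneg V p).le⟩
  · have h1 : logDeriv (LE N V.al) z = -Pool.Agent.TH942.LS.P (lamS N e) (cS N V.al e) z := by
      rw [logDeriv_apply, (hder z hz).deriv]
      have := hne z hz
      field_simp
    rw [h1]
    congr 1
    unfold Pool.Agent.TH942.LS.P
    exact tsum_cS he (fun c l => ((c * l : ℝ) : ℂ) * exp (-(z * l))) (fun l => by simp)
  · obtain ⟨σ, h1, h2⟩ := exists_between hx
    refine Summable.of_nonneg_of_le (fun p => by positivity) (fun p => ?_)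
      ((E.cP_sum h1).mul_left ((x - σ)⁻¹))
    have hl := lam_nonneg V p
    have h3 : 0 < x - σ := by linarith
    rw [Complex.norm_real, Real.norm_eq_abs, abs_mul, abs_of_pos hl]
    have h4 : lamP N p * Real.exp (-(x * lamP N p)) ≤ (x - σ)⁻¹ * Real.exp (-(σ * lamP N p)) := by
      have h5 : Real.exp (-(x * lamP N p)) = Real.exp (-((x - σ) * lamP N p)) *
          Real.exp (-(σ * lamP N p)) := by
        rw [← Real.exp_add]
        congr 1
        ring
      rw [h5, ← mul_assoc]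
      refine mul_le_mul_of_nonneg_right ?_ (Real.exp_pos _).le
      have h6 : (x - σ) * lamP N p ≤ Real.exp ((x - σ) * lamP N p) := by
        have := Real.add_one_le_exp ((x - σ) * lamP N p)
        linarith
      rw [Real.exp_neg, ← div_eq_mul_inv, div_le_iff₀ (Real.exp_pos _), inv_mul_eq_div,
        le_div_iff₀ h3]
      linarith
    calc |cP N V.al p| * lamP N p * Real.exp (-(x * lamP N p)) =
          |cP N V.al p| * (lamP N p * Real.exp (-(x * lamP N p))) := by ring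
      _ ≤ |cP N V.al p| * ((x - σ)⁻¹ * Real.exp (-(σ * lamP N p))) :=
          mul_le_mul_of_nonneg_left h4 (abs_nonneg _)
      _ = _ := by ring

lemma heat_hasSum (V : Frobenius K d c) (y : ℝ) :
    ∑' p : {v // v ∉ V.bad} × ℕ, ((cP (fun v : {v // v ∉ V.bad} => nm v.1) V.al p *
        lamP (fun v : {v // v ∉ V.bad} => nm v.1) p : ℝ) : ℂ) *
      (((√(4 * Real.pi * y))⁻¹ *
        Real.exp (-(lamP (fun v : {v // v ∉ V.bad} => nm v.1) p ^ 2) / (4 * y)) : ℝ) : ℂ) =
      (V.heat c y : ℂ) := by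
  unfold Frobenius.heat
  rw [Complex.ofReal_mul, Complex.ofReal_tsum, ← tsum_mul_left]
  refine tsum_congr fun p => ?_
  rw [← Complex.ofReal_mul, ← Complex.ofReal_mul]
  congr 1
  have h0 := Frobenius.nm_pos (K := K) p.1.1
  have h1 : cP (fun v : {v // v ∉ V.bad} => nm v.1) V.al p =
      (∑ i, V.eig p.1.1 i ^ (p.2 + 1)).re * ((nm p.1.1 : ℝ) ^ (-c)) ^ (p.2 + 1) /
        ((p.2 : ℝ) + 1) := by
    unfold cP
    rw [V.pow_sum, Complex.ofReal_re, Real.rpow_neg h0.le, inv_pow, div_eq_mul_inv _ (((nm p.1.1 : ℝ) ^ c) ^ (p.2 + 1))]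
  have h2 : lamP (fun v : {v // v ∉ V.bad} => nm v.1) p = ((p.2 : ℝ) + 1) * Real.log (nm p.1.1) := rfl
  have h3 : ((p.2 : ℝ) + 1) ≠ 0 := by positivity
  unfold Frobenius.heatTerm
  rw [h1, h2]
  field_simp

end Pool.Agent.R791.Fe
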