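import Pool.Agent.R791.Fe8
import Pool.Agent.R791.FeDef

/-!
# The completed L-function and the heat function of its zeros
-/

set_option autoImplicit false

open MeasureTheory Filter Topology Set Complex
open Pool.Agent.TH942.SL

namespace Pool.Agent.R791.Fe

open Pool.Agent.R791.Heat Pool.Agent.R791.Frob NumberField IsDedekindDomain H370

variable {K : Type} [Field K] [NumberField K] {d : ℕ} {c : ℝ} {V : Frobenius K d c}
  (L : Completion V)

/-- the archimedean factor -/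
theorem arch_piece {A : ℝ} (hA0 : 0 < A) :
    (∀ z : ℂ, 0 ≤ z.re → AnalyticAt ℂ (fun z : ℂ => (A : ℂ) ^ (((c : ℂ) + z) / 2) * L.gam (c + z)) z ∧
      (A : ℂ) ^ (((c : ℂ) + z) / 2) * L.gam (c + z) ≠ 0) ∧
    (∀ z : ℂ, 0 ≤ z.re →
      logDeriv (fun z : ℂ => (A : ℂ) ^ (((c : ℂ) + z) / 2) * L.gam (c + z)) z =
        (Real.log A : ℂ) / 2 + logDeriv L.gam (c + z)) ∧
    (∀ z : ℂ, 0 ≤ z.re → ContinuousAt (fun z => logDeriv L.gam (c + z)) z) ∧
    (∃ C : ℝ, 0 ≤ C ∧ ∀ z : ℂ, 0 ≤ z.re →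
      ‖logDeriv (fun z : ℂ => (A : ℂ) ^ (((c : ℂ) + z) / 2) * L.gam (c + z)) z‖ ≤
        C * (1 + ‖z‖) ^ (1 / 2 : ℝ)) ∧
    ∃ C : ℝ, 0 ≤ C ∧ ∀ z : ℂ, 0 ≤ z.re →
      ‖logDeriv L.gam (c + z)‖ ≤ C * (1 + ‖z‖) ^ (1 / 2 : ℝ) := by
  have hA : (A : ℂ) ≠ 0 := by exact_mod_cast hA0.ne'
  set O : Set ℂ := {z : ℂ | ∀ j, 0 < z.re + (c + L.shift j)} with hO
  have hOo : IsOpen O := by
    have : O = ⋂ j, {z : ℂ | 0 < z.re + (c + L.shift j)} := by
      ext z
      simp [hO]
    rw [this]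
    exact isOpen_iInter_of_finite fun j =>
      isOpen_lt continuous_const (Complex.continuous_re.add continuous_const)
  have hOz : ∀ z : ℂ, 0 ≤ z.re → z ∈ O := fun z hz j => by
    have := L.shift_pos j
    linarith
  have hre : ∀ (z : ℂ) (j), ((c : ℂ) + z + L.shift j).re = z.re + (c + L.shift j) := fun z j => by
    simp
    ring
  have hGd : ∀ z ∈ O, ∀ j, DifferentiableAt ℂ (fun z : ℂ => Gammaℝ (c + z + L.shift j)) z :=
    fun z hz j => DifferentiableAt.comp (g := Gammaℝ) (f := fun z : ℂ => (c : ℂ) + z + L.shift j) z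
      (gammaR_an (by rw [hre]; exact hz j)) (by fun_prop)
  have hGn : ∀ z ∈ O, ∀ j, Gammaℝ (c + z + L.shift j) ≠ 0 := fun z hz j =>
    Gammaℝ_ne_zero_of_re_pos (by rw [hre]; exact hz j)
  have hPd : ∀ z : ℂ, DifferentiableAt ℂ (fun z : ℂ => (A : ℂ) ^ (((c : ℂ) + z) / 2)) z :=
    fun z => DifferentiableAt.const_cpow (by fun_prop) (Or.inl hA)
  have hPn : ∀ z : ℂ, (A : ℂ) ^ (((c : ℂ) + z) / 2) ≠ 0 := fun z => by
    rw [Complex.cpow_def_of_ne_zero hA]
    exact Complex.exp_ne_zero _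
  have hgd : ∀ z ∈ O, DifferentiableAt ℂ (fun z : ℂ => L.gam (c + z)) z := fun z hz =>
    DifferentiableAt.fun_finsetProd fun j _ => hGd z hz j
  have hgn : ∀ z ∈ O, L.gam (c + z) ≠ 0 := fun z hz =>
    Finset.prod_ne_zero_iff.2 fun j _ => hGn z hz j
  have hga : ∀ z ∈ O, AnalyticAt ℂ (fun z : ℂ => L.gam (c + z)) z := fun z hz => by
    have h2 : DifferentiableOn ℂ (fun z : ℂ => L.gam (c + z)) O := fun w hw =>
      (hgd w hw).differentiableWithinAt
    exact h2.analyticAt (hOo.mem_nhds hz)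
  have hd : DifferentiableOn ℂ (fun z : ℂ => (A : ℂ) ^ (((c : ℂ) + z) / 2) * L.gam (c + z)) O :=
    fun z hz => ((hPd z).mul (hgd z hz)).differentiableWithinAt
  have hgld : ∀ z : ℂ, logDeriv (fun z : ℂ => L.gam (c + z)) z = logDeriv L.gam (c + z) := fun z => by
    rw [logDeriv_apply, logDeriv_apply, deriv_comp_const_add]
  choose! Kj hK0 hK using fun j => gammaR_bd (L.shift_pos j)
  have hKs := Finset.sum_nonneg (s := Finset.univ) fun j (_ : j ∈ Finset.univ) => hK0 j
  have hgb : ∀ z : ℂ, 0 ≤ z.re → ‖logDeriv L.gam (c + z)‖ ≤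
      (∑ j, Kj j) * (1 + ‖z‖) ^ (1 / 2 : ℝ) := by
    intro z hz
    have e3 : logDeriv (fun z : ℂ => L.gam (c + z)) z =
        ∑ j, logDeriv Gammaℝ (z + ((c + L.shift j : ℝ) : ℂ)) := by
      have e4 : (fun z : ℂ => L.gam (c + z)) = fun z : ℂ => ∏ j, Gammaℝ (c + z + L.shift j) := rfl
      rw [e4, logDeriv_prod (f := fun j (z : ℂ) => Gammaℝ (c + z + L.shift j))
        (fun j _ => hGn z (hOz z hz) j) fun j _ => hGd z (hOz z hz) j]
      refine Finset.sum_congr rfl fun j _ => ?_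
      have h3 : (fun z : ℂ => Gammaℝ (c + z + L.shift j)) =
          fun z : ℂ => Gammaℝ (z + ((c + L.shift j : ℝ) : ℂ)) := by
        funext w
        congr 1
        push_cast
        ring
      rw [h3, logDeriv_apply, logDeriv_apply, deriv_comp_add_const]
    rw [← hgld, e3, Finset.sum_mul]
    exact (norm_sum_le _ _).trans (Finset.sum_le_sum fun j _ => hK j z hz)
  have hlog : ∀ z : ℂ, 0 ≤ z.re →
      logDeriv (fun z : ℂ => (A : ℂ) ^ (((c : ℂ) + z) / 2) * L.gam (c + z)) z =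
        (Real.log A : ℂ) / 2 + logDeriv L.gam (c + z) := by
    intro z hz
    have e1 := logDeriv_mul (f := fun z : ℂ => (A : ℂ) ^ (((c : ℂ) + z) / 2))
      (g := fun z : ℂ => L.gam (c + z)) z (hPn z) (hgn z (hOz z hz)) (hPd z) (hgd z (hOz z hz))
    have e2 : logDeriv (fun z : ℂ => (A : ℂ) ^ (((c : ℂ) + z) / 2)) z = (Real.log A : ℂ) / 2 := by
      have h3 : HasDerivAt (fun z : ℂ => ((c : ℂ) + z) / 2) (1 / 2) z :=
        ((hasDerivAt_id z).const_add (c : ℂ)).div_const 2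
      have h4 := (h3.const_cpow (c := (A : ℂ)) (Or.inl hA)).deriv
      rw [logDeriv_apply, h4, ← Complex.ofReal_log hA0.le]
      have := hPn z
      field_simp
    rw [e1, e2, hgld]
  refine ⟨fun z hz => ⟨hd.analyticAt (hOo.mem_nhds (hOz z hz)), mul_ne_zero (hPn z)
    (hgn z (hOz z hz))⟩, hlog, fun z hz => ?_, ⟨|Real.log A| / 2 + ∑ j, Kj j, by positivity,
    fun z hz => ?_⟩, ⟨_, hKs, hgb⟩⟩
  · have h1 := hga z (hOz z hz)
    have h2 : ContinuousAt (logDeriv fun z : ℂ => L.gam (c + z)) z :=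
      (h1.deriv.differentiableAt.div h1.differentiableAt (hgn z (hOz z hz))).continuousAt
    refine h2.congr (Eventually.of_forall fun w => hgld w)
  · have h1 : (1 : ℝ) ≤ (1 + ‖z‖) ^ (1 / 2 : ℝ) :=
      Real.one_le_rpow (by have := norm_nonneg z; linarith) (by norm_num)
    rw [hlog z hz]
    refine (norm_add_le _ _).trans ?_
    rw [add_mul]
    refine add_le_add ?_ (hgb z hz)
    rw [norm_div, Complex.norm_real, Real.norm_eq_abs]
    have : ‖(2 : ℂ)‖ = 2 := by simp
    rw [this]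
    exact le_mul_of_one_le_right (by positivity) h1

/-- the function in the centred variable -/
noncomputable def F₀ (A : ℝ) (z : ℂ) : ℂ := L.Lam A (c + z)

lemma a_ge : 1 / 2 ≤ L.b - c := by have := L.b_ge; linarith

/-- the data and the heat function -/
theorem fd_Z {A : ℝ} (hA0 : 0 < A) : ∃ C : ℝ, FD (F₀ L A) (L.b - c) (L.b - c + 1) C ∧
    ∀ y : ℝ, 0 < y → 2 * hw (F₀ L A) (L.b - c + 1) y = L.Z A y := by
  obtain ⟨ha1, hal, hgc, ⟨C₁, hC₁, ha2⟩, C₂, hC₂, hgb⟩ := arch_piece L hA0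
  have hage := a_ge L
  set a : ℝ := L.b - c with ha
  set gA : ℂ → ℂ := fun z => (A : ℂ) ^ (((c : ℂ) + z) / 2) * L.gam (c + z) with hgA
  set gL : ℂ → ℂ := fun z => V.LSeries ((c : ℂ) + z) with hgL
  set gB : Fin L.r → ℂ → ℂ := fun j z => (1 - L.root j * (L.q j : ℂ) ^ (-((c : ℂ) + z)))⁻¹ with hgB
  have pL := piece_L V
  rw [← hgL] at pL
  have pB : ∀ j, Piece (gB j) a _ _ := fun j => piece_factor (L.one_lt j) (L.root j) (c := c) (L.size j)
  have hF : F₀ L A = fun z => gA z * (∏ j, gB j z) * gL z := rfl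
  have hz0 : ∀ z : ℂ, a < z.re → 0 ≤ z.re := fun z hz => by linarith
  have hzh : ∀ z : ℂ, a < z.re → 1 / 2 < z.re := fun z hz => by linarith
  have hBd : ∀ z : ℂ, a < z.re → DifferentiableAt ℂ (fun z => ∏ j, gB j z) z := fun z hz =>
    DifferentiableAt.fun_finsetProd fun j _ => (pB j).diff z hz
  have hBn : ∀ z : ℂ, a < z.re → ∏ j, gB j z ≠ 0 := fun z hz =>
    Finset.prod_ne_zero_iff.2 fun j _ => (pB j).ne z hz
  have hAd : ∀ z : ℂ, a < z.re → DifferentiableAt ℂ gA z := fun z hz =>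
    (ha1 z (hz0 z hz)).1.differentiableAt
  have hAn : ∀ z : ℂ, a < z.re → gA z ≠ 0 := fun z hz => (ha1 z (hz0 z hz)).2
  have hlog : ∀ z : ℂ, a < z.re → logDeriv (F₀ L A) z =
      logDeriv gA z + ∑ j, logDeriv (gB j) z + logDeriv gL z := by
    intro z hz
    rw [hF, logDeriv_mul (f := fun z => gA z * ∏ j, gB j z) (g := gL) z
      (mul_ne_zero (hAn z hz) (hBn z hz)) (pL.ne z (hzh z hz))
      ((hAd z hz).mul (hBd z hz)) (pL.diff z (hzh z hz)),
      logDeriv_mul (f := gA) (g := fun z => ∏ j, gB j z) z (hAn z hz) (hBn z hz) (hAd z hz)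
        (hBd z hz)]
    congr 2
    exact logDeriv_prod (f := fun j z => gB j z) (fun j _ => (pB j).ne z hz)
      fun j _ => (pB j).diff z hz
  have hx : a < a + 1 := by linarith
  have hx2 : 1 / 2 < a + 1 := by linarith
  choose! Bj hBj using fun j => (⟨_, fun z hz => (pB j).bd hx hz⟩ :
    ∃ B : ℝ, ∀ z : ℂ, a + 1 ≤ z.re → ‖logDeriv (gB j) z‖ ≤ B)
  obtain ⟨BL, hBL⟩ : ∃ B : ℝ, ∀ z : ℂ, a + 1 ≤ z.re → ‖logDeriv gL z‖ ≤ B :=
    ⟨_, fun z hz => pL.bd hx2 hz⟩
  refine ⟨C₁ + ∑ j, |Bj j| + |BL|, ⟨by linarith, hx, fun z hz => ?_, fun z hz => ?_,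
    fun z hz => ?_⟩, fun y hy => ?_⟩
  · rw [hF]
    exact ((hAd z hz).mul (hBd z hz)).mul (pL.diff z (hzh z hz))
  · rw [hF]
    exact mul_ne_zero (mul_ne_zero (hAn z hz) (hBn z hz)) (pL.ne z (hzh z hz))
  · have hza : a < z.re := by linarith
    have h1 : (1 : ℝ) ≤ (1 + ‖z‖) ^ (1 / 2 : ℝ) :=
      Real.one_le_rpow (by have := norm_nonneg z; linarith) (by norm_num)
    rw [hlog z hza]
    have e1 := ha2 z (hz0 z hza)
    have e2 : ‖∑ j, logDeriv (gB j) z‖ ≤ (∑ j, |Bj j|) * (1 + ‖z‖) ^ (1 / 2 : ℝ) := by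
      refine (norm_sum_le _ _).trans ?_
      refine le_trans (Finset.sum_le_sum fun j _ => (hBj j z hz).trans (le_abs_self _)) ?_
      exact le_mul_of_one_le_right (Finset.sum_nonneg fun j _ => abs_nonneg _) h1
    have e3 : ‖logDeriv gL z‖ ≤ |BL| * (1 + ‖z‖) ^ (1 / 2 : ℝ) :=
      ((hBL z hz).trans (le_abs_self _)).trans (le_mul_of_one_le_right (abs_nonneg _) h1)
    refine (norm_add_le _ _).trans ?_
    refine le_trans (add_le_add (norm_add_le _ _) le_rfl) ?_
    rw [add_mul, add_mul]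
    exact add_le_add (add_le_add e1 e2) e3
  · -- the identity
    have hline : ∀ t : ℝ, a < (((a + 1 : ℝ) : ℂ) + t * I).re := fun t => by simp
    have hAc : Continuous fun t : ℝ => logDeriv gA (((a + 1 : ℝ) : ℂ) + t * I) :=
      line_cont fun s hs => by
        have h1 := ha1 s (by rw [hs]; linarith)
        exact (h1.1.deriv.differentiableAt.div h1.1.differentiableAt h1.2).continuousAt
    have hAb : ∀ t : ℝ, ‖logDeriv gA (((a + 1 : ℝ) : ℂ) + t * I)‖ ≤
        C₁ * (2 + a) * (1 + |t|) ^ (1 / 2 : ℝ) := by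
      intro t
      refine (ha2 _ (by simp; linarith)).trans ?_
      rw [mul_assoc]
      refine mul_le_mul_of_nonneg_left ?_ hC₁
      have h2 : ‖((a + 1 : ℝ) : ℂ) + t * I‖ ≤ (a + 1) + |t| := by
        refine (norm_add_le _ _).trans (le_of_eq ?_)
        rw [norm_mul, Complex.norm_I, mul_one, Complex.norm_real, Complex.norm_real,
          Real.norm_eq_abs, Real.norm_eq_abs, abs_of_pos (show (0 : ℝ) < a + 1 by linarith)]
      have h3 : 1 + ‖((a + 1 : ℝ) : ℂ) + t * I‖ ≤ (2 + a) * (1 + |t|) := by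
        have := abs_nonneg t
        nlinarith
      calc (1 + ‖((a + 1 : ℝ) : ℂ) + t * I‖) ^ (1 / 2 : ℝ) ≤
            ((2 + a) * (1 + |t|)) ^ (1 / 2 : ℝ) :=
            Real.rpow_le_rpow (by positivity) h3 (by norm_num)
        _ = (2 + a) ^ (1 / 2 : ℝ) * (1 + |t|) ^ (1 / 2 : ℝ) :=
            Real.mul_rpow (by linarith) (by positivity)
        _ ≤ (2 + a) ^ (1 : ℝ) * (1 + |t|) ^ (1 / 2 : ℝ) := by
            refine mul_le_mul_of_nonneg_right ?_ (by positivity)
            exact Real.rpow_le_rpow_of_exponent_le (by linarith) (by norm_num)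
        _ = _ := by rw [Real.rpow_one]
    have iA := gauss_int hAc (a + 1) hAb hy
    have hcnt := V.sys.cnt
    obtain ⟨iL, sL⟩ := pL.vint hx2 hy
    have hB := fun j => (pB j).vint hx hy
    -- the pieces
    have vA : Pool.Agent.TH942.SL.V (a + 1) (fun z => logDeriv gA z * exp (z ^ 2 * y)) =
        ((Real.log A / (2 * √(4 * Real.pi * y)) : ℝ) : ℂ) + L.archHeat y := by
      rw [← V_shift (g := logDeriv gA) (K := C₁) (x := a + 1) (by linarith) (fun z hz => ?_)
        (fun z hz => ha2 z hz) hy]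
      · have e1 : ∀ t : ℝ, logDeriv gA (((0 : ℝ) : ℂ) + t * I) *
            exp ((((0 : ℝ) : ℂ) + t * I) ^ 2 * y) =
            (Real.log A : ℂ) / 2 * exp ((((0 : ℝ) : ℂ) + t * I) ^ 2 * y) +
            logDeriv L.gam (c + (((0 : ℝ) : ℂ) + t * I)) * exp ((((0 : ℝ) : ℂ) + t * I) ^ 2 * y) := by
          intro t
          rw [hal _ (by simp), add_mul]
        have e2 : ∀ t : ℝ, exp ((((0 : ℝ) : ℂ) + t * I) ^ 2 * y) =
            ((Real.exp (-(t ^ 2 * y)) : ℝ) : ℂ) := by
          intro t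
          rw [Complex.ofReal_exp]
          congr 1
          push_cast
          have : I ^ 2 = -1 := Complex.I_sq
          rw [zero_add, mul_pow, this]
          ring
        have i1 : Integrable fun t : ℝ => (Real.log A : ℂ) / 2 *
            exp ((((0 : ℝ) : ℂ) + t * I) ^ 2 * y) :=
          gauss_int (ψ := fun _ => (Real.log A : ℂ) / 2) continuous_const
            (K := ‖(Real.log A : ℂ) / 2‖) 0 (fun t => le_mul_of_one_le_right (norm_nonneg _)
              (Real.one_le_rpow (by have := abs_nonneg t; linarith) (by norm_num))) hy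
        have i2 : Integrable fun t : ℝ => logDeriv L.gam (c + (((0 : ℝ) : ℂ) + t * I)) *
            exp ((((0 : ℝ) : ℂ) + t * I) ^ 2 * y) := by
          refine gauss_int (ψ := fun t : ℝ => logDeriv L.gam (c + (((0 : ℝ) : ℂ) + t * I))) ?_
            (K := C₂) 0 (fun t => ?_) hy
          · exact line_cont (H := fun z => logDeriv L.gam (c + z)) fun s hs => hgc s hs.ge
          · have h3 := hgb (((0 : ℝ) : ℂ) + t * I) (by simp)
            have h4 : ‖((0 : ℝ) : ℂ) + t * I‖ = |t| := by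
              rw [Complex.ofReal_zero, zero_add, norm_mul, Complex.norm_I, mul_one,
                Complex.norm_real, Real.norm_eq_abs]
            rw [h4] at h3
            exact h3
        have hg0 := V_gauss 0 0 hy
        unfold Pool.Agent.TH942.SL.V at hg0 ⊢
        unfold Completion.archHeat
        simp only [e1]
        rw [integral_add i1 i2, mul_add]
        congr 1
        · rw [integral_const_mul, mul_left_comm]
          have e3 : ∫ t : ℝ, exp ((((0 : ℝ) : ℂ) + t * I) ^ 2 * y) = ∫ t : ℝ,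
              exp ((((0 : ℝ) : ℂ) + t * I) ^ 2 * y) * exp (-((((0 : ℝ) : ℂ) + t * I) *
                ((0 : ℝ) : ℂ))) := by
            simp
          rw [e3, hg0]
          push_cast
          simp only [ne_eq, OfNat.ofNat_ne_zero, not_false_eq_true, zero_pow, neg_zero, zero_div,
            Complex.exp_zero, mul_one]
          field_simp
        · congr 1
          refine integral_congr_ae (Eventually.of_forall fun t => ?_)
          simp only
          rw [e2]
          simp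
      · have h1 := ha1 z hz
        exact h1.1.deriv.differentiableAt.div h1.1.differentiableAt h1.2
    have vL : Pool.Agent.TH942.SL.V (a + 1) (fun z => logDeriv gL z * exp (z ^ 2 * y)) = -(V.heat c y : ℂ) := by
      rw [← heat_hasSum, sL.tsum_eq, neg_neg]
    have vB : ∑ j, Pool.Agent.TH942.SL.V (a + 1) (fun z => logDeriv (gB j) z * exp (z ^ 2 * y)) = -L.finHeat y := by
      have e1 : ∀ j, Pool.Agent.TH942.SL.V (a + 1) (fun z => logDeriv (gB j) z * exp (z ^ 2 * y)) =
          -(((√(4 * Real.pi * y))⁻¹ : ℝ) * ∑' k : ℕ, L.root j ^ (k + 1) *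
            ((Real.log (L.q j) * (L.q j ^ (-c)) ^ (k + 1) *
              Real.exp (-(((k : ℝ) + 1) * Real.log (L.q j)) ^ 2 / (4 * y)) : ℝ) : ℂ)) := by
        intro j
        rw [← tsum_mul_left, ← neg_eq_iff_eq_neg, ← (hB j).2.tsum_eq]
        refine tsum_congr fun k => ?_
        push_cast
        ring
      simp only [e1]
      unfold Completion.finHeat
      rw [Finset.sum_neg_distrib, Finset.mul_sum]
    have e3 : hw (F₀ L A) (a + 1) y = Pool.Agent.TH942.SL.V (a + 1) (fun z => logDeriv gA z * exp (z ^ 2 * y)) +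
        ∑ j, Pool.Agent.TH942.SL.V (a + 1) (fun z => logDeriv (gB j) z * exp (z ^ 2 * y)) +
        Pool.Agent.TH942.SL.V (a + 1) (fun z => logDeriv gL z * exp (z ^ 2 * y)) := by
      set fA : ℝ → ℂ := fun t => logDeriv gA (((a + 1 : ℝ) : ℂ) + t * I) *
        exp ((((a + 1 : ℝ) : ℂ) + t * I) ^ 2 * y) with hfA
      set fL : ℝ → ℂ := fun t => logDeriv gL (((a + 1 : ℝ) : ℂ) + t * I) *
        exp ((((a + 1 : ℝ) : ℂ) + t * I) ^ 2 * y) with hfL
      set fB : Fin L.r → ℝ → ℂ := fun j t => logDeriv (gB j) (((a + 1 : ℝ) : ℂ) + t * I) *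
        exp ((((a + 1 : ℝ) : ℂ) + t * I) ^ 2 * y) with hfB
      have iS : Integrable fun t : ℝ => ∑ j, fB j t := integrable_finsetSum _ fun j _ => (hB j).1
      have e4 : ∫ t : ℝ, ((fA t + ∑ j, fB j t) + fL t) =
          ((∫ t : ℝ, fA t) + ∑ j, ∫ t : ℝ, fB j t) + ∫ t : ℝ, fL t := by
        rw [integral_add (f := fun t => fA t + ∑ j, fB j t) (iA.add iS) iL, integral_add iA iS,
          integral_finsetSum _ fun j _ => (hB j).1]
      have e5 : hw (F₀ L A) (a + 1) y = ((2 * Real.pi)⁻¹ : ℝ) *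
          ∫ t : ℝ, ((fA t + ∑ j, fB j t) + fL t) := by
        unfold hw Pool.Agent.TH942.SL.V
        congr 1
        refine integral_congr_ae (Eventually.of_forall fun t => ?_)
        simp only
        rw [hlog _ (hline t), add_mul, add_mul, Finset.sum_mul]
      rw [e5, e4]
      unfold Pool.Agent.TH942.SL.V
      rw [mul_add, mul_add, Finset.mul_sum]
    rw [e3, vA, vB, vL]
    unfold Completion.Z
    have e6 : ((Real.log A / √(4 * Real.pi * y) : ℝ) : ℂ) =
        2 * ((Real.log A / (2 * √(4 * Real.pi * y)) : ℝ) : ℂ) := by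
      rw [← Complex.ofReal_ofNat, ← Complex.ofReal_mul]
      congr 1
      field_simp
    rw [e6]
    ring

end Pool.Agent.R791.Fe
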