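import Pool.Agent.R791.HeatFrob

/-!
# Continuation of Euler products and Gaussian sums of traces of Frobenius: the general theorem
-/

set_option autoImplicit false

namespace Pool.Agent.R791.GaussGen

open Filter Topology Complex NumberField IsDedekindDomain
open Pool.Agent.R791.Frob

/-- `G` continues `L` from the half plane `Re s > c + 1/2`. -/
def Continues {K : Type} [Field K] [NumberField K] {d : ℕ} {c : ℝ} (V : Frobenius K d c) (G : ℂ → ℂ) :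
    Prop :=
  ∀ s : ℂ, c + 1 / 2 < s.re → G s = V.LSeries s

/-- **Continuation of the L-functions of `H^i(X)` and Gaussian sums of traces of Frobenius.** -/
theorem gauss_gen {K : Type} [Field K] [NumberField K] {d : ℕ} {c : ℝ} (V : Frobenius K d c) :
    (∀ b y : ℝ, 0 < y → Summable (V.heatTerm b y)) ∧
    (∀ b θ : ℝ, 0 ≤ θ →
      ((∃ G : ℂ → ℂ, (∀ s : ℂ, s ∈ Region b θ ∨ c + 1 / 2 < s.re → MeromorphicAt G s) ∧
        Continues V G) ↔ ExpSumIn Set.univ (V.heat b) θ) ∧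
      ((∃ G : ℂ → ℂ, (∀ s : ℂ, s ∈ Region b θ ∨ c + 1 / 2 < s.re → DifferentiableAt ℂ G s) ∧
        Continues V G) ↔ ExpSumIn (Set.Iic 0) (V.heat b) θ) ∧
      ((∃ G : ℂ → ℂ, (∀ s : ℂ, s ∈ Region b θ ∨ c + 1 / 2 < s.re →
          DifferentiableAt ℂ G s ∧ G s ≠ 0) ∧
        Continues V G) ↔ BoundLE (V.heat b) θ)) ∧
    (∀ (b θ θ' : ℝ) (G : ℂ → ℂ), 0 ≤ θ → θ < θ' → (∀ s ∈ Region b θ, MeromorphicAt G s) →
      Continues V G →
      ∃ (hfin : {s : ℂ | s ∈ Region b θ' ∧ meromorphicOrderAt G s ≠ 0}.Finite) (C : ℝ),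
        ∀ y : ℝ, 0 < y → ‖(V.heat b y : ℂ) + ∑ s ∈ hfin.toFinset,
          ((meromorphicOrderAt G s).untop₀ : ℂ) * Complex.exp ((s - b) ^ 2 * y)‖ ≤
            C * Real.exp (θ' * y)) ∧
    List.TFAE [
      ∃ G : ℂ → ℂ, (∀ s : ℂ, MeromorphicAt G s) ∧ Continues V G,
      ∀ b : ℝ, ExpSumIn Set.univ (V.heat b) 0,
      ∀ B : ℝ, ∃ b : ℝ, b ≤ B ∧ ExpSumIn Set.univ (V.heat b) 0] ∧
    List.TFAE [
      ∃ G : ℂ → ℂ, Differentiable ℂ G ∧ Continues V G,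
      ∀ b : ℝ, ExpSumIn (Set.Iic 0) (V.heat b) 0,
      ∀ B : ℝ, ∃ b : ℝ, b ≤ B ∧ ExpSumIn (Set.Iic 0) (V.heat b) 0] ∧
    ∀ t : ℝ, List.TFAE [
      ∃ G : ℂ → ℂ, (∀ s : ℂ, t < s.re ∨ c + 1 / 2 < s.re → DifferentiableAt ℂ G s ∧ G s ≠ 0) ∧
        Continues V G,
      ∀ b : ℝ, b ≤ t → BoundLE (V.heat b) ((t - b) ^ 2),
      ∀ B : ℝ, ∃ b : ℝ, b ≤ B ∧ b ≤ t ∧ BoundLE (V.heat b) ((t - b) ^ 2)] := by
  have hho : IsOpen {s : ℂ | c + 1 / 2 < s.re} := isOpen_lt continuous_const Complex.continuous_re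
  -- orders of holomorphic functions
  have hnn : ∀ (b θ : ℝ) (G : ℂ → ℂ), (∀ s ∈ Region b θ, DifferentiableAt ℂ G s) →
      ∀ s ∈ Region b θ, AnalyticAt ℂ G s := fun b θ G hG s hs => by
    have h2 : DifferentiableOn ℂ G (Region b θ) := fun z hz => (hG z hz).differentiableWithinAt
    exact h2.analyticAt ((region_open b θ).mem_nhds hs)
  have hle : ∀ (G : ℂ → ℂ) (s : ℂ), AnalyticAt ℂ G s →
      -(meromorphicOrderAt G s).untop₀ ∈ Set.Iic (0 : ℤ) := fun G s hG => by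
    have h1 := hG.meromorphicOrderAt_nonneg
    rw [Set.mem_Iic, neg_nonpos]
    by_cases h : meromorphicOrderAt G s = ⊤
    · rw [h]
      simp
    · obtain ⟨n, hn⟩ := WithTop.ne_top_iff_exists.1 h
      rw [← hn] at h1 ⊢
      rw [WithTop.untop₀_coe]
      exact_mod_cast h1
  have hz : ∀ (G : ℂ → ℂ) (s : ℂ), AnalyticAt ℂ G s → G s ≠ 0 →
      -(meromorphicOrderAt G s).untop₀ ∈ ({0} : Set ℤ) := fun G s hG hn => by
    rw [hG.meromorphicOrderAt_eq, hG.analyticOrderAt_eq_zero.2 hn]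
    simp
  have hA1 : ∀ b θ : ℝ, 0 ≤ θ →
      ((∃ G : ℂ → ℂ, (∀ s : ℂ, s ∈ Region b θ ∨ c + 1 / 2 < s.re → MeromorphicAt G s) ∧
        Continues V G) ↔ ExpSumIn Set.univ (V.heat b) θ) := by
    intro b θ hθ
    constructor
    · rintro ⟨G, h1, h2⟩
      exact V.expsum_of hθ (fun s hs => h1 s (Or.inl hs)) (fun s _ hs2 => h2 s hs2)
        fun s _ => Set.mem_univ _
    · intro h
      obtain ⟨F, h1, h2, -, -⟩ := V.ext_of (ι := Unit) (fun _ => b) (fun _ => θ) (fun _ => hθ)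
        fun _ => h
      exact ⟨F, fun s hs => h2 s (hs.imp_left fun h => ⟨(), h⟩), h1⟩
  have hA2 : ∀ b θ : ℝ, 0 ≤ θ →
      ((∃ G : ℂ → ℂ, (∀ s : ℂ, s ∈ Region b θ ∨ c + 1 / 2 < s.re → DifferentiableAt ℂ G s) ∧
        Continues V G) ↔ ExpSumIn (Set.Iic 0) (V.heat b) θ) := by
    intro b θ hθ
    constructor
    · rintro ⟨G, h1, h2⟩
      have h3 := hnn b θ G fun s hs => h1 s (Or.inl hs)
      exact V.expsum_of hθ (fun s hs => (h3 s hs).meromorphicAt) (fun s _ hs2 => h2 s hs2)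
        fun s hs => hle G s (h3 s hs)
    · intro h
      obtain ⟨F, h1, -, h3, -⟩ := V.ext_of (ι := Unit) (fun _ => b) (fun _ => θ) (fun _ => hθ)
        fun _ => h
      exact ⟨F, fun s hs => h3 (fun a ha => ha) s (hs.imp_left fun h => ⟨(), h⟩), h1⟩
  have hA3 : ∀ b θ : ℝ, 0 ≤ θ →
      ((∃ G : ℂ → ℂ, (∀ s : ℂ, s ∈ Region b θ ∨ c + 1 / 2 < s.re →
          DifferentiableAt ℂ G s ∧ G s ≠ 0) ∧
        Continues V G) ↔ BoundLE (V.heat b) θ) := by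
    intro b θ hθ
    constructor
    · rintro ⟨G, h1, h2⟩
      have h3 := hnn b θ G fun s hs => (h1 s (Or.inl hs)).1
      exact bound_of_zero (V.expsum_of hθ (fun s hs => (h3 s hs).meromorphicAt)
        (fun s _ hs2 => h2 s hs2) fun s hs => hz G s (h3 s hs) (h1 s (Or.inl hs)).2)
    · intro h
      obtain ⟨F, h1, -, h3, h4⟩ := V.ext_of (ι := Unit) (fun _ => b) (fun _ => θ) (fun _ => hθ)
        fun _ => bound_iff_empty.1 h
      exact ⟨F, fun s hs => ⟨h3 (by simp) s (hs.imp_left fun h => ⟨(), h⟩),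
        h4 rfl s (hs.imp_left fun h => ⟨(), h⟩)⟩, h1⟩
  refine ⟨fun b y hy => V.heat_summable b hy,
    fun b θ hθ => ⟨hA1 b θ hθ, hA2 b θ hθ, hA3 b θ hθ⟩,
    fun b θ θ' G hθ hθ' hG hGL => V.heat_expand hθ hθ' hG fun s _ hs2 => hGL s hs2, ?_, ?_,
    fun t => ?_⟩
  · tfae_have 1 → 2 := by
      rintro ⟨G, h1, h2⟩ b
      exact (hA1 b 0 le_rfl).1 ⟨G, fun s _ => h1 s, h2⟩
    tfae_have 2 → 3 := fun h B => ⟨B, le_rfl, h B⟩
    tfae_have 3 → 1 := by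
      intro h
      obtain ⟨F, h1, h2, -, -⟩ := V.ext_of
        (ι := {b : ℝ // ExpSumIn Set.univ (V.heat b) 0}) (fun b => b.1) (fun _ => 0)
        (fun _ => le_rfl) fun b => b.2
      refine ⟨F, fun s => h2 s (Or.inl ?_), h1⟩
      obtain ⟨B, hB⟩ := Frobenius.cover_plane s
      obtain ⟨b, hb1, hb2⟩ := h B
      exact ⟨⟨b, hb2⟩, hB b hb1⟩
    tfae_finish
  · tfae_have 1 → 2 := by
      rintro ⟨G, h1, h2⟩ b
      exact (hA2 b 0 le_rfl).1 ⟨G, fun s _ => h1 s, h2⟩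
    tfae_have 2 → 3 := fun h B => ⟨B, le_rfl, h B⟩
    tfae_have 3 → 1 := by
      intro h
      obtain ⟨F, h1, -, h3, -⟩ := V.ext_of
        (ι := {b : ℝ // ExpSumIn (Set.Iic 0) (V.heat b) 0}) (fun b => b.1) (fun _ => 0)
        (fun _ => le_rfl) fun b => b.2
      refine ⟨F, fun s => h3 (fun a ha => ha) s (Or.inl ?_), h1⟩
      obtain ⟨B, hB⟩ := Frobenius.cover_plane s
      obtain ⟨b, hb1, hb2⟩ := h B
      exact ⟨⟨b, hb2⟩, hB b hb1⟩
    tfae_finish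
  · tfae_have 1 → 2 := by
      rintro ⟨G, h1, h2⟩ b _
      exact (hA3 b _ (sq_nonneg _)).1 ⟨G, fun s hs => h1 s
        (hs.imp_left fun h => Frobenius.region_sub_half h), h2⟩
    tfae_have 2 → 3 := fun h B =>
      ⟨min B t, min_le_left _ _, min_le_right _ _, h _ (min_le_right _ _)⟩
    tfae_have 3 → 1 := by
      intro h
      obtain ⟨F, h1, -, h3, h4⟩ := V.ext_of
        (ι := {b : ℝ // BoundLE (V.heat b) ((t - b) ^ 2)}) (fun b => b.1)
        (fun b => (t - b.1) ^ 2) (fun _ => sq_nonneg _) (A := ∅) fun b => bound_iff_empty.1 b.2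
      have hcov : ∀ s : ℂ, t < s.re ∨ c + 1 / 2 < s.re →
          (∃ i : {b : ℝ // BoundLE (V.heat b) ((t - b) ^ 2)}, s ∈ Region i.1 ((t - i.1) ^ 2)) ∨
            c + 1 / 2 < s.re := by
        rintro s (hs | hs)
        · obtain ⟨B, hB⟩ := Frobenius.cover_half hs
          obtain ⟨b, hb1, -, hb2⟩ := h B
          exact Or.inl ⟨⟨b, hb2⟩, hB b hb1⟩
        · exact Or.inr hs
      exact ⟨F, fun s hs => ⟨h3 (by simp) s (hcov s hs), h4 rfl s (hcov s hs)⟩, h1⟩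
    tfae_finish

end Pool.Agent.R791.GaussGen
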