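import Pool.Agent.R791.Level

/-!
# The stable weights and the means with poles

`gk α u = (2π)⁻¹ ∫ Re exp (z - u z^α) dt`, `z = 1 + it`: the value at `1` of the density of the one-sided
stable law of index `α` and scale `u`. The means `T y = ∑ c n gk α (λ n y^(-α))` have the Laplace
transform `- d/dv D(v^α)`, `D(s) = ∑ c n exp (-λ n s)`.
-/

set_option autoImplicit false

open MeasureTheory Filter Topology Set Complex
open Pool.Agent.TH942.LS (Dat P P_le)
open Pool.Agent.TH942.SL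

namespace Pool.Agent.R791.Heat

variable {α : ℝ}

/-- the integrand of the weight -/
noncomputable def hg (α u : ℝ) (z : ℂ) : ℂ := exp (z - u * z ^ (α : ℂ))

/-- the complex form of the weight -/
noncomputable def gc (α u : ℝ) : ℂ := V 1 (hg α u)

/-- the weight `(2π)⁻¹ ∫ Re exp (z - u z^α) dt`, `z = 1 + it` -/
noncomputable def gk (α u : ℝ) : ℝ :=
  (2 * Real.pi)⁻¹ * ∫ t : ℝ, (exp ((1 + t * I) - u * (1 + t * I) ^ (α : ℂ))).re

lemma hg_diff (u : ℝ) {z : ℂ} (hz : 0 < z.re) : DifferentiableAt ℂ (hg α u) z := by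
  unfold hg
  exact (differentiableAt_id.sub ((pow_deriv (slit hz)).differentiableAt.const_mul _)).cexp

lemma norm_hg_le (h0 : 0 < α) (h1 : α < 1) {u : ℝ} (hu0 : 0 ≤ u) {z : ℂ} (hz : 0 < z.re) :
    ‖hg α u z‖ ≤ Real.exp z.re * Real.exp (-(u * kap α * ‖z‖ ^ α)) := by
  unfold hg
  rw [Complex.norm_exp, ← Real.exp_add]
  refine Real.exp_le_exp.2 ?_
  rw [Complex.sub_re, Complex.re_ofReal_mul]
  have := mul_le_mul_of_nonneg_left (re_pow_ge h0 h1 hz) hu0
  linarith

lemma hg_bound (h0 : 0 < α) (h1 : α < 1) {u : ℝ} (hu0 : 0 < u) {a b : ℝ} (ha : 0 < a) :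
    ∃ B : ℝ, ∀ z : ℂ, a ≤ z.re → z.re ≤ b → ‖hg α u z‖ ≤ B * (1 + |z.im|) ^ (-(2 : ℝ)) := by
  have hk := kap_pos h0 h1
  obtain ⟨C, hC, hC'⟩ := stretched h0 (a := u * kap α) (by positivity)
  refine ⟨Real.exp b * C, fun z hz1 hz2 => ?_⟩
  have hz : 0 < z.re := ha.trans_le hz1
  have h2 : |z.im| ^ α ≤ ‖z‖ ^ α := Real.rpow_le_rpow (abs_nonneg _) (abs_im_le_norm z) h0.le
  have h3 : Real.exp (-(u * kap α * ‖z‖ ^ α)) ≤ Real.exp (-(u * kap α * |z.im| ^ α)) := by
    apply Real.exp_le_exp.2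
    have := mul_le_mul_of_nonneg_left h2 (by positivity : 0 ≤ u * kap α)
    linarith
  have h4 := hC' |z.im| (abs_nonneg _)
  calc ‖hg α u z‖ ≤ Real.exp z.re * Real.exp (-(u * kap α * ‖z‖ ^ α)) :=
        norm_hg_le h0 h1 hu0.le hz
    _ ≤ Real.exp b * (C * (1 + |z.im|) ^ (-(2 : ℝ))) :=
      mul_le_mul (Real.exp_le_exp.2 hz2) (h3.trans h4) (Real.exp_pos _).le (Real.exp_pos _).le
    _ = _ := by ring

theorem V_hg_indep (h0 : 0 < α) (h1 : α < 1) {u : ℝ} (hu0 : 0 < u) {a b : ℝ} (ha : 0 < a)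
    (hb : 0 < b) : V a (hg α u) = V b (hg α u) := by
  wlog hab : a ≤ b generalizing a b with H
  · exact (H hb ha (le_of_not_ge hab)).symm
  obtain ⟨B, hB⟩ := hg_bound h0 h1 hu0 ha (b := b)
  exact shift (by norm_num) hab (fun s hs _ => hg_diff u (ha.trans_le hs)) hB

/-- **scaling** -/
theorem V_scaled_g (h0 : 0 < α) (h1 : α < 1) {l y x : ℝ} (hl : 0 < l) (hy : 0 < y) (hx : 0 < x) :
    V x (fun z => exp (z * y - l * z ^ (α : ℂ))) = gc α (l * y ^ (-α)) / y := by
  have hyc : (y : ℂ) ≠ 0 := by exact_mod_cast hy.ne'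
  rw [V_scale hy]
  have h2 : V (x * y) (fun z : ℂ => exp (z / y * y - l * (z / y) ^ (α : ℂ)) / y) =
      V (x * y) (hg α (l * y ^ (-α))) / y := by
    unfold V
    rw [← mul_div_assoc', ← integral_div]
    congr 2
    funext t
    have hz : 0 < (((x * y : ℝ) : ℂ) + t * I).re := by simp; positivity
    have hz0 := ne_zero' hz
    unfold hg
    simp only
    rw [pow_div hz0 hy]
    have e1 : (((x * y : ℝ) : ℂ) + t * I) / y * y = ((x * y : ℝ) : ℂ) + t * I := by
      field_simp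
    rw [e1]
    have e2 : (l : ℂ) * ((((x * y : ℝ) : ℂ) + t * I) ^ (α : ℂ) * ((y ^ (-α) : ℝ) : ℂ)) =
        ((l * y ^ (-α) : ℝ) : ℂ) * (((x * y : ℝ) : ℂ) + t * I) ^ (α : ℂ) := by
      push_cast
      ring
    rw [e2]
  rw [h2]
  congr 1
  exact V_hg_indep h0 h1 (by positivity) (by positivity) one_pos

lemma hg_conj (u : ℝ) {z : ℂ} (hz : 0 < z.re) :
    hg α u ((starRingEnd ℂ) z) = (starRingEnd ℂ) (hg α u z) := by
  unfold hg
  have h1 : arg z ≠ Real.pi := by
    have := (abs_lt.1 (arg_abs hz)).2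
    have hpi := Real.pi_pos
    intro h
    rw [h] at this
    linarith
  have h2 : (starRingEnd ℂ) z ^ (α : ℂ) = (starRingEnd ℂ) (z ^ (α : ℂ)) := by
    rw [Complex.conj_cpow z _ h1, Complex.conj_ofReal]
  rw [h2, ← Complex.exp_conj, map_sub, map_mul, Complex.conj_ofReal]

theorem gc_eq (h0 : 0 < α) (h1 : α < 1) {u : ℝ} (hu0 : 0 < u) : gc α u = (gk α u : ℂ) := by
  obtain ⟨B, hB⟩ := hg_bound h0 h1 hu0 one_pos (b := 1)
  have hi : Integrable (fun t : ℝ => hg α u (((1 : ℝ) : ℂ) + t * I)) :=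
    line_int (p := 2) (by norm_num) (fun s hs => (hg_diff u (by rw [hs]; norm_num)).continuousAt)
      (fun s hs => hB s hs.ge hs.le)
  have h2 : (starRingEnd ℂ) (∫ t : ℝ, hg α u (((1 : ℝ) : ℂ) + t * I)) =
      ∫ t : ℝ, hg α u (((1 : ℝ) : ℂ) + t * I) := by
    rw [← integral_conj]
    have e1 : ∀ t : ℝ, (starRingEnd ℂ) (hg α u (((1 : ℝ) : ℂ) + t * I)) =
        hg α u (((1 : ℝ) : ℂ) + ((-t : ℝ) : ℂ) * I) := by
      intro t
      rw [← hg_conj u (by simp)]
      congr 1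
      rw [map_add, map_mul, Complex.conj_ofReal, Complex.conj_ofReal, Complex.conj_I]
      push_cast
      ring
    simp only [e1]
    exact integral_neg_eq_self (fun t : ℝ => hg α u (((1 : ℝ) : ℂ) + t * I)) volume
  have h3 := Complex.conj_eq_iff_re.1 h2
  unfold gc V gk
  rw [← h3]
  have h4 : (∫ t : ℝ, hg α u (((1 : ℝ) : ℂ) + t * I)).re =
      ∫ t : ℝ, (hg α u (((1 : ℝ) : ℂ) + t * I)).re := by
    have := integral_re hi
    simpa using this.symm
  rw [h4]
  push_cast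
  rfl

/-- the mean -/
noncomputable def T (lam c : ℕ → ℝ) (α y : ℝ) : ℝ := ∑' n, c n * gk α (lam n * y ^ (-α))

variable {lam c : ℕ → ℝ} {δ σ : ℝ}

/-- **the mean as a line integral** -/
theorem T_eq (D : Dat lam c δ σ) (h0 : 0 < α) (h1 : α < 1) {x y : ℝ} (hx : 0 < x) (hy : 0 < y)
    (hxs : ∀ z : ℂ, z.re = x → σ ≤ kap α * ‖z‖ ^ α) :
    (T lam c α y : ℂ) / y = V x (fun z => exp (z * y) * f₀ lam c α z) ∧
      Summable (fun n => c n * gk α (lam n * y ^ (-α))) := by
  have hk := kap_pos h0 h1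
  have hδ := D.δ0
  have hyc : (y : ℂ) ≠ 0 := by exact_mod_cast hy.ne'
  obtain ⟨C, hC, hC'⟩ := stretched h0 (a := δ * kap α) (by positivity)
  set K : ℝ := Real.exp (x * y) * Real.exp (δ * σ) * C with hK
  have hre : ∀ t : ℝ, ((x : ℂ) + t * I).re = x := fun t => by simp
  have him : ∀ t : ℝ, ((x : ℂ) + t * I).im = t := fun t => by simp
  -- the terms
  set T' : ℕ → ℝ → ℂ := fun n t => (c n : ℂ) *
    exp (((x : ℂ) + t * I) * y - lam n * ((x : ℂ) + t * I) ^ (α : ℂ)) with hT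
  have hT1 : ∀ n t, ‖T' n t‖ ≤ (|c n| * Real.exp (-(σ * lam n))) *
      (K * (1 + |t|) ^ (-(2 : ℝ))) := by
    intro n t
    set z : ℂ := (x : ℂ) + t * I with hz
    have hz0 : 0 < z.re := by rw [hz, hre]; exact hx
    have hn : x ≤ ‖z‖ := by
      have := re_le_norm z
      rwa [hz, hre] at this
    have h2 := hxs z (by rw [hz, hre])
    have h3 := re_pow_ge h0 h1 hz0
    rw [hT]
    simp only
    rw [norm_mul, Complex.norm_real, Real.norm_eq_abs, Complex.norm_exp]
    have e1 : (z * y - lam n * z ^ (α : ℂ)).re = x * y - lam n * (z ^ (α : ℂ)).re := by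
      rw [Complex.sub_re, Complex.re_mul_ofReal, Complex.re_ofReal_mul, hz, hre]
    rw [e1]
    have e2 : Real.exp (x * y - lam n * (z ^ (α : ℂ)).re) ≤ Real.exp (x * y) *
        (Real.exp (-(σ * lam n)) * (Real.exp (δ * σ) * Real.exp (-(δ * kap α * |t| ^ α)))) := by
      rw [← Real.exp_add, ← Real.exp_add, ← Real.exp_add]
      apply Real.exp_le_exp.2
      have e3 := mul_le_mul_of_nonneg_left h3 (D.lam0 n).le
      have e4 := mul_le_mul_of_nonneg_left (D.lam_ge n) (sub_nonneg.2 h2)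
      have e5 : |t| ^ α ≤ ‖z‖ ^ α := by
        refine Real.rpow_le_rpow (abs_nonneg _) ?_ h0.le
        have := abs_im_le_norm z
        rwa [hz, him] at this
      have e6 := mul_le_mul_of_nonneg_left e5 (by positivity : 0 ≤ δ * kap α)
      nlinarith
    calc |c n| * Real.exp (x * y - lam n * (z ^ (α : ℂ)).re) ≤
          |c n| * (Real.exp (x * y) * (Real.exp (-(σ * lam n)) *
            (Real.exp (δ * σ) * Real.exp (-(δ * kap α * |t| ^ α))))) :=
            mul_le_mul_of_nonneg_left e2 (abs_nonneg _)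
      _ ≤ |c n| * (Real.exp (x * y) * (Real.exp (-(σ * lam n)) *
            (Real.exp (δ * σ) * (C * (1 + |t|) ^ (-(2 : ℝ)))))) := by
            gcongr
            exact hC' |t| (abs_nonneg _)
      _ = _ := by rw [hK]; ring
  have hdec := decay_int (p := 2) (by norm_num)
  have hTi : ∀ n, Integrable (T' n) := by
    intro n
    refine Integrable.mono' ((hdec.const_mul K).const_mul _) ?_ (ae_of_all _ (hT1 n))
    refine Continuous.aestronglyMeasurable ?_
    refine line_cont (H := fun z : ℂ => (c n : ℂ) * exp (z * y - lam n * z ^ (α : ℂ)))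
      fun s hs => ?_
    have hs0 : 0 < s.re := by rw [hs]; exact hx
    refine DifferentiableAt.continuousAt (𝕜 := ℂ) ?_
    refine DifferentiableAt.const_mul ?_ _
    exact ((differentiableAt_id.mul_const _).sub
      ((pow_deriv (slit hs0)).differentiableAt.const_mul _)).cexp
  have hSum := hasSum_integral_of_summable_integral_norm (μ := volume) hTi
    (Summable.of_nonneg_of_le (fun n => by positivity) (fun n => by
      have := integral_mono (hTi n).norm ((hdec.const_mul K).const_mul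
        (|c n| * Real.exp (-(σ * lam n)))) (hT1 n)
      rwa [integral_const_mul] at this) (D.sum.mul_right _))
  have hTn : ∀ n, (y : ℂ) * (((2 * Real.pi)⁻¹ : ℝ) * ∫ t, T' n t) =
      ((c n * gk α (lam n * y ^ (-α)) : ℝ) : ℂ) := by
    intro n
    have e1 := V_scaled_g h0 h1 (D.lam0 n) hy hx
    rw [gc_eq h0 h1 (mul_pos (D.lam0 n) (Real.rpow_pos_of_pos hy _)), eq_div_iff hyc] at e1
    rw [Complex.ofReal_mul, ← e1]
    unfold V
    rw [hT]
    simp only
    rw [integral_const_mul]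
    ring
  have hSum2 := (hSum.mul_left (((2 * Real.pi)⁻¹ : ℝ) : ℂ)).mul_left (y : ℂ)
  simp only [hTn] at hSum2
  have hval : (((2 * Real.pi)⁻¹ : ℝ) : ℂ) * ∫ t, ∑' n, T' n t =
      V x (fun z => exp (z * y) * f₀ lam c α z) := by
    unfold V
    congr 2
    funext t
    rw [hT]
    simp only
    unfold f₀ DD
    rw [← tsum_mul_left]
    refine tsum_congr fun n => ?_
    rw [sub_eq_add_neg, Complex.exp_add]
    have : -((lam n : ℂ) * ((x : ℂ) + t * I) ^ (α : ℂ)) = -(((x : ℂ) + t * I) ^ (α : ℂ) * lam n) := by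
      ring
    rw [this]
    ring
  rw [hval] at hSum2
  have hs : Summable (fun n => c n * gk α (lam n * y ^ (-α))) := by
    have := (Complex.reCLM.hasSum hSum2).summable
    simpa using this
  refine ⟨?_, hs⟩
  rw [div_eq_iff hyc, mul_comm _ (y : ℂ), ← hSum2.tsum_eq]
  unfold T
  push_cast
  rfl

/-! ### The derivative -/

/-- the decay of `P` -/
lemma P_decay (D : Dat lam c δ σ) {s : ℂ} (hs : σ + 1 ≤ s.re) :
    ‖P lam c s‖ ≤ S₀ lam c σ * Real.exp (-(δ * (s.re - σ - 1))) := by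
  unfold P S₀
  refine tsum_of_norm_bounded (D.sum.hasSum.mul_right _) fun n => ?_
  have hl := D.lam0 n
  rw [norm_mul, Complex.norm_real, Real.norm_eq_abs, abs_mul, abs_of_pos hl, Complex.norm_exp,
    Complex.neg_re, Complex.re_mul_ofReal, mul_assoc, mul_assoc]
  refine mul_le_mul_of_nonneg_left ?_ (abs_nonneg _)
  have e1 : lam n ≤ Real.exp (lam n) := by
    have := Real.add_one_le_exp (lam n)
    linarith
  calc lam n * Real.exp (-(s.re * lam n)) ≤ Real.exp (lam n) * Real.exp (-(s.re * lam n)) :=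
        mul_le_mul_of_nonneg_right e1 (Real.exp_pos _).le
    _ ≤ Real.exp (-(σ * lam n)) * Real.exp (-(δ * (s.re - σ - 1))) := by
      rw [← Real.exp_add, ← Real.exp_add]
      apply Real.exp_le_exp.2
      have e2 := mul_le_mul_of_nonneg_left (D.lam_ge n)
        (by linarith : (0 : ℝ) ≤ s.re - σ - 1)
      nlinarith

lemma f₁_decay (D : Dat lam c δ σ) (h0 : 0 < α) (h1 : α < 1) :
    ∃ B : ℝ, 0 ≤ B ∧ ∀ z : ℂ, 0 < z.re → 1 ≤ ‖z‖ → σ + 1 ≤ kap α * ‖z‖ ^ α →
      ‖f₁ lam c α z‖ ≤ B * (1 + |z.im|) ^ (-(2 : ℝ)) := by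
  have hk := kap_pos h0 h1
  have hδ := D.δ0
  obtain ⟨C, hC, hC'⟩ := stretched h0 (a := δ * kap α) (by positivity)
  have hS := S₀_nonneg lam c σ
  refine ⟨S₀ lam c σ * Real.exp (δ * (σ + 1)) * C, by positivity, fun z hz hz1 hs => ?_⟩
  have hre := re_pow_ge h0 h1 hz
  have h2 := P_decay D (s := z ^ (α : ℂ)) (hs.trans hre)
  unfold f₁
  rw [norm_neg, norm_mul, norm_pow_deriv h0]
  have e1 : α * ‖z‖ ^ (α - 1) ≤ 1 := by
    have e2 : ‖z‖ ^ (α - 1) ≤ 1 := Real.rpow_le_one_of_one_le_of_nonpos hz1 (by linarith)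
    have e3 : 0 ≤ ‖z‖ ^ (α - 1) := by positivity
    nlinarith
  have e4 : Real.exp (-(δ * ((z ^ (α : ℂ)).re - σ - 1))) ≤
      Real.exp (δ * (σ + 1)) * Real.exp (-(δ * kap α * |z.im| ^ α)) := by
    rw [← Real.exp_add]
    apply Real.exp_le_exp.2
    have e5 : |z.im| ^ α ≤ ‖z‖ ^ α :=
      Real.rpow_le_rpow (abs_nonneg _) (abs_im_le_norm z) h0.le
    have e6 := mul_le_mul_of_nonneg_left e5 (by positivity : 0 ≤ δ * kap α)
    have e7 := mul_le_mul_of_nonneg_left hre hδ.le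
    nlinarith
  calc α * ‖z‖ ^ (α - 1) * ‖P lam c (z ^ (α : ℂ))‖ ≤ 1 * (S₀ lam c σ *
        (Real.exp (δ * (σ + 1)) * (C * (1 + |z.im|) ^ (-(2 : ℝ))))) := by
        refine mul_le_mul e1 (h2.trans ?_) (norm_nonneg _) zero_le_one
        refine mul_le_mul_of_nonneg_left (e4.trans ?_) hS
        exact mul_le_mul_of_nonneg_left (hC' |z.im| (abs_nonneg _)) (Real.exp_pos _).le
    _ = _ := by ring

/-- **the mean by the derivative** -/
theorem T_eq' (D : Dat lam c δ σ) (h0 : 0 < α) (h1 : α < 1) {x y : ℝ} (hx : 1 ≤ x) (hy : 0 < y)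
    (hxs : ∀ z : ℂ, 0 < z.re → x ≤ ‖z‖ → σ + 1 ≤ kap α * ‖z‖ ^ α) :
    (T lam c α y : ℂ) = V x (fun z => exp (z * y) * -f₁ lam c α z) := by
  have hx0 : 0 < x := by linarith
  have hk := kap_pos h0 h1
  have hδ := D.δ0
  have hyc : (y : ℂ) ≠ 0 := by exact_mod_cast hy.ne'
  have hline : ∀ z : ℂ, z.re = x → 0 < z.re ∧ x ≤ ‖z‖ := fun z hz =>
    ⟨by rw [hz]; exact hx0, by rw [← hz]; exact re_le_norm z⟩
  have hσ : ∀ z : ℂ, z.re = x → σ + 1 ≤ kap α * ‖z‖ ^ α := fun z hz =>
    hxs z (hline z hz).1 (hline z hz).2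
  obtain ⟨hM, -⟩ := T_eq D h0 h1 hx0 hy fun z hz => by have := hσ z hz; linarith
  have hσ' : ∀ z : ℂ, z.re = x → σ < (z ^ (α : ℂ)).re := fun z hz => by
    have e1 := hσ z hz
    have e2 := re_pow_ge h0 h1 (hline z hz).1
    linarith
  set F : ℂ → ℂ := fun z => exp (z * y) * f₀ lam c α z with hF
  set F' : ℂ → ℂ := fun z => y * (exp (z * y) * f₀ lam c α z) -
    exp (z * y) * -f₁ lam c α z with hF'
  have hd : ∀ z : ℂ, z.re = x → HasDerivAt F (F' z) z := by
    intro z hz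
    have e1 := f₀_deriv D (hline z hz).1 (hσ' z hz)
    have e2 : HasDerivAt (fun z : ℂ => exp (z * y)) (exp (z * y) * (1 * y)) z :=
      ((hasDerivAt_id z).mul_const _).cexp
    refine (e2.mul e1).congr_deriv ?_
    rw [hF']
    simp only
    ring
  -- bounds on the line
  obtain ⟨C, hC, hC'⟩ := stretched h0 (a := δ * kap α) (by positivity)
  obtain ⟨B, hB, hB'⟩ := f₁_decay D h0 h1
  have hre : ∀ t : ℝ, ((x : ℂ) + t * I).re = x := fun t => by simp
  have him : ∀ t : ℝ, ((x : ℂ) + t * I).im = t := fun t => by simp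
  have hexp : ∀ t : ℝ, ‖exp (((x : ℂ) + t * I) * y)‖ = Real.exp (x * y) := fun t => by
    rw [Complex.norm_exp, Complex.re_mul_ofReal, hre]
  set K : ℝ := Real.exp (x * y) * (S₀ lam c σ * Real.exp (δ * σ) * C) with hK
  have hS := S₀_nonneg lam c σ
  have hFb : ∀ t : ℝ, ‖F (x + t * I)‖ ≤ K * (1 + |t|) ^ (-(2 : ℝ)) := by
    intro t
    set z : ℂ := (x : ℂ) + t * I with hz
    obtain ⟨h2, h3⟩ := hline z (hre t)
    have e1 := f₀_bound D h0 h1 h2 (by have := hσ z (hre t); linarith)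
    have e2 : |t| ^ α ≤ ‖z‖ ^ α := by
      refine Real.rpow_le_rpow (abs_nonneg _) ?_ h0.le
      have := abs_im_le_norm z
      rwa [hz, him] at this
    have e3 : Real.exp (-(δ * kap α * ‖z‖ ^ α)) ≤ C * (1 + |t|) ^ (-(2 : ℝ)) := by
      refine (Real.exp_le_exp.2 ?_).trans (hC' |t| (abs_nonneg _))
      have := mul_le_mul_of_nonneg_left e2 (by positivity : 0 ≤ δ * kap α)
      linarith
    rw [hF]
    simp only
    rw [norm_mul, hz, hexp, ← hz]
    calc Real.exp (x * y) * ‖f₀ lam c α z‖ ≤ Real.exp (x * y) *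
          (S₀ lam c σ * Real.exp (δ * σ) * (C * (1 + |t|) ^ (-(2 : ℝ)))) := by
          refine mul_le_mul_of_nonneg_left (e1.trans ?_) (Real.exp_pos _).le
          exact mul_le_mul_of_nonneg_left e3 (by positivity)
      _ = _ := by rw [hK]; ring
  have hFi : Integrable (fun t : ℝ => F (x + t * I)) := by
    refine Integrable.mono' ((decay_int (p := 2) (by norm_num)).const_mul K) ?_ (ae_of_all _ hFb)
    refine (line_cont (H := F) fun s hs => ?_).aestronglyMeasurable
    exact (hd s hs).continuousAt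
  have hHi : Integrable (fun t : ℝ => exp (((x : ℂ) + t * I) * y) * -f₁ lam c α (x + t * I)) := by
    refine line_int (H := fun z => exp (z * y) * -f₁ lam c α z) (p := 2)
      (B := Real.exp (x * y) * B) (by norm_num) (fun s hs => ?_) (fun s hs => ?_)
    · have e1 := f₁_diff D h0 h1 (hline s hs).1 (hσ s hs)
      have e2 : DifferentiableAt ℂ (fun z : ℂ => exp (z * y)) s := by fun_prop
      exact (e2.mul e1.neg).continuousAt
    · obtain ⟨h2, h3⟩ := hline s hs
      have e1 := hB' s h2 (by linarith) (hσ s hs)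
      rw [norm_mul, norm_neg, Complex.norm_exp, Complex.re_mul_ofReal, hs, mul_assoc]
      exact mul_le_mul_of_nonneg_left e1 (Real.exp_pos _).le
  have hlim : Tendsto (fun t : ℝ => K * (1 + |t|) ^ (-(2 : ℝ))) atTop (𝓝 0) := by
    have e1 : Tendsto (fun T : ℝ => (1 + |T|)) atTop atTop :=
      tendsto_atTop_add_const_left _ _ tendsto_abs_atTop_atTop
    have e2 := (tendsto_rpow_neg_atTop (y := 2) (by norm_num)).comp e1
    have e3 := e2.const_mul K
    simpa using e3
  have hlim' : Tendsto (fun t : ℝ => K * (1 + |t|) ^ (-(2 : ℝ))) atBot (𝓝 0) := by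
    have e1 : Tendsto (fun T : ℝ => (1 + |T|)) atBot atTop :=
      tendsto_atTop_add_const_left _ _ tendsto_abs_atBot_atTop
    have e2 := (tendsto_rpow_neg_atTop (y := 2) (by norm_num)).comp e1
    have e3 := e2.const_mul K
    simpa using e3
  have hV := V_deriv (F := F) (F' := F') hd ((hFi.const_mul (y : ℂ)).sub hHi)
    (squeeze_zero_norm hFb hlim) (squeeze_zero_norm hFb hlim')
  have hV2 : V x F' = y * V x F - V x (fun z => exp (z * y) * -f₁ lam c α z) := by
    unfold V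
    rw [hF']
    simp only
    rw [integral_sub (hFi.const_mul (y : ℂ)) hHi, integral_const_mul]
    ring
  rw [hV2, sub_eq_zero] at hV
  rw [← hV, ← hM]
  field_simp

/-- the integrals along the lines far to the right -/
theorem T_lines (D : Dat lam c δ σ) (h0 : 0 < α) (h1 : α < 1) {x₀ : ℝ} (hx1 : 1 ≤ x₀)
    (hx₀ : ∀ z : ℂ, 0 < z.re → x₀ ≤ ‖z‖ → σ + 1 ≤ kap α * ‖z‖ ^ α) :
    ∃ (g : ℝ → ℂ) (K : ℝ), 0 ≤ K ∧ Continuous g ∧ (∀ y, y < 0 → g y = 0) ∧
      (∀ y, 0 < y → g y = (T lam c α y : ℂ)) ∧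
      (∀ y, ‖g y‖ ≤ K * Real.exp (x₀ * y)) ∧
      ∀ x, x₀ < x → ∀ s : ℝ, ∫ y : ℝ, exp (-((x + s * I) * y)) * g y =
        -f₁ lam c α (x + s * I) := by
  have hx00 : 0 < x₀ := by linarith
  have hδ := D.δ0
  set h : ℂ → ℂ := fun z => -f₁ lam c α z with hh'
  obtain ⟨B, hB0, hB'⟩ := f₁_decay D h0 h1
  have hp1 : (1 : ℝ) < 2 := by norm_num
  have hre : ∀ x t : ℝ, ((x : ℂ) + t * I).re = x := fun x t => by simp
  have him : ∀ x t : ℝ, ((x : ℂ) + t * I).im = t := fun x t => by simp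
  have hpos : ∀ s : ℂ, x₀ ≤ s.re → 0 < s.re ∧ x₀ ≤ ‖s‖ := fun s hs =>
    ⟨by linarith, hs.trans (re_le_norm s)⟩
  have hb : ∀ s : ℂ, x₀ ≤ s.re → ‖h s‖ ≤ B * (1 + |s.im|) ^ (-(2 : ℝ)) := by
    intro s hs
    obtain ⟨e1, e2⟩ := hpos s hs
    rw [hh']
    simp only
    rw [norm_neg]
    exact hB' s e1 (by linarith) (hx₀ s e1 e2)
  have hdf : ∀ s : ℂ, x₀ ≤ s.re → DifferentiableAt ℂ h s := by
    intro s hs
    obtain ⟨e1, e2⟩ := hpos s hs
    exact (f₁_diff D h0 h1 e1 (hx₀ s e1 e2)).neg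
  have hli : ∀ x, x₀ ≤ x → Integrable fun t : ℝ => h (x + t * I) := fun x hx =>
    line_int hp1 (fun s hs => (hdf s (by rw [hs]; exact hx)).continuousAt)
      fun s hs => hb s (by rw [hs]; exact hx)
  -- independence of the line
  have hind : ∀ y x : ℝ, x₀ ≤ x → V x₀ (fun z => exp (z * y) * h z) =
      V x (fun z => exp (z * y) * h z) := by
    intro y x hx
    refine shift hp1 hx (B := Real.exp (x * |y|) * B) (fun s hs _ => ?_) fun s hs hs2 => ?_
    · exact DifferentiableAt.mul (by fun_prop) (hdf s hs)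
    · rw [norm_mul, Complex.norm_exp, Complex.re_mul_ofReal, mul_assoc]
      refine mul_le_mul (Real.exp_le_exp.2 ?_) (hb s hs) (norm_nonneg _) (Real.exp_pos _).le
      have e1 : s.re * y ≤ s.re * |y| := mul_le_mul_of_nonneg_left (le_abs_self y) (hpos s hs).1.le
      have e2 : s.re * |y| ≤ x * |y| := mul_le_mul_of_nonneg_right hs2 (abs_nonneg y)
      linarith
  set K : ℝ := (2 * Real.pi)⁻¹ * ∫ t : ℝ, B * (1 + |t|) ^ (-(2 : ℝ)) with hK
  have hI0 : 0 ≤ ∫ t : ℝ, B * (1 + |t|) ^ (-(2 : ℝ)) := integral_nonneg fun t => by positivity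
  have hK0 : 0 ≤ K := by positivity
  have hnorm : ∀ y x : ℝ, x₀ ≤ x → ‖V x (fun z => exp (z * y) * h z)‖ ≤ K * Real.exp (x * y) := by
    intro y x hx
    have e1 := norm_V_le (H := fun z => exp (z * y) * h z) (c := x)
      (g := fun t => Real.exp (x * y) * (B * (1 + |t|) ^ (-(2 : ℝ))))
      (((decay_int hp1).const_mul B).const_mul _) fun t => by
        have e2 := hb (x + t * I) (by rw [hre]; exact hx)
        rw [him] at e2
        rw [norm_mul, Complex.norm_exp, Complex.re_mul_ofReal, hre]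
        exact mul_le_mul_of_nonneg_left e2 (Real.exp_pos _).le
    rw [integral_const_mul] at e1
    refine e1.trans (le_of_eq ?_)
    rw [hK]
    ring
  set g : ℝ → ℂ := fun y => V x₀ (fun z => exp (z * y) * h z) with hg
  -- continuity
  have hgc : Continuous g := by
    have e1 : ∀ y : ℝ, g y = exp (x₀ * y) * (((2 * Real.pi)⁻¹ : ℝ) *
        ∫ t : ℝ, exp ((t : ℂ) * I * y) * h (x₀ + t * I)) := by
      intro y
      rw [hg]
      simp only [V]
      have e2 : ∀ t : ℝ, exp (((x₀ : ℂ) + t * I) * y) * h (x₀ + t * I) =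
          exp (x₀ * y) * (exp ((t : ℂ) * I * y) * h (x₀ + t * I)) := by
        intro t
        rw [← mul_assoc, ← Complex.exp_add]
        congr 2
        ring
      simp only [e2]
      rw [integral_const_mul]
      ring
    have e2 : Continuous fun y : ℝ => ∫ t : ℝ, exp ((t : ℂ) * I * y) * h (x₀ + t * I) := by
      refine continuous_of_dominated (bound := fun t => ‖h (x₀ + t * I)‖) (fun y => ?_)
        (fun y => ae_of_all _ fun t => ?_) (hli x₀ le_rfl).norm (ae_of_all _ fun t => by fun_prop)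
      · refine Continuous.aestronglyMeasurable (Continuous.mul (by fun_prop) ?_)
        exact line_cont fun s hs => (hdf s hs.ge).continuousAt
      · rw [norm_mul, Complex.norm_exp]
        have : ((t : ℂ) * I * y).re = 0 := by simp
        rw [this, Real.exp_zero, one_mul]
    have e3 : g = fun y : ℝ => exp (x₀ * y) * (((2 * Real.pi)⁻¹ : ℝ) *
        ∫ t : ℝ, exp ((t : ℂ) * I * y) * h (x₀ + t * I)) := funext e1
    rw [e3]
    exact Continuous.mul (by fun_prop) (continuous_const.mul e2)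
  -- negative `y`
  have hneg : ∀ y, y < 0 → g y = 0 := by
    intro y hy
    have e1 : ∀ᶠ x : ℝ in atTop, ‖g y‖ ≤ K * Real.exp (x * y) := by
      filter_upwards [eventually_ge_atTop x₀] with x hx
      rw [hg]
      simp only
      rw [hind y x hx]
      exact hnorm y x hx
    have e2 : Tendsto (fun x : ℝ => K * Real.exp (x * y)) atTop (𝓝 (K * 0)) := by
      refine Tendsto.const_mul K (Real.tendsto_exp_atBot.comp ?_)
      exact tendsto_id.atTop_mul_const_of_neg hy
    rw [mul_zero] at e2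
    exact norm_le_zero_iff.1 (ge_of_tendsto e2 e1)
  have hgpos : ∀ y, 0 < y → g y = (T lam c α y : ℂ) := fun y hy =>
    (T_eq' D h0 h1 hx1 hy hx₀).symm
  refine ⟨g, K, hK0, hgc, hneg, hgpos, fun y => hnorm y x₀ le_rfl, fun x hx s => ?_⟩
  have hgi : Integrable fun y : ℝ => exp (-((x : ℂ) * y)) * g y := by
    obtain ⟨C₂, hC₂, hC₂'⟩ := stretched (α := 1) one_pos (a := x - x₀) (by linarith)
    have hcc : Continuous fun y : ℝ => exp (-((x : ℂ) * y)) * g y :=
      Continuous.mul (by fun_prop) hgc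
    refine Integrable.mono' (((decay_int (p := 2) (by norm_num)).const_mul C₂).const_mul K)
      hcc.aestronglyMeasurable (ae_of_all _ fun y => ?_)
    rcases lt_or_ge y 0 with hy | hy
    · rw [hneg y hy, mul_zero, norm_zero]
      positivity
    · rw [norm_mul, Complex.norm_exp]
      have e1 : (-((x : ℂ) * y)).re = -(x * y) := by simp
      have e2 := hnorm y x₀ le_rfl
      have e3 := hC₂' y hy
      rw [Real.rpow_one] at e3
      rw [e1, abs_of_nonneg hy]
      calc Real.exp (-(x * y)) * ‖g y‖ ≤ Real.exp (-(x * y)) * (K * Real.exp (x₀ * y)) := by gcongr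
        _ = K * Real.exp (-((x - x₀) * y)) := by
          rw [mul_left_comm, ← Real.exp_add]
          congr 2
          ring
        _ ≤ _ := mul_le_mul_of_nonneg_left e3 hK0
  exact inversion (H := h) (c := x) (g := g)
    (line_cont fun s hs => (hdf s (by rw [hs]; exact hx.le)).continuousAt)
    (hli x hx.le) (fun y => hind y x hx.le) hgi s

end Pool.Agent.R791.Heat
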