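import Pool.Agent.R791.Heat1

/-!
# Exponential sums in the means and poles of the transform
-/

set_option autoImplicit false

open MeasureTheory Filter Topology Set Complex
open Pool.Agent.TH942.LS (Dat P P_le)
open Pool.Agent.TH942.SL

namespace Pool.Agent.R791.Heat

/-- **Laplace inversion** for continuous functions -/
theorem bromwich {F : ℝ → ℂ} {x : ℝ} {H : ℂ → ℂ} (hF : Continuous F)
    (hi : Integrable fun y : ℝ => exp (-((x : ℂ) * y)) * F y)
    (hH : ∀ t : ℝ, ∫ y : ℝ, exp (-((x + t * I) * y)) * F y = H (x + t * I))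
    (hHi : Integrable fun t : ℝ => H (x + t * I)) (y : ℝ) :
    V x (fun z => exp (z * y) * H z) = F y := by
  set f : ℝ → ℂ := fun y => exp (-((x : ℂ) * y)) * F y with hf
  have hfc : Continuous f := Continuous.mul (by fun_prop) hF
  have hpi := Real.pi_pos
  have hFt : ∀ ξ : ℝ, FourierTransform.fourier f ξ = H (x + ((2 * Real.pi * ξ : ℝ) : ℂ) * I) := by
    intro ξ
    rw [Real.fourier_eq', ← hH]
    refine integral_congr_ae (ae_of_all _ fun v => ?_)
    rw [hf]
    simp only
    rw [smul_eq_mul, ← mul_assoc, ← Complex.exp_add]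
    congr 2
    simp only [RCLike.inner_apply, conj_trivial]
    push_cast
    ring
  have hFi : Integrable (FourierTransform.fourier f) := by
    have h1 := hHi.comp_mul_left' (R := 2 * Real.pi) (by positivity)
    refine h1.congr (ae_of_all _ fun ξ => ?_)
    rw [hFt]
  have h1 := hi.fourierInv_fourier_eq hFi (v := y) hfc.continuousAt
  rw [Real.fourierInv_eq'] at h1
  simp only [hFt] at h1
  have h2 := Measure.integral_comp_mul_left (fun t : ℝ => exp ((t : ℂ) * I * y) *
    H (x + (t : ℂ) * I)) (2 * Real.pi)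
  have e1 : ∀ ξ : ℝ, exp ((2 * Real.pi * inner ℝ ξ y : ℝ) * I) •
      H (x + ((2 * Real.pi * ξ : ℝ) : ℂ) * I) =
      exp (((2 * Real.pi * ξ : ℝ) : ℂ) * I * y) * H (x + ((2 * Real.pi * ξ : ℝ) : ℂ) * I) := by
    intro ξ
    rw [smul_eq_mul]
    congr 2
    simp only [RCLike.inner_apply, conj_trivial]
    push_cast
    ring
  simp only [e1] at h1
  rw [h2, abs_of_pos (by positivity), Complex.real_smul] at h1
  unfold V
  have e2 : ∀ t : ℝ, exp (((x : ℂ) + (t : ℂ) * I) * y) * H (x + (t : ℂ) * I) =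
      exp ((x : ℂ) * y) * (exp ((t : ℂ) * I * y) * H (x + (t : ℂ) * I)) := by
    intro t
    rw [← mul_assoc, ← Complex.exp_add]
    congr 2
    ring
  simp only [e2]
  rw [integral_const_mul, mul_left_comm, h1]
  change exp ((x : ℂ) * y) * (exp (-((x : ℂ) * y)) * F y) = F y
  rw [← mul_assoc, ← Complex.exp_add, add_neg_cancel, Complex.exp_zero, one_mul]

/-- bound of a simple fraction -/
lemma frac_ge {p z : ℂ} {η : ℝ} (hη : 0 < η) (h : η ≤ ‖z - p‖) :
    1 + |z.im| ≤ ((1 + |p.im|) / η + 1) * ‖z - p‖ := by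
  have e1 : |z.im| ≤ |p.im| + ‖z - p‖ := by
    have e2 : z.im = p.im + (z - p).im := by simp
    rw [e2]
    refine (abs_add_le _ _).trans ?_
    have := abs_im_le_norm (z - p)
    linarith
  have e3 : 1 + |p.im| ≤ (1 + |p.im|) / η * ‖z - p‖ := by
    rw [div_mul_eq_mul_div, le_div_iff₀ hη]
    exact mul_le_mul_of_nonneg_left h (by positivity)
  linarith

lemma frac_bound (p : ℂ) {η : ℝ} (hη : 0 < η) : ∃ B : ℝ, 0 ≤ B ∧ ∀ z : ℂ, 0 ≤ z.re →
    η ≤ ‖z - p‖ → ‖1 / (z - p) - 1 / (z + 1)‖ ≤ B * (1 + |z.im|) ^ (-(2 : ℝ)) := by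
  set k : ℝ := (1 + |p.im|) / η + 1 with hk
  have hk0 : 0 < k := by positivity
  refine ⟨‖p + 1‖ * (k * 2), by positivity, fun z hz h => ?_⟩
  have h1 : 0 < ‖z - p‖ := hη.trans_le h
  have h2 : 1 ≤ ‖z + 1‖ := by
    have := re_le_norm (z + 1)
    simp only [add_re, one_re] at this
    linarith
  have h3 : z - p ≠ 0 := norm_pos_iff.1 h1
  have h4 : z + 1 ≠ 0 := norm_pos_iff.1 (by linarith)
  have e1 : 1 / (z - p) - 1 / (z + 1) = (p + 1) / ((z - p) * (z + 1)) := by
    field_simp
    ring
  have e2 := frac_ge hη h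
  have e3 : 1 + |z.im| ≤ 2 * ‖z + 1‖ := by
    have := abs_im_le_norm (z + 1)
    simp only [add_im, one_im, add_zero] at this
    linarith
  have h5 : 0 < 1 + |z.im| := by positivity
  rw [e1, norm_div, norm_mul, Real.rpow_neg h5.le, ← div_eq_mul_inv,
    div_le_div_iff₀ (by positivity) (by positivity)]
  have e4 : (1 + |z.im|) ^ (2 : ℝ) = (1 + |z.im|) * (1 + |z.im|) := by
    rw [show (2 : ℝ) = ((2 : ℕ) : ℝ) by norm_num, Real.rpow_natCast]
    ring
  rw [e4, mul_assoc]
  refine mul_le_mul_of_nonneg_left ?_ (norm_nonneg _)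
  calc (1 + |z.im|) * (1 + |z.im|) ≤ (k * ‖z - p‖) * (2 * ‖z + 1‖) :=
        mul_le_mul e2 e3 h5.le (by positivity)
    _ = _ := by ring

/-- the inverse transform of a simple fraction -/
lemma rat_V {p : ℂ} {X : ℝ} (hX : 0 < X) (hp : p.re < X) {y : ℝ} (hy : 0 ≤ y) :
    V X (fun z => exp (z * y) * (1 / (z - p) - 1 / (z + 1))) = exp (p * y) - exp (-y) := by
  set F : ℝ → ℂ := fun y => exp (p * (max y 0 : ℝ)) - exp (-((max y 0 : ℝ) : ℂ)) with hF
  have hFc : Continuous F := by rw [hF]; fun_prop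
  have hF0 : ∀ y, y ≤ 0 → F y = 0 := fun y hy => by
    rw [hF]
    simp only
    rw [max_eq_right hy]
    simp
  have hF1 : ∀ y, 0 ≤ y → F y = exp (p * y) - exp (-(y : ℂ)) := fun y hy => by
    rw [hF]
    simp only
    rw [max_eq_left hy]
  have hline : ∀ v : ℂ, v.re = X → IntegrableOn (fun y : ℝ => exp (-(v * y)) * F y) (Ioi 0) ∧
      ∫ y in Ioi (0 : ℝ), exp (-(v * y)) * F y = 1 / (v - p) - 1 / (v + 1) := by
    intro v hv
    have a1 : (p - v).re < 0 := by rw [Complex.sub_re, hv]; linarith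
    have a2 : (-1 - v).re < 0 := by rw [Complex.sub_re, hv]; simp; linarith
    have n1 : v - p ≠ 0 := fun h => by
      have : (v - p).re = 0 := by rw [h]; simp
      rw [Complex.sub_re, hv] at this
      linarith
    have n2 : v + 1 ≠ 0 := fun h => by
      have : (v + 1).re = 0 := by rw [h]; simp
      rw [Complex.add_re, hv] at this
      simp at this
      linarith
    have i1 := integrableOn_exp_mul_complex_Ioi a1 0
    have i2 := integrableOn_exp_mul_complex_Ioi a2 0
    have e1 : ∀ y ∈ Ioi (0 : ℝ), exp ((p - v) * y) - exp ((-1 - v) * y) =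
        exp (-(v * y)) * F y := by
      intro y hy
      rw [hF1 y (le_of_lt hy), mul_sub, ← Complex.exp_add, ← Complex.exp_add]
      congr 2 <;> ring
    refine ⟨(i1.sub i2).congr_fun e1 measurableSet_Ioi, ?_⟩
    rw [← setIntegral_congr_fun measurableSet_Ioi e1, integral_sub i1 i2,
      integral_exp_mul_complex_Ioi a1, integral_exp_mul_complex_Ioi a2]
    have n3 : p - v ≠ 0 := fun h => n1 (by rw [← neg_sub, h, neg_zero])
    have n4 : -1 - v ≠ 0 := fun h => n2 (by
      have : v + 1 = -(-1 - v) := by ring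
      rw [this, h, neg_zero])
    simp only [Complex.ofReal_zero, mul_zero, Complex.exp_zero]
    field_simp
    ring
  have hwhole : ∀ v : ℂ, v.re = X → Integrable (fun y : ℝ => exp (-(v * y)) * F y) ∧
      ∫ y : ℝ, exp (-(v * y)) * F y = 1 / (v - p) - 1 / (v + 1) := by
    intro v hv
    obtain ⟨h1, h2⟩ := hline v hv
    constructor
    · rw [← integrableOn_univ, ← Iic_union_Ioi (a := (0 : ℝ))]
      refine IntegrableOn.union ?_ h1
      refine (integrableOn_zero).congr_fun (fun x hx => ?_) measurableSet_Iic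
      rw [hF0 x hx, mul_zero]
    · rw [← h2]
      symm
      refine setIntegral_eq_integral_of_forall_compl_eq_zero fun x hx => ?_
      rw [hF0 x (by simpa using hx), mul_zero]
  have hre : ∀ t : ℝ, ((X : ℂ) + t * I).re = X := fun t => by simp
  have hre0 : (X : ℂ).re = X := Complex.ofReal_re X
  set H : ℂ → ℂ := fun z => 1 / (z - p) - 1 / (z + 1) with hH
  have hHi : Integrable fun t : ℝ => H (X + t * I) := by
    obtain ⟨B, hB, hB'⟩ := frac_bound p (η := X - p.re) (by linarith)
    refine line_int (H := H) (p := 2) (B := B) (by norm_num) (fun s hs => ?_) fun s hs => ?_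
    · have n1 : s - p ≠ 0 := fun h => by
        have : (s - p).re = 0 := by rw [h]; simp
        rw [Complex.sub_re, hs] at this
        linarith
      have n2 : s + 1 ≠ 0 := fun h => by
        have : (s + 1).re = 0 := by rw [h]; simp
        rw [Complex.add_re, hs] at this
        simp at this
        linarith
      rw [hH]
      refine ContinuousAt.sub ?_ ?_
      · exact ContinuousAt.div continuousAt_const (by fun_prop) n1
      · exact ContinuousAt.div continuousAt_const (by fun_prop) n2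
    · refine hB' s (by rw [hs]; exact hX.le) ?_
      have := re_le_norm (s - p)
      rw [Complex.sub_re, hs] at this
      exact this
  have key := bromwich (F := F) (x := X) (H := H) hFc (hwhole (X : ℂ) hre0).1
    (fun t => (hwhole _ (hre t)).2) hHi y
  rw [key, hF1 y hy]

variable {α : ℝ} {lam c : ℕ → ℝ} {δ σ : ℝ}

/-- **from the exponential sum to the poles** -/
theorem mer_down (D : Dat lam c δ σ) (h0 : 0 < α) (h1 : α < 1) {b : ℝ} (hb : 0 ≤ b) (S : Finset ℂ)
    (m : ℂ → ℤ) {C y₀ : ℝ} (hM : ∀ y : ℝ, y₀ ≤ y →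
      ‖(T lam c α y : ℂ) - ∑ z ∈ S, (m z : ℂ) * exp (z * y)‖ ≤ C * Real.exp (b * y)) :
    ∃ (φ : ℂ → ℂ) (x₁ : ℝ), 1 ≤ x₁ ∧ b ≤ x₁ ∧ (∀ v : ℂ, b < v.re → DifferentiableAt ℂ φ v) ∧
      (∀ v : ℂ, x₁ ≤ ‖v‖ → 0 < v.re → σ < (v ^ (α : ℂ)).re) ∧ (∀ z ∈ S, z.re < x₁) ∧
      ∀ v : ℂ, x₁ < v.re → -f₁ lam c α v = φ v + ∑ z ∈ S, (m z : ℂ) / (v - z) := by
  obtain ⟨x₀, hx1, hx₀⟩ := exists_abscissa h0 h1 σ
  obtain ⟨g, K, hK, hgc, hneg, hgpos, hgb, hinv⟩ := T_lines D h0 h1 hx1 hx₀
  set E : ℝ → ℂ := fun y => ∑ z ∈ S, (m z : ℂ) * exp (z * y) with hE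
  have hEc : Continuous E := by rw [hE]; fun_prop
  set k : ℝ := ∑ z ∈ S, ‖(m z : ℂ)‖ with hk
  set r : ℝ := ∑ z ∈ S, ‖z‖ with hr
  have hk0 : 0 ≤ k := Finset.sum_nonneg fun _ _ => norm_nonneg _
  have hr0 : 0 ≤ r := Finset.sum_nonneg fun _ _ => norm_nonneg _
  have hzr : ∀ z ∈ S, ‖z‖ ≤ r := fun z hz =>
    Finset.single_le_sum (f := fun z : ℂ => ‖z‖) (fun _ _ => norm_nonneg _) hz
  have hEb : ∀ y : ℝ, 0 ≤ y → ‖E y‖ ≤ k * Real.exp (r * y) := by
    intro y hy
    rw [hE, hk, Finset.sum_mul]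
    refine (norm_sum_le _ _).trans (Finset.sum_le_sum fun z hz => ?_)
    rw [norm_mul, Complex.norm_exp, Complex.re_mul_ofReal]
    refine mul_le_mul_of_nonneg_left (Real.exp_le_exp.2 ?_) (norm_nonneg _)
    exact mul_le_mul_of_nonneg_right ((re_le_norm z).trans (hzr z hz)) hy
  set C' : ℝ := K * Real.exp (x₀ * |y₀|) + k * Real.exp (r * |y₀|) + |C| with hC'
  have hC'0 : 0 ≤ C' := by positivity
  have hbd : ∀ y : ℝ, 0 < y → ‖g y - E y‖ ≤ C' * Real.exp (b * y) := by
    intro y hy
    have e0 : 1 ≤ Real.exp (b * y) := Real.one_le_exp (by positivity)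
    rcases le_total y₀ y with h | h
    · rw [hgpos y hy]
      refine (hM y h).trans ?_
      refine mul_le_mul_of_nonneg_right ?_ (Real.exp_pos _).le
      have := le_abs_self C
      have : 0 ≤ K * Real.exp (x₀ * |y₀|) + k * Real.exp (r * |y₀|) := by positivity
      rw [hC']
      linarith
    · have hyy : y ≤ |y₀| := h.trans (le_abs_self _)
      have e1 : ‖g y‖ ≤ K * Real.exp (x₀ * |y₀|) := (hgb y).trans
        (mul_le_mul_of_nonneg_left (Real.exp_le_exp.2 (mul_le_mul_of_nonneg_left hyy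
          (by linarith))) hK)
      have e2 : ‖E y‖ ≤ k * Real.exp (r * |y₀|) := (hEb y hy.le).trans
        (mul_le_mul_of_nonneg_left (Real.exp_le_exp.2 (mul_le_mul_of_nonneg_left hyy hr0)) hk0)
      calc ‖g y - E y‖ ≤ ‖g y‖ + ‖E y‖ := norm_sub_le _ _
        _ ≤ C' := by
          rw [hC']
          have := abs_nonneg C
          linarith
        _ ≤ _ := le_mul_of_one_le_right hC'0 e0
  set φ : ℂ → ℂ := fun v => ∫ y in Ioi (0 : ℝ), exp (-(v * y)) * (g y - E y) with hφ
  refine ⟨φ, x₀ + r + b + 1, by linarith, by linarith, ?_, ?_, ?_, ?_⟩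
  · intro t ht
    set ε : ℝ := (t.re - b) / 2 with hε
    have hε0 : 0 < ε := by rw [hε]; linarith
    set O : Set ℂ := {v | b + ε < v.re} with hO
    have hOo : IsOpen O := isOpen_lt continuous_const Complex.continuous_re
    have hexp : Integrable (fun T : ℝ => C' * Real.exp (-(ε * T))) (volume.restrict (Ioi 0)) := by
      have := integrableOn_exp_mul_Ioi (a := -ε) (by linarith) 0
      refine Integrable.const_mul ?_ _
      refine this.congr_fun (fun T _ => ?_) measurableSet_Ioi
      simp only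
      congr 1
      ring
    have h2 := Pool.Agent.HP.differentiableOn_integral (volume.restrict (Ioi (0 : ℝ)))
      (fun (y : ℝ) (v : ℂ) => if 0 < y then exp (-(v * y)) * (g y - E y) else 0) O hOo
      (fun v _ => ?_) (fun y => ?_) (fun y => if 0 < y then C' * Real.exp (-(ε * y)) else 0) ?_
      (fun y v hv => ?_)
    · have h3 : (fun v : ℂ => ∫ y in Ioi (0 : ℝ),
          (if 0 < y then exp (-(v * y)) * (g y - E y) else 0)) = φ := by
        funext v
        rw [hφ]
        refine setIntegral_congr_fun measurableSet_Ioi fun y hy => ?_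
        rw [if_pos (show 0 < y from hy)]
      rw [h3] at h2
      exact h2.differentiableAt (hOo.mem_nhds
        (show b + ε < t.re by rw [hε]; linarith))
    · have h3 : AEStronglyMeasurable (fun y : ℝ => exp (-(v * y)) * (g y - E y))
          (volume.restrict (Ioi 0)) := Continuous.aestronglyMeasurable (by fun_prop)
      refine h3.congr ?_
      filter_upwards [ae_restrict_mem measurableSet_Ioi] with y hy
      rw [if_pos (show 0 < y from hy)]
    · by_cases hy : 0 < y
      · simp only [hy, if_true]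
        exact Differentiable.differentiableOn (by fun_prop)
      · simp only [hy, if_false]
        exact differentiableOn_const _
    · refine hexp.congr ?_
      filter_upwards [ae_restrict_mem measurableSet_Ioi] with y hy
      rw [if_pos (show 0 < y from hy)]
    · split_ifs with hy
      · have hv' : b + ε < v.re := hv
        rw [norm_mul, Complex.norm_exp]
        have e1 : (-(v * (y : ℂ))).re = -(v.re * y) := by
          rw [Complex.neg_re, Complex.re_mul_ofReal]
        rw [e1]
        calc Real.exp (-(v.re * y)) * ‖g y - E y‖ ≤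
              Real.exp (-((b + ε) * y)) * (C' * Real.exp (b * y)) := by
              refine mul_le_mul (Real.exp_le_exp.2 ?_) (hbd y hy) (norm_nonneg _) (Real.exp_pos _).le
              nlinarith
          _ = C' * (Real.exp (-((b + ε) * y)) * Real.exp (b * y)) := by ring
          _ = _ := by
            rw [← Real.exp_add]
            congr 2
            ring
      · simp
  · intro v hv hv0
    have e1 := hx₀ v hv0 (by linarith)
    have e2 := re_pow_ge h0 h1 hv0
    linarith
  · intro z hz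
    have e1 := (re_le_norm z).trans (hzr z hz)
    linarith
  · intro v hv
    have hv0 : x₀ < v.re := by linarith
    have e1 := hinv v.re hv0 v.im
    rw [Complex.re_add_im] at e1
    have e2 : ∫ y in Ioi (0 : ℝ), exp (-(v * y)) * g y = -f₁ lam c α v := by
      rw [← e1, ← integral_indicator measurableSet_Ioi]
      refine integral_congr_ae ?_
      have e2 : ∀ᵐ y : ℝ, y ≠ 0 := by
        rw [ae_iff]
        simp
      filter_upwards [e2] with y hy
      by_cases hy2 : y ∈ Ioi (0 : ℝ)
      · rw [indicator_of_mem hy2]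
      · rw [indicator_of_notMem hy2]
        have : y < 0 := lt_of_le_of_ne (not_lt.1 hy2) hy
        rw [hneg y this, mul_zero]
    have hvz : ∀ z ∈ S, (z - v).re < 0 := fun z hz => by
      rw [Complex.sub_re]
      have e3 := (re_le_norm z).trans (hzr z hz)
      linarith
    have i1 : IntegrableOn (fun y : ℝ => exp (-(v * y)) * g y) (Ioi 0) := by
      have e3 : IntegrableOn (fun y : ℝ => K * Real.exp (-(v.re - x₀) * y)) (Ioi 0) :=
        (integrableOn_exp_mul_Ioi (a := -(v.re - x₀)) (by linarith) 0).const_mul K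
      refine Integrable.mono' e3 (Continuous.aestronglyMeasurable (by fun_prop)) ?_
      filter_upwards with y
      rw [norm_mul, Complex.norm_exp, Complex.neg_re, Complex.re_mul_ofReal]
      calc Real.exp (-(v.re * y)) * ‖g y‖ ≤ Real.exp (-(v.re * y)) * (K * Real.exp (x₀ * y)) :=
            mul_le_mul_of_nonneg_left (hgb y) (Real.exp_pos _).le
        _ = K * (Real.exp (-(v.re * y)) * Real.exp (x₀ * y)) := by ring
        _ = _ := by
          rw [← Real.exp_add]
          congr 2
          ring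
    have i2 : ∀ z ∈ S, IntegrableOn (fun y : ℝ => (m z : ℂ) * exp ((z - v) * y)) (Ioi 0) :=
      fun z hz => (integrableOn_exp_mul_complex_Ioi (hvz z hz) 0).const_mul _
    have e3 : ∀ y : ℝ, exp (-(v * y)) * (g y - E y) = exp (-(v * y)) * g y -
        ∑ z ∈ S, (m z : ℂ) * exp ((z - v) * y) := by
      intro y
      rw [hE]
      simp only
      rw [mul_sub, Finset.mul_sum]
      congr 1
      refine Finset.sum_congr rfl fun z _ => ?_
      rw [mul_left_comm, ← Complex.exp_add]
      congr 2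
      ring
    have e4 : φ v = -f₁ lam c α v - ∑ z ∈ S, (m z : ℂ) / (v - z) := by
      rw [hφ]
      simp only [e3]
      rw [integral_sub i1 (integrable_finsetSum _ i2), e2, integral_finsetSum _ i2]
      congr 1
      refine Finset.sum_congr rfl fun z hz => ?_
      rw [integral_const_mul, integral_exp_mul_complex_Ioi (hvz z hz)]
      have n1 : z - v ≠ 0 := fun h => by
        have := hvz z hz
        rw [h] at this
        simp at this
      have n2 : v - z ≠ 0 := fun h => n1 (by rw [← neg_sub, h, neg_zero])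
      simp only [Complex.ofReal_zero, mul_zero, Complex.exp_zero]
      field_simp
      ring
    rw [e4]
    ring

/-- **from the poles to the exponential sum** -/
theorem mer_up (D : Dat lam c δ σ) (h0 : 0 < α) (h1 : α < 1) {a b : ℝ} (ha : 0 ≤ a) (hab : a < b)
    (S : Finset ℂ) (m : ℂ → ℤ) {φ : ℂ → ℂ} (hφ : ∀ v : ℂ, a < v.re → DifferentiableAt ℂ φ v)
    {x₂ : ℝ} (hfar : ∀ v : ℂ, a < v.re → x₂ ≤ ‖v‖ →
      -f₁ lam c α v = φ v + ∑ z ∈ S, (m z : ℂ) / (v - z)) :
    ∃ C : ℝ, ∀ y : ℝ, 0 < y →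
      ‖(T lam c α y : ℂ) - ∑ z ∈ S, (m z : ℂ) * exp (z * y)‖ ≤ C * Real.exp (b * y) := by
  obtain ⟨x₀, hx1, hx₀⟩ := exists_abscissa h0 h1 σ
  have hb0 : 0 < b := by linarith
  set r : ℝ := ∑ z ∈ S, ‖z‖ with hr
  have hr0 : 0 ≤ r := Finset.sum_nonneg fun _ _ => norm_nonneg _
  have hzr : ∀ z ∈ S, ‖z‖ ≤ r := fun z hz =>
    Finset.single_le_sum (f := fun z : ℂ => ‖z‖) (fun _ _ => norm_nonneg _) hz
  set R : ℝ := max x₀ x₂ + r + 1 with hR
  have hR0 : x₀ ≤ R := by have := le_max_left x₀ x₂; linarith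
  have hR2 : x₂ ≤ R := by have := le_max_right x₀ x₂; linarith
  have hR1 : 1 ≤ R := by linarith
  set X : ℝ := R + b with hX
  obtain ⟨B₁, hB₁, hB₁'⟩ := f₁_decay D h0 h1
  choose! Bz hBz0 hBz using fun p : ℂ => frac_bound p (one_pos)
  set ψ : ℂ → ℂ := fun v => φ v + ∑ z ∈ S, (m z : ℂ) / (v + 1) with hψ
  have hne1 : ∀ v : ℂ, 0 ≤ v.re → v + 1 ≠ 0 := fun v hv h => by
    have : (v + 1).re = 0 := by rw [h]; simp
    rw [Complex.add_re, Complex.one_re] at this
    linarith
  have hψd : ∀ v : ℂ, a < v.re → DifferentiableAt ℂ ψ v := by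
    intro v hv
    refine (hφ v hv).add ?_
    refine DifferentiableAt.fun_sum fun z _ => ?_
    exact DifferentiableAt.div (differentiableAt_const _) (by fun_prop) (hne1 v (by linarith))
  have hfar' : ∀ v : ℂ, a < v.re → R ≤ ‖v‖ → ψ v = -f₁ lam c α v -
      ∑ z ∈ S, (m z : ℂ) * (1 / (v - z) - 1 / (v + 1)) := by
    intro v hv hv2
    have e1 := hfar v hv (by linarith)
    rw [e1, hψ]
    simp only
    have e2 : ∑ z ∈ S, (m z : ℂ) * (1 / (v - z) - 1 / (v + 1)) =
        ∑ z ∈ S, (m z : ℂ) / (v - z) - ∑ z ∈ S, (m z : ℂ) / (v + 1) := by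
      rw [← Finset.sum_sub_distrib]
      refine Finset.sum_congr rfl fun z _ => ?_
      ring
    rw [e2]
    ring
  have hsep : ∀ v : ℂ, R ≤ ‖v‖ → ∀ z ∈ S, 1 ≤ ‖v - z‖ := by
    intro v hv z hz
    have e1 := norm_sub_norm_le v z
    have e2 := hzr z hz
    have e3 := le_max_left x₀ x₂
    have e4 : R = max x₀ x₂ + r + 1 := hR
    linarith
  -- the bound
  set Kc : Set ℂ := {v : ℂ | b ≤ v.re} ∩ Metric.closedBall 0 R with hKc
  have hKcomp : IsCompact Kc := (isCompact_closedBall 0 R).inter_left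
    (isClosed_le continuous_const Complex.continuous_re)
  obtain ⟨C₀, hC₀⟩ := hKcomp.exists_bound_of_continuousOn (f := ψ) fun v hv =>
    (hψd v (lt_of_lt_of_le hab hv.1)).continuousAt.continuousWithinAt
  set B : ℝ := |C₀| * (1 + R) ^ (2 : ℝ) + (B₁ + ∑ z ∈ S, ‖(m z : ℂ)‖ * Bz z) with hB
  have hs0 : 0 ≤ ∑ z ∈ S, ‖(m z : ℂ)‖ * Bz z :=
    Finset.sum_nonneg fun z _ => mul_nonneg (norm_nonneg _) (hBz0 z)
  have hB0 : 0 ≤ B := by positivity
  have hψb : ∀ v : ℂ, b ≤ v.re → ‖ψ v‖ ≤ B * (1 + |v.im|) ^ (-(2 : ℝ)) := by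
    intro v hv
    have h5 : 0 < 1 + |v.im| := by positivity
    rcases le_total R ‖v‖ with h | h
    · rw [hfar' v (by linarith) h]
      have hv0 : 0 < v.re := by linarith
      have e1 := hB₁' v hv0 (by linarith) (hx₀ v hv0 (by linarith))
      have e2 : ‖∑ z ∈ S, (m z : ℂ) * (1 / (v - z) - 1 / (v + 1))‖ ≤
          (∑ z ∈ S, ‖(m z : ℂ)‖ * Bz z) * (1 + |v.im|) ^ (-(2 : ℝ)) := by
        rw [Finset.sum_mul]
        refine (norm_sum_le _ _).trans (Finset.sum_le_sum fun z hz => ?_)
        rw [norm_mul, mul_assoc]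
        exact mul_le_mul_of_nonneg_left (hBz z v hv0.le (hsep v h z hz)) (norm_nonneg _)
      refine (norm_sub_le _ _).trans ?_
      rw [norm_neg]
      have e3 : 0 ≤ |C₀| * (1 + R) ^ (2 : ℝ) * (1 + |v.im|) ^ (-(2 : ℝ)) := by positivity
      rw [hB, add_mul, add_mul]
      linarith
    · have e1 := hC₀ v ⟨hv, by rw [mem_closedBall_zero_iff]; exact h⟩
      have e2 : |v.im| ≤ R := (abs_im_le_norm v).trans h
      have e3 : 1 ≤ (1 + R) ^ (2 : ℝ) * (1 + |v.im|) ^ (-(2 : ℝ)) := by
        rw [Real.rpow_neg h5.le, ← div_eq_mul_inv, le_div_iff₀ (by positivity), one_mul]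
        exact Real.rpow_le_rpow h5.le (by linarith) (by norm_num)
      calc ‖ψ v‖ ≤ |C₀| * 1 := by rw [mul_one]; exact e1.trans (le_abs_self _)
        _ ≤ |C₀| * ((1 + R) ^ (2 : ℝ) * (1 + |v.im|) ^ (-(2 : ℝ))) :=
          mul_le_mul_of_nonneg_left e3 (abs_nonneg _)
        _ ≤ _ := by
          rw [hB, add_mul, mul_assoc]
          have : 0 ≤ (B₁ + ∑ z ∈ S, ‖(m z : ℂ)‖ * Bz z) * (1 + |v.im|) ^ (-(2 : ℝ)) := by
            positivity
          linarith
  have hp1 : (1 : ℝ) < 2 := by norm_num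
  have hbX : b ≤ X := by rw [hX]; linarith
  set K : ℝ := (2 * Real.pi)⁻¹ * ∫ t : ℝ, B * (1 + |t|) ^ (-(2 : ℝ)) with hK
  have hI0 : 0 ≤ ∫ t : ℝ, B * (1 + |t|) ^ (-(2 : ℝ)) := integral_nonneg fun t => by positivity
  have hK0 : 0 ≤ K := by positivity
  refine ⟨K + ∑ z ∈ S, ‖(m z : ℂ)‖, fun y hy => ?_⟩
  have hshift : V b (fun z => exp (z * y) * ψ z) = V X (fun z => exp (z * y) * ψ z) := by
    refine shift hp1 hbX (B := Real.exp (X * y) * B) (fun s hs _ => ?_) fun s hs hs2 => ?_
    · exact DifferentiableAt.mul (by fun_prop) (hψd s (by linarith))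
    · rw [norm_mul, Complex.norm_exp, Complex.re_mul_ofReal, mul_assoc]
      refine mul_le_mul (Real.exp_le_exp.2 ?_) (hψb s hs) (norm_nonneg _) (Real.exp_pos _).le
      exact mul_le_mul_of_nonneg_right hs2 hy.le
  have hnorm : ‖V b (fun z => exp (z * y) * ψ z)‖ ≤ K * Real.exp (b * y) := by
    have e1 := norm_V_le (H := fun z => exp (z * y) * ψ z) (c := b)
      (g := fun t => Real.exp (b * y) * (B * (1 + |t|) ^ (-(2 : ℝ))))
      (((decay_int hp1).const_mul B).const_mul _) fun t => by
        have e2 := hψb (b + t * I) (by simp)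
        have e3 : ((b : ℂ) + t * I).im = t := by simp
        have e4 : ((b : ℂ) + t * I).re = b := by simp
        rw [e3] at e2
        rw [norm_mul, Complex.norm_exp, Complex.re_mul_ofReal, e4]
        exact mul_le_mul_of_nonneg_left e2 (Real.exp_pos _).le
    rw [integral_const_mul] at e1
    refine e1.trans (le_of_eq ?_)
    rw [hK]
    ring
  -- the line `Re z = X`
  have hXz : ∀ z ∈ S, z.re < X := fun z hz => by
    have e1 := (re_le_norm z).trans (hzr z hz)
    have e4 : R = max x₀ x₂ + r + 1 := hR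
    have e3 := le_max_left x₀ x₂
    rw [hX]
    linarith
  have hRX : R ≤ X := by rw [hX]; linarith
  have hVX : V X (fun z => exp (z * y) * ψ z) = (T lam c α y : ℂ) -
      ∑ z ∈ S, (m z : ℂ) * (exp (z * y) - exp (-y)) := by
    have hnX : ∀ s : ℂ, s.re = X → X ≤ ‖s‖ := fun s hs => by
      rw [← hs]; exact re_le_norm s
    have i1 : Integrable fun t : ℝ => exp (((X : ℂ) + t * I) * y) * -f₁ lam c α (X + t * I) := by
      refine line_int (H := fun z => exp (z * y) * -f₁ lam c α z) (p := 2)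
        (B := Real.exp (X * y) * B₁) hp1 (fun s hs => ?_) (fun s hs => ?_)
      · have e1 := f₁_diff D h0 h1 (z := s) (by rw [hs]; linarith)
          (hx₀ s (by rw [hs]; linarith) (by have := hnX s hs; linarith))
        have e2 : DifferentiableAt ℂ (fun z : ℂ => exp (z * y)) s := by fun_prop
        exact (e2.mul e1.neg).continuousAt
      · have hs0 : 0 < s.re := by rw [hs]; linarith
        have e1 := hB₁' s hs0 (by have := hnX s hs; linarith)
          (hx₀ s hs0 (by have := hnX s hs; linarith))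
        rw [norm_mul, norm_neg, Complex.norm_exp, Complex.re_mul_ofReal, hs, mul_assoc]
        exact mul_le_mul_of_nonneg_left e1 (Real.exp_pos _).le
    have i2 : ∀ z ∈ S, Integrable fun t : ℝ => (m z : ℂ) * (exp (((X : ℂ) + t * I) * y) *
        (1 / (((X : ℂ) + t * I) - z) - 1 / (((X : ℂ) + t * I) + 1))) := by
      intro z hz
      refine Integrable.const_mul ?_ _
      refine line_int (H := fun w => exp (w * y) * (1 / (w - z) - 1 / (w + 1))) (p := 2)
        (B := Real.exp (X * y) * Bz z) hp1 (fun s hs => ?_) (fun s hs => ?_)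
      · have n1 : s - z ≠ 0 := fun h => by
          have : (s - z).re = 0 := by rw [h]; simp
          rw [Complex.sub_re, hs] at this
          have := hXz z hz
          linarith
        refine ContinuousAt.mul (by fun_prop) (ContinuousAt.sub ?_ ?_)
        · exact ContinuousAt.div continuousAt_const (by fun_prop) n1
        · exact ContinuousAt.div continuousAt_const (by fun_prop)
            (hne1 s (by rw [hs]; linarith))
      · have e1 := hBz z s (by rw [hs]; linarith) (hsep s (by have := hnX s hs; linarith) z hz)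
        rw [norm_mul, Complex.norm_exp, Complex.re_mul_ofReal, hs, mul_assoc]
        exact mul_le_mul_of_nonneg_left e1 (Real.exp_pos _).le
    have e1 : ∀ t : ℝ, exp (((X : ℂ) + t * I) * y) * ψ (X + t * I) =
        exp (((X : ℂ) + t * I) * y) * -f₁ lam c α (X + t * I) -
        ∑ z ∈ S, (m z : ℂ) * (exp (((X : ℂ) + t * I) * y) *
        (1 / (((X : ℂ) + t * I) - z) - 1 / (((X : ℂ) + t * I) + 1))) := by
      intro t
      have e2 : ((X : ℂ) + t * I).re = X := by simp
      rw [hfar' _ (by rw [e2]; linarith) (by have := hnX _ e2; linarith), mul_sub, Finset.mul_sum]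
      congr 1
      refine Finset.sum_congr rfl fun z _ => ?_
      ring
    rw [T_eq' D h0 h1 (x := X) (by linarith) hy (fun z hz hz2 => hx₀ z hz (by linarith))]
    have e3 : ∀ z ∈ S, (m z : ℂ) * (exp (z * y) - exp (-y)) = ((2 * Real.pi)⁻¹ : ℝ) *
        ∫ t : ℝ, (m z : ℂ) * (exp (((X : ℂ) + t * I) * y) *
        (1 / (((X : ℂ) + t * I) - z) - 1 / (((X : ℂ) + t * I) + 1))) := by
      intro z hz
      rw [← rat_V (by linarith : 0 < X) (hXz z hz) hy.le]
      unfold V
      rw [integral_const_mul]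
      ring
    rw [Finset.sum_congr rfl e3]
    unfold V
    simp only [e1]
    rw [integral_sub i1 (integrable_finsetSum _ i2), integral_finsetSum _ i2, mul_sub,
      Finset.mul_sum]
  have efin : (T lam c α y : ℂ) - ∑ z ∈ S, (m z : ℂ) * exp (z * y) =
      V b (fun z => exp (z * y) * ψ z) - ∑ z ∈ S, (m z : ℂ) * exp (-y) := by
    rw [hshift, hVX]
    simp only [mul_sub, Finset.sum_sub_distrib]
    ring
  rw [efin, add_mul]
  refine (norm_sub_le _ _).trans (add_le_add hnorm ?_)
  rw [Finset.sum_mul]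
  refine (norm_sum_le _ _).trans (Finset.sum_le_sum fun z _ => ?_)
  rw [norm_mul]
  refine mul_le_mul_of_nonneg_left ?_ (norm_nonneg _)
  rw [Complex.norm_exp]
  apply Real.exp_le_exp.2
  have e5 : (-(y : ℂ)).re = -y := by simp
  rw [e5]
  have : 0 < b * y := by positivity
  linarith

end Pool.Agent.R791.Heat
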