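import Pool.Agent.R791.Heat2

/-!
# Meromorphic functions in a half plane and exponential sums
-/

set_option autoImplicit false

open MeasureTheory Filter Topology Set Complex
open Pool.Agent.TH942.LS (Dat P P_le)
open Pool.Agent.TH942.SL

namespace Pool.Agent.R791.Heat

/-- two functions which are meromorphic along a horizontal ray and agree far to the right agree near
its end point -/
theorem mray_eq {f g : ℂ → ℂ} {v : ℂ} (hf : ∀ x : ℝ, 0 ≤ x → MeromorphicAt f (v + x))
    (hg : ∀ x : ℝ, 0 ≤ x → MeromorphicAt g (v + x)) {x₁ : ℝ} (h : ∀ w : ℂ, x₁ < w.re → f w = g w) :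
    f =ᶠ[𝓝[≠] v] g := by
  set U : Set ℂ := (fun x : ℝ => v + (x : ℂ)) '' Ici 0 with hU
  have hUc : IsConnected U := isConnected_Ici.image _ (by fun_prop)
  have hm : MeromorphicOn (fun z => f z - g z) U := by
    rintro _ ⟨x, hx, rfl⟩
    exact (hf x hx).sub (hg x hx)
  have htop : ∀ u ∈ U, meromorphicOrderAt (fun z => f z - g z) u = ⊤ := by
    by_contra hcon
    push Not at hcon
    have h1 := (hm.exists_meromorphicOrderAt_ne_top_iff_forall_mem hUc).1 hcon
    set x₂ : ℝ := max 0 (x₁ - v.re + 1) with hx₂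
    have h2 : v + (x₂ : ℂ) ∈ U := ⟨x₂, Set.mem_Ici.2 (le_max_left _ _), rfl⟩
    refine h1 _ h2 ?_
    rw [meromorphicOrderAt_eq_top_iff]
    have ho : IsOpen {z : ℂ | x₁ < z.re} := isOpen_lt continuous_const Complex.continuous_re
    refine eventually_nhdsWithin_of_eventually_nhds ?_
    filter_upwards [ho.mem_nhds (show x₁ < (v + (x₂ : ℂ)).re by
      rw [Complex.add_re, Complex.ofReal_re]
      have := le_max_right 0 (x₁ - v.re + 1)
      linarith)] with z hz
    rw [h z hz, sub_self]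
  have h3 := htop v ⟨0, Set.mem_Ici.2 le_rfl, by simp⟩
  rw [meromorphicOrderAt_eq_top_iff] at h3
  filter_upwards [h3] with z hz
  exact sub_eq_zero.1 hz

variable {α : ℝ} {lam c : ℕ → ℝ} {δ σ : ℝ}

/-- **the expansion of the means for a function meromorphic in a half plane** -/
theorem mer_expand (D : Dat lam c δ σ) (h0 : 0 < α) (h1 : α < 1) {a b : ℝ} (ha : 0 ≤ a)
    (hab : a < b) {g : ℂ → ℂ} (hg : ∀ v : ℂ, a < v.re → MeromorphicAt g v) {x₂ : ℝ}
    (hx₂ : ∀ v : ℂ, a < v.re → x₂ ≤ ‖v‖ → σ < (v ^ (α : ℂ)).re)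
    (hgE : ∀ v : ℂ, a < v.re → x₂ ≤ ‖v‖ → g v = exp (f₀ lam c α v)) :
    (∀ v : ℂ, a < v.re → meromorphicOrderAt g v ≠ ⊤) ∧
    ∃ (hfin : {z : ℂ | b < z.re ∧ meromorphicOrderAt g z ≠ 0}.Finite) (C : ℝ), ∀ y : ℝ, 0 < y →
      ‖(T lam c α y : ℂ) - ∑ z ∈ hfin.toFinset,
        ((-(meromorphicOrderAt g z).untop₀ : ℤ) : ℂ) * exp (z * y)‖ ≤ C * Real.exp (b * y) := by
  set U₀ : Set ℂ := {v | a < v.re} with hU₀
  have hU₀o : IsOpen U₀ := isOpen_lt continuous_const Complex.continuous_re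
  have hU₀c : Convex ℝ U₀ := convex_halfSpace_re_gt a
  set O : Set ℂ := {v : ℂ | a < v.re ∧ x₂ < ‖v‖} with hO
  have hOo : IsOpen O :=
    (isOpen_lt continuous_const Complex.continuous_re).inter
      (isOpen_lt continuous_const continuous_norm)
  have hf₀d : ∀ v ∈ O, HasDerivAt (f₀ lam c α) (f₁ lam c α v) v := fun v hv =>
    f₀_deriv D (lt_of_le_of_lt ha hv.1) (hx₂ v hv.1 hv.2.le)
  have hgO : ∀ v ∈ O, g =ᶠ[𝓝 v] fun v => exp (f₀ lam c α v) := fun v hv => by
    filter_upwards [hOo.mem_nhds hv] with w hw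
    exact hgE w hw.1 hw.2.le
  have hea : ∀ v ∈ O, AnalyticAt ℂ (fun v => exp (f₀ lam c α v)) v := fun v hv => by
    have h2 : DifferentiableOn ℂ (fun v => exp (f₀ lam c α v)) O := fun z hz =>
      (hf₀d z hz).differentiableAt.cexp.differentiableWithinAt
    exact h2.analyticAt (hOo.mem_nhds hv)
  have hordO : ∀ v ∈ O, meromorphicOrderAt g v = 0 := fun v hv => by
    rw [meromorphicOrderAt_congr ((hgO v hv).filter_mono nhdsWithin_le_nhds),
      (hea v hv).meromorphicOrderAt_eq, (hea v hv).analyticOrderAt_eq_zero.2 (Complex.exp_ne_zero _)]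
    rfl
  have hord : ∀ v : ℂ, a < v.re → meromorphicOrderAt g v ≠ ⊤ := by
    have hmer : MeromorphicOn g U₀ := fun v hv => hg v hv
    set w : ℂ := ((max a x₂ + 1 : ℝ) : ℂ) with hw
    have hwO : w ∈ O := by
      have e1 := le_max_left a x₂
      have e2 := le_max_right a x₂
      have e3 : w.re = max a x₂ + 1 := by rw [hw, Complex.ofReal_re]
      have e4 := re_le_norm w
      exact ⟨by rw [e3]; linarith, by linarith⟩
    have hcon : IsConnected U₀ := ⟨⟨w, hwO.1⟩, hU₀c.isPreconnected⟩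
    refine (hmer.exists_meromorphicOrderAt_ne_top_iff_forall_mem hcon).1 ⟨w, hwO.1, ?_⟩
    rw [hordO w hwO]
    exact WithTop.zero_ne_top
  refine ⟨hord, ?_⟩
  set a' : ℝ := (a + b) / 2 with ha'
  have haa' : a < a' := by rw [ha']; linarith
  have ha'b : a' < b := by rw [ha']; linarith
  set U : Set ℂ := {v | a' < v.re} with hU
  have hUo : IsOpen U := isOpen_lt continuous_const Complex.continuous_re
  have hUU₀ : ∀ v ∈ U, a < v.re := fun v hv => haa'.trans hv
  -- finiteness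
  set Kc : Set ℂ := {v : ℂ | a' ≤ v.re} ∩ Metric.closedBall 0 x₂ with hKc
  have hKcomp : IsCompact Kc := (isCompact_closedBall 0 x₂).inter_left
    (isClosed_le continuous_const Complex.continuous_re)
  have hmK : MeromorphicOn g Kc := fun v hv => hg v (lt_of_lt_of_le haa' hv.1)
  have hfinK : (MeromorphicOn.divisor g Kc).support.Finite :=
    (MeromorphicOn.divisor g Kc).finiteSupport hKcomp
  have hfinU : {z : ℂ | a' < z.re ∧ meromorphicOrderAt g z ≠ 0}.Finite := by
    refine hfinK.subset fun z hz => ?_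
    have hz1 : a < z.re := haa'.trans hz.1
    have hzK : z ∈ Kc := by
      refine ⟨le_of_lt hz.1, ?_⟩
      rw [mem_closedBall_zero_iff]
      by_contra hcon
      exact hz.2 (hordO z ⟨hz1, not_le.1 hcon⟩)
    rw [Function.mem_support, MeromorphicOn.divisor_apply hmK hzK]
    intro h
    rw [WithTop.untop₀_eq_zero] at h
    rcases h with h | h
    · exact hz.2 h
    · exact hord z hz1 h
  have hmU : MeromorphicOn g U := fun v hv => hg v (hUU₀ v hv)
  set S : Finset ℂ := hfinU.toFinset with hS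
  set dv := MeromorphicOn.divisor g U with hdv
  have hsupp : dv.support ⊆ (S : Set ℂ) := by
    intro z hz
    have hzU : z ∈ U := dv.supportWithinDomain hz
    rw [Function.mem_support, hdv, MeromorphicOn.divisor_apply hmU hzU] at hz
    rw [Finset.mem_coe, hS, Set.Finite.mem_toFinset]
    exact ⟨hzU, fun h => hz (by rw [h]; rfl)⟩
  have hsf : dv.support.Finite := S.finite_toSet.subset hsupp
  obtain ⟨h, hha, hhn, hgh⟩ := hmU.extract_zeros_poles (fun u => hord u (hUU₀ u u.2)) hsf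
  have hdS : ∀ z ∈ S, dv z = (meromorphicOrderAt g z).untop₀ := fun z hz => by
    rw [hS, Set.Finite.mem_toFinset] at hz
    exact MeromorphicOn.divisor_apply hmU hz.1
  set Pf : ℂ → ℂ := fun v => ∏ z ∈ S, (v - z) ^ dv z with hPf
  have hprod : (∏ᶠ u, (· - u) ^ dv u) = Pf := by
    rw [Function.FactorizedRational.finprod_eq_fun hsf]
    funext v
    rw [hPf]
    simp only
    refine finprod_eq_prod_of_mulSupport_subset _ fun z hz => ?_
    by_contra hcon
    have h2 : dv z = 0 := by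
      by_contra h3
      exact hcon (hsupp h3)
    rw [Function.mem_mulSupport, h2, zpow_zero] at hz
    exact hz rfl
  rw [← hdv, hprod] at hgh
  -- near the points far away
  have hloc : ∀ v ∈ U, x₂ < ‖v‖ → g v = Pf v * h v := by
    intro v hv hv2
    have hvO : v ∈ O := ⟨hUU₀ v hv, hv2⟩
    have hvS : ∀ z ∈ S, v - z ≠ 0 := by
      intro z hz h3
      have : v = z := sub_eq_zero.1 h3
      rw [hS, Set.Finite.mem_toFinset] at hz
      rw [← this] at hz
      exact hz.2 (hordO v hvO)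
    have e1 : ∀ᶠ w in 𝓝[≠] v, g w = Pf w * h w := by
      have e2 := mem_codiscreteWithin_iff_forall_mem_nhdsNE.1 hgh v hv
      filter_upwards [e2, nhdsWithin_le_nhds (hUo.mem_nhds hv)] with w hw hwU
      rcases hw with hw | hw
      · have : g w = (Pf • h) w := hw
        rw [this]
        rfl
      · exact absurd hwU hw
    have c1 : ContinuousAt g v :=
      ((hea v hvO).continuousAt).congr (hgO v hvO).symm
    have c2 : ContinuousAt (fun w => Pf w * h w) v := by
      refine ContinuousAt.mul ?_ (hha v hv).continuousAt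
      rw [hPf]
      refine tendsto_finsetProd _ fun z hz => ?_
      exact ContinuousAt.zpow₀ (by fun_prop) _ (Or.inl (hvS z hz))
    exact ((c1.eventuallyEq_nhds_iff_eventuallyEq_nhdsNE c2).1 e1).self_of_nhds
  set φ : ℂ → ℂ := fun v => -(deriv h v / h v) with hφ
  have hφd : ∀ v : ℂ, a' < v.re → DifferentiableAt ℂ φ v := fun v hv =>
    ((hha v hv).deriv.differentiableAt.div (hha v hv).differentiableAt (hhn ⟨v, hv⟩)).neg
  have hfar : ∀ v : ℂ, a' < v.re → x₂ + 1 ≤ ‖v‖ → -f₁ lam c α v = φ v +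
      ∑ z ∈ S, ((-(meromorphicOrderAt g z).untop₀ : ℤ) : ℂ) / (v - z) := by
    intro v hv hv2
    have hvU : v ∈ U := hv
    have hvO : v ∈ O := ⟨hUU₀ v hv, by linarith⟩
    have hvS : ∀ z ∈ S, v - z ≠ 0 := by
      intro z hz h3
      have : v = z := sub_eq_zero.1 h3
      rw [hS, Set.Finite.mem_toFinset] at hz
      rw [← this] at hz
      exact hz.2 (hordO v hvO)
    have e1 : (fun w => exp (f₀ lam c α w)) =ᶠ[𝓝 v] fun w => Pf w * h w := by
      filter_upwards [hUo.mem_nhds hvU, hOo.mem_nhds hvO] with w hw1 hw2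
      rw [← hloc w hw1 hw2.2]
      exact (hgE w hw2.1 hw2.2.le).symm
    have hPd : ∀ z ∈ S, DifferentiableAt ℂ (fun w : ℂ => (w - z) ^ dv z) v := fun z hz =>
      DifferentiableAt.zpow (by fun_prop) (Or.inl (hvS z hz))
    have hPn : ∀ z ∈ S, (v - z) ^ dv z ≠ 0 := fun z hz => zpow_ne_zero _ (hvS z hz)
    have e2 : logDeriv (fun w => exp (f₀ lam c α w)) v = f₁ lam c α v := by
      rw [logDeriv_apply, ((hf₀d v hvO).cexp).deriv]
      field_simp
    have e3 : logDeriv (fun w => Pf w * h w) v = ∑ z ∈ S, (dv z : ℂ) / (v - z) +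
        deriv h v / h v := by
      rw [logDeriv_mul v (Finset.prod_ne_zero_iff.2 hPn) (hhn ⟨v, hvU⟩) ?_
        (hha v hvU).differentiableAt]
      · rw [logDeriv_apply h]
        congr 1
        rw [hPf, logDeriv_prod (f := fun (z w : ℂ) => (w - z) ^ dv z) hPn hPd]
        refine Finset.sum_congr rfl fun z hz => ?_
        rw [logDeriv_fun_zpow (by fun_prop), logDeriv_apply]
        simp
        rw [div_eq_mul_inv]
      · rw [hPf]
        exact DifferentiableAt.fun_finsetProd fun z hz => hPd z hz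
    have e4 : logDeriv (fun w => exp (f₀ lam c α w)) v = logDeriv (fun w => Pf w * h w) v := by
      rw [logDeriv_apply, logDeriv_apply, e1.deriv_eq, e1.eq_of_nhds]
    rw [e2, e3] at e4
    rw [e4, hφ]
    simp only
    rw [neg_add, ← Finset.sum_neg_distrib, add_comm]
    congr 1
    refine Finset.sum_congr rfl fun z hz => ?_
    rw [← hdS z hz]
    push_cast
    ring
  obtain ⟨C, hC⟩ := mer_up D h0 h1 (by linarith : 0 ≤ a') ha'b S
    (fun z => -(meromorphicOrderAt g z).untop₀) hφd hfar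
  have hfinb : {z : ℂ | b < z.re ∧ meromorphicOrderAt g z ≠ 0}.Finite :=
    hfinU.subset fun z hz => ⟨ha'b.trans hz.1, hz.2⟩
  set S' : Finset ℂ := hfinb.toFinset with hS'
  have hSS' : S' ⊆ S := by
    intro z hz
    rw [hS', Set.Finite.mem_toFinset] at hz
    rw [hS, Set.Finite.mem_toFinset]
    exact ⟨ha'b.trans hz.1, hz.2⟩
  refine ⟨hfinb, C + ∑ z ∈ S \ S', ‖((-(meromorphicOrderAt g z).untop₀ : ℤ) : ℂ)‖,
    fun y hy => ?_⟩
  have e1 := hC y hy
  rw [← Finset.sum_sdiff hSS'] at e1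
  have e2 : ‖∑ z ∈ S \ S', ((-(meromorphicOrderAt g z).untop₀ : ℤ) : ℂ) * exp (z * y)‖ ≤
      (∑ z ∈ S \ S', ‖((-(meromorphicOrderAt g z).untop₀ : ℤ) : ℂ)‖) * Real.exp (b * y) := by
    rw [Finset.sum_mul]
    refine (norm_sum_le _ _).trans (Finset.sum_le_sum fun z hz => ?_)
    rw [norm_mul, Complex.norm_exp, Complex.re_mul_ofReal]
    refine mul_le_mul_of_nonneg_left (Real.exp_le_exp.2 ?_) (norm_nonneg _)
    refine mul_le_mul_of_nonneg_right ?_ hy.le
    rw [Finset.mem_sdiff, hS, hS', Set.Finite.mem_toFinset, Set.Finite.mem_toFinset] at hz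
    by_contra hcon
    exact hz.2 ⟨not_le.1 hcon, hz.1.2⟩
  rw [add_mul]
  have e3 : (T lam c α y : ℂ) - ∑ z ∈ S', ((-(meromorphicOrderAt g z).untop₀ : ℤ) : ℂ) *
      exp (z * y) = ((T lam c α y : ℂ) -
      (∑ z ∈ S \ S', ((-(meromorphicOrderAt g z).untop₀ : ℤ) : ℂ) * exp (z * y) +
      ∑ z ∈ S', ((-(meromorphicOrderAt g z).untop₀ : ℤ) : ℂ) * exp (z * y))) +
      ∑ z ∈ S \ S', ((-(meromorphicOrderAt g z).untop₀ : ℤ) : ℂ) * exp (z * y) := by ring
  rw [e3]
  exact (norm_add_le _ _).trans (add_le_add e1 e2)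

/-- **the meromorphic function of an exponential sum with integral coefficients** -/
theorem mer_fn (D : Dat lam c δ σ) (h0 : 0 < α) (h1 : α < 1) {b : ℝ} (hb : 0 ≤ b) (S : Finset ℂ)
    (m : ℂ → ℤ) {C y₀ : ℝ} (hM : ∀ y : ℝ, y₀ ≤ y →
      ‖(T lam c α y : ℂ) - ∑ z ∈ S, (m z : ℂ) * exp (z * y)‖ ≤ C * Real.exp (b * y)) :
    ∃ (g : ℂ → ℂ) (x₁ : ℝ), (∀ v : ℂ, b < v.re → MeromorphicAt g v) ∧
      ((∀ z ∈ S, m z ≤ 0) → ∀ v : ℂ, b < v.re → DifferentiableAt ℂ g v) ∧
      (S = ∅ → ∀ v : ℂ, g v ≠ 0) ∧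
      ∀ v : ℂ, x₁ < v.re → b < v.re ∧ g v = exp (f₀ lam c α v) := by
  obtain ⟨φ, x₁, hx1, hbx, hφd, hx₁, hSx, hφ⟩ := mer_down D h0 h1 hb S m hM
  set U : Set ℂ := {v | b < v.re} with hU
  have hUo : IsOpen U := isOpen_lt continuous_const Complex.continuous_re
  have hUc : Convex ℝ U := convex_halfSpace_re_gt b
  obtain ⟨Φ, hΦ⟩ := convex_primitive hUo hUc (f := φ) fun v hv =>
    (hφd v hv).differentiableWithinAt
  set Pf : ℂ → ℂ := fun v => ∏ z ∈ S, (v - z) ^ (-m z) with hPf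
  set g₁ : ℂ → ℂ := fun v => exp (-Φ v) * Pf v with hg₁
  set W : Set ℂ := {v | x₁ < v.re} with hW
  have hWo : IsOpen W := isOpen_lt continuous_const Complex.continuous_re
  have hWc : Convex ℝ W := convex_halfSpace_re_gt x₁
  have hWU : ∀ v ∈ W, v ∈ U := fun v hv => lt_of_le_of_lt hbx hv
  have hWn : ∀ v ∈ W, ∀ z ∈ S, v - z ≠ 0 := by
    intro v hv z hz h
    have e1 : v = z := sub_eq_zero.1 h
    have e2 := hSx z hz
    have e3 : x₁ < v.re := hv
    rw [e1] at e3
    linarith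
  have hder : ∀ v ∈ W, HasDerivAt (fun v => exp (-f₀ lam c α v) * g₁ v) 0 v := by
    intro v hv
    have hv' : x₁ < v.re := hv
    have hv0 : 0 < v.re := by linarith
    have hvn : x₁ ≤ ‖v‖ := hv'.le.trans (re_le_norm v)
    have e1 := f₀_deriv D hv0 (hx₁ v hvn hv0)
    have hPn : ∀ z ∈ S, (v - z) ^ (-m z) ≠ 0 := fun z hz => zpow_ne_zero _ (hWn v hv z hz)
    have hPd : ∀ z ∈ S, DifferentiableAt ℂ (fun w : ℂ => (w - z) ^ (-m z)) v := fun z hz =>
      DifferentiableAt.zpow (by fun_prop) (Or.inl (hWn v hv z hz))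
    have hPfn : Pf v ≠ 0 := Finset.prod_ne_zero_iff.2 hPn
    have hPfd : DifferentiableAt ℂ Pf v := by
      rw [hPf]
      exact DifferentiableAt.fun_finsetProd fun z hz => hPd z hz
    have e2 : logDeriv Pf v = ∑ z ∈ S, ((-m z : ℤ) : ℂ) / (v - z) := by
      rw [hPf, logDeriv_prod (f := fun (z w : ℂ) => (w - z) ^ (-m z)) hPn hPd]
      refine Finset.sum_congr rfl fun z hz => ?_
      rw [logDeriv_fun_zpow (by fun_prop), logDeriv_apply]
      simp
      rw [div_eq_mul_inv]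
      ring
    have e3 : deriv Pf v = Pf v * ∑ z ∈ S, ((-m z : ℤ) : ℂ) / (v - z) := by
      rw [← e2, logDeriv_apply]
      field_simp
    have e4 : HasDerivAt Pf (Pf v * ∑ z ∈ S, ((-m z : ℤ) : ℂ) / (v - z)) v := by
      rw [← e3]
      exact hPfd.hasDerivAt
    have e5 := ((e1.fun_neg).cexp).fun_mul (((hΦ v (hWU v hv)).fun_neg.cexp).fun_mul e4)
    refine e5.congr_deriv ?_
    have e6 : ∑ z ∈ S, ((-m z : ℤ) : ℂ) / (v - z) = -∑ z ∈ S, (m z : ℂ) / (v - z) := by
      rw [← Finset.sum_neg_distrib]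
      refine Finset.sum_congr rfl fun z _ => ?_
      push_cast
      ring
    have e7 := hφ v hv'
    rw [e6]
    have e8 : φ v = -f₁ lam c α v - ∑ z ∈ S, (m z : ℂ) / (v - z) := by rw [e7]; ring
    rw [e8]
    ring
  set w₀ : ℂ := ((x₁ + 1 : ℝ) : ℂ) with hw₀
  have hw₀W : w₀ ∈ W := by
    change x₁ < w₀.re
    rw [hw₀, Complex.ofReal_re]
    linarith
  set q : ℂ := exp (-f₀ lam c α w₀) * g₁ w₀ with hq
  have hconst : ∀ v ∈ W, exp (-f₀ lam c α v) * g₁ v = q := fun v hv =>
    hWc.is_const_of_fderivWithin_eq_zero (𝕜 := ℂ) (f := fun v => exp (-f₀ lam c α v) * g₁ v)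
      (fun z hz => (hder z hz).differentiableAt.differentiableWithinAt) (fun z hz => by
        rw [fderivWithin_of_isOpen hWo hz]
        ext
        simp [(hder z hz).deriv]) hv hw₀W
  have hq0 : q ≠ 0 := by
    rw [hq, hg₁]
    refine mul_ne_zero (Complex.exp_ne_zero _) (mul_ne_zero (Complex.exp_ne_zero _) ?_)
    exact Finset.prod_ne_zero_iff.2 fun z hz => zpow_ne_zero _ (hWn w₀ hw₀W z hz)
  have hΦa : ∀ v : ℂ, b < v.re → AnalyticAt ℂ (fun v => exp (-Φ v)) v := fun v hv => by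
    have h2 : DifferentiableOn ℂ (fun v => exp (-Φ v)) U := fun z hz =>
      ((hΦ z hz).fun_neg.cexp).differentiableAt.differentiableWithinAt
    exact h2.analyticAt (hUo.mem_nhds hv)
  refine ⟨fun v => q⁻¹ * g₁ v, x₁, fun v hv => ?_, fun hm v hv => ?_, fun hS v => ?_,
    fun v hv => ⟨hWU v hv, ?_⟩⟩
  · refine (MeromorphicAt.const _ _).mul ((hΦa v hv).meromorphicAt.mul ?_)
    rw [hPf]
    refine MeromorphicAt.fun_prod fun z _ => ?_
    exact MeromorphicAt.zpow (f := fun w : ℂ => w - z) (by fun_prop) _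
  · refine (differentiableAt_const _).mul ((hΦa v hv).differentiableAt.mul ?_)
    rw [hPf]
    refine DifferentiableAt.fun_finsetProd fun z hz => ?_
    exact DifferentiableAt.zpow (by fun_prop) (Or.inr (by have := hm z hz; omega))
  · refine mul_ne_zero (inv_ne_zero hq0) (mul_ne_zero (Complex.exp_ne_zero _) ?_)
    rw [hPf, hS]
    simp
  · have e1 := hconst v hv
    rw [Complex.exp_neg] at e1
    have e2 := Complex.exp_ne_zero (f₀ lam c α v)
    have e3 : g₁ v = q * exp (f₀ lam c α v) := by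
      rw [← e1]
      field_simp
    simp only
    rw [e3]
    field_simp

end Pool.Agent.R791.Heat
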