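import Mathlib

set_option autoImplicit false

/-! Signatures of Hermitian matrices modulo four. -/

namespace Pool.Agent.R791

open Finset Matrix

/-- The signature of a Hermitian matrix: the number of the positive eigenvalues minus the number of
the negative eigenvalues, with multiplicities. -/
noncomputable def signature {m : Type*} [Fintype m] [DecidableEq m] {M : Matrix m m ℂ}
    (h : M.IsHermitian) : ℤ :=
  ∑ i, (SignType.sign (h.eigenvalues i) : ℤ)

theorem sum_signs {ι : Type*} (s : Finset ι) (f : ι → ℤ)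
    (hf : ∀ i ∈ s, f i = 1 ∨ f i = -1) :
    (4 : ℤ) ∣ (∑ i ∈ s, f i) - ((s.card : ℤ) - 1 + ∏ i ∈ s, f i) ∧
      (∏ i ∈ s, f i = 1 ∨ ∏ i ∈ s, f i = -1) := by
  classical
  induction s using Finset.induction_on with
  | empty => simp
  | insert a s ha ih =>
    obtain ⟨⟨k, hk⟩, h2⟩ := ih (fun i hi => hf i (Finset.mem_insert_of_mem hi))
    have h3 := hf a (Finset.mem_insert_self a s)
    rw [Finset.sum_insert ha, Finset.prod_insert ha, Finset.card_insert_of_notMem ha]
    push_cast
    refine ⟨?_, ?_⟩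
    · have e : (∑ i ∈ s, f i) = 4 * k + ((s.card : ℤ) - 1 + ∏ i ∈ s, f i) := by
        rw [← hk]; ring
      rw [e]
      rcases h2 with h2 | h2 <;> rcases h3 with h3 | h3 <;> rw [h2, h3]
      · exact ⟨k, by ring⟩
      · exact ⟨k, by ring⟩
      · exact ⟨k, by ring⟩
      · exact ⟨k - 1, by ring⟩
    · rcases h2 with h2 | h2 <;> rcases h3 with h3 | h3 <;> rw [h2, h3] <;> norm_num

theorem signature_mod {m : Type*} [Fintype m] [DecidableEq m] {M : Matrix m m ℂ}
    (h : M.IsHermitian) (h0 : M.det ≠ 0) (p : ℝ) (hp : M.det = (p : ℂ)) :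
    (4 : ℤ) ∣ signature h - ((Fintype.card m : ℤ) - 1 + (SignType.sign p : ℤ)) ∧
      ((SignType.sign p : ℤ) = 1 ∨ (SignType.sign p : ℤ) = -1) := by
  have h1 : p = ∏ i, h.eigenvalues i := by
    have h2 := h.det_eq_prod_eigenvalues
    rw [hp] at h2
    have h3 : ((∏ i, h.eigenvalues i : ℝ) : ℂ) = ∏ i, (h.eigenvalues i : ℂ) := by
      push_cast; rfl
    rw [← Complex.ofReal_inj, h3, h2]
    rfl
  have hne : ∀ i, h.eigenvalues i ≠ 0 := by
    intro i hi
    apply h0
    rw [hp, h1, Finset.prod_eq_zero (Finset.mem_univ i) hi]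
    simp
  have h4 := sum_signs (Finset.univ : Finset m) (fun i => (SignType.sign (h.eigenvalues i) : ℤ))
    (by
      intro i _
      rcases lt_or_gt_of_ne (hne i) with h5 | h5
      · right; rw [sign_neg h5]; rfl
      · left; rw [sign_pos h5]; rfl)
  have h6 : (∏ i, (SignType.sign (h.eigenvalues i) : ℤ)) = (SignType.sign p : ℤ) := by
    rw [h1]
    have h7 : SignType.sign (∏ i, h.eigenvalues i) = ∏ i, SignType.sign (h.eigenvalues i) :=
      map_prod (signHom : ℝ →*₀ SignType) _ _
    rw [h7]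
    have h8 : ∀ s : Finset m, ((∏ i ∈ s, SignType.sign (h.eigenvalues i) : SignType) : ℤ) =
        ∏ i ∈ s, (SignType.sign (h.eigenvalues i) : ℤ) := by
      intro s
      induction s using Finset.induction_on with
      | empty => rfl
      | insert a s ha ih =>
        rw [Finset.prod_insert ha, Finset.prod_insert ha, ← ih]
        exact map_mul (SignType.castHom (α := ℤ)) _ _
    exact (h8 _).symm
  rw [h6, Finset.card_univ] at h4
  exact h4

/-- If the determinant of `M` is the `d`-th power of the determinant of `N` and the size of `M` is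
`d` times the size of `N`, then the signature of `M` is congruent to `d` times the signature of `N`
modulo four. -/
theorem signature_pow {m m' : Type*} [Fintype m] [DecidableEq m] [Fintype m'] [DecidableEq m']
    {M : Matrix m m ℂ} {N : Matrix m' m' ℂ} (hM : M.IsHermitian) (hN : N.IsHermitian)
    (d : ℕ) (hcard : Fintype.card m = Fintype.card m' * d) (hdet : M.det = N.det ^ d)
    (h0 : N.det ≠ 0) : signature hM ≡ d * signature hN [ZMOD 4] := by
  obtain ⟨r, hr⟩ : ∃ r : ℝ, N.det = (r : ℂ) := by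
    refine ⟨∏ i, hN.eigenvalues i, ?_⟩
    rw [hN.det_eq_prod_eigenvalues]
    push_cast; rfl
  have hM0 : M.det ≠ 0 := by rw [hdet]; exact pow_ne_zero _ h0
  have hp : M.det = ((r ^ d : ℝ) : ℂ) := by rw [hdet, hr]; push_cast; rfl
  obtain ⟨⟨a, ha⟩, _⟩ := signature_mod hM hM0 _ hp
  obtain ⟨⟨b, hb⟩, hb2⟩ := signature_mod hN h0 _ hr
  have h1 : (SignType.sign (r ^ d) : ℤ) = (SignType.sign r : ℤ) ^ d := by
    rw [sign_pow]
    exact map_pow (SignType.castHom (α := ℤ)) _ _
  rw [h1] at ha
  rw [hcard] at ha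
  push_cast at ha
  rw [Int.modEq_iff_dvd]
  have e1 : signature hM = 4 * a + ((Fintype.card m' : ℤ) * d - 1 +
      (SignType.sign r : ℤ) ^ d) := by rw [← ha]; ring
  have e2 : signature hN = 4 * b + ((Fintype.card m' : ℤ) - 1 + (SignType.sign r : ℤ)) := by
    rw [← hb]; ring
  rw [e1, e2]
  rcases hb2 with h | h <;> rw [h]
  · exact ⟨d * b - a, by rw [one_pow]; ring⟩
  · rcases Nat.even_or_odd d with hd | hd
    · obtain ⟨k, rfl⟩ := hd
      refine ⟨((k + k : ℕ) : ℤ) * b - a - k, ?_⟩
      rw [Even.neg_one_pow ⟨k, rfl⟩]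
      push_cast; ring
    · obtain ⟨k, rfl⟩ := hd
      refine ⟨((2 * k + 1 : ℕ) : ℤ) * b - a - k, ?_⟩
      rw [Odd.neg_one_pow ⟨k, rfl⟩]
      push_cast; ring

end Pool.Agent.R791
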