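import Pool.Agent.R791.Disc
import Pool.Agent.R791.Sig

set_option autoImplicit false
set_option linter.unusedSectionVars false

/-! Forms over group rings and unitary representations. -/

namespace Pool.Agent.R791

open Finset Matrix Pool.Agent.Y72.Log Pool.Agent.Y72.Dt Pool.Agent.Y72.Un H219.Wh

/-- The matrix with blocks `ρ(A i j)`, where `ρ(∑ a g) = ∑ a ρ(g)`. -/
noncomputable def repMat {Γ : Type*} [Group Γ] {n d : ℕ} {L : Type*} [CommRing L]
    (ρ : Γ →* Matrix (Fin d) (Fin d) L) (A : Matrix (Fin n) (Fin n) (MonoidAlgebra ℤ Γ)) :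
    Matrix (Fin n × Fin d) (Fin n × Fin d) L :=
  Matrix.of fun x y => (A x.1 y.1).coeff.sum fun g a => (a : L) * ρ g x.2 y.2

/-- The integral matrix whose entries are the sums of the coefficients of the entries of `A`. -/
noncomputable def augMat {Γ : Type*} [Group Γ] {n : ℕ}
    (A : Matrix (Fin n) (Fin n) (MonoidAlgebra ℤ Γ)) : Matrix (Fin n) (Fin n) ℤ :=
  Matrix.of fun i j => (A i j).coeff.sum fun _ a => a

variable {Γ : Type*} [Group Γ] {n d : ℕ}

theorem lrG_bar (ρ : Γ →* Matrix (Fin d) (Fin d) ℂ) (hρ : ∀ g, ρ g⁻¹ = (ρ g)ᴴ)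
    (x : MonoidAlgebra ℤ Γ) : lrG ρ (bar x) = (lrG ρ x)ᴴ := by
  induction x using MonoidAlgebra.induction_linear with
  | zero => simp
  | add a b ha hb => rw [bar_add, map_add, map_add, ha, hb, conjTranspose_add]
  | single g r =>
    rw [bar_single, lrG_single, lrG_single, hρ]
    ext i j
    rw [Matrix.smul_apply, conjTranspose_apply, conjTranspose_apply, Matrix.smul_apply,
      zsmul_eq_mul, zsmul_eq_mul, star_mul']
    simp

theorem repMat_herm (ε : ℤ)
    (A : Matrix (Fin n) (Fin n) (MonoidAlgebra ℤ Γ))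
    (hA : ∀ i j g, (A i j).coeff g = ε * (A j i).coeff g⁻¹)
    (ρ : Γ →* Matrix (Fin d) (Fin d) ℂ) (hρ : ∀ g, ρ g⁻¹ = (ρ g)ᴴ) :
    (repMat ρ A)ᴴ = (ε : ℂ) • repMat ρ A := by
  have h1 : ∀ i j, A j i = ε • bar (A i j) := by
    intro i j
    ext g
    rw [hA j i g, MonoidAlgebra.coeff_smul, Finsupp.smul_apply, coeff_bar, smul_eq_mul]
  have h2 : ∀ x y, repMat ρ A x y = lrG ρ (A x.1 y.1) x.2 y.2 := fun x y => (lrG_apply ρ _ _ _).symm
  ext x y
  rw [conjTranspose_apply, Matrix.smul_apply, h2, h2, h1 x.1 y.1, map_zsmul, lrG_bar ρ hρ,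
    Matrix.smul_apply, conjTranspose_apply, zsmul_eq_mul, star_mul', star_star, smul_eq_mul]
  simp

theorem augMat_herm (ε : ℤ)
    (A : Matrix (Fin n) (Fin n) (MonoidAlgebra ℤ Γ))
    (hA : ∀ i j g, (A i j).coeff g = ε * (A j i).coeff g⁻¹) (hε : ε = 1 ∨ ε = -1) :
    ((augMat A).map (Int.cast : ℤ → ℂ))ᴴ = (ε : ℂ) • (augMat A).map (Int.cast : ℤ → ℂ) := by
  have h1 : ∀ i j, A j i = ε • bar (A i j) := by
    intro i j
    ext g
    rw [hA j i g, MonoidAlgebra.coeff_smul, Finsupp.smul_apply, coeff_bar, smul_eq_mul]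
  have hb : ∀ x : MonoidAlgebra ℤ Γ, ((bar x).coeff.sum fun _ a => a) = x.coeff.sum fun _ a => a := by
    intro x
    induction x using MonoidAlgebra.induction_linear with
    | zero => simp
    | add a b ha hb =>
      rw [bar_add, MonoidAlgebra.coeff_add, MonoidAlgebra.coeff_add,
        Finsupp.sum_add_index' (fun _ => rfl) (fun _ _ _ => rfl),
        Finsupp.sum_add_index' (fun _ => rfl) (fun _ _ _ => rfl), ha, hb]
    | single g r =>
      rw [bar_single, MonoidAlgebra.coeff_single, MonoidAlgebra.coeff_single,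
        Finsupp.sum_single_index rfl, Finsupp.sum_single_index rfl]
  have hs : ∀ x : MonoidAlgebra ℤ Γ, ((ε • x).coeff.sum fun _ a => a) =
      ε * x.coeff.sum fun _ a => a := by
    intro x
    rw [MonoidAlgebra.coeff_smul]
    rcases hε with rfl | rfl
    · simp
    · rw [show ((-1 : ℤ) • x.coeff) = - x.coeff by simp, Finsupp.sum_neg_index (fun _ => rfl)]
      simp [Finsupp.sum]
  ext i j
  rw [conjTranspose_apply, Matrix.smul_apply, Matrix.map_apply, Matrix.map_apply]
  show star (((A j i).coeff.sum fun _ a => a : ℤ) : ℂ) = (ε : ℂ) • (((A i j).coeff.sum fun _ a => a : ℤ) : ℂ)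
  rw [h1 i j, hs, hb]
  simp

/-- The determinant of an invertible matrix in a representation does not vanish. -/
theorem det_unit {L : Type*} [Field L] (A : (Matrix (Fin n) (Fin n) (MonoidAlgebra ℤ Γ))ˣ)
    (ρ : Γ →* Matrix (Fin d) (Fin d) L) : (repMat ρ A.val).det ≠ 0 := by
  have h1 : (repMat ρ A.val).det = DD ρ A.val := by
    unfold DD
    congr 1
    ext1 x y
    exact (lrG_apply ρ (A.val x.1 y.1) x.2 y.2).symm
  rw [h1]
  intro h0
  have h2 : DD ρ A.val * DD ρ (A⁻¹).val = 1 := by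
    rw [← DD_mul, A.mul_inv, DD_one]
  rw [h0, zero_mul] at h2
  exact zero_ne_one h2

end Pool.Agent.R791
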