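import Pool.Agent.R791.Level3
import Pool.Agent.TH988.RB.Lan

/-!
# Landau's theorem for the sectorial means: one-sided bounds and continuation along the real axis
-/

set_option autoImplicit false

open MeasureTheory Filter Topology Set Complex
open Pool.Agent.TH942.LS (Dat P P_le Cont)
open Pool.Agent.TH942.SL
open Pool.Agent.W263.BSD (LInt lap lapC)

namespace Pool.Agent.R791.Land

/-- a primitive along the real axis -/
theorem real_prim {a : ℝ} {h : ℂ → ℂ} (hh : ∀ x : ℝ, a < x → AnalyticAt ℂ h x) {x₀ : ℝ}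
    (hx₀ : a < x₀) (k : ℂ) :
    ∃ φ : ℝ → ℂ, φ x₀ = k ∧ (∀ x, a < x → HasDerivAt φ (h x) x) ∧
      ∀ x, a < x → AnalyticAt ℝ φ x := by
  have hc : ContinuousOn (fun t : ℝ => h t) (Ioi a) := fun t ht =>
    (ContinuousAt.comp (f := fun t : ℝ => (t : ℂ)) (hh t ht).continuousAt
      Complex.continuous_ofReal.continuousAt).continuousWithinAt
  set φ : ℝ → ℂ := fun x => k + ∫ t in x₀..x, h t with hφ
  have hd : ∀ x, a < x → HasDerivAt φ (h x) x := by
    intro x hx
    have hsub : uIcc x₀ x ⊆ Ioi a := fun t ht => by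
      have := ht.1
      exact lt_of_lt_of_le (lt_min hx₀ hx) this
    have h1 : IntervalIntegrable (fun t : ℝ => h t) volume x₀ x :=
      (hc.mono hsub).intervalIntegrable
    have h2 := intervalIntegral.integral_hasDerivAt_right h1
      (hc.stronglyMeasurableAtFilter isOpen_Ioi x hx) (hc.continuousAt (Ioi_mem_nhds hx))
    exact h2.const_add k
  refine ⟨φ, by simp [hφ], hd, fun x hx => ?_⟩
  obtain ⟨r, hr, hball⟩ := (hh x hx).exists_ball_analyticOnNhd
  have hdf : DifferentiableOn ℂ h (Metric.ball (x : ℂ) r) := fun z hz =>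
    (hball z hz).differentiableAt.differentiableWithinAt
  obtain ⟨H, hH⟩ := convex_primitive Metric.isOpen_ball (convex_ball _ _) hdf
  set r' : ℝ := min r (x - a) with hr'
  have hr'0 : 0 < r' := lt_min hr (by linarith)
  have hmem : ∀ t ∈ Ioo (x - r') (x + r'), (t : ℂ) ∈ Metric.ball (x : ℂ) r ∧ a < t := by
    intro t ht
    have e1 : |t - x| < r' := abs_lt.2 ⟨by linarith [ht.1], by linarith [ht.2]⟩
    constructor
    · rw [Metric.mem_ball, Complex.dist_eq, ← Complex.ofReal_sub, Complex.norm_real,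
        Real.norm_eq_abs]
      exact e1.trans_le (min_le_left _ _)
    · have := min_le_right r (x - a)
      have := ht.1
      linarith
  have hconst : ∀ t ∈ Ioo (x - r') (x + r'), φ t - H t = φ x - H x := by
    have hdd : ∀ t ∈ Ioo (x - r') (x + r'), HasDerivAt (fun t : ℝ => φ t - H t) 0 t := by
      intro t ht
      obtain ⟨e1, e2⟩ := hmem t ht
      have e3 := (hd t e2).sub (hH _ e1).comp_ofReal
      rwa [sub_self] at e3
    intro t ht
    have hx' : x ∈ Ioo (x - r') (x + r') := ⟨by linarith, by linarith⟩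
    refine (convex_Ioo (x - r') (x + r')).is_const_of_fderivWithin_eq_zero (𝕜 := ℝ)
      (fun z hz => (hdd z hz).differentiableAt.differentiableWithinAt) (fun z hz => ?_) ht hx'
    rw [fderivWithin_of_isOpen isOpen_Ioo hz]
    ext
    simp [(hdd z hz).deriv]
  have hHa : AnalyticAt ℂ H (x : ℂ) := by
    have e1 : DifferentiableOn ℂ H (Metric.ball (x : ℂ) r) := fun z hz =>
      (hH z hz).differentiableAt.differentiableWithinAt
    exact e1.analyticAt (Metric.isOpen_ball.mem_nhds (Metric.mem_ball_self hr))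
  have hHr : AnalyticAt ℝ (fun t : ℝ => H t) x :=
    AnalyticAt.fun_comp (hHa.restrictScalars (𝕜 := ℝ)) (Complex.ofRealCLM.analyticAt x)
  refine (hHr.add (analyticAt_const (v := φ x - H x))).congr ?_
  filter_upwards [Ioo_mem_nhds (show x - r' < x by linarith) (show x < x + r' by linarith)]
    with t ht
  have := hconst t ht
  simp only [Pi.add_apply]
  rw [← this]
  ring

/-- restriction to the real axis of an analytic function -/
theorem real_an {h : ℂ → ℂ} {x : ℝ} (hh : AnalyticAt ℂ h x) : AnalyticAt ℝ (fun t : ℝ => h t) x :=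
  AnalyticAt.fun_comp (hh.restrictScalars (𝕜 := ℝ)) (Complex.ofRealCLM.analyticAt x)

theorem re_an {φ : ℝ → ℂ} {x : ℝ} (h : AnalyticAt ℝ φ x) : AnalyticAt ℝ (fun t => (φ t).re) x :=
  AnalyticAt.fun_comp (Complex.reCLM.analyticAt _) h

/-- the logarithmic derivative near a zero -/
theorem logderiv_near {g : ℂ → ℂ} {z : ℂ} (hg : AnalyticAt ℂ g z) (h0 : g z = 0)
    (hne : ¬ ∀ᶠ w in 𝓝 z, g w = 0) :
    ∃ (n : ℕ) (B : ℝ), 1 ≤ n ∧ ∀ᶠ w in 𝓝 z, w ≠ z → ‖deriv g w / g w - n / (w - z)‖ ≤ B := by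
  obtain ⟨n, u, hu, hu0, hgu⟩ := hg.exists_eventuallyEq_pow_smul_nonzero_iff.2 hne
  refine ⟨n, ‖deriv u z / u z‖ + 1, ?_, ?_⟩
  · by_contra hn
    have hn0 : n = 0 := by omega
    have := hgu.self_of_nhds
    rw [hn0, pow_zero, one_smul, h0] at this
    exact hu0 this.symm
  have h1 : ∀ᶠ w in 𝓝 z, u w ≠ 0 := hu.continuousAt.eventually_ne hu0
  have h2 : ∀ᶠ w in 𝓝 z, ‖deriv u w / u w‖ < ‖deriv u z / u z‖ + 1 := by
    have h3 : ContinuousAt (fun w => ‖deriv u w / u w‖) z :=
      (hu.deriv.continuousAt.div hu.continuousAt hu0).norm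
    exact h3.eventually (gt_mem_nhds (by linarith))
  filter_upwards [h1, h2, hgu.eventually_nhds, hu.eventually_analyticAt] with w e1 e2 e3 e4 hw
  have hwz : w - z ≠ 0 := sub_ne_zero.2 hw
  have e5 : g w = (w - z) ^ n * u w := by
    have := e3.self_of_nhds
    rwa [smul_eq_mul] at this
  have e6 : deriv g w = n * (w - z) ^ (n - 1) * u w + (w - z) ^ n * deriv u w := by
    have e7 : g =ᶠ[𝓝 w] fun w => (w - z) ^ n * u w := by
      filter_upwards [e3] with y hy
      rwa [smul_eq_mul] at hy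
    rw [e7.deriv_eq]
    have e8 : HasDerivAt (fun w : ℂ => (w - z) ^ n) (n * (w - z) ^ (n - 1) * 1) w :=
      ((hasDerivAt_id w).sub_const z).pow n
    rw [mul_one] at e8
    exact (e8.mul e4.differentiableAt.hasDerivAt).deriv
  have e9 : deriv g w / g w - n / (w - z) = deriv u w / u w := by
    rw [e6, e5]
    rcases Nat.eq_zero_or_pos n with hn | hn
    · subst hn
      simp
    · obtain ⟨k, rfl⟩ := Nat.exists_eq_add_of_lt hn
      have : 0 + k + 1 - 1 = k := by omega
      rw [this, pow_succ]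
      field_simp
      push_cast
      ring
  rw [e9]
  exact e2.le

end Pool.Agent.R791.Land
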