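import Pool.Agent.R791.Land

/-!
# Landau's theorem for the sectorial means: the half plane of the variable `v`
-/

set_option autoImplicit false

open MeasureTheory Filter Topology Set Complex
open Pool.Agent.TH942.LS (Dat P P_le Cont)
open Pool.Agent.TH942.SL
open Pool.Agent.W263.BSD (LInt lap lapC)

namespace Pool.Agent.R791.Land

variable {α : ℝ} {lam c : ℕ → ℝ} {δ σ : ℝ}

lemma exp_L' {b s : ℝ} (h : b < s) : LInt (fun T => Real.exp (b * T)) s ∧
    lap (fun T => Real.exp (b * T)) s = 1 / (s - b) := by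
  have e : ∀ T : ℝ, Real.exp (b * T) * Real.exp (-(s * T)) = Real.exp (-((s - b) * T)) := fun T => by
    rw [← Real.exp_add]; congr 1; ring
  unfold Pool.Agent.W263.BSD.LInt Pool.Agent.W263.BSD.lap
  simp only [e]
  have h1 : -(s - b) < 0 := by linarith
  have e2 : ∀ T : ℝ, Real.exp (-((s - b) * T)) = Real.exp ((-(s - b)) * T) := fun T => by
    congr 1; ring
  simp only [e2]
  refine ⟨integrableOn_exp_mul_Ioi h1 0, ?_⟩
  rw [integral_exp_mul_Ioi h1]
  simp only [mul_zero, Real.exp_zero]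
  rw [neg_div, ← div_neg, neg_neg]

/-- **Landau's theorem in the variable `v`.** A one-sided bound for the means and the continuation of
`exp (±(p - f₀))` along the real axis make the Laplace transform converge. -/
theorem conv (D : Dat lam c δ σ) (h0 : 0 < α) (h1 : α < 1) {a : ℝ} (ha : 0 ≤ a) {τ : ℝ}
    (hτ : τ * τ = 1) {x₀ : ℝ} (hx1 : 1 ≤ x₀)
    (hx₀ : ∀ z : ℂ, 0 < z.re → x₀ ≤ ‖z‖ → σ + 1 ≤ kap α * ‖z‖ ^ α) {m : ℝ → ℝ} (hmc : Continuous m)
    (hm0 : ∀ y, 0 < y → m y = y * M lam c α y) {K : ℝ} (hK : 0 ≤ K)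
    (hmb : ∀ y, |m y| ≤ K * Real.exp (x₀ * y))
    (hmL : ∀ w : ℝ, x₀ < w → lap m w = (hh (f₀ lam c α) (f₁ lam c α) w).re)
    (hM : ∀ ε : ℝ, 0 < ε → ∃ C y₀ : ℝ, ∀ y, y₀ ≤ y →
      τ * M lam c α y ≤ C * Real.exp ((a + ε) * y))
    {g p : ℂ → ℂ} (hg : ∀ x : ℝ, a < x → AnalyticAt ℂ g x) (hp : ∀ x : ℝ, a < x → AnalyticAt ℂ p x)
    {x₁ : ℝ} (hfar : ∀ v : ℂ, x₁ < v.re → g v = exp (τ * (p v - f₀ lam c α v)))
    {w : ℝ} (hw : a < w) : LInt m w := by
  set ε : ℝ := (w - a) / 2 with hε
  have hε0 : 0 < ε := by rw [hε]; linarith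
  set b : ℝ := a + ε with hb
  have hb0 : 0 < b := by linarith
  have hab : a < b := by linarith
  have hbw : b < w := by rw [hb, hε]; linarith
  have hτ1 : |τ| = 1 := by
    have : |τ| * |τ| = 1 := by rw [← abs_mul, hτ, abs_one]
    nlinarith [abs_nonneg τ]
  obtain ⟨C, y₀, hC⟩ := hM (ε / 2) (by linarith)
  -- the bound for all `y > 0`
  set C' : ℝ := K * Real.exp (x₀ * |y₀|) + |C| / (ε / 2) with hC'
  have hC'0 : 0 ≤ C' := by positivity
  have hbd : ∀ y, 0 < y → τ * m y ≤ C' * Real.exp (b * y) := by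
    intro y hy
    have e0 : 1 ≤ Real.exp (b * y) := Real.one_le_exp (by positivity)
    rcases le_total y₀ y with h | h
    · rw [hm0 y hy]
      have e1 := hC y h
      have e2 : y ≤ Real.exp (ε / 2 * y) / (ε / 2) := by
        rw [le_div_iff₀ (by linarith)]
        have := Real.add_one_le_exp (ε / 2 * y)
        linarith
      have e3 : C * Real.exp ((a + ε / 2) * y) ≤ |C| * Real.exp ((a + ε / 2) * y) :=
        mul_le_mul_of_nonneg_right (le_abs_self C) (Real.exp_pos _).le
      calc τ * (y * M lam c α y) = y * (τ * M lam c α y) := by ring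
        _ ≤ y * (|C| * Real.exp ((a + ε / 2) * y)) := mul_le_mul_of_nonneg_left (e1.trans e3) hy.le
        _ ≤ (Real.exp (ε / 2 * y) / (ε / 2)) * (|C| * Real.exp ((a + ε / 2) * y)) :=
            mul_le_mul_of_nonneg_right e2 (by positivity)
        _ = |C| / (ε / 2) * (Real.exp (ε / 2 * y) * Real.exp ((a + ε / 2) * y)) := by ring
        _ = |C| / (ε / 2) * Real.exp (b * y) := by
          rw [← Real.exp_add, hb]
          congr 2
          ring
        _ ≤ C' * Real.exp (b * y) := by
          refine mul_le_mul_of_nonneg_right ?_ (Real.exp_pos _).le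
          rw [hC']
          have : 0 ≤ K * Real.exp (x₀ * |y₀|) := by positivity
          linarith
    · have e1 := hmb y
      have e2 : Real.exp (x₀ * y) ≤ Real.exp (x₀ * |y₀|) := by
        apply Real.exp_le_exp.2
        exact mul_le_mul_of_nonneg_left (h.trans (le_abs_self y₀)) (by linarith)
      calc τ * m y ≤ |τ * m y| := le_abs_self _
        _ = |m y| := by rw [abs_mul, hτ1, one_mul]
        _ ≤ K * Real.exp (x₀ * |y₀|) := e1.trans (mul_le_mul_of_nonneg_left e2 hK)
        _ ≤ C' := by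
          rw [hC']
          have : 0 ≤ |C| / (ε / 2) := by positivity
          linarith
        _ ≤ _ := le_mul_of_one_le_right hC'0 e0
  set F : ℝ → ℝ := fun y => C' * Real.exp (b * y) - τ * m y with hF
  have hFm : Measurable F := Continuous.measurable (by fun_prop)
  have hF0 : ∀ y, 0 < y → 0 ≤ F y := fun y hy => by
    have := hbd y hy
    rw [hF]
    simp only
    linarith
  have hmI : ∀ s, x₀ < s → LInt m s := by
    intro s hs
    refine Integrable.mono' ((exp_L' hs).1.const_mul K) ?_ ?_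
    · exact (Continuous.aestronglyMeasurable (by fun_prop))
    · filter_upwards [ae_restrict_mem measurableSet_Ioi] with T hT
      rw [Real.norm_eq_abs, abs_mul, abs_of_pos (Real.exp_pos _)]
      exact mul_le_mul_of_nonneg_right (hmb T) (Real.exp_pos _).le
  -- the function `h`
  set h : ℂ → ℂ := fun v => deriv p v - τ * (deriv g v / g v) with hh'
  -- far to the right
  set x₂ : ℝ := max (max x₀ x₁) b with hx₂
  have hx₂0 : x₀ ≤ x₂ := (le_max_left _ _).trans (le_max_left _ _)
  have hx₂1 : x₁ ≤ x₂ := (le_max_right _ _).trans (le_max_left _ _)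
  have hx₂b : b ≤ x₂ := le_max_right _ _
  have hf₀d : ∀ x : ℝ, x₂ < x → HasDerivAt (f₀ lam c α) (f₁ lam c α x) (x : ℂ) := by
    intro x hx
    have e1 : 0 < (x : ℂ).re := by rw [Complex.ofReal_re]; linarith
    have e2 : x₀ ≤ ‖(x : ℂ)‖ := by
      rw [Complex.norm_real, Real.norm_eq_abs, abs_of_pos (by linarith)]
      linarith
    have e3 := hx₀ x e1 e2
    have e4 := re_pow_ge h0 h1 e1
    exact f₀_deriv D e1 (by linarith)
  have hfar0 : ∀ x : ℝ, x₂ < x → g x ≠ 0 := fun x hx => by
    rw [hfar x (by rw [Complex.ofReal_re]; linarith)]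
    exact Complex.exp_ne_zero _
  have hfar1 : ∀ x : ℝ, x₂ < x → h x = f₁ lam c α x := by
    intro x hx
    have e1 := hf₀d x hx
    have e2 := (hp x (by linarith)).differentiableAt.hasDerivAt
    have e3 : HasDerivAt (fun v => exp (τ * (p v - f₀ lam c α v)))
        (exp (τ * (p x - f₀ lam c α x)) * (τ * (deriv p x - f₁ lam c α x))) (x : ℂ) :=
      ((e2.sub e1).const_mul (τ : ℂ)).cexp
    have ho : IsOpen {v : ℂ | x₁ < v.re} := isOpen_lt continuous_const Complex.continuous_re
    have e4 : g =ᶠ[𝓝 (x : ℂ)] fun v => exp (τ * (p v - f₀ lam c α v)) := by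
      filter_upwards [ho.mem_nhds (show x₁ < (x : ℂ).re by rw [Complex.ofReal_re]; linarith)]
        with v hv
      exact hfar v hv
    have e5 : deriv g x = g x * (τ * (deriv p x - f₁ lam c α x)) := by
      rw [e4.deriv_eq, e3.deriv, e4.self_of_nhds]
    have e6 := hfar0 x hx
    have hτc : (τ : ℂ) * τ = 1 := by exact_mod_cast hτ
    rw [hh']
    simp only
    rw [e5, mul_div_cancel_left₀ _ e6, ← mul_assoc, hτc, one_mul, sub_sub_cancel]
  -- the main step
  have step : ∀ a₁ : ℝ, b ≤ a₁ → (∀ x : ℝ, a₁ < x → g x ≠ 0) → ∃ φ : ℝ → ℂ,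
      (∀ x : ℝ, a₁ < x → HasDerivAt φ (h x) x) ∧ (∀ s > a₁, LInt F s) ∧
      ∀ s > a₁, lap F s = C' / (s - b) - τ * (φ s / (s : ℂ) ^ 2 - h s / s).re := by
    intro a₁ hba₁ hne
    have hha : ∀ x : ℝ, a₁ < x → AnalyticAt ℂ h x := fun x hx => by
      have e1 := hg x (by linarith)
      have e2 := hp x (by linarith)
      exact e2.deriv.sub (analyticAt_const.mul (e1.deriv.div e1 (hne x hx)))
    set x₃ : ℝ := max x₂ a₁ + 1 with hx₃
    have hx₃a : a₁ < x₃ := by have := le_max_right x₂ a₁; linarith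
    have hx₃2 : x₂ < x₃ := by have := le_max_left x₂ a₁; linarith
    obtain ⟨φ, hφ0, hφd, hφa⟩ := real_prim hha hx₃a (f₀ lam c α x₃)
    have hφf : ∀ x : ℝ, max x₂ a₁ < x → φ x = f₀ lam c α x := by
      have hdd : ∀ x ∈ Ioi (max x₂ a₁), HasDerivAt (fun t : ℝ => φ t - f₀ lam c α t) 0 x := by
        intro x hx
        have e1 : x₂ < x := (le_max_left _ _).trans_lt hx
        have e2 : a₁ < x := (le_max_right _ _).trans_lt hx
        have e3 := (hφd x e2).sub (hf₀d x e1).comp_ofReal
        rwa [hfar1 x e1, sub_self] at e3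
      intro x hx
      have hx3' : x₃ ∈ Ioi (max x₂ a₁) := by
        rw [Set.mem_Ioi, hx₃]
        linarith
      have e1 : φ x - f₀ lam c α x = φ x₃ - f₀ lam c α x₃ := by
        refine (convex_Ioi (max x₂ a₁)).is_const_of_fderivWithin_eq_zero (𝕜 := ℝ)
          (f := fun t : ℝ => φ t - f₀ lam c α t)
          (fun z hz => (hdd z hz).differentiableAt.differentiableWithinAt) (fun z hz => ?_) hx hx3'
        rw [fderivWithin_of_isOpen isOpen_Ioi hz]
        ext
        simp [(hdd z hz).deriv]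
      rw [hφ0, sub_self] at e1
      exact sub_eq_zero.1 e1
    refine ⟨φ, hφd, ?_⟩
    refine Pool.Agent.TH988.RB.landau_lap hFm hF0 (w1 := max x₂ a₁)
      (g := fun s => C' / (s - b) - τ * (φ s / (s : ℂ) ^ 2 - h s / s).re) (fun s hs => ?_)
      (fun s hs => ?_) (fun s hs _ => ?_)
    · have e1 : b < s := lt_of_le_of_lt (hba₁.trans (le_max_right _ _)) hs
      have e2 : x₀ < s := lt_of_le_of_lt (hx₂0.trans (le_max_left _ _)) hs
      exact ((exp_L' e1).1.const_mul C').sub ((hmI s e2).const_mul τ)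
    · have hs' : a₁ < s := hs
      have e1 : AnalyticAt ℝ (fun s : ℝ => C' / (s - b)) s :=
        analyticAt_const.div (analyticAt_id.sub analyticAt_const) (by
          have : 0 < s - b := by linarith
          exact this.ne')
      have hsc : (s : ℂ) ≠ 0 := by
        have : 0 < s := by linarith
        exact_mod_cast this.ne'
      have e2 : AnalyticAt ℝ (fun s : ℝ => φ s / (s : ℂ) ^ 2 - h s / s) s := by
        have e3 : AnalyticAt ℝ (fun s : ℝ => (s : ℂ)) s := Complex.ofRealCLM.analyticAt s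
        exact ((hφa s hs').div (e3.pow 2) (pow_ne_zero 2 hsc)).sub ((real_an (hha s hs')).div e3 hsc)
      exact e1.sub (analyticAt_const.mul (re_an e2))
    · have e1 : b < s := lt_of_le_of_lt (hba₁.trans (le_max_right _ _)) hs
      have e2 : x₀ < s := lt_of_le_of_lt (hx₂0.trans (le_max_left _ _)) hs
      have e3 : x₂ < s := (le_max_left _ _).trans_lt hs
      have e4 := Pool.Agent.W263.BSD.lap_sub ((exp_L' e1).1.const_mul C') ((hmI s e2).const_mul τ)
      rw [hF, e4, Pool.Agent.W263.BSD.lap_const_mul, Pool.Agent.W263.BSD.lap_const_mul,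
        (exp_L' e1).2, hmL s e2, hφf s hs, hfar1 s e3]
      unfold hh
      ring
  -- there are no zeros
  have hnz : ∀ x : ℝ, b < x → g x ≠ 0 := by
    intro z hz hgz
    have hzx₂ : z ≤ x₂ := by
      by_contra hcon
      exact hfar0 z (not_le.1 hcon) hgz
    set Z : Set ℝ := Icc z x₂ ∩ {x : ℝ | g x = 0} with hZ
    have hgc : ContinuousOn (fun x : ℝ => g x) (Icc z x₂) := fun x hx =>
      (ContinuousAt.comp (f := fun t : ℝ => (t : ℂ)) (hg x (by have := hx.1; linarith)).continuousAt
        Complex.continuous_ofReal.continuousAt).continuousWithinAt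
    have hZc : IsClosed Z := by
      have := hgc.preimage_isClosed_of_isClosed isClosed_Icc (isClosed_singleton (x := (0 : ℂ)))
      exact this
    have hZk : IsCompact Z := isCompact_Icc.of_isClosed_subset hZc inter_subset_left
    obtain ⟨z₁, hz₁, hmax⟩ := hZk.exists_isMaxOn ⟨z, ⟨le_rfl, hzx₂⟩, hgz⟩
      (f := fun x : ℝ => x) continuousOn_id
    have hbz₁ : b < z₁ := lt_of_lt_of_le hz hz₁.1.1
    have hgz₁ : g z₁ = 0 := hz₁.2
    have hne : ∀ x : ℝ, z₁ < x → g x ≠ 0 := by
      intro x hx h0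
      by_cases hx2 : x ≤ x₂
      · have : x ≤ z₁ := hmax ⟨⟨hz₁.1.1.trans hx.le, hx2⟩, h0⟩
        linarith
      · exact hfar0 x (not_le.1 hx2) h0
    obtain ⟨φ, hφd, -, hlap⟩ := step z₁ hbz₁.le hne
    have hnev : ¬ ∀ᶠ w in 𝓝 (z₁ : ℂ), g w = 0 := by
      intro hev
      have e1 : ∀ᶠ x : ℝ in 𝓝 z₁, g x = 0 := Complex.continuous_ofReal.continuousAt.eventually hev
      obtain ⟨r, hr, hrb⟩ := Metric.eventually_nhds_iff.1 e1
      have e2 := hrb (y := z₁ + r / 2) (by
        rw [Real.dist_eq, add_sub_cancel_left, abs_of_pos (by linarith)]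
        linarith)
      exact hne _ (by linarith) e2
    obtain ⟨n, B, hn, hB⟩ := logderiv_near (hg z₁ (by linarith)) hgz₁ hnev
    have hpb : ∀ᶠ w in 𝓝 (z₁ : ℂ), ‖deriv p w‖ < ‖deriv p z₁‖ + 1 :=
      ((hp z₁ (by linarith)).deriv.continuousAt.norm).eventually (gt_mem_nhds (by linarith))
    have hev : ∀ᶠ x : ℝ in 𝓝 z₁, ((x : ℂ) ≠ z₁ → ‖deriv g x / g x - n / ((x : ℂ) - z₁)‖ ≤ B) ∧
        ‖deriv p x‖ < ‖deriv p z₁‖ + 1 :=
      Complex.continuous_ofReal.continuousAt.eventually (hB.and hpb)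
    obtain ⟨r, hr, hrb⟩ := Metric.eventually_nhds_iff.1 hev
    set B' : ℝ := |B| + ‖deriv p z₁‖ + 1 with hB'
    have hB'0 : 0 ≤ B' := by positivity
    -- the bound for `h`
    have hhb : ∀ x : ℝ, z₁ < x → x < z₁ + r → τ * (h x).re ≤ B' - n / (x - z₁) := by
      intro x hx1 hx2
      obtain ⟨e1, e2⟩ := hrb (y := x) (by
        rw [Real.dist_eq, abs_of_pos (by linarith)]
        linarith)
      have e3 := e1 (by
        intro hcon
        have : x = z₁ := by exact_mod_cast hcon
        linarith)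
      have e4 : (deriv g x / g x).re = n / (x - z₁) +
          (deriv g x / g x - n / ((x : ℂ) - z₁)).re := by
        have : ((n : ℂ) / ((x : ℂ) - z₁)).re = n / (x - z₁) := by
          have : ((n : ℂ) / ((x : ℂ) - z₁)) = ((n / (x - z₁) : ℝ) : ℂ) := by push_cast; rfl
          rw [this, Complex.ofReal_re]
        rw [Complex.sub_re, this]
        ring
      have e5 := (abs_le.1 ((Complex.abs_re_le_norm _).trans e3)).1
      have e6 : |τ * (deriv p x).re| ≤ ‖deriv p x‖ := by
        rw [abs_mul, hτ1, one_mul]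
        exact Complex.abs_re_le_norm _
      have e7 := (le_abs_self _).trans e6
      have e8 : τ * (h x).re = τ * (deriv p x).re - (deriv g x / g x).re := by
        rw [hh']
        simp only
        rw [Complex.sub_re, Complex.re_ofReal_mul, mul_sub, ← mul_assoc, hτ, one_mul]
      rw [e8, e4, hB']
      have := le_abs_self B
      linarith
    -- the bound for `φ`
    set w₂ : ℝ := z₁ + r / 2 with hw₂
    have hw₂1 : z₁ < w₂ := by linarith
    set R : ℝ → ℝ := fun x => τ * (φ x).re with hR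
    have hRd : ∀ x : ℝ, z₁ < x → HasDerivAt R (τ * (h x).re) x := fun x hx => by
      have e1 : HasDerivAt (fun t => (φ t).re) (h x).re x := by
        exact Complex.reCLM.hasFDerivAt.comp_hasDerivAt x (hφd x hx)
      exact e1.const_mul τ
    have hRb : ∀ x : ℝ, z₁ < x → x ≤ w₂ → R w₂ - B' * r ≤ R x := by
      intro x hx1 hx2
      have hsub : Icc x w₂ ⊆ Ioi z₁ := fun t ht => lt_of_lt_of_le hx1 ht.1
      have e1 := (convex_Icc x w₂).image_sub_le_mul_sub_of_deriv_le (f := R) (C := B')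
        (fun t ht => (hRd t (hsub ht)).continuousAt.continuousWithinAt)
        (fun t ht => by
          rw [interior_Icc] at ht
          exact (hRd t (hsub (Ioo_subset_Icc_self ht))).differentiableAt.differentiableWithinAt)
        (fun t ht => by
          rw [interior_Icc] at ht
          have e2 : z₁ < t := hsub (Ioo_subset_Icc_self ht)
          rw [(hRd t e2).deriv]
          have e3 := hhb t e2 (by have := ht.2; linarith)
          have e4 : 0 ≤ (n : ℝ) / (t - z₁) := div_nonneg (Nat.cast_nonneg n) (by linarith)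
          linarith) x (left_mem_Icc.2 hx2) w₂ (right_mem_Icc.2 hx2) hx2
      have e2 : B' * (w₂ - x) ≤ B' * r := mul_le_mul_of_nonneg_left (by linarith) hB'0
      linarith
    -- contradiction
    set Q : ℝ := C' / (z₁ - b) + |R w₂ - B' * r| / z₁ ^ 2 with hQ
    have hz₁0 : 0 < z₁ := by linarith
    have hQ0 : 0 ≤ Q := by
      have : 0 < z₁ - b := by linarith
      positivity
    set η : ℝ := min (r / 2) (1 / (2 * (B' + w₂ * (Q + 1)))) with hη
    have hden : 0 < 2 * (B' + w₂ * (Q + 1)) := by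
      have : 0 < w₂ := by linarith
      positivity
    have hη0 : 0 < η := lt_min (by linarith) (by positivity)
    have hηr : η ≤ r / 2 := min_le_left _ _
    have hη1 : η ≤ 1 / (2 * (B' + w₂ * (Q + 1))) := min_le_right _ _
    set x : ℝ := z₁ + η with hx
    have hxz : z₁ < x := by linarith
    have hxw : x ≤ w₂ := by linarith
    have hx0 : 0 < x := by linarith
    have f1 := Pool.Agent.W263.BSD.lap_nonneg hF0 x
    rw [hlap x hxz] at f1
    have f2 : τ * (φ x / (x : ℂ) ^ 2 - h x / x).re = R x / x ^ 2 - τ * (h x).re / x := by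
      rw [Complex.sub_re]
      have g1 : (φ x / (x : ℂ) ^ 2).re = (φ x).re / x ^ 2 := by
        have : (x : ℂ) ^ 2 = ((x ^ 2 : ℝ) : ℂ) := by push_cast; rfl
        rw [this, Complex.div_ofReal_re]
      have g2 : (h x / (x : ℂ)).re = (h x).re / x := Complex.div_ofReal_re _ _
      rw [g1, g2, hR]
      ring
    rw [f2] at f1
    have f3 := hRb x hxz hxw
    have f4 := hhb x hxz (by linarith)
    have f5 : (n : ℝ) / (x - z₁) ≥ 2 * (B' + w₂ * (Q + 1)) := by
      have g1 : x - z₁ = η := by rw [hx]; ring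
      rw [g1, ge_iff_le, le_div_iff₀ hη0]
      have g2 : η * (2 * (B' + w₂ * (Q + 1))) ≤ 1 := by
        rwa [le_div_iff₀ hden] at hη1
      have g3 : (1 : ℝ) ≤ n := by exact_mod_cast hn
      linarith
    have hw₂0 : 0 < w₂ := by linarith
    have f6 : τ * (h x).re ≤ -(w₂ * (Q + 1)) := by
      have : 0 ≤ w₂ * (Q + 1) := by positivity
      linarith
    have f7 : τ * (h x).re / x ≤ -(Q + 1) := by
      rw [div_le_iff₀ hx0]
      have g1 : x * (Q + 1) ≤ w₂ * (Q + 1) := mul_le_mul_of_nonneg_right hxw (by linarith)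
      linarith
    have f8 : -(|R w₂ - B' * r| / z₁ ^ 2) ≤ R x / x ^ 2 := by
      have g1 : -|R w₂ - B' * r| ≤ R x := (neg_abs_le _).trans f3
      have g2 : -|R w₂ - B' * r| / x ^ 2 ≤ R x / x ^ 2 := div_le_div_of_nonneg_right g1 (by positivity)
      have g3 : |R w₂ - B' * r| / x ^ 2 ≤ |R w₂ - B' * r| / z₁ ^ 2 :=
        div_le_div_of_nonneg_left (abs_nonneg _) (by positivity)
          (pow_le_pow_left₀ hz₁0.le hxz.le 2)
      rw [neg_div] at g2
      linarith
    have f9 : C' / (x - b) ≤ C' / (z₁ - b) :=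
      div_le_div_of_nonneg_left hC'0 (by linarith) (by linarith)
    rw [hQ] at f7
    linarith
  obtain ⟨φ, -, hLF, -⟩ := step b le_rfl hnz
  have h3 := ((exp_L' hbw).1.const_mul C').sub (hLF w hbw)
  have h4 := h3.const_mul τ
  have h5 : (fun u => τ * (C' * Real.exp (b * u) - F u)) = m := by
    funext u
    rw [hF]
    simp only
    rw [sub_sub_cancel, ← mul_assoc, hτ, one_mul]
  rwa [h5] at h4

end Pool.Agent.R791.Land
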