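import Pool.Agent.R791.Land2

/-!
# Landau's theorem for the sectorial sums of an Euler product
-/

set_option autoImplicit false

open MeasureTheory Filter Topology Set Complex
open Pool.Agent.TH942.LS (Dat P P_le Cont)
open Pool.Agent.TH942.SL Pool.Agent.TH942.ES Pool.Agent.R791.SectGen Pool.Agent.R791.Level
open Pool.Agent.W263.BSD (LInt lap lapC)

namespace Pool.Agent.R791.Land

section Vplane

variable {α : ℝ} {lam c : ℕ → ℝ} {δ σ : ℝ}

/-- **the continuation in the variable `v` to the half plane `Re v > a`** from a one-sided bound -/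
theorem ext_one (D : Dat lam c δ σ) (h0 : 0 < α) (h1 : α < 1) {a : ℝ} (ha : 0 ≤ a) {τ : ℝ}
    (hτ : τ * τ = 1)
    (hM : ∀ ε : ℝ, 0 < ε → ∃ C y₀ : ℝ, ∀ y, y₀ ≤ y →
      τ * M lam c α y ≤ C * Real.exp ((a + ε) * y))
    {q p : ℂ → ℂ} (hq : ∀ x : ℝ, a < x → AnalyticAt ℂ q x) (hp : ∀ x : ℝ, a < x → AnalyticAt ℂ p x)
    {x₂ : ℝ} (hfar : ∀ v : ℂ, x₂ < v.re → q v = exp (τ * (p v - f₀ lam c α v))) :
    ∃ (fh : ℂ → ℂ) (x₁ : ℝ), (∀ v : ℂ, a < v.re → DifferentiableAt ℂ fh v) ∧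
      ∀ v : ℂ, x₁ < v.re → fh v = f₀ lam c α v := by
  obtain ⟨x₀', hx1', hx₀'⟩ := exists_abscissa h0 h1 σ
  set x₀ : ℝ := max x₀' a with hx₀def
  have hx1 : 1 ≤ x₀ := hx1'.trans (le_max_left _ _)
  have hax : a ≤ x₀ := le_max_right _ _
  have hx₀ : ∀ z : ℂ, 0 < z.re → x₀ ≤ ‖z‖ → σ + 1 ≤ kap α * ‖z‖ ^ α := fun z hz h =>
    hx₀' z hz ((le_max_left _ _).trans h)
  obtain ⟨g, K, hK, hgc, hneg, hgpos, hgb, hinv⟩ := lines D h0 h1 hx1 hx₀
  have hx00 : 0 < x₀ := by linarith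
  set m : ℝ → ℝ := fun y => (g y).re with hm
  have hmc : Continuous m := Complex.continuous_re.comp hgc
  have hm0 : ∀ y, 0 < y → m y = y * M lam c α y := fun y hy => by
    rw [hm]
    simp only
    rw [hgpos y hy, Complex.ofReal_re]
  have hmg : ∀ y, 0 < y → (m y : ℂ) = g y := fun y hy => by
    rw [hm0 y hy, hgpos y hy]
  have hmb : ∀ y, |m y| ≤ K * Real.exp (x₀ * y) := fun y =>
    (Complex.abs_re_le_norm _).trans (hgb y)
  set U : Set ℂ := {v | a < v.re} with hU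
  have hUo : IsOpen U := isOpen_lt continuous_const Complex.continuous_re
  have hUc : Convex ℝ U := convex_halfSpace_re_gt a
  set W : Set ℂ := {v | x₀ < v.re} with hW
  have hWo : IsOpen W := isOpen_lt continuous_const Complex.continuous_re
  have hWc : Convex ℝ W := convex_halfSpace_re_gt x₀
  have hWU : W ⊆ U := fun v hv => lt_of_le_of_lt hax hv
  have hUpos : ∀ v ∈ U, 0 < v.re := fun v hv => lt_of_le_of_lt ha hv
  have hGW : ∀ v ∈ W, lapC m v = hh (f₀ lam c α) (f₁ lam c α) v := by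
    intro v hv
    have e1 := hinv v.re hv v.im
    rw [Complex.re_add_im] at e1
    rw [← e1]
    unfold Pool.Agent.W263.BSD.lapC
    rw [← integral_indicator measurableSet_Ioi]
    refine integral_congr_ae ?_
    have e2 : ∀ᵐ y : ℝ, y ≠ 0 := by
      rw [ae_iff]
      simp
    filter_upwards [e2] with y hy
    by_cases hy2 : y ∈ Ioi (0 : ℝ)
    · rw [indicator_of_mem hy2, hmg y hy2, mul_comm]
    · rw [indicator_of_notMem hy2]
      have : y < 0 := lt_of_le_of_ne (not_lt.1 hy2) hy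
      rw [hneg y this, mul_zero]
  have hmL : ∀ w : ℝ, x₀ < w → lap m w = (hh (f₀ lam c α) (f₁ lam c α) w).re := by
    intro w hw
    rw [← hGW (w : ℂ) (by rw [hW]; change x₀ < (w : ℂ).re; rwa [Complex.ofReal_re]),
      Pool.Agent.W263.BSD.lapC_ofReal, Complex.ofReal_re]
  have hL : ∀ w > a, LInt m w := fun w hw =>
    conv D h0 h1 ha hτ hx1 hx₀ hmc hm0 hK hmb hmL hM hq hp hfar hw
  have hGd : DifferentiableOn ℂ (lapC m) U := fun v hv =>
    (Pool.Agent.W263.BSD.lapC_differentiableAt hmc.measurable hL hv).differentiableWithinAt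
  -- a primitive
  obtain ⟨GG, hGG⟩ := convex_primitive hUo hUc hGd
  have hWx : ∀ v ∈ W, 0 < v.re ∧ σ + 1 ≤ kap α * ‖v‖ ^ α ∧ σ < (v ^ (α : ℂ)).re := by
    intro v hv
    have e1 : 0 < v.re := hUpos v (hWU hv)
    have hv' : x₀ < v.re := hv
    have e2 : x₀ ≤ ‖v‖ := hv'.le.trans (re_le_norm v)
    have e3 := hx₀ v e1 e2
    have e4 := re_pow_ge h0 h1 e1
    exact ⟨e1, e3, by linarith⟩
  set w₀ : ℂ := ((x₀ + 1 : ℝ) : ℂ) with hw₀
  have hw₀W : w₀ ∈ W := by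
    change x₀ < w₀.re
    rw [hw₀, Complex.ofReal_re]
    linarith
  set k : ℂ := f₀ lam c α w₀ / w₀ + GG w₀ with hk
  have hconst : ∀ v ∈ W, f₀ lam c α v / v + GG v = k := by
    have hd : ∀ v ∈ W, HasDerivAt (fun v => f₀ lam c α v / v + GG v) 0 v := by
      intro v hv
      obtain ⟨e1, e2, e3⟩ := hWx v hv
      have e4 := (f₀_deriv D e1 e3).div (hasDerivAt_id v) (ne_zero' e1)
      refine (e4.add (hGG v (hWU hv))).congr_deriv ?_
      rw [hGW v hv]
      have := ne_zero' e1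
      simp only [hh, id]
      field_simp
      ring
    intro v hv
    refine hWc.is_const_of_fderivWithin_eq_zero (𝕜 := ℂ)
      (fun z hz => (hd z hz).differentiableAt.differentiableWithinAt) (fun z hz => ?_) hv hw₀W
    rw [fderivWithin_of_isOpen hWo hz]
    ext
    simp [(hd z hz).deriv]
  refine ⟨fun v => v * (k - GG v), x₀, fun v hv => ?_, fun v hv => ?_⟩
  · exact differentiableAt_id.mul ((differentiableAt_const k).sub (hGG v hv).differentiableAt)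
  · have e1 := ne_zero' (hWx v hv).1
    simp only
    rw [← hconst v hv]
    field_simp
    ring

end Vplane

section Splane

variable {X : Type} {d : ℕ} {N : X → ℕ} {α : X → Fin d → ℂ}
variable (E : Sys N α)
include E

/-- from the variable `v` to the variable `s` -/
theorem cont_of_fh {e : X → ℕ} (he : Function.Injective e) {ρ : ℝ} (hρ : 1 < ρ) {a : ℝ} (ha : 0 ≤ a)
    {fh : ℂ → ℂ} {x₁ : ℝ} (hfd : ∀ v : ℂ, a < v.re → DifferentiableAt ℂ fh v)
    (hfe : ∀ v : ℂ, x₁ < v.re → fh v = f₀ (lamN N e) (cN N α e) ρ⁻¹ v) :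
    ∃ G : ℂ → ℂ, (∀ s : ℂ, s ∈ Lv ρ a ∨ 1 / 2 < s.re → DifferentiableAt ℂ G s ∧ G s ≠ 0) ∧
      (∀ s : ℂ, 1 / 2 < s.re → G s = LE N α s) := by
  have hρ0 : 0 < ρ := by linarith
  have h0 : 0 < ρ⁻¹ := by positivity
  have h1ρ : ρ⁻¹ < 1 := inv_lt_one_of_one_lt₀ hρ
  have hUo : IsOpen {v : ℂ | a < v.re} := isOpen_lt continuous_const Complex.continuous_re
  have hfa : ∀ v : ℂ, a < v.re → AnalyticAt ℂ fh v := fun v hv => by
    have h2 : DifferentiableOn ℂ fh {v : ℂ | a < v.re} := fun z hz =>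
      (hfd z hz).differentiableWithinAt
    exact h2.analyticAt (hUo.mem_nhds hv)
  set Dh : ℂ → ℂ := fun s => fh (s ^ (ρ : ℂ)) with hDh
  have hDd : ∀ s ∈ Lv ρ a, DifferentiableAt ℂ Dh s := fun s hs =>
    DifferentiableAt.comp (f := fun s : ℂ => s ^ (ρ : ℂ)) s (hfd _ hs.2)
      (differentiableAt_id.cpow_const (slit (sect_re hρ hs.1)))
  -- the equality to the right of `1/2`
  have hDE : ∀ s ∈ Lv ρ a, 1 / 2 < s.re → Dh s = DE N α s := by
    intro s hs hs2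
    obtain ⟨hv0, hvs⟩ := exists_root hρ hs.1.1 hs.1.2
    have key : fh (s ^ (ρ : ℂ)) = (fun w => DE N α (w ^ ((ρ⁻¹ : ℝ) : ℂ))) (s ^ (ρ : ℂ)) := by
      refine ray_eq (fun x hx => hfa _ ?_) (fun x hx => DE_pow_an E ?_ ?_) (x₁ := x₁) fun w hw => ?_
      · rw [Complex.add_re, Complex.ofReal_re]
        have := hs.2
        linarith
      · rw [Complex.add_re, Complex.ofReal_re]
        linarith
      · refine lt_of_lt_of_le ?_ (re_pow_mono h0 h1ρ hv0 hx)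
        rw [hvs]
        exact hs2
      · rw [hfe w hw]
        unfold f₀
        exact Sys.DD_eq he _
    rw [hDh]
    simp only
    rw [key]
    simp only
    rw [hvs]
  set G : ℂ → ℂ := fun s => if 1 / 2 < s.re then LE N α s else exp (GG N α s - Dh s) with hG
  have hG1 : ∀ s : ℂ, 1 / 2 < s.re → G s = LE N α s := fun s hs => by
    rw [hG]
    simp only
    rw [if_pos hs]
  have hG2 : ∀ s ∈ Lv ρ a, G s = exp (GG N α s - Dh s) := fun s hs => by
    by_cases h2 : 1 / 2 < s.re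
    · rw [hG1 s h2, E.LE_eq h2, hDE s hs h2]
    · rw [hG]
      simp only
      rw [if_neg h2]
  refine ⟨G, fun s hs => ?_, hG1⟩
  rcases hs with hs | hs
  · constructor
    · refine DifferentiableAt.congr_of_eventuallyEq (f := fun s => exp (GG N α s - Dh s)) ?_ ?_
      · exact ((E.GG_diff (sect_re hρ hs.1)).sub (hDd s hs)).cexp
      · filter_upwards [(lv_open hρ a).mem_nhds hs] with z hz
        exact hG2 z hz
    · rw [hG2 s hs]
      exact Complex.exp_ne_zero _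
  · have ho : IsOpen {z : ℂ | 1 / 2 < z.re} := isOpen_lt continuous_const Complex.continuous_re
    obtain ⟨e1, e2⟩ := E.LE_diff hs
    refine ⟨e1.congr_of_eventuallyEq ?_, by rw [hG1 s hs]; exact e2⟩
    filter_upwards [ho.mem_nhds hs] with z hz
    exact hG1 z hz

omit E in
/-- the one-sided growth bound with exponent `a` -/
def One (N : X → ℕ) (α : X → Fin d → ℂ) (τ ρ ρ' a : ℝ) : Prop :=
  ∀ ε : ℝ, 0 < ε → ∃ C : ℝ, ∀ᶠ Y : ℝ in atTop,
    τ * SrE N α ρ ρ' Y ≤ C * Real.exp ((a + ε) * Real.log Y ^ ρ)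

omit E in
theorem one_of_grow {τ ρ ρ' a : ℝ} (hτ : τ * τ = 1) (h : Grow N α ρ ρ' a) : One N α τ ρ ρ' a := by
  intro ε hε
  obtain ⟨C, hC⟩ := h ε hε
  have hτ1 : |τ| = 1 := by
    have : |τ| * |τ| = 1 := by rw [← abs_mul, hτ, abs_one]
    nlinarith [abs_nonneg τ]
  refine ⟨C, ?_⟩
  filter_upwards [hC] with Y hY
  refine (le_abs_self _).trans ?_
  rw [abs_mul, hτ1, one_mul]
  exact hY

/-- **Landau's theorem for the sectorial sums.** `H` continues `L ^ (±1)` along the real axis. -/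
theorem cont_one {ρ ρ' : ℝ} (hρ : 1 < ρ) (hρ' : ρ < ρ') {a : ℝ} (ha : 0 ≤ a) {τ : ℝ}
    (hτ : τ * τ = 1) (h : One N α τ ρ ρ' a) {H : ℂ → ℂ}
    (hH : ∀ x : ℝ, a ^ ρ⁻¹ < x → AnalyticAt ℂ H x)
    (hHe : ∀ s : ℂ, 1 / 2 < s.re → H s = exp (τ * (GG N α s - DE N α s))) :
    ∃ G : ℂ → ℂ, (∀ s : ℂ, s ∈ Lv ρ a ∨ 1 / 2 < s.re → DifferentiableAt ℂ G s ∧ G s ≠ 0) ∧
      (∀ s : ℂ, 1 / 2 < s.re → G s = LE N α s) := by
  have := E.cnt
  obtain ⟨e, he⟩ := Countable.exists_injective_nat X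
  have hρ0 : 0 < ρ := by linarith
  have h0 : 0 < ρ⁻¹ := by positivity
  have h1ρ : ρ⁻¹ < 1 := inv_lt_one_of_one_lt₀ hρ
  obtain ⟨C₁, hC₁, h1⟩ := E.Sr_close he hρ hρ'
  have h1' := (Sys.tendsto_exp_rpow hρ).eventually h1
  have hτ1 : |τ| = 1 := by
    have : |τ| * |τ| = 1 := by rw [← abs_mul, hτ, abs_one]
    nlinarith [abs_nonneg τ]
  obtain ⟨x₃, hx31, hx₃⟩ := exists_abscissa h0 h1ρ 1
  have hpow : ∀ x : ℝ, a < x → 0 < x ∧ ((x : ℂ) ^ ((ρ⁻¹ : ℝ) : ℂ)) = ((x ^ ρ⁻¹ : ℝ) : ℂ) :=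
    fun x hx => ⟨by linarith, by rw [Complex.ofReal_cpow (by linarith)]⟩
  have hpa : ∀ x : ℝ, a < x → AnalyticAt ℂ (fun v : ℂ => v ^ ((ρ⁻¹ : ℝ) : ℂ)) x := fun x hx =>
    analyticAt_id.cpow analyticAt_const (slit (by
      have := (hpow x hx).1
      simpa using this))
  obtain ⟨fh, x₁, hfd, hfe⟩ := ext_one (E.dat he) h0 h1ρ ha hτ (fun ε hε => by
    obtain ⟨C, hC⟩ := h ε hε
    have hC' := (Sys.tendsto_exp_rpow hρ).eventually hC
    obtain ⟨y₀, hy₀⟩ := (h1'.and (hC'.and (eventually_ge_atTop 0))).exists_forall_of_atTop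
    refine ⟨|C| + C₁, y₀, fun y hy => ?_⟩
    obtain ⟨e1, e2, e3⟩ := hy₀ y hy
    rw [Sys.pow_log hρ e3] at e1 e2
    have e4 : 1 ≤ Real.exp ((a + ε) * y) := Real.one_le_exp (by positivity)
    have e5 : C * Real.exp ((a + ε) * y) ≤ |C| * Real.exp ((a + ε) * y) :=
      mul_le_mul_of_nonneg_right (le_abs_self C) (Real.exp_pos _).le
    have e6 : C₁ ≤ C₁ * Real.exp ((a + ε) * y) := le_mul_of_one_le_right hC₁ e4
    have e7 : τ * M (lamN N e) (cN N α e) ρ⁻¹ y - τ * SrE N α ρ ρ' (Real.exp (y ^ ρ⁻¹)) ≤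
        |SrE N α ρ ρ' (Real.exp (y ^ ρ⁻¹)) - M (lamN N e) (cN N α e) ρ⁻¹ y| := by
      rw [← mul_sub, abs_sub_comm]
      refine (le_abs_self _).trans ?_
      rw [abs_mul, hτ1, one_mul]
    rw [add_mul]
    linarith) (q := fun v => H (v ^ ((ρ⁻¹ : ℝ) : ℂ))) (p := fun v => GG N α (v ^ ((ρ⁻¹ : ℝ) : ℂ)))
    (fun x hx => by
      have e1 : AnalyticAt ℂ H ((x : ℂ) ^ ((ρ⁻¹ : ℝ) : ℂ)) := by
        rw [(hpow x hx).2]
        exact hH _ (Real.rpow_lt_rpow ha hx h0)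
      exact AnalyticAt.comp (g := H) (f := fun v : ℂ => v ^ ((ρ⁻¹ : ℝ) : ℂ)) e1 (hpa x hx))
    (fun x hx => by
      have e1 : AnalyticAt ℂ (GG N α) ((x : ℂ) ^ ((ρ⁻¹ : ℝ) : ℂ)) := by
        rw [(hpow x hx).2]
        have e2 : DifferentiableOn ℂ (GG N α) {s : ℂ | 0 < s.re} := fun z hz =>
          (E.GG_diff hz).differentiableWithinAt
        refine e2.analyticAt ((isOpen_lt continuous_const Complex.continuous_re).mem_nhds ?_)
        change 0 < (((x ^ ρ⁻¹ : ℝ) : ℂ)).re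
        rw [Complex.ofReal_re]
        exact Real.rpow_pos_of_pos (hpow x hx).1 _
      exact AnalyticAt.comp (g := GG N α) (f := fun v : ℂ => v ^ ((ρ⁻¹ : ℝ) : ℂ)) e1 (hpa x hx))
    (x₂ := x₃) (fun v hv => by
      have e1 : 0 < v.re := by linarith
      have e2 := hx₃ v e1 (hv.le.trans (re_le_norm v))
      have e3 := re_pow_ge h0 h1ρ e1
      have e4 : 1 / 2 < (v ^ ((ρ⁻¹ : ℝ) : ℂ)).re := by linarith
      rw [hHe _ e4]
      unfold f₀
      rw [Sys.DD_eq he]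
      rfl)
  exact cont_of_fh E he hρ ha hfd hfe

end Splane

end Pool.Agent.R791.Land
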