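import Pool.Agent.R791.Land3

/-!
# One-sided bounds and continuation along the real axis: the equivalences
-/

set_option autoImplicit false

open MeasureTheory Filter Topology Set Complex
open Pool.Agent.TH942.SL Pool.Agent.TH942.ES Pool.Agent.R791.SectGen Pool.Agent.R791.Level

namespace Pool.Agent.R791.Land

variable {X : Type} {d : ℕ} {N : X → ℕ} {α : X → Fin d → ℂ}
variable (E : Sys N α)

/-- continuation of `L` along the real axis to the right of `c + t` -/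
def Axis (N : X → ℕ) (α : X → Fin d → ℂ) (c t : ℝ) : Prop :=
  ∃ G : ℂ → ℂ, (∀ x : ℝ, c + t < x → AnalyticAt ℂ G x) ∧
    ∀ s : ℂ, c + 1 / 2 < s.re → G s = LE N α (s - c)

/-- continuation of `1 / L` along the real axis to the right of `c + t` -/
def AxisInv (N : X → ℕ) (α : X → Fin d → ℂ) (c t : ℝ) : Prop :=
  ∃ G : ℂ → ℂ, (∀ x : ℝ, c + t < x → AnalyticAt ℂ G x) ∧
    ∀ s : ℂ, c + 1 / 2 < s.re → G s = (LE N α (s - c))⁻¹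

include E

theorem grow_of_axis {c : ℝ} {ρ ρ' : ℝ} (hρ : 1 < ρ) (hρ' : ρ < ρ') {a : ℝ} (ha : 0 ≤ a)
    (h : One N α 1 ρ ρ' a) (hA : Axis N α c (a ^ ρ⁻¹)) : Grow N α ρ ρ' a := by
  obtain ⟨G, hG1, hG2⟩ := hA
  have h1 := cont_one E hρ hρ' ha (one_mul 1) h (H := fun s => G (s + c)) (fun x hx => by
    have e1 : AnalyticAt ℂ G ((x : ℂ) + c) := by
      have := hG1 (x + c) (by linarith)
      rwa [Complex.ofReal_add] at this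
    exact AnalyticAt.comp (g := G) (f := fun s : ℂ => s + c) e1
      (analyticAt_id.add analyticAt_const)) (fun s hs => by
    have e1 := hG2 (s + c) (by rw [Complex.add_re, Complex.ofReal_re]; linarith)
    rw [add_sub_cancel_right] at e1
    rw [e1, E.LE_eq hs, Complex.ofReal_one, one_mul])
  obtain ⟨G', h2, h3⟩ := h1
  refine (lvl_iff E 0 hρ hρ' ha).2 ⟨G', fun s hs => h2 s ?_, fun s hs => ?_⟩
  · rcases hs with hs | hs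
    · left
      rw [mem_lvAt, Complex.ofReal_zero, sub_zero] at hs
      exact hs
    · right
      linarith
  · rw [Complex.ofReal_zero, sub_zero]
    exact h3 s (by linarith)

theorem grow_of_axisInv {c : ℝ} {ρ ρ' : ℝ} (hρ : 1 < ρ) (hρ' : ρ < ρ') {a : ℝ} (ha : 0 ≤ a)
    (h : One N α (-1) ρ ρ' a) (hA : AxisInv N α c (a ^ ρ⁻¹)) : Grow N α ρ ρ' a := by
  obtain ⟨G, hG1, hG2⟩ := hA
  have h1 := cont_one E hρ hρ' ha (by norm_num : (-1 : ℝ) * (-1) = 1) h (H := fun s => G (s + c))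
    (fun x hx => by
    have e1 : AnalyticAt ℂ G ((x : ℂ) + c) := by
      have := hG1 (x + c) (by linarith)
      rwa [Complex.ofReal_add] at this
    exact AnalyticAt.comp (g := G) (f := fun s : ℂ => s + c) e1
      (analyticAt_id.add analyticAt_const)) (fun s hs => by
    have e1 := hG2 (s + c) (by rw [Complex.add_re, Complex.ofReal_re]; linarith)
    rw [add_sub_cancel_right] at e1
    rw [e1, E.LE_eq hs, ← Complex.exp_neg]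
    congr 1
    push_cast
    ring)
  obtain ⟨G', h2, h3⟩ := h1
  refine (lvl_iff E 0 hρ hρ' ha).2 ⟨G', fun s hs => h2 s ?_, fun s hs => ?_⟩
  · rcases hs with hs | hs
    · left
      rw [mem_lvAt, Complex.ofReal_zero, sub_zero] at hs
      exact hs
    · right
      linarith
  · rw [Complex.ofReal_zero, sub_zero]
    exact h3 s (by linarith)

omit E in
theorem real_mem_lvAt {c ρ a x : ℝ} (hρ : 1 < ρ) (ha : 0 ≤ a) (hx : c + a ^ ρ⁻¹ < x) :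
    (x : ℂ) ∈ LvAt c ρ a := by
  have hρ0 : 0 < ρ := by linarith
  have h1 : 0 ≤ a ^ ρ⁻¹ := Real.rpow_nonneg ha _
  have h2 : 0 < x - c := by linarith
  rw [mem_lvAt, ← Complex.ofReal_sub]
  refine ⟨⟨by exact_mod_cast h2.ne', ?_⟩, ?_⟩
  · rw [Complex.arg_ofReal_of_nonneg h2.le, abs_zero]
    have := Real.pi_pos
    positivity
  · rw [← Complex.ofReal_cpow h2.le, Complex.ofReal_re]
    calc a = (a ^ ρ⁻¹) ^ ρ := by rw [← Real.rpow_mul ha, inv_mul_cancel₀ hρ0.ne', Real.rpow_one]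
      _ < (x - c) ^ ρ := Real.rpow_lt_rpow h1 (by linarith) hρ0

omit E in
theorem lvAt_open {c ρ a : ℝ} (hρ : 1 < ρ) : IsOpen (LvAt c ρ a) := by
  have h1 : LvAt c ρ a = (fun s : ℂ => s - c) ⁻¹' Lv ρ a := by
    ext s
    rw [mem_lvAt]
    rfl
  rw [h1]
  exact (lv_open hρ a).preimage (by fun_prop)

/-- **Levels.** -/
theorem seg_tfae (c : ℝ) {ρ ρ' : ℝ} (hρ : 1 < ρ) (hρ' : ρ < ρ') {a : ℝ} (ha : 0 ≤ a) : List.TFAE [
    ∃ G : ℂ → ℂ,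
      (∀ s : ℂ, s ∈ LvAt c ρ a ∨ c + 1 / 2 < s.re → DifferentiableAt ℂ G s ∧ G s ≠ 0) ∧
      ∀ s : ℂ, c + 1 / 2 < s.re → G s = LE N α (s - c),
    Axis N α c (a ^ ρ⁻¹) ∧ One N α 1 ρ ρ' a,
    AxisInv N α c (a ^ ρ⁻¹) ∧ One N α (-1) ρ ρ' a] := by
  have key : ∀ G : ℂ → ℂ, (∀ s : ℂ, s ∈ LvAt c ρ a ∨ c + 1 / 2 < s.re →
      DifferentiableAt ℂ G s ∧ G s ≠ 0) → ∀ x : ℝ, c + a ^ ρ⁻¹ < x → AnalyticAt ℂ G x := by
    intro G hG x hx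
    have h1 : DifferentiableOn ℂ G (LvAt c ρ a) := fun s hs =>
      (hG s (Or.inl hs)).1.differentiableWithinAt
    exact h1.analyticAt ((lvAt_open hρ).mem_nhds (real_mem_lvAt hρ ha hx))
  tfae_have 1 → 2 := by
    intro h
    have h1 := one_of_grow (one_mul 1) ((lvl_iff E c hρ hρ' ha).2 h)
    obtain ⟨G, h2, h3⟩ := h
    exact ⟨⟨G, key G h2, h3⟩, h1⟩
  tfae_have 1 → 3 := by
    intro h
    have h1 := one_of_grow (by norm_num : (-1 : ℝ) * (-1) = 1) ((lvl_iff E c hρ hρ' ha).2 h)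
    obtain ⟨G, h2, h3⟩ := h
    refine ⟨⟨fun s => (G s)⁻¹, fun x hx => (key G h2 x hx).inv
      (h2 x (Or.inl (real_mem_lvAt hρ ha hx))).2, fun s hs => by simp only; rw [h3 s hs]⟩, h1⟩
  tfae_have 2 → 1 := fun h => (lvl_iff E c hρ hρ' ha).1 (grow_of_axis E hρ hρ' ha h.2 h.1)
  tfae_have 3 → 1 := fun h => (lvl_iff E c hρ hρ' ha).1 (grow_of_axisInv E hρ hρ' ha h.2 h.1)
  tfae_finish

/-- **Half planes.** -/
theorem half_seg_tfae (c : ℝ) {t : ℝ} (ht : 0 ≤ t) : List.TFAE [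
    ∃ G : ℂ → ℂ,
      (∀ s : ℂ, c + t < s.re ∨ c + 1 / 2 < s.re → DifferentiableAt ℂ G s ∧ G s ≠ 0) ∧
      ∀ s : ℂ, c + 1 / 2 < s.re → G s = LE N α (s - c),
    Axis N α c t ∧ ∀ ρ ρ' : ℝ, 1 < ρ → ρ < ρ' → One N α 1 ρ ρ' (t ^ ρ),
    Axis N α c t ∧ ∀ ρ₁ : ℝ, 1 < ρ₁ → ∃ ρ ρ' : ℝ, 1 < ρ ∧ ρ < ρ₁ ∧ ρ < ρ' ∧
      One N α 1 ρ ρ' (t ^ ρ),
    AxisInv N α c t ∧ ∀ ρ ρ' : ℝ, 1 < ρ → ρ < ρ' → One N α (-1) ρ ρ' (t ^ ρ),
    AxisInv N α c t ∧ ∀ ρ₁ : ℝ, 1 < ρ₁ → ∃ ρ ρ' : ℝ, 1 < ρ ∧ ρ < ρ₁ ∧ ρ < ρ' ∧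
      One N α (-1) ρ ρ' (t ^ ρ)] := by
  have hH := half_tfae E c ht
  have key : ∀ G : ℂ → ℂ, (∀ s : ℂ, c + t < s.re ∨ c + 1 / 2 < s.re →
      DifferentiableAt ℂ G s ∧ G s ≠ 0) → ∀ x : ℝ, c + t < x → AnalyticAt ℂ G x := by
    intro G hG x hx
    have ho : IsOpen {s : ℂ | c + t < s.re} := isOpen_lt continuous_const Complex.continuous_re
    have h1 : DifferentiableOn ℂ G {s : ℂ | c + t < s.re} := fun s hs =>
      (hG s (Or.inl hs)).1.differentiableWithinAt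
    exact h1.analyticAt (ho.mem_nhds (by
      change c + t < (x : ℂ).re
      rwa [Complex.ofReal_re]))
  have hpw : ∀ ρ : ℝ, 1 < ρ → (t ^ ρ) ^ ρ⁻¹ = t := fun ρ hρ => by
    rw [← Real.rpow_mul ht, mul_inv_cancel₀ (by linarith), Real.rpow_one]
  tfae_have 1 → 2 := by
    intro h
    have h1 := (hH.out 0 1).1 h
    obtain ⟨G, h2, h3⟩ := h
    exact ⟨⟨G, key G h2, h3⟩, fun ρ ρ' hρ hρ' => one_of_grow (one_mul 1) (h1 ρ ρ' hρ hρ')⟩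
  tfae_have 1 → 4 := by
    intro h
    have h1 := (hH.out 0 1).1 h
    obtain ⟨G, h2, h3⟩ := h
    refine ⟨⟨fun s => (G s)⁻¹, fun x hx => (key G h2 x hx).inv (h2 x (Or.inl (by
      rwa [Complex.ofReal_re]))).2, fun s hs => by simp only; rw [h3 s hs]⟩, fun ρ ρ' hρ hρ' =>
      one_of_grow (by norm_num) (h1 ρ ρ' hρ hρ')⟩
  tfae_have 2 → 3 := by
    rintro ⟨h, h2⟩
    exact ⟨h, fun ρ₁ hρ₁ => ⟨(1 + ρ₁) / 2, ρ₁, by linarith, by linarith, by linarith,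
      h2 _ _ (by linarith) (by linarith)⟩⟩
  tfae_have 4 → 5 := by
    rintro ⟨h, h2⟩
    exact ⟨h, fun ρ₁ hρ₁ => ⟨(1 + ρ₁) / 2, ρ₁, by linarith, by linarith, by linarith,
      h2 _ _ (by linarith) (by linarith)⟩⟩
  tfae_have 3 → 1 := by
    rintro ⟨h, h2⟩
    refine (hH.out 0 2).2 fun ρ₁ hρ₁ => ?_
    obtain ⟨ρ, ρ', e1, e2, e3, e4⟩ := h2 ρ₁ hρ₁
    refine ⟨ρ, ρ', e1, e2, e3, grow_of_axis E (c := c) e1 e3 (Real.rpow_nonneg ht _) e4 ?_⟩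
    rw [hpw ρ e1]
    exact h
  tfae_have 5 → 1 := by
    rintro ⟨h, h2⟩
    refine (hH.out 0 2).2 fun ρ₁ hρ₁ => ?_
    obtain ⟨ρ, ρ', e1, e2, e3, e4⟩ := h2 ρ₁ hρ₁
    refine ⟨ρ, ρ', e1, e2, e3, grow_of_axisInv E (c := c) e1 e3 (Real.rpow_nonneg ht _) e4 ?_⟩
    rw [hpw ρ e1]
    exact h
  tfae_finish

/-- an entire continuation: levels -/
theorem entire_lvl (c : ℝ) {F : ℂ → ℂ} (hd : ∀ s : ℂ, c < s.re → DifferentiableAt ℂ F s)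
    (he : ∀ s : ℂ, c + 1 / 2 < s.re → F s = LE N α (s - c)) {ρ ρ' : ℝ} (hρ : 1 < ρ) (hρ' : ρ < ρ')
    {a : ℝ} (ha : 0 ≤ a) : List.TFAE [
      ∀ s ∈ SectorAt c ρ, a < ((s - c) ^ (ρ : ℂ)).re → F s ≠ 0,
      Grow N α ρ ρ' a,
      One N α 1 ρ ρ' a,
      (∀ x : ℝ, c + a ^ ρ⁻¹ < x → F x ≠ 0) ∧ One N α (-1) ρ ρ' a] := by
  have hFa : ∀ x : ℝ, c + a ^ ρ⁻¹ < x → AnalyticAt ℂ F x := by
    intro x hx
    have ho : IsOpen {s : ℂ | c < s.re} := isOpen_lt continuous_const Complex.continuous_re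
    have h1 : DifferentiableOn ℂ F {s : ℂ | c < s.re} := fun s hs =>
      (hd s hs).differentiableWithinAt
    refine h1.analyticAt (ho.mem_nhds ?_)
    change c < (x : ℂ).re
    rw [Complex.ofReal_re]
    have : 0 ≤ a ^ ρ⁻¹ := Real.rpow_nonneg ha _
    linarith
  tfae_have 1 ↔ 2 := level_iff E c hd he hρ hρ' ha
  tfae_have 2 → 3 := fun h => one_of_grow (one_mul 1) h
  tfae_have 3 → 2 := fun h => grow_of_axis E (c := c) hρ hρ' ha h ⟨F, hFa, he⟩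
  tfae_have 1 → 4 := by
    intro h
    refine ⟨fun x hx => ?_, one_of_grow (by norm_num) ((level_iff E c hd he hρ hρ' ha).1 h)⟩
    have h1 := real_mem_lvAt hρ ha hx
    exact h x h1.1 h1.2
  tfae_have 4 → 2 := by
    rintro ⟨h1, h2⟩
    refine grow_of_axisInv E (c := c) hρ hρ' ha h2 ⟨fun s => (F s)⁻¹, fun x hx =>
      (hFa x hx).inv (h1 x hx), fun s hs => ?_⟩
    simp only
    rw [he s hs]
  tfae_finish

omit E in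
theorem slow_iff_grow {ρ ρ' : ℝ} : Slow N α ρ ρ' ↔ Grow N α ρ ρ' 0 := by
  unfold Slow Grow
  simp only [zero_add]

/-- an entire continuation: half planes -/
theorem entire_rh (c : ℝ) {F : ℂ → ℂ} (hd : ∀ s : ℂ, c < s.re → DifferentiableAt ℂ F s)
    (he : ∀ s : ℂ, c + 1 / 2 < s.re → F s = LE N α (s - c)) (ha : AnalyticAt ℂ F c) {m : ℕ}
    (hm : analyticOrderAt F c = m) : List.TFAE [
      ∀ s : ℂ, c < s.re → F s ≠ 0,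
      ∀ ρ ρ' : ℝ, 1 < ρ → ρ < ρ' → ∃ C : ℝ, ∀ᶠ Y : ℝ in atTop,
        |SrE N α ρ ρ' Y - m * Real.log (Real.log Y)| ≤ C,
      ∀ ρ₁ : ℝ, 1 < ρ₁ → ∃ ρ ρ' : ℝ, 1 < ρ ∧ ρ < ρ₁ ∧ ρ < ρ' ∧ One N α 1 ρ ρ' 0,
      (∀ x : ℝ, c < x → F x ≠ 0) ∧
        ∀ ρ₁ : ℝ, 1 < ρ₁ → ∃ ρ ρ' : ℝ, 1 < ρ ∧ ρ < ρ₁ ∧ ρ < ρ' ∧ One N α (-1) ρ ρ' 0] := by
  have h1 := rh_tfae E c hd he ha hm
  have h13 : (∀ s : ℂ, c < s.re → F s ≠ 0) ↔ ∀ ρ₁ : ℝ, 1 < ρ₁ → ∃ ρ ρ' : ℝ, 1 < ρ ∧ ρ < ρ₁ ∧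
      ρ < ρ' ∧ Slow N α ρ ρ' := h1.out 0 2
  have hlv : ∀ ρ ρ' : ℝ, 1 < ρ → ρ < ρ' → (Grow N α ρ ρ' 0 ↔
      (∀ x : ℝ, c + 0 ^ ρ⁻¹ < x → F x ≠ 0) ∧ One N α (-1) ρ ρ' 0) := fun ρ ρ' hρ hρ' =>
    (entire_lvl E c hd he hρ hρ' le_rfl).out 1 3
  tfae_have 1 ↔ 2 := h1.out 0 1
  tfae_have 1 → 3 := by
    intro h ρ₁ hρ₁
    obtain ⟨ρ, ρ', e1, e2, e3, e4⟩ := h13.1 h ρ₁ hρ₁
    exact ⟨ρ, ρ', e1, e2, e3, one_of_grow (one_mul 1) (slow_iff_grow.1 e4)⟩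
  tfae_have 1 → 4 := by
    intro h
    refine ⟨fun x hx => h x (by rwa [Complex.ofReal_re]), fun ρ₁ hρ₁ => ?_⟩
    obtain ⟨ρ, ρ', e1, e2, e3, e4⟩ := h13.1 h ρ₁ hρ₁
    exact ⟨ρ, ρ', e1, e2, e3, one_of_grow (by norm_num) (slow_iff_grow.1 e4)⟩
  tfae_have 3 → 1 := by
    intro h
    refine h13.2 fun ρ₁ hρ₁ => ?_
    obtain ⟨ρ, ρ', e1, e2, e3, e4⟩ := h ρ₁ hρ₁
    exact ⟨ρ, ρ', e1, e2, e3, slow_iff_grow.2 (((entire_lvl E c hd he e1 e3 le_rfl).out 1 2).2 e4)⟩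
  tfae_have 4 → 1 := by
    rintro ⟨h0, h⟩
    refine h13.2 fun ρ₁ hρ₁ => ?_
    obtain ⟨ρ, ρ', e1, e2, e3, e4⟩ := h ρ₁ hρ₁
    refine ⟨ρ, ρ', e1, e2, e3, slow_iff_grow.2
      ((hlv ρ ρ' e1 e3).2 ⟨fun x hx => h0 x ?_, e4⟩)⟩
    rw [Real.zero_rpow (by positivity)] at hx
    linarith
  tfae_finish

end Pool.Agent.R791.Land
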