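import Pool.Agent.R791.Dir4

/-!
# Laplace transforms: the logarithm of the transform and its regularised integral
-/

set_option autoImplicit false

open MeasureTheory Filter Topology Set Complex
open Pool.Agent.TH942.LS (Dat P P_le)
open Pool.Agent.TH942.SL Pool.Agent.R791.Heat

namespace Pool.Agent.R791.Lead

lemma lap_int {f : ℝ → ℂ} (hf : AEStronglyMeasurable f (volume.restrict (Ioi 0))) {K x₀ : ℝ}
    (hb : ∀ y : ℝ, 0 < y → ‖f y‖ ≤ K * Real.exp (x₀ * y)) {v : ℂ} (hv : x₀ < v.re) :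
    IntegrableOn (fun y : ℝ => exp (-(v * y)) * f y) (Ioi 0) ∧
      ‖∫ y in Ioi (0 : ℝ), exp (-(v * y)) * f y‖ ≤ K / (v.re - x₀) := by
  have e3 : IntegrableOn (fun y : ℝ => K * Real.exp (-(v.re - x₀) * y)) (Ioi 0) :=
    (integrableOn_exp_mul_Ioi (a := -(v.re - x₀)) (by linarith) 0).const_mul K
  have e4 : ∀ y : ℝ, 0 < y → ‖exp (-(v * y)) * f y‖ ≤ K * Real.exp (-(v.re - x₀) * y) := by
    intro y hy
    rw [norm_mul, Complex.norm_exp, Complex.neg_re, Complex.re_mul_ofReal]
    calc Real.exp (-(v.re * y)) * ‖f y‖ ≤ Real.exp (-(v.re * y)) * (K * Real.exp (x₀ * y)) :=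
          mul_le_mul_of_nonneg_left (hb y hy) (Real.exp_pos _).le
      _ = K * (Real.exp (-(v.re * y)) * Real.exp (x₀ * y)) := by ring
      _ = _ := by
        rw [← Real.exp_add]
        congr 2
        ring
  refine ⟨Integrable.mono' e3 ((Continuous.aestronglyMeasurable (by fun_prop)).mul hf) ?_, ?_⟩
  · filter_upwards [ae_restrict_mem measurableSet_Ioi] with y hy
    exact e4 y hy
  · refine (norm_integral_le_of_norm_le e3 ?_).trans (le_of_eq ?_)
    · filter_upwards [ae_restrict_mem measurableSet_Ioi] with y hy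
      exact e4 y hy
    · rw [integral_const_mul, integral_exp_mul_Ioi (by linarith)]
      have : v.re - x₀ ≠ 0 := by linarith
      field_simp
      simp

/-- derivative of a Laplace transform -/
theorem lap_deriv {f : ℝ → ℂ} (hf : AEStronglyMeasurable f (volume.restrict (Ioi 0))) {K x₀ : ℝ}
    (hK : 0 ≤ K) (hb : ∀ y : ℝ, 0 < y → ‖f y‖ ≤ K * Real.exp (x₀ * y)) {v : ℂ} (hv : x₀ < v.re) :
    HasDerivAt (fun v : ℂ => ∫ y in Ioi (0 : ℝ), exp (-(v * y)) * f y)
      (-∫ y in Ioi (0 : ℝ), exp (-(v * y)) * (y * f y)) v := by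
  set ε : ℝ := (v.re - x₀) / 2 with hε
  have hε0 : 0 < ε := by rw [hε]; linarith
  have hso : IsOpen {u : ℂ | x₀ + ε < u.re} := isOpen_lt continuous_const Complex.continuous_re
  have hvs : v ∈ {u : ℂ | x₀ + ε < u.re} := by
    change x₀ + ε < v.re
    rw [hε]
    linarith
  have hbound : IntegrableOn (fun y : ℝ => K * (2 / ε) * Real.exp (-(ε / 2) * y)) (Ioi 0) :=
    (integrableOn_exp_mul_Ioi (a := -(ε / 2)) (by linarith) 0).const_mul _
  have key := hasDerivAt_integral_of_dominated_loc_of_deriv_le (𝕜 := ℂ)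
    (μ := volume.restrict (Ioi (0 : ℝ)))
    (F := fun (u : ℂ) (y : ℝ) => exp (-(u * y)) * f y)
    (F' := fun (u : ℂ) (y : ℝ) => -(exp (-(u * y)) * (y * f y)))
    (x₀ := v) (s := {u : ℂ | x₀ + ε < u.re})
    (bound := fun y : ℝ => K * (2 / ε) * Real.exp (-(ε / 2) * y))
    (hso.mem_nhds hvs) (Eventually.of_forall fun u => ?_) (lap_int hf hb hv).1 ?_ ?_ hbound ?_
  · have e1 := key.2
    rw [integral_neg] at e1
    exact e1
  · exact (Continuous.aestronglyMeasurable (by fun_prop)).mul hf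
  · exact ((Continuous.aestronglyMeasurable (by fun_prop)).mul
      ((Continuous.aestronglyMeasurable (by fun_prop)).mul hf)).neg
  · filter_upwards [ae_restrict_mem measurableSet_Ioi] with y hy u hu
    have hy' : 0 < y := hy
    have hu' : x₀ + ε < u.re := hu
    rw [norm_neg, norm_mul, norm_mul, Complex.norm_exp, Complex.neg_re, Complex.re_mul_ofReal,
      Complex.norm_real, Real.norm_eq_abs, abs_of_pos hy']
    have e1 : y ≤ (2 / ε) * Real.exp (ε / 2 * y) := by
      have e2 := Real.add_one_le_exp (ε / 2 * y)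
      have e3 : y = (2 / ε) * (ε / 2 * y) := by field_simp
      calc y = (2 / ε) * (ε / 2 * y) := e3
        _ ≤ _ := by
          refine mul_le_mul_of_nonneg_left ?_ (by positivity)
          linarith
    calc Real.exp (-(u.re * y)) * (y * ‖f y‖) ≤ Real.exp (-((x₀ + ε) * y)) *
          ((2 / ε) * Real.exp (ε / 2 * y) * (K * Real.exp (x₀ * y))) := by
          refine mul_le_mul (Real.exp_le_exp.2 ?_) (mul_le_mul e1 (hb y hy') (norm_nonneg _)
            (by positivity)) (by positivity) (Real.exp_pos _).le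
          have := mul_le_mul_of_nonneg_right hu'.le hy'.le
          linarith
      _ = K * (2 / ε) * (Real.exp (-((x₀ + ε) * y)) * Real.exp (ε / 2 * y) *
          Real.exp (x₀ * y)) := by ring
      _ = _ := by
        rw [← Real.exp_add, ← Real.exp_add]
        congr 2
        ring
  · filter_upwards with y u _
    have e1 : HasDerivAt (fun u : ℂ => exp (-(u * y))) (exp (-(u * y)) * (-(1 * y))) u :=
      ((hasDerivAt_id u).mul_const (y : ℂ)).fun_neg.cexp
    refine (e1.mul_const (f y)).congr_deriv ?_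
    ring

/-- the quotient of the exponentials -/
lemma exp_quot (z : ℂ) {y : ℝ} (hy : 0 < y) :
    ‖(exp (z * y) - exp (-y)) / y‖ ≤ ‖z + 1‖ * Real.exp (‖z + 1‖ * y) := by
  have e1 : exp (z * y) - exp (-y) = exp (-y) * (exp ((z + 1) * y) - 1) := by
    rw [mul_sub, ← Complex.exp_add, mul_one]
    congr 2
    ring
  have e2 := Complex.norm_exp_sub_sum_le_norm_mul_exp ((z + 1) * y) 1
  simp only [Finset.range_one, Finset.sum_singleton, pow_zero, Nat.factorial_zero, Nat.cast_one,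
    div_one, pow_one] at e2
  rw [norm_mul, Complex.norm_real, Real.norm_eq_abs, abs_of_pos hy] at e2
  rw [e1, norm_div, norm_mul, Complex.norm_real, Real.norm_eq_abs, abs_of_pos hy, div_le_iff₀ hy,
    Complex.norm_exp]
  have e3 : (-(y : ℂ)).re = -y := by simp
  rw [e3]
  have e4 : Real.exp (-y) ≤ 1 := Real.exp_le_one_iff.2 (by linarith)
  calc Real.exp (-y) * ‖exp ((z + 1) * y) - 1‖ ≤ 1 * (‖z + 1‖ * y * Real.exp (‖z + 1‖ * y)) :=
        mul_le_mul e4 e2 (norm_nonneg _) zero_le_one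
    _ = _ := by ring

lemma log_lim (z : ℂ) : Tendsto (fun x : ℝ => log ((x : ℂ) + 1) - log (x - z)) atTop (𝓝 0) := by
  have h0 : Tendsto (fun x : ℝ => ((x : ℂ))⁻¹) atTop (𝓝 0) := by
    have h1 : Tendsto (fun x : ℝ => ((x⁻¹ : ℝ) : ℂ)) atTop (𝓝 ((0 : ℝ) : ℂ)) :=
      (Complex.continuous_ofReal.tendsto 0).comp tendsto_inv_atTop_zero
    simpa using h1
  have h2 : ∀ p : ℂ, Tendsto (fun x : ℝ => log (1 + p * ((x : ℂ))⁻¹)) atTop (𝓝 0) := by
    intro p
    have h3 : Tendsto (fun x : ℝ => 1 + p * ((x : ℂ))⁻¹) atTop (𝓝 (1 + p * 0)) :=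
      (h0.const_mul p).const_add 1
    rw [mul_zero, add_zero] at h3
    have h4 := (continuousAt_clog Complex.one_mem_slitPlane).tendsto.comp h3
    rw [Complex.log_one] at h4
    exact h4
  have h5 := (h2 1).sub (h2 (-z))
  rw [sub_zero] at h5
  refine h5.congr' ?_
  have hne : ∀ p : ℂ, ∀ᶠ x : ℝ in atTop, 1 + p * ((x : ℂ))⁻¹ ≠ 0 := by
    intro p
    have h3 : Tendsto (fun x : ℝ => 1 + p * ((x : ℂ))⁻¹) atTop (𝓝 (1 + p * 0)) :=
      (h0.const_mul p).const_add 1
    rw [mul_zero, add_zero] at h3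
    exact h3.eventually_ne one_ne_zero
  filter_upwards [eventually_gt_atTop 0, hne 1, hne (-z)] with x hx h6 h7
  have hx0 : (x : ℂ) ≠ 0 := by exact_mod_cast hx.ne'
  have e1 : (x : ℂ) + 1 = (x : ℂ) * (1 + 1 * ((x : ℂ))⁻¹) := by field_simp
  have e2 : (x : ℂ) - z = (x : ℂ) * (1 + -z * ((x : ℂ))⁻¹) := by
    field_simp
    ring
  rw [e1, e2, Complex.log_ofReal_mul hx h6, Complex.log_ofReal_mul hx h7]
  ring

end Pool.Agent.R791.Lead
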