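import Pool.Agent.R791.Lead1

/-!
# The continuation of the transform by a regularised integral of the means
-/

set_option autoImplicit false

open MeasureTheory Filter Topology Set Complex
open Pool.Agent.TH942.LS (Dat P P_le)
open Pool.Agent.TH942.SL Pool.Agent.R791.Heat

namespace Pool.Agent.R791.Lead

variable {α : ℝ} {lam c : ℕ → ℝ} {δ σ : ℝ}

/-- the mean divided by `y` is bounded near `0` -/
theorem T_div (D : Dat lam c δ σ) (h0 : 0 < α) (h1 : α < 1) {x₀ : ℝ} (hx1 : 1 ≤ x₀)
    (hx₀ : ∀ z : ℂ, 0 < z.re → x₀ ≤ ‖z‖ → σ + 1 ≤ kap α * ‖z‖ ^ α) :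
    ∃ K : ℝ, 0 ≤ K ∧ ∀ y : ℝ, 0 < y → ‖(T lam c α y : ℂ) / y‖ ≤ K * Real.exp (x₀ * y) := by
  have hk := kap_pos h0 h1
  have hδ := D.δ0
  have hS := S₀_nonneg lam c σ
  obtain ⟨C, hC, hC'⟩ := stretched h0 (a := δ * kap α) (by positivity)
  set B : ℝ := S₀ lam c σ * Real.exp (δ * σ) * C with hB
  have hB0 : 0 ≤ B := by positivity
  have hre : ∀ t : ℝ, ((x₀ : ℂ) + t * I).re = x₀ := fun t => by simp
  have him : ∀ t : ℝ, ((x₀ : ℂ) + t * I).im = t := fun t => by simp
  have hI0 : 0 ≤ ∫ t : ℝ, B * (1 + |t|) ^ (-(2 : ℝ)) := integral_nonneg fun t => by positivity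
  refine ⟨(2 * Real.pi)⁻¹ * ∫ t : ℝ, B * (1 + |t|) ^ (-(2 : ℝ)), by positivity, fun y hy => ?_⟩
  obtain ⟨hM, -⟩ := T_eq D h0 h1 (x := x₀) (by linarith) hy fun z hz => by
    have e3 : 0 < z.re := by rw [hz]; linarith
    have e4 : x₀ ≤ ‖z‖ := by rw [← hz]; exact re_le_norm z
    linarith [hx₀ z e3 e4]
  rw [hM]
  have e1 := norm_V_le (H := fun z => exp (z * y) * f₀ lam c α z) (c := x₀)
    (g := fun t => Real.exp (x₀ * y) * (B * (1 + |t|) ^ (-(2 : ℝ))))
    (((decay_int (by norm_num)).const_mul B).const_mul _) fun t => by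
      set z : ℂ := (x₀ : ℂ) + t * I with hz
      have h2 : 0 < z.re := by rw [hz, hre]; linarith
      have h3 : x₀ ≤ ‖z‖ := by
        have := re_le_norm z
        rwa [hz, hre] at this
      have e1 := f₀_bound D h0 h1 h2 (by have := hx₀ z h2 h3; linarith)
      have e2 : |t| ^ α ≤ ‖z‖ ^ α := by
        refine Real.rpow_le_rpow (abs_nonneg _) ?_ h0.le
        have := abs_im_le_norm z
        rwa [hz, him] at this
      have e3 : Real.exp (-(δ * kap α * ‖z‖ ^ α)) ≤ C * (1 + |t|) ^ (-(2 : ℝ)) := by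
        refine (Real.exp_le_exp.2 ?_).trans (hC' |t| (abs_nonneg _))
        have := mul_le_mul_of_nonneg_left e2 (by positivity : 0 ≤ δ * kap α)
        linarith
      rw [norm_mul, Complex.norm_exp, Complex.re_mul_ofReal, hz, hre, ← hz]
      refine mul_le_mul_of_nonneg_left ?_ (Real.exp_pos _).le
      refine e1.trans ?_
      rw [hB, mul_assoc (S₀ lam c σ * Real.exp (δ * σ)) C]
      exact mul_le_mul_of_nonneg_left e3 (by positivity)
  rw [integral_const_mul] at e1
  refine e1.trans (le_of_eq ?_)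
  ring

/-- the regularised mean divided by `y` -/
noncomputable def Hf (f : ℝ → ℝ) (S : Finset ℂ) (m : ℂ → ℤ) (y : ℝ) : ℂ :=
  ((f y : ℂ) - ∑ z ∈ S, (m z : ℂ) * (exp (z * y) - exp (-y))) / y

/-- **the regularised integral** -/
theorem lead_fn (D : Dat lam c δ σ) (h0 : 0 < α) (h1 : α < 1) {b : ℝ} (hb : 0 ≤ b) (S : Finset ℂ)
    (m : ℂ → ℤ) {C y₀ : ℝ} (hM : ∀ y : ℝ, y₀ ≤ y →
      ‖(T lam c α y : ℂ) - ∑ z ∈ S, (m z : ℂ) * exp (z * y)‖ ≤ C * Real.exp (b * y)) :
    (∀ v : ℂ, b < v.re → IntegrableOn (fun y : ℝ => exp (-(v * y)) * Hf (T lam c α) S m y) (Ioi 0)) ∧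
    (∀ v : ℂ, b < v.re → DifferentiableAt ℂ
      (fun v : ℂ => ∫ y in Ioi (0 : ℝ), exp (-(v * y)) * Hf (T lam c α) S m y) v) ∧
    ∃ x₁ : ℝ, b < x₁ ∧ ∀ v : ℂ, x₁ < v.re →
      exp (∫ y in Ioi (0 : ℝ), exp (-(v * y)) * Hf (T lam c α) S m y) *
        ∏ z ∈ S, ((v + 1) / (v - z)) ^ (m z) = exp (f₀ lam c α v) := by
  obtain ⟨x₀, hx1, hx₀⟩ := exists_abscissa h0 h1 σ
  obtain ⟨K, hK, hKb⟩ := T_div D h0 h1 hx1 hx₀
  obtain ⟨g, Kg, hKg, hgc, hgneg, hgpos, hgb, hinv⟩ := T_lines D h0 h1 hx1 hx₀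
  set H : ℝ → ℂ := Hf (T lam c α) S m with hH
  set r : ℝ := ∑ z ∈ S, ‖z‖ with hr
  have hr0 : 0 ≤ r := Finset.sum_nonneg fun _ _ => norm_nonneg _
  have hzr : ∀ z ∈ S, ‖z‖ ≤ r := fun z hz =>
    Finset.single_le_sum (f := fun z : ℂ => ‖z‖) (fun _ _ => norm_nonneg _) hz
  set X : ℝ := x₀ + r + 1 with hX
  have hX0 : 0 < X := by linarith
  set M : ℝ := ∑ z ∈ S, ‖(m z : ℂ)‖ with hMd
  have hM0 : 0 ≤ M := Finset.sum_nonneg fun _ _ => norm_nonneg _
  -- measurability
  have hHm : AEStronglyMeasurable H (volume.restrict (Ioi 0)) := by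
    have h2 : ContinuousOn (fun y : ℝ => (g y - ∑ z ∈ S, (m z : ℂ) * (exp (z * y) - exp (-y))) / y)
        (Ioi 0) := by
      refine ContinuousOn.div (Continuous.continuousOn ?_) (by fun_prop) fun y hy => ?_
      · refine hgc.sub ?_
        fun_prop
      · have : (0 : ℝ) < y := hy
        exact_mod_cast this.ne'
    refine (h2.aestronglyMeasurable measurableSet_Ioi).congr ?_
    filter_upwards [ae_restrict_mem measurableSet_Ioi] with y hy
    rw [hH, Hf, hgpos y hy]
  -- the bound on bounded intervals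
  set K₃ : ℝ := K + M * (r + 1) with hK₃
  have hK₃0 : 0 ≤ K₃ := by positivity
  have hHb : ∀ y : ℝ, 0 < y → ‖H y‖ ≤ K₃ * Real.exp (X * y) := by
    intro y hy
    have e1 : H y = (T lam c α y : ℂ) / y - ∑ z ∈ S, (m z : ℂ) * ((exp (z * y) - exp (-y)) / y) := by
      rw [hH, Hf, sub_div, Finset.sum_div]
      congr 1
      exact Finset.sum_congr rfl fun z _ => by ring
    have e2 : ‖∑ z ∈ S, (m z : ℂ) * ((exp (z * y) - exp (-y)) / y)‖ ≤
        M * ((r + 1) * Real.exp (X * y)) := by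
      rw [hMd, Finset.sum_mul]
      refine (norm_sum_le _ _).trans (Finset.sum_le_sum fun z hz => ?_)
      rw [norm_mul]
      refine mul_le_mul_of_nonneg_left ?_ (norm_nonneg _)
      have e3 : ‖z + 1‖ ≤ r + 1 := by
        refine (norm_add_le _ _).trans ?_
        rw [norm_one]
        linarith [hzr z hz]
      refine (exp_quot z hy).trans (mul_le_mul e3 (Real.exp_le_exp.2 ?_) (Real.exp_pos _).le
        (by linarith))
      exact mul_le_mul_of_nonneg_right (by linarith) hy.le
    have e3 : Real.exp (x₀ * y) ≤ Real.exp (X * y) :=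
      Real.exp_le_exp.2 (mul_le_mul_of_nonneg_right (by linarith) hy.le)
    rw [e1]
    calc _ ≤ ‖(T lam c α y : ℂ) / y‖ + _ := norm_sub_le _ _
      _ ≤ K * Real.exp (X * y) + M * ((r + 1) * Real.exp (X * y)) :=
        add_le_add ((hKb y hy).trans (mul_le_mul_of_nonneg_left e3 hK)) e2
      _ = _ := by rw [hK₃]; ring
  -- the bound with `b`
  set Y : ℝ := max y₀ 1 with hY
  have hY1 : 1 ≤ Y := le_max_right _ _
  set K₄ : ℝ := K₃ * Real.exp (X * Y) + |C| + M with hK₄
  have hK₄0 : 0 ≤ K₄ := by positivity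
  have hHb2 : ∀ y : ℝ, 0 < y → ‖H y‖ ≤ K₄ * Real.exp (b * y) := by
    intro y hy
    have hone : 1 ≤ Real.exp (b * y) := Real.one_le_exp (by positivity)
    rcases le_or_gt y Y with h | h
    · calc ‖H y‖ ≤ K₃ * Real.exp (X * y) := hHb y hy
        _ ≤ K₃ * Real.exp (X * Y) := mul_le_mul_of_nonneg_left
          (Real.exp_le_exp.2 (mul_le_mul_of_nonneg_left h hX0.le)) hK₃0
        _ ≤ K₄ := by
          rw [hK₄]
          have := abs_nonneg C
          linarith
        _ ≤ _ := le_mul_of_one_le_right hK₄0 hone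
    · have hy1 : 1 ≤ y := by linarith
      have hyy : y₀ ≤ y := (le_max_left y₀ 1).trans h.le
      have e1 : (T lam c α y : ℂ) - ∑ z ∈ S, (m z : ℂ) * (exp (z * y) - exp (-y)) =
          ((T lam c α y : ℂ) - ∑ z ∈ S, (m z : ℂ) * exp (z * y)) +
            ∑ z ∈ S, (m z : ℂ) * exp (-y) := by
        simp only [mul_sub, Finset.sum_sub_distrib]
        ring
      have e2 : ‖∑ z ∈ S, (m z : ℂ) * exp (-y)‖ ≤ M := by
        rw [hMd]
        refine (norm_sum_le _ _).trans (Finset.sum_le_sum fun z _ => ?_)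
        rw [norm_mul]
        refine mul_le_of_le_one_right (norm_nonneg _) ?_
        rw [Complex.norm_exp]
        refine Real.exp_le_one_iff.2 ?_
        simp
        exact hy.le
      have e3 := hM y hyy
      have e4 : C * Real.exp (b * y) ≤ |C| * Real.exp (b * y) :=
        mul_le_mul_of_nonneg_right (le_abs_self C) (Real.exp_pos _).le
      have e5 : M ≤ M * Real.exp (b * y) := le_mul_of_one_le_right hM0 hone
      have e6 : 0 ≤ K₃ * Real.exp (X * Y) * Real.exp (b * y) := by positivity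
      rw [hH, Hf, norm_div, Complex.norm_real, Real.norm_eq_abs, abs_of_pos hy]
      refine (div_le_self (norm_nonneg _) hy1).trans ?_
      rw [e1]
      refine (norm_add_le _ _).trans ?_
      rw [hK₄, add_mul, add_mul]
      linarith
  refine ⟨fun v hv => (lap_int hHm hHb2 hv).1,
    fun v hv => (lap_deriv hHm hK₄0 hHb2 hv).differentiableAt, X + b + 1, by linarith, ?_⟩
  -- the derivative far to the right
  set x₁ : ℝ := X + b + 1 with hx₁
  set W : Set ℂ := {v | x₁ < v.re} with hW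
  have hWo : IsOpen W := isOpen_lt continuous_const Complex.continuous_re
  have hWc : Convex ℝ W := convex_halfSpace_re_gt x₁
  set Ψ : ℂ → ℂ := fun v => ∫ y in Ioi (0 : ℝ), exp (-(v * y)) * H y with hΨ
  have hvz : ∀ v ∈ W, ∀ z ∈ S, 0 < (v - z).re := fun v hv z hz => by
    have e1 : x₁ < v.re := hv
    have e3 := (re_le_norm z).trans (hzr z hz)
    rw [Complex.sub_re]
    linarith
  have hv1 : ∀ v ∈ W, 0 < (v + 1).re := fun v hv => by
    have e1 : x₁ < v.re := hv
    rw [Complex.add_re, Complex.one_re]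
    linarith
  have hlap : ∀ v ∈ W, ∫ y in Ioi (0 : ℝ), exp (-(v * y)) * (y * H y) =
      -f₁ lam c α v - ∑ z ∈ S, (m z : ℂ) * (1 / (v - z) - 1 / (v + 1)) := by
    intro v hv
    have hvx : x₁ < v.re := hv
    have hv0 : x₀ < v.re := by linarith
    have e1 := hinv v.re hv0 v.im
    rw [Complex.re_add_im] at e1
    have e2 : ∫ y in Ioi (0 : ℝ), exp (-(v * y)) * g y = -f₁ lam c α v := by
      rw [← e1, ← integral_indicator measurableSet_Ioi]
      refine integral_congr_ae ?_
      have e2 : ∀ᵐ y : ℝ, y ≠ 0 := by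
        rw [ae_iff]
        simp
      filter_upwards [e2] with y hy
      by_cases hy2 : y ∈ Ioi (0 : ℝ)
      · rw [indicator_of_mem hy2]
      · rw [indicator_of_notMem hy2]
        have : y < 0 := lt_of_le_of_ne (not_lt.1 hy2) hy
        rw [hgneg y this, mul_zero]
    have i1 : IntegrableOn (fun y : ℝ => exp (-(v * y)) * g y) (Ioi 0) :=
      (lap_int hgc.aestronglyMeasurable (fun y _ => hgb y) hv0).1
    have hneg1 : (-1 - v).re < 0 := by
      have := hv1 v hv
      rw [Complex.add_re, Complex.one_re] at this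
      simp
      linarith
    have hnegz : ∀ z ∈ S, (z - v).re < 0 := fun z hz => by
      have := hvz v hv z hz
      rw [Complex.sub_re] at this ⊢
      linarith
    have i2 : ∀ z ∈ S, IntegrableOn (fun y : ℝ => (m z : ℂ) *
        (exp ((z - v) * y) - exp ((-1 - v) * y))) (Ioi 0) := fun z hz =>
      ((integrableOn_exp_mul_complex_Ioi (hnegz z hz) 0).sub
        (integrableOn_exp_mul_complex_Ioi hneg1 0)).const_mul _
    have e3 : ∀ y ∈ Ioi (0 : ℝ), exp (-(v * y)) * (y * H y) = exp (-(v * y)) * g y -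
        ∑ z ∈ S, (m z : ℂ) * (exp ((z - v) * y) - exp ((-1 - v) * y)) := by
      intro y hy
      have hy0 : (0 : ℝ) < y := hy
      have hyc : (y : ℂ) ≠ 0 := by exact_mod_cast hy0.ne'
      rw [hH, Hf, hgpos y hy, mul_div_cancel₀ _ hyc, mul_sub, Finset.mul_sum]
      congr 1
      refine Finset.sum_congr rfl fun z _ => ?_
      rw [mul_left_comm, mul_sub, ← Complex.exp_add, ← Complex.exp_add]
      congr 3
      · ring
      · ring
    rw [setIntegral_congr_fun measurableSet_Ioi e3, integral_sub i1 (integrable_finsetSum _ i2), e2,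
      integral_finsetSum _ i2]
    congr 1
    refine Finset.sum_congr rfl fun z hz => ?_
    rw [integral_const_mul, integral_sub (integrableOn_exp_mul_complex_Ioi (hnegz z hz) 0)
      (integrableOn_exp_mul_complex_Ioi hneg1 0), integral_exp_mul_complex_Ioi (hnegz z hz),
      integral_exp_mul_complex_Ioi hneg1]
    congr 1
    have n1 : v - z ≠ 0 := fun h => by
      have := hvz v hv z hz
      rw [h] at this
      simp at this
    have n2 : v + 1 ≠ 0 := fun h => by
      have := hv1 v hv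
      rw [h] at this
      simp at this
    have n3 : z - v ≠ 0 := fun h => n1 (by rw [← neg_sub, h, neg_zero])
    have n4 : -1 - v ≠ 0 := fun h => n2 (by
      have : v + 1 = -(-1 - v) := by ring
      rw [this, h, neg_zero])
    have q1 : -1 / (z - v) = 1 / (v - z) := by
      rw [div_eq_div_iff n3 n1]
      ring
    have q2 : -1 / (-1 - v) = 1 / (v + 1) := by
      rw [div_eq_div_iff n4 n2]
      ring
    simp only [Complex.ofReal_zero, mul_zero, Complex.exp_zero]
    rw [q1, q2]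
  have hΨd : ∀ v ∈ W, HasDerivAt Ψ
      (-(-f₁ lam c α v - ∑ z ∈ S, (m z : ℂ) * (1 / (v - z) - 1 / (v + 1)))) v := by
    intro v hv
    have hvx : x₁ < v.re := hv
    have := lap_deriv hHm hK₄0 hHb2 (v := v) (by linarith)
    rw [hlap v hv] at this
    exact this
  have hσW : ∀ v ∈ W, 0 < v.re ∧ x₀ ≤ ‖v‖ := fun v hv => by
    have hvx : x₁ < v.re := hv
    exact ⟨by linarith, le_trans (by linarith) (re_le_norm v)⟩
  set E : ℂ → ℂ := fun v => -f₀ lam c α v + Ψ v + ∑ z ∈ S, (m z : ℂ) *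
    (log (v + 1) - log (v - z)) with hE
  have hEd : ∀ v ∈ W, HasDerivAt E 0 v := by
    intro v hv
    obtain ⟨h2, h3⟩ := hσW v hv
    have e1 := f₀_deriv D h2 (by
      have e4 := hx₀ v h2 h3
      have e5 := re_pow_ge h0 h1 h2
      linarith)
    have e2 : HasDerivAt (fun v : ℂ => ∑ z ∈ S, (m z : ℂ) * (log (v + 1) - log (v - z)))
        (∑ z ∈ S, (m z : ℂ) * (1 / (v + 1) - 1 / (v - z))) v := by
      refine HasDerivAt.fun_sum fun z hz => ?_
      refine HasDerivAt.const_mul _ ?_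
      exact (((hasDerivAt_id v).add_const 1).clog (slit (hv1 v hv))).sub
        (((hasDerivAt_id v).sub_const z).clog (slit (hvz v hv z hz)))
    refine ((e1.neg.add (hΨd v hv)).add e2).congr_deriv ?_
    have e3 : ∑ z ∈ S, (m z : ℂ) * (1 / (v + 1) - 1 / (v - z)) =
        -∑ z ∈ S, (m z : ℂ) * (1 / (v - z) - 1 / (v + 1)) := by
      rw [← Finset.sum_neg_distrib]
      exact Finset.sum_congr rfl fun z _ => by ring
    rw [e3]
    ring
  have hconst : ∀ v ∈ W, ∀ u ∈ W, E v = E u := fun v hv u hu =>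
    hWc.is_const_of_fderivWithin_eq_zero (𝕜 := ℂ) (f := E)
      (fun z hz => (hEd z hz).differentiableAt.differentiableWithinAt) (fun z hz => by
        rw [fderivWithin_of_isOpen hWo hz]
        ext
        simp [(hEd z hz).deriv]) hv hu
  -- the limit
  have hlim : Tendsto (fun x : ℝ => E x) atTop (𝓝 0) := by
    have hk := kap_pos h0 h1
    have hδ := D.δ0
    have l1 : Tendsto (fun x : ℝ => f₀ lam c α x) atTop (𝓝 0) := by
      have e1 : Tendsto (fun x : ℝ => S₀ lam c σ * Real.exp (δ * σ) *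
          Real.exp (-(δ * kap α * x ^ α))) atTop (𝓝 (S₀ lam c σ * Real.exp (δ * σ) * 0)) := by
        refine Tendsto.const_mul _ (Real.tendsto_exp_atBot.comp ?_)
        refine tendsto_neg_atTop_atBot.comp ?_
        exact (tendsto_rpow_atTop h0).const_mul_atTop (by positivity)
      rw [mul_zero] at e1
      refine squeeze_zero_norm' ?_ e1
      filter_upwards [eventually_ge_atTop x₀] with x hx
      have h2 : 0 < (x : ℂ).re := by rw [Complex.ofReal_re]; linarith
      have h3 : ‖(x : ℂ)‖ = x := by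
        rw [Complex.norm_real, Real.norm_eq_abs, abs_of_pos (by linarith)]
      have h4 := hx₀ x h2 (by rw [h3]; exact hx)
      have := f₀_bound D h0 h1 h2 (by linarith)
      rwa [h3] at this
    have l2 : Tendsto (fun x : ℝ => Ψ x) atTop (𝓝 0) := by
      have e1 : Tendsto (fun x : ℝ => K₄ / (x - b)) atTop (𝓝 0) :=
        Tendsto.const_div_atTop (tendsto_atTop_add_const_right _ (-b) tendsto_id) _
      refine squeeze_zero_norm' ?_ e1
      filter_upwards [eventually_gt_atTop b] with x hx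
      have := (lap_int hHm hHb2 (v := x) (by rw [Complex.ofReal_re]; exact hx)).2
      rwa [Complex.ofReal_re] at this
    have l3 : Tendsto (fun x : ℝ => ∑ z ∈ S, (m z : ℂ) * (log ((x : ℂ) + 1) - log (x - z))) atTop
        (𝓝 (∑ z ∈ S, (m z : ℂ) * 0)) :=
      tendsto_finsetSum _ fun z _ => (log_lim z).const_mul _
    have l4 := (l1.neg.add l2).add l3
    simpa using l4
  have hE0 : ∀ v ∈ W, E v = 0 := by
    intro v hv
    have e1 : Tendsto (fun x : ℝ => E x) atTop (𝓝 (E v)) := by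
      refine tendsto_const_nhds.congr' ?_
      filter_upwards [eventually_gt_atTop x₁] with x hx
      exact hconst v hv x (by change x₁ < (x : ℂ).re; rw [Complex.ofReal_re]; exact hx)
    exact tendsto_nhds_unique e1 hlim
  intro v hv
  have e1 := hE0 v hv
  have e2 : f₀ lam c α v = Ψ v + ∑ z ∈ S, (m z : ℂ) * (log (v + 1) - log (v - z)) := by
    rw [hE] at e1
    simp only at e1
    linear_combination -e1
  rw [e2, Complex.exp_add, Complex.exp_sum]
  congr 1
  refine Finset.prod_congr rfl fun z hz => ?_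
  have n1 : v - z ≠ 0 := ne_zero' (hvz v hv z hz)
  have n2 : v + 1 ≠ 0 := ne_zero' (hv1 v hv)
  rw [Complex.exp_int_mul, Complex.exp_sub, Complex.exp_log n1, Complex.exp_log n2]

end Pool.Agent.R791.Lead
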