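import Pool.Agent.R791.Lead2

/-!
# The leading coefficient at a real point
-/

set_option autoImplicit false

open MeasureTheory Filter Topology Set Complex
open Pool.Agent.TH942.LS (Dat P P_le)
open Pool.Agent.TH942.SL Pool.Agent.TH942.ES Pool.Agent.R791.SectGen Pool.Agent.R791.Level
open Pool.Agent.R791.Heat Pool.Agent.R791.Dir

namespace Pool.Agent.R791.Lead

variable {lam c : ℕ → ℝ} {δ σ₀ : ℝ} {L : ℂ → ℂ}

/-- The integrand `(f(y) + r (e^(v₀ y) - e^(-y)) - ∑ m(z) (e^(zy) - e^(-y))) e^(-v₀ y) / y`. -/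
noncomputable def integrand (f : ℝ → ℝ) (v₀ : ℝ) (r : ℤ) (S : Finset ℂ) (m : ℂ → ℤ) (y : ℝ) : ℂ :=
  ((f y : ℂ) + r * (exp (v₀ * y) - exp (-y)) - ∑ z ∈ S, (m z : ℂ) * (exp (z * y) - exp (-y))) *
    exp (-(v₀ * y)) / y

/-- The number `exp(∫ integrand) ∏ ((v₀+1)/(v₀-z))^m(z) (ρ (a-w)^(ρ-1) / (v₀+1))^r`, `v₀ = (a-w)^ρ`. -/
noncomputable def leadC (f : ℝ → ℝ) (w ρ a : ℝ) (r : ℤ) (S : Finset ℂ) (m : ℂ → ℤ) : ℂ :=
  exp (∫ y in Ioi (0 : ℝ), integrand f ((a - w) ^ ρ) r S m y) *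
    (∏ z ∈ S, ((((a - w) ^ ρ : ℝ) + 1) / (((a - w) ^ ρ : ℝ) - z)) ^ (m z)) *
    ((ρ * (a - w) ^ (ρ - 1) / ((a - w) ^ ρ + 1) : ℝ) : ℂ) ^ r

/-- the functions agree near `a` -/
lemma agree {a σ₀ : ℝ} {L F G : ℂ → ℂ} (hF : ∀ x : ℝ, a ≤ x → MeromorphicAt F x)
    (hG : ∀ x : ℝ, a ≤ x → MeromorphicAt G x) (hFL : ∀ s : ℂ, σ₀ < s.re → F s = L s)
    (hGL : ∀ s : ℂ, σ₀ < s.re → G s = L s) : F =ᶠ[𝓝[≠] (a : ℂ)] G := by
  have key : ∀ x : ℝ, 0 ≤ x → ((a : ℂ) + x) = ((a + x : ℝ) : ℂ) := fun x _ => by push_cast; rfl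
  refine mray_eq (fun x hx => ?_) (fun x hx => ?_) (x₁ := σ₀)
    fun s hs => by rw [hFL s hs, hGL s hs]
  · rw [key x hx]
    exact hF _ (by linarith)
  · rw [key x hx]
    exact hG _ (by linarith)

/-- **the leading coefficient** -/
theorem DS.lead (D : DS lam c δ σ₀ L) {w ρ θ a : ℝ} (hρ : 1 < ρ) (hθ : 0 ≤ θ) (ha : w < a)
    (hθa : θ < (a - w) ^ ρ) {r : ℤ} {S : Finset ℂ} {m : ℂ → ℤ} {C y₀ : ℝ}
    (hS : (((a - w) ^ ρ : ℝ) : ℂ) ∉ S)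
    (hC : ∀ y : ℝ, y₀ ≤ y → ‖(TW lam c w ρ y : ℂ) + r * exp (((a - w) ^ ρ : ℝ) * y) -
      ∑ z ∈ S, (m z : ℂ) * exp (z * y)‖ ≤ C * Real.exp (θ * y)) :
    IntegrableOn (integrand (TW lam c w ρ) ((a - w) ^ ρ) r S m) (Ioi 0) ∧
    ∀ F : ℂ → ℂ, (∀ x : ℝ, a ≤ x → MeromorphicAt F x) → (∀ s : ℂ, σ₀ < s.re → F s = L s) →
      Tendsto (fun s : ℂ => F s * (s - a) ^ (-r)) (𝓝[≠] (a : ℂ))
        (𝓝 (leadC (TW lam c w ρ) w ρ a r S m)) := by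
  classical
  have h0 : 0 < ρ⁻¹ := by positivity
  have h1ρ : ρ⁻¹ < 1 := inv_lt_one_of_one_lt₀ hρ
  set v₀ : ℝ := (a - w) ^ ρ with hv₀
  have hv₀p : 0 < v₀ := Real.rpow_pos_of_pos (by linarith) _
  set S' : Finset ℂ := insert (v₀ : ℂ) S with hS'
  set m' : ℂ → ℤ := Function.update m (v₀ : ℂ) (-r) with hm'
  have hsum : ∀ p : ℂ → ℂ, ∑ z ∈ S', (m' z : ℂ) * p z = -r * p v₀ + ∑ z ∈ S, (m z : ℂ) * p z := by
    intro p
    rw [hS', Finset.sum_insert hS, hm', Function.update_self]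
    congr 1
    · push_cast
      ring
    · refine Finset.sum_congr rfl fun z hz => ?_
      rw [Function.update_of_ne (fun h : z = v₀ => hS (h ▸ hz))]
  have hC' : ∀ y : ℝ, y₀ ≤ y → ‖(TW lam c w ρ y : ℂ) - ∑ z ∈ S', (m' z : ℂ) * exp (z * y)‖ ≤
      C * Real.exp (θ * y) := by
    intro y hy
    refine le_trans (le_of_eq ?_) (hC y hy)
    rw [hsum fun z => exp (z * y)]
    congr 1
    ring
  obtain ⟨G, h1, h2, -, -, h3⟩ := D.ext hρ hθ S' m' hC'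
  obtain ⟨hmem, hgm, hgo, σ', x₂, Dt', hx₂, hgE⟩ := D.vplane hρ hθ h2 (fun s _ hs => h1 s hs)
  obtain ⟨hint, hdiff, x₁, hbx₁, hfar⟩ := lead_fn Dt' h0 h1ρ hθ S' m' (C := C) (y₀ := y₀) hC'
  set Ψ : ℂ → ℂ := fun v => ∫ y in Ioi (0 : ℝ),
    exp (-(v * y)) * Hf (T lam (cv lam c w) ρ⁻¹) S' m' y with hΨ
  -- the integrand
  have hinte : ∀ y : ℝ, integrand (TW lam c w ρ) v₀ r S m y =
      exp (-((v₀ : ℂ) * y)) * Hf (T lam (cv lam c w) ρ⁻¹) S' m' y := by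
    intro y
    unfold integrand Hf
    rw [hsum fun z => exp (z * y) - exp (-y)]
    unfold TW
    ring
  have hθv : θ < ((v₀ : ℝ) : ℂ).re := by rw [Complex.ofReal_re]; exact hθa
  refine ⟨?_, ?_⟩
  · have := hint v₀ hθv
    refine this.congr_fun (fun y _ => ?_) measurableSet_Ioi
    exact (hinte y).symm
  -- the function in the variable `v`
  set Pf : ℂ → ℂ := fun v => ∏ z ∈ S', ((v + 1) / (v - z)) ^ (m' z) with hPf
  set Q : ℂ → ℂ := fun v => exp (Ψ v) * Pf v with hQ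
  have hUo : IsOpen {v : ℂ | θ < v.re} := isOpen_lt continuous_const Complex.continuous_re
  have hQm : ∀ v : ℂ, θ < v.re → MeromorphicAt Q v := by
    intro v hv
    have e1 : AnalyticAt ℂ (fun v => exp (Ψ v)) v := by
      have e2 : DifferentiableOn ℂ (fun v => exp (Ψ v)) {v : ℂ | θ < v.re} := fun z hz =>
        (hdiff z hz).cexp.differentiableWithinAt
      exact e2.analyticAt (hUo.mem_nhds hv)
    refine e1.meromorphicAt.mul ?_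
    refine MeromorphicAt.fun_prod fun z _ => ?_
    exact MeromorphicAt.zpow (f := fun v : ℂ => (v + 1) / (v - z))
      (MeromorphicAt.div (f := fun v : ℂ => v + 1) (g := fun v : ℂ => v - z) (by fun_prop)
        (by fun_prop)) _
  have hQG : (fun v : ℂ => G (w + v ^ ((ρ⁻¹ : ℝ) : ℂ))) =ᶠ[𝓝[≠] (v₀ : ℂ)] Q := by
    refine mray_eq (fun x hx => hgm _ ?_) (fun x hx => hQm _ ?_) (x₁ := max x₁ x₂) fun z hz => ?_
    · rw [Complex.add_re, Complex.ofReal_re, Complex.ofReal_re]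
      linarith
    · rw [Complex.add_re, Complex.ofReal_re, Complex.ofReal_re]
      linarith
    · have f1 := (le_max_left x₁ x₂).trans_lt hz
      have f2 := (le_max_right x₁ x₂).trans_lt hz
      rw [hgE z (hbx₁.trans f1) (f2.le.trans (re_le_norm z)), ← hfar z f1]
  -- back to the variable `s`
  have hopen : IsOpen (LvAt w ρ θ) := lvAt_open hρ
  have haLv : (a : ℂ) ∈ LvAt w ρ θ := real_mem hρ ha hθa
  have hslit : (a : ℂ) - w ∈ slitPlane := by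
    rw [← Complex.ofReal_sub]
    exact Complex.ofReal_mem_slitPlane.2 (by linarith)
  have hpow : ((a : ℂ) - w) ^ (ρ : ℂ) = (v₀ : ℂ) := real_pow ha
  have hder : HasDerivAt (fun s : ℂ => (s - w) ^ (ρ : ℂ))
      ((ρ : ℂ) * ((a : ℂ) - w) ^ ((ρ : ℂ) - 1) * 1) (a : ℂ) :=
    ((hasDerivAt_id (a : ℂ)).sub_const _).cpow_const hslit
  have hder' : ((ρ : ℂ) * ((a : ℂ) - w) ^ ((ρ : ℂ) - 1) * 1) =
      ((ρ * (a - w) ^ (ρ - 1) : ℝ) : ℂ) := by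
    rw [mul_one, Complex.ofReal_mul, Complex.ofReal_cpow (by linarith)]
    push_cast
    rfl
  rw [hder'] at hder
  have hcont : Tendsto (fun s : ℂ => (s - w) ^ (ρ : ℂ)) (𝓝[≠] (a : ℂ)) (𝓝 (v₀ : ℂ)) := by
    have := hder.continuousAt.tendsto.mono_left (nhdsWithin_le_nhds (s := {(a : ℂ)}ᶜ))
    rwa [hpow] at this
  have htend : Tendsto (fun t : ℂ => (t - w) ^ (ρ : ℂ)) (𝓝[≠] (a : ℂ)) (𝓝[≠] (v₀ : ℂ)) := by
    refine tendsto_nhdsWithin_of_tendsto_nhds_of_eventually_within _ hcont ?_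
    filter_upwards [self_mem_nhdsWithin, nhdsWithin_le_nhds (hopen.mem_nhds haLv)] with t ht ht2
    intro hcon
    apply ht
    have f1 := (root_eq hρ ht2).2
    have f2 := (root_eq hρ haLv).2
    have hcon' : (t - w) ^ (ρ : ℂ) = v₀ := hcon
    rw [hcon', ← hpow, f2] at f1
    exact f1.symm
  intro F hF hFL
  have hFG := agree hF (fun x hx => h2 _ (real_mem_of_le hρ ha hθa hx)) hFL h1
  -- the slope
  have hslope : Tendsto (fun s : ℂ => ((s - w) ^ (ρ : ℂ) - v₀) / (s - a)) (𝓝[≠] (a : ℂ))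
      (𝓝 ((ρ * (a - w) ^ (ρ - 1) : ℝ) : ℂ)) := by
    have e1 := hasDerivAt_iff_tendsto_slope.1 hder
    refine e1.congr fun s => ?_
    rw [slope_def_field, hpow]
  have hdpos : 0 < ρ * (a - w) ^ (ρ - 1) :=
    mul_pos (by linarith) (Real.rpow_pos_of_pos (by linarith) _)
  have hd0 : ((ρ * (a - w) ^ (ρ - 1) : ℝ) : ℂ) ≠ 0 := by exact_mod_cast hdpos.ne'
  -- the limit of the regular part
  set R : ℂ → ℂ := fun v => exp (Ψ v) * (∏ z ∈ S, ((v + 1) / (v - z)) ^ (m z)) * (v + 1) ^ (-r)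
    with hR
  have hv1 : ((v₀ : ℂ) + 1) ≠ 0 := by
    have : ((v₀ : ℂ) + 1) = ((v₀ + 1 : ℝ) : ℂ) := by push_cast; rfl
    rw [this]
    exact_mod_cast (by linarith : v₀ + 1 ≠ 0)
  have hRc : ContinuousAt R (v₀ : ℂ) := by
    refine ContinuousAt.mul (ContinuousAt.mul (hdiff v₀ hθv).cexp.continuousAt ?_) ?_
    · refine tendsto_finsetProd _ fun z hz => ?_
      have hne : (v₀ : ℂ) - z ≠ 0 := sub_ne_zero.2 fun h => hS (h ▸ hz)
      refine ContinuousAt.zpow₀ ?_ _ (Or.inl (div_ne_zero hv1 hne))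
      exact ContinuousAt.div (by fun_prop) (by fun_prop) hne
    · exact ContinuousAt.zpow₀ (by fun_prop) _ (Or.inl hv1)
  have hlim := (hRc.tendsto.comp hcont).mul (hslope.zpow₀ r (Or.inl hd0))
  have hval : R v₀ * ((ρ * (a - w) ^ (ρ - 1) : ℝ) : ℂ) ^ r = leadC (TW lam c w ρ) w ρ a r S m := by
    rw [hR]
    unfold leadC
    rw [← hv₀]
    simp only
    have e1 : Ψ v₀ = ∫ y in Ioi (0 : ℝ), integrand (TW lam c w ρ) v₀ r S m y := by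
      rw [hΨ]
      simp only
      exact (setIntegral_congr_fun measurableSet_Ioi fun y _ => hinte y).symm
    rw [e1, Complex.ofReal_div, div_zpow, zpow_neg]
    push_cast
    ring
  rw [← hval]
  refine hlim.congr' ?_
  filter_upwards [hFG, htend.eventually hQG, self_mem_nhdsWithin,
    nhdsWithin_le_nhds (hopen.mem_nhds haLv), htend.eventually self_mem_nhdsWithin]
    with s e1 e2 e3 e4 e5
  have hsa : s - a ≠ 0 := sub_ne_zero.2 e3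
  have e6 := (root_eq hρ e4).2
  rw [e6] at e2
  set v : ℂ := (s - w) ^ (ρ : ℂ) with hv
  have hvv : v - v₀ ≠ 0 := sub_ne_zero.2 e5
  rw [e1, e2, hQ, hPf]
  simp only [Function.comp, ← hv]
  rw [hR]
  simp only
  have e7 : ∏ z ∈ S', ((v + 1) / (v - z)) ^ (m' z) =
      ((v + 1) / (v - v₀)) ^ (-r) * ∏ z ∈ S, ((v + 1) / (v - z)) ^ (m z) := by
    rw [hS', Finset.prod_insert hS, hm', Function.update_self]
    congr 1
    refine Finset.prod_congr rfl fun z hz => ?_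
    rw [Function.update_of_ne (fun h : z = v₀ => hS (h ▸ hz))]
  rw [e7, div_zpow, div_zpow]
  simp only [zpow_neg]
  have n1 : (v - v₀) ^ r ≠ 0 := zpow_ne_zero _ hvv
  have n2 : (s - a) ^ r ≠ 0 := zpow_ne_zero _ hsa
  field_simp

lemma leadC_ne (f : ℝ → ℝ) {w ρ a : ℝ} (hρ : 1 < ρ) (ha : w < a) (r : ℤ) {S : Finset ℂ}
    (m : ℂ → ℤ) (hS : (((a - w) ^ ρ : ℝ) : ℂ) ∉ S) : leadC f w ρ a r S m ≠ 0 := by
  have hv₀p : 0 < (a - w) ^ ρ := Real.rpow_pos_of_pos (by linarith) _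
  have hdpos : 0 < (a - w) ^ (ρ - 1) := Real.rpow_pos_of_pos (by linarith) _
  have hv1 : ((((a - w) ^ ρ : ℝ) : ℂ) + 1) ≠ 0 := by
    have : ((((a - w) ^ ρ : ℝ) : ℂ) + 1) = (((a - w) ^ ρ + 1 : ℝ) : ℂ) := by push_cast; rfl
    rw [this]
    exact_mod_cast (by linarith : (a - w) ^ ρ + 1 ≠ 0)
  unfold leadC
  refine mul_ne_zero (mul_ne_zero (Complex.exp_ne_zero _) ?_) (zpow_ne_zero _ ?_)
  · refine Finset.prod_ne_zero_iff.2 fun z hz => zpow_ne_zero _ (div_ne_zero hv1 ?_)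
    exact sub_ne_zero.2 fun h => hS (h ▸ hz)
  · have : 0 < ρ * (a - w) ^ (ρ - 1) / ((a - w) ^ ρ + 1) := by positivity
    exact_mod_cast this.ne'

/-- continuation along the real axis with order `r` and leading coefficient `A` at `a` -/
def LeadTo (L : ℂ → ℂ) (σ₀ a : ℝ) (r : ℤ) (A : ℂ) : Prop :=
  ∃ G : ℂ → ℂ, (∀ x : ℝ, a ≤ x → MeromorphicAt G x) ∧ (∀ s : ℂ, σ₀ < s.re → G s = L s) ∧
    Tendsto (fun s : ℂ => G s * (s - a) ^ (-r)) (𝓝[≠] (a : ℂ)) (𝓝 A) ∧ A ≠ 0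

/-- expansion of `f` with the coefficient `-r` at the exponent `(a - w) ^ ρ`, and the value `A` -/
def ExpdL (f : ℝ → ℝ) (w ρ a : ℝ) (r : ℤ) (A : ℂ) : Prop :=
  ∃ (θ : ℝ) (S : Finset ℂ) (m : ℂ → ℤ) (C : ℝ), 0 ≤ θ ∧ θ < (a - w) ^ ρ ∧
    (((a - w) ^ ρ : ℝ) : ℂ) ∉ S ∧ (∀ᶠ y : ℝ in atTop,
      ‖(f y : ℂ) + r * exp (((a - w) ^ ρ : ℝ) * y) - ∑ z ∈ S, (m z : ℂ) * exp (z * y)‖ ≤
        C * Real.exp (θ * y)) ∧ A = leadC f w ρ a r S m

/-- the order from the limit -/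
lemma order_of_lim {G : ℂ → ℂ} {a : ℂ} {r : ℤ} {A : ℂ} (hG : MeromorphicAt G a) (hA : A ≠ 0)
    (h : Tendsto (fun s : ℂ => G s * (s - a) ^ (-r)) (𝓝[≠] a) (𝓝 A)) :
    meromorphicOrderAt G a = r := by
  have hp : MeromorphicAt (fun s : ℂ => (s - a) ^ (-r)) a :=
    MeromorphicAt.zpow (f := fun s : ℂ => s - a) (by fun_prop) _
  have h1 : meromorphicOrderAt (fun s : ℂ => G s * (s - a) ^ (-r)) a = 0 :=
    (tendsto_ne_zero_iff_meromorphicOrderAt_eq_zero (hG.mul hp)).1 ⟨A, hA, h⟩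
  have h2 : meromorphicOrderAt (fun s : ℂ => (s - a) ^ (-r)) a = ((-r : ℤ) : WithTop ℤ) := by
    rw [meromorphicOrderAt_eq_int_iff hp]
    exact ⟨fun _ => 1, analyticAt_const, one_ne_zero, Eventually.of_forall fun s => by simp⟩
  have h3 : meromorphicOrderAt (fun s : ℂ => G s * (s - a) ^ (-r)) a =
      meromorphicOrderAt G a + ((-r : ℤ) : WithTop ℤ) := by
    rw [← h2]
    exact meromorphicOrderAt_mul hG hp
  rw [h1] at h3
  have hne : meromorphicOrderAt G a ≠ ⊤ := fun h => by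
    rw [h] at h3
    simp at h3
  obtain ⟨n, hn⟩ := WithTop.ne_top_iff_exists.1 hne
  rw [← hn] at h3 ⊢
  have h4 : (0 : ℤ) = n + -r := by exact_mod_cast h3
  have h5 : n = r := by omega
  rw [h5]

/-- **Order and leading coefficient at a real point, and exponential expansions.** -/
theorem DS.lead_tfae (D : DS lam c δ σ₀ L) (a : ℝ) (r : ℤ) (A : ℂ) : List.TFAE [
    LeadTo L σ₀ a r A,
    ∃ w ρ : ℝ, w < a ∧ 1 < ρ ∧ ExpdL (TW lam c w ρ) w ρ a r A,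
    ∃ ε : ℝ, 0 < ε ∧ ∀ w : ℝ, a - ε < w → w < a → ∃ ρ₀ : ℝ, ∀ ρ : ℝ, 1 < ρ → ρ₀ < ρ →
      ExpdL (TW lam c w ρ) w ρ a r A] := by
  have hneBot : (𝓝[≠] (a : ℂ)).NeBot := inferInstance
  tfae_have 1 → 3 := by
    rintro ⟨G, h1, h2, h3, h4⟩
    have h5 : ContTo L σ₀ a r := ⟨G, h1, h2, order_of_lim (h1 a le_rfl) h4 h3⟩
    obtain ⟨ε, hε, h6⟩ := ((D.axis_tfae a r).out 0 2).1 h5
    refine ⟨ε, hε, fun w hw hwa => ?_⟩
    obtain ⟨ρ₀, h7⟩ := h6 w hw hwa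
    refine ⟨ρ₀, fun ρ hρ hρ₀ => ?_⟩
    obtain ⟨θ, S, m, C, e1, e2, e3, e4⟩ := h7 ρ hρ hρ₀
    refine ⟨θ, S, m, C, e1, e2, e3, e4, ?_⟩
    obtain ⟨y₀, hy₀⟩ := e4.exists_forall_of_atTop
    exact tendsto_nhds_unique h3 ((DS.lead D hρ e1 hwa e2 e3 hy₀).2 G h1 h2)
  tfae_have 3 → 2 := by
    rintro ⟨ε, hε, h⟩
    obtain ⟨ρ₀, h1⟩ := h (a - ε / 2) (by linarith) (by linarith)
    refine ⟨a - ε / 2, max ρ₀ 1 + 1, by linarith, ?_, h1 _ ?_ ?_⟩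
    · have := le_max_right ρ₀ 1
      linarith
    · have := le_max_right ρ₀ 1
      linarith
    · have := le_max_left ρ₀ 1
      linarith
  tfae_have 2 → 1 := by
    rintro ⟨w, ρ, hw, hρ, θ, S, m, C, e1, e2, e3, e4, e5⟩
    obtain ⟨G, h1, h2, h3⟩ := D.of_expd hρ hw (r := r) ⟨θ, S, m, C, e1, e2, e3, e4⟩
    obtain ⟨y₀, hy₀⟩ := e4.exists_forall_of_atTop
    refine ⟨G, h1, h2, ?_, ?_⟩
    · rw [e5]
      exact (DS.lead D hρ e1 hw e2 e3 hy₀).2 G h1 h2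
    · rw [e5]
      exact leadC_ne _ hρ hw r m e3
  tfae_finish

/-- one pair `(w, ρ)` decides, for functions meromorphic in the region -/
theorem DS.lead_region (D : DS lam c δ σ₀ L) {w ρ θ a : ℝ} (hρ : 1 < ρ) (hθ : 0 ≤ θ) (ha : w < a)
    (hθa : θ < (a - w) ^ ρ) {G : ℂ → ℂ} (hG : ∀ s ∈ LvAt w ρ θ, MeromorphicAt G s)
    (hGL : ∀ s : ℂ, σ₀ < s.re → G s = L s) (r : ℤ) {A : ℂ} (hA : A ≠ 0) :
    Tendsto (fun s : ℂ => G s * (s - a) ^ (-r)) (𝓝[≠] (a : ℂ)) (𝓝 A) ↔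
      ExpdL (TW lam c w ρ) w ρ a r A := by
  have hax : ∀ x : ℝ, a ≤ x → MeromorphicAt G x := fun x hx =>
    hG _ (real_mem_of_le hρ ha hθa hx)
  constructor
  · intro h
    obtain ⟨θ', S, m, C, e1, e2, e3, e4⟩ := D.expd_of hρ hθ ha hθa hG (fun s _ hs => hGL s hs)
      (order_of_lim (hax a le_rfl) hA h)
    refine ⟨θ', S, m, C, e1, e2, e3, e4, ?_⟩
    obtain ⟨y₀, hy₀⟩ := e4.exists_forall_of_atTop
    exact tendsto_nhds_unique h ((DS.lead D hρ e1 ha e2 e3 hy₀).2 G hax hGL)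
  · rintro ⟨θ', S, m, C, e1, e2, e3, e4, e5⟩
    obtain ⟨y₀, hy₀⟩ := e4.exists_forall_of_atTop
    rw [e5]
    exact (DS.lead D hρ e1 ha e2 e3 hy₀).2 G hax hGL

end Pool.Agent.R791.Lead
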