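import Pool.Agent.R791.Lead3
import Pool.Agent.R791.HeatFrob

/-!
# The leading coefficients of Euler products with Frobenius eigenvalues
-/

set_option autoImplicit false

namespace Pool.Agent.R791.Frob

open Filter Topology Complex NumberField IsDedekindDomain MeasureTheory Set
open Pool.Agent.TH942.LS (Dat P P_le)
open Pool.Agent.TH942.ES Pool.Agent.TH942.SL Pool.Agent.R791.SectGen Pool.Agent.R791.Level
open Pool.Agent.R791.Heat Pool.Agent.R791.Dir Pool.Agent.R791.Lead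
open Pool.Agent.H921R2.TatePole (nm two_le_nm)

variable {K : Type} [Field K] [NumberField K] {d : ℕ} {c : ℝ}

/-- `K_ρ(u) = (2π)⁻¹ ∫ Re exp (z - u z^(1/ρ)) dt`, `z = 1 + it`. -/
noncomputable def kern (ρ u : ℝ) : ℝ :=
  (2 * Real.pi)⁻¹ * ∫ t : ℝ, (Complex.exp ((1 + t * Complex.I) -
    u * (1 + t * Complex.I) ^ ((ρ⁻¹ : ℝ) : ℂ))).re

namespace Frobenius

variable (V : Frobenius K d c)

/-- The term `∑ᵢ α_{v,i}^k / (k Nv^(kw)) K_ρ(k log Nv / y^(1/ρ))` of the prime `v = p.1` and of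
`k = p.2 + 1`. -/
noncomputable def stTerm (w ρ y : ℝ) (p : {v // v ∉ V.bad} × ℕ) : ℝ :=
  (∑ i, V.eig p.1.1 i ^ (p.2 + 1)).re / (((p.2 : ℝ) + 1) * ((nm p.1.1 : ℝ) ^ w) ^ (p.2 + 1)) *
    kern ρ (((p.2 : ℝ) + 1) * Real.log (nm p.1.1) / y ^ ρ⁻¹)

/-- The sum of these terms over all primes `v ∉ bad` and all `k ≥ 1`. -/
noncomputable def stMean (w ρ y : ℝ) : ℝ := ∑' p : {v // v ∉ V.bad} × ℕ, V.stTerm w ρ y p

lemma stTerm_eq (w ρ : ℝ) {y : ℝ} (hy : 0 < y) (p : {v // v ∉ V.bad} × ℕ) :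
    V.stTerm w ρ y p = cP (fun v : {v // v ∉ V.bad} => nm v.1) V.al p *
      Real.exp (-((w - c) * lamP (fun v : {v // v ∉ V.bad} => nm v.1) p)) *
      gk ρ⁻¹ (lamP (fun v : {v // v ∉ V.bad} => nm v.1) p * y ^ (-ρ⁻¹ : ℝ)) := by
  have E := V.sys
  have hN := nm_pos (K := K) p.1.1
  have hlam : lamP (fun v : {v // v ∉ V.bad} => nm v.1) p =
      ((p.2 : ℝ) + 1) * Real.log (nm p.1.1) := rfl
  rw [E.exp_lamP]
  unfold cP stTerm
  have h2 : kern ρ (((p.2 : ℝ) + 1) * Real.log (nm p.1.1) / y ^ ρ⁻¹) =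
      gk ρ⁻¹ (lamP (fun v : {v // v ∉ V.bad} => nm v.1) p * y ^ (-ρ⁻¹ : ℝ)) := by
    rw [Real.rpow_neg hy.le, hlam, ← div_eq_mul_inv]
    rfl
  rw [h2, V.pow_sum, Complex.ofReal_re]
  have e3 : (((nm p.1.1 : ℝ) ^ w) ^ (p.2 + 1))⁻¹ = (((nm p.1.1 : ℝ) ^ c) ^ (p.2 + 1))⁻¹ *
      ((nm p.1.1 : ℝ) ^ (-(w - c))) ^ (p.2 + 1) := by
    rw [← inv_pow, ← inv_pow, ← mul_pow, ← Real.rpow_neg hN.le, ← Real.rpow_neg hN.le,
      ← Real.rpow_add hN]
    congr 2
    ring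
  rw [div_mul_eq_div_div, div_eq_mul_inv _ (((nm p.1.1 : ℝ) ^ w) ^ (p.2 + 1)), e3]
  have hc0 : ((nm p.1.1 : ℝ) ^ c) ^ (p.2 + 1) ≠ 0 := by
    have := Real.rpow_pos_of_pos hN c
    positivity
  field_simp

lemma stMean_eq (w ρ : ℝ) {y : ℝ} (hy : 0 < y) : V.stMean w ρ y =
    TE (fun v : {v // v ∉ V.bad} => nm v.1) V.al (w - c) ρ y := by
  unfold stMean TE
  exact tsum_congr fun p => V.stTerm_eq w ρ hy p

theorem stTerm_summable (w : ℝ) {ρ y : ℝ} (hρ : 1 < ρ) (hy : 0 < y) :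
    Summable (V.stTerm w ρ y) := by
  refine (TE_summable V.sys (w := w - c) (ρ := ρ) hρ hy).congr fun p => ?_
  exact (V.stTerm_eq w ρ hy p).symm

/-- the Dirichlet series of the logarithm -/
theorem exists_ds : ∃ (lam cc : ℕ → ℝ), DS lam cc (Real.log 2) (c + 1 / 2) V.LSeries ∧
    ∀ w ρ y : ℝ, 0 < y → TW lam cc w ρ y = V.stMean w ρ y := by
  have E := V.sys
  have := E.cnt
  obtain ⟨e, he⟩ := Countable.exists_injective_nat ({v // v ∉ V.bad} × ℕ)
  set N : {v // v ∉ V.bad} → ℕ := fun v => nm v.1 with hN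
  set lam : ℕ → ℝ := lamS N e with hlam
  set cc : ℕ → ℝ := fun n => cS N V.al e n * Real.exp (c * lam n) with hcc
  refine ⟨lam, cc, ⟨Real.log_pos (by norm_num), (E.datS he (σ := 1) (by norm_num)).lam_ge,
    fun σ hσ => ?_, fun s hs => ?_⟩, fun w ρ y hy => ?_⟩
  · refine (E.datS he (σ := σ - c) (by linarith)).sum.congr fun n => ?_
    rw [hcc]
    simp only
    rw [abs_mul, Real.abs_exp, mul_assoc, ← Real.exp_add]
    congr 2
    ring
  · have e1 := V.LE_eq s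
    have e2 := E.exp_DD V.hreal he (s := s - c) (by
      rw [Complex.sub_re, Complex.ofReal_re]
      linarith)
    rw [← e1, ← e2]
    congr 1
    unfold DD
    refine tsum_congr fun n => ?_
    rw [hcc]
    push_cast
    rw [mul_assoc, ← Complex.exp_add]
    congr 2
    ring
  · rw [V.stMean_eq w ρ hy, TE_eq he]
    unfold TW T
    refine tsum_congr fun n => ?_
    congr 1
    unfold Pool.Agent.R791.Dir.cv cW
    rw [hcc]
    simp only
    rw [mul_assoc, ← Real.exp_add]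
    congr 2
    ring

end Frobenius

end Pool.Agent.R791.Frob
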