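import Pool.Agent.TH942.ES.Ext

/-!
# Levels of zero-free continuation of an Euler product and the growth of the sectorial means

Generalisation of the theorems `ext`, `up_ext` of `Pool.Agent.TH942.SL` from the half plane `Re v > 0`
to the half planes `Re v > a`, `a ≥ 0`, where `v = s ^ ρ`. No analytic continuation is assumed.
-/

set_option autoImplicit false

open MeasureTheory Filter Topology Set Complex
open Pool.Agent.TH942.LS (Dat P P_le Cont)
open Pool.Agent.TH942.SL

namespace Pool.Agent.R791.Level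

section Prep

/-- two functions which are analytic along a horizontal ray and agree far to the right agree at its
end point -/
theorem ray_eq {f g : ℂ → ℂ} {v : ℂ} (hf : ∀ x : ℝ, 0 ≤ x → AnalyticAt ℂ f (v + x))
    (hg : ∀ x : ℝ, 0 ≤ x → AnalyticAt ℂ g (v + x)) {x₁ : ℝ} (h : ∀ w : ℂ, x₁ < w.re → f w = g w) :
    f v = g v := by
  set R : Set ℂ := (fun x : ℝ => v + x) '' Ici (0 : ℝ) with hR
  have hpre : IsPreconnected R :=
    isPreconnected_Ici.image _ (by fun_prop)
  have hfR : AnalyticOnNhd ℂ f R := by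
    rintro _ ⟨x, hx, rfl⟩
    exact hf x hx
  have hgR : AnalyticOnNhd ℂ g R := by
    rintro _ ⟨x, hx, rfl⟩
    exact hg x hx
  set x₂ : ℝ := max 0 (x₁ - v.re + 1) with hx₂
  have h0 : v + (x₂ : ℂ) ∈ R := ⟨x₂, Set.mem_Ici.2 (le_max_left _ _), rfl⟩
  have ho : IsOpen {w : ℂ | x₁ < w.re} := isOpen_lt continuous_const Complex.continuous_re
  have h1 : v + (x₂ : ℂ) ∈ {w : ℂ | x₁ < w.re} := by
    change x₁ < (v + (x₂ : ℂ)).re
    rw [Complex.add_re, Complex.ofReal_re]
    have := le_max_right 0 (x₁ - v.re + 1)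
    linarith
  have h2 := hfR.eqOn_of_preconnected_of_eventuallyEq hgR hpre h0 (by
    filter_upwards [ho.mem_nhds h1] with w hw
    exact h w hw)
  exact h2 ⟨0, Set.mem_Ici.2 le_rfl, by simp⟩

/-- the real part of `w ^ α` increases along horizontal rays -/
theorem re_pow_mono {α : ℝ} (h0 : 0 < α) (h1 : α < 1) {v : ℂ} (hv : 0 < v.re) {x : ℝ} (hx : 0 ≤ x) :
    (v ^ (α : ℂ)).re ≤ ((v + x) ^ (α : ℂ)).re := by
  have hd : ∀ t : ℝ, 0 ≤ t → HasDerivAt (fun t : ℝ => ((v + t) ^ (α : ℂ)).re)
      ((α * (v + t) ^ ((α : ℂ) - 1)).re) t := by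
    intro t ht
    have hvt : 0 < (v + t).re := by rw [Complex.add_re, Complex.ofReal_re]; linarith
    have e1 : HasDerivAt (fun z : ℂ => (v + z) ^ (α : ℂ)) (α * (v + t) ^ ((α : ℂ) - 1)) (t : ℂ) := by
      have e2 := pow_deriv (α := α) (slit hvt)
      have e3 : HasDerivAt (fun z : ℂ => v + z) 1 (t : ℂ) := (hasDerivAt_id _).const_add v
      have e4 : HasDerivAt ((fun w : ℂ => w ^ (α : ℂ)) ∘ fun z : ℂ => v + z)
          (α * (v + t) ^ ((α : ℂ) - 1) * 1) (t : ℂ) := HasDerivAt.comp (t : ℂ) e2 e3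
      rw [mul_one] at e4
      exact e4
    exact e1.real_of_complex
  have hpos : ∀ t : ℝ, 0 ≤ t → 0 ≤ (α * (v + t) ^ ((α : ℂ) - 1)).re := by
    intro t ht
    have hvt : 0 < (v + t).re := by rw [Complex.add_re, Complex.ofReal_re]; linarith
    rw [Complex.re_ofReal_mul]
    refine mul_nonneg h0.le ?_
    have e1 : (v + t) ^ ((α : ℂ) - 1) = ((v + t) ^ (((1 - α : ℝ)) : ℂ))⁻¹ := by
      rw [← Complex.cpow_neg]
      congr 1
      push_cast
      ring
    rw [e1, Complex.inv_re]
    exact div_nonneg (re_pow_pos (by linarith) (by linarith) hvt).le (Complex.normSq_nonneg _)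
  have hm : MonotoneOn (fun t : ℝ => ((v + t) ^ (α : ℂ)).re) (Ici 0) := by
    refine monotoneOn_of_deriv_nonneg (convex_Ici 0) ?_ ?_ ?_
    · exact fun t ht => (hd t ht).continuousAt.continuousWithinAt
    · intro t ht
      rw [interior_Ici] at ht
      exact (hd t ht.le).differentiableAt.differentiableWithinAt
    · intro t ht
      rw [interior_Ici] at ht
      rw [(hd t ht.le).deriv]
      exact hpos t ht.le
  have := hm (Set.mem_Ici.2 le_rfl) (Set.mem_Ici.2 hx) hx
  simpa using this

end Prep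

section Vplane

variable {α : ℝ} {lam c : ℕ → ℝ} {δ σ : ℝ}

/-- **the continuation in the variable `v` to the half plane `Re v > a`** -/
theorem ext_lvl (D : Dat lam c δ σ) (h0 : 0 < α) (h1 : α < 1) {a : ℝ} (ha : 0 ≤ a)
    (hM : ∀ ε : ℝ, 0 < ε → ∃ C y₀ : ℝ, ∀ y, y₀ ≤ y →
      |M lam c α y| ≤ C * Real.exp ((a + ε) * y)) :
    ∃ (fh : ℂ → ℂ) (x₁ : ℝ), (∀ v : ℂ, a < v.re → DifferentiableAt ℂ fh v) ∧
      ∀ v : ℂ, x₁ < v.re → fh v = f₀ lam c α v := by
  obtain ⟨x₀', hx1', hx₀'⟩ := exists_abscissa h0 h1 σ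
  set x₀ : ℝ := max x₀' a with hx₀def
  have hx1 : 1 ≤ x₀ := hx1'.trans (le_max_left _ _)
  have hax : a ≤ x₀ := le_max_right _ _
  have hx₀ : ∀ z : ℂ, 0 < z.re → x₀ ≤ ‖z‖ → σ + 1 ≤ kap α * ‖z‖ ^ α := fun z hz h =>
    hx₀' z hz ((le_max_left _ _).trans h)
  obtain ⟨g, K, hK, hgc, hneg, hgpos, hgb, hinv⟩ := lines D h0 h1 hx1 hx₀
  have hx00 : 0 < x₀ := by linarith
  set U : Set ℂ := {v | a < v.re} with hU
  have hUo : IsOpen U := isOpen_lt continuous_const Complex.continuous_re
  have hUc : Convex ℝ U := convex_halfSpace_re_gt a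
  set W : Set ℂ := {v | x₀ < v.re} with hW
  have hWo : IsOpen W := isOpen_lt continuous_const Complex.continuous_re
  have hWc : Convex ℝ W := convex_halfSpace_re_gt x₀
  have hWU : W ⊆ U := fun v hv => lt_of_le_of_lt hax hv
  have hUpos : ∀ v ∈ U, 0 < v.re := fun v hv => lt_of_le_of_lt ha hv
  -- the Laplace transform
  set G : ℂ → ℂ := fun v => ∫ y in Ioi (0 : ℝ), exp (-(v * y)) * g y with hG
  have hGW : ∀ v ∈ W, G v = hh (f₀ lam c α) (f₁ lam c α) v := by
    intro v hv
    have e1 := hinv v.re hv v.im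
    rw [Complex.re_add_im] at e1
    rw [← e1, hG]
    simp only
    rw [← integral_indicator measurableSet_Ioi]
    refine integral_congr_ae ?_
    have e2 : ∀ᵐ y : ℝ, y ≠ 0 := by
      rw [ae_iff]
      simp
    filter_upwards [e2] with y hy
    by_cases hy2 : y ∈ Ioi (0 : ℝ)
    · rw [indicator_of_mem hy2]
    · rw [indicator_of_notMem hy2]
      have : y < 0 := lt_of_le_of_ne (not_lt.1 hy2) hy
      rw [hneg y this, mul_zero]
  have hGd : DifferentiableOn ℂ G U := by
    intro t ht
    have ht' : a < t.re := ht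
    set ε : ℝ := (t.re - a) / 3 with hε
    have hε0 : 0 < ε := by rw [hε]; linarith
    obtain ⟨C, y₀, hC⟩ := hM (ε / 2) (by linarith)
    set O : Set ℂ := {v | a + 2 * ε < v.re} with hO
    have hOo : IsOpen O := isOpen_lt continuous_const Complex.continuous_re
    -- a bound
    set C' : ℝ := K * Real.exp (x₀ * |y₀|) + |C| / (ε / 2) with hC'
    have hC'0 : 0 ≤ C' := by positivity
    have hbd : ∀ y, 0 < y → ‖g y‖ ≤ C' * Real.exp ((a + ε) * y) := by
      intro y hy
      have e0 : 1 ≤ Real.exp ((a + ε) * y) := Real.one_le_exp (by positivity)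
      rcases le_total y₀ y with h | h
      · rw [hgpos y hy, Complex.norm_real, Real.norm_eq_abs, abs_mul, abs_of_pos hy]
        have e1 := hC y h
        have e2 : y ≤ Real.exp (ε / 2 * y) / (ε / 2) := by
          rw [le_div_iff₀ (by linarith)]
          have := Real.add_one_le_exp (ε / 2 * y)
          linarith
        have e3 : C * Real.exp ((a + ε / 2) * y) ≤ |C| * Real.exp ((a + ε / 2) * y) :=
          mul_le_mul_of_nonneg_right (le_abs_self C) (Real.exp_pos _).le
        calc y * |M lam c α y| ≤ (Real.exp (ε / 2 * y) / (ε / 2)) *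
              (|C| * Real.exp ((a + ε / 2) * y)) :=
              mul_le_mul e2 (e1.trans e3) (abs_nonneg _) (by positivity)
          _ = |C| / (ε / 2) * (Real.exp (ε / 2 * y) * Real.exp ((a + ε / 2) * y)) := by ring
          _ = |C| / (ε / 2) * Real.exp ((a + ε) * y) := by
            rw [← Real.exp_add]
            congr 2
            ring
          _ ≤ C' * Real.exp ((a + ε) * y) := by
            refine mul_le_mul_of_nonneg_right ?_ (Real.exp_pos _).le
            rw [hC']
            have : 0 ≤ K * Real.exp (x₀ * |y₀|) := by positivity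
            linarith
      · have e1 := hgb y
        have e2 : Real.exp (x₀ * y) ≤ Real.exp (x₀ * |y₀|) := by
          apply Real.exp_le_exp.2
          exact mul_le_mul_of_nonneg_left (h.trans (le_abs_self y₀)) (by linarith)
        calc ‖g y‖ ≤ K * Real.exp (x₀ * |y₀|) := e1.trans (mul_le_mul_of_nonneg_left e2 hK)
          _ ≤ C' := by
            rw [hC']
            have : 0 ≤ |C| / (ε / 2) := by positivity
            linarith
          _ ≤ _ := le_mul_of_one_le_right hC'0 e0
    have hexp : Integrable (fun T : ℝ => C' * Real.exp (-(ε * T))) (volume.restrict (Ioi 0)) := by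
      have := integrableOn_exp_mul_Ioi (a := -ε) (by linarith) 0
      refine Integrable.const_mul ?_ _
      refine this.congr_fun (fun T _ => ?_) measurableSet_Ioi
      simp only
      congr 1
      ring
    have h2 := Pool.Agent.HP.differentiableOn_integral (volume.restrict (Ioi (0 : ℝ)))
      (fun (y : ℝ) (v : ℂ) => if 0 < y then exp (-(v * y)) * g y else 0) O hOo
      (fun v _ => ?_) (fun y => ?_) (fun y => if 0 < y then C' * Real.exp (-(ε * y)) else 0) ?_
      (fun y v hv => ?_)
    · have h3 : (fun v : ℂ => ∫ y in Ioi (0 : ℝ),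
          (if 0 < y then exp (-(v * y)) * g y else 0)) = G := by
        funext v
        rw [hG]
        refine setIntegral_congr_fun measurableSet_Ioi fun y hy => ?_
        rw [if_pos (show 0 < y from hy)]
      rw [h3] at h2
      exact (h2.differentiableAt (hOo.mem_nhds
        (show a + 2 * ε < t.re by rw [hε]; linarith))).differentiableWithinAt
    · have h3 : AEStronglyMeasurable (fun y : ℝ => exp (-(v * y)) * g y)
          (volume.restrict (Ioi 0)) := Continuous.aestronglyMeasurable (by fun_prop)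
      refine h3.congr ?_
      filter_upwards [ae_restrict_mem measurableSet_Ioi] with y hy
      rw [if_pos (show 0 < y from hy)]
    · by_cases hy : 0 < y
      · simp only [hy, if_true]
        exact Differentiable.differentiableOn (by fun_prop)
      · simp only [hy, if_false]
        exact differentiableOn_const _
    · refine hexp.congr ?_
      filter_upwards [ae_restrict_mem measurableSet_Ioi] with y hy
      rw [if_pos (show 0 < y from hy)]
    · split_ifs with hy
      · have hv' : a + 2 * ε < v.re := hv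
        rw [norm_mul, Complex.norm_exp]
        have e1 : (-(v * (y : ℂ))).re = -(v.re * y) := by
          rw [Complex.neg_re, Complex.re_mul_ofReal]
        rw [e1]
        calc Real.exp (-(v.re * y)) * ‖g y‖ ≤
              Real.exp (-((a + 2 * ε) * y)) * (C' * Real.exp ((a + ε) * y)) := by
              refine mul_le_mul (Real.exp_le_exp.2 ?_) (hbd y hy) (norm_nonneg _) (Real.exp_pos _).le
              nlinarith
          _ = C' * (Real.exp (-((a + 2 * ε) * y)) * Real.exp ((a + ε) * y)) := by ring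
          _ = _ := by
            rw [← Real.exp_add]
            congr 2
            ring
      · simp
  -- a primitive
  obtain ⟨GG, hGG⟩ := convex_primitive hUo hUc hGd
  have hWx : ∀ v ∈ W, 0 < v.re ∧ σ + 1 ≤ kap α * ‖v‖ ^ α ∧ σ < (v ^ (α : ℂ)).re := by
    intro v hv
    have e1 : 0 < v.re := hUpos v (hWU hv)
    have hv' : x₀ < v.re := hv
    have e2 : x₀ ≤ ‖v‖ := hv'.le.trans (re_le_norm v)
    have e3 := hx₀ v e1 e2
    have e4 := re_pow_ge h0 h1 e1
    exact ⟨e1, e3, by linarith⟩
  set w₀ : ℂ := ((x₀ + 1 : ℝ) : ℂ) with hw₀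
  have hw₀W : w₀ ∈ W := by
    change x₀ < w₀.re
    rw [hw₀, Complex.ofReal_re]
    linarith
  set k : ℂ := f₀ lam c α w₀ / w₀ + GG w₀ with hk
  have hconst : ∀ v ∈ W, f₀ lam c α v / v + GG v = k := by
    have hd : ∀ v ∈ W, HasDerivAt (fun v => f₀ lam c α v / v + GG v) 0 v := by
      intro v hv
      obtain ⟨e1, e2, e3⟩ := hWx v hv
      have e4 := (f₀_deriv D e1 e3).div (hasDerivAt_id v) (ne_zero' e1)
      refine (e4.add (hGG v (hWU hv))).congr_deriv ?_
      rw [hGW v hv]
      have := ne_zero' e1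
      simp only [hh, id]
      field_simp
      ring
    intro v hv
    refine hWc.is_const_of_fderivWithin_eq_zero (𝕜 := ℂ)
      (fun z hz => (hd z hz).differentiableAt.differentiableWithinAt) (fun z hz => ?_) hv hw₀W
    rw [fderivWithin_of_isOpen hWo hz]
    ext
    simp [(hd z hz).deriv]
  refine ⟨fun v => v * (k - GG v), x₀, fun v hv => ?_, fun v hv => ?_⟩
  · exact differentiableAt_id.mul ((differentiableAt_const k).sub (hGG v hv).differentiableAt)
  · have e1 := ne_zero' (hWx v hv).1
    simp only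
    rw [← hconst v hv]
    field_simp
    ring

/-- **the upper bound for the means** from a function in the half plane `Re v > a` -/
theorem up_lvl (D : Dat lam c δ σ) (h0 : 0 < α) (h1 : α < 1) {a : ℝ} (ha : 0 ≤ a) {f : ℂ → ℂ}
    (hf : ∀ v : ℂ, a < v.re → DifferentiableAt ℂ f v) {x₁ : ℝ}
    (hfar : ∀ v : ℂ, x₁ < v.re → f v = f₀ lam c α v) {c₀ : ℝ} (hc : a < c₀) :
    ∃ C : ℝ, ∀ y : ℝ, 1 ≤ y → |M lam c α y| ≤ C * Real.exp (c₀ * y) := by
  have hUo : IsOpen {v : ℂ | a < v.re} := isOpen_lt continuous_const Complex.continuous_re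
  have hfa : ∀ v : ℂ, a < v.re → AnalyticAt ℂ f v := fun v hv => by
    have h2 : DifferentiableOn ℂ f {v : ℂ | a < v.re} := fun z hz =>
      (hf z hz).differentiableWithinAt
    exact h2.analyticAt (hUo.mem_nhds hv)
  obtain ⟨x₂, hx11, hx₂⟩ := exists_abscissa h0 h1 σ
  set O : Set ℂ := {v : ℂ | 0 < v.re ∧ x₂ < ‖v‖} with hO
  have hOo : IsOpen O :=
    (isOpen_lt continuous_const Complex.continuous_re).inter (isOpen_lt continuous_const continuous_norm)
  have hOσ : ∀ v ∈ O, σ < (v ^ (α : ℂ)).re := fun v hv => by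
    have e1 := hx₂ v hv.1 hv.2.le
    have e2 := re_pow_ge h0 h1 hv.1
    linarith
  have hf₀a : ∀ v ∈ O, AnalyticAt ℂ (f₀ lam c α) v := fun v hv => by
    have h2 : DifferentiableOn ℂ (f₀ lam c α) O := fun z hz =>
      (f₀_deriv D hz.1 (hOσ z hz)).differentiableAt.differentiableWithinAt
    exact h2.analyticAt (hOo.mem_nhds hv)
  have hray : ∀ v ∈ O, ∀ x : ℝ, 0 ≤ x → v + x ∈ O := fun v hv x hx => by
    have e1 : 0 < v.re := hv.1
    have e2 : x₂ < ‖v‖ := hv.2
    have e3 : (v + (x : ℂ)).re = v.re + x := by rw [Complex.add_re, Complex.ofReal_re]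
    have e4 : (v + (x : ℂ)).im = v.im := by rw [Complex.add_im, Complex.ofReal_im, add_zero]
    refine ⟨by rw [e3]; linarith, ?_⟩
    refine e2.trans_le ?_
    rw [Complex.norm_eq_sqrt_sq_add_sq, Complex.norm_eq_sqrt_sq_add_sq]
    apply Real.sqrt_le_sqrt
    rw [e3, e4]
    nlinarith
  have heq : ∀ v ∈ O, a < v.re → f v = f₀ lam c α v := fun v hv hav =>
    ray_eq (fun x hx => hfa _ (by rw [Complex.add_re, Complex.ofReal_re]; linarith))
      (fun x hx => hf₀a _ (hray v hv x hx)) hfar
  refine up_gen D h0 h1 ha (f := f) (f' := deriv f) (fun v hv => (hf v hv).hasDerivAt)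
    (fun v hv => (hfa v hv).deriv.differentiableAt) (x₂ := x₂ + 1) (fun v hv hv2 => ?_) hc
  have hvO : v ∈ O := ⟨lt_of_le_of_lt ha hv, by linarith⟩
  refine ⟨heq v hvO hv, ?_⟩
  have e5 : f =ᶠ[𝓝 v] f₀ lam c α := by
    filter_upwards [hOo.mem_nhds hvO, hUo.mem_nhds hv] with w h2 h3
    exact heq w h2 h3
  rw [e5.deriv_eq]
  exact (f₀_deriv D hvO.1 (hOσ v hvO)).deriv

end Vplane

end Pool.Agent.R791.Level
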