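import Pool.Agent.R791.Level

/-!
# Levels of zero-free continuation of an Euler product = growth exponents of the sectorial means
-/

set_option autoImplicit false

open MeasureTheory Filter Topology Set Complex
open Pool.Agent.TH942.LS (Dat P P_le Cont)
open Pool.Agent.TH942.SL Pool.Agent.TH942.ES

namespace Pool.Agent.R791.Level

variable {X : Type} {d : ℕ} {N : X → ℕ} {α : X → Fin d → ℂ}

/-- the part of the sector of half opening `π / (2 ρ)` where `Re s ^ ρ > a` -/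
def Lv (ρ a : ℝ) : Set ℂ := {s | s ∈ Sect ρ ∧ a < (s ^ (ρ : ℂ)).re}

theorem lv_open {ρ : ℝ} (hρ : 1 < ρ) (a : ℝ) : IsOpen (Lv ρ a) := by
  have h1 : ContinuousOn (fun s : ℂ => (s ^ (ρ : ℂ)).re) (Sect ρ) := fun s hs =>
    (Complex.continuous_re.continuousAt.comp
      (ContinuousAt.cpow continuousAt_id continuousAt_const
        (slit (sect_re hρ hs)))).continuousWithinAt
  have h2 := h1.isOpen_inter_preimage (sect_open hρ) (isOpen_Ioi (a := a))
  have h3 : Lv ρ a = Sect ρ ∩ (fun s : ℂ => (s ^ (ρ : ℂ)).re) ⁻¹' Ioi a := rfl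
  rw [h3]
  exact h2

theorem pow_pow' {ρ : ℝ} (hρ : 1 < ρ) {v : ℂ} (hv : 0 < v.re) :
    (v ^ ((ρ⁻¹ : ℝ) : ℂ)) ^ (ρ : ℂ) = v := by
  have hρ0 : 0 < ρ := by linarith
  have hpi := Real.pi_pos
  have h1 : |arg v| < Real.pi / 2 := Complex.abs_arg_lt_pi_div_two_iff.2 (Or.inl hv)
  have h2 : (log v * ((ρ⁻¹ : ℝ) : ℂ)).im = arg v * ρ⁻¹ := by
    rw [Complex.im_mul_ofReal, Complex.log_im]
  have h3 : ρ⁻¹ < 1 := inv_lt_one_of_one_lt₀ hρ
  have h4 : 0 < ρ⁻¹ := by positivity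
  have h5 : |arg v * ρ⁻¹| < Real.pi / 2 := by
    rw [abs_mul, abs_of_pos h4]
    calc |arg v| * ρ⁻¹ ≤ |arg v| * 1 := mul_le_mul_of_nonneg_left h3.le (abs_nonneg _)
      _ < _ := by rw [mul_one]; exact h1
  have h6 := abs_lt.1 h5
  rw [← Complex.cpow_mul _ (by rw [h2]; linarith [h6.1]) (by rw [h2]; linarith [h6.2]),
    ← Complex.ofReal_mul, inv_mul_cancel₀ hρ0.ne', Complex.ofReal_one, Complex.cpow_one]

theorem pow_mem_lv {ρ : ℝ} (hρ : 1 < ρ) {a : ℝ} (ha : 0 ≤ a) {v : ℂ} (hv : a < v.re) :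
    v ^ ((ρ⁻¹ : ℝ) : ℂ) ∈ Lv ρ a := by
  have hρ0 : 0 < ρ := by linarith
  have h0 : 0 < ρ⁻¹ := by positivity
  have h1 : ρ⁻¹ < 1 := inv_lt_one_of_one_lt₀ hρ
  have hv0 : 0 < v.re := lt_of_le_of_lt ha hv
  refine ⟨⟨ne_zero' (re_pow_pos h0 h1 hv0), ?_⟩, ?_⟩
  · refine (arg_pow h0 h1 hv0).trans_le (le_of_eq ?_)
    field_simp
  · rw [pow_pow' hρ hv0]
    exact hv

variable (E : Sys N α)
include E

/-- `DE (w ^ (1 / ρ))` is analytic where `Re w ^ (1 / ρ) > 1 / 2` -/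
theorem DE_pow_an {β : ℝ} {w : ℂ} (hw : 0 < w.re)
    (hw2 : 1 / 2 < (w ^ (β : ℂ)).re) : AnalyticAt ℂ (fun w => DE N α (w ^ (β : ℂ))) w := by
  set O : Set ℂ := {w : ℂ | 0 < w.re} ∩ (fun w : ℂ => (w ^ (β : ℂ)).re) ⁻¹' Ioi (1 / 2) with hO
  have hOo : IsOpen O := by
    refine ContinuousOn.isOpen_inter_preimage (fun z hz => ?_)
      (isOpen_lt continuous_const Complex.continuous_re) isOpen_Ioi
    exact (Complex.continuous_re.continuousAt.comp
      (ContinuousAt.cpow continuousAt_id continuousAt_const (slit hz))).continuousWithinAt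
  have hd : DifferentiableOn ℂ (fun w => DE N α (w ^ (β : ℂ))) O := fun z hz =>
    (DifferentiableAt.comp (g := DE N α) (f := fun w : ℂ => w ^ (β : ℂ)) z (E.DE_diff hz.2)
      (pow_deriv (slit hz.1)).differentiableAt).differentiableWithinAt
  exact hd.analyticAt (hOo.mem_nhds ⟨hw, hw2⟩)

/-- **Growth of the means gives the continuation up to the level.** -/
theorem cont_of_lvl {ρ ρ' : ℝ} (hρ : 1 < ρ) (hρ' : ρ < ρ') {a : ℝ} (ha : 0 ≤ a)
    (h : ∀ ε : ℝ, 0 < ε → ∃ C : ℝ, ∀ᶠ Y : ℝ in atTop,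
      |SrE N α ρ ρ' Y| ≤ C * Real.exp ((a + ε) * Real.log Y ^ ρ)) :
    ∃ G : ℂ → ℂ, (∀ s : ℂ, s ∈ Lv ρ a ∨ 1 / 2 < s.re → DifferentiableAt ℂ G s ∧ G s ≠ 0) ∧
      (∀ s : ℂ, 1 / 2 < s.re → G s = LE N α s) := by
  have := E.cnt
  obtain ⟨e, he⟩ := Countable.exists_injective_nat X
  have hρ0 : 0 < ρ := by linarith
  have h0 : 0 < ρ⁻¹ := by positivity
  have h1ρ : ρ⁻¹ < 1 := inv_lt_one_of_one_lt₀ hρ
  obtain ⟨C₁, hC₁, h1⟩ := E.Sr_close he hρ hρ'
  have h1' := (Sys.tendsto_exp_rpow hρ).eventually h1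
  obtain ⟨fh, x₁, hfd, hfe⟩ := ext_lvl (E.dat he) h0 h1ρ ha (fun ε hε => by
    obtain ⟨C, hC⟩ := h ε hε
    have hC' := (Sys.tendsto_exp_rpow hρ).eventually hC
    obtain ⟨y₀, hy₀⟩ := (h1'.and (hC'.and (eventually_ge_atTop 0))).exists_forall_of_atTop
    refine ⟨|C| + C₁, y₀, fun y hy => ?_⟩
    obtain ⟨e1, e2, e3⟩ := hy₀ y hy
    rw [Sys.pow_log hρ e3] at e1 e2
    have e4 : 1 ≤ Real.exp ((a + ε) * y) := Real.one_le_exp (by positivity)
    have e5 : C * Real.exp ((a + ε) * y) ≤ |C| * Real.exp ((a + ε) * y) :=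
      mul_le_mul_of_nonneg_right (le_abs_self C) (Real.exp_pos _).le
    have e6 : C₁ ≤ C₁ * Real.exp ((a + ε) * y) := le_mul_of_one_le_right hC₁ e4
    have e7 := abs_sub_abs_le_abs_sub (M (lamN N e) (cN N α e) ρ⁻¹ y)
      (SrE N α ρ ρ' (Real.exp (y ^ ρ⁻¹)))
    rw [abs_sub_comm] at e7
    rw [add_mul]
    linarith)
  have hUo : IsOpen {v : ℂ | a < v.re} := isOpen_lt continuous_const Complex.continuous_re
  have hfa : ∀ v : ℂ, a < v.re → AnalyticAt ℂ fh v := fun v hv => by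
    have h2 : DifferentiableOn ℂ fh {v : ℂ | a < v.re} := fun z hz =>
      (hfd z hz).differentiableWithinAt
    exact h2.analyticAt (hUo.mem_nhds hv)
  set Dh : ℂ → ℂ := fun s => fh (s ^ (ρ : ℂ)) with hDh
  have hDd : ∀ s ∈ Lv ρ a, DifferentiableAt ℂ Dh s := fun s hs =>
    DifferentiableAt.comp (f := fun s : ℂ => s ^ (ρ : ℂ)) s (hfd _ hs.2)
      (differentiableAt_id.cpow_const (slit (sect_re hρ hs.1)))
  -- the equality to the right of `1/2`
  have hDE : ∀ s ∈ Lv ρ a, 1 / 2 < s.re → Dh s = DE N α s := by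
    intro s hs hs2
    obtain ⟨hv0, hvs⟩ := exists_root hρ hs.1.1 hs.1.2
    have key : fh (s ^ (ρ : ℂ)) = (fun w => DE N α (w ^ ((ρ⁻¹ : ℝ) : ℂ))) (s ^ (ρ : ℂ)) := by
      refine ray_eq (fun x hx => hfa _ ?_) (fun x hx => DE_pow_an E ?_ ?_) (x₁ := x₁) fun w hw => ?_
      · rw [Complex.add_re, Complex.ofReal_re]
        have := hs.2
        linarith
      · rw [Complex.add_re, Complex.ofReal_re]
        linarith
      · refine lt_of_lt_of_le ?_ (re_pow_mono h0 h1ρ hv0 hx)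
        rw [hvs]
        exact hs2
      · rw [hfe w hw]
        unfold f₀
        exact Sys.DD_eq he _
    rw [hDh]
    simp only
    rw [key]
    simp only
    rw [hvs]
  set G : ℂ → ℂ := fun s => if 1 / 2 < s.re then LE N α s else exp (GG N α s - Dh s) with hG
  have hG1 : ∀ s : ℂ, 1 / 2 < s.re → G s = LE N α s := fun s hs => by
    rw [hG]
    simp only
    rw [if_pos hs]
  have hG2 : ∀ s ∈ Lv ρ a, G s = exp (GG N α s - Dh s) := fun s hs => by
    by_cases h2 : 1 / 2 < s.re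
    · rw [hG1 s h2, E.LE_eq h2, hDE s hs h2]
    · rw [hG]
      simp only
      rw [if_neg h2]
  refine ⟨G, fun s hs => ?_, hG1⟩
  rcases hs with hs | hs
  · constructor
    · refine DifferentiableAt.congr_of_eventuallyEq (f := fun s => exp (GG N α s - Dh s)) ?_ ?_
      · exact ((E.GG_diff (sect_re hρ hs.1)).sub (hDd s hs)).cexp
      · filter_upwards [(lv_open hρ a).mem_nhds hs] with z hz
        exact hG2 z hz
    · rw [hG2 s hs]
      exact Complex.exp_ne_zero _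
  · have ho : IsOpen {z : ℂ | 1 / 2 < z.re} := isOpen_lt continuous_const Complex.continuous_re
    obtain ⟨e1, e2⟩ := E.LE_diff hs
    refine ⟨e1.congr_of_eventuallyEq ?_, by rw [hG1 s hs]; exact e2⟩
    filter_upwards [ho.mem_nhds hs] with z hz
    exact hG1 z hz

/-- **The continuation up to a level implies the growth bound for the means.** -/
theorem small_of_lvl {ρ ρ' : ℝ} (hρ : 1 < ρ) (hρ' : ρ < ρ') {a : ℝ} (ha : 0 ≤ a) {G : ℂ → ℂ}
    (hd : ∀ s ∈ Lv ρ a, DifferentiableAt ℂ G s) (hn : ∀ s ∈ Lv ρ a, G s ≠ 0)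
    {σ : ℝ} (he' : ∀ s ∈ Lv ρ a, σ < s.re → G s = LE N α s) {ε : ℝ} (hε : 0 < ε) :
    ∃ C : ℝ, ∀ᶠ Y : ℝ in atTop, |SrE N α ρ ρ' Y| ≤ C * Real.exp ((a + ε) * Real.log Y ^ ρ) := by
  have := E.cnt
  obtain ⟨e, he⟩ := Countable.exists_injective_nat X
  have hρ0 : 0 < ρ := by linarith
  have h0 : 0 < ρ⁻¹ := by positivity
  have h1ρ : ρ⁻¹ < 1 := inv_lt_one_of_one_lt₀ hρ
  set β : ℝ := ρ⁻¹ with hβ
  set U : Set ℂ := {v | a < v.re} with hU
  have hUo : IsOpen U := isOpen_lt continuous_const Complex.continuous_re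
  have hUc : Convex ℝ U := convex_halfSpace_re_gt a
  have hUpos : ∀ v ∈ U, 0 < v.re := fun v hv => lt_of_le_of_lt ha hv
  have hpd : ∀ v ∈ U, DifferentiableAt ℂ (fun v : ℂ => v ^ (β : ℂ)) v := fun v hv =>
    (pow_deriv (slit (hUpos v hv))).differentiableAt
  have hLv : ∀ v ∈ U, v ^ (β : ℂ) ∈ Lv ρ a := fun v hv => pow_mem_lv hρ ha hv
  set g : ℂ → ℂ := fun v => G (v ^ (β : ℂ)) with hg
  set p : ℂ → ℂ := fun v => GG N α (v ^ (β : ℂ)) with hp
  have hgd : ∀ v ∈ U, DifferentiableAt ℂ g v := fun v hv =>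
    DifferentiableAt.comp (g := G) (f := fun v : ℂ => v ^ (β : ℂ)) v (hd _ (hLv v hv)) (hpd v hv)
  have hpdf : ∀ v ∈ U, DifferentiableAt ℂ p v := fun v hv =>
    DifferentiableAt.comp (g := GG N α) (f := fun v : ℂ => v ^ (β : ℂ)) v
      (E.GG_diff (sect_re hρ (hLv v hv).1)) (hpd v hv)
  have hgn : ∀ v ∈ U, g v ≠ 0 := fun v hv => hn _ (hLv v hv)
  have hga : ∀ v ∈ U, AnalyticAt ℂ g v := fun v hv => by
    have h2 : DifferentiableOn ℂ g U := fun z hz => (hgd z hz).differentiableWithinAt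
    exact h2.analyticAt (hUo.mem_nhds hv)
  have hpa : ∀ v ∈ U, AnalyticAt ℂ p v := fun v hv => by
    have h2 : DifferentiableOn ℂ p U := fun z hz => (hpdf z hz).differentiableWithinAt
    exact h2.analyticAt (hUo.mem_nhds hv)
  obtain ⟨F, hF⟩ := convex_primitive hUo hUc (f := fun v => deriv p v - deriv g v / g v)
    fun v hv => ((hpa v hv).deriv.differentiableAt.sub
      ((hga v hv).deriv.differentiableAt.div (hgd v hv) (hgn v hv))).differentiableWithinAt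
  -- far to the right
  obtain ⟨x₃, hx31, hx₃⟩ := exists_abscissa h0 h1ρ (max σ 1)
  set x₄ : ℝ := max x₃ a with hx₄
  set W : Set ℂ := {v | x₄ < v.re} with hW
  have hWo : IsOpen W := isOpen_lt continuous_const Complex.continuous_re
  have hWc : Convex ℝ W := convex_halfSpace_re_gt x₄
  have hax₄ : a ≤ x₄ := le_max_right _ _
  have hWU : W ⊆ U := fun v hv => by
    have hv' : x₄ < v.re := hv
    exact lt_of_le_of_lt hax₄ hv'
  have hWx : ∀ v ∈ W, σ < (v ^ (β : ℂ)).re ∧ 1 < (v ^ (β : ℂ)).re := by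
    intro v hv
    have e1 : 0 < v.re := hUpos v (hWU hv)
    have hv' : x₄ < v.re := hv
    have e2 : x₃ ≤ ‖v‖ := (le_max_left _ _).trans (hv'.le.trans (re_le_norm v))
    have e3 := hx₃ v e1 e2
    have e4 := re_pow_ge h0 h1ρ e1
    have e5 := le_max_left σ 1
    have e6 := le_max_right σ 1
    constructor <;> linarith
  set D₁ : ℂ → ℂ := fun v => DE N α (v ^ (β : ℂ)) with hD₁
  have hD₁d : ∀ v ∈ W, DifferentiableAt ℂ D₁ v := fun v hv =>
    (DE_pow_an E (hUpos v (hWU hv)) (by linarith [(hWx v hv).2])).differentiableAt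
  have hcon : ∀ v ∈ W, HasDerivAt (fun v => F v - D₁ v) 0 v := by
    intro v hv
    have e4 := (hD₁d v hv).hasDerivAt
    refine ((hF v (hWU hv)).sub e4).congr_deriv ?_
    have e5 : g =ᶠ[𝓝 v] fun v => exp (p v - D₁ v) := by
      filter_upwards [hWo.mem_nhds hv] with z hz
      obtain ⟨f1, f2⟩ := hWx z hz
      rw [hg]
      simp only
      rw [he' _ (hLv z (hWU hz)) f1, E.LE_eq (by linarith)]
    have e6 : HasDerivAt (fun v => exp (p v - D₁ v))
        (exp (p v - D₁ v) * (deriv p v - deriv D₁ v)) v :=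
      ((hpdf v (hWU hv)).hasDerivAt.sub e4).cexp
    rw [e5.deriv_eq, e5.eq_of_nhds, e6.deriv]
    have := Complex.exp_ne_zero (p v - D₁ v)
    field_simp
    ring
  set w₀ : ℂ := ((x₄ + 1 : ℝ) : ℂ) with hw₀
  have hw₀W : w₀ ∈ W := by
    change x₄ < w₀.re
    rw [hw₀, Complex.ofReal_re]
    linarith
  have hconst : ∀ v ∈ W, F v - D₁ v = F w₀ - D₁ w₀ := fun v hv =>
    hWc.is_const_of_fderivWithin_eq_zero (𝕜 := ℂ) (f := fun v => F v - D₁ v)
      (fun z hz => (hcon z hz).differentiableAt.differentiableWithinAt) (fun z hz => by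
        rw [fderivWithin_of_isOpen hWo hz]
        ext
        simp [(hcon z hz).deriv]) hv hw₀W
  set k : ℂ := F w₀ - D₁ w₀ with hk
  obtain ⟨C, hC⟩ := up_lvl (E.dat he) h0 h1ρ ha (f := fun v => F v - k)
    (fun v hv => (hF v hv).differentiableAt.sub_const _) (x₁ := x₄)
    (fun v hv => by
      have e1 := hconst v hv
      unfold f₀
      rw [Sys.DD_eq he]
      change F v - k = D₁ v
      rw [← e1]
      ring) (show a < a + ε by linarith)
  obtain ⟨C₁, hC₁, h1⟩ := E.Sr_close he hρ hρ'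
  refine ⟨C + C₁, ?_⟩
  filter_upwards [h1, Real.tendsto_log_atTop.eventually_ge_atTop 1] with Y h3 h4
  have hT : 0 < Real.log Y := by linarith
  have hy : 1 ≤ Real.log Y ^ ρ := Real.one_le_rpow h4 hρ0.le
  have h5 := hC _ hy
  have e1 : 1 ≤ Real.exp ((a + ε) * Real.log Y ^ ρ) := Real.one_le_exp (by positivity)
  have e4 : C₁ ≤ C₁ * Real.exp ((a + ε) * Real.log Y ^ ρ) := le_mul_of_one_le_right hC₁ e1
  have e5 := abs_sub_abs_le_abs_sub (SrE N α ρ ρ' Y)
    (M (lamN N e) (cN N α e) ρ⁻¹ (Real.log Y ^ ρ))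
  rw [add_mul]
  linarith

end Pool.Agent.R791.Level
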