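import Pool.Agent.R791.Bdd4

/-!
# Sums over primes and meromorphic continuations
-/

set_option autoImplicit false

open MeasureTheory Filter Topology Set Complex
open Pool.Agent.TH942.LS (Dat P P_le Cont Qf)
open Pool.Agent.TH942.SL Pool.Agent.TH942.ES Pool.Agent.TH942.ES.Sys
open Pool.Agent.R791.SectGen (SectorAt mem_sectorAt nhds_map)

namespace Pool.Agent.R791.Mero

variable {X : Type} {d : ℕ} {N : X → ℕ} {α : X → Fin d → ℂ}

/-! ### Arbitrary centre -/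

/-- translation of the centre, with any local condition `Q` -/
theorem shift_iff {c ρ₀ : ℝ} {L : ℂ → ℂ} (Q Q' : (ℂ → ℂ) → Prop)
    (hQ : ∀ G : ℂ → ℂ, Q G → Q' fun s => G (s - c)) (hQ' : ∀ G : ℂ → ℂ, Q' G → Q fun s => G (s + c)) :
    (∃ G : ℂ → ℂ, (∀ s : ℂ, s ∈ Sect ρ₀ ∨ 1 / 2 < s.re → DifferentiableAt ℂ G s ∧ G s ≠ 0) ∧
      (∀ s : ℂ, 1 / 2 < s.re → G s = L s) ∧ Q G) ↔
    ∃ G : ℂ → ℂ,
      (∀ s : ℂ, s ∈ SectorAt c ρ₀ ∨ c + 1 / 2 < s.re → DifferentiableAt ℂ G s ∧ G s ≠ 0) ∧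
      (∀ s : ℂ, c + 1 / 2 < s.re → G s = L (s - c)) ∧ Q' G := by
  have hsub : ∀ s : ℂ, (s - (c : ℂ)).re = s.re - c := fun s => by
    rw [Complex.sub_re, Complex.ofReal_re]
  have hadd : ∀ s : ℂ, (s + (c : ℂ)).re = s.re + c := fun s => by
    rw [Complex.add_re, Complex.ofReal_re]
  constructor
  · rintro ⟨G, h1, h2, h3⟩
    refine ⟨fun s => G (s - c), fun s hs => ?_, fun s hs => h2 _ (by rw [hsub]; linarith), hQ G h3⟩
    have h4 : s - c ∈ Sect ρ₀ ∨ 1 / 2 < (s - c).re := by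
      rcases hs with hs | hs
      · exact Or.inl (mem_sectorAt.1 hs)
      · right; rw [hsub]; linarith
    refine ⟨?_, (h1 _ h4).2⟩
    exact DifferentiableAt.comp (g := G) (f := fun s : ℂ => s - c) s (h1 _ h4).1
      (differentiableAt_id.sub_const _)
  · rintro ⟨G, h1, h2, h3⟩
    refine ⟨fun s => G (s + c), fun s hs => ?_, fun s hs => ?_, hQ' G h3⟩
    · have h4 : s + c ∈ SectorAt c ρ₀ ∨ c + 1 / 2 < (s + c).re := by
        rcases hs with hs | hs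
        · left; rw [mem_sectorAt, add_sub_cancel_right]; exact hs
        · right; rw [hadd]; linarith
      refine ⟨?_, (h1 _ h4).2⟩
      exact DifferentiableAt.comp (g := G) (f := fun s : ℂ => s + c) s (h1 _ h4).1
        (differentiableAt_id.add_const _)
    · have h5 := h2 (s + c) (by rw [hadd]; linarith)
      rw [add_sub_cancel_right] at h5
      exact h5

/-- **Sums `k log log Y + O(1)`, arbitrary centre.** -/
theorem S_iff (E : Sys N α) (c : ℝ) {ρ₀ : ℝ} (h : 1 ≤ ρ₀) (k : ℝ) :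
    (∀ ρ ρ' : ℝ, ρ₀ < ρ → ρ < ρ' → ∃ C : ℝ, ∀ᶠ Y : ℝ in atTop,
      |SrE N α ρ ρ' Y - k * Real.log (Real.log Y)| ≤ C) ↔
    ∃ G : ℂ → ℂ,
      (∀ s : ℂ, s ∈ SectorAt c ρ₀ ∨ c + 1 / 2 < s.re → DifferentiableAt ℂ G s ∧ G s ≠ 0) ∧
      (∀ s : ℂ, c + 1 / 2 < s.re → G s = LE N α (s - c)) ∧
      ∀ ρ : ℝ, ρ₀ < ρ → ∃ A B : ℝ, 0 < A ∧ 0 < B ∧ ∀ s ∈ SectorAt c ρ, ‖s - c‖ ≤ 1 →
        A * ‖s - c‖ ^ k ≤ ‖G s‖ ∧ ‖G s‖ ≤ B * ‖s - c‖ ^ k := by
  rw [Bdd.S_equiv E h k]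
  refine shift_iff (c := c) (ρ₀ := ρ₀) (L := LE N α)
    (fun G => ∀ ρ : ℝ, ρ₀ < ρ → ∃ A B : ℝ, 0 < A ∧ 0 < B ∧ ∀ s ∈ Sect ρ, ‖s‖ ≤ 1 →
        A * ‖s‖ ^ k ≤ ‖G s‖ ∧ ‖G s‖ ≤ B * ‖s‖ ^ k)
    (fun G => ∀ ρ : ℝ, ρ₀ < ρ → ∃ A B : ℝ, 0 < A ∧ 0 < B ∧ ∀ s ∈ SectorAt c ρ, ‖s - c‖ ≤ 1 →
        A * ‖s - c‖ ^ k ≤ ‖G s‖ ∧ ‖G s‖ ≤ B * ‖s - c‖ ^ k) (fun G hG ρ hρ => ?_)
    (fun G hG ρ hρ => ?_)
  · obtain ⟨A, B, hA, hB, h1⟩ := hG ρ hρ
    exact ⟨A, B, hA, hB, fun s hs hsn => h1 _ (mem_sectorAt.1 hs) hsn⟩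
  · obtain ⟨A, B, hA, hB, h1⟩ := hG ρ hρ
    refine ⟨A, B, hA, hB, fun s hs hsn => ?_⟩
    have h2 := h1 (s + c) (by rw [mem_sectorAt, add_sub_cancel_right]; exact hs)
      (by rwa [add_sub_cancel_right])
    rwa [add_sub_cancel_right] at h2

/-- **The limit formula, real exponent and arbitrary centre.** -/
theorem T_iff (E : Sys N α) (hreal : ∀ v k, (∑ i, zv N α v i ^ k).im = 0) (c : ℝ) {ρ₀ : ℝ}
    (h : 1 ≤ ρ₀) (r : ℝ) {A : ℝ} (hA : 0 < A) :
    (∀ ρ ρ' : ℝ, ρ₀ < ρ → ρ < ρ' →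
      Tendsto (fun Y : ℝ => StE N α ρ ρ' Y + r * Real.log (Real.log Y)) atTop
        (𝓝 (Real.log A - r * Real.eulerMascheroniConstant / ρ))) ↔
    ∃ G : ℂ → ℂ,
      (∀ s : ℂ, s ∈ SectorAt c ρ₀ ∨ c + 1 / 2 < s.re → DifferentiableAt ℂ G s ∧ G s ≠ 0) ∧
      (∀ s : ℂ, c + 1 / 2 < s.re → G s = LE N α (s - c)) ∧
      ∀ ρ : ℝ, ρ₀ < ρ → Tendsto (fun s => G s / (s - c) ^ (r : ℂ)) (𝓝[SectorAt c ρ] (c : ℂ))
        (𝓝 (A : ℂ)) := by
  rw [StarR.star_equivR E hreal h r hA]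
  refine shift_iff (c := c) (ρ₀ := ρ₀) (L := LE N α)
    (fun G => ∀ ρ : ℝ, ρ₀ < ρ → Tendsto (fun s => G s / s ^ (r : ℂ)) (𝓝[Sect ρ] 0) (𝓝 (A : ℂ)))
    (fun G => ∀ ρ : ℝ, ρ₀ < ρ → Tendsto (fun s => G s / (s - c) ^ (r : ℂ))
      (𝓝[SectorAt c ρ] (c : ℂ)) (𝓝 (A : ℂ))) (fun G hG ρ hρ => ?_) (fun G hG ρ hρ => ?_)
  · rw [nhds_map, tendsto_map'_iff]
    refine (hG ρ hρ).congr fun s => ?_
    simp
  · have h5 := hG ρ hρ
    rw [nhds_map, tendsto_map'_iff] at h5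
    refine h5.congr fun s => ?_
    simp

/-! ### Meromorphic functions at the centre -/

/-- the identity theorem along the real axis -/
theorem ray_agree {c : ℝ} {F G : ℂ → ℂ} (hF : ∀ x : ℝ, c ≤ x → MeromorphicAt F x)
    (hG : ∀ x : ℝ, c < x → AnalyticAt ℂ G x) {x₁ : ℝ} (hFG : ∀ s : ℂ, x₁ < s.re → F s = G s) :
    ∀ᶠ x : ℝ in 𝓝[>] c, F x = G x := by
  set U : Set ℂ := (fun x : ℝ => (x : ℂ)) '' Ioi c with hU
  have hUc : IsConnected U :=
    (isConnected_Ioi).image _ (Complex.continuous_ofReal.continuousOn)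
  have hm : MeromorphicOn (fun z => F z - G z) U := by
    rintro _ ⟨x, hx, rfl⟩
    exact (hF x (le_of_lt hx)).sub (hG x hx).meromorphicAt
  have htop : ∀ u ∈ U, meromorphicOrderAt (fun z => F z - G z) u = ⊤ := by
    by_contra hcon
    push Not at hcon
    have h1 := (hm.exists_meromorphicOrderAt_ne_top_iff_forall_mem hUc).1 hcon
    have h2 : (((max c x₁) + 1 : ℝ) : ℂ) ∈ U := ⟨_, by
      have := le_max_left c x₁
      exact Set.mem_Ioi.2 (by linarith), rfl⟩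
    refine h1 _ h2 ?_
    rw [meromorphicOrderAt_eq_top_iff]
    have ho : IsOpen {z : ℂ | x₁ < z.re} := isOpen_lt continuous_const Complex.continuous_re
    refine eventually_nhdsWithin_of_eventually_nhds ?_
    filter_upwards [ho.mem_nhds (show x₁ < (((max c x₁) + 1 : ℝ) : ℂ).re by
      rw [Complex.ofReal_re]
      have := le_max_right c x₁
      linarith)] with z hz
    rw [hFG z hz, sub_self]
  have h1 := (hF c le_rfl).eventually_analyticAt
  have h2 : Tendsto (fun x : ℝ => (x : ℂ)) (𝓝[>] c) (𝓝[≠] (c : ℂ)) := by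
    refine tendsto_nhdsWithin_of_tendsto_nhds_of_eventually_within _ ?_ ?_
    · exact (Complex.continuous_ofReal.tendsto c).mono_left nhdsWithin_le_nhds
    · filter_upwards [self_mem_nhdsWithin] with x hx
      simp only [Set.mem_compl_iff, Set.mem_singleton_iff, Complex.ofReal_inj]
      exact ne_of_gt hx
  filter_upwards [h2.eventually h1, self_mem_nhdsWithin] with x hx hxc
  have h3 := htop (x : ℂ) ⟨x, hxc, rfl⟩
  rw [meromorphicOrderAt_eq_top_iff] at h3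
  have h4 : F =ᶠ[𝓝[≠] (x : ℂ)] G := by
    filter_upwards [h3] with z hz
    exact sub_eq_zero.1 hz
  exact ((hx.continuousAt.eventuallyEq_nhds_iff_eventuallyEq_nhdsNE
    (hG x hxc).continuousAt).1 h4).self_of_nhds

/-- the order from the size on the real axis -/
theorem order_of_bounds {c : ℝ} {F : ℂ → ℂ} (hF : MeromorphicAt F c) {k A B : ℝ} (hA : 0 < A)
    (h : ∀ᶠ x : ℝ in 𝓝[>] c, A * (x - c) ^ k ≤ ‖F x‖ ∧ ‖F x‖ ≤ B * (x - c) ^ k) :
    ∃ n : ℤ, (n : ℝ) = k ∧ meromorphicOrderAt F c = n ∧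
      ∃ g : ℂ → ℂ, AnalyticAt ℂ g c ∧ g c ≠ 0 ∧ meromorphicTrailingCoeffAt F c = g c ∧
        ∀ᶠ z in 𝓝[≠] (c : ℂ), F z = (z - c) ^ n * g z := by
  have h2 : Tendsto (fun x : ℝ => (x : ℂ)) (𝓝[>] c) (𝓝[≠] (c : ℂ)) := by
    refine tendsto_nhdsWithin_of_tendsto_nhds_of_eventually_within _ ?_ ?_
    · exact (Complex.continuous_ofReal.tendsto c).mono_left nhdsWithin_le_nhds
    · filter_upwards [self_mem_nhdsWithin] with x hx
      simp only [Set.mem_compl_iff, Set.mem_singleton_iff, Complex.ofReal_inj]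
      exact ne_of_gt hx
  have hpos : ∀ᶠ x : ℝ in 𝓝[>] c, c < x := self_mem_nhdsWithin
  have htop : meromorphicOrderAt F c ≠ ⊤ := by
    intro h3
    rw [meromorphicOrderAt_eq_top_iff] at h3
    obtain ⟨x, ⟨h4, h5⟩, h6⟩ := (((h2.eventually h3).and h).and hpos).exists
    have h7 : 0 < A * (x - c) ^ k := mul_pos hA (Real.rpow_pos_of_pos (by linarith) _)
    rw [h4, norm_zero] at h5
    linarith [h5.1]
  obtain ⟨n, hn⟩ := WithTop.ne_top_iff_exists.1 htop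
  obtain ⟨g, hg, hg0, hFg⟩ := (meromorphicOrderAt_eq_int_iff hF).1 hn.symm
  refine ⟨n, ?_, hn.symm, g, hg, hg0, hg.meromorphicTrailingCoeffAt_of_ne_zero_of_eq_nhdsNE hg0 hFg,
    ?_⟩
  · have hgl : Tendsto (fun x : ℝ => ‖g x‖) (𝓝[>] c) (𝓝 ‖g c‖) :=
      ((hg.continuousAt.tendsto.mono_left nhdsWithin_le_nhds).comp h2).norm
    have hg1 : 0 < ‖g c‖ := norm_pos_iff.2 hg0
    have hx0 : Tendsto (fun x : ℝ => x - c) (𝓝[>] c) (𝓝[>] 0) := by
      refine tendsto_nhdsWithin_of_tendsto_nhds_of_eventually_within _ ?_ ?_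
      · have : Tendsto (fun x : ℝ => x - c) (𝓝 c) (𝓝 (c - c)) := by
          exact (continuous_id.sub continuous_const).tendsto c
        rw [sub_self] at this
        exact this.mono_left nhdsWithin_le_nhds
      · filter_upwards [hpos] with x hx
        exact Set.mem_Ioi.2 (by linarith)
    have hb : ∀ᶠ x : ℝ in 𝓝[>] c, A * (x - c) ^ (k - n) ≤ ‖g x‖ ∧
        ‖g x‖ ≤ B * (x - c) ^ (k - n) := by
      filter_upwards [h2.eventually hFg, h, hpos] with x h3 h4 h5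
      have hxc : 0 < x - c := by linarith
      have e1 : ‖F x‖ = (x - c) ^ (n : ℝ) * ‖g x‖ := by
        rw [h3, smul_eq_mul, norm_mul, norm_zpow, ← Complex.ofReal_sub, Complex.norm_real,
          Real.norm_eq_abs, abs_of_pos hxc, Real.rpow_intCast]
      have e2 : 0 < (x - c) ^ (n : ℝ) := Real.rpow_pos_of_pos hxc _
      have e3 : (x - c) ^ k = (x - c) ^ (n : ℝ) * (x - c) ^ (k - n) := by
        rw [← Real.rpow_add hxc]
        congr 1
        ring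
      rw [e1, e3] at h4
      obtain ⟨h6, h7⟩ := h4
      constructor
      · refine le_of_mul_le_mul_left ?_ e2
        linarith
      · refine le_of_mul_le_mul_left ?_ e2
        linarith
    rcases lt_trichotomy (n : ℝ) k with h3 | h3 | h3
    · exfalso
      have e1 : Tendsto (fun x : ℝ => B * (x - c) ^ (k - n)) (𝓝[>] c) (𝓝 (B * 0)) := by
        refine Tendsto.const_mul B ?_
        have e2 : Tendsto (fun x : ℝ => x ^ (k - n)) (𝓝[>] 0) (𝓝 0) := by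
          have e3 : Tendsto (fun x : ℝ => x ^ (k - n)) (𝓝 0) (𝓝 (0 ^ (k - n))) :=
            (Real.continuousAt_rpow_const 0 _ (Or.inr (by linarith))).tendsto
          rw [Real.zero_rpow (by linarith)] at e3
          exact e3.mono_left nhdsWithin_le_nhds
        exact e2.comp hx0
      have e2 := le_of_tendsto_of_tendsto hgl e1 (hb.mono fun x hx => hx.2)
      rw [mul_zero] at e2
      linarith
    · exact h3
    · exfalso
      have e1 : Tendsto (fun x : ℝ => A * (x - c) ^ (k - n)) (𝓝[>] c) atTop := by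
        refine Tendsto.const_mul_atTop hA ?_
        have e2 : Tendsto (fun x : ℝ => x ^ (k - n)) (𝓝[>] 0) atTop := by
          have e3 : (fun x : ℝ => x ^ (k - n)) =ᶠ[𝓝[>] 0] fun x : ℝ => (x⁻¹) ^ (n - k) := by
            filter_upwards [self_mem_nhdsWithin] with x hx
            have hx' : (0 : ℝ) < x := hx
            rw [Real.inv_rpow hx'.le, ← Real.rpow_neg hx'.le]
            congr 1
            ring
          refine Tendsto.congr' e3.symm ?_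
          exact (tendsto_rpow_atTop (by linarith : 0 < n - k)).comp tendsto_inv_nhdsGT_zero
        exact e2.comp hx0
      have e2 := e1.eventually_gt_atTop (‖g c‖ + 1)
      have e3 := hgl.eventually (gt_mem_nhds (lt_add_one ‖g c‖))
      obtain ⟨x, ⟨h4, h5⟩, h6⟩ := ((e2.and e3).and hb).exists
      linarith [h6.1]
  · filter_upwards [hFg] with z hz
    rw [hz, smul_eq_mul]

end Pool.Agent.R791.Mero
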