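import Pool.Agent.R791.Mero

/-!
# The order and the leading coefficient of a meromorphic continuation from finite sums
-/

set_option autoImplicit false

open MeasureTheory Filter Topology Set Complex
open Pool.Agent.TH942.LS (Dat P P_le Cont Qf)
open Pool.Agent.TH942.SL Pool.Agent.TH942.ES Pool.Agent.TH942.ES.Sys
open Pool.Agent.R791.SectGen (SectorAt mem_sectorAt nhds_map slow_center)

namespace Pool.Agent.R791.Mero

variable {X : Type} {d : ℕ} {N : X → ℕ} {α : X → Fin d → ℂ}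

/-! ### One pair of parameters suffices -/

theorem S_mean (E : Sys N α) {e : X → ℕ} (he : Function.Injective e) {ρ ρ' : ℝ} (hρ1 : 1 < ρ)
    (hρ' : ρ < ρ') (k : ℝ) :
    (∃ C : ℝ, ∀ᶠ Y : ℝ in atTop, |SrE N α ρ ρ' Y - k * Real.log (Real.log Y)| ≤ C) ↔
    ∃ C : ℝ, ∀ᶠ y : ℝ in atTop, |M (lamN N e) (cN N α e) ρ⁻¹ y - k * ρ⁻¹ * Real.log y| ≤ C := by
  have hρ0 : 0 < ρ := by linarith
  obtain ⟨C₁, hC₁, h1⟩ := E.Sr_close he hρ1 hρ'
  constructor
  · rintro ⟨C, hC⟩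
    refine ⟨C + C₁, ?_⟩
    have h2 := (tendsto_exp_rpow hρ1).eventually (hC.and h1)
    filter_upwards [h2, eventually_gt_atTop 0] with y hy hy0
    obtain ⟨e1, e2⟩ := hy
    rw [pow_log hρ1 hy0.le] at e2
    have e3 : Real.log (Real.log (Real.exp (y ^ ρ⁻¹))) = ρ⁻¹ * Real.log y := by
      rw [Real.log_exp, Real.log_rpow hy0]
    rw [e3] at e1
    have e4 := abs_sub_le (M (lamN N e) (cN N α e) ρ⁻¹ y)
      (SrE N α ρ ρ' (Real.exp (y ^ ρ⁻¹))) (k * (ρ⁻¹ * Real.log y))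
    rw [abs_sub_comm] at e2
    have e5 : k * ρ⁻¹ * Real.log y = k * (ρ⁻¹ * Real.log y) := by ring
    rw [e5]
    linarith
  · rintro ⟨C, hC⟩
    refine ⟨C + C₁, ?_⟩
    have hpow : Tendsto (fun Y : ℝ => Real.log Y ^ ρ) atTop atTop :=
      (tendsto_rpow_atTop hρ0).comp Real.tendsto_log_atTop
    filter_upwards [h1, hpow.eventually hC, Real.tendsto_log_atTop.eventually_ge_atTop 1]
      with Y h3 h5 h4
    have hT : 0 < Real.log Y := by linarith
    have e1 : k * ρ⁻¹ * Real.log (Real.log Y ^ ρ) = k * Real.log (Real.log Y) := by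
      rw [Real.log_rpow hT]
      field_simp
    rw [e1] at h5
    have h6 := abs_sub_le (SrE N α ρ ρ' Y) (M (lamN N e) (cN N α e) ρ⁻¹ (Real.log Y ^ ρ))
      (k * Real.log (Real.log Y))
    linarith

theorem S_single (E : Sys N α) {ρ₀ ρ₀' : ℝ} (h : 1 < ρ₀) (h' : ρ₀ < ρ₀') {k : ℝ}
    (hS : ∃ C : ℝ, ∀ᶠ Y : ℝ in atTop, |SrE N α ρ₀ ρ₀' Y - k * Real.log (Real.log Y)| ≤ C) :
    ∀ ρ ρ' : ℝ, ρ₀ < ρ → ρ < ρ' → ∃ C : ℝ, ∀ᶠ Y : ℝ in atTop,
      |SrE N α ρ ρ' Y - k * Real.log (Real.log Y)| ≤ C := by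
  intro ρ ρ' hρ hρ'
  have := E.cnt
  obtain ⟨e, he⟩ := Countable.exists_injective_nat X
  have D : Dat (lamN N e) (cN N α e) (Real.log 2) 1 := E.dat' he (σ := 1) (by norm_num)
  obtain ⟨C, hC⟩ := (S_mean E he h h' k).1 hS
  obtain ⟨Dh, h1, h2, h3⟩ := Bdd.ext_sector_bdd D h hC
  rw [S_mean E he (h.trans hρ) hρ' k]
  obtain ⟨ρ₁, h4, h5⟩ := exists_between hρ
  obtain ⟨B, hB⟩ := h3 ρ₁ h4
  have hsub := sect_mono h h4.le
  have e2 : k * ρ₀⁻¹ * ρ₀ = k := by
    have : ρ₀ ≠ 0 := by linarith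
    field_simp
  rw [e2] at hB
  obtain ⟨C₂, hC₂⟩ := Bdd.bdd_sector D (h.trans h4) h5 (Dh := Dh) (fun s hs => h1 s (hsub hs))
    (fun s hs hs2 => h2 s (hsub hs) hs2) (K := k) (B := B) (by
      rw [eventually_nhdsWithin_iff, Metric.eventually_nhds_iff]
      refine ⟨1, one_pos, fun s hs hs2 => hB s hs2 ?_⟩
      rw [dist_zero_right] at hs
      exact hs.le)
  exact ⟨C₂, (eventually_ge_atTop 1).mono fun y hy => hC₂ y hy⟩

theorem T_mean (E : Sys N α) {e : X × ℕ → ℕ} (he : Function.Injective e) {ρ ρ' : ℝ}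
    (hρ1 : 1 < ρ) (hρ' : ρ < ρ') (r l : ℝ) :
    Tendsto (fun Y : ℝ => StE N α ρ ρ' Y + r * Real.log (Real.log Y)) atTop (𝓝 l) ↔
      Tendsto (fun y : ℝ => M (lamS N e) (cS N α e) ρ⁻¹ y - (-r) * ρ⁻¹ * Real.log y) atTop
        (𝓝 l) := by
  have hρ0 : 0 < ρ := by linarith
  have hc := E.St_close he hρ1 hρ'
  have hpow : Tendsto (fun Y : ℝ => Real.log Y ^ ρ) atTop atTop :=
    (tendsto_rpow_atTop hρ0).comp Real.tendsto_log_atTop
  have hid : ∀ Y : ℝ, 1 < Y → ρ⁻¹ * Real.log (Real.log Y ^ ρ) = Real.log (Real.log Y) := by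
    intro Y hY
    rw [Real.log_rpow (Real.log_pos hY)]
    field_simp
  constructor
  · intro h1
    have h2 := h1.sub hc
    rw [sub_zero] at h2
    have h3 := h2.comp (tendsto_exp_rpow hρ1)
    refine h3.congr' ?_
    filter_upwards [eventually_gt_atTop 0] with y hy
    have e1 := hid (Real.exp (y ^ ρ⁻¹)) (by
      rw [← Real.exp_zero]
      exact Real.exp_lt_exp.2 (by positivity))
    simp only [Function.comp_apply]
    rw [← e1, pow_log hρ1 hy.le]
    ring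
  · intro h1
    have h2 := (h1.comp hpow).add hc
    rw [add_zero] at h2
    refine h2.congr' ?_
    filter_upwards [eventually_gt_atTop 1] with Y hY
    simp only [Function.comp_apply]
    rw [← hid Y hY]
    ring

theorem T_single (E : Sys N α) {ρ₀ ρ₀' : ℝ} (h : 1 < ρ₀) (h' : ρ₀ < ρ₀') {r l : ℝ}
    (hT : Tendsto (fun Y : ℝ => StE N α ρ₀ ρ₀' Y + r * Real.log (Real.log Y)) atTop (𝓝 l)) :
    ∀ ρ ρ' : ℝ, ρ₀ < ρ → ρ < ρ' →
      Tendsto (fun Y : ℝ => StE N α ρ ρ' Y + r * Real.log (Real.log Y)) atTop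
        (𝓝 (l + r * Real.eulerMascheroniConstant / ρ₀ - r * Real.eulerMascheroniConstant / ρ)) := by
  intro ρ ρ' hρ hρ'
  have := E.cnt
  obtain ⟨e, he⟩ := Countable.exists_injective_nat (X × ℕ)
  have D : Dat (lamS N e) (cS N α e) (Real.log 2) 1 := E.datS he (σ := 1) (by norm_num)
  have h0 : ρ₀ ≠ 0 := by linarith
  have hρ0 : ρ ≠ 0 := by linarith
  obtain ⟨Dh, h1, h2, h3⟩ := ext_sector_lim D h (K := -r * ρ₀⁻¹) (c₀ := l)
    ((T_mean E he h h' r l).1 hT)
  rw [T_mean E he (h.trans hρ) hρ' r]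
  obtain ⟨ρ₁, h4, h5⟩ := exists_between hρ
  have hsub := sect_mono h h4.le
  have h6 := h3 ρ₁ h4
  have e2 : -r * ρ₀⁻¹ * ρ₀ = -r := by field_simp
  rw [e2] at h6
  have h7 := lim_sector D (h.trans h4) h5 (Dh := Dh) (fun s hs => h1 s (hsub hs))
    (fun s hs hs2 => h2 s (hsub hs) hs2) h6
  have h8 := (Complex.continuous_re.tendsto _).comp h7
  have e3 : (((l - -r * ρ₀⁻¹ * Real.eulerMascheroniConstant : ℝ) : ℂ) +
      ((-r : ℝ) : ℂ) * ((ρ⁻¹ : ℝ) : ℂ) * Real.eulerMascheroniConstant).re =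
      l + r * Real.eulerMascheroniConstant / ρ₀ - r * Real.eulerMascheroniConstant / ρ := by
    rw [← Complex.ofReal_mul, ← Complex.ofReal_mul, ← Complex.ofReal_add, Complex.ofReal_re]
    field_simp
    ring
  rw [e3] at h8
  refine h8.congr fun y => ?_
  simp only [Function.comp_apply, Complex.ofReal_re]

/-! ### Positivity on the axis -/

theorem pos_on_axis (E : Sys N α) (hreal : ∀ v k, (∑ i, zv N α v i ^ k).im = 0) {ρ₀ : ℝ}
    (h : 1 ≤ ρ₀) {G : ℂ → ℂ} (hG1 : ∀ s ∈ Sect ρ₀, DifferentiableAt ℂ G s ∧ G s ≠ 0)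
    (hG2 : ∀ s : ℂ, 1 / 2 < s.re → G s = LE N α s) {x : ℝ} (hx : 0 < x) :
    ∃ y : ℝ, 0 < y ∧ G x = y := by
  have := E.cnt
  obtain ⟨e, he⟩ := Countable.exists_injective_nat (X × ℕ)
  have hGan : ∀ s ∈ Sect ρ₀, AnalyticAt ℂ G s := fun s hs => by
    have h1 : DifferentiableOn ℂ G (Sect ρ₀) := fun z hz =>
      (hG1 z hz).1.differentiableWithinAt
    exact h1.analyticAt ((sect_open' h).mem_nhds hs)
  have hqd : DifferentiableOn ℂ (fun s => deriv G s / G s) (Sect ρ₀) := fun s hs =>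
    ((hGan s hs).deriv.differentiableAt.div (hG1 s hs).1 (hG1 s hs).2).differentiableWithinAt
  obtain ⟨F, hF⟩ := convex_primitive (sect_open' h) (sect_convex' h) hqd
  set R : Set ℂ := Sect ρ₀ ∩ {s : ℂ | 1 < s.re} with hR
  have hRo : IsOpen R :=
    (sect_open' h).inter (isOpen_lt continuous_const Complex.continuous_re)
  have hRc : Convex ℝ R := (sect_convex' h).inter (convex_halfSpace_re_gt _)
  have hw : ((2 : ℝ) : ℂ) ∈ R := ⟨sect_real' h (by norm_num), by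
    change 1 < ((2 : ℝ) : ℂ).re
    rw [Complex.ofReal_re]
    norm_num⟩
  set D := DD (lamS N e) (cS N α e) with hD
  have hDdiff : ∀ s ∈ R, DifferentiableAt ℂ D s := fun s hs =>
    (dd_deriv (E.datS he (σ := 1) (by norm_num)) hs.2).differentiableAt
  have hGD : ∀ s ∈ R, G s = exp (D s) := by
    intro s hs
    have h1 : 1 < s.re := hs.2
    rw [hG2 s (by linarith), hD, E.exp_DD hreal he (by linarith)]
  have hcon : ∀ s ∈ R, HasDerivAt (fun s => F s - D s) 0 s := by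
    intro s hs
    have e1 := (hDdiff s hs).hasDerivAt
    refine ((hF s hs.1).sub e1).congr_deriv ?_
    have e2 : G =ᶠ[𝓝 s] fun s => exp (D s) := by
      filter_upwards [hRo.mem_nhds hs] with z hz
      exact hGD z hz
    rw [e2.deriv_eq, e2.eq_of_nhds, e1.cexp.deriv]
    have := Complex.exp_ne_zero (D s)
    field_simp
    ring
  set k : ℂ := F ((2 : ℝ) : ℂ) - D ((2 : ℝ) : ℂ) with hk
  have hFD : ∀ s ∈ R, F s - k = D s := by
    intro s hs
    have := const_of_deriv hRo hRc hcon hs hw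
    rw [← hk] at this
    linear_combination this
  have hexp : ∀ s ∈ Sect ρ₀, exp (F s - k) = G s := by
    intro s hs
    have h1 : ∀ z ∈ Sect ρ₀, HasDerivAt (fun z => exp (F z - k) / G z) 0 z := by
      intro z hz
      have h2 := (hG1 z hz).2
      have e1 := ((hF z hz).sub_const k).cexp.div (hG1 z hz).1.hasDerivAt h2
      refine e1.congr_deriv ?_
      field_simp
      ring
    have h2 := const_of_deriv (sect_open' h) (sect_convex' h) h1 hs hw.1
    have h3 : exp (F ((2 : ℝ) : ℂ) - k) / G ((2 : ℝ) : ℂ) = 1 := by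
      rw [hFD _ hw, hGD _ hw, div_self (Complex.exp_ne_zero _)]
    rw [h3, div_eq_one_iff_eq (hG1 s hs).2] at h2
    exact h2
  have hxs := sect_real' h hx
  have e1 := Bdd.dh_conj h (Dh := fun s => F s - k) (lam := lamS N e) (c := cS N α e) (σ := 1)
    (fun s hs => (hF s hs).differentiableAt.sub_const k) (fun s hs hs2 => hFD s ⟨hs, hs2⟩) hxs
  rw [Complex.conj_ofReal] at e1
  have e2 := Complex.conj_eq_iff_im.1 e1
  refine ⟨Real.exp (F x - k).re, Real.exp_pos _, ?_⟩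
  rw [← hexp _ hxs, Complex.ofReal_exp]
  congr 1
  exact Complex.ext (by rw [Complex.ofReal_re]) (by rw [Complex.ofReal_im]; exact e2)

end Pool.Agent.R791.Mero
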