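import Pool.Agent.R791.Mero2

/-!
# Meromorphic continuations: order and leading coefficient
-/

set_option autoImplicit false

open MeasureTheory Filter Topology Set Complex
open Pool.Agent.TH942.LS (Dat P P_le Cont Qf)
open Pool.Agent.TH942.SL Pool.Agent.TH942.ES Pool.Agent.TH942.ES.Sys
open Pool.Agent.R791.SectGen (SectorAt mem_sectorAt nhds_map slow_center)

namespace Pool.Agent.R791.Mero

variable {X : Type} {d : ℕ} {N : X → ℕ} {α : X → Fin d → ℂ}

lemma axis_sector {c ρ x : ℝ} (hρ : 1 ≤ ρ) (hx : c < x) : (x : ℂ) ∈ SectorAt c ρ := by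
  rw [mem_sectorAt, ← Complex.ofReal_sub]
  exact sect_real' hρ (by linarith)

lemma axis_analytic {c ρ : ℝ} (hρ : 1 ≤ ρ) {G : ℂ → ℂ}
    (hG : ∀ s ∈ SectorAt c ρ, DifferentiableAt ℂ G s) {x : ℝ} (hx : c < x) :
    AnalyticAt ℂ G x := by
  have ho : IsOpen (SectorAt c ρ) := by
    have e : SectorAt c ρ = (fun s : ℂ => s - c) ⁻¹' (Sect ρ) := by
      ext s
      exact mem_sectorAt
    rw [e]
    exact (sect_open' hρ).preimage (by fun_prop)
  have h1 : DifferentiableOn ℂ G (SectorAt c ρ) := fun z hz => (hG z hz).differentiableWithinAt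
  exact h1.analyticAt (ho.mem_nhds (axis_sector hρ hx))

/-- **The order of a meromorphic continuation along the real axis from one asymptotic formula.** -/
theorem S_order (E : Sys N α) (c : ℝ) {F : ℂ → ℂ} (hF1 : ∀ x : ℝ, c ≤ x → MeromorphicAt F x)
    (hF2 : ∀ s : ℂ, c + 1 / 2 < s.re → F s = LE N α (s - c)) {ρ ρ' : ℝ} (h : 1 < ρ) (h' : ρ < ρ')
    {k : ℝ} (hS : ∃ C : ℝ, ∀ᶠ Y : ℝ in atTop, |SrE N α ρ ρ' Y - k * Real.log (Real.log Y)| ≤ C) :
    ∃ n : ℤ, (n : ℝ) = k ∧ meromorphicOrderAt F c = n := by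
  obtain ⟨C, hC⟩ := hS
  obtain ⟨G, h1, h2, A, B, hA, hB, h3⟩ := slow_center E c h h' hC
  have h4 := ray_agree (c := c) hF1 (G := G) (fun x hx =>
    axis_analytic h.le (fun s hs => (h1 s (Or.inl hs)).1) hx) (x₁ := c + 1 / 2) (fun s hs => by
      rw [hF2 s hs, h2 s hs])
  obtain ⟨n, hn, hn2, -⟩ := order_of_bounds (hF1 c le_rfl) (k := k) (B := B) hA (by
    have h5 : ∀ᶠ x : ℝ in 𝓝[>] c, x < c + 1 :=
      (eventually_lt_nhds (by linarith)).filter_mono nhdsWithin_le_nhds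
    filter_upwards [h4, h5, self_mem_nhdsWithin] with x hx hx1 hx2
    have hxc : (c : ℝ) < x := hx2
    have h6 := h3 (x - c) (by linarith) (by linarith)
    have e1 : (c : ℂ) + ((x - c : ℝ) : ℂ) = x := by push_cast; ring
    rw [e1] at h6
    rw [hx]
    exact h6)
  exact ⟨n, hn, hn2⟩

/-- **The order and the leading coefficient from one limit formula.** -/
theorem T_order (E : Sys N α) (hreal : ∀ v k, (∑ i, zv N α v i ^ k).im = 0) (c : ℝ) {F : ℂ → ℂ}
    (hF1 : ∀ x : ℝ, c ≤ x → MeromorphicAt F x)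
    (hF2 : ∀ s : ℂ, c + 1 / 2 < s.re → F s = LE N α (s - c)) {ρ ρ' : ℝ} (h : 1 < ρ) (h' : ρ < ρ')
    {r l : ℝ} (hT : Tendsto (fun Y : ℝ => StE N α ρ ρ' Y + r * Real.log (Real.log Y)) atTop
      (𝓝 l)) :
    ∃ n : ℤ, (n : ℝ) = r ∧ meromorphicOrderAt F c = n ∧ meromorphicTrailingCoeffAt F c =
      Real.exp (l + r * Real.eulerMascheroniConstant / ρ) := by
  set A : ℝ := Real.exp (l + r * Real.eulerMascheroniConstant / ρ) with hA
  have hA0 : 0 < A := Real.exp_pos _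
  have h1 := T_single E h h' hT
  have hAl : Real.log A = l + r * Real.eulerMascheroniConstant / ρ := Real.log_exp _
  simp only [← hAl] at h1
  obtain ⟨G, h2, h3, h4⟩ := (T_iff E hreal c h.le r hA0).1 h1
  have h5 := ray_agree (c := c) hF1 (G := G) (fun x hx =>
    axis_analytic h.le (fun s hs => (h2 s (Or.inl hs)).1) hx) (x₁ := c + 1 / 2) (fun s hs => by
      rw [hF2 s hs, h3 s hs])
  -- the limit along the axis
  have hax : Tendsto (fun x : ℝ => (x : ℂ)) (𝓝[>] c) (𝓝[SectorAt c (ρ + 1)] (c : ℂ)) := by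
    refine tendsto_nhdsWithin_of_tendsto_nhds_of_eventually_within _ ?_ ?_
    · exact (Complex.continuous_ofReal.tendsto c).mono_left nhdsWithin_le_nhds
    · filter_upwards [self_mem_nhdsWithin] with x hx
      exact axis_sector (by linarith) hx
  have h6 : Tendsto (fun x : ℝ => F x / ((x - c : ℝ) : ℂ) ^ (r : ℂ)) (𝓝[>] c) (𝓝 (A : ℂ)) := by
    refine ((h4 (ρ + 1) (by linarith)).comp hax).congr' ?_
    filter_upwards [h5] with x hx
    simp only [Function.comp_apply]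
    rw [hx]
    push_cast
    rfl
  have hpos : ∀ᶠ x : ℝ in 𝓝[>] c, c < x := self_mem_nhdsWithin
  have hnorm : ∀ x : ℝ, c < x → ‖((x - c : ℝ) : ℂ) ^ (r : ℂ)‖ = (x - c) ^ r := fun x hx => by
    rw [Complex.norm_cpow_eq_rpow_re_of_pos (by linarith), Complex.ofReal_re]
  have h7 : Tendsto (fun x : ℝ => ‖F x‖ / (x - c) ^ r) (𝓝[>] c) (𝓝 A) := by
    have e1 := h6.norm
    rw [Complex.norm_real, Real.norm_eq_abs, abs_of_pos hA0] at e1
    refine e1.congr' ?_
    filter_upwards [hpos] with x hx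
    rw [norm_div, hnorm x hx]
  obtain ⟨n, hn, hn2, g, hg, hg0, hg1, hFg⟩ := order_of_bounds (hF1 c le_rfl) (k := r)
    (A := A / 2) (B := 2 * A) (by positivity) (by
      filter_upwards [h7.eventually (lt_mem_nhds (show A / 2 < A by linarith)),
        h7.eventually (gt_mem_nhds (show A < 2 * A by linarith)), hpos] with x k1 k2 k3
      have hp : 0 < (x - c) ^ r := Real.rpow_pos_of_pos (by linarith) _
      rw [lt_div_iff₀ hp] at k1
      rw [div_lt_iff₀ hp] at k2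
      exact ⟨k1.le, k2.le⟩)
  refine ⟨n, hn, hn2, ?_⟩
  rw [hg1]
  have h2' : Tendsto (fun x : ℝ => (x : ℂ)) (𝓝[>] c) (𝓝[≠] (c : ℂ)) := by
    refine tendsto_nhdsWithin_of_tendsto_nhds_of_eventually_within _ ?_ ?_
    · exact (Complex.continuous_ofReal.tendsto c).mono_left nhdsWithin_le_nhds
    · filter_upwards [self_mem_nhdsWithin] with x hx
      simp only [Set.mem_compl_iff, Set.mem_singleton_iff, Complex.ofReal_inj]
      exact ne_of_gt hx
  have h8 : Tendsto (fun x : ℝ => g x) (𝓝[>] c) (𝓝 (g c)) :=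
    (hg.continuousAt.tendsto.mono_left nhdsWithin_le_nhds).comp h2'
  refine tendsto_nhds_unique h8 (h6.congr' ?_)
  filter_upwards [h2'.eventually hFg, hpos] with x k1 k2
  have hne : (((x - c : ℝ) : ℂ)) ≠ 0 := by
    exact_mod_cast (show x - c ≠ 0 by linarith)
  rw [k1, ← hn, Complex.ofReal_intCast, Complex.cpow_intCast]
  have e1 : (x : ℂ) - c = ((x - c : ℝ) : ℂ) := by push_cast; rfl
  rw [e1]
  field_simp

/-- the size of a meromorphic function without zeros and poles in a sector -/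
theorem size_sector {c ρ₀ : ℝ} (h : 1 ≤ ρ₀) {F : ℂ → ℂ} (hF0 : MeromorphicAt F c)
    (hF1 : ∀ s ∈ SectorAt c ρ₀, DifferentiableAt ℂ F s ∧ F s ≠ 0) :
    ∃ n : ℤ, meromorphicOrderAt F c = n ∧ meromorphicTrailingCoeffAt F c ≠ 0 ∧
      (∀ ρ : ℝ, ρ₀ < ρ → Tendsto (fun s => F s / (s - c) ^ ((n : ℝ) : ℂ)) (𝓝[SectorAt c ρ] (c : ℂ))
        (𝓝 (meromorphicTrailingCoeffAt F c))) ∧
      ∀ ρ : ℝ, ρ₀ < ρ → ∃ A B : ℝ, 0 < A ∧ 0 < B ∧ ∀ s ∈ SectorAt c ρ, ‖s - c‖ ≤ 1 →
        A * ‖s - c‖ ^ (n : ℝ) ≤ ‖F s‖ ∧ ‖F s‖ ≤ B * ‖s - c‖ ^ (n : ℝ) := by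
  have h2' : Tendsto (fun x : ℝ => (x : ℂ)) (𝓝[>] c) (𝓝[≠] (c : ℂ)) := by
    refine tendsto_nhdsWithin_of_tendsto_nhds_of_eventually_within _ ?_ ?_
    · exact (Complex.continuous_ofReal.tendsto c).mono_left nhdsWithin_le_nhds
    · filter_upwards [self_mem_nhdsWithin] with x hx
      simp only [Set.mem_compl_iff, Set.mem_singleton_iff, Complex.ofReal_inj]
      exact ne_of_gt hx
  have htop : meromorphicOrderAt F c ≠ ⊤ := by
    intro h3
    rw [meromorphicOrderAt_eq_top_iff] at h3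
    obtain ⟨x, h4, h5⟩ := ((h2'.eventually h3).and self_mem_nhdsWithin).exists
    exact (hF1 x (axis_sector h h5)).2 h4
  obtain ⟨n, hn⟩ := WithTop.ne_top_iff_exists.1 htop
  obtain ⟨g, hg, hg0, hFg⟩ := (meromorphicOrderAt_eq_int_iff hF0).1 hn.symm
  have hgc := hg.meromorphicTrailingCoeffAt_of_ne_zero_of_eq_nhdsNE hg0 hFg
  have hlim : ∀ ρ : ℝ, Tendsto (fun s => F s / (s - c) ^ ((n : ℝ) : ℂ)) (𝓝[SectorAt c ρ] (c : ℂ))
      (𝓝 (g c)) := by
    intro ρ
    have h8 : Tendsto g (𝓝[SectorAt c ρ] (c : ℂ)) (𝓝 (g c)) :=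
      hg.continuousAt.tendsto.mono_left nhdsWithin_le_nhds
    refine h8.congr' ?_
    have hsub : SectorAt c ρ ⊆ {(c : ℂ)}ᶜ := fun s hs => hs.1
    filter_upwards [(hFg.filter_mono (nhdsWithin_mono _ hsub)), self_mem_nhdsWithin] with s k1 k2
    have hne : s - (c : ℂ) ≠ 0 := sub_ne_zero.2 k2.1
    rw [k1, Complex.ofReal_intCast, Complex.cpow_intCast, smul_eq_mul]
    field_simp
  refine ⟨n, hn.symm, by rw [hgc]; exact hg0, fun ρ _ => by rw [hgc]; exact hlim ρ,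
    fun ρ hρ => ?_⟩
  obtain ⟨ρ₁, h4, h5⟩ := exists_between hρ
  have hρ11 : 1 < ρ₁ := by linarith
  have hsub := sect_mono' h h4.le
  -- the quotient and its inverse are bounded
  set q : ℂ → ℂ := fun s => F (s + c) / s ^ ((n : ℝ) : ℂ) with hq
  have hqlim : Tendsto q (𝓝[Sect ρ₁] 0) (𝓝 (g c)) := by
    have h6 := hlim ρ₁
    rw [nhds_map, tendsto_map'_iff] at h6
    refine h6.congr fun s => ?_
    simp [hq]
  have hpow0 : ∀ s ∈ Sect ρ₁, s ^ ((n : ℝ) : ℂ) ≠ 0 := fun s hs => by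
    rw [Ne, Complex.cpow_eq_zero_iff]
    exact fun h => hs.1 h.1
  have hq0 : ∀ s ∈ Sect ρ₁, q s ≠ 0 := fun s hs => by
    refine div_ne_zero (hF1 _ ?_).2 (hpow0 s hs)
    rw [mem_sectorAt, add_sub_cancel_right]
    exact hsub hs
  have hqc : ∀ s ∈ Sect ρ₁, ContinuousAt q s := fun s hs => by
    have hmem : s + c ∈ SectorAt c ρ₀ := by
      rw [mem_sectorAt, add_sub_cancel_right]
      exact hsub hs
    refine ContinuousAt.div ?_ ?_ (hpow0 s hs)
    · exact ContinuousAt.comp (f := fun s : ℂ => s + c) (hF1 _ hmem).1.continuousAt (by fun_prop)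
    · exact ContinuousAt.cpow continuousAt_id continuousAt_const (slit (sect_re hρ11 hs))
  have hgn : 0 < ‖g c‖ := norm_pos_iff.2 hg0
  obtain ⟨B, hB0, hB⟩ := Bdd.sect_bdd' hρ11 h5 (e := q) hqc (B := ‖g c‖ + 1)
    (hqlim.norm.eventually (gt_mem_nhds (lt_add_one _)) |>.mono fun s hs => hs.le) 1
  obtain ⟨A, hA0, hA⟩ := Bdd.sect_bdd' hρ11 h5 (e := fun s => (q s)⁻¹)
    (fun s hs => (hqc s hs).inv₀ (hq0 s hs)) (B := ‖(g c)⁻¹‖ + 1)
    ((hqlim.inv₀ hg0).norm.eventually (gt_mem_nhds (lt_add_one _)) |>.mono fun s hs => hs.le) 1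
  refine ⟨(A + 1)⁻¹, B + 1, by positivity, by positivity, fun s hs hsn => ?_⟩
  have hs' : s - c ∈ Sect ρ := mem_sectorAt.1 hs
  have hs1 : s - c ∈ Sect ρ₁ := sect_mono hρ11 h5.le hs'
  have hn' : 0 < ‖s - (c : ℂ)‖ := norm_pos_iff.2 hs'.1
  have hpn : ‖(s - c) ^ ((n : ℝ) : ℂ)‖ = ‖s - (c : ℂ)‖ ^ (n : ℝ) := by
    rw [Complex.ofReal_intCast, Complex.cpow_intCast, norm_zpow, Real.rpow_intCast]
  have hpp : 0 < ‖s - (c : ℂ)‖ ^ (n : ℝ) := Real.rpow_pos_of_pos hn' _
  have hqs : ‖F s‖ = ‖q (s - c)‖ * ‖s - (c : ℂ)‖ ^ (n : ℝ) := by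
    rw [hq]
    simp only
    rw [sub_add_cancel, norm_div, hpn]
    field_simp
  have e1 := hB _ hs' hsn
  have e2 := hA _ hs' hsn
  have hqp : 0 < ‖q (s - c)‖ := norm_pos_iff.2 (hq0 _ hs1)
  rw [hqs]
  constructor
  · refine mul_le_mul_of_nonneg_right ?_ hpp.le
    rw [norm_inv] at e2
    have e3 : ‖q (s - c)‖⁻¹ ≤ A + 1 := by linarith
    rw [inv_le_comm₀ (by positivity) hqp]
    exact e3
  · exact mul_le_mul_of_nonneg_right (by linarith) hpp.le

/-- **The asymptotic formula for continuations without zeros in the sector.** -/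
theorem S_of_cont (E : Sys N α) (c : ℝ) {F : ℂ → ℂ} {ρ₀ : ℝ} (h : 1 ≤ ρ₀)
    (hF0 : MeromorphicAt F c) (hF1 : ∀ s ∈ SectorAt c ρ₀, DifferentiableAt ℂ F s ∧ F s ≠ 0)
    (hF2 : ∀ s : ℂ, c + 1 / 2 < s.re → F s = LE N α (s - c)) :
    ∃ n : ℤ, meromorphicOrderAt F c = n ∧ ∀ ρ ρ' : ℝ, ρ₀ < ρ → ρ < ρ' → ∃ C : ℝ,
      ∀ᶠ Y : ℝ in atTop, |SrE N α ρ ρ' Y - n * Real.log (Real.log Y)| ≤ C := by
  obtain ⟨n, hn, -, -, h3⟩ := size_sector h hF0 hF1
  refine ⟨n, hn, (S_iff E c h n).2 ⟨F, fun s hs => ?_, hF2, h3⟩⟩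
  rcases hs with hs | hs
  · exact hF1 s hs
  · have ho : IsOpen {z : ℂ | c + 1 / 2 < z.re} := isOpen_lt continuous_const Complex.continuous_re
    have h4 : 1 / 2 < (s - (c : ℂ)).re := by
      rw [Complex.sub_re, Complex.ofReal_re]
      linarith
    obtain ⟨e1, e2⟩ := E.LE_diff h4
    constructor
    · refine DifferentiableAt.congr_of_eventuallyEq (f := fun s => LE N α (s - c)) ?_ ?_
      · exact DifferentiableAt.comp (g := LE N α) (f := fun s : ℂ => s - c) s e1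
          (differentiableAt_id.sub_const _)
      · filter_upwards [ho.mem_nhds hs] with z hz
        exact hF2 z hz
    · rw [hF2 s hs]
      exact e2

/-- **The limit formula for continuations without zeros in the sector.** -/
theorem T_of_cont (E : Sys N α) (hreal : ∀ v k, (∑ i, zv N α v i ^ k).im = 0) (c : ℝ) {F : ℂ → ℂ}
    {ρ₀ : ℝ} (h : 1 ≤ ρ₀) (hF0 : MeromorphicAt F c)
    (hF1 : ∀ s ∈ SectorAt c ρ₀, DifferentiableAt ℂ F s ∧ F s ≠ 0)
    (hF2 : ∀ s : ℂ, c + 1 / 2 < s.re → F s = LE N α (s - c)) :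
    ∃ (n : ℤ) (A : ℝ), 0 < A ∧ meromorphicOrderAt F c = n ∧ meromorphicTrailingCoeffAt F c = A ∧
      ∀ ρ ρ' : ℝ, ρ₀ < ρ → ρ < ρ' →
        Tendsto (fun Y : ℝ => StE N α ρ ρ' Y + n * Real.log (Real.log Y)) atTop
          (𝓝 (Real.log A - n * Real.eulerMascheroniConstant / ρ)) := by
  obtain ⟨n, hn, hκ0, hlim, -⟩ := size_sector h hF0 hF1
  set κ := meromorphicTrailingCoeffAt F c with hκ
  -- the values on the axis are positive
  have hadd : ∀ s : ℂ, (s + (c : ℂ)).re = s.re + c := fun s => by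
    rw [Complex.add_re, Complex.ofReal_re]
  have hpos : ∀ x : ℝ, 0 < x → ∃ y : ℝ, 0 < y ∧ F (x + c) = y := fun x hx =>
    pos_on_axis E hreal h (G := fun s => F (s + c)) (fun s hs => by
      have hmem : s + c ∈ SectorAt c ρ₀ := by
        rw [mem_sectorAt, add_sub_cancel_right]
        exact hs
      exact ⟨DifferentiableAt.comp (g := F) (f := fun s : ℂ => s + c) s (hF1 _ hmem).1
        (differentiableAt_id.add_const _), (hF1 _ hmem).2⟩) (fun s hs => by
      have := hF2 (s + c) (by rw [hadd]; linarith)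
      rwa [add_sub_cancel_right] at this) hx
  have hρ : ρ₀ < ρ₀ + 1 := by linarith
  have hax : Tendsto (fun x : ℝ => (x : ℂ) + c) (𝓝[>] 0) (𝓝[SectorAt c (ρ₀ + 1)] (c : ℂ)) := by
    refine tendsto_nhdsWithin_of_tendsto_nhds_of_eventually_within _ ?_ ?_
    · have : Continuous fun x : ℝ => (x : ℂ) + c := by fun_prop
      have h1 := this.tendsto 0
      rw [Complex.ofReal_zero, zero_add] at h1
      exact h1.mono_left nhdsWithin_le_nhds
    · filter_upwards [self_mem_nhdsWithin] with x hx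
      have := axis_sector (c := c) (ρ := ρ₀ + 1) (x := x + c) (by linarith) (by
        have : (0 : ℝ) < x := hx
        linarith)
      push_cast at this
      exact this
  have hl := (hlim (ρ₀ + 1) hρ).comp hax
  have hl2 : ∀ᶠ x : ℝ in 𝓝[>] 0, ∃ y : ℝ, 0 < y ∧
      ((fun s => F s / (s - c) ^ ((n : ℝ) : ℂ)) ∘ fun x : ℝ => (x : ℂ) + c) x = y := by
    filter_upwards [self_mem_nhdsWithin] with x hx
    have hx0 : (0 : ℝ) < x := hx
    obtain ⟨y, hy, hy2⟩ := hpos x hx0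
    refine ⟨y / x ^ (n : ℝ), by positivity, ?_⟩
    simp only [Function.comp_apply]
    rw [hy2, add_sub_cancel_right, ← Complex.ofReal_cpow hx0.le]
    push_cast
    rfl
  have hre : 0 ≤ κ.re := by
    have h3 := (Complex.continuous_re.tendsto _).comp hl
    refine ge_of_tendsto h3 ?_
    filter_upwards [hl2] with x hx
    obtain ⟨y, hy, hy2⟩ := hx
    rw [Function.comp_apply, hy2, Complex.ofReal_re]
    exact hy.le
  have him : κ.im = 0 := by
    have h3 := (Complex.continuous_im.tendsto _).comp hl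
    refine tendsto_nhds_unique h3 ((tendsto_const_nhds (x := (0 : ℝ))).congr' ?_)
    filter_upwards [hl2] with x hx
    obtain ⟨y, hy, hy2⟩ := hx
    rw [Function.comp_apply, hy2, Complex.ofReal_im]
  have hκr : κ = ((κ.re : ℝ) : ℂ) := Complex.ext (by rw [Complex.ofReal_re])
    (by rw [Complex.ofReal_im]; exact him)
  have hκp : 0 < κ.re := by
    refine lt_of_le_of_ne hre fun h0 => hκ0 ?_
    rw [hκr, ← h0, Complex.ofReal_zero]
  refine ⟨n, κ.re, hκp, hn, hκr, (T_iff E hreal c h n hκp).2 ⟨F, fun s hs => ?_, hF2,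
    fun ρ hρ => ?_⟩⟩
  · rcases hs with hs | hs
    · exact hF1 s hs
    · have ho : IsOpen {z : ℂ | c + 1 / 2 < z.re} :=
        isOpen_lt continuous_const Complex.continuous_re
      have h4 : 1 / 2 < (s - (c : ℂ)).re := by
        rw [Complex.sub_re, Complex.ofReal_re]
        linarith
      obtain ⟨e1, e2⟩ := E.LE_diff h4
      constructor
      · refine DifferentiableAt.congr_of_eventuallyEq (f := fun s => LE N α (s - c)) ?_ ?_
        · exact DifferentiableAt.comp (g := LE N α) (f := fun s : ℂ => s - c) s e1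
            (differentiableAt_id.sub_const _)
        · filter_upwards [ho.mem_nhds hs] with z hz
          exact hF2 z hz
      · rw [hF2 s hs]
        exact e2
  · rw [← hκr]
    exact hlim ρ hρ

end Pool.Agent.R791.Mero
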