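import Pool.Agent.TH942.ES.Ext
import Pool.Agent.TH942.ES.StarExt

/-!
# Euler products: sectorial sums and analytic continuation, general packaging

The theorems of `Pool.Agent.TH942.ES`, translated to an arbitrary real centre `c`.
-/

set_option autoImplicit false

namespace Pool.Agent.R791.SectGen

open Filter Topology Complex
open Pool.Agent.TH942.ES Pool.Agent.TH942.SL

variable {X : Type} {d : ℕ} {N : X → ℕ} {α : X → Fin d → ℂ}

/-- slow growth of the sectorial sums -/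
def Slow (N : X → ℕ) (α : X → Fin d → ℂ) (ρ ρ' : ℝ) : Prop :=
  ∀ ε : ℝ, 0 < ε → ∃ C : ℝ, ∀ᶠ Y : ℝ in atTop,
    |SrE N α ρ ρ' Y| ≤ C * Real.exp (ε * Real.log Y ^ ρ)

/-- the open sector of half opening `π / (2ρ)` with vertex `c` -/
def SectorAt (c : ℝ) (ρ : ℝ) : Set ℂ := {s | s ≠ c ∧ |(s - c).arg| < Real.pi / (2 * ρ)}

lemma mem_sectorAt {c ρ : ℝ} {s : ℂ} : s ∈ SectorAt c ρ ↔ s - c ∈ Sect ρ := by
  unfold SectorAt Sect
  simp only [Set.mem_ofPred_eq, ne_eq, sub_eq_zero]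

lemma sub_re (c : ℝ) (s : ℂ) : (s - c).re = s.re - c := by simp

theorem slow_iff (E : Sys N α) (c : ℝ) {ρ ρ' : ℝ} (hρ : 1 < ρ) (hρ' : ρ < ρ') :
    Slow N α ρ ρ' ↔ ∃ G : ℂ → ℂ,
      (∀ s : ℂ, s ∈ SectorAt c ρ ∨ c + 1 / 2 < s.re → DifferentiableAt ℂ G s ∧ G s ≠ 0) ∧
      ∀ s : ℂ, c + 1 / 2 < s.re → G s = LE N α (s - c) := by
  constructor
  · intro h
    obtain ⟨G, h1, h2, -⟩ := E.cont_of_small hρ hρ' h
    refine ⟨fun s => G (s - c), fun s hs => ?_, fun s hs => h2 _ ?_⟩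
    · have h3 : s - c ∈ Sect ρ ∨ 1 / 2 < (s - c).re := by
        rcases hs with hs | hs
        · exact Or.inl (mem_sectorAt.1 hs)
        · right; rw [sub_re]; linarith
      refine ⟨?_, (h1 _ h3).2⟩
      exact DifferentiableAt.comp (g := G) (f := fun s : ℂ => s - c) s (h1 _ h3).1
        (differentiableAt_id.sub_const _)
    · rw [sub_re]; linarith
  · rintro ⟨G, h1, h2⟩ ε hε
    have e1 : ∀ s ∈ Sect ρ, s + c ∈ SectorAt c ρ := fun s hs => by
      rw [mem_sectorAt, add_sub_cancel_right]; exact hs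
    refine E.small_of_cont hρ hρ' (G := fun s => G (s + c)) (fun s hs => ?_)
      (fun s hs => (h1 _ (Or.inl (e1 s hs))).2) (σ := 1 / 2) (fun s hs hs2 => ?_) hε
    · exact DifferentiableAt.comp (g := G) (f := fun s : ℂ => s + c) s
        (h1 _ (Or.inl (e1 s hs))).1 (differentiableAt_id.add_const _)
    · have h3 := h2 (s + c) (by simp; linarith)
      rw [add_sub_cancel_right] at h3
      exact h3

/-- the continuation to the sector with a given order of magnitude at the centre -/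
theorem slow_center (E : Sys N α) (c : ℝ) {ρ ρ' : ℝ} (hρ : 1 < ρ) (hρ' : ρ < ρ') {K C : ℝ}
    (h : ∀ᶠ Y : ℝ in atTop, |SrE N α ρ ρ' Y - K * Real.log (Real.log Y)| ≤ C) :
    ∃ G : ℂ → ℂ,
      (∀ s : ℂ, s ∈ SectorAt c ρ ∨ c + 1 / 2 < s.re → DifferentiableAt ℂ G s ∧ G s ≠ 0) ∧
      (∀ s : ℂ, c + 1 / 2 < s.re → G s = LE N α (s - c)) ∧
      ∃ A B : ℝ, 0 < A ∧ 0 < B ∧ ∀ x : ℝ, 0 < x → x ≤ 1 →
          A * x ^ K ≤ ‖G (c + x)‖ ∧ ‖G (c + x)‖ ≤ B * x ^ K := by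
  have hslow : Slow N α ρ ρ' := by
    intro ε hε
    refine ⟨|C| + |K| / ε, ?_⟩
    filter_upwards [h, Real.tendsto_log_atTop.eventually_ge_atTop 1] with Y h1 h2
    have hT : 0 < Real.log Y := by linarith
    have e0 : 0 ≤ Real.log (Real.log Y) := Real.log_nonneg h2
    have e1 : Real.log (Real.log Y) ≤ Real.log Y ^ ρ := by
      have e2 := Real.log_le_sub_one_of_pos hT
      have e3 : Real.log Y ≤ Real.log Y ^ ρ := by
        conv_lhs => rw [← Real.rpow_one (Real.log Y)]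
        exact Real.rpow_le_rpow_of_exponent_le h2 hρ.le
      linarith
    have e2 : ε * Real.log Y ^ ρ ≤ Real.exp (ε * Real.log Y ^ ρ) := by
      have := Real.add_one_le_exp (ε * Real.log Y ^ ρ)
      linarith
    have e3 : 1 ≤ Real.exp (ε * Real.log Y ^ ρ) := Real.one_le_exp (by positivity)
    have e4 : |SrE N α ρ ρ' Y| ≤ C + |K| * Real.log (Real.log Y) := by
      have h5 := abs_sub_abs_le_abs_sub (SrE N α ρ ρ' Y) (K * Real.log (Real.log Y))
      rw [abs_mul, abs_of_nonneg e0] at h5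
      linarith
    have e5 : |K| * Real.log (Real.log Y) ≤ |K| / ε * (ε * Real.log Y ^ ρ) := by
      have : |K| / ε * (ε * Real.log Y ^ ρ) = |K| * Real.log Y ^ ρ := by field_simp
      rw [this]
      exact mul_le_mul_of_nonneg_left e1 (abs_nonneg K)
    have e6 : |K| / ε * (ε * Real.log Y ^ ρ) ≤ |K| / ε * Real.exp (ε * Real.log Y ^ ρ) :=
      mul_le_mul_of_nonneg_left e2 (by positivity)
    have e7 : |C| ≤ |C| * Real.exp (ε * Real.log Y ^ ρ) :=
      le_mul_of_one_le_right (abs_nonneg C) e3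
    have e8 := le_abs_self C
    rw [add_mul]
    linarith
  obtain ⟨G, h1, h2, h3⟩ := E.cont_of_small hρ hρ' hslow
  obtain ⟨A, B, hA, hB, h4⟩ := h3 K C h
  refine ⟨fun s => G (s - c), fun s hs => ?_, fun s hs => h2 _ ?_, A, B, hA, hB,
    fun x hx hx1 => ?_⟩
  · have h3 : s - c ∈ Sect ρ ∨ 1 / 2 < (s - c).re := by
      rcases hs with hs | hs
      · exact Or.inl (mem_sectorAt.1 hs)
      · right; rw [sub_re]; linarith
    refine ⟨?_, (h1 _ h3).2⟩
    exact DifferentiableAt.comp (g := G) (f := fun s : ℂ => s - c) s (h1 _ h3).1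
      (differentiableAt_id.sub_const _)
  · rw [sub_re]; linarith
  · have := h4 x hx hx1
    simpa using this

theorem slow_all (E : Sys N α) (c : ℝ) : List.TFAE [
    ∃ G : ℂ → ℂ, (∀ s : ℂ, c < s.re → DifferentiableAt ℂ G s ∧ G s ≠ 0) ∧
      ∀ s : ℂ, c + 1 / 2 < s.re → G s = LE N α (s - c),
    ∀ ρ ρ' : ℝ, 1 < ρ → ρ < ρ' → Slow N α ρ ρ',
    ∀ ρ₁ : ℝ, 1 < ρ₁ → ∃ ρ ρ' : ℝ, 1 < ρ ∧ ρ < ρ₁ ∧ ρ < ρ' ∧ Slow N α ρ ρ'] := by
  tfae_have 1 → 2 := by
    rintro ⟨G, h1, h2⟩ ρ ρ' hρ hρ'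
    refine (slow_iff E c hρ hρ').2 ⟨G, fun s hs => h1 s ?_, h2⟩
    rcases hs with hs | hs
    · have := sect_re hρ (mem_sectorAt.1 hs)
      rw [sub_re] at this
      linarith
    · linarith
  tfae_have 2 → 3 := by
    intro h ρ₁ hρ₁
    exact ⟨(1 + ρ₁) / 2, ρ₁, by linarith, by linarith, by linarith,
      h _ _ (by linarith) (by linarith)⟩
  tfae_have 3 → 1 := by
    intro h
    obtain ⟨G, h1, h2⟩ := Sys.glue (L := LE N α) fun ρ₁ hρ₁ => by
      obtain ⟨ρ, ρ', hρ, hρρ₁, hρ', hS⟩ := h ρ₁ hρ₁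
      obtain ⟨G, h1, h2, -⟩ := E.cont_of_small hρ hρ' hS
      exact ⟨G, fun s hs => h1 s (Or.inl (sect_mono hρ hρρ₁.le hs)), fun s _ hs2 => h2 s hs2⟩
    refine ⟨fun s => G (s - c), fun s hs => ?_, fun s hs => h2 _ (by rw [sub_re]; linarith)⟩
    have h3 : 0 < (s - c).re := by rw [sub_re]; linarith
    refine ⟨?_, (h1 _ h3).2⟩
    exact DifferentiableAt.comp (g := G) (f := fun s : ℂ => s - c) s (h1 _ h3).1
      (differentiableAt_id.sub_const _)
  tfae_finish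

lemma nhds_map (c ρ : ℝ) : 𝓝[SectorAt c ρ] (c : ℂ) = Filter.map (fun s : ℂ => s + c) (𝓝[Sect ρ] 0) := by
  have h := (Homeomorph.addRight (c : ℂ)).isEmbedding.map_nhdsWithin_eq (Sect ρ) (0 : ℂ)
  have e1 : (Homeomorph.addRight (c : ℂ)) '' (Sect ρ) = SectorAt c ρ := by
    ext s
    constructor
    · rintro ⟨t, ht, rfl⟩
      rw [mem_sectorAt]
      simpa using ht
    · intro hs
      exact ⟨s - c, mem_sectorAt.1 hs, by simp⟩
  rw [e1] at h
  simp only [Homeomorph.coe_addRight, zero_add] at h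
  exact h.symm

theorem star_iff (E : Sys N α) (hreal : ∀ v k, (∑ i, zv N α v i ^ k).im = 0) (c : ℝ) {ρ₀ : ℝ}
    (h : 1 ≤ ρ₀) (r : ℕ) {A : ℝ} (hA : 0 < A) :
    (∀ ρ ρ' : ℝ, ρ₀ < ρ → ρ < ρ' →
      Tendsto (fun Y : ℝ => StE N α ρ ρ' Y + r * Real.log (Real.log Y)) atTop
        (𝓝 (Real.log A - r * Real.eulerMascheroniConstant / ρ))) ↔
    ∃ G : ℂ → ℂ,
      (∀ s : ℂ, s ∈ SectorAt c ρ₀ ∨ c + 1 / 2 < s.re → DifferentiableAt ℂ G s ∧ G s ≠ 0) ∧
      (∀ s : ℂ, c + 1 / 2 < s.re → G s = LE N α (s - c)) ∧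
      ∀ ρ : ℝ, ρ₀ < ρ → Tendsto (fun s => G s / (s - c) ^ r) (𝓝[SectorAt c ρ] (c : ℂ))
        (𝓝 (A : ℂ)) := by
  rw [E.star_equiv hreal h r hA]
  constructor
  · rintro ⟨G, h1, h2, h3⟩
    refine ⟨fun s => G (s - c), fun s hs => ?_, fun s hs => h2 _ (by rw [sub_re]; linarith),
      fun ρ hρ => ?_⟩
    · have h4 : s - c ∈ Sect ρ₀ ∨ 1 / 2 < (s - c).re := by
        rcases hs with hs | hs
        · exact Or.inl (mem_sectorAt.1 hs)
        · right; rw [sub_re]; linarith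
      refine ⟨?_, (h1 _ h4).2⟩
      exact DifferentiableAt.comp (g := G) (f := fun s : ℂ => s - c) s (h1 _ h4).1
        (differentiableAt_id.sub_const _)
    · rw [nhds_map, tendsto_map'_iff]
      refine (h3 ρ hρ).congr fun s => ?_
      simp
  · rintro ⟨G, h1, h2, h3⟩
    refine ⟨fun s => G (s + c), fun s hs => ?_, fun s hs => ?_, fun ρ hρ => ?_⟩
    · have h4 : s + c ∈ SectorAt c ρ₀ ∨ c + 1 / 2 < (s + c).re := by
        rcases hs with hs | hs
        · left; rw [mem_sectorAt, add_sub_cancel_right]; exact hs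
        · right; simp; linarith
      refine ⟨?_, (h1 _ h4).2⟩
      exact DifferentiableAt.comp (g := G) (f := fun s : ℂ => s + c) s (h1 _ h4).1
        (differentiableAt_id.add_const _)
    · have h5 := h2 (s + c) (by simp; linarith)
      rw [add_sub_cancel_right] at h5
      exact h5
    · have h5 := h3 ρ hρ
      rw [nhds_map, tendsto_map'_iff] at h5
      refine h5.congr fun s => ?_
      simp

end Pool.Agent.R791.SectGen
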